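import Mathlib

/-!
# MP_1eadae_ag (T1): definitions of the complex framework

Points have complex coordinates; the coordinates `i` with `X i = seg` run over the segment
`[0,1] ⊂ ℂ`, auxiliary coordinates run over closed discs or circles.
-/

namespace MP1eadaeL

open Complex Function

/-- points with complex coordinates -/
abbrev Pt := ℕ → ℂ

/-- the segment `[0,1]` in `ℂ` -/
def seg : Set ℂ := (fun t : ℝ => (t : ℂ)) '' Set.Icc (0 : ℝ) 1

/-- all coordinates in the segment -/
def X0 : ℕ → Set ℂ := fun _ => seg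

/-- product domain -/
def Dom (X : ℕ → Set ℂ) : Set Pt := {z | ∀ i, z i ∈ X i}

/-- value of a polynomial -/
noncomputable def pev {K : Subfield ℂ} (P : MvPolynomial ℕ K) (z : Pt) : ℂ :=
  MvPolynomial.aeval z P

/-- rational functions with coefficients in `K` without poles on `Dom X` -/
def IsRat (K : Subfield ℂ) (X : ℕ → Set ℂ) (F : Pt → ℂ) : Prop :=
  ∃ P Q : MvPolynomial ℕ K, ∀ z ∈ Dom X, pev Q z ≠ 0 ∧ F z = pev P z / pev Q z

/-- `F` depends on `Dom X` only on the coordinates in `S` -/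
def DepOn (X : ℕ → Set ℂ) (S : Set ℕ) (F : Pt → ℂ) : Prop :=
  ∀ z ∈ Dom X, ∀ w ∈ Dom X, (∀ i ∈ S, z i = w i) → F z = F w

/-- `F` does not depend on the coordinate `i` on `Dom X` -/
def Indep (X : ℕ → Set ℂ) (i : ℕ) (F : Pt → ℂ) : Prop :=
  ∀ z ∈ Dom X, ∀ w ∈ X i, F (update z i w) = F z

/-- `H` is the partial derivative of `G` in the direction `i` on `Dom X` -/
def Part (X : ℕ → Set ℂ) (i : ℕ) (G H : Pt → ℂ) : Prop :=
  ∀ z ∈ Dom X, HasDerivWithinAt (fun w => G (update z i w)) (H z) (X i) (z i)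

/-- The additive span (modulo equality on `Dom X`) of the Stokes elements
`∂_i G - G|_{z_i=1} + G|_{z_i=0}` with `i ∈ I` and `G, ∂_i G` in the class `C`. -/
inductive St (C : (Pt → ℂ) → Prop) (X : ℕ → Set ℂ) (I : Set ℕ) : (Pt → ℂ) → Prop
  | gen (i : ℕ) (hi : i ∈ I) (G H : Pt → ℂ) (hG : C G) (hH : C H) (hP : Part X i G H) :
      St C X I (fun z => H z - G (update z i 1) + G (update z i 0))
  | zero : St C X I (fun _ => 0)
  | add (F G : Pt → ℂ) : St C X I F → St C X I G → St C X I (fun z => F z + G z)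
  | neg (F : Pt → ℂ) : St C X I F → St C X I (fun z => - F z)
  | congr (F G : Pt → ℂ) : St C X I F → (∀ z ∈ Dom X, F z = G z) → St C X I G

/-- rational parametrisation of the `j`-th quarter of the unit circle -/
noncomputable def uj (j : ℕ) (t : ℂ) : ℂ := I ^ j * ((1 + I * t) / (1 - I * t))

/-- its derivative -/
noncomputable def duj (j : ℕ) (t : ℂ) : ℂ := I ^ j * (2 * I / (1 - I * t) ^ 2)

/-- closed disc -/
def disc (c : ℂ) (r : ℚ) : Set ℂ := Metric.closedBall c (r : ℝ)

/-- circle -/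
def circ (c : ℂ) (r : ℚ) : Set ℂ := Metric.sphere c (r : ℝ)

/-- The contour integral of `H` in the `p`-th variable over the circle `|y - c| = r`, as an
integrand in the parameter `z p ∈ [0,1]`. -/
noncomputable def ctr (p : ℕ) (c : ℂ) (r : ℚ) (H : Pt → ℂ) : Pt → ℂ := fun z =>
  ∑ j ∈ Finset.range 4, H (update z p (c + (r : ℂ) * uj j (z p))) * ((r : ℂ) * duj j (z p))

/-- the integrand `8i/(1+z_p^2)`, whose integral over `[0,1]` is `2πi` -/
noncomputable def tpi (p : ℕ) : Pt → ℂ := fun z => 8 * I / (1 + (z p) ^ 2)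

/-- A pencil: a rational function `Q` on `Dom X × disc c r` (the disc being the range of the `p`-th
coordinate) which is close to `y - c`; then `Q(z, ·)` has exactly one zero in the disc, it is simple,
and it lies in the interior.  `Qy` is the derivative with respect to the `p`-th coordinate. -/
structure Pencil (K : Subfield ℂ) (X : ℕ → Set ℂ) (p : ℕ) (Q Qy : Pt → ℂ) (c : ℂ) (r : ℚ) :
    Prop where
  ratQ : IsRat K (update X p (disc c r)) Q
  ratQy : IsRat K (update X p (disc c r)) Qy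
  part : Part (update X p (disc c r)) p Q Qy
  hc : c ∈ K
  hr : 0 < r
  contr : ∀ z ∈ Dom X, ∀ w ∈ disc c r, ∀ w' ∈ disc c r,
    ‖(Q (update z p w) - w) - (Q (update z p w') - w')‖ ≤ 1 / 2 * ‖w - w'‖
  cen : ∀ z ∈ Dom X, ‖Q (update z p c)‖ < (r : ℝ) / 2

/-- the residue integrand: contour integral of `F dQ/Q` -/
noncomputable def res (p : ℕ) (c : ℂ) (r : ℚ) (F Q Qy : Pt → ℂ) : Pt → ℂ :=
  ctr p c r (fun z => F z * Qy z / Q z)

/-- `Rep K n f g`: `f` is a function of the first `n` coordinates, which is on the whole cube of the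
form `F(z, η(z))` with `η` the root of a pencil in the coordinate `n`, and `g` is the corresponding
residue integrand (representing `2πi f`). -/
def Rep (K : Subfield ℂ) (n : ℕ) (f g : Pt → ℂ) : Prop :=
  DepOn X0 (Set.Iio n) f ∧ ∃ (c : ℂ) (r : ℚ) (F Q Qy : Pt → ℂ),
    Pencil K X0 n Q Qy c r ∧ IsRat K (update X0 n (disc c r)) F ∧
    DepOn (update X0 n (disc c r)) (Set.Iio (n + 1)) F ∧
    DepOn (update X0 n (disc c r)) (Set.Iio (n + 1)) Q ∧
    (∀ z ∈ Dom X0, ∀ w ∈ disc c r, Q (update z n w) = 0 → F (update z n w) = f z) ∧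
    (∀ z ∈ Dom X0, g z = res n c r F Q Qy z)

/-- The affine map of the cube onto the grid cube with index `a` in the coordinates `< n`. -/
noncomputable def sc (n N : ℕ) (a : Fin n → Fin N) (z : Pt) : Pt := fun i =>
  if h : i < n then (z i + ((a ⟨i, h⟩ : ℕ) : ℂ)) / (N : ℂ) else z i

/-! ## local algebra: germs of functions on a topological space -/

section germs

variable {R : Type} [CommRing R] {D : Type} [TopologicalSpace D]

/-- evaluation of a polynomial over a ring of functions on `D` -/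
noncomputable def evR (φ : R →+* (D → ℂ)) (q : Polynomial R) (z : D) (y : ℂ) : ℂ :=
  q.eval₂ ((Pi.evalRingHom (fun _ : D => ℂ) z).comp φ) y

/-- `w` is, near `z0`, a continuous simple root of the polynomial `q` -/
def SRq (φ : R →+* (D → ℂ)) (z0 : D) (q : Polynomial R) (w : D → ℂ) : Prop :=
  ∀ᶠ z in nhds z0, ContinuousAt w z ∧ evR φ q z (w z) = 0 ∧
    evR φ (Polynomial.derivative q) z (w z) ≠ 0

/-- `w` is, near `z0`, a continuous simple root of some polynomial over `R` -/
def SR (φ : R →+* (D → ℂ)) (z0 : D) (w : D → ℂ) : Prop := ∃ q : Polynomial R, SRq φ z0 q w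

/-- near `z0`, `a = A(w)/B(w)` -/
def InE (φ : R →+* (D → ℂ)) (z0 : D) (w a : D → ℂ) : Prop :=
  ∃ A B : Polynomial R, ∀ᶠ z in nhds z0, evR φ B z (w z) ≠ 0 ∧
    a z = evR φ A z (w z) / evR φ B z (w z)

end germs

/-- the `n`-dimensional cube, as a type -/
abbrev CubeT (n : ℕ) : Type := {z : Fin n → ℂ // ∀ i, z i ∈ seg}

/-- polynomials as functions on the `n`-dimensional cube -/
noncomputable def phi (K : Subfield ℂ) (n : ℕ) : MvPolynomial (Fin n) K →+* (CubeT n → ℂ) :=
  RingHom.pi fun z => (MvPolynomial.aeval (z.1) : MvPolynomial (Fin n) K →ₐ[K] ℂ).toRingHom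

/-- value of a polynomial in the variables `z_0..z_{n-1}` and `y` -/
noncomputable def ev2 {K : Subfield ℂ} {n : ℕ} (P : Polynomial (MvPolynomial (Fin n) K))
    (z : Fin n → ℂ) (y : ℂ) : ℂ :=
  P.eval₂ (MvPolynomial.aeval z : MvPolynomial (Fin n) K →ₐ[K] ℂ).toRingHom y

/-- extension of a point of the `n`-cube by `0` -/
noncomputable def ext {n : ℕ} (z : CubeT n) : Pt := fun i => if h : i < n then z.1 ⟨i, h⟩ else 0

/-- the first `n` coordinates of a point -/
def rst (n : ℕ) (z : Pt) : Fin n → ℂ := fun i => z i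

/-- local presentation of a function on the `n`-cube near a point -/
def LocPres (K : Subfield ℂ) (n : ℕ) (f : CubeT n → ℂ) (z0 : CubeT n) : Prop :=
  ∃ w : CubeT n → ℂ, SR (phi K n) z0 w ∧ InE (phi K n) z0 w f

/-- algebraic (Nash) functions of `n` variables on the cube -/
def AlgAt (K : Subfield ℂ) (n : ℕ) (f : Pt → ℂ) : Prop :=
  DepOn X0 (Set.Iio n) f ∧ ∀ z0 : CubeT n, LocPres K n (fun z => f (ext z)) z0

/-- algebraic (Nash) functions on the cube -/
def AlgK (K : Subfield ℂ) (f : Pt → ℂ) : Prop := ∃ n, AlgAt K n f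

/-- a class of functions on the cube in which the calculus of Stokes relations works -/
structure GoodClass (K : Subfield ℂ) (C : (Pt → ℂ) → Prop) : Prop where
  congr : ∀ F G, C F → (∀ z ∈ Dom X0, F z = G z) → C G
  add : ∀ F G, C F → C G → C (fun z => F z + G z)
  mulcomp : ∀ (F R : Pt → ℂ) (φ : Pt → Pt), C F → IsRat K X0 R →
    (∀ i, IsRat K X0 (fun z => φ z i)) → (∀ z ∈ Dom X0, φ z ∈ Dom X0) →
    C (fun z => R z * F (φ z))
  part : ∀ F i, C F → ∃ F', C F' ∧ Part X0 i F F'
  dep : ∀ F, C F → ∃ n, DepOn X0 (Set.Iio n) F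
  rat : ∀ F, IsRat K X0 F → C F

end MP1eadaeL
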