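import Mathlib
import Pool.Agent.Lib_MP_1eadae_ag.Defs

/-! # MP_1eadae_ag, piece GERM: the local ring generated by a simple root -/

namespace MP1eadaeL

open Complex Function Polynomial

variable {R : Type} [CommRing R] {D : Type} [TopologicalSpace D] {φ : R →+* (D → ℂ)} {z0 : D}
  {w a b : D → ℂ}

/- Piece GERM.  Replace every sorry.  `InE φ z0 w a` : near `z0`, `a = A(w)/B(w)` with `A, B ∈ R[X]`,
`B(w) ≠ 0`. -/

/-- evaluation of a polynomial in two variables `T` (inner) and `X` (outer) -/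
noncomputable def evRR (φ : R →+* (D → ℂ)) (q : R[X][X]) (z : D) (y1 y2 : ℂ) : ℂ :=
  q.eval₂ (Polynomial.eval₂RingHom ((Pi.evalRingHom (fun _ : D => ℂ) z).comp φ) y1) y2

private theorem germ_add (p q : R[X]) (z : D) (y : ℂ) :
    MP1eadaeL.evR φ (p + q) z y = MP1eadaeL.evR φ p z y + MP1eadaeL.evR φ q z y :=
  Polynomial.eval₂_add _ _

private theorem germ_mul (p q : R[X]) (z : D) (y : ℂ) :
    MP1eadaeL.evR φ (p * q) z y = MP1eadaeL.evR φ p z y * MP1eadaeL.evR φ q z y :=
  Polynomial.eval₂_mul _ _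

private theorem germ_neg (p : R[X]) (z : D) (y : ℂ) :
    MP1eadaeL.evR φ (-p) z y = - MP1eadaeL.evR φ p z y :=
  Polynomial.eval₂_neg _

private theorem germ_one (z : D) (y : ℂ) : MP1eadaeL.evR φ (1 : R[X]) z y = 1 :=
  Polynomial.eval₂_one _ _

private theorem germ_C (r : R) (z : D) (y : ℂ) : MP1eadaeL.evR φ (C r) z y = φ r z :=
  Polynomial.eval₂_C _ _

private theorem germ_X (z : D) (y : ℂ) : MP1eadaeL.evR φ (X : R[X]) z y = y :=
  Polynomial.eval₂_X _ _

private theorem germ_monomial (n : ℕ) (r : R) (z : D) (y : ℂ) :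
    MP1eadaeL.evR φ (monomial n r) z y = φ r z * y ^ n :=
  Polynomial.eval₂_monomial _ _

private theorem germ_add' (p q : R[X][X]) (z : D) (y1 y2 : ℂ) :
    MP1eadaeL.evRR φ (p + q) z y1 y2 = MP1eadaeL.evRR φ p z y1 y2 + MP1eadaeL.evRR φ q z y1 y2 :=
  Polynomial.eval₂_add _ _

private theorem germ_monomial' (n : ℕ) (p : R[X]) (z : D) (y1 y2 : ℂ) :
    MP1eadaeL.evRR φ (monomial n p) z y1 y2 = MP1eadaeL.evR φ p z y1 * y2 ^ n :=
  Polynomial.eval₂_monomial _ _

theorem InE.congr (h : InE φ z0 w a) (hab : ∀ᶠ z in nhds z0, a z = b z) : InE φ z0 w b := by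
  obtain ⟨A, B, h1⟩ := h
  refine ⟨A, B, ?_⟩
  filter_upwards [h1, hab] with z hz hz2
  exact ⟨hz.1, hz2 ▸ hz.2⟩

theorem InE.coef (r : R) : InE φ z0 w (φ r) := by
  refine ⟨C r, 1, Filter.Eventually.of_forall fun z => ?_⟩
  rw [germ_one, germ_C]
  exact ⟨one_ne_zero, (div_one _).symm⟩

theorem InE.self : InE φ z0 w w := by
  refine ⟨X, 1, Filter.Eventually.of_forall fun z => ?_⟩
  rw [germ_one, germ_X]
  exact ⟨one_ne_zero, (div_one _).symm⟩

theorem InE.add (ha : InE φ z0 w a) (hb : InE φ z0 w b) : InE φ z0 w (fun z => a z + b z) := by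
  obtain ⟨A1, B1, h1⟩ := ha
  obtain ⟨A2, B2, h2⟩ := hb
  refine ⟨A1 * B2 + A2 * B1, B1 * B2, ?_⟩
  filter_upwards [h1, h2] with z hz1 hz2
  obtain ⟨h3, h4⟩ := hz1
  obtain ⟨h5, h6⟩ := hz2
  rw [germ_mul, germ_add, germ_mul, germ_mul, h4, h6]
  refine ⟨mul_ne_zero h3 h5, ?_⟩
  field_simp

theorem InE.mul (ha : InE φ z0 w a) (hb : InE φ z0 w b) : InE φ z0 w (fun z => a z * b z) := by
  obtain ⟨A1, B1, h1⟩ := ha
  obtain ⟨A2, B2, h2⟩ := hb
  refine ⟨A1 * A2, B1 * B2, ?_⟩
  filter_upwards [h1, h2] with z hz1 hz2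
  obtain ⟨h3, h4⟩ := hz1
  obtain ⟨h5, h6⟩ := hz2
  rw [germ_mul, germ_mul, h4, h6]
  refine ⟨mul_ne_zero h3 h5, ?_⟩
  field_simp

theorem InE.neg (ha : InE φ z0 w a) : InE φ z0 w (fun z => - a z) := by
  obtain ⟨A1, B1, h1⟩ := ha
  refine ⟨-A1, B1, ?_⟩
  filter_upwards [h1] with z hz1
  obtain ⟨h3, h4⟩ := hz1
  rw [germ_neg, h4]
  exact ⟨h3, (neg_div _ _).symm⟩

theorem InE.sub (ha : InE φ z0 w a) (hb : InE φ z0 w b) : InE φ z0 w (fun z => a z - b z) := by
  refine (ha.add hb.neg).congr (Filter.Eventually.of_forall fun z => ?_)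
  exact (sub_eq_add_neg _ _).symm

theorem InE.div (ha : InE φ z0 w a) (hb : InE φ z0 w b) (h0 : ∀ᶠ z in nhds z0, b z ≠ 0) :
    InE φ z0 w (fun z => a z / b z) := by
  obtain ⟨A1, B1, h1⟩ := ha
  obtain ⟨A2, B2, h2⟩ := hb
  refine ⟨A1 * B2, B1 * A2, ?_⟩
  filter_upwards [h1, h2, h0] with z hz1 hz2 hz0
  obtain ⟨h3, h4⟩ := hz1
  obtain ⟨h5, h6⟩ := hz2
  have h7 : MP1eadaeL.evR φ A2 z (w z) ≠ 0 := by
    intro h
    rw [h6, h, zero_div] at hz0
    exact hz0 rfl
  rw [germ_mul, germ_mul, h4, h6]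
  refine ⟨mul_ne_zero h3 h7, ?_⟩
  field_simp

/-- polynomial expressions -/
theorem InE.evR (q : R[X]) (ha : InE φ z0 w a) : InE φ z0 w (fun z => MP1eadaeL.evR φ q z (a z)) := by
  have hpow : ∀ n : ℕ, InE φ z0 w (fun z => a z ^ n) := by
    intro n
    induction n with
    | zero =>
      refine (InE.coef (φ := φ) (z0 := z0) (w := w) 1).congr
        (Filter.Eventually.of_forall fun z => ?_)
      rw [map_one, pow_zero]
      rfl
    | succ n ih =>
      refine (ih.mul ha).congr (Filter.Eventually.of_forall fun z => ?_)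
      exact (pow_succ _ _).symm
  induction q using Polynomial.induction_on' with
  | add p q hp hq =>
    refine (hp.add hq).congr (Filter.Eventually.of_forall fun z => ?_)
    exact (germ_add p q z (a z)).symm
  | monomial n r =>
    refine ((InE.coef r).mul (hpow n)).congr (Filter.Eventually.of_forall fun z => ?_)
    exact (germ_monomial n r z (a z)).symm

theorem InE.evRR (q : R[X][X]) (ha : InE φ z0 w a) (hb : InE φ z0 w b) :
    InE φ z0 w (fun z => MP1eadaeL.evRR φ q z (a z) (b z)) := by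
  have hpow : ∀ n : ℕ, InE φ z0 w (fun z => b z ^ n) := by
    intro n
    induction n with
    | zero =>
      refine (InE.coef (φ := φ) (z0 := z0) (w := w) 1).congr
        (Filter.Eventually.of_forall fun z => ?_)
      rw [map_one, pow_zero]
      rfl
    | succ n ih =>
      refine (ih.mul hb).congr (Filter.Eventually.of_forall fun z => ?_)
      exact (pow_succ _ _).symm
  induction q using Polynomial.induction_on' with
  | add p q hp hq =>
    refine (hp.add hq).congr (Filter.Eventually.of_forall fun z => ?_)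
    exact (germ_add' p q z (a z) (b z)).symm
  | monomial n r =>
    refine ((InE.evR r ha).mul (hpow n)).congr (Filter.Eventually.of_forall fun z => ?_)
    exact (germ_monomial' n r z (a z) (b z)).symm

/-- transitivity: if `a` is a rational expression of `w1` and `w1` of `w`, then `a` is one of `w` -/
theorem InE.trans {w1 : D → ℂ} (h1 : InE φ z0 w1 a) (h2 : InE φ z0 w w1) : InE φ z0 w a := by
  obtain ⟨A, B, h3⟩ := h1
  refine ((InE.evR A h2).div (InE.evR B h2) (h3.mono fun z hz => hz.1)).congr ?_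
  filter_upwards [h3] with z hz
  exact hz.2.symm

/-- joint continuity of polynomial expressions -/
theorem continuousAt_evR (hφ : ∀ r, Continuous (φ r)) (q : R[X]) {z : D} (hw : ContinuousAt w z) :
    ContinuousAt (fun z => MP1eadaeL.evR φ q z (w z)) z := by
  induction q using Polynomial.induction_on' with
  | add p q hp hq =>
    have h1 : (fun z => MP1eadaeL.evR φ (p + q) z (w z)) =
        fun z => MP1eadaeL.evR φ p z (w z) + MP1eadaeL.evR φ q z (w z) := by
      funext z
      exact germ_add p q z (w z)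
    rw [h1]
    exact hp.add hq
  | monomial n r =>
    have h1 : (fun z => MP1eadaeL.evR φ (monomial n r) z (w z)) =
        fun z => φ r z * w z ^ n := by
      funext z
      exact germ_monomial n r z (w z)
    rw [h1]
    exact (hφ r).continuousAt.mul (hw.pow n)

theorem InE.eventually_continuousAt (hφ : ∀ r, Continuous (φ r))
    (hw : ∀ᶠ z in nhds z0, ContinuousAt w z) (ha : InE φ z0 w a) :
    ∀ᶠ z in nhds z0, ContinuousAt a z := by
  obtain ⟨A, B, h1⟩ := ha
  filter_upwards [eventually_eventually_nhds.2 h1, hw] with z hz hwz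
  have h2 : ContinuousAt (fun z => MP1eadaeL.evR φ A z (w z) / MP1eadaeL.evR φ B z (w z)) z :=
    (continuousAt_evR hφ A hwz).div (continuousAt_evR hφ B hwz) hz.self_of_nhds.1
  exact h2.congr (hz.mono fun y hy => hy.2.symm)

/-- coefficients are simple roots of `X - C r` -/
theorem SR.coef (hφ : ∀ r, Continuous (φ r)) (r : R) : SR φ z0 (φ r) := by
  refine ⟨X - C r, Filter.Eventually.of_forall fun z => ⟨(hφ r).continuousAt, ?_, ?_⟩⟩
  · rw [sub_eq_add_neg, germ_add, germ_neg, germ_X, germ_C, add_neg_cancel]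
  · rw [derivative_sub, derivative_X, derivative_C, sub_zero, germ_one]
    exact one_ne_zero

theorem evRR_map_C (q : R[X]) (z : D) (y1 y2 : ℂ) :
    MP1eadaeL.evRR φ (q.map Polynomial.C) z y1 y2 = MP1eadaeL.evR φ q z y2 := by
  unfold MP1eadaeL.evRR MP1eadaeL.evR
  rw [Polynomial.eval₂_map]
  congr 1
  ext r
  simp

end MP1eadaeL
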