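import Mathlib
import Pool.Agent.Lib_MP_1eadae_ag.Defs
import Pool.Agent.Lib_MP_1eadae_ag.Germ

/-! # MP_1eadae_ag, piece TWOSTEP: a tower of two simple roots is generated by one simple root -/

namespace MP1eadaeL

open Complex Function Polynomial

variable {R : Type} [CommRing R] {D : Type} [TopologicalSpace D] {φ : R →+* (D → ℂ)} {z0 : D}

/-! ### the etale algebra with three generators and three relations -/

/-- `q(X 0)` -/
private noncomputable def tsA (q : R[X]) : MvPolynomial (Fin 3) R :=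
  aeval (MvPolynomial.X 0 : MvPolynomial (Fin 3) R) q

/-- `q(X 0, X 1)` -/
private noncomputable def tsB (q : R[X][X]) : MvPolynomial (Fin 3) R :=
  q.eval₂ ((aeval (MvPolynomial.X 0 : MvPolynomial (Fin 3) R) : R[X] →ₐ[R] _) :
    R[X] →+* MvPolynomial (Fin 3) R) (MvPolynomial.X 1)

/-- the three relations -/
private noncomputable def tsV (q1 : R[X]) (q2 : R[X][X]) : Fin 3 → MvPolynomial (Fin 3) R :=
  ![tsA q1, tsB q2,
    MvPolynomial.X 2 * (tsA (derivative q1) * tsB (derivative q2)) - 1]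

private theorem ts_pderiv_A (q : R[X]) (i : Fin 3) : MvPolynomial.pderiv i (tsA q) =
    tsA (derivative q) * MvPolynomial.pderiv i (MvPolynomial.X 0) := by
  unfold tsA
  rw [Derivation.map_aeval, smul_eq_mul]

private theorem ts_pderiv_A_ne (q : R[X]) {i : Fin 3} (hi : i ≠ 0) :
    MvPolynomial.pderiv i (tsA q) = 0 := by
  rw [ts_pderiv_A, MvPolynomial.pderiv_X_of_ne (Ne.symm hi), mul_zero]

private theorem ts_pderiv_B (q : R[X][X]) {i : Fin 3} (hi : i ≠ 0) :
    MvPolynomial.pderiv i (tsB q) =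
      tsB (derivative q) * MvPolynomial.pderiv i (MvPolynomial.X 1) := by
  unfold tsB
  induction q using Polynomial.induction_on' with
  | add a b ha hb =>
    rw [eval₂_add, map_add, ha, hb, derivative_add, eval₂_add, add_mul]
  | monomial n a =>
    have h0 : MvPolynomial.pderiv i ((aeval (MvPolynomial.X 0 : MvPolynomial (Fin 3) R) :
        R[X] →ₐ[R] _) a) = 0 := ts_pderiv_A_ne a hi
    rw [eval₂_monomial, Derivation.leibniz, derivative_monomial, eval₂_monomial,
      Derivation.leibniz_pow]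
    simp only [RingHom.coe_coe]
    rw [h0, smul_zero, add_zero, smul_eq_mul, smul_eq_mul, nsmul_eq_mul, map_mul, map_natCast]
    ring

private theorem ts_etale (q1 : R[X]) (q2 : R[X][X]) :
    Algebra.Etale R (MvPolynomial (Fin 3) R ⧸ Ideal.span (Set.range (tsV q1 q2))) := by
  set S := MvPolynomial (Fin 3) R ⧸ Ideal.span (Set.range (tsV q1 q2)) with hS
  let P0 : Algebra.PreSubmersivePresentation R S (Fin 3) (Fin 3) :=
    Algebra.PreSubmersivePresentation.naive (v := tsV q1 q2) id Function.injective_id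
  have hdet : P0.jacobiMatrix.det = tsA (derivative q1) * tsB (derivative q2) *
      (tsA (derivative q1) * tsB (derivative q2)) := by
    have hM : ∀ i j, P0.jacobiMatrix i j = (tsV q1 q2 j).pderiv i := fun i j =>
      Algebra.PreSubmersivePresentation.jacobiMatrix_naive _ _ _ _ i j
    have h10 : P0.jacobiMatrix 1 0 = 0 := by
      rw [hM]; exact ts_pderiv_A_ne q1 (by decide)
    have h20 : P0.jacobiMatrix 2 0 = 0 := by
      rw [hM]; exact ts_pderiv_A_ne q1 (by decide)
    have h21 : P0.jacobiMatrix 2 1 = 0 := by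
      rw [hM]
      have h := ts_pderiv_B q2 (i := 2) (by decide)
      rw [MvPolynomial.pderiv_X_of_ne (by decide), mul_zero] at h
      exact h
    have h00 : P0.jacobiMatrix 0 0 = tsA (derivative q1) := by
      rw [hM]
      have h := ts_pderiv_A q1 0
      rw [MvPolynomial.pderiv_X_self, mul_one] at h
      exact h
    have h11 : P0.jacobiMatrix 1 1 = tsB (derivative q2) := by
      rw [hM]
      have h := ts_pderiv_B q2 (i := 1) (by decide)
      rw [MvPolynomial.pderiv_X_self, mul_one] at h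
      exact h
    have h22 : P0.jacobiMatrix 2 2 = tsA (derivative q1) * tsB (derivative q2) := by
      rw [hM]
      have h3 : (2 : Fin 3) ≠ 0 := by decide
      have h1 := ts_pderiv_A_ne (derivative q1) h3
      have h2 := ts_pderiv_B (derivative q2) h3
      rw [MvPolynomial.pderiv_X_of_ne (by decide), mul_zero] at h2
      show MvPolynomial.pderiv 2 (MvPolynomial.X 2 * (tsA (derivative q1) * tsB (derivative q2)) - 1)
        = _
      rw [map_sub, Derivation.leibniz, Derivation.leibniz, h1, h2, MvPolynomial.pderiv_X_self]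
      simp
    rw [Matrix.det_fin_three, h10, h20, h21, h00, h11, h22]
    ring
  have hunit : IsUnit P0.jacobian := by
    rw [Algebra.PreSubmersivePresentation.jacobian_eq_jacobiMatrix_det, hdet]
    have h1 : algebraMap P0.Ring S (MvPolynomial.X 2 *
        (tsA (derivative q1) * tsB (derivative q2)) - 1) = 0 := by
      rw [Algebra.Generators.algebraMap_apply]
      exact P0.aeval_val_relation 2
    rw [map_sub, map_one, map_mul, sub_eq_zero] at h1
    have h2 : IsUnit (algebraMap P0.Ring S (tsA (derivative q1) * tsB (derivative q2))) :=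
      IsUnit.of_mul_eq_one_right _ h1
    rw [map_mul]
    exact h2.mul h2
  let P : Algebra.SubmersivePresentation R S (Fin 3) (Fin 3) := { P0 with jacobian_isUnit := hunit }
  have h0 : Algebra.IsStandardSmoothOfRelativeDimension 0 R S :=
    P.isStandardSmoothOfRelativeDimension (by simp [Algebra.Presentation.dimension])
  infer_instance

/-! ### evaluation at a point -/

/-- evaluation at the point `z` of the base and `v` of the fibre -/
private noncomputable def tsF (φ : R →+* (D → ℂ)) (z : D) (v : Fin 3 → ℂ) :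
    MvPolynomial (Fin 3) R →+* ℂ :=
  MvPolynomial.eval₂Hom ((Pi.evalRingHom (fun _ : D => ℂ) z).comp φ) v

private theorem tsF_comp (z : D) (v : Fin 3 → ℂ) :
    (tsF φ z v).comp (algebraMap R (MvPolynomial (Fin 3) R)) =
      (Pi.evalRingHom (fun _ : D => ℂ) z).comp φ := by
  ext r
  show MvPolynomial.eval₂Hom _ v (MvPolynomial.C r) = _
  rw [MvPolynomial.eval₂Hom_C]

private theorem tsF_A (z : D) (v : Fin 3 → ℂ) (q : R[X]) :
    tsF φ z v (tsA q) = evR φ q z (v 0) := by
  unfold tsA evR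
  rw [aeval_def, Polynomial.hom_eval₂, tsF_comp]
  congr 1
  exact MvPolynomial.eval₂_X _ _ _

private theorem tsF_B (z : D) (v : Fin 3 → ℂ) (q : R[X][X]) :
    tsF φ z v (tsB q) = evRR φ q z (v 0) (v 1) := by
  unfold tsB evRR
  rw [Polynomial.hom_eval₂]
  have h1 : (tsF φ z v).comp ((aeval (MvPolynomial.X 0 : MvPolynomial (Fin 3) R) :
      R[X] →ₐ[R] _) : R[X] →+* MvPolynomial (Fin 3) R) =
      Polynomial.eval₂RingHom ((Pi.evalRingHom (fun _ : D => ℂ) z).comp φ) (v 0) := by
    refine RingHom.ext fun a => ?_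
    exact tsF_A z v a
  rw [h1]
  congr 1
  exact MvPolynomial.eval₂_X _ _ _

private theorem tsF_ker (z : D) (v : Fin 3 → ℂ) (q1 : R[X]) (q2 : R[X][X])
    (h1 : evR φ q1 z (v 0) = 0) (h2 : evRR φ q2 z (v 0) (v 1) = 0)
    (h3 : v 2 * (evR φ (derivative q1) z (v 0) * evRR φ (derivative q2) z (v 0) (v 1)) = 1) :
    ∀ a ∈ Ideal.span (Set.range (tsV q1 q2)), tsF φ z v a = 0 := by
  have h4 : Ideal.span (Set.range (tsV q1 q2)) ≤ RingHom.ker (tsF φ z v) := by
    rw [Ideal.span_le]
    rintro _ ⟨j, rfl⟩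
    fin_cases j
    · show tsF φ z v (tsA q1) = 0
      rw [tsF_A, h1]
    · show tsF φ z v (tsB q2) = 0
      rw [tsF_B, h2]
    · show tsF φ z v (MvPolynomial.X 2 * (tsA (derivative q1) * tsB (derivative q2)) - 1) = 0
      have h5 : tsF φ z v (MvPolynomial.X 2) = v 2 := MvPolynomial.eval₂_X _ _ _
      rw [map_sub, map_mul, map_mul, tsF_A, tsF_B, map_one, h5, h3, sub_self]
  intro a ha
  exact h4 ha

private theorem tsF_cont (hφ : ∀ r, Continuous (φ r)) {v : D → Fin 3 → ℂ} {z : D}
    (hv : ∀ i, ContinuousAt (fun z => v z i) z) (a : MvPolynomial (Fin 3) R) :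
    ContinuousAt (fun z => tsF φ z (v z) a) z := by
  induction a using MvPolynomial.induction_on with
  | C r =>
    have h1 : (fun z => tsF φ z (v z) (MvPolynomial.C r)) = φ r := by
      funext z
      exact MvPolynomial.eval₂_C _ _ _
    rw [h1]
    exact (hφ r).continuousAt
  | add a b ha hb =>
    simp only [map_add]
    exact ha.add hb
  | mul_X a i ha =>
    have h1 : ∀ z, tsF φ z (v z) (MvPolynomial.X i) = v z i := fun z =>
      MvPolynomial.eval₂_X _ _ _
    simp only [map_mul, h1]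
    exact ha.mul (hv i)

private theorem ts_cont_evRR (hφ : ∀ r, Continuous (φ r)) {w1 w2 : D → ℂ} {z : D}
    (h1 : ContinuousAt w1 z) (h2 : ContinuousAt w2 z) (q : R[X][X]) :
    ContinuousAt (fun z => evRR φ q z (w1 z) (w2 z)) z := by
  unfold evRR
  induction q using Polynomial.induction_on' with
  | add a b ha hb =>
    simp only [eval₂_add]
    exact ha.add hb
  | monomial n a =>
    simp only [eval₂_monomial]
    exact (continuousAt_evR hφ a h1).mul (h2.pow n)

/-- Piece TWOSTEP.  `w1` a continuous simple root (near `z0`) of `q1 ∈ R[T]`, `w2` a continuous simple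
root of `q2(w1, X)`, `q2 ∈ R[T][X]`.  Then there is a continuous simple root `w` of some `q ∈ R[X]`
near `z0` such that `w1` and `w2` are rational expressions of `w` near `z0`.

Proof (local structure of etale algebras, in Mathlib).  Let
`S = R[T, X, Y]/(q1(T), q2(T,X), q1'(T) · (∂_X q2)(T,X) · Y - 1)`.  `S` is etale over `R`: a
submersive presentation with 3 generators and 3 relations, whose Jacobian matrix is triangular with
diagonal `q1'`, `∂_X q2`, `q1' ∂_X q2`, all units in `S` (Mathlib: `Algebra.SubmersivePresentation`,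
`Algebra.IsStandardSmoothOfRelativeDimension 0`, `Algebra.Etale`; alternatively two steps,
each formally etale by the lifting argument of
`StandardEtalePair.existsUnique_hasMap_of_hasMap_quotient_of_sq_eq_bot`, and `Algebra.Etale.comp`).
For `z` near `z0` there is a ring homomorphism `ψ_z : S → ℂ` extending `φ_z : R → ℂ`
(`φ_z r = φ r z`), `T ↦ w1 z`, `X ↦ w2 z`, `Y ↦` the inverse; for every `s ∈ S` the function
`z ↦ ψ_z s` is continuous near `z0`.  Let `𝔓 = ker ψ_{z0}`, a prime ideal.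
`Algebra.IsEtaleAt.exists_isStandardEtale` (file Mathlib/RingTheory/Unramified/LocalStructure) gives
`f ∉ 𝔓` with `Localization.Away f` standard etale over `R`: a `StandardEtalePresentation`
`𝒫` with `𝒫.f, 𝒫.g ∈ R[X]`, generator `x = 𝒫.x`, `𝒫.f(x) = 0`, `𝒫.g(x)` and `𝒫.f'(x)` units
(`HasMap.isUnit_derivative_f`).  `ψ_z f ≠ 0` near `z0`, so `ψ_z` extends to `Localization.Away f`
(for the `z` for which it does not exist or `ψ_z f = 0` define things arbitrarily, e.g. by `0`).
Put `w z = ψ_z x`; `x = s/f^k`, so `w` is continuous near `z0`; `q = 𝒫.f`.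
`StandardEtalePresentation.exists_mul_aeval_x_g_pow_eq_aeval_x`: for each element `t` of the
localization `t · g(x)^k = A(x)`; apply it to the images of `T` and `X` and evaluate `ψ_z`:
`w1 = A_1(w)/g(w)^k`, `w2 = A_2(w)/g(w)^k'`. -/
theorem twoStep (hφ : ∀ r, Continuous (φ r)) {w1 w2 : D → ℂ} (h1 : SR φ z0 w1) (q2 : R[X][X])
    (h2 : ∀ᶠ z in nhds z0, ContinuousAt w2 z ∧ evRR φ q2 z (w1 z) (w2 z) = 0 ∧
      evRR φ (Polynomial.derivative q2) z (w1 z) (w2 z) ≠ 0) :
    ∃ w : D → ℂ, SR φ z0 w ∧ InE φ z0 w w1 ∧ InE φ z0 w w2 := by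
  classical
  obtain ⟨q1, h1⟩ := h1
  -- the good points
  have hgood : ∀ᶠ z in nhds z0, ContinuousAt w1 z ∧ ContinuousAt w2 z ∧ evR φ q1 z (w1 z) = 0 ∧
      evRR φ q2 z (w1 z) (w2 z) = 0 ∧
      evR φ (derivative q1) z (w1 z) * evRR φ (derivative q2) z (w1 z) (w2 z) ≠ 0 := by
    filter_upwards [h1, h2] with z h3 h4
    exact ⟨h3.1, h4.1, h3.2.1, h4.2.1, mul_ne_zero h3.2.2 h4.2.2⟩
  set vec : D → Fin 3 → ℂ := fun z => ![w1 z, w2 z,
    (evR φ (derivative q1) z (w1 z) * evRR φ (derivative q2) z (w1 z) (w2 z))⁻¹] with hvec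
  have hcont : ∀ z, (ContinuousAt w1 z ∧ ContinuousAt w2 z ∧ evR φ q1 z (w1 z) = 0 ∧
      evRR φ q2 z (w1 z) (w2 z) = 0 ∧
      evR φ (derivative q1) z (w1 z) * evRR φ (derivative q2) z (w1 z) (w2 z) ≠ 0) →
      ∀ a : MvPolynomial (Fin 3) R, ContinuousAt (fun z => tsF φ z (vec z) a) z := by
    rintro z ⟨h3, h4, -, -, h5⟩ a
    refine tsF_cont hφ (fun i => ?_) a
    fin_cases i
    · exact h3
    · exact h4
    · exact ((continuousAt_evR hφ _ h3).mul (ts_cont_evRR hφ h3 h4 _)).inv₀ h5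
  have hkill : ∀ z, (ContinuousAt w1 z ∧ ContinuousAt w2 z ∧ evR φ q1 z (w1 z) = 0 ∧
      evRR φ q2 z (w1 z) (w2 z) = 0 ∧
      evR φ (derivative q1) z (w1 z) * evRR φ (derivative q2) z (w1 z) (w2 z) ≠ 0) →
      ∀ a ∈ Ideal.span (Set.range (tsV q1 q2)), tsF φ z (vec z) a = 0 := by
    rintro z ⟨-, -, h3, h4, h5⟩
    exact tsF_ker z (vec z) q1 q2 h3 h4 (inv_mul_cancel₀ h5)
  have hz0 := hgood.self_of_nhds
  -- the etale algebra
  have hEt := ts_etale q1 q2
  set S := MvPolynomial (Fin 3) R ⧸ Ideal.span (Set.range (tsV q1 q2)) with hS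
  let ψ0 : S →+* ℂ := Ideal.Quotient.lift _ (tsF φ z0 (vec z0)) (hkill z0 hz0)
  have hprime : (RingHom.ker ψ0).IsPrime := RingHom.ker_isPrime ψ0
  obtain ⟨f, hf, ⟨⟨P⟩⟩⟩ := Algebra.IsEtaleAt.exists_isStandardEtale (R := R) (S := S)
    (RingHom.ker ψ0)
  obtain ⟨f', rfl⟩ := Ideal.Quotient.mk_surjective f
  -- the generator as a fraction
  obtain ⟨⟨s, ⟨_, k, rfl⟩⟩, hs⟩ := IsLocalization.surj
    (Submonoid.powers (Ideal.Quotient.mk (Ideal.span (Set.range (tsV q1 q2))) f')) P.x
  obtain ⟨s', rfl⟩ := Ideal.Quotient.mk_surjective s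
  have hf0 : tsF φ z0 (vec z0) f' ≠ 0 := fun h => hf h
  have hfne : ∀ᶠ z in nhds z0, tsF φ z (vec z) f' ≠ 0 := (hcont z0 hz0 f').eventually_ne hf0
  -- the homomorphisms at the good points
  have hΨ : ∀ᶠ z in nhds z0, ∃ Ψ : Localization.Away
      (Ideal.Quotient.mk (Ideal.span (Set.range (tsV q1 q2))) f') →+* ℂ,
      (∀ a : MvPolynomial (Fin 3) R, Ψ (algebraMap S _ (Ideal.Quotient.mk _ a)) =
        tsF φ z (vec z) a) ∧
      (∀ q : R[X], Ψ (aeval P.x q) = evR φ q z (Ψ P.x)) ∧
      Ψ P.x = tsF φ z (vec z) s' / tsF φ z (vec z) f' ^ k := by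
    filter_upwards [hgood, hfne] with z hz hz'
    let ψ : S →+* ℂ := Ideal.Quotient.lift _ (tsF φ z (vec z)) (hkill z hz)
    have hunit : IsUnit (ψ (Ideal.Quotient.mk (Ideal.span (Set.range (tsV q1 q2))) f')) :=
      isUnit_iff_ne_zero.2 hz'
    let Ψ := IsLocalization.Away.lift (S := Localization.Away
      (Ideal.Quotient.mk (Ideal.span (Set.range (tsV q1 q2))) f')) _ hunit
    have h3 : ∀ a : MvPolynomial (Fin 3) R, Ψ (algebraMap S _ (Ideal.Quotient.mk _ a)) =
        tsF φ z (vec z) a := fun a => IsLocalization.Away.lift_eq _ hunit _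
    refine ⟨Ψ, h3, fun q => ?_, ?_⟩
    · rw [aeval_def, Polynomial.hom_eval₂]
      unfold evR
      congr 1
      refine RingHom.ext fun r => ?_
      rw [RingHom.comp_apply, IsScalarTower.algebraMap_apply R S]
      exact (h3 (MvPolynomial.C r)).trans (MvPolynomial.eval₂_C _ _ _)
    · have h4 := congrArg Ψ hs
      rw [map_mul] at h4
      have h5 : Ψ (algebraMap S _ ((Ideal.Quotient.mk (Ideal.span (Set.range (tsV q1 q2))) f') ^ k))
          = tsF φ z (vec z) f' ^ k := by
        rw [map_pow, map_pow, h3]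
      rw [eq_div_iff (pow_ne_zero k hz'), ← h5]
      exact h4.trans (h3 s')
  set w : D → ℂ := fun z => tsF φ z (vec z) s' / tsF φ z (vec z) f' ^ k with hw
  have hInE : ∀ a : MvPolynomial (Fin 3) R, InE φ z0 w (fun z => tsF φ z (vec z) a) := by
    intro a
    obtain ⟨p, n, hp⟩ := P.exists_mul_aeval_x_g_pow_eq_aeval_x
      (algebraMap S _ (Ideal.Quotient.mk _ a))
    refine ⟨p, P.g ^ n, ?_⟩
    filter_upwards [hΨ] with z hz
    obtain ⟨Ψ, h3, h4, h5⟩ := hz
    have h6 : Ψ P.x = w z := h5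
    have h7 : evR φ (P.g ^ n) z (w z) ≠ 0 := by
      rw [← h6, ← h4, map_pow, map_pow]
      exact pow_ne_zero n (P.hasMap.2.map Ψ).ne_zero
    refine ⟨h7, ?_⟩
    rw [eq_div_iff h7, ← h6, ← h4, ← h4, ← hp, map_mul, map_pow, map_pow, h3]
  refine ⟨w, ⟨P.f, ?_⟩, ?_, ?_⟩
  · filter_upwards [hΨ, hgood, hfne] with z hz hz' hz''
    obtain ⟨Ψ, h3, h4, h5⟩ := hz
    have h6 : Ψ P.x = w z := h5
    refine ⟨?_, ?_, ?_⟩
    · exact (hcont z hz' s').div ((hcont z hz' f').pow k) (pow_ne_zero k hz'')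
    · rw [← h6, ← h4, P.hasMap.1, map_zero]
    · rw [← h6, ← h4]
      exact (P.hasMap.isUnit_derivative_f.map Ψ).ne_zero
  · refine (hInE (MvPolynomial.X 0)).congr (Filter.Eventually.of_forall fun z => ?_)
    exact MvPolynomial.eval₂_X _ _ _
  · refine (hInE (MvPolynomial.X 1)).congr (Filter.Eventually.of_forall fun z => ?_)
    exact MvPolynomial.eval₂_X _ _ _

end MP1eadaeL
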