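import Mathlib
import Pool.Agent.Lib_MP_1eadae_ag.Defs
import Pool.Agent.Lib_MP_1eadae_ag.Germ
import Pool.Agent.Lib_MP_1eadae_ag.TwoStep

/-! # MP_1eadae_ag, piece COMMON: common presentations of finitely many simple roots -/

namespace MP1eadaeL

open Complex Function Polynomial

variable {R : Type} [CommRing R] {D : Type} [TopologicalSpace D] {φ : R →+* (D → ℂ)} {z0 : D}

/-- two simple roots (`twoStep` with `q2 = q.map C`) -/
theorem common_pair (hφ : ∀ r, Continuous (φ r)) {w1 w2 : D → ℂ} (h1 : SR φ z0 w1)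
    (h2 : SR φ z0 w2) : ∃ w : D → ℂ, SR φ z0 w ∧ InE φ z0 w w1 ∧ InE φ z0 w w2 := by
  obtain ⟨q, hq⟩ := h2
  refine twoStep hφ h1 (q.map Polynomial.C) ?_
  filter_upwards [hq] with z hz
  refine ⟨hz.1, ?_, ?_⟩
  · rw [evRR_map_C]; exact hz.2.1
  · rw [Polynomial.derivative_map, evRR_map_C]; exact hz.2.2

/-- finitely many (induction on `m`, `InE.trans`) -/
theorem common_family (hφ : ∀ r, Continuous (φ r)) (m : ℕ) (w : Fin m → D → ℂ)
    (h : ∀ l, SR φ z0 (w l)) : ∃ w' : D → ℂ, SR φ z0 w' ∧ ∀ l, InE φ z0 w' (w l) := by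
  induction m with
  | zero => exact ⟨φ 0, SR.coef hφ 0, fun l => l.elim0⟩
  | succ m ih =>
    obtain ⟨w1, h1, h1'⟩ := ih (fun l => w l.castSucc) (fun l => h _)
    obtain ⟨w2, h2, h3, h4⟩ := common_pair hφ h1 (h (Fin.last m))
    refine ⟨w2, h2, fun l => ?_⟩
    induction l using Fin.lastCases with
    | last => exact h4
    | cast l => exact (h1' l).trans h3

theorem continuous_phi (K : Subfield ℂ) (n : ℕ) (P : MvPolynomial (Fin n) K) :
    Continuous (phi K n P) := by
  have : (phi K n P) = fun z : CubeT n => MvPolynomial.aeval z.1 P := rfl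
  rw [this]
  induction P using MvPolynomial.induction_on with
  | C a => simpa using continuous_const
  | add p q hp hq =>
    have h := Continuous.add (hp rfl) (hq rfl)
    simp only [map_add]
    exact h
  | mul_X p i hp =>
    have h := Continuous.mul (hp rfl) ((continuous_apply i).comp continuous_subtype_val)
    simp only [map_mul, MvPolynomial.aeval_X]
    exact h

theorem evR_phi (K : Subfield ℂ) (n : ℕ) (q : Polynomial (MvPolynomial (Fin n) K)) (z : CubeT n)
    (y : ℂ) : evR (phi K n) q z y = ev2 q z.1 y := rfl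

end MP1eadaeL
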