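import Mathlib
import Pool.Agent.Lib_MP_1eadae_ag.Defs

/-! # MP_1eadae_ag, piece RATA: closure properties of rational functions -/

namespace MP1eadaeL

open Complex Function

variable {K : Subfield ℂ} {X X' : ℕ → Set ℂ} {F G : Pt → ℂ}

/- Piece RATA.  `IsRat K X F` means `F = P/Q` on `Dom X` with polynomials over
`K`, `Q ≠ 0` on `Dom X`; `pev P z = MvPolynomial.aeval z P` is a ring homomorphism in `P`. -/

theorem IsRat.congr (hF : IsRat K X F) (h : ∀ z ∈ Dom X, F z = G z) : IsRat K X G := by
  obtain ⟨P, Q, h1⟩ := hF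
  exact ⟨P, Q, fun z hz => ⟨(h1 z hz).1, by rw [← h z hz]; exact (h1 z hz).2⟩⟩

theorem IsRat.const (a : ℂ) (ha : a ∈ K) : IsRat K X (fun _ => a) := by
  refine ⟨MvPolynomial.C ⟨a, ha⟩, 1, fun z _ => ?_⟩
  unfold pev
  rw [map_one, MvPolynomial.aeval_C, div_one]
  exact ⟨one_ne_zero, rfl⟩

theorem IsRat.coord (i : ℕ) : IsRat K X (fun z => z i) := by
  refine ⟨MvPolynomial.X i, 1, fun z _ => ?_⟩
  unfold pev
  rw [map_one, MvPolynomial.aeval_X, div_one]
  exact ⟨one_ne_zero, rfl⟩

theorem IsRat.add (hF : IsRat K X F) (hG : IsRat K X G) : IsRat K X (fun z => F z + G z) := by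
  obtain ⟨P, Q, h1⟩ := hF
  obtain ⟨P', Q', h2⟩ := hG
  refine ⟨P * Q' + Q * P', Q * Q', fun z hz => ?_⟩
  obtain ⟨a1, a2⟩ := h1 z hz
  obtain ⟨b1, b2⟩ := h2 z hz
  unfold pev at *
  beta_reduce
  rw [map_add, map_mul, map_mul, map_mul, a2, b2]
  exact ⟨mul_ne_zero a1 b1, div_add_div _ _ a1 b1⟩

theorem IsRat.mul (hF : IsRat K X F) (hG : IsRat K X G) : IsRat K X (fun z => F z * G z) := by
  obtain ⟨P, Q, h1⟩ := hF
  obtain ⟨P', Q', h2⟩ := hG
  refine ⟨P * P', Q * Q', fun z hz => ?_⟩
  obtain ⟨a1, a2⟩ := h1 z hz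
  obtain ⟨b1, b2⟩ := h2 z hz
  unfold pev at *
  beta_reduce
  rw [map_mul, map_mul, a2, b2]
  exact ⟨mul_ne_zero a1 b1, div_mul_div_comm _ _ _ _⟩

theorem IsRat.neg (hF : IsRat K X F) : IsRat K X (fun z => - F z) := by
  obtain ⟨P, Q, h1⟩ := hF
  refine ⟨-P, Q, fun z hz => ?_⟩
  obtain ⟨a1, a2⟩ := h1 z hz
  unfold pev at *
  beta_reduce
  rw [map_neg, a2, neg_div]
  exact ⟨a1, rfl⟩

theorem IsRat.sub (hF : IsRat K X F) (hG : IsRat K X G) : IsRat K X (fun z => F z - G z) := by
  exact (hF.add hG.neg).congr fun z _ => (sub_eq_add_neg _ _).symm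

theorem IsRat.pow (hF : IsRat K X F) (n : ℕ) : IsRat K X (fun z => F z ^ n) := by
  induction n with
  | zero => exact (IsRat.const 1 K.one_mem).congr fun z _ => (pow_zero _).symm
  | succ n ih => exact (ih.mul hF).congr fun z _ => (pow_succ _ _).symm

theorem IsRat.sum {ι : Type} (s : Finset ι) (f : ι → Pt → ℂ) (hf : ∀ i ∈ s, IsRat K X (f i)) :
    IsRat K X (fun z => ∑ i ∈ s, f i z) := by
  classical
  induction s using Finset.induction_on with
  | empty => exact (IsRat.const 0 K.zero_mem).congr fun z _ => (Finset.sum_empty).symm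
  | insert a t ha ih =>
    have h1 := (hf a (Finset.mem_insert_self a t)).add
      (ih fun i hi => hf i (Finset.mem_insert_of_mem hi))
    exact h1.congr fun z _ => (Finset.sum_insert (f := fun i => f i z) ha).symm

theorem IsRat.prod {ι : Type} (s : Finset ι) (f : ι → Pt → ℂ) (hf : ∀ i ∈ s, IsRat K X (f i)) :
    IsRat K X (fun z => ∏ i ∈ s, f i z) := by
  classical
  induction s using Finset.induction_on with
  | empty => exact (IsRat.const 1 K.one_mem).congr fun z _ => (Finset.prod_empty).symm
  | insert a t ha ih =>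
    have h1 := (hf a (Finset.mem_insert_self a t)).mul
      (ih fun i hi => hf i (Finset.mem_insert_of_mem hi))
    exact h1.congr fun z _ => (Finset.prod_insert (f := fun i => f i z) ha).symm

theorem IsRat.div (hF : IsRat K X F) (hG : IsRat K X G) (h0 : ∀ z ∈ Dom X, G z ≠ 0) :
    IsRat K X (fun z => F z / G z) := by
  obtain ⟨P, Q, h1⟩ := hF
  obtain ⟨P', Q', h2⟩ := hG
  refine ⟨P * Q', Q * P', fun z hz => ?_⟩
  obtain ⟨a1, a2⟩ := h1 z hz
  obtain ⟨b1, b2⟩ := h2 z hz
  have h3 := h0 z hz
  have h4 : pev P' z ≠ 0 := by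
    intro h
    rw [b2, h, zero_div] at h3
    exact h3 rfl
  unfold pev at *
  beta_reduce
  rw [map_mul, map_mul, a2, b2]
  exact ⟨mul_ne_zero a1 h4, div_div_div_eq _ _ _ _⟩

/-- smaller domain -/
theorem IsRat.monoDom (hF : IsRat K X F) (h : ∀ z ∈ Dom X', z ∈ Dom X) : IsRat K X' F := by
  obtain ⟨P, Q, h1⟩ := hF
  exact ⟨P, Q, fun z hz => h1 z (h z hz)⟩

/-- larger field of coefficients -/
theorem IsRat.monoK {L : Subfield ℂ} (hKL : K ≤ L) (hF : IsRat K X F) : IsRat L X F := by
  obtain ⟨P, Q, h1⟩ := hF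
  have hmap : ∀ (P : MvPolynomial ℕ K) (z : Pt),
      pev (MvPolynomial.map (Subfield.inclusion hKL) P) z = pev P z := by
    intro P z
    unfold pev
    rw [MvPolynomial.aeval_def, MvPolynomial.aeval_def, MvPolynomial.eval₂_map]
    rfl
  refine ⟨MvPolynomial.map (Subfield.inclusion hKL) P, MvPolynomial.map (Subfield.inclusion hKL) Q,
    fun z hz => ?_⟩
  rw [hmap, hmap]
  exact h1 z hz

theorem IsRat.ratCast (a : ℚ) : IsRat K X (fun _ => (a : ℂ)) := by
  exact IsRat.const _ (SubfieldClass.ratCast_mem K a)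

theorem IsRat.natCast (a : ℕ) : IsRat K X (fun _ => (a : ℂ)) := by
  exact IsRat.const _ (natCast_mem K a)

/-- composition with a rational map: first for a polynomial (induction), then quotients. -/
theorem IsRat.comp (hF : IsRat K X' F) (φ : Pt → Pt) (hφ : ∀ i, IsRat K X (fun z => φ z i))
    (hmap : ∀ z ∈ Dom X, φ z ∈ Dom X') : IsRat K X (fun z => F (φ z)) := by
  obtain ⟨P, Q, h1⟩ := hF
  have hpol : ∀ P : MvPolynomial ℕ K, IsRat K X (fun z => pev P (φ z)) := by
    intro P
    induction P using MvPolynomial.induction_on with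
    | C a =>
      refine (IsRat.const (a : ℂ) a.2).congr fun z _ => ?_
      unfold pev
      rw [MvPolynomial.aeval_C]
      rfl
    | add P P' hP hP' =>
      refine (hP.add hP').congr fun z _ => ?_
      unfold pev
      rw [map_add]
    | mul_X P i hP =>
      refine (hP.mul (hφ i)).congr fun z _ => ?_
      unfold pev
      rw [map_mul, MvPolynomial.aeval_X]
  exact ((hpol P).div (hpol Q) fun z hz => (h1 _ (hmap z hz)).1).congr fun z hz =>
    (h1 _ (hmap z hz)).2.symm

/-- substitution of a rational function for one coordinate -/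
theorem IsRat.subst {p : ℕ} {B : Set ℂ} {g : Pt → ℂ} (hF : IsRat K (Function.update X p B) F)
    (hg : IsRat K X g) (hgB : ∀ z ∈ Dom X, g z ∈ B) :
    IsRat K X (fun z => F (Function.update z p (g z))) := by
  refine hF.comp (fun z => Function.update z p (g z)) (fun i => ?_) fun z hz i => ?_
  · by_cases h : i = p
    · subst h
      exact hg.congr fun z _ => by rw [Function.update_self]
    · exact (IsRat.coord i).congr fun z _ => by rw [Function.update_of_ne h]
  · by_cases h : i = p
    · subst h
      rw [Function.update_self, Function.update_self]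
      exact hgB z hz
    · rw [Function.update_of_ne h, Function.update_of_ne h]
      exact hz i

/-- a rational function depends on finitely many coordinates -/
theorem IsRat.dep (hF : IsRat K X F) : ∃ n, DepOn X (Set.Iio n) F := by
  obtain ⟨P, Q, h1⟩ := hF
  have hpol : ∀ P : MvPolynomial ℕ K, ∃ n : ℕ, ∀ z w : Pt, (∀ i < n, z i = w i) →
      pev P z = pev P w := by
    intro P
    induction P using MvPolynomial.induction_on with
    | C a =>
      refine ⟨0, fun z w _ => ?_⟩
      unfold pev
      rw [MvPolynomial.aeval_C, MvPolynomial.aeval_C]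
    | add P P' hP hP' =>
      obtain ⟨n, hn⟩ := hP
      obtain ⟨n', hn'⟩ := hP'
      refine ⟨max n n', fun z w h => ?_⟩
      have e1 := hn z w fun i hi => h i (hi.trans_le (le_max_left _ _))
      have e2 := hn' z w fun i hi => h i (hi.trans_le (le_max_right _ _))
      unfold pev at *
      rw [map_add, map_add, e1, e2]
    | mul_X P i hP =>
      obtain ⟨n, hn⟩ := hP
      refine ⟨max n (i + 1), fun z w h => ?_⟩
      have e1 := hn z w fun i hi => h i (hi.trans_le (le_max_left _ _))
      unfold pev at *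
      rw [map_mul, map_mul, MvPolynomial.aeval_X, MvPolynomial.aeval_X, e1,
        h i ((Nat.lt_succ_self i).trans_le (le_max_right _ _))]
  obtain ⟨n, hn⟩ := hpol P
  obtain ⟨n', hn'⟩ := hpol Q
  refine ⟨max n n', fun z hz w hw h => ?_⟩
  rw [(h1 z hz).2, (h1 w hw).2, hn z w fun i hi => h i (hi.trans_le (le_max_left _ _)),
    hn' z w fun i hi => h i (hi.trans_le (le_max_right _ _))]

/-- continuity on the domain (product topology) -/
theorem IsRat.continuousOn (hF : IsRat K X F) : ContinuousOn F (Dom X) := by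
  obtain ⟨P, Q, h1⟩ := hF
  have hpol : ∀ P : MvPolynomial ℕ K, Continuous (pev P) := by
    intro P
    induction P using MvPolynomial.induction_on with
    | C a =>
      have h : pev (MvPolynomial.C a : MvPolynomial ℕ K) = fun _ => (a : ℂ) := by
        funext z
        unfold pev
        rw [MvPolynomial.aeval_C]
        rfl
      rw [h]
      exact continuous_const
    | add P P' hP hP' =>
      have h : pev (P + P') = fun z => pev P z + pev P' z := by
        funext z
        unfold pev
        rw [map_add]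
      rw [h]
      exact hP.add hP'
    | mul_X P i hP =>
      have h : pev (P * MvPolynomial.X i) = fun z => pev P z * z i := by
        funext z
        unfold pev
        rw [map_mul, MvPolynomial.aeval_X]
      rw [h]
      exact hP.mul (continuous_apply i)
  exact ((hpol P).continuousOn.div (hpol Q).continuousOn fun z hz => (h1 z hz).1).congr
    fun z hz => (h1 z hz).2

/-- membership in updated domains -/
theorem update_mem_dom {p : ℕ} {B : Set ℂ} {z : Pt} (hz : z ∈ Dom X) {w : ℂ} (hw : w ∈ B) :
    Function.update z p w ∈ Dom (Function.update X p B) := by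
  intro i
  by_cases h : i = p
  · subst h
    rw [Function.update_self, Function.update_self]
    exact hw
  · rw [Function.update_of_ne h, Function.update_of_ne h]
    exact hz i

/-- membership in the original domain -/
theorem update_mem_dom' {p : ℕ} {B : Set ℂ} {z : Pt} (hz : z ∈ Dom (Function.update X p B)) {w : ℂ}
    (hw : w ∈ X p) : Function.update z p w ∈ Dom X := by
  intro i
  by_cases h : i = p
  · subst h
    rw [Function.update_self]
    exact hw
  · have h1 := hz i
    rw [Function.update_of_ne h] at h1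
    rw [Function.update_of_ne h]
    exact h1

theorem zero_mem_seg : (0 : ℂ) ∈ seg := by
  exact ⟨0, ⟨le_rfl, zero_le_one⟩, Complex.ofReal_zero⟩

theorem one_mem_seg : (1 : ℂ) ∈ seg := by
  exact ⟨1, ⟨zero_le_one, le_rfl⟩, Complex.ofReal_one⟩

/-- the integrand of `2πi` is rational if `I ∈ K` (`1 + t^2 ≠ 0` for `t` real) -/
theorem isRat_tpi (hI : I ∈ K) {p : ℕ} (hX : X p = seg) : IsRat K X (tpi p) := by
  refine ((((IsRat.natCast 8).mul (IsRat.const I hI)).div
    ((IsRat.natCast 1).add ((IsRat.coord p).pow 2)) fun z hz => ?_)).congr fun z _ => ?_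
  · have h1 := hz p
    rw [hX] at h1
    obtain ⟨t, _, ht⟩ := h1
    simp only [] at ht
    rw [← ht]
    have h2 : ((1 : ℕ) : ℂ) + (t : ℂ) ^ 2 = ((1 + t ^ 2 : ℝ) : ℂ) := by push_cast; ring
    rw [h2]
    have h3 : (1 + t ^ 2 : ℝ) ≠ 0 := by positivity
    exact_mod_cast h3
  · unfold tpi
    push_cast
    rfl

/-- a function depending only on the coordinates in `S` does not depend on `i ∉ S` -/
theorem DepOn.indep {S : Set ℕ} (h : DepOn X S F) {i : ℕ} (hi : i ∉ S) : Indep X i F := by
  intro z hz w hw
  refine h _ (fun j => ?_) z hz fun j hj => ?_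
  · by_cases hji : j = i
    · subst hji
      rw [Function.update_self]
      exact hw
    · rw [Function.update_of_ne hji]
      exact hz j
  · have hji : j ≠ i := fun e => hi (e ▸ hj)
    rw [Function.update_of_ne hji]

end MP1eadaeL
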