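import Mathlib
import Pool.Agent.Lib_MP_1eadae_ag.Defs
import Pool.Agent.Lib_MP_1eadae_ag.RatA

/-! # MP_1eadae_ag, piece RATB: partial derivatives -/

namespace MP1eadaeL

open Complex Function

variable {K : Subfield ℂ} {X : ℕ → Set ℂ} {F G H : Pt → ℂ}

/- Piece RATB.  Everything is one-variable calculus for
`w ↦ G (update z i w)`; for polynomials `w ↦ pev P (update z i w)` has derivative
`pev (MvPolynomial.pderiv i P) z` at `z i` (induction on `P`), a full complex derivative. -/

/-- the segment has unique derivatives (every point is an accumulation point: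
`uniqueDiffWithinAt_iff_accPt` or the tangent cone) -/
theorem ud_seg : ∀ w ∈ seg, UniqueDiffWithinAt ℂ seg w := by
  intro w hw
  rw [uniqueDiffWithinAt_iff_accPt]
  have h1 : IsPreconnected seg := by
    unfold seg
    exact isPreconnected_Icc.image _ Complex.continuous_ofReal.continuousOn
  have h2 : seg.Nontrivial := by
    refine ⟨((0 : ℝ) : ℂ), ⟨0, ⟨le_refl _, zero_le_one⟩, rfl⟩, ((1 : ℝ) : ℂ),
      ⟨1, ⟨zero_le_one, le_refl _⟩, rfl⟩, ?_⟩
    simp
  exact h1.preperfect_of_nontrivial h2 w hw

theorem ud_disc (c : ℂ) (r : ℚ) (hr : 0 < r) : ∀ w ∈ disc c r, UniqueDiffWithinAt ℂ (disc c r) w := by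
  intro w hw
  rw [uniqueDiffWithinAt_iff_accPt]
  have hr' : (0 : ℝ) < (r : ℝ) := by exact_mod_cast hr
  have h1 : IsPreconnected (disc c r) := by
    unfold disc
    exact (convex_closedBall c (r : ℝ)).isPreconnected
  have h2 : (disc c r).Nontrivial := by
    refine ⟨c, ?_, c + (r : ℝ), ?_, ?_⟩
    · exact Metric.mem_closedBall_self hr'.le
    · unfold disc
      rw [Metric.mem_closedBall, dist_eq_norm, add_sub_cancel_left, Complex.norm_real,
        Real.norm_of_nonneg hr'.le]
    · intro h
      have h3 : ((r : ℝ) : ℂ) = 0 := by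
        have h4 : c + ((r : ℝ) : ℂ) = c + 0 := by
          rw [← h, add_zero]
        exact add_left_cancel h4
      rw [Complex.ofReal_eq_zero] at h3
      exact hr'.ne' h3
  exact h1.preperfect_of_nontrivial h2 w hw

theorem rb_dom_mem_update {z : Pt} (hz : z ∈ Dom X) {i : ℕ} {w : ℂ} (hw : w ∈ X i) :
    update z i w ∈ Dom X := by
  intro k
  by_cases hk : k = i
  · subst hk
    rw [update_self]
    exact hw
  · rw [update_of_ne hk]
    exact hz k

/-- uniqueness of the partial derivative -/
theorem Part.unique {i : ℕ} {H' : Pt → ℂ} (hU : ∀ w ∈ X i, UniqueDiffWithinAt ℂ (X i) w)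
    (h : Part X i G H) (h' : Part X i G H') : ∀ z ∈ Dom X, H z = H' z := by
  intro z hz
  exact (hU (z i) (hz i)).eq_deriv _ (h z hz) (h' z hz)

theorem Part.congr {i : ℕ} {G' H' : Pt → ℂ} (h : Part X i G H) (hG : ∀ z ∈ Dom X, G z = G' z)
    (hH : ∀ z ∈ Dom X, H z = H' z) : Part X i G' H' := by
  intro z hz
  rw [← hH z hz]
  refine (h z hz).congr (fun w hw => ?_) ?_
  · exact (hG _ (rb_dom_mem_update hz hw)).symm
  · exact (hG _ (rb_dom_mem_update hz (hz i))).symm

theorem Part.add {i : ℕ} {G' H' : Pt → ℂ} (h : Part X i G H) (h' : Part X i G' H') :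
    Part X i (fun z => G z + G' z) (fun z => H z + H' z) := by
  intro z hz
  exact (h z hz).add (h' z hz)

theorem Part.neg {i : ℕ} (h : Part X i G H) : Part X i (fun z => - G z) (fun z => - H z) := by
  intro z hz
  exact (h z hz).neg

theorem Part.sum {i : ℕ} {ι : Type} (s : Finset ι) (g h : ι → Pt → ℂ)
    (hgh : ∀ j ∈ s, Part X i (g j) (h j)) :
    Part X i (fun z => ∑ j ∈ s, g j z) (fun z => ∑ j ∈ s, h j z) := by
  intro z hz
  exact HasDerivWithinAt.fun_sum (fun j hj => hgh j hj z hz)

/-- Leibniz rule -/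
theorem Part.mul {i : ℕ} {G' H' : Pt → ℂ} (h : Part X i G H) (h' : Part X i G' H') :
    Part X i (fun z => G z * G' z) (fun z => H z * G' z + G z * H' z) := by
  intro z hz
  have h1 := (h z hz).mul (h' z hz)
  rw [update_eq_self] at h1
  exact h1

/-- quotient rule -/
theorem Part.div {i : ℕ} {G' H' : Pt → ℂ} (h : Part X i G H) (h' : Part X i G' H')
    (h0 : ∀ z ∈ Dom X, G' z ≠ 0) :
    Part X i (fun z => G z / G' z) (fun z => (H z * G' z - G z * H' z) / G' z ^ 2) := by
  intro z hz
  have h1 := (h z hz).fun_div (h' z hz) (by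
    rw [update_eq_self]
    exact h0 z hz)
  rw [update_eq_self] at h1
  exact h1

theorem Part.of_indep {i : ℕ} (h : Indep X i G) : Part X i G (fun _ => 0) := by
  intro z hz
  have h1 : HasDerivWithinAt (fun _ : ℂ => G z) 0 (X i) (z i) := hasDerivWithinAt_const _ _ _
  refine h1.congr (fun w hw => h z hz w hw) (h z hz (z i) (hz i))

theorem Part.coord (i : ℕ) : Part X i (fun z => z i) (fun _ => 1) := by
  intro z hz
  have h1 : HasDerivWithinAt (fun w : ℂ => w) 1 (X i) (z i) := hasDerivWithinAt_id _ _
  refine h1.congr (fun w hw => ?_) ?_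
  · exact update_self _ _ _
  · exact update_self _ _ _

/-- the derivative of a function independent of `k` is independent of `k` -/
theorem Part.indep {i k : ℕ} (hik : k ≠ i) (hU : ∀ w ∈ X i, UniqueDiffWithinAt ℂ (X i) w)
    (h : Part X i G H) (hk : Indep X k G) : Indep X k H := by
  intro z hz w hw
  have hz' : update z k w ∈ Dom X := rb_dom_mem_update hz hw
  have h1 := h _ hz'
  rw [update_of_ne (Ne.symm hik)] at h1
  have h2 : HasDerivWithinAt (fun v => G (update z i v)) (H (update z k w)) (X i) (z i) := by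
    refine h1.congr (fun v hv => ?_) ?_
    · rw [update_comm hik, hk _ (rb_dom_mem_update hz hv) w hw]
    · rw [update_comm hik, hk _ (rb_dom_mem_update hz (hz i)) w hw]
  exact (hU (z i) (hz i)).eq_deriv _ h2 (h z hz)

/-- smaller set for one coordinate -/
theorem Part.mono_update {i p : ℕ} {B B' : Set ℂ} (hB : B' ⊆ B)
    (h : Part (update X p B) i G H) : Part (update X p B') i G H := by
  have hsub : ∀ k, update X p B' k ⊆ update X p B k := by
    intro k
    by_cases hk : k = p
    · subst hk
      rw [update_self, update_self]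
      exact hB
    · rw [update_of_ne hk, update_of_ne hk]
  intro z hz
  exact (h z (fun k => hsub k (hz k))).mono (hsub i)

theorem rb_pev_add (P Q : MvPolynomial ℕ K) (z : Pt) : pev (P + Q) z = pev P z + pev Q z := map_add _ _ _

theorem rb_pev_sub (P Q : MvPolynomial ℕ K) (z : Pt) : pev (P - Q) z = pev P z - pev Q z := map_sub _ _ _

theorem rb_pev_mul (P Q : MvPolynomial ℕ K) (z : Pt) : pev (P * Q) z = pev P z * pev Q z := map_mul _ _ _

theorem rb_pev_pow (P : MvPolynomial ℕ K) (n : ℕ) (z : Pt) : pev (P ^ n) z = pev P z ^ n := map_pow _ _ _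

theorem rb_pev_ofNat (z : Pt) : pev (2 : MvPolynomial ℕ K) z = 2 := map_ofNat _ _

/-- the derivative of a polynomial in one coordinate -/
theorem rb_pev_hasDerivAt (P : MvPolynomial ℕ K) (i : ℕ) (z : Pt) :
    HasDerivAt (fun w => pev P (update z i w)) (pev (MvPolynomial.pderiv i P) z) (z i) := by
  induction P using MvPolynomial.induction_on with
  | C a =>
    have h1 : (fun w => pev (MvPolynomial.C a : MvPolynomial ℕ K) (update z i w)) =
        fun _ => algebraMap K ℂ a := by
      funext w
      unfold pev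
      rw [MvPolynomial.aeval_C]
    rw [h1, MvPolynomial.pderiv_C]
    have h2 : pev (0 : MvPolynomial ℕ K) z = 0 := map_zero _
    rw [h2]
    exact hasDerivAt_const _ _
  | add p q hp hq =>
    rw [map_add, rb_pev_add]
    have h1 : (fun w => pev (p + q) (update z i w)) =
        fun w => pev p (update z i w) + pev q (update z i w) := by
      funext w
      exact rb_pev_add _ _ _
    rw [h1]
    exact hp.fun_add hq
  | mul_X p n hp =>
    have h1 : (fun w => pev (p * MvPolynomial.X n) (update z i w)) =
        fun w => pev p (update z i w) * update z i w n := by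
      funext w
      rw [rb_pev_mul]
      unfold pev
      rw [MvPolynomial.aeval_X]
    rw [h1]
    have h2 : HasDerivAt (fun w => update z i w n) (if n = i then 1 else 0) (z i) := by
      by_cases hn : n = i
      · subst hn
        simp only [update_self, if_true]
        exact hasDerivAt_id' _
      · simp only [update_of_ne hn, if_neg hn]
        exact hasDerivAt_const _ _
    have h3 := hp.fun_mul h2
    rw [update_eq_self] at h3
    have h4 : pev (MvPolynomial.pderiv i (p * MvPolynomial.X n)) z =
        pev (MvPolynomial.pderiv i p) z * z n + pev p z * (if n = i then 1 else 0) := by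
      rw [MvPolynomial.pderiv_mul, rb_pev_add, rb_pev_mul, rb_pev_mul]
      have h5 : pev (MvPolynomial.X n : MvPolynomial ℕ K) z = z n := by
        unfold pev
        rw [MvPolynomial.aeval_X]
      rw [h5, MvPolynomial.pderiv_X]
      by_cases hn : n = i
      · subst hn
        rw [Pi.single_eq_same, if_pos rfl]
        have h6 : pev (1 : MvPolynomial ℕ K) z = 1 := map_one _
        rw [h6]
      · rw [Pi.single_eq_of_ne hn, if_neg hn]
        have h6 : pev (0 : MvPolynomial ℕ K) z = 0 := map_zero _
        rw [h6]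
    rw [h4]
    exact h3

theorem rb_pev_part (P : MvPolynomial ℕ K) (i : ℕ) : Part X i (pev P) (pev (MvPolynomial.pderiv i P)) :=
  fun z _ => (rb_pev_hasDerivAt P i z).hasDerivWithinAt

/-- rational functions have rational partial derivatives -/
theorem IsRat.exists_part (hF : IsRat K X F) (i : ℕ) : ∃ F', IsRat K X F' ∧ Part X i F F' := by
  obtain ⟨P, Q, hPQ⟩ := hF
  refine ⟨fun z => (pev (MvPolynomial.pderiv i P) z * pev Q z -
    pev P z * pev (MvPolynomial.pderiv i Q) z) / pev Q z ^ 2, ?_, ?_⟩
  · refine ⟨MvPolynomial.pderiv i P * Q - P * MvPolynomial.pderiv i Q, Q ^ 2, fun z hz => ⟨?_, ?_⟩⟩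
    · rw [rb_pev_pow]
      exact pow_ne_zero _ (hPQ z hz).1
    · simp only [rb_pev_pow, rb_pev_sub, rb_pev_mul]
  · have h1 := (rb_pev_part (X := X) P i).div (rb_pev_part Q i) (fun z hz => (hPQ z hz).1)
    exact h1.congr (fun z hz => (hPQ z hz).2.symm) (fun z hz => rfl)

theorem rb_pderiv_pderiv_comm (i k : ℕ) (P : MvPolynomial ℕ K) :
    MvPolynomial.pderiv i (MvPolynomial.pderiv k P) = MvPolynomial.pderiv k (MvPolynomial.pderiv i P) := by
  induction P using MvPolynomial.induction_on with
  | C a => simp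
  | add p q hp hq => rw [map_add, map_add, map_add, map_add, hp, hq]
  | mul_X p n hp =>
    have h1 : ∀ a b : ℕ, MvPolynomial.pderiv a (MvPolynomial.pderiv b (MvPolynomial.X n : MvPolynomial ℕ K)) = 0 := by
      intro a b
      rw [MvPolynomial.pderiv_X]
      by_cases hn : n = b
      · subst hn
        rw [Pi.single_eq_same]
        exact Derivation.map_one_eq_zero _
      · rw [Pi.single_eq_of_ne hn]
        exact map_zero _
    rw [MvPolynomial.pderiv_mul, MvPolynomial.pderiv_mul, map_add, map_add, MvPolynomial.pderiv_mul,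
      MvPolynomial.pderiv_mul, MvPolynomial.pderiv_mul, MvPolynomial.pderiv_mul, h1, h1, hp]
    ring

/-- mixed second partial derivatives (`pderiv` commute; explicit formula for quotients) -/
theorem IsRat.exists_part2 (hF : IsRat K X F) (i k : ℕ) : ∃ Fi Fk Fik : Pt → ℂ,
    IsRat K X Fi ∧ IsRat K X Fk ∧ IsRat K X Fik ∧
    Part X i F Fi ∧ Part X k F Fk ∧ Part X k Fi Fik ∧ Part X i Fk Fik := by
  obtain ⟨P, Q, hPQ⟩ := hF
  set Pi := MvPolynomial.pderiv i P with hPi
  set Pk := MvPolynomial.pderiv k P with hPk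
  set Qi := MvPolynomial.pderiv i Q with hQi
  set Qk := MvPolynomial.pderiv k Q with hQk
  set Pik := MvPolynomial.pderiv k Pi with hPik
  set Qik := MvPolynomial.pderiv k Qi with hQik
  have hPki : MvPolynomial.pderiv i Pk = Pik := by
    rw [hPik, hPi, hPk]
    exact rb_pderiv_pderiv_comm _ _ _
  have hQki : MvPolynomial.pderiv i Qk = Qik := by
    rw [hQik, hQi, hQk]
    exact rb_pderiv_pderiv_comm _ _ _
  have hQ0 : ∀ z ∈ Dom X, pev Q z ≠ 0 := fun z hz => (hPQ z hz).1
  have p1 : Part X i (pev P) (pev Pi) := rb_pev_part P i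
  have p2 : Part X k (pev P) (pev Pk) := rb_pev_part P k
  have q1 : Part X i (pev Q) (pev Qi) := rb_pev_part Q i
  have q2 : Part X k (pev Q) (pev Qk) := rb_pev_part Q k
  have p3 : Part X k (pev Pi) (pev Pik) := rb_pev_part Pi k
  have q3 : Part X k (pev Qi) (pev Qik) := rb_pev_part Qi k
  have p4 : Part X i (pev Pk) (pev Pik) := by
    rw [← hPki]
    exact rb_pev_part Pk i
  have q4 : Part X i (pev Qk) (pev Qik) := by
    rw [← hQki]
    exact rb_pev_part Qk i
  refine ⟨fun z => (pev Pi z * pev Q z - pev P z * pev Qi z) / pev Q z ^ 2,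
    fun z => (pev Pk z * pev Q z - pev P z * pev Qk z) / pev Q z ^ 2,
    fun z => (pev Pik z * pev Q z ^ 2 - pev Pi z * pev Qk z * pev Q z - pev Pk z * pev Qi z * pev Q z -
      pev P z * pev Q z * pev Qik z + 2 * (pev P z * pev Qi z * pev Qk z)) / pev Q z ^ 3,
    ?_, ?_, ?_, ?_, ?_, ?_, ?_⟩
  · refine ⟨Pi * Q - P * Qi, Q ^ 2, fun z hz => ⟨?_, ?_⟩⟩
    · rw [rb_pev_pow]
      exact pow_ne_zero _ (hQ0 z hz)
    · simp only [rb_pev_pow, rb_pev_sub, rb_pev_mul]
  · refine ⟨Pk * Q - P * Qk, Q ^ 2, fun z hz => ⟨?_, ?_⟩⟩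
    · rw [rb_pev_pow]
      exact pow_ne_zero _ (hQ0 z hz)
    · simp only [rb_pev_pow, rb_pev_sub, rb_pev_mul]
  · refine ⟨Pik * Q ^ 2 - Pi * Qk * Q - Pk * Qi * Q - P * Q * Qik + 2 * (P * Qi * Qk), Q ^ 3,
      fun z hz => ⟨?_, ?_⟩⟩
    · rw [rb_pev_pow]
      exact pow_ne_zero _ (hQ0 z hz)
    · simp only [rb_pev_pow, rb_pev_sub, rb_pev_mul, rb_pev_add, rb_pev_ofNat]
  · exact (p1.div q1 hQ0).congr (fun z hz => (hPQ z hz).2.symm) (fun z hz => rfl)
  · exact (p2.div q2 hQ0).congr (fun z hz => (hPQ z hz).2.symm) (fun z hz => rfl)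
  · have hnum : Part X k (fun z => pev Pi z * pev Q z - pev P z * pev Qi z)
        (fun z => pev Pik z * pev Q z + pev Pi z * pev Qk z - (pev Pk z * pev Qi z + pev P z * pev Qik z)) :=
      ((p3.mul q2).add ((p2.mul q3).neg)).congr (fun z hz => (sub_eq_add_neg _ _).symm)
        (fun z hz => (sub_eq_add_neg _ _).symm)
    have hden : Part X k (fun z => pev Q z ^ 2) (fun z => 2 * (pev Q z * pev Qk z)) :=
      (q2.mul q2).congr (fun z hz => (sq _).symm) (fun z hz => by ring)
    refine (hnum.div hden (fun z hz => pow_ne_zero _ (hQ0 z hz))).congr (fun z hz => rfl) (fun z hz => ?_)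
    have := hQ0 z hz
    field_simp
    ring
  · have hnum : Part X i (fun z => pev Pk z * pev Q z - pev P z * pev Qk z)
        (fun z => pev Pik z * pev Q z + pev Pk z * pev Qi z - (pev Pi z * pev Qk z + pev P z * pev Qik z)) :=
      ((p4.mul q1).add ((p1.mul q4).neg)).congr (fun z hz => (sub_eq_add_neg _ _).symm)
        (fun z hz => (sub_eq_add_neg _ _).symm)
    have hden : Part X i (fun z => pev Q z ^ 2) (fun z => 2 * (pev Q z * pev Qi z)) :=
      (q1.mul q1).congr (fun z hz => (sq _).symm) (fun z hz => by ring)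
    refine (hnum.div hden (fun z hz => pow_ne_zero _ (hQ0 z hz))).congr (fun z hz => rfl) (fun z hz => ?_)
    have := hQ0 z hz
    field_simp
    ring

/-- chain rule, direction `s ≠ p`, `W` independent of `s` -/
theorem Part.comp_indep {p s : ℕ} (hsp : s ≠ p) {B : Set ℂ} {W Wp φ φs : Pt → ℂ}
    (hW : Part (update X p B) p W Wp) (hi : Indep (update X p B) s W)
    (hφB : ∀ z ∈ Dom X, φ z ∈ B) (hφ : Part X s φ φs) :
    Part X s (fun z => W (update z p (φ z))) (fun z => Wp (update z p (φ z)) * φs z) := by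
  intro z hz
  have hz0 : update z p (φ z) ∈ Dom (update X p B) := update_mem_dom hz (hφB z hz)
  have h1 := hW _ hz0
  rw [update_self, update_self] at h1
  have h2 : HasDerivWithinAt (fun w => W (update z p w)) (Wp (update z p (φ z))) B
      ((fun v => φ (update z s v)) (z s)) := by
    simp only [update_eq_self]
    refine h1.congr (fun w hw => ?_) ?_
    · rw [update_idem]
    · rw [update_idem]
  have h3 := HasDerivWithinAt.comp (z s) h2 (hφ z hz) (fun v hv => hφB _ (rb_dom_mem_update hz hv))
  refine h3.congr (fun v hv => ?_) ?_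
  · have hv' : v ∈ update X p B s := by
      rw [update_of_ne hsp]
      exact hv
    simp only [comp_apply]
    rw [update_comm hsp, hi _ (update_mem_dom hz (hφB _ (rb_dom_mem_update hz hv))) v hv']
  · have hv' : z s ∈ update X p B s := by
      rw [update_of_ne hsp]
      exact hz s
    simp only [comp_apply]
    rw [update_comm hsp, hi _ (update_mem_dom hz (hφB _ (rb_dom_mem_update hz (hz s)))) (z s) hv']

/-- chain rule, direction `p` (the substitution overrides the coordinate `p`) -/
theorem Part.comp_self {p : ℕ} {B : Set ℂ} {W Wp φ φp : Pt → ℂ}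
    (hW : Part (update X p B) p W Wp)
    (hφB : ∀ z ∈ Dom X, φ z ∈ B) (hφ : Part X p φ φp) :
    Part X p (fun z => W (update z p (φ z))) (fun z => Wp (update z p (φ z)) * φp z) := by
  intro z hz
  have hz0 : update z p (φ z) ∈ Dom (update X p B) := update_mem_dom hz (hφB z hz)
  have h1 := hW _ hz0
  rw [update_self, update_self] at h1
  have h2 : HasDerivWithinAt (fun w => W (update z p w)) (Wp (update z p (φ z))) B
      ((fun v => φ (update z p v)) (z p)) := by
    simp only [update_eq_self]
    refine h1.congr (fun w hw => ?_) ?_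
    · rw [update_idem]
    · rw [update_idem]
  have h3 := HasDerivWithinAt.comp (z p) h2 (hφ z hz) (fun v hv => hφB _ (rb_dom_mem_update hz hv))
  refine h3.congr (fun v hv => ?_) ?_
  · simp only [comp_apply]
    rw [update_idem]
  · simp only [comp_apply]
    rw [update_idem]

/-- direction `i ≠ p`, substitution of a function of `z` independent of `i` -/
theorem Part.comp_of_indep {p i : ℕ} (hip : i ≠ p) {B : Set ℂ} {W Wi φ : Pt → ℂ}
    (hW : Part (update X p B) i W Wi) (hφB : ∀ z ∈ Dom X, φ z ∈ B) (hφ : Indep X i φ) :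
    Part X i (fun z => W (update z p (φ z))) (fun z => Wi (update z p (φ z))) := by
  intro z hz
  have hz0 : update z p (φ z) ∈ Dom (update X p B) := update_mem_dom hz (hφB z hz)
  have h1 := hW _ hz0
  rw [update_of_ne hip, update_of_ne hip] at h1
  refine h1.congr (fun v hv => ?_) ?_
  · show W (update (update z i v) p (φ (update z i v))) = _
    rw [hφ z hz v hv, update_comm hip]
  · show W (update (update z i (z i)) p (φ (update z i (z i)))) = _
    rw [hφ z hz (z i) (hz i), update_comm hip]

end MP1eadaeL
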