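import Mathlib
import Pool.Agent.Lib_MP_1eadae_ag.Defs
import Pool.Agent.Lib_MP_1eadae_ag.RatA
import Pool.Agent.Lib_MP_1eadae_ag.RatB

/-! # MP_1eadae_ag, piece CTR: the contour integral operator `ctr` -/

namespace MP1eadaeL

open Complex Function

variable {K : Subfield ℂ} {X : ℕ → Set ℂ} {F G H : Pt → ℂ}

/- Piece CTR.  `uj j t = I^j (1+It)/(1-It)`, for `t ∈ [0,1]` this runs through
the `j`-th quarter of the unit circle. -/

theorem uj_one (j : ℕ) : uj j 1 = uj (j + 1) 0 := by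
  unfold uj
  have h1 : (1 : ℂ) - I * 1 ≠ 0 := by
    intro h
    have h2 := congrArg Complex.re h
    simp at h2
  have h2 : (1 + I * 1) / (1 - I * 1) = I := by
    rw [div_eq_iff h1]
    linear_combination Complex.I_mul_I
  rw [h2]
  simp [pow_succ]

theorem uj_four : uj 4 0 = uj 0 0 := by
  unfold uj
  rw [Complex.I_pow_four, pow_zero]

theorem one_sub_I_mul_ne {t : ℂ} (ht : t ∈ seg) : 1 - I * t ≠ 0 := by
  obtain ⟨s, _, rfl⟩ := ht
  intro h
  have h2 := congrArg Complex.re h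
  simp at h2

theorem norm_uj (j : ℕ) {t : ℂ} (ht : t ∈ seg) : ‖uj j t‖ = 1 := by
  have h0 := one_sub_I_mul_ne ht
  obtain ⟨s, _, rfl⟩ := ht
  unfold uj
  rw [norm_mul, norm_pow, Complex.norm_I, one_pow, one_mul, norm_div]
  have h1 : (1 + I * (s : ℂ)) = (starRingEnd ℂ) (1 - I * (s : ℂ)) := by
    simp
  simp only [] at h0 ⊢
  rw [h1, RCLike.norm_conj]
  exact div_self (norm_ne_zero_iff.2 h0)

theorem hasDerivAt_uj (j : ℕ) {t : ℂ} (ht : t ∈ seg) : HasDerivAt (uj j) (duj j t) t := by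
  have h0 := one_sub_I_mul_ne ht
  have h1 : HasDerivAt (fun t : ℂ => 1 + I * t) I t := by
    simpa using ((hasDerivAt_id t).const_mul I).const_add 1
  have h2 : HasDerivAt (fun t : ℂ => 1 - I * t) (-I) t := by
    simpa using ((hasDerivAt_id t).const_mul I).const_sub 1
  have h3 := (h1.div h2 h0).const_mul (I ^ j)
  unfold uj duj
  refine h3.congr_deriv ?_
  congr 2
  ring

theorem mem_circ_uj (c : ℂ) {r : ℚ} (hr : 0 ≤ r) (j : ℕ) {t : ℂ} (ht : t ∈ seg) :
    c + (r : ℂ) * uj j t ∈ circ c r := by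
  unfold circ
  rw [Metric.mem_sphere, dist_eq_norm, add_sub_cancel_left, norm_mul, norm_uj j ht, mul_one]
  have h1 : ((r : ℂ)) = (((r : ℝ)) : ℂ) := by push_cast; rfl
  rw [h1, Complex.norm_real, Real.norm_of_nonneg]
  exact_mod_cast hr

theorem ctr_mem_seg {p : ℕ} (hX : X p = seg) {z : Pt} (hz : z ∈ Dom X) : z p ∈ seg := by
  have h1 := hz p
  rwa [hX] at h1

theorem isRat_uj (hI : I ∈ K) {p : ℕ} (hX : X p = seg) (j : ℕ) :
    IsRat K X (fun z => uj j (z p)) := by
  have h1 : IsRat K X (fun z => 1 + I * z p) :=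
    (IsRat.const 1 K.one_mem).add ((IsRat.const I hI).mul (IsRat.coord p))
  have h2 : IsRat K X (fun z => 1 - I * z p) :=
    (IsRat.const 1 K.one_mem).sub ((IsRat.const I hI).mul (IsRat.coord p))
  exact (IsRat.const (I ^ j) (K.pow_mem hI j)).mul
    (h1.div h2 fun z hz => one_sub_I_mul_ne (ctr_mem_seg hX hz))

theorem isRat_duj (hI : I ∈ K) {p : ℕ} (hX : X p = seg) (j : ℕ) :
    IsRat K X (fun z => duj j (z p)) := by
  have h1 : IsRat K X (fun z => 2 * I) :=
    (IsRat.natCast 2).mul (IsRat.const I hI)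
  have h2 : IsRat K X (fun z => 1 - I * z p) :=
    (IsRat.const 1 K.one_mem).sub ((IsRat.const I hI).mul (IsRat.coord p))
  exact (IsRat.const (I ^ j) (K.pow_mem hI j)).mul
    (h1.div (h2.pow 2) fun z hz => pow_ne_zero 2 (one_sub_I_mul_ne (ctr_mem_seg hX hz)))

/-- the parametrised circle as a rational function with its derivative -/
theorem part_circle (c : ℂ) (r : ℚ) {p : ℕ} (hX : X p = seg) (j : ℕ) :
    Part X p (fun z => c + (r : ℂ) * uj j (z p)) (fun z => (r : ℂ) * duj j (z p)) := by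
  intro z hz
  have h1 := ((hasDerivAt_uj j (ctr_mem_seg hX hz)).const_mul (r : ℂ)).const_add c
  have h2 : (fun w => c + (r : ℂ) * uj j (update z p w p)) = fun w => c + (r : ℂ) * uj j w := by
    funext w
    rw [update_self]
  show HasDerivWithinAt (fun w => c + (r : ℂ) * uj j (update z p w p)) _ _ _
  rw [h2]
  exact h1.hasDerivWithinAt

theorem circ_subset_disc (c : ℂ) (r : ℚ) : circ c r ⊆ disc c r := by
  exact Metric.sphere_subset_closedBall

theorem isRat_ctrTerm (hI : I ∈ K) {p : ℕ} {c : ℂ} {r : ℚ} (hc : c ∈ K) (hr : 0 ≤ r)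
    (hX : X p = seg) (hH : IsRat K (update X p (circ c r)) H) (j : ℕ) :
    IsRat K X (fun z => H (update z p (c + (r : ℂ) * uj j (z p)))) :=
  hH.subst ((IsRat.const c hc).add ((IsRat.ratCast r).mul (isRat_uj hI hX j))) fun z hz =>
    mem_circ_uj c hr j (ctr_mem_seg hX hz)

theorem IsRat.ctr (hI : I ∈ K) {p : ℕ} {c : ℂ} {r : ℚ} (hc : c ∈ K) (hr : 0 ≤ r) (hX : X p = seg)
    (hH : IsRat K (update X p (circ c r)) H) : IsRat K X (MP1eadaeL.ctr p c r H) := by
  unfold MP1eadaeL.ctr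
  exact IsRat.sum _ _ fun j _ => (isRat_ctrTerm hI hc hr hX hH j).mul
    ((IsRat.ratCast r).mul (isRat_duj hI hX j))

/-- the contour integral of a derivative is a Stokes element:
`ctr (∂_y H) = ∑_j ∂_t [H(c + r u_j(t))]` and the boundary terms telescope (`uj_one`, `uj_four`) -/
theorem St.ctr_deriv (hI : I ∈ K) {p : ℕ} {c : ℂ} {r : ℚ} (hc : c ∈ K) (hr : 0 ≤ r)
    (hX : X p = seg) {H' : Pt → ℂ} (hH : IsRat K (update X p (circ c r)) H)
    (hH' : IsRat K (update X p (circ c r)) H') (hP : Part (update X p (circ c r)) p H H') :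
    St (IsRat K X) X {p} (MP1eadaeL.ctr p c r H') := by
  have hgen : ∀ j : ℕ, St (IsRat K X) X {p} (fun z =>
      H' (update z p (c + (r : ℂ) * uj j (z p))) * ((r : ℂ) * duj j (z p)) -
        H (update z p (c + (r : ℂ) * uj j 1)) + H (update z p (c + (r : ℂ) * uj j 0))) := by
    intro j
    have h1 := St.gen (C := IsRat K X) (X := X) (I := {p}) p rfl
      (fun z => H (update z p (c + (r : ℂ) * uj j (z p))))
      (fun z => H' (update z p (c + (r : ℂ) * uj j (z p))) * ((r : ℂ) * duj j (z p)))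
      (isRat_ctrTerm hI hc hr hX hH j)
      ((isRat_ctrTerm hI hc hr hX hH' j).mul ((IsRat.ratCast r).mul (isRat_duj hI hX j)))
      (Part.comp_self hP (fun z hz => mem_circ_uj c hr j (ctr_mem_seg hX hz))
        (part_circle c r hX j))
    refine St.congr _ _ h1 fun z _ => ?_
    simp only [update_idem, update_self]
  refine St.congr _ _ (((hgen 0).add _ _ (hgen 1)).add _ _ (((hgen 2).add _ _ (hgen 3)))) fun z _ => ?_
  unfold MP1eadaeL.ctr
  have e0 : uj 0 1 = uj 1 0 := uj_one 0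
  have e1 : uj 1 1 = uj 2 0 := uj_one 1
  have e2 : uj 2 1 = uj 3 0 := uj_one 2
  have e3 : uj 3 1 = uj 0 0 := (uj_one 3).trans uj_four
  simp only [Finset.sum_range_succ, Finset.sum_range_zero, e0, e1, e2, e3]
  ring

/-- differentiation under the contour integral, `i ≠ p` -/
theorem Part.ctr {i p : ℕ} (hip : i ≠ p) {c : ℂ} {r : ℚ} (hr : 0 ≤ r) (hX : X p = seg)
    {Hi : Pt → ℂ} (hP : Part (update X p (circ c r)) i H Hi) :
    Part X i (MP1eadaeL.ctr p c r H) (MP1eadaeL.ctr p c r Hi) := by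
  unfold MP1eadaeL.ctr
  refine Part.sum _ _ _ fun j _ => ?_
  have hB : ∀ z ∈ Dom X, c + (r : ℂ) * uj j (z p) ∈ circ c r := fun z hz =>
    mem_circ_uj c hr j (ctr_mem_seg hX hz)
  have hφ : Indep X i (fun z => c + (r : ℂ) * uj j (z p)) := by
    intro z _ w _
    beta_reduce
    rw [update_of_ne hip.symm]
  have hψ : Indep X i (fun z => (r : ℂ) * duj j (z p)) := by
    intro z _ w _
    beta_reduce
    rw [update_of_ne hip.symm]
  have h1 := (Part.comp_of_indep hip hP hB hφ).mul (Part.of_indep hψ)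
  refine h1.congr (fun z _ => rfl) fun z _ => ?_
  rw [mul_zero, add_zero]

theorem ctr_congr {p : ℕ} {c : ℂ} {r : ℚ} (hr : 0 ≤ r) (hX : X p = seg)
    (h : ∀ z ∈ Dom (update X p (circ c r)), F z = G z) :
    ∀ z ∈ Dom X, ctr p c r F z = ctr p c r G z := by
  intro z hz
  unfold MP1eadaeL.ctr
  refine Finset.sum_congr rfl fun j _ => ?_
  rw [h _ (update_mem_dom hz (mem_circ_uj c hr j (ctr_mem_seg hX hz)))]

theorem ctr_add (p : ℕ) (c : ℂ) (r : ℚ) (F G : Pt → ℂ) (z : Pt) :
    ctr p c r (fun z => F z + G z) z = ctr p c r F z + ctr p c r G z := by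
  unfold MP1eadaeL.ctr
  rw [← Finset.sum_add_distrib]
  refine Finset.sum_congr rfl fun j _ => ?_
  ring

theorem ctr_sub (p : ℕ) (c : ℂ) (r : ℚ) (F G : Pt → ℂ) (z : Pt) :
    ctr p c r (fun z => F z - G z) z = ctr p c r F z - ctr p c r G z := by
  unfold MP1eadaeL.ctr
  rw [← Finset.sum_sub_distrib]
  refine Finset.sum_congr rfl fun j _ => ?_
  ring

theorem ctr_sum {ι : Type} (s : Finset ι) (f : ι → Pt → ℂ) (p : ℕ) (c : ℂ) (r : ℚ) (z : Pt) :
    ctr p c r (fun z => ∑ i ∈ s, f i z) z = ∑ i ∈ s, ctr p c r (f i) z := by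
  unfold MP1eadaeL.ctr
  rw [Finset.sum_comm]
  refine Finset.sum_congr rfl fun j _ => ?_
  rw [Finset.sum_mul]

/-- a factor which does not depend on the coordinate `p` comes out -/
theorem ctr_mul_left {p : ℕ} {c : ℂ} {r : ℚ} {W : Pt → ℂ} (z : Pt)
    (hW : ∀ w : ℂ, W (update z p w) = W z) :
    ctr p c r (fun z => W z * F z) z = W z * ctr p c r F z := by
  unfold MP1eadaeL.ctr
  rw [Finset.mul_sum]
  refine Finset.sum_congr rfl fun j _ => ?_
  beta_reduce
  rw [hW]
  ring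

/-- the same with hypotheses only on the circle -/
theorem ctr_mul_left' {p : ℕ} {c : ℂ} {r : ℚ} (hr : 0 ≤ r) {W : Pt → ℂ} {z : Pt} (hz : z p ∈ seg)
    (hW : ∀ w ∈ circ c r, W (update z p w) = W z) :
    ctr p c r (fun z => W z * F z) z = W z * ctr p c r F z := by
  unfold MP1eadaeL.ctr
  rw [Finset.mul_sum]
  refine Finset.sum_congr rfl fun j _ => ?_
  beta_reduce
  rw [hW _ (mem_circ_uj c hr j hz)]
  ring

theorem ctr_comm {p q : ℕ} (hpq : p ≠ q) (c c' : ℂ) (r r' : ℚ) (H : Pt → ℂ) (z : Pt) :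
    ctr p c r (ctr q c' r' H) z = ctr q c' r' (ctr p c r H) z := by
  unfold MP1eadaeL.ctr
  simp only [update_of_ne hpq, update_of_ne hpq.symm, Finset.sum_mul]
  rw [Finset.sum_comm]
  refine Finset.sum_congr rfl fun j _ => Finset.sum_congr rfl fun k _ => ?_
  rw [update_comm hpq]
  ring

/-- the contour integral of `1/(y-c)` -/
theorem ctr_inv {p : ℕ} {c : ℂ} {r : ℚ} (hr : 0 < r) {z : Pt} (hz : z p ∈ seg) :
    ctr p c r (fun z => 1 / (z p - c)) z = tpi p z := by
  have h1 := one_sub_I_mul_ne hz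
  have h2 : 1 + I * z p ≠ 0 := by
    obtain ⟨s, _, hs⟩ := hz
    simp only [] at hs
    rw [← hs]
    intro h
    have h2 := congrArg Complex.re h
    simp at h2
  have hr' : (r : ℂ) ≠ 0 := by exact_mod_cast hr.ne'
  have h3 : (1 + (z p) ^ 2) = (1 - I * z p) * (1 + I * z p) := by
    linear_combination (z p) ^ 2 * Complex.I_sq
  unfold MP1eadaeL.ctr tpi
  have h4 : ∀ j ∈ Finset.range 4, 1 / (update z p (c + (r : ℂ) * uj j (z p)) p - c) *
      ((r : ℂ) * duj j (z p)) = 2 * I / (1 + (z p) ^ 2) := by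
    intro j _
    rw [update_self, add_sub_cancel_left]
    unfold uj duj
    have hI : I ^ j ≠ 0 := pow_ne_zero _ Complex.I_ne_zero
    rw [h3]
    field_simp
  rw [Finset.sum_congr rfl h4]
  simp only [Finset.sum_const, Finset.card_range, nsmul_eq_mul]
  push_cast
  ring

theorem ctr_indep {i p : ℕ} (hip : i ≠ p) {c : ℂ} {r : ℚ} (hr : 0 ≤ r) (hX : X p = seg)
    (h : Indep (update X p (circ c r)) i H) : Indep X i (ctr p c r H) := by
  intro z hz w hw
  unfold MP1eadaeL.ctr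
  refine Finset.sum_congr rfl fun j _ => ?_
  rw [update_of_ne hip.symm, update_comm hip]
  have h1 := h _ (update_mem_dom hz (mem_circ_uj c hr j (ctr_mem_seg hX hz))) w
    (by rw [update_of_ne hip]; exact hw)
  rw [h1]

theorem ctr_depOn {S : Set ℕ} {p : ℕ} (hp : p ∈ S) {c : ℂ} {r : ℚ} (hr : 0 ≤ r) (hX : X p = seg)
    (h : DepOn (update X p (circ c r)) S H) : DepOn X S (ctr p c r H) := by
  intro z hz w hw hzw
  unfold MP1eadaeL.ctr
  refine Finset.sum_congr rfl fun j _ => ?_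
  rw [hzw p hp]
  have h1 := h _ (update_mem_dom hz (mem_circ_uj c hr j (ctr_mem_seg hX hw))) _
    (update_mem_dom hw (mem_circ_uj c hr j (ctr_mem_seg hX hw))) (by
      intro i hi
      by_cases hip : i = p
      · subst hip
        rw [update_self, update_self]
      · rw [update_of_ne hip, update_of_ne hip]
        exact hzw i hi)
  rw [h1]

end MP1eadaeL
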