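import Mathlib
import Pool.Agent.Lib_MP_1eadae_ag.Defs
import Pool.Agent.Lib_MP_1eadae_ag.RatA
import Pool.Agent.Lib_MP_1eadae_ag.RatB
import Pool.Agent.Lib_MP_1eadae_ag.Ctr

/-! # MP_1eadae_ag, piece PEN: pencils -/

namespace MP1eadaeL

open Complex Function

variable {K : Subfield ℂ} {X : ℕ → Set ℂ} {F G H Q Qy : Pt → ℂ} {c : ℂ} {r : ℚ} {p : ℕ}

/- Piece PEN.  `P : Pencil K X p Q Qy c r`. -/

private theorem dom_circ_disc (X : ℕ → Set ℂ) (p : ℕ) (c : ℂ) (r : ℚ) :
    ∀ z ∈ Dom (update X p (circ c r)), z ∈ Dom (update X p (disc c r)) := by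
  intro z hz i
  have hi := hz i
  by_cases h : i = p
  · subst h
    simp only [update_self] at hi ⊢
    exact circ_subset_disc c r hi
  · simpa only [update_of_ne h] using hi

/-- On the circle `Q(z,w)` is close to `w - c`:
`‖Q(z,w) - (w-c)‖ ≤ ‖(Q(z,w)-w) - (Q(z,c)-c)‖ + ‖Q(z,c)‖ < r/2 + r/2 = ‖w-c‖`, so the segment from
`Q` to `w - c` avoids `0`. -/
theorem Pencil.seg_ne (P : Pencil K X p Q Qy c r) {z : Pt} (hz : z ∈ Dom X) {w : ℂ}
    (hw : w ∈ circ c r) {s : ℂ} (hs : s ∈ seg) :
    (1 - s) * Q (update z p w) + s * (w - c) ≠ 0 := by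
  have hr : (0 : ℝ) < (r : ℝ) := by exact_mod_cast P.hr
  have hwc : ‖w - c‖ = (r : ℝ) := by
    simpa [circ] using hw
  have hcd : c ∈ disc c r := by
    simp [disc, hr.le]
  have h1 := P.contr z hz w (circ_subset_disc c r hw) c hcd
  have h2 := P.cen z hz
  have h3 : ‖Q (update z p w) - (w - c)‖ < (r : ℝ) := by
    have he : Q (update z p w) - (w - c)
        = ((Q (update z p w) - w) - (Q (update z p c) - c)) + Q (update z p c) := by ring
    rw [he]
    calc _ ≤ _ := norm_add_le _ _
      _ < 1 / 2 * ‖w - c‖ + (r : ℝ) / 2 := by linarith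
      _ = (r : ℝ) := by rw [hwc]; ring
  obtain ⟨t, ht, rfl⟩ := hs
  intro h0
  have he : w - c = -((1 - (t : ℂ)) * (Q (update z p w) - (w - c))) := by
    linear_combination h0
  have h4 : ‖w - c‖ = |1 - t| * ‖Q (update z p w) - (w - c)‖ := by
    conv_lhs => rw [he]
    rw [norm_neg, norm_mul]
    congr 1
    rw [← Complex.ofReal_one, ← Complex.ofReal_sub, Complex.norm_real, Real.norm_eq_abs]
  have h5 : |1 - t| ≤ 1 := by
    rw [abs_le]
    constructor <;> linarith [ht.1, ht.2]
  have h6 : |1 - t| * ‖Q (update z p w) - (w - c)‖ ≤ 1 * ‖Q (update z p w) - (w - c)‖ :=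
    mul_le_mul_of_nonneg_right h5 (norm_nonneg _)
  linarith

theorem Pencil.circ_ne (P : Pencil K X p Q Qy c r) (hX : X p = seg) {z : Pt}
    (hz : z ∈ Dom (update X p (circ c r))) : Q z ≠ 0 := by
  have h0 : update z p 0 ∈ Dom X := update_mem_dom' hz (by rw [hX]; exact zero_mem_seg)
  have hzp : z p ∈ circ c r := by simpa using hz p
  have h1 := P.seg_ne h0 hzp zero_mem_seg
  simpa using h1

/-- the derivative is close to `1`; limit of difference quotients inside the disc -/
theorem Pencil.norm_Qy_sub_one (P : Pencil K X p Q Qy c r) (hX : X p = seg) {z : Pt}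
    (hz : z ∈ Dom (update X p (disc c r))) : ‖Qy z - 1‖ ≤ 1 / 2 := by
  have hr : (0 : ℝ) < (r : ℝ) := by exact_mod_cast P.hr
  have h0 : update z p 0 ∈ Dom X := update_mem_dom' hz (by rw [hX]; exact zero_mem_seg)
  have hzp : z p ∈ disc c r := by simpa using hz p
  have hd : HasDerivWithinAt (fun w => Q (update z p w)) (Qy z) (disc c r) (z p) := by
    simpa using P.part z hz
  have hd1 : HasDerivWithinAt (fun w => Q (update z p w) - w) (Qy z - 1) (disc c r) (z p) :=
    hd.sub (hasDerivWithinAt_id _ _)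
  rw [hasDerivWithinAt_iff_tendsto_slope] at hd1
  have hne : (nhdsWithin (z p) (disc c r \ {z p})).NeBot := by
    have h := ud_disc c r P.hr (z p) hzp
    rw [uniqueDiffWithinAt_iff_accPt] at h
    unfold AccPt at h
    rw [nhdsWithin, Set.sdiff_eq]
    rw [nhdsWithin, inf_assoc, Filter.inf_principal] at h
    rwa [Set.inter_comm]
  refine le_of_tendsto hd1.norm ?_
  filter_upwards [self_mem_nhdsWithin] with w hw
  have hwd : w ∈ disc c r := hw.1
  have hwne : w ≠ z p := fun h => hw.2 (by simpa using h)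
  have h1 := P.contr _ h0 w hwd (z p) hzp
  simp only [update_idem] at h1
  rw [slope_def_field, norm_div]
  rw [div_le_iff₀ (norm_pos_iff.2 (sub_ne_zero.2 hwne))]
  exact h1

theorem Pencil.Qy_ne (P : Pencil K X p Q Qy c r) (hX : X p = seg) {z : Pt}
    (hz : z ∈ Dom (update X p (disc c r))) : Qy z ≠ 0 := by
  intro h
  have h1 := P.norm_Qy_sub_one hX hz
  rw [h] at h1
  norm_num at h1

/-- the residue integrand is rational on `Dom X` -/
theorem Pencil.isRat_res (P : Pencil K X p Q Qy c r) (hI : I ∈ K) (hX : X p = seg)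
    (hF : IsRat K (update X p (disc c r)) F) : IsRat K X (res p c r F Q Qy) := by
  unfold res
  refine IsRat.ctr hI P.hc P.hr.le hX ?_
  exact ((hF.monoDom (dom_circ_disc X p c r)).mul (P.ratQy.monoDom (dom_circ_disc X p c r))).div
    (P.ratQ.monoDom (dom_circ_disc X p c r)) (fun z hz => P.circ_ne hX hz)

/-- and depends only on the coordinates on which the data depend -/
theorem Pencil.depOn_res (P : Pencil K X p Q Qy c r) (hX : X p = seg) {S : Set ℕ} (hp : p ∈ S)
    (hF : DepOn (update X p (disc c r)) S F) (hQ : DepOn (update X p (disc c r)) S Q) :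
    DepOn X S (res p c r F Q Qy) := by
  unfold res
  have hQy : DepOn (update X p (disc c r)) S Qy := by
    intro z hz w hw hzw
    have h1 : HasDerivWithinAt (fun t => Q (update z p t)) (Qy z) (disc c r) (z p) := by
      simpa using P.part z hz
    have h2 : HasDerivWithinAt (fun t => Q (update w p t)) (Qy w) (disc c r) (w p) := by
      simpa using P.part w hw
    have hzp : z p ∈ disc c r := by simpa using hz p
    rw [← hzw p hp] at h2
    have hmem : ∀ (y : Pt), y ∈ Dom (update X p (disc c r)) → ∀ t ∈ disc c r,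
        update y p t ∈ Dom (update X p (disc c r)) := by
      intro y hy t ht i
      by_cases h : i = p
      · subst h; simpa using ht
      · have h' := hy i
        simp only [update_of_ne h] at h' ⊢
        exact h'
    have heq : ∀ t ∈ disc c r, Q (update z p t) = Q (update w p t) := by
      intro t ht
      refine hQ _ (hmem z hz t ht) _ (hmem w hw t ht) ?_
      intro i hi
      by_cases h : i = p
      · subst h; simp
      · rw [update_of_ne h, update_of_ne h]
        exact hzw i hi
    have h3 : HasDerivWithinAt (fun t => Q (update z p t)) (Qy w) (disc c r) (z p) :=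
      h2.congr heq (heq _ hzp)
    exact (ud_disc c r P.hr (z p) hzp).eq_deriv _ h1 h3
  refine ctr_depOn hp P.hr.le hX ?_
  intro z hz w hw hzw
  have hz' := dom_circ_disc X p c r z hz
  have hw' := dom_circ_disc X p c r w hw
  simp only [hF z hz' w hw' hzw, hQy z hz' w hw' hzw, hQ z hz' w hw' hzw]

/-- the trivial pencil `Q = y` on the unit disc -/
theorem Pencil.trivial (K : Subfield ℂ) (X : ℕ → Set ℂ) (p : ℕ) :
    Pencil K X p (fun z => z p) (fun _ => 1) 0 1 where
  ratQ := IsRat.coord p
  ratQy := IsRat.const 1 K.one_mem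
  part := Part.coord p
  hc := K.zero_mem
  hr := one_pos
  contr := by
    intro z _ w _ w' _
    simp
  cen := by
    intro z _
    simp

end MP1eadaeL
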