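import Mathlib
import Pool.Agent.Lib_MP_1eadae_ag.Defs
import Pool.Agent.Lib_MP_1eadae_ag.RatA
import Pool.Agent.Lib_MP_1eadae_ag.RatB

/-! # MP_1eadae_ag, piece RATC: implicit differentiation and divided differences -/

namespace MP1eadaeL

open Complex Function

variable {K : Subfield ℂ} {X : ℕ → Set ℂ} {F G H : Pt → ℂ}

/-- A continuous root of a differentiable equation with invertible `y`-derivative is
differentiable.  Proof: `0 = g(t,w t) - g(t0,w t0) = gt (t-t0) + gy (w t - w t0) + o(|t-t0| + |w t - w t0|)`,
hence `|w t - w t0| = O(|t-t0|)` and then the claim. -/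
theorem impl_deriv (g : ℂ × ℂ → ℂ) (gt gy t0 : ℂ) (w : ℂ → ℂ) (s : Set ℂ)
    (hg : HasFDerivAt g (gt • ContinuousLinearMap.fst ℂ ℂ ℂ + gy • ContinuousLinearMap.snd ℂ ℂ ℂ)
      (t0, w t0)) (hgy : gy ≠ 0) (hw : ContinuousWithinAt w s t0)
    (h00 : g (t0, w t0) = 0) (h0 : ∀ᶠ t in nhdsWithin t0 s, g (t, w t) = 0) :
    HasDerivWithinAt w (- gt / gy) s t0 := by
  rw [hasDerivWithinAt_iff_isLittleO]
  have hw2 : Filter.Tendsto (fun t : ℂ => ((t, w t) : ℂ × ℂ)) (nhdsWithin t0 s) (nhds (t0, w t0)) :=
    (Filter.Tendsto.prodMk_nhds (Filter.tendsto_id.mono_left nhdsWithin_le_nhds) hw)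
  have h1 := (hasFDerivAt_iff_isLittleO.1 hg).comp_tendsto hw2
  -- the linear combination is small
  have h2 : (fun t => gt * (t - t0) + gy * (w t - w t0)) =o[nhdsWithin t0 s]
      (fun t => ((t, w t) : ℂ × ℂ) - (t0, w t0)) := by
    have h3 := h1.neg_left
    refine h3.congr' ?_ (Filter.EventuallyEq.refl _ _)
    filter_upwards [h0] with t ht
    simp only [Function.comp_apply, ht, h00, add_apply,
      smul_apply, ContinuousLinearMap.coe_fst', ContinuousLinearMap.coe_snd',
      Prod.fst_sub, Prod.snd_sub, smul_eq_mul]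
    ring
  have hgy' : 0 < ‖gy‖ := norm_pos_iff.2 hgy
  -- `w t - w t0 = O(t - t0)`
  have hO : (fun t => w t - w t0) =O[nhdsWithin t0 s] (fun t => t - t0) := by
    have h3 := h2.def (c := ‖gy‖ / 2) (by positivity)
    refine Asymptotics.IsBigO.of_bound (1 + 2 * ‖gt‖ / ‖gy‖) ?_
    filter_upwards [h3] with t ht
    have h4 : ‖((t, w t) : ℂ × ℂ) - (t0, w t0)‖ ≤ ‖t - t0‖ + ‖w t - w t0‖ := by
      rw [Prod.norm_def]
      exact max_le (le_add_of_nonneg_right (norm_nonneg _)) (le_add_of_nonneg_left (norm_nonneg _))
    have h5 : ‖gy * (w t - w t0)‖ ≤ ‖gt * (t - t0) + gy * (w t - w t0)‖ + ‖gt * (t - t0)‖ := by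
      have e : gy * (w t - w t0) = (gt * (t - t0) + gy * (w t - w t0)) - gt * (t - t0) := by ring
      calc ‖gy * (w t - w t0)‖ = ‖(gt * (t - t0) + gy * (w t - w t0)) - gt * (t - t0)‖ := by
            rw [← e]
        _ ≤ _ := norm_sub_le _ _
    rw [norm_mul] at h5
    rw [norm_mul gt] at h5
    have h6 : ‖gy‖ * ‖w t - w t0‖ ≤ ‖gy‖ / 2 * (‖t - t0‖ + ‖w t - w t0‖) + ‖gt‖ * ‖t - t0‖ :=
      h5.trans (add_le_add (ht.trans (mul_le_mul_of_nonneg_left h4 (by positivity))) le_rfl)
    have h7 : ‖gy‖ * ‖w t - w t0‖ ≤ ‖gy‖ * ((1 + 2 * ‖gt‖ / ‖gy‖) * ‖t - t0‖) := by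
      have e : ‖gy‖ * ((1 + 2 * ‖gt‖ / ‖gy‖) * ‖t - t0‖) = (‖gy‖ + 2 * ‖gt‖) * ‖t - t0‖ := by
        field_simp
      rw [e]
      nlinarith [norm_nonneg (t - t0), norm_nonneg (w t - w t0)]
    exact le_of_mul_le_mul_left h7 hgy'
  have hO2 : (fun t => ((t, w t) : ℂ × ℂ) - (t0, w t0)) =O[nhdsWithin t0 s] (fun t => t - t0) :=
    (Asymptotics.isBigO_refl _ _).prod_left hO
  have h8 := (h2.trans_isBigO hO2).const_mul_left gy⁻¹
  refine h8.congr_left fun t => ?_
  rw [smul_eq_mul]
  field_simp
  ring

/-- substitution of zero for one coordinate -/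
private theorem pev_zero_sub (P : MvPolynomial ℕ K) (q : ℕ) :
    ∃ A : MvPolynomial ℕ K, ∀ z : Pt, pev A z = pev P (update z q 0) := by
  refine ⟨MvPolynomial.aeval (update (MvPolynomial.X : ℕ → MvPolynomial ℕ K) q 0) P, fun z => ?_⟩
  rw [pev, pev, MvPolynomial.comp_aeval_apply]
  congr 2
  funext i
  by_cases hi : i = q
  · subst hi
    rw [update_self, update_self, map_zero]
  · rw [update_of_ne hi, update_of_ne hi, MvPolynomial.aeval_X]

/-- substitution of one coordinate for another one -/
private theorem pev_diag (A : MvPolynomial ℕ K) (p q : ℕ) :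
    ∃ A' D : MvPolynomial ℕ K, ∀ z : Pt, pev A' z = pev A (update z p (z q)) ∧
      pev A z - pev A' z = (z p - z q) * pev D z := by
  have hdvd : (MvPolynomial.X p - MvPolynomial.X q : MvPolynomial ℕ K) ∣
      A - MvPolynomial.aeval (update (MvPolynomial.X : ℕ → MvPolynomial ℕ K) p
        (MvPolynomial.X q)) A := by
    induction A using MvPolynomial.induction_on with
    | C a => rw [MvPolynomial.aeval_C, MvPolynomial.algebraMap_eq, sub_self]; exact dvd_zero _
    | add f g hf hg =>
      rw [map_add, add_sub_add_comm]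
      exact dvd_add hf hg
    | mul_X f i hf =>
      rw [map_mul, MvPolynomial.aeval_X]
      have e : ∀ (a b c d : MvPolynomial ℕ K), a * b - c * d = (a - c) * b + c * (b - d) := by
        intro a b c d; ring
      rw [e]
      refine dvd_add (hf.mul_right _) (Dvd.dvd.mul_left ?_ _)
      by_cases hi : i = p
      · subst hi
        rw [update_self]
      · rw [update_of_ne hi, sub_self]
        exact dvd_zero _
  obtain ⟨D, hD⟩ := hdvd
  refine ⟨MvPolynomial.aeval (update (MvPolynomial.X : ℕ → MvPolynomial ℕ K) p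
    (MvPolynomial.X q)) A, D, fun z => ⟨?_, ?_⟩⟩
  · rw [pev, pev, MvPolynomial.comp_aeval_apply]
    congr 2
    funext i
    by_cases hi : i = p
    · subst hi
      rw [update_self, update_self, MvPolynomial.aeval_X]
    · rw [update_of_ne hi, update_of_ne hi, MvPolynomial.aeval_X]
  · have h1 := congrArg (fun Q => pev Q z) hD
    simp only [pev, map_sub, map_mul, MvPolynomial.aeval_X] at h1
    exact h1

private theorem update_comm_pq {p q : ℕ} (hpq : p ≠ q) {z : Pt} :
    update (update z p (z q)) q 0 = update (update z q 0) p (z q) :=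
  update_comm hpq _ _ _

/-- divided differences of a rational function.  `F = P/P'`; substitute `0` for the coordinate `q`
in `P` and `P'`; `P(y) - P(e)` is divisible by `y - e` in the polynomial ring
(`P - P[X_p := X_q]` lies in the ideal generated by `X_p - X_q`), and
`(P(y)P'(e) - P(e)P'(y))/(P'(y)P'(e))` is the difference.  The last claim: for `z p ≠ z q` clear,
for `z p = z q` by continuity (`disc c r` has no isolated points). -/
theorem IsRat.divided {p q : ℕ} (hpq : p ≠ q) (hXq : X q = seg) {c : ℂ} {r : ℚ} (hr : 0 < r)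
    (hF : IsRat K (update X p (disc c r)) F) :
    ∃ D : Pt → ℂ, IsRat K (update (update X p (disc c r)) q (disc c r)) D ∧
      (∀ z ∈ Dom (update (update X p (disc c r)) q (disc c r)),
        F (update z q 0) - F (update (update z q 0) p (z q)) = (z p - z q) * D z) ∧
      (∀ s, s ≠ p → s ≠ q → Indep (update X p (disc c r)) s F →
        Indep (update (update X p (disc c r)) q (disc c r)) s D) := by
  obtain ⟨P, P', hPP⟩ := hF
  set Y := update (update X p (disc c r)) q (disc c r) with hY
  have hYq : Y q = disc c r := by rw [hY, update_self]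
  have hYp : Y p = disc c r := by rw [hY, update_of_ne hpq, update_self]
  -- the two points
  have hm1 : ∀ z ∈ Dom Y, update z q 0 ∈ Dom (update X p (disc c r)) := by
    intro z hz i
    by_cases hi : i = q
    · subst hi
      rw [update_self, update_of_ne (Ne.symm hpq), hXq]
      exact zero_mem_seg
    · rw [update_of_ne hi]
      have h1 := hz i
      rw [hY, update_of_ne hi] at h1
      exact h1
  have hm2 : ∀ z ∈ Dom Y, update (update z q 0) p (z q) ∈ Dom (update X p (disc c r)) := by
    intro z hz i
    by_cases hi : i = p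
    · subst hi
      rw [update_self, update_self]
      have h1 := hz q
      rw [hYq] at h1
      exact h1
    · have h1 := hm1 z hz i
      rw [update_of_ne hi] at h1 ⊢
      rw [update_of_ne hi]
      exact h1
  obtain ⟨A, hA⟩ := pev_zero_sub P q
  obtain ⟨B, hB⟩ := pev_zero_sub P' q
  obtain ⟨A', DA, hA'⟩ := pev_diag A p q
  obtain ⟨B', DB, hB'⟩ := pev_diag B p q
  have hne : ∀ z ∈ Dom Y, pev B z ≠ 0 ∧ pev B' z ≠ 0 := by
    intro z hz
    refine ⟨?_, ?_⟩
    · rw [hB]
      exact (hPP _ (hm1 z hz)).1
    · rw [(hB' z).1, hB, update_comm_pq hpq]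
      exact (hPP _ (hm2 z hz)).1
  have hFA : ∀ z ∈ Dom Y, F (update z q 0) = pev A z / pev B z := by
    intro z hz
    rw [hA, hB]
    exact (hPP _ (hm1 z hz)).2
  have hFA' : ∀ z ∈ Dom Y, F (update (update z q 0) p (z q)) = pev A' z / pev B' z := by
    intro z hz
    rw [(hA' z).1, (hB' z).1, hA, hB, update_comm_pq hpq]
    exact (hPP _ (hm2 z hz)).2
  have hrat : IsRat K Y (fun z => (pev DA z * pev B' z - pev A' z * pev DB z) / (pev B z * pev B' z)) := by
    refine ⟨DA * B' - A' * DB, B * B', fun z hz => ⟨?_, ?_⟩⟩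
    · rw [pev, map_mul]
      exact mul_ne_zero (hne z hz).1 (hne z hz).2
    · simp only [pev, map_mul, map_sub]
  have hmain : ∀ z ∈ Dom Y, F (update z q 0) - F (update (update z q 0) p (z q)) = (z p - z q) *
      ((pev DA z * pev B' z - pev A' z * pev DB z) / (pev B z * pev B' z)) := by
    intro z hz
    rw [hFA z hz, hFA' z hz]
    obtain ⟨h1, h2⟩ := hne z hz
    have e1 := (hA' z).2
    have e2 := (hB' z).2
    rw [div_sub_div _ _ h1 h2, mul_div_assoc']
    congr 1
    linear_combination pev B' z * e1 - pev A' z * e2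
  refine ⟨_, hrat, hmain, ?_⟩
  intro s hsp hsq hind z hz w hws
  set D : Pt → ℂ := fun z => (pev DA z * pev B' z - pev A' z * pev DB z) / (pev B z * pev B' z) with hD
  have hYs : Y s = X s := by rw [hY, update_of_ne hsq, update_of_ne hsp]
  have hws' : w ∈ (update X p (disc c r)) s := by
    rw [update_of_ne hsp, ← hYs]; exact hws
  have hzw : update z s w ∈ Dom Y := by
    intro i
    by_cases hi : i = s
    · subst hi
      rw [update_self]
      exact hws
    · rw [update_of_ne hi]
      exact hz i
  -- the case of different coordinates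
  have hoff : ∀ z ∈ Dom Y, update z s w ∈ Dom Y → z p ≠ z q → D (update z s w) = D z := by
    intro z hz hzw hpq'
    have h1 := hmain z hz
    have h2 := hmain _ hzw
    have e1 : update (update z s w) q 0 = update (update z q 0) s w := update_comm hsq _ _ _
    have e2 : update (update (update z s w) q 0) p (z q) =
        update (update (update z q 0) p (z q)) s w := by
      rw [e1, update_comm hsp]
    have e3 : (update z s w) q = z q := update_of_ne (Ne.symm hsq) _ _
    have e4 : (update z s w) p = z p := update_of_ne (Ne.symm hsp) _ _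
    rw [e3, e4, e2, e1, hind _ (hm1 z hz) w hws', hind _ (hm2 z hz) w hws', h1] at h2
    exact (mul_left_cancel₀ (sub_ne_zero.2 hpq') h2).symm
  by_cases hpq' : z p = z q
  · -- continuity
    have hcont : ContinuousOn D (Dom Y) := hrat.continuousOn
    have hzp : z p ∈ disc c r := by
      have h1 := hz p
      rw [hYp] at h1
      exact h1
    have hline : ∀ x ∈ Dom Y, ContinuousOn (fun y => D (update x p y)) (disc c r) := by
      intro x hx
      refine hcont.comp (Continuous.continuousOn (continuous_const.update p continuous_id)) ?_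
      intro y hy i
      by_cases hi : i = p
      · subst hi
        rw [update_self, hYp]
        exact hy
      · rw [update_of_ne hi]
        exact hx i
    have hacc : AccPt (z p) (Filter.principal (disc c r)) :=
      uniqueDiffWithinAt_iff_accPt.1 (ud_disc c r hr (z p) hzp)
    have hnb : (nhdsWithin (z p) (disc c r \ {z p})).NeBot := by
      rw [AccPt] at hacc
      have e : nhdsWithin (z p) (disc c r \ {z p}) =
          nhdsWithin (z p) {z p}ᶜ ⊓ Filter.principal (disc c r) := by
        rw [nhdsWithin, nhdsWithin, inf_assoc, Filter.inf_principal, Set.inter_comm]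
        rfl
      rw [e]
      exact hacc
    have hle : nhdsWithin (z p) (disc c r \ {z p}) ≤ nhdsWithin (z p) (disc c r) :=
      nhdsWithin_mono _ Set.sdiff_subset
    have t1 := ((hline _ hzw) (z p) hzp).tendsto.mono_left hle
    have t2 := ((hline _ hz) (z p) hzp).tendsto.mono_left hle
    have e5 : update (update z s w) p (z p) = update z s w := by
      have : (update z s w) p = z p := update_of_ne (Ne.symm hsp) _ _
      rw [← this, update_eq_self]
    have e6 : update z p (z p) = z := update_eq_self p z
    simp only [e5, e6] at t1 t2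
    refine tendsto_nhds_unique t1 (t2.congr' ?_)
    filter_upwards [self_mem_nhdsWithin] with y hy
    have hyY : update z p y ∈ Dom Y := by
      intro i
      by_cases hi : i = p
      · subst hi
        rw [update_self, hYp]
        exact hy.1
      · rw [update_of_ne hi]
        exact hz i
    have hyY' : update (update z p y) s w ∈ Dom Y := by
      intro i
      by_cases hi : i = s
      · subst hi
        rw [update_self]
        exact hws
      · rw [update_of_ne hi]
        exact hyY i
    have h1 := hoff _ hyY hyY' (by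
      rw [update_self, update_of_ne (Ne.symm hpq), ← hpq']
      exact hy.2)
    rw [update_comm (Ne.symm hsp)] at h1
    exact h1.symm
  · exact hoff z hz hzw hpq'

end MP1eadaeL
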