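import Mathlib
import Pool.Agent.Lib_MP_1eadae_ag.Defs
import Pool.Agent.Lib_MP_1eadae_ag.RatA
import Pool.Agent.Lib_MP_1eadae_ag.RatB
import Pool.Agent.Lib_MP_1eadae_ag.RatC
import Pool.Agent.Lib_MP_1eadae_ag.Ctr
import Pool.Agent.Lib_MP_1eadae_ag.Pen

/-! # MP_1eadae_ag, piece ROOT: the root function of a pencil -/

namespace MP1eadaeL

open Complex Function

variable {K : Subfield ℂ} {X : ℕ → Set ℂ} {F G H Q Qy : Pt → ℂ} {c : ℂ} {r : ℚ} {p : ℕ}

theorem ROOT_lip (P : Pencil K X p Q Qy c r) {z : Pt} (hz : z ∈ Dom X) {w w' : ℂ}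
    (hw : w ∈ disc c r) (hw' : w' ∈ disc c r) :
    ‖w - w'‖ ≤ 2 * ‖Q (update z p w) - Q (update z p w')‖ := by
  have h1 := P.contr z hz w hw w' hw'
  have h2 : w - w' = (Q (update z p w) - Q (update z p w')) -
      ((Q (update z p w) - w) - (Q (update z p w') - w')) := by ring
  have h3 : ‖w - w'‖ ≤ ‖Q (update z p w) - Q (update z p w')‖ +
      ‖(Q (update z p w) - w) - (Q (update z p w') - w')‖ := by
    conv_lhs => rw [h2]
    exact norm_sub_le _ _
  linarith

theorem ROOT_mem_disc_iff (w : ℂ) : w ∈ disc c r ↔ ‖w - c‖ ≤ (r : ℝ) := by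
  unfold disc
  rw [Metric.mem_closedBall, dist_eq_norm]

theorem ROOT_center (P : Pencil K X p Q Qy c r) : c ∈ disc c r := by
  rw [ROOT_mem_disc_iff, sub_self, norm_zero]
  exact_mod_cast P.hr.le

theorem ROOT_T_est (P : Pencil K X p Q Qy c r) {z : Pt} (hz : z ∈ Dom X) {w : ℂ}
    (hw : w ∈ disc c r) : ‖(w - Q (update z p w)) - c‖ < r := by
  have h1 := P.contr z hz w hw c (ROOT_center P)
  have h2 := P.cen z hz
  have h3 : (w - Q (update z p w)) - c = - Q (update z p c) -
      ((Q (update z p w) - w) - (Q (update z p c) - c)) := by ring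
  have h4 : ‖(w - Q (update z p w)) - c‖ ≤ ‖Q (update z p c)‖ +
      ‖(Q (update z p w) - w) - (Q (update z p c) - c)‖ := by
    rw [h3]
    refine (norm_sub_le _ _).trans ?_
    rw [norm_neg]
  have h5 : ‖w - c‖ ≤ (r : ℝ) := (ROOT_mem_disc_iff w).1 hw
  linarith

theorem ROOT_exists (P : Pencil K X p Q Qy c r) {z : Pt} (hz : z ∈ Dom X) :
    ∃ y, y ∈ disc c r ∧ ‖y - c‖ < r ∧ Q (update z p y) = 0 ∧
      ∀ w ∈ disc c r, Q (update z p w) = 0 → w = y := by
  have hmaps : Set.MapsTo (fun w : ℂ => w - Q (update z p w)) (disc c r) (disc c r) := by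
    intro w hw
    rw [ROOT_mem_disc_iff]
    exact (ROOT_T_est P hz hw).le
  have hcomp : IsComplete (disc c r) := by
    unfold disc
    exact Metric.isClosed_closedBall.isComplete
  have hlip : LipschitzWith (1 / 2 : NNReal) (hmaps.restrict (fun w : ℂ => w - Q (update z p w))
      (disc c r) (disc c r)) := by
    refine LipschitzWith.of_dist_le_mul ?_
    intro a b
    rw [Subtype.dist_eq, Subtype.dist_eq, dist_eq_norm, dist_eq_norm]
    have h1 := P.contr z hz a.1 a.2 b.1 b.2
    have h2 : (hmaps.restrict (fun w : ℂ => w - Q (update z p w)) (disc c r) (disc c r) a).1 -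
        (hmaps.restrict (fun w : ℂ => w - Q (update z p w)) (disc c r) (disc c r) b).1 =
        - ((Q (update z p a.1) - a.1) - (Q (update z p b.1) - b.1)) := by
      rw [Set.MapsTo.val_restrict_apply, Set.MapsTo.val_restrict_apply]
      ring
    rw [h2, norm_neg]
    have h3 : ((1 / 2 : NNReal) : ℝ) = 1 / 2 := by norm_num
    rw [h3]
    exact h1
  have hcon : ContractingWith (1 / 2 : NNReal) (hmaps.restrict (fun w : ℂ => w - Q (update z p w))
      (disc c r) (disc c r)) := by
    refine ⟨?_, hlip⟩
    rw [← NNReal.coe_lt_coe]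
    norm_num
  obtain ⟨y, hy, hfix, -, -⟩ := ContractingWith.exists_fixedPoint' hcomp hmaps hcon
    (ROOT_center P) (edist_ne_top _ _)
  have hfix' : y - Q (update z p y) = y := hfix
  have hQ : Q (update z p y) = 0 := by
    linear_combination - hfix'
  refine ⟨y, hy, ?_, hQ, ?_⟩
  · have h1 := ROOT_T_est P hz hy
    rw [hQ, sub_zero] at h1
    exact h1
  · intro w hw hw0
    have h1 := ROOT_lip P hz hw hy
    rw [hw0, hQ, sub_zero, norm_zero, mul_zero] at h1
    exact sub_eq_zero.1 (norm_eq_zero.1 (le_antisymm h1 (norm_nonneg _)))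

/-- evaluation of a polynomial at a doubly updated point is differentiable -/
theorem ROOT_pev_diff (A : MvPolynomial ℕ K) (z : Pt) (i p : ℕ) (v : ℂ × ℂ) :
    DifferentiableAt ℂ (fun v : ℂ × ℂ => pev A (update (update z i v.1) p v.2)) v := by
  induction A using MvPolynomial.induction_on with
  | C a =>
    have : (fun v : ℂ × ℂ => pev (MvPolynomial.C a : MvPolynomial ℕ K)
        (update (update z i v.1) p v.2)) = fun _ => algebraMap K ℂ a := by
      funext v
      unfold pev
      rw [MvPolynomial.aeval_C]
    rw [this]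
    exact differentiableAt_const _
  | add A B hA hB =>
    have : (fun v : ℂ × ℂ => pev (A + B) (update (update z i v.1) p v.2)) =
        fun v : ℂ × ℂ => pev A (update (update z i v.1) p v.2) +
          pev B (update (update z i v.1) p v.2) := by
      funext v
      unfold pev
      rw [map_add]
    rw [this]
    exact hA.add hB
  | mul_X A n hA =>
    have : (fun v : ℂ × ℂ => pev (A * MvPolynomial.X n) (update (update z i v.1) p v.2)) =
        fun v : ℂ × ℂ => pev A (update (update z i v.1) p v.2) *
          (update (update z i v.1) p v.2) n := by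
      funext v
      unfold pev
      rw [map_mul, MvPolynomial.aeval_X]
    rw [this]
    refine hA.mul ?_
    by_cases hp : n = p
    · subst hp
      have : (fun v : ℂ × ℂ => (update (update z i v.1) n v.2) n) = fun v => v.2 := by
        funext v
        rw [update_self]
      rw [this]
      exact differentiableAt_snd
    · by_cases hi : n = i
      · subst hi
        have : (fun v : ℂ × ℂ => (update (update z n v.1) p v.2) n) = fun v => v.1 := by
          funext v
          rw [update_of_ne hp, update_self]
        rw [this]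
        exact differentiableAt_fst
      · have : (fun v : ℂ × ℂ => (update (update z i v.1) p v.2) n) = fun _ => z n := by
          funext v
          rw [update_of_ne hp, update_of_ne hi]
        rw [this]
        exact differentiableAt_const _

theorem ROOT_update_dom {z : Pt} (hz : z ∈ Dom X) {i : ℕ} {t : ℂ} (ht : t ∈ X i) :
    update z i t ∈ Dom X := by
  intro j
  by_cases hj : j = i
  · subst hj
    rw [update_self]
    exact ht
  · rw [update_of_ne hj]
    exact hz j

/-- The root function of a pencil.  Existence: the map `w ↦ w - Q(z,w)` maps the disc into itself and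
is a contraction (`≤ 1/2`); alternatively intermediate steps by completeness
(`ContractingWith` on the closed ball).  `‖root - c‖ ≤ ‖Q(z,c)‖/(1-1/2) < r`.
Uniqueness and continuity: `‖w - w'‖/2 ≤ ‖Q(z,w) - Q(z,w')‖` for `w, w'` in the disc; so
`‖η z - η z'‖ ≤ 2 ‖Q(z, η z')‖ = 2 ‖Q(z, η z') - Q(z', η z')‖ → 0` as `z' → z`, more precisely use
`‖η z - η z'‖ ≤ 2 ‖Q(z', η z)‖ → 2 ‖Q(z, η z)‖ = 0`.
Derivative in the direction `i ≠ p`: `impl_deriv` for `g(t,y) = Q(update (update z i t) p y)`, written
as a quotient of two polynomials in `(t,y)` (differentiable in the ambient `ℂ × ℂ`). -/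
theorem Pencil.exists_root (P : Pencil K X p Q Qy c r) (hX : X p = seg) :
    ∃ η : Pt → ℂ, (∀ z ∈ Dom X, η z ∈ disc c r ∧ ‖η z - c‖ < r ∧ Q (update z p (η z)) = 0 ∧
        ∀ w ∈ disc c r, Q (update z p w) = 0 → w = η z) ∧
      ContinuousOn η (Dom X) ∧
      (∀ i, Indep (update X p (disc c r)) i Q → Indep X i η) ∧ Indep X p η ∧
      (∀ i, i ≠ p → ∀ Qi : Pt → ℂ, (∀ w ∈ X i, UniqueDiffWithinAt ℂ (X i) w) →
        Part (update X p (disc c r)) i Q Qi →
        Part X i η (fun z => - Qi (update z p (η z)) / Qy (update z p (η z)))) := by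
  classical
  have hex : ∀ z : Pt, ∃ y, z ∈ Dom X → (y ∈ disc c r ∧ ‖y - c‖ < r ∧ Q (update z p y) = 0 ∧
      ∀ w ∈ disc c r, Q (update z p w) = 0 → w = y) := by
    intro z
    by_cases hz : z ∈ Dom X
    · obtain ⟨y, hy⟩ := ROOT_exists P hz
      exact ⟨y, fun _ => hy⟩
    · exact ⟨0, fun h => absurd h hz⟩
  choose η hη using hex
  have hp : Indep X p η := by
    intro z hz w hw
    have hz' := ROOT_update_dom hz hw
    obtain ⟨h1, -, h3, -⟩ := hη (update z p w) hz'
    obtain ⟨-, -, -, h4⟩ := hη z hz
    refine h4 _ h1 ?_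
    rw [update_idem] at h3
    exact h3
  have hcont : ContinuousOn η (Dom X) := by
    intro z hz
    obtain ⟨h1, -, h3, -⟩ := hη z hz
    have hQc : ContinuousWithinAt (fun z' => Q (update z' p (η z))) (Dom X) z := by
      have hmem : update z p (η z) ∈ Dom (update X p (disc c r)) := update_mem_dom hz h1
      have hc0 : ContinuousWithinAt Q (Dom (update X p (disc c r))) (update z p (η z)) :=
        (P.ratQ).continuousOn _ hmem
      have hu : ContinuousWithinAt (fun z' : Pt => update z' p (η z)) (Dom X) z :=
        (continuous_id.update p continuous_const).continuousWithinAt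
      exact ContinuousWithinAt.comp (f := fun z' : Pt => update z' p (η z)) (g := Q) (x := z)
        hc0 hu (fun z' hz' => update_mem_dom hz' h1)
    have hlim : Filter.Tendsto (fun z' => 2 * ‖Q (update z' p (η z))‖) (nhdsWithin z (Dom X))
        (nhds 0) := by
      have h0 := (hQc.norm).const_mul 2
      have h00 : 2 * ‖Q (update z p (η z))‖ = 0 := by rw [h3, norm_zero, mul_zero]
      unfold ContinuousWithinAt at h0
      rw [← h00]
      exact hQc.norm.const_mul 2
    rw [ContinuousWithinAt, tendsto_iff_norm_sub_tendsto_zero]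
    refine squeeze_zero_norm' ?_ hlim
    filter_upwards [self_mem_nhdsWithin] with z' hz'
    obtain ⟨h1', -, h3', -⟩ := hη z' hz'
    have h5 := ROOT_lip P hz' h1' h1
    rw [h3', zero_sub, norm_neg] at h5
    rw [norm_norm]
    exact h5
  refine ⟨η, fun z hz => hη z hz, hcont, ?_, hp, ?_⟩
  · intro i hi
    by_cases hip : i = p
    · subst hip
      exact hp
    · intro z hz w hw
      have hz' := ROOT_update_dom hz hw
      obtain ⟨h1, -, h3, -⟩ := hη (update z i w) hz'
      obtain ⟨-, -, -, h4⟩ := hη z hz
      refine h4 _ h1 ?_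
      rw [update_comm hip] at h3
      have hmem : update z p (η (update z i w)) ∈ Dom (update X p (disc c r)) :=
        update_mem_dom hz h1
      have hw' : w ∈ (update X p (disc c r)) i := by
        rw [update_of_ne hip]
        exact hw
      rw [hi _ hmem w hw'] at h3
      exact h3
  · intro i hip Qi hU hPi z hz
    obtain ⟨h1, h2, h3, -⟩ := hη z hz
    have hmem : update z p (η z) ∈ Dom (update X p (disc c r)) := update_mem_dom hz h1
    obtain ⟨A, B, hAB⟩ := P.ratQ
    -- the ambient function
    have hzi : update z i (z i) = z := update_eq_self i z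
    have hB0 : pev B (update (update z i (z i)) p (η z)) ≠ 0 := by
      rw [hzi]
      exact (hAB _ hmem).1
    have hgd : DifferentiableAt ℂ (fun v : ℂ × ℂ => pev A (update (update z i v.1) p v.2) /
        pev B (update (update z i v.1) p v.2)) (z i, η z) := by
      have e1 := ROOT_pev_diff A z i p (z i, η z)
      have e2 := ROOT_pev_diff B z i p (z i, η z)
      have e3 : DifferentiableAt ℂ (fun v : ℂ × ℂ => (pev B (update (update z i v.1) p v.2))⁻¹)
          (z i, η z) :=
        (differentiableAt_inv (𝕜 := ℂ) hB0).comp (z i, η z) e2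
      exact e1.mul e3
    obtain ⟨g', hg'⟩ := hgd
    have hlin : g' = (g' (1, 0)) • ContinuousLinearMap.fst ℂ ℂ ℂ +
        (g' (0, 1)) • ContinuousLinearMap.snd ℂ ℂ ℂ := by
      refine ContinuousLinearMap.ext fun v => ?_
      obtain ⟨a, b⟩ := v
      have : ((a, b) : ℂ × ℂ) = a • ((1 : ℂ), (0 : ℂ)) + b • ((0 : ℂ), (1 : ℂ)) := by
        ext <;> simp
      rw [this, map_add, map_smul, map_smul]
      simp [mul_comm]
    -- t-derivative
    have ht : g' (1, 0) = Qi (update z p (η z)) := by
      have ha : HasDerivAt (fun w : ℂ => ((w, η z) : ℂ × ℂ)) ((1 : ℂ), (0 : ℂ)) (z i) :=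
        (hasDerivAt_id (z i)).prodMk (hasDerivAt_const (z i) (η z))
      have hb := hg'.comp_hasDerivAt_of_eq (z i) ha rfl
      have hc' := hPi _ hmem
      rw [update_of_ne hip, update_of_ne hip] at hc'
      have hd : HasDerivWithinAt ((fun v : ℂ × ℂ => pev A (update (update z i v.1) p v.2) /
          pev B (update (update z i v.1) p v.2)) ∘ fun w : ℂ => ((w, η z) : ℂ × ℂ))
          (Qi (update z p (η z))) (X i) (z i) := by
        refine hc'.congr ?_ ?_
        · intro w hw
          have hm : update (update z i w) p (η z) ∈ Dom (update X p (disc c r)) :=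
            update_mem_dom (ROOT_update_dom hz hw) h1
          rw [update_comm (Ne.symm hip)]
          exact ((hAB _ hm).2).symm
        · have hm : update (update z i (z i)) p (η z) ∈ Dom (update X p (disc c r)) := by
            rw [hzi]
            exact hmem
          rw [update_comm (Ne.symm hip)]
          exact ((hAB _ hm).2).symm
      exact (hU _ (hz i)).eq_deriv _ hb.hasDerivWithinAt hd
    -- y-derivative
    have hy : g' (0, 1) = Qy (update z p (η z)) := by
      have ha : HasDerivAt (fun w : ℂ => ((z i, w) : ℂ × ℂ)) ((0 : ℂ), (1 : ℂ)) (η z) :=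
        (hasDerivAt_const (η z) (z i)).prodMk (hasDerivAt_id (η z))
      have hb := hg'.comp_hasDerivAt_of_eq (η z) ha rfl
      have hc' := P.part _ hmem
      rw [update_self, update_self] at hc'
      have hd : HasDerivWithinAt ((fun v : ℂ × ℂ => pev A (update (update z i v.1) p v.2) /
          pev B (update (update z i v.1) p v.2)) ∘ fun w : ℂ => ((z i, w) : ℂ × ℂ))
          (Qy (update z p (η z))) (disc c r) (η z) := by
        refine hc'.congr ?_ ?_
        · intro w hw
          have hm : update (update z i (z i)) p w ∈ Dom (update X p (disc c r)) := by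
            rw [hzi]
            exact update_mem_dom hz hw
          rw [update_idem]
          have h6 := (hAB _ hm).2
          rw [hzi] at h6
          change pev A (update (update z i (z i)) p w) / pev B (update (update z i (z i)) p w) = _
          rw [hzi]
          exact h6.symm
        · rw [update_idem]
          change pev A (update (update z i (z i)) p (η z)) /
            pev B (update (update z i (z i)) p (η z)) = _
          rw [hzi]
          exact ((hAB _ hmem).2).symm
      exact (ud_disc c r P.hr _ h1).eq_deriv _ hb.hasDerivWithinAt hd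
    have hQy0 : Qy (update z p (η z)) ≠ 0 := P.Qy_ne hX hmem
    have hmain := impl_deriv (fun v : ℂ × ℂ => pev A (update (update z i v.1) p v.2) /
        pev B (update (update z i v.1) p v.2)) (Qi (update z p (η z))) (Qy (update z p (η z)))
        (z i) (fun t => η (update z i t)) (X i)
    refine hmain ?_ hQy0 ?_ ?_ ?_
    · rw [← ht, ← hy, ← hlin]
      change HasFDerivAt _ g' (z i, η (update z i (z i)))
      rw [hzi]
      exact hg'
    · have hc0 : ContinuousWithinAt η (Dom X) (update z i (z i)) := by
        rw [hzi]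
        exact hcont z hz
      have hu : ContinuousWithinAt (fun t : ℂ => update z i t) (X i) (z i) :=
        (continuous_const.update i continuous_id).continuousWithinAt
      exact ContinuousWithinAt.comp (f := fun t : ℂ => update z i t) (g := η) (x := z i)
        hc0 hu (fun t ht => ROOT_update_dom hz ht)
    · change pev A (update (update z i (z i)) p (η (update z i (z i)))) /
        pev B (update (update z i (z i)) p (η (update z i (z i)))) = 0
      rw [hzi, ← (hAB _ hmem).2]
      exact h3
    · filter_upwards [self_mem_nhdsWithin] with t ht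
      have hz' := ROOT_update_dom hz ht
      obtain ⟨h1', -, h3', -⟩ := hη _ hz'
      have hm : update (update z i t) p (η (update z i t)) ∈ Dom (update X p (disc c r)) :=
        update_mem_dom hz' h1'
      rw [← (hAB _ hm).2]
      exact h3'

end MP1eadaeL
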