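import Mathlib
import Pool.Agent.Lib_MP_1eadae_ag.Defs
import Pool.Agent.Lib_MP_1eadae_ag.RatA
import Pool.Agent.Lib_MP_1eadae_ag.RatB

/-! # MP_1eadae_ag, piece STK: basic calculus of the Stokes span -/

namespace MP1eadaeL

open Complex Function

variable {K : Subfield ℂ} {C C' : (Pt → ℂ) → Prop} {X : ℕ → Set ℂ} {I0 J0 : Set ℕ}
  {F G H : Pt → ℂ}

/- Piece STK.  Inductions on `St`. -/

theorem St.sub (hF : St C X I0 F) (hG : St C X I0 G) : St C X I0 (fun z => F z - G z) := by
  refine St.congr _ _ (St.add _ _ hF (St.neg _ hG)) (fun z _ => ?_)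
  ring

theorem St.sum {ι : Type} (s : Finset ι) (f : ι → Pt → ℂ) (h : ∀ i ∈ s, St C X I0 (f i)) :
    St C X I0 (fun z => ∑ i ∈ s, f i z) := by
  classical
  induction s using Finset.induction_on with
  | empty =>
    refine St.congr _ _ St.zero (fun z _ => ?_)
    rw [Finset.sum_empty]
  | insert a s ha ih =>
    refine St.congr _ _ (St.add _ _ (h a (Finset.mem_insert_self a s))
      (ih fun i hi => h i (Finset.mem_insert_of_mem hi))) (fun z _ => ?_)
    rw [Finset.sum_insert ha]

theorem St.mono (hC : ∀ G, C G → C' G) (hI : I0 ⊆ J0) (h : St C X I0 F) : St C' X J0 F := by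
  induction h with
  | gen i hi G H hG hH hP => exact St.gen i (hI hi) G H (hC _ hG) (hC _ hH) hP
  | zero => exact St.zero
  | add F G _ _ h1 h2 => exact St.add F G h1 h2
  | neg F _ h1 => exact St.neg F h1
  | congr F G _ h1 h2 => exact St.congr F G h2 h1

/-- multiplication by a function independent of all the directions used -/
theorem St.mul_indep {W : Pt → ℂ} (hC : ∀ G, C G → C (fun z => G z * W z))
    (hX : ∀ i ∈ I0, (0 : ℂ) ∈ X i ∧ (1 : ℂ) ∈ X i) (hW : ∀ i ∈ I0, Indep X i W)
    (h : St C X I0 F) : St C X I0 (fun z => F z * W z) := by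
  induction h with
  | gen i hi G H hG hH hP =>
    have hP' : Part X i (fun z => G z * W z) (fun z => H z * W z) := by
      intro z hz
      refine ((hP z hz).mul_const (W z)).congr (fun w hw => ?_) ?_
      · show G (update z i w) * W (update z i w) = G (update z i w) * W z
        rw [hW i hi z hz w hw]
      · show G (update z i (z i)) * W (update z i (z i)) = G (update z i (z i)) * W z
        rw [hW i hi z hz (z i) (hz i)]
    refine St.congr _ _ (St.gen i hi _ _ (hC _ hG) (hC _ hH) hP') (fun z hz => ?_)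
    show H z * W z - G (update z i 1) * W (update z i 1) + G (update z i 0) * W (update z i 0) =
      (H z - G (update z i 1) + G (update z i 0)) * W z
    rw [hW i hi z hz 1 (hX i hi).2, hW i hi z hz 0 (hX i hi).1]
    ring
  | zero =>
    refine St.congr _ _ St.zero (fun z _ => ?_)
    ring
  | add F G _ _ h1 h2 =>
    refine St.congr _ _ (St.add _ _ h1 h2) (fun z _ => ?_)
    ring
  | neg F _ h1 =>
    refine St.congr _ _ (St.neg _ h1) (fun z _ => ?_)
    ring
  | congr F G _ h1 h2 =>
    refine St.congr _ _ h2 (fun z hz => ?_)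
    show F z * W z = G z * W z
    rw [h1 z hz]

private theorem STK_upd {σ : ℕ → ℕ} (hσ : Injective σ) (z : Pt) (i : ℕ) (w : ℂ) :
    (fun j => (update z (σ i) w) (σ j)) = update (fun j => z (σ j)) i w := by
  funext j
  by_cases h : j = i
  · subst h
    rw [update_self, update_self]
  · rw [update_of_ne h, update_of_ne (fun e => h (hσ e))]

/-- renaming of the coordinates by an injection; the new directions lie in `σ '' I0` -/
theorem St.rename {σ : ℕ → ℕ} (hC : ∀ G, C G → C (fun z => G (fun i => z (σ i))))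
    (hσ : Injective σ) (h : St C X0 I0 F) : St C X0 (σ '' I0) (fun z => F (fun i => z (σ i))) := by
  have hdom : ∀ z ∈ Dom X0, (fun i => z (σ i)) ∈ Dom X0 := fun z hz i => hz (σ i)
  induction h with
  | gen i hi G H hG hH hP =>
    have hP' : Part X0 (σ i) (fun z => G (fun i => z (σ i))) (fun z => H (fun i => z (σ i))) := by
      intro z hz
      have h1 := hP _ (hdom z hz)
      refine h1.congr (fun w _ => ?_) ?_
      · show G (fun j => (update z (σ i) w) (σ j)) = G (update (fun j => z (σ j)) i w)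
        rw [STK_upd hσ]
      · show G (fun j => (update z (σ i) (z (σ i))) (σ j)) =
          G (update (fun j => z (σ j)) i (z (σ i)))
        rw [STK_upd hσ]
    refine St.congr _ _ (St.gen (σ i) (Set.mem_image_of_mem σ hi) _ _ (hC _ hG) (hC _ hH) hP') (fun z _ => ?_)
    show H (fun i => z (σ i)) - G (fun j => (update z (σ i) 1) (σ j)) +
      G (fun j => (update z (σ i) 0) (σ j)) = _
    rw [STK_upd hσ, STK_upd hσ]
  | zero => exact St.zero
  | add F G _ _ h1 h2 => exact St.add _ _ h1 h2
  | neg F _ h1 => exact St.neg _ h1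
  | congr F G _ h1 h2 => exact St.congr _ _ h2 (fun z hz => h1 _ (hdom z hz))

/-- Multiplication by a function of fresh coordinates.  `S, T ⊆ {i | i < M}` disjoint, `F` depends on
the coordinates in `S`, `W` on the coordinates in `T`.  Use `St.rename` with
`σ j = j` for `j ∈ S`, `σ j = j + M` for `j ∉ S`, then `St.mul_indep`. -/
theorem St.mul_fresh {W : Pt → ℂ} (hren : ∀ (σ : ℕ → ℕ) (G : Pt → ℂ), Injective σ → C G →
      C (fun z => G (fun i => z (σ i))))
    (hC : ∀ G, C G → C (fun z => G z * W z)) (M : ℕ) (S T : Set ℕ) (hS : ∀ i ∈ S, i < M)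
    (hT : ∀ i ∈ T, i < M) (hST : Disjoint S T) (hF : DepOn X0 S F) (hW : DepOn X0 T W)
    (h : St C X0 Set.univ F) : St C X0 Set.univ (fun z => F z * W z) := by
  classical
  have hσ1 : ∀ j ∈ S, (fun j => if j ∈ S then j else j + M) j = j := fun j hj => if_pos hj
  have hσ2 : ∀ j, j ∉ S → (fun j => if j ∈ S then j else j + M) j = j + M :=
    fun j hj => if_neg hj
  generalize (fun j => if j ∈ S then j else j + M) = σ at hσ1 hσ2
  have hσ : Injective σ := by
    intro a b hab
    by_cases ha : a ∈ S
    · by_cases hb : b ∈ S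
      · rwa [hσ1 a ha, hσ1 b hb] at hab
      · rw [hσ1 a ha, hσ2 b hb] at hab
        have := hS a ha
        omega
    · by_cases hb : b ∈ S
      · rw [hσ2 a ha, hσ1 b hb] at hab
        have := hS b hb
        omega
      · rw [hσ2 a ha, hσ2 b hb] at hab
        omega
  have h1 : St C X0 (σ '' Set.univ) (fun z => F (fun i => z (σ i))) :=
    St.rename (fun G hG => hren σ G hσ hG) hσ h
  have hseg : (0 : ℂ) ∈ seg ∧ (1 : ℂ) ∈ seg :=
    ⟨⟨0, ⟨le_rfl, zero_le_one⟩, by simp⟩, ⟨1, ⟨zero_le_one, le_rfl⟩, by simp⟩⟩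
  have hnT : ∀ i ∈ σ '' Set.univ, i ∉ T := by
    rintro i ⟨j, -, rfl⟩ hi
    by_cases hj : j ∈ S
    · rw [hσ1 j hj] at hi
      exact Set.disjoint_left.1 hST hj hi
    · rw [hσ2 j hj] at hi
      have := hT _ hi
      omega
  have hWi : ∀ i ∈ σ '' Set.univ, Indep X0 i W := by
    intro i hi z hz w hw
    refine hW _ ?_ z hz ?_
    · intro k
      by_cases hk : k = i
      · subst hk
        rw [update_self]
        exact hw
      · rw [update_of_ne hk]
        exact hz k
    · intro k hk
      have hki : k ≠ i := by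
        rintro rfl
        exact hnT _ hi hk
      rw [update_of_ne hki]
  have h2 : St C X0 (σ '' Set.univ) (fun z => F (fun i => z (σ i)) * W z) :=
    St.mul_indep hC (fun i _ => hseg) hWi h1
  refine St.congr _ _ (St.mono (fun _ h => h) (Set.subset_univ _) h2) (fun z hz => ?_)
  have h3 : F (fun i => z (σ i)) = F z := by
    refine hF _ (fun i => hz (σ i)) z hz (fun i hi => ?_)
    show z (σ i) = z i
    rw [hσ1 i hi]
  show F (fun i => z (σ i)) * W z = F z * W z
  rw [h3]

/-- The raw homotopy rule.  `w = W∘φ`, `w' = W'∘φ`.  With `U = w φ_p`, `V = w φ_s` one has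
`∂_s U = w' φ_s φ_p + w φ_sp = ∂_p V`, and the claimed function is
`(∂_p V - V|_{p=1} + V|_{p=0}) - (∂_s U - U|_{s=1} + U|_{s=0})`. -/
theorem St.homotopy_raw {s p : ℕ} (hadd : ∀ G G', C G → C G' → C (fun z => G z + G' z))
    (hmul : ∀ G R, C G → IsRat K X R → C (fun z => G z * R z))
    {w w' φ φs φp φsp : Pt → ℂ} (hw : C w) (hw' : C w')
    (hφs : IsRat K X φs) (hφp : IsRat K X φp) (hφsp : IsRat K X φsp)
    (h1 : Part X p φs φsp) (h2 : Part X s φp φsp)
    (h3 : Part X s w (fun z => w' z * φs z)) (h4 : Part X p w (fun z => w' z * φp z)) :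
    St C X {s, p} (fun z => w (update z s 1) * φp (update z s 1)
      - w (update z s 0) * φp (update z s 0)
      - w (update z p 1) * φs (update z p 1) + w (update z p 0) * φs (update z p 0)) := by
  have hU : C (fun z => w z * φp z) := hmul w φp hw hφp
  have hV : C (fun z => w z * φs z) := hmul w φs hw hφs
  have hH1 : C (fun z => w' z * φs z * φp z + w z * φsp z) :=
    hadd _ _ (hmul _ φp (hmul _ φs hw' hφs) hφp) (hmul _ φsp hw hφsp)
  have hH2 : C (fun z => w' z * φp z * φs z + w z * φsp z) :=
    hadd _ _ (hmul _ φs (hmul _ φp hw' hφp) hφs) (hmul _ φsp hw hφsp)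
  have gU : St C X {s, p} _ := St.gen s (by simp) _ _ hU hH1 (Part.mul h3 h2)
  have gV : St C X {s, p} _ := St.gen p (by simp) _ _ hV hH2 (Part.mul h4 h1)
  refine St.congr _ _ (St.sub gV gU) (fun z _ => ?_)
  ring

/-- The homotopy rule for rational functions: `W` rational on `Dom (X[p:=B])`, independent of `s`,
`φ` rational on `Dom X` with values in `B`; apply `St.homotopy_raw` with
`w z = W (update z p (φ z))` and the chain rules `Part.comp_indep`, `Part.comp_self`, the mixed
derivatives from `IsRat.exists_part2` (compare `φs`, `φp` with the given ones by `Part.unique`). -/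
theorem St.homotopy {s p : ℕ} (hsp : s ≠ p) (hXs : X s = seg) (hXp : X p = seg) {B : Set ℂ}
    {W φ φs φp : Pt → ℂ} (hW : IsRat K (update X p B) W) (hWs : Indep (update X p B) s W)
    (hφ : IsRat K X φ) (hφB : ∀ z ∈ Dom X, φ z ∈ B) (hφs : Part X s φ φs) (hφp : Part X p φ φp) :
    St (IsRat K X) X {s, p} (fun z =>
      W (update (update z s 1) p (φ (update z s 1))) * φp (update z s 1)
      - W (update (update z s 0) p (φ (update z s 0))) * φp (update z s 0)
      - W (update (update z p 1) p (φ (update z p 1))) * φs (update z p 1)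
      + W (update (update z p 0) p (φ (update z p 0))) * φs (update z p 0)) := by
  obtain ⟨Wp, hWp, hWpart⟩ := hW.exists_part p
  obtain ⟨Fs, Fp, Fsp, h1, h2, h3, h4, h5, h6, h7⟩ := hφ.exists_part2 s p
  have hUs : ∀ w ∈ X s, UniqueDiffWithinAt ℂ (X s) w := by
    rw [hXs]; exact ud_seg
  have hUp : ∀ w ∈ X p, UniqueDiffWithinAt ℂ (X p) w := by
    rw [hXp]; exact ud_seg
  have e1 : ∀ z ∈ Dom X, Fs z = φs z := Part.unique hUs h4 hφs
  have e2 : ∀ z ∈ Dom X, Fp z = φp z := Part.unique hUp h5 hφp
  have r1 : IsRat K X φs := h1.congr e1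
  have r2 : IsRat K X φp := h2.congr e2
  have p1 : Part X p φs Fsp := Part.congr h6 e1 (fun _ _ => rfl)
  have p2 : Part X s φp Fsp := Part.congr h7 e2 (fun _ _ => rfl)
  exact St.homotopy_raw (K := K) (C := IsRat K X) (X := X) (s := s) (p := p)
    (w := fun z => W (update z p (φ z))) (w' := fun z => Wp (update z p (φ z))) (φ := φ)
    (fun G G' hG hG' => hG.add hG') (fun G R hG hR => hG.mul hR)
    (hW.subst hφ hφB) (hWp.subst hφ hφB) r1 r2 h3 p1 p2
    (Part.comp_indep hsp hWpart hWs hφB hφs) (Part.comp_self hWpart hφB hφp)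

end MP1eadaeL
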