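import Mathlib
import Pool.Agent.Lib_MP_1eadae_ag.Defs
import Pool.Agent.Lib_MP_1eadae_ag.RatA
import Pool.Agent.Lib_MP_1eadae_ag.RatB
import Pool.Agent.Lib_MP_1eadae_ag.Stk

/-! # MP_1eadae_ag, piece SUBA: subdivision of the cube in one direction -/

namespace MP1eadaeL

open Complex Function

variable {K : Subfield ℂ} {C : (Pt → ℂ) → Prop}

/-- `IsRat K X0` is a good class. -/
theorem goodClass_isRat (K : Subfield ℂ) : GoodClass K (IsRat K X0) where
  congr := fun _ _ hF h => hF.congr h
  add := fun _ _ hF hG => hF.add hG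
  mulcomp := fun _ _ _ hF hR hφ hmap => hR.mul (hF.comp _ hφ hmap)
  part := fun _ i hF => hF.exists_part i
  dep := fun _ hF => hF.dep
  rat := fun _ hF => hF

theorem suba_update_X0 (i : ℕ) : Function.update X0 i seg = X0 := by
  funext j
  by_cases h : j = i
  · subst h
    rw [update_self]
    rfl
  · rw [update_of_ne h]

theorem suba_update_mem {i : ℕ} {z : Pt} (hz : z ∈ Dom X0) {w : ℂ} (hw : w ∈ seg) :
    Function.update z i w ∈ Dom X0 := by
  have h := update_mem_dom (p := i) hz hw
  rwa [suba_update_X0] at h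

/-- the homotopy `α + t (β - α)`, with `α = A s`, `β = p s + q` -/
noncomputable def subaφ (s i : ℕ) (A p q : ℚ) (z : Pt) : ℂ :=
  z s * A + z i * (p * z s + q - z s * A)

theorem suba_mem {s i : ℕ} {A p q : ℚ} (hA0 : 0 ≤ A) (hA1 : A ≤ 1) (hp : 0 ≤ p) (hq : 0 ≤ q)
    (hpq : p + q ≤ 1) {z : Pt} (hz : z ∈ Dom X0) : subaφ s i A p q z ∈ seg := by
  obtain ⟨σ, ⟨hσ0, hσ1⟩, hσ⟩ := hz s
  obtain ⟨t, ⟨ht0, ht1⟩, ht⟩ := hz i
  have hA0' : (0 : ℝ) ≤ A := by exact_mod_cast hA0
  have hA1' : (A : ℝ) ≤ 1 := by exact_mod_cast hA1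
  have hp' : (0 : ℝ) ≤ p := by exact_mod_cast hp
  have hq' : (0 : ℝ) ≤ q := by exact_mod_cast hq
  have hpq' : (p : ℝ) + q ≤ 1 := by exact_mod_cast hpq
  refine ⟨(1 - t) * (σ * A) + t * (p * σ + q), ⟨?_, ?_⟩, ?_⟩
  · have h1 : 0 ≤ 1 - t := by linarith
    positivity
  · have h1 : 0 ≤ 1 - t := by linarith
    have h2 : σ * A ≤ 1 := by nlinarith
    have h3 : p * σ + q ≤ 1 := by nlinarith
    nlinarith
  · simp only
    rw [subaφ, ← hσ, ← ht]
    push_cast
    ring

theorem suba_rat_φ (s i : ℕ) (A p q : ℚ) : IsRat K X0 (subaφ s i A p q) := by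
  have h1 : IsRat K X0 (fun z => z s * (A : ℂ)) := (IsRat.coord s).mul (IsRat.ratCast A)
  have h2 : IsRat K X0 (fun z => (p : ℂ) * z s + (q : ℂ) - z s * (A : ℂ)) :=
    (((IsRat.ratCast p).mul (IsRat.coord s)).add (IsRat.ratCast q)).sub h1
  exact h1.add ((IsRat.coord i).mul h2)

/-- one summand -/
theorem suba_term (hC : GoodClass K C) {F : Pt → ℂ} (hF : C F) {i s : ℕ} (his : s ≠ i)
    (hs : Indep X0 s F) {A p q : ℚ} (hA0 : 0 ≤ A) (hA1 : A ≤ 1) (hp : 0 ≤ p) (hq : 0 ≤ q)
    (hpq : p + q ≤ 1) :
    St C X0 {s, i} (fun z =>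
      F (update (update z s 1) i (subaφ s i A p q (update z s 1))) * ((p : ℂ) + q - A)
      - F (update (update z s 0) i (subaφ s i A p q (update z s 0))) * (q : ℂ)
      - F (update (update z i 1) i (subaφ s i A p q (update z i 1))) * (p : ℂ)
      + F (update (update z i 0) i (subaφ s i A p q (update z i 0))) * (A : ℂ)) := by
  obtain ⟨F', hF', hP⟩ := hC.part F i hF
  have hcomp : ∀ G, C G → C (fun z => G (update z i (subaφ s i A p q z))) := by
    intro G hG
    have h1 := hC.mulcomp G (fun _ => ((1 : ℕ) : ℂ)) (fun z => update z i (subaφ s i A p q z)) hG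
      (IsRat.natCast 1) (fun j => ?_) (fun z hz => suba_update_mem hz
        (suba_mem hA0 hA1 hp hq hpq hz))
    · refine hC.congr _ _ h1 fun z _ => ?_
      simp
    · by_cases hj : j = i
      · subst hj
        refine (suba_rat_φ s j A p q).congr fun z _ => ?_
        rw [update_self]
      · refine (IsRat.coord j).congr fun z _ => ?_
        rw [update_of_ne hj]
  have hPs : Part X0 s (subaφ s i A p q) (fun z => (A : ℂ) + z i * ((p : ℂ) - A)) := by
    intro z hz
    have h1 : (fun w => subaφ s i A p q (update z s w)) =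
        fun w => w * (A : ℂ) + z i * (p * w + q - w * A) := by
      funext w
      rw [subaφ, update_self, update_of_ne his.symm]
    rw [h1]
    have h2 : HasDerivAt (fun w : ℂ => w * (A : ℂ) + z i * (p * w + q - w * A))
        (1 * (A : ℂ) + z i * ((p : ℂ) * 1 + 0 - 1 * A)) (z s) := by
      refine ((hasDerivAt_id (z s)).mul_const _).add (HasDerivAt.const_mul _ ?_)
      refine HasDerivAt.sub (HasDerivAt.add ((hasDerivAt_id (z s)).const_mul _)
        (hasDerivAt_const _ _)) ((hasDerivAt_id (z s)).mul_const _)
    have h3 : (1 * (A : ℂ) + z i * ((p : ℂ) * 1 + 0 - 1 * A)) = (A : ℂ) + z i * ((p : ℂ) - A) := by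
      ring
    rw [h3] at h2
    exact h2.hasDerivWithinAt
  have hPi : Part X0 i (subaφ s i A p q) (fun z => (p : ℂ) * z s + q - z s * A) := by
    intro z hz
    have h1 : (fun w => subaφ s i A p q (update z i w)) =
        fun w => z s * (A : ℂ) + w * (p * z s + q - z s * A) := by
      funext w
      rw [subaφ, update_self, update_of_ne his]
    rw [h1]
    have h2 : HasDerivAt (fun w : ℂ => z s * (A : ℂ) + w * (p * z s + q - z s * A))
        (0 + 1 * ((p : ℂ) * z s + q - z s * A)) (z i) :=
      (hasDerivAt_const _ _).add ((hasDerivAt_id (z i)).mul_const _)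
    rw [zero_add, one_mul] at h2
    exact h2.hasDerivWithinAt
  have hPsi : Part X0 i (fun z => (A : ℂ) + z i * ((p : ℂ) - A)) (fun _ => (p : ℂ) - A) := by
    intro z hz
    have h1 : (fun w => (A : ℂ) + (update z i w) i * ((p : ℂ) - A)) =
        fun w => (A : ℂ) + w * ((p : ℂ) - A) := by
      funext w
      rw [update_self]
    rw [h1]
    have h2 : HasDerivAt (fun w : ℂ => (A : ℂ) + w * ((p : ℂ) - A)) (0 + 1 * ((p : ℂ) - A)) (z i) :=
      (hasDerivAt_const _ _).add ((hasDerivAt_id (z i)).mul_const _)
    rw [zero_add, one_mul] at h2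
    exact h2.hasDerivWithinAt
  have hPis : Part X0 s (fun z => (p : ℂ) * z s + q - z s * A) (fun _ => (p : ℂ) - A) := by
    intro z hz
    have h1 : (fun w => (p : ℂ) * (update z s w) s + q - (update z s w) s * A) =
        fun w => (p : ℂ) * w + q - w * A := by
      funext w
      rw [update_self]
    rw [h1]
    have h2 : HasDerivAt (fun w : ℂ => (p : ℂ) * w + q - w * A) ((p : ℂ) * 1 + 0 - 1 * A) (z s) :=
      HasDerivAt.sub (HasDerivAt.add ((hasDerivAt_id (z s)).const_mul _)
        (hasDerivAt_const _ _)) ((hasDerivAt_id (z s)).mul_const _)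
    have h3 : ((p : ℂ) * 1 + 0 - 1 * A) = (p : ℂ) - A := by ring
    rw [h3] at h2
    exact h2.hasDerivWithinAt
  have hmem : ∀ z ∈ Dom X0, subaφ s i A p q z ∈ seg := fun z hz =>
    suba_mem hA0 hA1 hp hq hpq hz
  have hP' : Part (update X0 i seg) i F F' := by rw [suba_update_X0]; exact hP
  have hs' : Indep (update X0 i seg) s F := by rw [suba_update_X0]; exact hs
  have hmain := St.homotopy_raw (C := C) (K := K) (X := X0) (s := s) (p := i)
    (fun G G' hG hG' => hC.add G G' hG hG')
    (fun G R hG hR => hC.congr _ _ (hC.mulcomp G R (fun z => z) hG hR (fun j => IsRat.coord j)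
      (fun z hz => hz)) (fun z _ => mul_comm _ _))
    (w := fun z => F (update z i (subaφ s i A p q z)))
    (w' := fun z => F' (update z i (subaφ s i A p q z)))
    (φ := subaφ s i A p q)
    (φs := fun z => (A : ℂ) + z i * ((p : ℂ) - A))
    (φp := fun z => (p : ℂ) * z s + q - z s * A)
    (φsp := fun _ => (p : ℂ) - A)
    (hcomp F hF) (hcomp F' hF')
    ((IsRat.ratCast A).add ((IsRat.coord i).mul ((IsRat.ratCast p).sub (IsRat.ratCast A))))
    ((((IsRat.ratCast p).mul (IsRat.coord s)).add (IsRat.ratCast q)).sub
      ((IsRat.coord s).mul (IsRat.ratCast A)))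
    ((IsRat.ratCast p).sub (IsRat.ratCast A))
    hPsi hPis
    (Part.comp_indep his hP' hs' hmem hPs)
    (Part.comp_self hP' hmem hPi)
  refine St.congr _ _ hmain fun z _ => ?_
  simp only [update_self]
  ring

/-- Subdivision in one direction.  Homotopy: break points `x_a(s) = s a/N` for `a < N`, `x_N = 1`;
`φ_a(s,t) = x_a + t (x_{a+1} - x_a)` (`t = z_i`), see `suba_term`; sum over `a < N`. -/
theorem GoodClass.subdiv1 (hC : GoodClass K C) {F : Pt → ℂ} (hF : C F) {i s : ℕ} (his : s ≠ i)
    (hs : Indep X0 s F) (N : ℕ) (hN : 1 ≤ N) :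
    St C X0 {s, i} (fun z => F z - ∑ a ∈ Finset.range N,
      (1 / (N : ℂ)) * F (update z i ((z i + (a : ℂ)) / (N : ℂ)))) := by
  classical
  have hN0 : (N : ℂ) ≠ 0 := by exact_mod_cast (by omega : N ≠ 0)
  have hNq : (0 : ℚ) < N := by exact_mod_cast (by omega : 0 < N)
  let A : ℕ → ℚ := fun a => (a : ℚ) / N
  let p : ℕ → ℚ := fun a => if a + 1 < N then ((a + 1 : ℕ) : ℚ) / N else 0
  let q : ℕ → ℚ := fun a => if a + 1 < N then 0 else 1
  have hsum := St.sum (C := C) (X := X0) (I0 := {s, i}) (Finset.range N) _ (fun a ha =>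
    suba_term (K := K) hC hF his hs (A := A a) (p := p a) (q := q a)
      (by positivity)
      (by
        rw [Finset.mem_range] at ha
        simp only [A]
        rw [div_le_one hNq]
        exact_mod_cast ha.le)
      (by simp only [p]; split_ifs <;> positivity)
      (by simp only [q]; split_ifs <;> norm_num)
      (by
        simp only [p, q]
        split_ifs with h
        · rw [add_zero, div_le_one hNq]
          exact_mod_cast h.le
        · norm_num))
  refine St.congr _ _ (St.neg _ hsum) fun z hz => ?_
  have h1s : (1 : ℂ) ∈ X0 s := one_mem_seg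
  have h0s : (0 : ℂ) ∈ X0 s := zero_mem_seg
  have hzs : ∀ c ∈ seg, ∀ w ∈ seg, F (update (update z s c) i w) = F (update z i w) := by
    intro c hc w hw
    rw [update_comm his]
    exact hs _ (suba_update_mem hz hw) c hc
  -- the telescoping part
  let g : ℕ → ℂ := fun a => if a < N then F (update z i (z s * (A a : ℂ))) * (A a : ℂ) else 0
  have hterm : ∀ a ∈ Finset.range N,
      (F (update (update z s 1) i (subaφ s i (A a) (p a) (q a) (update z s 1))) *
          (((p a : ℚ) : ℂ) + (q a : ℚ) - (A a : ℚ))
        - F (update (update z s 0) i (subaφ s i (A a) (p a) (q a) (update z s 0))) * ((q a : ℚ) : ℂ)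
        - F (update (update z i 1) i (subaφ s i (A a) (p a) (q a) (update z i 1))) * ((p a : ℚ) : ℂ)
        + F (update (update z i 0) i (subaφ s i (A a) (p a) (q a) (update z i 0))) * ((A a : ℚ) : ℂ))
      = (1 / (N : ℂ)) * F (update z i ((z i + (a : ℂ)) / (N : ℂ)))
        - (if a + 1 = N then F z else 0) + (g a - g (a + 1)) := by
    intro a ha
    rw [Finset.mem_range] at ha
    have hpq : ((p a : ℚ) : ℂ) + (q a : ℚ) = ((a : ℂ) + 1) / N := by
      simp only [p, q]
      split_ifs with h
      · push_cast
        ring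
      · have : a + 1 = N := by omega
        have h2 : ((a : ℂ) + 1) = N := by exact_mod_cast this
        rw [h2, div_self hN0]
        norm_num
    have hAc : ((A a : ℚ) : ℂ) = (a : ℂ) / N := by
      simp only [A]
      push_cast
      ring
    have e1 : F (update (update z s 1) i (subaφ s i (A a) (p a) (q a) (update z s 1))) =
        F (update z i ((z i + (a : ℂ)) / (N : ℂ))) := by
      have hv : subaφ s i (A a) (p a) (q a) (update z s 1) = (z i + (a : ℂ)) / (N : ℂ) := by
        rw [subaφ, update_self, update_of_ne his.symm, mul_one, hpq, hAc]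
        field_simp
        ring
      rw [hv]
      refine hzs 1 one_mem_seg _ ?_
      rw [← hv]
      exact suba_mem (by positivity)
        (by
          simp only [A]
          rw [div_le_one hNq]
          exact_mod_cast ha.le)
        (by simp only [p]; split_ifs <;> positivity)
        (by simp only [q]; split_ifs <;> norm_num)
        (by
          simp only [p, q]
          split_ifs with h
          · rw [add_zero, div_le_one hNq]
            exact_mod_cast h.le
          · norm_num) (suba_update_mem hz one_mem_seg)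
    have e2 : F (update (update z s 0) i (subaφ s i (A a) (p a) (q a) (update z s 0))) *
        ((q a : ℚ) : ℂ) = if a + 1 = N then F z else 0 := by
      by_cases h : a + 1 = N
      · rw [if_pos h]
        have hq : q a = 1 := by simp only [q]; rw [if_neg (by omega)]
        have hv : subaφ s i (A a) (p a) (q a) (update z s 0) = z i := by
          rw [subaφ, update_self, update_of_ne his.symm, hq]
          push_cast
          ring
        rw [hv, hq, hzs 0 zero_mem_seg _ (hz i), update_eq_self]
        push_cast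
        ring
      · rw [if_neg h]
        have hq : q a = 0 := by simp only [q]; rw [if_pos (by omega)]
        rw [hq]
        push_cast
        ring
    have e3 : F (update (update z i 1) i (subaφ s i (A a) (p a) (q a) (update z i 1))) *
        ((p a : ℚ) : ℂ) = g (a + 1) := by
      simp only [g]
      by_cases h : a + 1 < N
      · rw [if_pos h]
        have hp : p a = A (a + 1) := by simp only [p, A]; rw [if_pos h]
        have hq : q a = 0 := by simp only [q]; rw [if_pos h]
        have hv : subaφ s i (A a) (p a) (q a) (update z i 1) = z s * (A (a + 1) : ℂ) := by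
          rw [subaφ, update_self, update_of_ne his, hp, hq]
          push_cast
          ring
        rw [hv, hp, update_idem]
      · rw [if_neg h]
        have hp : p a = 0 := by simp only [p]; rw [if_neg h]
        rw [hp]
        push_cast
        ring
    have e4 : F (update (update z i 0) i (subaφ s i (A a) (p a) (q a) (update z i 0))) *
        ((A a : ℚ) : ℂ) = g a := by
      simp only [g]
      rw [if_pos ha]
      have hv : subaφ s i (A a) (p a) (q a) (update z i 0) = z s * (A a : ℂ) := by
        rw [subaφ, update_self, update_of_ne his]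
        ring
      rw [hv, update_idem]
    rw [e1, e2, e3, e4, hpq, hAc]
    field_simp
    ring
  rw [Finset.sum_congr rfl hterm, Finset.sum_add_distrib, Finset.sum_sub_distrib,
    Finset.sum_range_sub']
  have hg0 : g 0 = 0 := by
    simp only [g, A]
    split_ifs
    · push_cast
      ring
    · rfl
  have hgN : g N = 0 := by simp [g]
  have hF1 : ∑ a ∈ Finset.range N, (if a + 1 = N then F z else 0) = F z := by
    rw [Finset.sum_eq_single (N - 1)]
    · rw [if_pos (by omega)]
    · intro b hb hb'
      rw [Finset.mem_range] at hb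
      rw [if_neg (by omega)]
    · intro h
      exfalso
      apply h
      rw [Finset.mem_range]
      omega
  rw [hg0, hgN, hF1]
  ring

end MP1eadaeL
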