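import Mathlib
import Pool.Agent.Lib_MP_1eadae_ag.Defs
import Pool.Agent.Lib_MP_1eadae_ag.RatA
import Pool.Agent.Lib_MP_1eadae_ag.RatB
import Pool.Agent.Lib_MP_1eadae_ag.Stk
import Pool.Agent.Lib_MP_1eadae_ag.SubA

/-! # MP_1eadae_ag, piece SUBB: subdivision of the cube -/

namespace MP1eadaeL

open Complex Function

variable {K : Subfield ℂ} {C : (Pt → ℂ) → Prop}

theorem subb_sc_lt {n N : ℕ} (a : Fin n → Fin N) (z : Pt) {i : ℕ} (h : i < n) :
    sc n N a z i = (z i + ((a ⟨i, h⟩ : ℕ) : ℂ)) / (N : ℂ) := by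
  simp only [sc, dif_pos h]

theorem subb_sc_ge {n N : ℕ} (a : Fin n → Fin N) (z : Pt) {i : ℕ} (h : ¬ i < n) :
    sc n N a z i = z i := by
  simp only [sc, dif_neg h]

/-- updating a coordinate `i < n` -/
theorem subb_sc_update_lt {n N : ℕ} (a : Fin n → Fin N) (z : Pt) {i : ℕ} (h : i < n) (w : ℂ) :
    sc n N a (update z i w) = update (sc n N a z) i ((w + ((a ⟨i, h⟩ : ℕ) : ℂ)) / (N : ℂ)) := by
  funext j
  by_cases hj : j = i
  · subst hj
    rw [subb_sc_lt a _ h, update_self, update_self]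
  · rw [update_of_ne hj]
    by_cases hjn : j < n
    · rw [subb_sc_lt a _ hjn, subb_sc_lt a _ hjn, update_of_ne hj]
    · rw [subb_sc_ge a _ hjn, subb_sc_ge a _ hjn, update_of_ne hj]

/-- updating a coordinate `i ≥ n` -/
theorem subb_sc_update_ge {n N : ℕ} (a : Fin n → Fin N) (z : Pt) {i : ℕ} (h : ¬ i < n) (w : ℂ) :
    sc n N a (update z i w) = update (sc n N a z) i w := by
  funext j
  by_cases hj : j = i
  · subst hj
    rw [subb_sc_ge a _ h, update_self, update_self]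
  · rw [update_of_ne hj]
    by_cases hjn : j < n
    · rw [subb_sc_lt a _ hjn, subb_sc_lt a _ hjn, update_of_ne hj]
    · rw [subb_sc_ge a _ hjn, subb_sc_ge a _ hjn, update_of_ne hj]

theorem subb_seg {N : ℕ} (b : Fin N) {w : ℂ} (hw : w ∈ seg) : (w + ((b : ℕ) : ℂ)) / (N : ℂ) ∈ seg := by
  obtain ⟨t, ⟨ht0, ht1⟩, rfl⟩ := hw
  have hb : (b : ℕ) + 1 ≤ N := b.2
  have hb' : ((b : ℕ) : ℝ) + 1 ≤ N := by exact_mod_cast hb
  have hb0 : (0 : ℝ) ≤ ((b : ℕ) : ℝ) := Nat.cast_nonneg _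
  have hN0 : (0 : ℝ) < N := by linarith
  refine ⟨(t + ((b : ℕ) : ℝ)) / N, ⟨by positivity, ?_⟩, by push_cast; rfl⟩
  rw [div_le_one hN0]
  linarith

theorem sc_mem_dom {n N : ℕ} (hN : 1 ≤ N) (a : Fin n → Fin N) {z : Pt} (hz : z ∈ Dom X0) :
    sc n N a z ∈ Dom X0 := by
  intro i
  by_cases h : i < n
  · rw [subb_sc_lt a _ h]
    exact subb_seg _ (hz i)
  · rw [subb_sc_ge a _ h]
    exact hz i

theorem isRat_sc (K : Subfield ℂ) (X : ℕ → Set ℂ) (n N : ℕ) (a : Fin n → Fin N) (i : ℕ) :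
    IsRat K X (fun z => sc n N a z i) := by
  by_cases h : i < n
  · have hN : (N : ℂ) ≠ 0 := by
      have h1 : 0 < N := lt_of_le_of_lt (Nat.zero_le _) (a ⟨i, h⟩).2
      exact_mod_cast h1.ne'
    refine IsRat.congr (IsRat.div (IsRat.add (IsRat.coord i) (IsRat.natCast ((a ⟨i, h⟩ : ℕ))))
      (IsRat.natCast N) (fun _ _ => hN)) (fun z _ => ?_)
    rw [subb_sc_lt a _ h]
  · refine IsRat.congr (IsRat.coord i) (fun z _ => ?_)
    rw [subb_sc_ge a _ h]

/-- derivative of `G ∘ sc` in a direction `i < n` -/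
theorem Part.sc_lt {n N : ℕ} (hN : 1 ≤ N) (a : Fin n → Fin N) {i : ℕ} (hi : i < n) {G H : Pt → ℂ}
    (h : Part X0 i G H) :
    Part X0 i (fun z => G (sc n N a z)) (fun z => (1 / (N : ℂ)) * H (sc n N a z)) := by
  intro z hz
  have h1 := h (sc n N a z) (sc_mem_dom hN a hz)
  have h2 : HasDerivWithinAt (fun w : ℂ => (w + ((a ⟨i, hi⟩ : ℕ) : ℂ)) / (N : ℂ)) (1 / (N : ℂ))
      (X0 i) (z i) := ((hasDerivWithinAt_id (z i) (X0 i)).add_const _).div_const _
  have h3 : Set.MapsTo (fun w : ℂ => (w + ((a ⟨i, hi⟩ : ℕ) : ℂ)) / (N : ℂ)) (X0 i) (X0 i) :=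
    fun w hw => subb_seg _ hw
  have h4 : sc n N a z i = (z i + ((a ⟨i, hi⟩ : ℕ) : ℂ)) / (N : ℂ) := subb_sc_lt a z hi
  rw [h4] at h1
  have h5 := HasDerivWithinAt.comp (z i) h1 h2 h3
  rw [mul_comm] at h5
  refine h5.congr_of_eventuallyEq ?_ ?_
  · refine Filter.Eventually.of_forall fun w => ?_
    change G (sc n N a (update z i w)) = _
    rw [comp_apply, subb_sc_update_lt a z hi]
  · change G (sc n N a (update z i (z i))) = _
    rw [comp_apply, subb_sc_update_lt a z hi]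

theorem GoodClass.comp_sc (hC : GoodClass K C) {F : Pt → ℂ} (hF : C F) {n N : ℕ} (hN : 1 ≤ N)
    (a : Fin n → Fin N) : C (fun z => F (sc n N a z)) := by
  have h := hC.mulcomp F (fun _ => 1) (fun z => sc n N a z) hF (IsRat.const 1 K.one_mem)
    (fun i => isRat_sc K X0 n N a i) (fun z hz => sc_mem_dom hN a hz)
  exact hC.congr _ _ h (fun z _ => one_mul _)

theorem GoodClass.mul_rat (hC : GoodClass K C) {F R : Pt → ℂ} (hF : C F) (hR : IsRat K X0 R) :
    C (fun z => F z * R z) := by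
  have h := hC.mulcomp F R (fun z => z) hF hR (fun i => IsRat.coord i) (fun z hz => hz)
  exact hC.congr _ _ h (fun z _ => mul_comm _ _)

/-- Subdivision in the coordinates `< n`.  Induction on `n` with `GoodClass.subdiv1`
(`Fin.snocEquiv`/`Fin.consEquiv`-type reindexing of `Fin (n+1) → Fin N`; the classes are closed
under `F ↦ F ∘ sc` and under finite sums and rational multiples by `mulcomp`, `add`). -/
theorem GoodClass.subdiv (hC : GoodClass K C) {F : Pt → ℂ} (hF : C F) (n : ℕ) {s : ℕ}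
    (hsn : n ≤ s) (hs : Indep X0 s F) (N : ℕ) (hN : 1 ≤ N) :
    St C X0 (insert s (Set.Iio n)) (fun z => F z - ∑ a : Fin n → Fin N,
      (1 / (N : ℂ)) ^ n * F (sc n N a z)) := by
  induction n with
  | zero =>
    refine St.congr _ _ St.zero (fun z _ => ?_)
    have h1 : ∀ a : Fin 0 → Fin N, sc 0 N a z = z := by
      intro a
      funext i
      exact subb_sc_ge a z (Nat.not_lt_zero i)
    simp [h1]
  | succ n ih =>
    have ih' := ih (by omega)
    have hrat : IsRat K X0 (fun _ : Pt => (1 / (N : ℂ)) ^ n) := by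
      refine IsRat.pow (IsRat.const _ ?_) n
      exact K.div_mem K.one_mem (natCast_mem K N)
    have hstep : ∀ a : Fin n → Fin N, St C X0 ({s, n} : Set ℕ) (fun z => (F (sc n N a z) -
        ∑ b ∈ Finset.range N, (1 / (N : ℂ)) *
          F (sc n N a (update z n ((z n + (b : ℂ)) / (N : ℂ))))) * (1 / (N : ℂ)) ^ n) := by
      intro a
      have hind : Indep X0 s (fun z => F (sc n N a z)) := by
        intro z hz w hw
        change F (sc n N a (update z s w)) = F (sc n N a z)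
        rw [subb_sc_update_ge a z (by omega)]
        exact hs _ (sc_mem_dom hN a hz) w hw
      have h1 := hC.subdiv1 (hC.comp_sc hF hN a) (i := n) (s := s) (by omega) hind N hN
      refine St.mul_indep (W := fun _ => (1 / (N : ℂ)) ^ n) (fun G hG => hC.mul_rat hG hrat)
        (fun _ _ => ⟨zero_mem_seg, one_mem_seg⟩) (fun _ _ _ _ _ _ => rfl) h1
    have hsum := St.sum (Finset.univ : Finset (Fin n → Fin N)) _ (fun a _ => hstep a)
    have hI1 : insert s (Set.Iio n) ⊆ insert s (Set.Iio (n + 1)) :=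
      Set.insert_subset_insert (Set.Iio_subset_Iio (Nat.le_succ n))
    have hI2 : ({s, n} : Set ℕ) ⊆ insert s (Set.Iio (n + 1)) := by
      rintro x (rfl | rfl)
      · exact Or.inl rfl
      · exact Or.inr (Nat.lt_succ_self _)
    have hall := St.add _ _ (St.mono (fun _ h => h) hI1 ih') (St.mono (fun _ h => h) hI2 hsum)
    refine St.congr _ _ hall (fun z _ => ?_)
    have hsnoc : ∀ (a : Fin n → Fin N) (b : Fin N),
        sc n N a (update z n ((z n + ((b : ℕ) : ℂ)) / (N : ℂ))) =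
          sc (n + 1) N (Fin.snoc (α := fun _ => Fin N) a b) z := by
      intro a b
      rw [subb_sc_update_ge a z (lt_irrefl n)]
      funext j
      rcases lt_trichotomy j n with hj | hj | hj
      · rw [update_of_ne hj.ne, subb_sc_lt a z hj, subb_sc_lt _ z (Nat.lt_succ_of_lt hj)]
        have h1 : (⟨j, Nat.lt_succ_of_lt hj⟩ : Fin (n + 1)) = Fin.castSucc ⟨j, hj⟩ := rfl
        rw [h1, Fin.snoc_castSucc]
      · subst hj
        rw [update_self, subb_sc_lt _ z (Nat.lt_succ_self j)]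
        have h1 : (⟨j, Nat.lt_succ_self j⟩ : Fin (j + 1)) = Fin.last j := rfl
        rw [h1, Fin.snoc_last]
      · rw [update_of_ne hj.ne', subb_sc_ge a z (by omega), subb_sc_ge _ z (by omega)]
    have hre : ∑ a : Fin (n + 1) → Fin N, (1 / (N : ℂ)) ^ (n + 1) * F (sc (n + 1) N a z) =
        ∑ a : Fin n → Fin N, ∑ b : Fin N, (1 / (N : ℂ)) ^ (n + 1) *
          F (sc (n + 1) N (Fin.snoc (α := fun _ => Fin N) a b) z) := by
      rw [← Fintype.sum_prod_type' (f := fun (a : Fin n → Fin N) (b : Fin N) =>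
        (1 / (N : ℂ)) ^ (n + 1) * F (sc (n + 1) N (Fin.snoc (α := fun _ => Fin N) a b) z))]
      rw [← (Equiv.prodComm _ _).sum_comp]
      rw [← (Fin.snocEquiv (fun _ : Fin (n + 1) => Fin N)).sum_comp]
      rfl
    have hlast : ∑ a : Fin n → Fin N, (F (sc n N a z) -
        ∑ b ∈ Finset.range N, (1 / (N : ℂ)) *
          F (sc n N a (update z n ((z n + (b : ℂ)) / (N : ℂ))))) * (1 / (N : ℂ)) ^ n =
        ∑ a : Fin n → Fin N, (1 / (N : ℂ)) ^ n * F (sc n N a z) -
          ∑ a : Fin n → Fin N, ∑ b : Fin N, (1 / (N : ℂ)) ^ (n + 1) *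
          F (sc (n + 1) N (Fin.snoc (α := fun _ => Fin N) a b) z) := by
      rw [← Finset.sum_sub_distrib]
      refine Finset.sum_congr rfl fun a _ => ?_
      rw [Finset.sum_range, sub_mul, Finset.sum_mul]
      congr 1
      · exact mul_comm _ _
      · refine Finset.sum_congr rfl fun b _ => ?_
        rw [hsnoc a b]
        ring
    rw [hre, hlast]
    ring

end MP1eadaeL
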