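import Mathlib
import Pool.Agent.Lib_MP_1eadae_ag.Defs
import Pool.Agent.Lib_MP_1eadae_ag.RatA
import Pool.Agent.Lib_MP_1eadae_ag.RatB

/-! # MP_1eadae_ag, piece TWOSORT: rational functions of `z_0..z_{n-1}` and one more coordinate -/

namespace MP1eadaeL

open Complex Function

variable {K : Subfield ℂ} {n q : ℕ}

/- Piece TWOSORT. -/

/-- projection to the `n`-dimensional cube (arbitrary outside the cube) -/
noncomputable def prj (n : ℕ) (z : Pt) : CubeT n := by
  classical
  exact if h : ∀ i : Fin n, rst n z i ∈ seg then ⟨rst n z, h⟩ else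
    ⟨fun _ => 0, fun _ => ⟨0, by simp, by simp⟩⟩

theorem prj_val {z : Pt} (hz : ∀ i < n, z i ∈ seg) : (prj n z).1 = rst n z := by
  have h : ∀ i : Fin n, rst n z i ∈ seg := fun i => hz i i.2
  unfold prj
  rw [dif_pos h]

theorem ext_mem_dom (z : CubeT n) : ext z ∈ Dom X0 := by
  intro i
  unfold ext X0
  by_cases h : i < n
  · rw [dif_pos h]
    exact z.2 ⟨i, h⟩
  · rw [dif_neg h]
    exact zero_mem_seg

theorem prj_ext (z : CubeT n) : prj n (ext z) = z := by
  apply Subtype.ext
  rw [prj_val (fun i _ => ext_mem_dom z i)]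
  funext i
  unfold rst ext
  rw [dif_pos i.2]

theorem rst_ext (z : CubeT n) : rst n (ext z) = z.1 := by
  funext i
  unfold rst ext
  rw [dif_pos i.2]

theorem continuous_ext : Continuous (ext : CubeT n → Pt) := by
  refine continuous_pi fun i => ?_
  unfold ext
  by_cases h : i < n
  · simp only [dif_pos h]
    exact (continuous_apply _).comp continuous_subtype_val
  · simp only [dif_neg h]
    exact continuous_const

theorem continuousOn_prj : ContinuousOn (prj n) (Dom X0) := by
  rw [continuousOn_iff_continuous_domRestrict, continuous_induced_rng]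
  have h1 : (Subtype.val ∘ Set.domRestrict (Dom X0) (prj n)) =
      fun z : Dom X0 => rst n z.1 := by
    funext z
    exact prj_val (fun i _ => z.2 i)
  rw [h1]
  refine continuous_pi fun i => ?_
  exact (continuous_apply _).comp continuous_subtype_val

theorem DepOn.ext_prj {F : Pt → ℂ} (h : DepOn X0 (Set.Iio n) F) {z : Pt} (hz : z ∈ Dom X0) :
    F (ext (prj n z)) = F z := by
  refine h _ (ext_mem_dom _) z hz fun i hi => ?_
  have hi' : i < n := hi
  unfold ext
  rw [dif_pos hi', prj_val (fun i _ => hz i)]
  rfl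

/-- joint continuity and differentiability of `ev2` -/
theorem continuous_ev2 (P : Polynomial (MvPolynomial (Fin n) K)) :
    Continuous (fun zy : (Fin n → ℂ) × ℂ => ev2 P zy.1 zy.2) := by
  have hpol : ∀ a : MvPolynomial (Fin n) K,
      Continuous (fun z : Fin n → ℂ => MvPolynomial.aeval z a) := by
    intro a
    induction a using MvPolynomial.induction_on with
    | C a =>
      simp only [MvPolynomial.aeval_C]
      exact continuous_const
    | add P P' hP hP' =>
      simp only [map_add]
      exact hP.add hP'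
    | mul_X P i hP =>
      simp only [map_mul, MvPolynomial.aeval_X]
      exact hP.mul (continuous_apply i)
  induction P using Polynomial.induction_on' with
  | add P Q hP hQ =>
    have h : (fun zy : (Fin n → ℂ) × ℂ => ev2 (P + Q) zy.1 zy.2) =
        fun zy => ev2 P zy.1 zy.2 + ev2 Q zy.1 zy.2 := by
      funext zy
      exact Polynomial.eval₂_add _ _
    rw [h]
    exact hP.add hQ
  | monomial k a =>
    have h : (fun zy : (Fin n → ℂ) × ℂ => ev2 (Polynomial.monomial k a) zy.1 zy.2) =
        fun zy => (MvPolynomial.aeval zy.1 a : ℂ) * zy.2 ^ k := by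
      funext zy
      exact Polynomial.eval₂_monomial _ _
    rw [h]
    exact ((hpol a).comp continuous_fst).mul (continuous_snd.pow k)

theorem hasDerivAt_ev2 (P : Polynomial (MvPolynomial (Fin n) K)) (z : Fin n → ℂ) (y : ℂ) :
    HasDerivAt (fun y => ev2 P z y) (ev2 (Polynomial.derivative P) z y) y := by
  have h : ∀ (P : Polynomial (MvPolynomial (Fin n) K)) (y : ℂ), ev2 P z y =
      (P.map (MvPolynomial.aeval z : MvPolynomial (Fin n) K →ₐ[K] ℂ).toRingHom).eval y := by
    intro P y
    exact (Polynomial.eval_map _ _).symm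
  simp only [h]
  rw [← Polynomial.derivative_map]
  exact Polynomial.hasDerivAt _ _

theorem ev2_mul (P Q : Polynomial (MvPolynomial (Fin n) K)) (z : Fin n → ℂ) (y : ℂ) :
    ev2 (P * Q) z y = ev2 P z y * ev2 Q z y := by
  exact Polynomial.eval₂_mul _ _

/-- from rational functions to polynomials in `n` variables and one variable: apply the
homomorphism `X_i ↦ C X_i` (`i < n`), `X_q ↦ X`, the other variables `↦ 0` to numerator and denominator. -/
theorem IsRat.twoSorted (hq : n ≤ q) {B : Set ℂ} {F : Pt → ℂ} (hF : IsRat K (update X0 q B) F)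
    (hdep : DepOn (update X0 q B) (insert q (Set.Iio n)) F) :
    ∃ A D : Polynomial (MvPolynomial (Fin n) K), ∀ z ∈ Dom (update X0 q B),
      ev2 D (rst n z) (z q) ≠ 0 ∧ F z = ev2 A (rst n z) (z q) / ev2 D (rst n z) (z q) := by
  classical
  obtain ⟨P, Q, hPQ⟩ := hF
  have key : ∃ ψ : MvPolynomial ℕ K →+* Polynomial (MvPolynomial (Fin n) K),
      ∀ (R : MvPolynomial ℕ K) (z : Pt), ev2 (ψ R) (rst n z) (z q) =
        pev R (fun i => if i < n then z i else if i = q then z q else 0) := by
    refine ⟨MvPolynomial.eval₂Hom ((Polynomial.C).comp MvPolynomial.C)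
      (fun i => if h : i < n then Polynomial.C (MvPolynomial.X ⟨i, h⟩) else
        if i = q then Polynomial.X else 0), fun R z => ?_⟩
    induction R using MvPolynomial.induction_on with
    | C a =>
      unfold pev ev2
      rw [MvPolynomial.coe_eval₂Hom, MvPolynomial.eval₂_C, MvPolynomial.aeval_C,
        RingHom.comp_apply, Polynomial.eval₂_C]
      exact MvPolynomial.aeval_C _ _
    | add P P' hP hP' =>
      unfold pev ev2 at *
      rw [map_add, Polynomial.eval₂_add, map_add, hP, hP']
    | mul_X P i hP =>
      unfold pev ev2 at *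
      rw [map_mul, Polynomial.eval₂_mul, map_mul, hP, MvPolynomial.aeval_X]
      congr 1
      rw [MvPolynomial.coe_eval₂Hom, MvPolynomial.eval₂_X]
      by_cases h : i < n
      · rw [dif_pos h, if_pos h, Polynomial.eval₂_C]
        exact MvPolynomial.aeval_X _ _
      · rw [dif_neg h, if_neg h]
        by_cases h' : i = q
        · rw [if_pos h', if_pos h', Polynomial.eval₂_X]
        · rw [if_neg h', if_neg h', Polynomial.eval₂_zero]
  obtain ⟨ψ, hψ⟩ := key
  refine ⟨ψ P, ψ Q, fun z hz => ?_⟩
  have hz' : (fun i => if i < n then z i else if i = q then z q else 0) ∈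
      Dom (update X0 q B) := by
    intro i
    by_cases h : i < n
    · simp only [if_pos h]
      exact hz i
    · simp only [if_neg h]
      by_cases h' : i = q
      · simp only [if_pos h']
        rw [h']
        exact hz q
      · simp only [if_neg h']
        rw [update_of_ne h']
        exact zero_mem_seg
  rw [hψ, hψ]
  obtain ⟨h1, h2⟩ := hPQ _ hz'
  refine ⟨h1, ?_⟩
  rw [← h2]
  refine hdep z hz _ hz' fun i hi => ?_
  rcases hi with hi | hi
  · rw [hi]
    have h3 : ¬ q < n := not_lt.2 hq
    simp only [if_neg h3, if_true]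
  · have h3 : i < n := hi
    simp only [if_pos h3]

/-- polynomials in two sorts of variables composed with rational functions -/
theorem isRat_ev2_gen (A : Polynomial (MvPolynomial (Fin n) K)) {X : ℕ → Set ℂ}
    (φ : Pt → Fin n → ℂ) (g : Pt → ℂ) (hφ : ∀ i, IsRat K X (fun z => φ z i))
    (hg : IsRat K X g) : IsRat K X (fun z => ev2 A (φ z) (g z)) := by
  have hpol : ∀ a : MvPolynomial (Fin n) K,
      IsRat K X (fun z => (MvPolynomial.aeval (φ z) a : ℂ)) := by
    intro a
    induction a using MvPolynomial.induction_on with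
    | C a =>
      refine (IsRat.const (a : ℂ) a.2).congr fun z _ => ?_
      rw [MvPolynomial.aeval_C]
      rfl
    | add P P' hP hP' =>
      simp only [map_add]
      exact hP.add hP'
    | mul_X P i hP =>
      simp only [map_mul, MvPolynomial.aeval_X]
      exact hP.mul (hφ i)
  induction A using Polynomial.induction_on' with
  | add P Q hP hQ =>
    refine (hP.add hQ).congr fun z _ => ?_
    exact (Polynomial.eval₂_add _ _).symm
  | monomial k a =>
    refine ((hpol a).mul (hg.pow k)).congr fun z _ => ?_
    exact (Polynomial.eval₂_monomial _ _).symm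

/-- polynomials in `z_0..z_{n-1}, z_q` composed with an affine scaling are rational -/
theorem isRat_ev2_sc (A : Polynomial (MvPolynomial (Fin n) K)) (X : ℕ → Set ℂ) (N : ℕ)
    (a : Fin n → Fin N) (q : ℕ) :
    IsRat K X (fun z => ev2 A (rst n (sc n N a z)) (z q)) := by
  refine isRat_ev2_gen A (fun z => rst n (sc n N a z)) (fun z => z q) (fun i => ?_)
    (IsRat.coord q)
  have h1 : (fun z : Pt => rst n (sc n N a z) i) =
      fun z => (z i + (((a i : ℕ) : ℕ) : ℂ)) * (((N : ℚ)⁻¹ : ℚ) : ℂ) := by
    funext z
    unfold rst sc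
    rw [dif_pos i.2, div_eq_mul_inv]
    push_cast
    rfl
  rw [h1]
  exact ((IsRat.coord (i : ℕ)).add (IsRat.natCast _)).mul (IsRat.ratCast _)

theorem isRat_ev2 (A : Polynomial (MvPolynomial (Fin n) K)) (X : ℕ → Set ℂ) (q : ℕ) :
    IsRat K X (fun z => ev2 A (rst n z) (z q)) := by
  exact isRat_ev2_gen A (fun z => rst n z) (fun z => z q) (fun i => IsRat.coord (i : ℕ))
    (IsRat.coord q)

theorem depOn_ev2_sc (hq : n ≤ q) (A : Polynomial (MvPolynomial (Fin n) K)) (X : ℕ → Set ℂ) (N : ℕ)
    (a : Fin n → Fin N) :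
    DepOn X (insert q (Set.Iio n)) (fun z => ev2 A (rst n (sc n N a z)) (z q)) := by
  intro z _ w _ h
  have h1 : z q = w q := h q (Set.mem_insert _ _)
  have h2 : rst n (sc n N a z) = rst n (sc n N a w) := by
    funext i
    unfold rst sc
    rw [dif_pos i.2, dif_pos i.2, h i (Set.mem_insert_of_mem _ i.2)]
  simp only [h1, h2]

theorem part_ev2_sc (hq : n ≤ q) (A : Polynomial (MvPolynomial (Fin n) K)) (X : ℕ → Set ℂ) (N : ℕ)
    (a : Fin n → Fin N) :
    Part X q (fun z => ev2 A (rst n (sc n N a z)) (z q))
      (fun z => ev2 (Polynomial.derivative A) (rst n (sc n N a z)) (z q)) := by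
  intro z _
  have h2 : ∀ w, rst n (sc n N a (update z q w)) = rst n (sc n N a z) := by
    intro w
    funext i
    unfold rst sc
    have h3 : (i : ℕ) ≠ q := (i.2.trans_le hq).ne
    rw [dif_pos i.2, dif_pos i.2, update_of_ne h3]
  have h4 : (fun w => ev2 A (rst n (sc n N a (update z q w))) ((update z q w) q)) =
      fun w => ev2 A (rst n (sc n N a z)) w := by
    funext w
    rw [h2, update_self]
  simp only [h4]
  exact (hasDerivAt_ev2 A _ _).hasDerivWithinAt

end MP1eadaeL
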