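import Mathlib
import Pool.Agent.Lib_MP_1eadae_ag.Defs
import Pool.Agent.Lib_MP_1eadae_ag.RatA
import Pool.Agent.Lib_MP_1eadae_ag.RatB
import Pool.Agent.Lib_MP_1eadae_ag.RatC
import Pool.Agent.Lib_MP_1eadae_ag.Ctr
import Pool.Agent.Lib_MP_1eadae_ag.Stk
import Pool.Agent.Lib_MP_1eadae_ag.Pen
import Pool.Agent.Lib_MP_1eadae_ag.Root
import Pool.Agent.Lib_MP_1eadae_ag.TwoSort
import Pool.Agent.Lib_MP_1eadae_ag.SubB

/-! # MP_1eadae_ag, piece SCALE: pencils on grid cubes -/

namespace MP1eadaeL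

open Complex Function

variable {K : Subfield ℂ} {n q : ℕ}

/- Piece SCALE. -/

theorem sc_update_ge {N : ℕ} (a : Fin n → Fin N) (hq : n ≤ q) (z : Pt) (w : ℂ) :
    sc n N a (update z q w) = update (sc n N a z) q w :=
  subb_sc_update_ge a z (not_lt.2 hq) w

private theorem SCALE_mem {N : ℕ} (a : Fin n → Fin N) (hq : n ≤ q) {B : Set ℂ} {z : Pt}
    (hz : z ∈ Dom (update X0 q B)) : sc n N a z ∈ Dom (update X0 q B) := by
  intro i
  have hi := hz i
  by_cases h : i < n
  · have hiq : i ≠ q := by omega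
    rw [update_of_ne hiq] at hi ⊢
    rw [subb_sc_lt a _ h]
    exact subb_seg _ hi
  · rw [subb_sc_ge a _ h]
    exact hi

private theorem SCALE_rst (hq : n ≤ q) (z : Pt) (w : ℂ) : rst n (update z q w) = rst n z := by
  funext i
  have hiq : (i : ℕ) ≠ q := by omega
  show update z q w i = z i
  rw [update_of_ne hiq]

/-- composition of a rational function on cube x disc with the scaling map -/
theorem IsRat.sc {N : ℕ} (hN : 1 ≤ N) (a : Fin n → Fin N) (hq : n ≤ q) {B : Set ℂ} {F : Pt → ℂ}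
    (hF : IsRat K (update X0 q B) F) :
    IsRat K (update X0 q B) (fun z => F (MP1eadaeL.sc n N a z)) := by
  have _ := hN
  exact hF.comp (fun z => MP1eadaeL.sc n N a z) (fun i => isRat_sc K _ n N a i)
    (fun z hz => SCALE_mem a hq hz)

/-- a pencil restricted to a grid cube -/
theorem Pencil.sc {N : ℕ} (hN : 1 ≤ N) (a : Fin n → Fin N) (hq : n ≤ q) {Q Qy : Pt → ℂ} {c : ℂ}
    {r : ℚ} (P : Pencil K X0 q Q Qy c r) :
    Pencil K X0 q (fun z => Q (MP1eadaeL.sc n N a z)) (fun z => Qy (MP1eadaeL.sc n N a z)) c r where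
  ratQ := IsRat.sc hN a hq P.ratQ
  ratQy := IsRat.sc hN a hq P.ratQy
  part := by
    intro z hz
    have h1 := P.part (MP1eadaeL.sc n N a z) (SCALE_mem a hq hz)
    rw [subb_sc_ge a z (not_lt.2 hq)] at h1
    simp only [sc_update_ge a hq]
    exact h1
  hc := P.hc
  hr := P.hr
  contr := by
    intro z hz w hw w' hw'
    have h1 := P.contr (MP1eadaeL.sc n N a z) (sc_mem_dom hN a hz) w hw w' hw'
    simp only [sc_update_ge a hq]
    exact h1
  cen := by
    intro z hz
    have h1 := P.cen (MP1eadaeL.sc n N a z) (sc_mem_dom hN a hz)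
    simp only [sc_update_ge a hq]
    exact h1

/-- the residue commutes with the scaling -/
theorem res_sc {N : ℕ} (a : Fin n → Fin N) (hq : n ≤ q) (F Q Qy : Pt → ℂ) (c : ℂ) (r : ℚ) (z : Pt) :
    res q c r (fun z => F (sc n N a z)) (fun z => Q (sc n N a z)) (fun z => Qy (sc n N a z)) z
      = res q c r F Q Qy (sc n N a z) := by
  unfold res ctr
  simp only [sc_update_ge a hq, subb_sc_ge a z (not_lt.2 hq)]

/-- the pencil on a grid cube obtained from the local normal form of `locGP` -/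
theorem pencil_of_locGP {N : ℕ} (hN : 1 ≤ N) (a : Fin n → Fin N) (hq : n ≤ q)
    (A : Polynomial (MvPolynomial (Fin n) K)) {κ c : ℂ} {r : ℚ} (hκ : κ ∈ K) (hκ0 : κ ≠ 0)
    (hc : c ∈ K) (hr : 0 < r)
    (h1 : ∀ z ∈ Dom X0, ∀ y ∈ disc c r, ∀ y' ∈ disc c r,
      ‖(ev2 A (rst n (MP1eadaeL.sc n N a z)) y / κ - y)
        - (ev2 A (rst n (MP1eadaeL.sc n N a z)) y' / κ - y')‖ ≤ 1 / 2 * ‖y - y'‖)
    (h2 : ∀ z ∈ Dom X0, ‖ev2 A (rst n (MP1eadaeL.sc n N a z)) c / κ‖ < (r : ℝ) / 2) :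
    Pencil K X0 q (fun z => ev2 A (rst n (MP1eadaeL.sc n N a z)) (z q) / κ)
      (fun z => ev2 (Polynomial.derivative A) (rst n (MP1eadaeL.sc n N a z)) (z q) / κ) c r where
  ratQ := (isRat_ev2_sc A _ N a q).div (IsRat.const κ hκ) (fun _ _ => hκ0)
  ratQy := (isRat_ev2_sc (Polynomial.derivative A) _ N a q).div (IsRat.const κ hκ)
    (fun _ _ => hκ0)
  part := by
    intro z hz
    have _ := hN
    exact (part_ev2_sc hq A (update X0 q (disc c r)) N a z hz).div_const κ
  hc := hc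
  hr := hr
  contr := by
    intro z hz w hw w' hw'
    simp only [sc_update_ge a hq, SCALE_rst hq, update_self]
    exact h1 z hz w hw w' hw'
  cen := by
    intro z hz
    simp only [sc_update_ge a hq, SCALE_rst hq, update_self]
    exact h2 z hz

end MP1eadaeL
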