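import Mathlib
import Pool.Agent.Lib_MP_1eadae_ag.Defs
import Pool.Agent.Lib_MP_1eadae_ag.RatA
import Pool.Agent.Lib_MP_1eadae_ag.RatB
import Pool.Agent.Lib_MP_1eadae_ag.RatC
import Pool.Agent.Lib_MP_1eadae_ag.Ctr
import Pool.Agent.Lib_MP_1eadae_ag.Stk
import Pool.Agent.Lib_MP_1eadae_ag.Pen
import Pool.Agent.Lib_MP_1eadae_ag.Root
import Pool.Agent.Lib_MP_1eadae_ag.TwoSort
import Pool.Agent.Lib_MP_1eadae_ag.SubB
import Pool.Agent.Lib_MP_1eadae_ag.Scale
import Pool.Agent.Lib_MP_1eadae_ag.Defs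
import Pool.Agent.Lib_MP_1eadae_ag.RatA
import Pool.Agent.Lib_MP_1eadae_ag.RatB
import Pool.Agent.Lib_MP_1eadae_ag.RatC
import Pool.Agent.Lib_MP_1eadae_ag.TwoSort
import Pool.Agent.Lib_MP_1eadae_ag.Germ
import Pool.Agent.Lib_MP_1eadae_ag.Common

/-! # MP_1eadae_ag, piece ALGMUL: composition of algebraic functions with rational maps -/

namespace MP1eadaeL

open Complex Function

/-- evaluation of the coefficients at a point of the cube -/
private noncomputable def amEv (K : Subfield ℂ) (n : ℕ) (z : CubeT n) :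
    MvPolynomial (Fin n) K →+* ℂ :=
  (Pi.evalRingHom (fun _ : CubeT n => ℂ) z).comp (phi K n)

private theorem amEv_apply (K : Subfield ℂ) (n : ℕ) (z : CubeT n) (P : MvPolynomial (Fin n) K) :
    amEv K n z P = MvPolynomial.aeval z.1 P := rfl

private theorem am_evR (K : Subfield ℂ) (n : ℕ) (q : Polynomial (MvPolynomial (Fin n) K))
    (z : CubeT n) (y : ℂ) : evR (phi K n) q z y = (q.map (amEv K n z)).eval y := by
  unfold evR
  rw [Polynomial.eval₂_eq_eval_map]
  rfl

/-- presentation of a rational function on the cube of dimension `M` -/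
private theorem am_num {K : Subfield ℂ} {M : ℕ} {F : Pt → ℂ} (hF : IsRat K X0 F) :
    ∃ P Q : MvPolynomial (Fin M) K, ∀ z : CubeT M, amEv K M z Q ≠ 0 ∧
      F (ext z) = amEv K M z P / amEv K M z Q := by
  obtain ⟨P, Q, h⟩ := hF
  let s : ℕ → MvPolynomial (Fin M) K := fun i =>
    if h : i < M then MvPolynomial.X ⟨i, h⟩ else 0
  have key : ∀ (P : MvPolynomial ℕ K) (z : CubeT M),
      amEv K M z (MvPolynomial.aeval s P) = pev P (ext z) := by
    intro P z
    rw [amEv_apply]
    unfold pev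
    induction P using MvPolynomial.induction_on with
    | C a => simp
    | add p q hp hq => rw [map_add, map_add, map_add, hp, hq]
    | mul_X p i hp =>
      rw [map_mul, map_mul, map_mul, hp, MvPolynomial.aeval_X, MvPolynomial.aeval_X]
      congr 1
      show MvPolynomial.aeval z.1 (if h : i < M then MvPolynomial.X ⟨i, h⟩ else 0) =
        (if h : i < M then z.1 ⟨i, h⟩ else 0)
      split_ifs with hi
      · rw [MvPolynomial.aeval_X]
      · exact map_zero _
  refine ⟨MvPolynomial.aeval s P, MvPolynomial.aeval s Q, fun z => ?_⟩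
  rw [key, key]
  exact h _ (ext_mem_dom z)

/-- clearing denominators, coefficients -/
private theorem am_pullC {K : Subfield ℂ} {m M : ℕ} (ψ : CubeT M → CubeT m)
    (hψ : ∀ i : Fin m, ∃ P Q : MvPolynomial (Fin M) K, ∀ z : CubeT M, amEv K M z Q ≠ 0 ∧
      (ψ z).1 i = amEv K M z P / amEv K M z Q) (p : MvPolynomial (Fin m) K) :
    ∃ P D : MvPolynomial (Fin M) K, ∀ z : CubeT M, amEv K M z D ≠ 0 ∧
      amEv K M z P = amEv K M z D * amEv K m (ψ z) p := by
  induction p using MvPolynomial.induction_on with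
  | C a =>
    refine ⟨MvPolynomial.C a, 1, fun z => ⟨?_, ?_⟩⟩
    · rw [map_one]
      exact one_ne_zero
    · rw [map_one, one_mul, amEv_apply, amEv_apply, MvPolynomial.aeval_C, MvPolynomial.aeval_C]
  | add p q hp hq =>
    obtain ⟨P1, D1, h1⟩ := hp
    obtain ⟨P2, D2, h2⟩ := hq
    refine ⟨P1 * D2 + P2 * D1, D1 * D2, fun z => ⟨?_, ?_⟩⟩
    · rw [map_mul]
      exact mul_ne_zero (h1 z).1 (h2 z).1
    · rw [map_add, map_mul, map_mul, map_mul, map_add, (h1 z).2, (h2 z).2]
      ring
  | mul_X p i hp =>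
    obtain ⟨P1, D1, h1⟩ := hp
    obtain ⟨P2, D2, h2⟩ := hψ i
    refine ⟨P1 * P2, D1 * D2, fun z => ⟨?_, ?_⟩⟩
    · rw [map_mul]
      exact mul_ne_zero (h1 z).1 (h2 z).1
    · have h3 : amEv K m (ψ z) (MvPolynomial.X i) = (ψ z).1 i := by
        rw [amEv_apply, MvPolynomial.aeval_X]
      rw [map_mul, map_mul, map_mul, h3, (h2 z).2, (h1 z).2]
      have h4 := (h2 z).1
      field_simp

/-- clearing denominators -/
private theorem am_pull {K : Subfield ℂ} {m M : ℕ} (ψ : CubeT M → CubeT m)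
    (hψ : ∀ i : Fin m, ∃ P Q : MvPolynomial (Fin M) K, ∀ z : CubeT M, amEv K M z Q ≠ 0 ∧
      (ψ z).1 i = amEv K M z P / amEv K M z Q) (q : Polynomial (MvPolynomial (Fin m) K)) :
    ∃ (q' : Polynomial (MvPolynomial (Fin M) K)) (D : MvPolynomial (Fin M) K), ∀ z : CubeT M,
      amEv K M z D ≠ 0 ∧
      q'.map (amEv K M z) = Polynomial.C (amEv K M z D) * q.map (amEv K m (ψ z)) := by
  induction q using Polynomial.induction_on' with
  | add p q hp hq =>
    obtain ⟨P1, D1, h1⟩ := hp
    obtain ⟨P2, D2, h2⟩ := hq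
    refine ⟨P1 * Polynomial.C D2 + P2 * Polynomial.C D1, D1 * D2, fun z => ⟨?_, ?_⟩⟩
    · rw [map_mul]
      exact mul_ne_zero (h1 z).1 (h2 z).1
    · rw [Polynomial.map_add, Polynomial.map_mul, Polynomial.map_mul, Polynomial.map_C,
        Polynomial.map_C, (h1 z).2, (h2 z).2, map_mul, map_mul, Polynomial.map_add]
      ring
  | monomial n a =>
    obtain ⟨P, D, h⟩ := am_pullC ψ hψ a
    refine ⟨Polynomial.monomial n P, D, fun z => ⟨(h z).1, ?_⟩⟩
    rw [Polynomial.map_monomial, Polynomial.map_monomial, (h z).2,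
      Polynomial.C_mul_monomial]

/-- Piece ALGMUL.  `f` algebraic of level `m`, `φ` a rational self-map of the cube whose first `m` components
depend on the coordinates `< M`, `R` rational depending on the coordinates `< M`: `R · f∘φ` is algebraic of
level `M`.

Proof.  Let `z1 : CubeT M`, `z0 = prj m (φ (ext z1))`, and `f (ext z) = A(w)/B(w)`, `w` a continuous simple root
of `q` near `z0`.  The map `ψ : CubeT M → CubeT m`, `ψ z = prj m (φ (ext z))` is continuous.  `w∘ψ` is, near
`z1`, a continuous simple root of `q(ψ z, X)`, a polynomial in `X` whose coefficients are polynomials over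
`K` in the rational functions `φ_i(ext z)` (`i < m`), quotients of elements of `MvPolynomial (Fin M) K` with
nonvanishing denominators (substitute `0` for the variables of index `≥ M` in a presentation of `φ_i`).  Clear
denominators: for every `q ∈ (MvPolynomial (Fin m) K)[X]` there are `q^ ∈ (MvPolynomial (Fin M) K)[X]` and
`D ∈ MvPolynomial (Fin M) K`, `D ≠ 0` on the cube, with `ev2 q^ z y = D(z) ev2 q (ψ z) y` for all
`z ∈ CubeT M`, `y` (induction on `q`).  Same for `A, B`; `R (ext z)` is a quotient of polynomials as well. -/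
theorem AlgAt.mulcomp {K : Subfield ℂ} {m M : ℕ} {f R : Pt → ℂ} {φ : Pt → Pt} (hf : AlgAt K m f)
    (hR : IsRat K X0 R) (hRd : DepOn X0 (Set.Iio M) R)
    (hφ : ∀ i < m, IsRat K X0 (fun z => φ z i))
    (hφd : ∀ i < m, DepOn X0 (Set.Iio M) (fun z => φ z i))
    (hmap : ∀ z ∈ Dom X0, φ z ∈ Dom X0) : AlgAt K M (fun z => R z * f (φ z)) := by
  have hmem : ∀ z : CubeT M, φ (ext z) ∈ Dom X0 := fun z => hmap _ (ext_mem_dom z)
  have hψv : ∀ z : CubeT M, (prj m (φ (ext z))).1 = rst m (φ (ext z)) := fun z =>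
    prj_val (fun i _ => hmem z i)
  obtain ⟨ψ, hψdef⟩ : ∃ ψ : CubeT M → CubeT m, ψ = fun z => prj m (φ (ext z)) := ⟨_, rfl⟩
  have hψi : ∀ (z : CubeT M) (i : Fin m), (ψ z).1 i = φ (ext z) i := by
    intro z i
    rw [hψdef]
    exact congrFun (hψv z) i
  have hψf : ∀ z : CubeT M, f (ext (ψ z)) = f (φ (ext z)) := by
    intro z
    rw [hψdef]
    exact DepOn.ext_prj hf.1 (hmem z)
  have hψc : Continuous ψ := by
    refine continuous_induced_rng.2 (continuous_pi fun i => ?_)
    have h1 : Continuous (fun z : CubeT M => φ (ext z) i) :=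
      (IsRat.continuousOn (hφ i i.2)).comp_continuous continuous_ext ext_mem_dom
    have h2 : (fun z : CubeT M => (Subtype.val ∘ ψ) z i) = fun z : CubeT M => φ (ext z) i := by
      funext z
      exact hψi z i
    rw [h2]
    exact h1
  have hψr : ∀ i : Fin m, ∃ P Q : MvPolynomial (Fin M) K, ∀ z : CubeT M, amEv K M z Q ≠ 0 ∧
      (ψ z).1 i = amEv K M z P / amEv K M z Q := by
    intro i
    obtain ⟨P, Q, h⟩ := am_num (M := M) (hφ i i.2)
    refine ⟨P, Q, fun z => ⟨(h z).1, ?_⟩⟩
    rw [hψi]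
    exact (h z).2
  refine ⟨?_, fun z1 => ?_⟩
  · intro z hz w hw hzw
    have h1 : R z = R w := hRd z hz w hw hzw
    have h2 : f (φ z) = f (φ w) := hf.1 _ (hmap z hz) _ (hmap w hw) fun i hi =>
      hφd i hi z hz w hw hzw
    show R z * f (φ z) = R w * f (φ w)
    rw [h1, h2]
  · obtain ⟨w, ⟨q, hq⟩, A, B, hAB⟩ := hf.2 (ψ z1)
    obtain ⟨q', D, hD⟩ := am_pull ψ hψr q
    obtain ⟨A', DA, hA⟩ := am_pull ψ hψr A
    obtain ⟨B', DB, hB⟩ := am_pull ψ hψr B
    obtain ⟨P, Q, hPQ⟩ := am_num (M := M) hR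
    refine ⟨fun z => w (ψ z), ⟨q', ?_⟩, A' * Polynomial.C (DB * P), Polynomial.C (DA * Q) * B', ?_⟩
    · have h1 := (hψc.tendsto z1).eventually hq
      filter_upwards [h1] with z hz
      obtain ⟨h2, h3, h4⟩ := hz
      refine ⟨ContinuousAt.comp h2 hψc.continuousAt, ?_, ?_⟩
      · rw [am_evR, (hD z).2, Polynomial.eval_mul, ← am_evR, h3, mul_zero]
      · rw [am_evR, ← Polynomial.derivative_map, (hD z).2, Polynomial.derivative_C_mul,
          Polynomial.derivative_map, Polynomial.eval_mul, ← am_evR, Polynomial.eval_C]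
        exact mul_ne_zero (hD z).1 h4
    · have h1 := (hψc.tendsto z1).eventually hAB
      filter_upwards [h1] with z hz
      obtain ⟨h2, h3⟩ := hz
      have e1 : evR (phi K M) (A' * Polynomial.C (DB * P)) z (w (ψ z)) =
          amEv K M z DA * evR (phi K m) A (ψ z) (w (ψ z)) * (amEv K M z DB * amEv K M z P) := by
        rw [am_evR, Polynomial.map_mul, Polynomial.map_C, (hA z).2, Polynomial.eval_mul,
          Polynomial.eval_mul, Polynomial.eval_C, Polynomial.eval_C, ← am_evR, map_mul]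
      have e2 : evR (phi K M) (Polynomial.C (DA * Q) * B') z (w (ψ z)) =
          (amEv K M z DA * amEv K M z Q) *
            (amEv K M z DB * evR (phi K m) B (ψ z) (w (ψ z))) := by
        rw [am_evR, Polynomial.map_mul, Polynomial.map_C, (hB z).2, Polynomial.eval_mul,
          Polynomial.eval_mul, Polynomial.eval_C, Polynomial.eval_C, ← am_evR, map_mul]
      have h5 := (hA z).1
      have h6 := (hB z).1
      have h7 := (hPQ z).1
      refine ⟨?_, ?_⟩
      · rw [e2]
        exact mul_ne_zero (mul_ne_zero h5 h7) (mul_ne_zero h6 h2)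
      · rw [e1, e2, ← hψf, (hPQ z).2, h3]
        field_simp

/-- raising the level -/
theorem AlgAt.mono {K : Subfield ℂ} {m M : ℕ} (hmM : m ≤ M) {f : Pt → ℂ} (hf : AlgAt K m f) :
    AlgAt K M f := by
  have h1 := AlgAt.mulcomp (M := M) (R := fun _ => 1) (φ := fun z => z) hf
    (IsRat.const 1 (one_mem K)) (fun _ _ _ _ _ => rfl) (fun i _ => IsRat.coord i)
    (fun i hi z _ w _ h => h i (lt_of_lt_of_le hi hmM)) (fun z hz => hz)
  simp only [one_mul] at h1
  exact h1

/-- rational functions are algebraic -/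
theorem AlgAt.rat {K : Subfield ℂ} {n : ℕ} {F : Pt → ℂ} (hF : IsRat K X0 F)
    (hd : DepOn X0 (Set.Iio n) F) : AlgAt K n F := by
  refine ⟨hd, fun z0 => ?_⟩
  obtain ⟨P, Q, hPQ⟩ := am_num (M := n) hF
  refine ⟨fun _ => 0, ⟨Polynomial.X, ?_⟩, Polynomial.C P, Polynomial.C Q, ?_⟩
  · refine Filter.Eventually.of_forall fun z => ⟨continuousAt_const, ?_, ?_⟩
    · rw [am_evR, Polynomial.map_X, Polynomial.eval_X]
    · rw [am_evR, Polynomial.derivative_X, Polynomial.map_one, Polynomial.eval_one]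
      exact one_ne_zero
  · refine Filter.Eventually.of_forall fun z => ?_
    rw [am_evR, am_evR, Polynomial.map_C, Polynomial.map_C, Polynomial.eval_C, Polynomial.eval_C]
    exact hPQ z

end MP1eadaeL
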