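import Mathlib
import Pool.Agent.Lib_MP_1eadae_ag.Defs
import Pool.Agent.Lib_MP_1eadae_ag.RatA
import Pool.Agent.Lib_MP_1eadae_ag.RatB
import Pool.Agent.Lib_MP_1eadae_ag.RatC
import Pool.Agent.Lib_MP_1eadae_ag.Ctr
import Pool.Agent.Lib_MP_1eadae_ag.Stk
import Pool.Agent.Lib_MP_1eadae_ag.Pen
import Pool.Agent.Lib_MP_1eadae_ag.Root
import Pool.Agent.Lib_MP_1eadae_ag.TwoSort
import Pool.Agent.Lib_MP_1eadae_ag.SubB
import Pool.Agent.Lib_MP_1eadae_ag.Scale
import Pool.Agent.Lib_MP_1eadae_ag.Defs
import Pool.Agent.Lib_MP_1eadae_ag.RatA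
import Pool.Agent.Lib_MP_1eadae_ag.RatB
import Pool.Agent.Lib_MP_1eadae_ag.RatC
import Pool.Agent.Lib_MP_1eadae_ag.TwoSort
import Pool.Agent.Lib_MP_1eadae_ag.Germ
import Pool.Agent.Lib_MP_1eadae_ag.Common

/-! # MP_1eadae_ag, piece ALGPART: derivatives of algebraic functions -/

namespace MP1eadaeL

open Complex Function

namespace AlgPart

variable {K : Subfield ℂ} {n : ℕ}

/-- the derivative of a polynomial in one coordinate -/
theorem aeval_hasDerivAt (P : MvPolynomial (Fin n) K) (i : Fin n) (z : Fin n → ℂ) :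
    HasDerivAt (fun w => MvPolynomial.aeval (update z i w) P)
      (MvPolynomial.aeval z (MvPolynomial.pderiv i P)) (z i) := by
  induction P using MvPolynomial.induction_on with
  | C a =>
    simp only [MvPolynomial.aeval_C, MvPolynomial.pderiv_C, map_zero]
    exact hasDerivAt_const _ _
  | add p q hp hq =>
    simp only [map_add]
    exact hp.fun_add hq
  | mul_X p k hp =>
    have h2 : HasDerivAt (fun w => update z i w k) (if k = i then 1 else 0) (z i) := by
      by_cases hn : k = i
      · subst hn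
        simp only [update_self, if_true]
        exact hasDerivAt_id' _
      · simp only [update_of_ne hn, if_neg hn]
        exact hasDerivAt_const _ _
    have h3 := hp.fun_mul h2
    rw [update_eq_self] at h3
    have h4 : MvPolynomial.aeval z (MvPolynomial.pderiv i (p * MvPolynomial.X k)) =
        MvPolynomial.aeval z (MvPolynomial.pderiv i p) * z k +
          MvPolynomial.aeval z p * (if k = i then 1 else 0) := by
      rw [MvPolynomial.pderiv_mul, map_add, map_mul, map_mul, MvPolynomial.aeval_X, MvPolynomial.pderiv_X]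
      by_cases hn : k = i
      · subst hn
        rw [Pi.single_eq_same, if_pos rfl, map_one]
      · rw [Pi.single_eq_of_ne hn, if_neg hn, map_zero]
    rw [h4]
    simp only [map_mul, MvPolynomial.aeval_X]
    exact h3

theorem ev2_add (P Q : Polynomial (MvPolynomial (Fin n) K)) (z : Fin n → ℂ) (y : ℂ) :
    ev2 (P + Q) z y = ev2 P z y + ev2 Q z y := Polynomial.eval₂_add _ _

theorem ev2_monomial (k : ℕ) (a : MvPolynomial (Fin n) K) (z : Fin n → ℂ) (y : ℂ) :
    ev2 (Polynomial.monomial k a) z y = MvPolynomial.aeval z a * y ^ k := by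
  unfold ev2
  rw [Polynomial.eval₂_monomial]
  rfl

/-- the joint derivative of a polynomial in one coordinate and `y` -/
theorem exists_hasFDerivAt_ev2 (q : Polynomial (MvPolynomial (Fin n) K)) (i : Fin n) :
    ∃ qi : Polynomial (MvPolynomial (Fin n) K), ∀ (z : Fin n → ℂ) (y : ℂ),
      HasFDerivAt (fun p : ℂ × ℂ => ev2 q (update z i p.1) p.2)
        (ev2 qi z y • ContinuousLinearMap.fst ℂ ℂ ℂ +
          ev2 (Polynomial.derivative q) z y • ContinuousLinearMap.snd ℂ ℂ ℂ) (z i, y) := by
  induction q using Polynomial.induction_on' with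
  | add p q hp hq =>
    obtain ⟨pi, hpi⟩ := hp
    obtain ⟨qi, hqi⟩ := hq
    refine ⟨pi + qi, fun z y => ?_⟩
    have h1 := (hpi z y).fun_add (hqi z y)
    have h2 : (ev2 (pi + qi) z y • ContinuousLinearMap.fst ℂ ℂ ℂ +
          ev2 (Polynomial.derivative (p + q)) z y • ContinuousLinearMap.snd ℂ ℂ ℂ) =
        (ev2 pi z y • ContinuousLinearMap.fst ℂ ℂ ℂ +
          ev2 (Polynomial.derivative p) z y • ContinuousLinearMap.snd ℂ ℂ ℂ) +
        (ev2 qi z y • ContinuousLinearMap.fst ℂ ℂ ℂ +
          ev2 (Polynomial.derivative q) z y • ContinuousLinearMap.snd ℂ ℂ ℂ) := by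
      rw [map_add, ev2_add, ev2_add]
      module
    rw [h2]
    simp only [ev2_add]
    exact h1
  | monomial k a =>
    refine ⟨Polynomial.monomial k (MvPolynomial.pderiv i a), fun z y => ?_⟩
    have h1 : HasFDerivAt (fun p : ℂ × ℂ => MvPolynomial.aeval (update z i p.1) a)
        (MvPolynomial.aeval z (MvPolynomial.pderiv i a) • ContinuousLinearMap.fst ℂ ℂ ℂ) (z i, y) := by
      have h2 := (aeval_hasDerivAt a i z).comp_hasFDerivAt (x := ((z i, y) : ℂ × ℂ))
        (f := Prod.fst) (f' := ContinuousLinearMap.fst ℂ ℂ ℂ) hasFDerivAt_fst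
      exact h2
    have h3 : HasFDerivAt (fun p : ℂ × ℂ => p.2 ^ k)
        (((k : ℂ) * y ^ (k - 1)) • ContinuousLinearMap.snd ℂ ℂ ℂ) (z i, y) := by
      have h2 := (hasDerivAt_pow k y).comp_hasFDerivAt (x := ((z i, y) : ℂ × ℂ))
        (f := Prod.snd) (f' := ContinuousLinearMap.snd ℂ ℂ ℂ) hasFDerivAt_snd
      exact h2
    have h4 := h1.fun_mul h3
    simp only [ev2_monomial]
    refine h4.congr_fderiv ?_
    ext
    · simp [Polynomial.derivative_monomial, ev2_monomial, update_eq_self]
      ring
    · simp [Polynomial.derivative_monomial, ev2_monomial, update_eq_self]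
      ring

/-- the local statement: `f` is differentiable in the direction `i` near `z0`, with derivative a
rational expression of the root -/
theorem local_deriv {f : Pt → ℂ} (hf : AlgAt K n f) {i : ℕ} (hi : i < n) (z0 : CubeT n) :
    ∃ w : CubeT n → ℂ, SR (phi K n) z0 w ∧ ∃ h : CubeT n → ℂ, InE (phi K n) z0 w h ∧
      ∀ᶠ z in nhds z0, HasDerivWithinAt (fun t => f (update (ext z) i t)) (h z) seg (ext z i) := by
  obtain ⟨hdep, hloc⟩ := hf
  obtain ⟨w, ⟨q, hq⟩, A, B, hAB⟩ := hloc z0
  obtain ⟨qi, hqi⟩ := exists_hasFDerivAt_ev2 q ⟨i, hi⟩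
  obtain ⟨Ai, hAi⟩ := exists_hasFDerivAt_ev2 A ⟨i, hi⟩
  obtain ⟨Bi, hBi⟩ := exists_hasFDerivAt_ev2 B ⟨i, hi⟩
  have hev : ∀ P : Polynomial (MvPolynomial (Fin n) K), InE (phi K n) z0 w (fun z => ev2 P z.1 (w z)) := by
    intro P
    refine (InE.evR P InE.self).congr (Filter.Eventually.of_forall fun z => ?_)
    exact evR_phi K n P z (w z)
  have hq' : ∀ᶠ z in nhds z0, ContinuousAt w z ∧ ev2 q z.1 (w z) = 0 ∧
      ev2 (Polynomial.derivative q) z.1 (w z) ≠ 0 := by
    refine hq.mono fun z hz => ?_
    rw [evR_phi, evR_phi] at hz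
    exact hz
  have hAB' : ∀ᶠ z in nhds z0, ev2 B z.1 (w z) ≠ 0 ∧ f (ext z) = ev2 A z.1 (w z) / ev2 B z.1 (w z) := by
    refine hAB.mono fun z hz => ?_
    rw [evR_phi, evR_phi] at hz
    exact hz
  set W' : CubeT n → ℂ := fun z => - ev2 qi z.1 (w z) / ev2 (Polynomial.derivative q) z.1 (w z) with hW'
  refine ⟨w, ⟨q, hq⟩, fun z => ((ev2 Ai z.1 (w z) + ev2 (Polynomial.derivative A) z.1 (w z) * W' z) *
    ev2 B z.1 (w z) - ev2 A z.1 (w z) *
      (ev2 Bi z.1 (w z) + ev2 (Polynomial.derivative B) z.1 (w z) * W' z)) / (ev2 B z.1 (w z) ^ 2), ?_, ?_⟩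
  · have hW'E : InE (phi K n) z0 w W' := (hev qi).neg.div (hev _) (hq'.mono fun z hz => hz.2.2)
    have hB2 : InE (phi K n) z0 w (fun z => ev2 B z.1 (w z) ^ 2) := by
      refine ((hev B).mul (hev B)).congr (Filter.Eventually.of_forall fun z => ?_)
      exact (sq _).symm
    exact ((((hev Ai).add ((hev _).mul hW'E)).mul (hev B)).sub
      ((hev A).mul ((hev Bi).add ((hev _).mul hW'E)))).div hB2
      (hAB'.mono fun z hz => pow_ne_zero _ hz.1)
  · filter_upwards [hq'.eventually_nhds, hAB'.eventually_nhds] with z hz1 hz2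
    -- the line through `z` in the direction `i`
    have hzd : ext z ∈ Dom X0 := ext_mem_dom z
    have hup : ∀ t ∈ seg, update (ext z) i t ∈ Dom X0 := fun t ht => rb_dom_mem_update hzd ht
    set L : ℂ → CubeT n := fun t => prj n (update (ext z) i t) with hL
    have hLval : ∀ t ∈ seg, (L t).1 = update z.1 ⟨i, hi⟩ t := by
      intro t ht
      rw [hL, prj_val (fun j _ => hup t ht j)]
      funext j
      unfold rst
      by_cases hj : j = ⟨i, hi⟩
      · subst hj
        rw [update_self, update_self]
      · rw [update_of_ne hj, update_of_ne]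
        · exact congrFun (rst_ext z) j
        · intro h
          exact hj (Fin.ext h)
    have hzi : ext z i = z.1 ⟨i, hi⟩ := congrFun (rst_ext z) ⟨i, hi⟩
    have hzseg : ext z i ∈ seg := hzd i
    have hL0 : L (ext z i) = z := by
      rw [hL]
      show prj n (update (ext z) i (ext z i)) = z
      rw [update_eq_self, prj_ext]
    have hLc : ContinuousWithinAt L seg (ext z i) := by
      have h1 : ContinuousWithinAt (prj n) (Dom X0) (update (ext z) i (ext z i)) :=
        continuousOn_prj _ (hup _ hzseg)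
      have h2 : ContinuousWithinAt (fun t : ℂ => update (ext z) i t) seg (ext z i) :=
        (continuous_const.update i continuous_id).continuousWithinAt
      exact h1.comp h2 (fun t ht => hup t ht)
    have hLt : Filter.Tendsto L (nhdsWithin (ext z i) seg) (nhds z) := by
      have h1 := hLc.tendsto
      rw [hL0] at h1
      exact h1
    have hz1' := hLt.eventually hz1
    have hz2' := hLt.eventually hz2
    obtain ⟨hwc, hq0, hq1⟩ := hz1.self_of_nhds
    obtain ⟨hB0, hf0⟩ := hz2.self_of_nhds
    set W : ℂ → ℂ := fun t => w (L t) with hW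
    have hW0 : W (ext z i) = w z := by
      rw [hW]
      show w (L (ext z i)) = w z
      rw [hL0]
    have hWc : ContinuousWithinAt W seg (ext z i) := by
      have h1 : ContinuousAt w (L (ext z i)) := by
        rw [hL0]
        exact hwc
      exact h1.comp_continuousWithinAt hLc
    -- the derivative of the root
    have hWd : HasDerivWithinAt W (W' z) seg (ext z i) := by
      refine impl_deriv (fun p : ℂ × ℂ => ev2 q (update z.1 ⟨i, hi⟩ p.1) p.2) (ev2 qi z.1 (w z))
        (ev2 (Polynomial.derivative q) z.1 (w z)) (ext z i) W seg ?_ hq1 hWc ?_ ?_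
      · rw [hW0, hzi]
        exact hqi z.1 (w z)
      · show ev2 q (update z.1 ⟨i, hi⟩ (ext z i)) (W (ext z i)) = 0
        rw [hW0, hzi, update_eq_self]
        exact hq0
      · filter_upwards [hz1', self_mem_nhdsWithin] with t ht hts
        show ev2 q (update z.1 ⟨i, hi⟩ t) (W t) = 0
        rw [← hLval t hts]
        exact ht.2.1
    -- derivative of a polynomial expression
    have hPd : ∀ (P Pi : Polynomial (MvPolynomial (Fin n) K)),
        (∀ (z : Fin n → ℂ) (y : ℂ), HasFDerivAt (fun p : ℂ × ℂ => ev2 P (update z ⟨i, hi⟩ p.1) p.2)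
        (ev2 Pi z y • ContinuousLinearMap.fst ℂ ℂ ℂ +
          ev2 (Polynomial.derivative P) z y • ContinuousLinearMap.snd ℂ ℂ ℂ) (z ⟨i, hi⟩, y)) →
        HasDerivWithinAt (fun t => ev2 P (update z.1 ⟨i, hi⟩ t) (W t))
          (ev2 Pi z.1 (w z) + ev2 (Polynomial.derivative P) z.1 (w z) * W' z) seg (ext z i) := by
      intro P Pi hP
      have h1 := hP z.1 (w z)
      rw [← hzi, ← hW0] at h1
      have h2 : HasDerivWithinAt (fun t : ℂ => ((t, W t) : ℂ × ℂ)) (1, W' z) seg (ext z i) :=
        (hasDerivWithinAt_id (ext z i) seg).prodMk hWd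
      have h3 := HasFDerivAt.comp_hasDerivWithinAt (ext z i) (f := fun t : ℂ => ((t, W t) : ℂ × ℂ)) h1 h2
      rw [hW0] at h3
      refine h3.congr_deriv ?_
      simp
    have hA := hPd A Ai hAi
    have hB := hPd B Bi hBi
    have hA0 : ev2 A (update z.1 ⟨i, hi⟩ (ext z i)) (W (ext z i)) = ev2 A z.1 (w z) := by
      rw [hW0, hzi, update_eq_self]
    have hB0' : ev2 B (update z.1 ⟨i, hi⟩ (ext z i)) (W (ext z i)) = ev2 B z.1 (w z) := by
      rw [hW0, hzi, update_eq_self]
    have hdiv := hA.fun_div hB (by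
      rw [hB0']
      exact hB0)
    rw [hA0, hB0'] at hdiv
    refine hdiv.congr_of_eventuallyEq_of_mem ?_ hzseg
    filter_upwards [hz2', self_mem_nhdsWithin] with t ht hts
    rw [← hLval t hts]
    have h5 : f (update (ext z) i t) = f (ext (L t)) := (hdep.ext_prj (hup t hts)).symm
    rw [h5]
    exact ht.2

end AlgPart

open AlgPart in
/-- Piece ALGPART.  Proof.  `i ≥ n`: `f' = 0`.  `i < n`: let `f' z = derivWithin (fun t => f (update z i t)) seg (z i)`.
Let `z0 : CubeT n`, near `z0`: `f (ext z) = A(w)/B(w)`, `w` a continuous simple root of `q`.  For `z` near `z0`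
the function `t ↦ w(z with z_i = t)` is continuous at `z_i` within `seg` and satisfies `q(.., w) = 0` near
`z_i`; by `impl_deriv` it has derivative `- q_i(z,w)/q'(z,w)` (`q_i`: coefficientwise `MvPolynomial.pderiv i`).
Chain rule: `f' (ext z) = ((A_i q' - A' q_i) B - A (B_i q' - B' q_i))/(B^2 q')` at `(z, w z)`, so
`InE (phi K n) z0 w (f'∘ext)`, and `f` is differentiable in the direction `i` at every point (for `z ∈ Dom X0`
use `f z = f (ext (prj n z))`, also along the line `update z i t`, `i < n`), with derivative `f' z`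
(uniqueness of derivatives on `seg`: `HasDerivWithinAt.derivWithin`, `ud_seg`). -/
theorem AlgAt.exists_part {K : Subfield ℂ} {n : ℕ} {f : Pt → ℂ} (hf : AlgAt K n f) (i : ℕ) :
    ∃ f', AlgAt K n f' ∧ Part X0 i f f' := by
  by_cases hi : i < n
  · have key : ∀ z ∈ Dom X0, ∃ h : CubeT n → ℂ, HasDerivWithinAt (fun t => f (update z i t))
        (h (prj n z)) seg (z i) := by
      intro z hz
      obtain ⟨w, _, h, _, hd⟩ := local_deriv hf hi (prj n z)
      refine ⟨h, ?_⟩
      have h1 := hd.self_of_nhds
      have hval : ∀ j < n, ext (prj n z) j = z j := by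
        intro j hj
        have h2 := congrFun (rst_ext (prj n z)) ⟨j, hj⟩
        have h3 : (prj n z).1 = rst n z := prj_val (fun j _ => hz j)
        rw [h3] at h2
        exact h2
      rw [hval i hi] at h1
      have he : ∀ t ∈ seg, f (update z i t) = f (update (ext (prj n z)) i t) := by
        intro t ht
        refine hf.1 _ (rb_dom_mem_update hz ht) _ (rb_dom_mem_update (ext_mem_dom _) ht) ?_
        intro j hj
        by_cases hji : j = i
        · subst hji
          rw [update_self, update_self]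
        · rw [update_of_ne hji, update_of_ne hji]
          exact (hval j hj).symm
      exact h1.congr (fun t ht => he t ht) (he _ (hz i))
    refine ⟨fun z => derivWithin (fun t => f (update z i t)) seg (z i), ⟨?_, ?_⟩, ?_⟩
    · intro z hz u hu hzu
      show derivWithin (fun t => f (update z i t)) seg (z i) =
        derivWithin (fun t => f (update u i t)) seg (u i)
      have he : ∀ t ∈ seg, f (update z i t) = f (update u i t) := by
        intro t ht
        refine hf.1 _ (rb_dom_mem_update hz ht) _ (rb_dom_mem_update hu ht) ?_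
        intro j hj
        by_cases hji : j = i
        · subst hji
          rw [update_self, update_self]
        · rw [update_of_ne hji, update_of_ne hji]
          exact hzu j hj
      rw [hzu i hi]
      exact derivWithin_congr (fun t ht => he t ht) (he _ (hu i))
    · intro z0
      obtain ⟨w, hw, h, hh, hd⟩ := local_deriv hf hi z0
      refine ⟨w, hw, hh.congr ?_⟩
      refine hd.mono fun z hz => ?_
      exact (hz.derivWithin (ud_seg _ (ext_mem_dom z i))).symm
    · intro z hz
      obtain ⟨h, hh⟩ := key z hz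
      have h1 := hh.derivWithin (ud_seg _ (hz i))
      show HasDerivWithinAt (fun t => f (update z i t))
        (derivWithin (fun t => f (update z i t)) seg (z i)) (X0 i) (z i)
      rw [h1]
      exact hh
  · refine ⟨fun _ => 0, ⟨fun z _ u _ _ => rfl, fun z0 => ?_⟩, ?_⟩
    · refine ⟨_, SR.coef (continuous_phi K n) 0, (InE.coef (0 : MvPolynomial (Fin n) K)).congr ?_⟩
      refine Filter.Eventually.of_forall fun z => ?_
      rw [map_zero]
      rfl
    · exact Part.of_indep (hf.1.indep hi)

end MP1eadaeL
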