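import Mathlib
import Pool.Agent.Lib_MP_1eadae_ag.Defs
import Pool.Agent.Lib_MP_1eadae_ag.RatA
import Pool.Agent.Lib_MP_1eadae_ag.RatB
import Pool.Agent.Lib_MP_1eadae_ag.RatC
import Pool.Agent.Lib_MP_1eadae_ag.Ctr
import Pool.Agent.Lib_MP_1eadae_ag.Stk
import Pool.Agent.Lib_MP_1eadae_ag.Pen
import Pool.Agent.Lib_MP_1eadae_ag.Root
import Pool.Agent.Lib_MP_1eadae_ag.TwoSort
import Pool.Agent.Lib_MP_1eadae_ag.SubB
import Pool.Agent.Lib_MP_1eadae_ag.Scale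
import Pool.Agent.Lib_MP_1eadae_ag.Defs
import Pool.Agent.Lib_MP_1eadae_ag.RatA
import Pool.Agent.Lib_MP_1eadae_ag.RatB
import Pool.Agent.Lib_MP_1eadae_ag.RatC
import Pool.Agent.Lib_MP_1eadae_ag.TwoSort
import Pool.Agent.Lib_MP_1eadae_ag.Germ
import Pool.Agent.Lib_MP_1eadae_ag.Common
import Pool.Agent.Lib_MP_1eadae_ag.AlgMul
import Pool.Agent.Lib_MP_1eadae_ag.AlgPart

/-! # MP_1eadae_ag, piece ALGGOOD: the class of algebraic functions -/

namespace MP1eadaeL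

open Complex Function

/-- sums (`common_pair` at each point, `InE.trans`, `InE.add`) -/
theorem AlgAt.add {K : Subfield ℂ} {n : ℕ} {f g : Pt → ℂ} (hf : AlgAt K n f) (hg : AlgAt K n g) :
    AlgAt K n (fun z => f z + g z) := by
  refine ⟨fun z hz w hw h => ?_, fun z0 => ?_⟩
  · show f z + g z = f w + g w
    rw [hf.1 z hz w hw h, hg.1 z hz w hw h]
  · obtain ⟨w1, hw1, h1⟩ := hf.2 z0
    obtain ⟨w2, hw2, h2⟩ := hg.2 z0
    obtain ⟨w, hw, e1, e2⟩ := common_pair (continuous_phi K n) hw1 hw2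
    exact ⟨w, hw, (h1.trans e1).add (h2.trans e2)⟩

theorem AlgAt.mul {K : Subfield ℂ} {n : ℕ} {f g : Pt → ℂ} (hf : AlgAt K n f) (hg : AlgAt K n g) :
    AlgAt K n (fun z => f z * g z) := by
  refine ⟨fun z hz w hw h => ?_, fun z0 => ?_⟩
  · show f z * g z = f w * g w
    rw [hf.1 z hz w hw h, hg.1 z hz w hw h]
  · obtain ⟨w1, hw1, h1⟩ := hf.2 z0
    obtain ⟨w2, hw2, h2⟩ := hg.2 z0
    obtain ⟨w, hw, e1, e2⟩ := common_pair (continuous_phi K n) hw1 hw2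
    exact ⟨w, hw, (h1.trans e1).mul (h2.trans e2)⟩

private theorem algGood_dep_mono {X : ℕ → Set ℂ} {F : Pt → ℂ} {a b : ℕ} (hab : a ≤ b)
    (h : DepOn X (Set.Iio a) F) : DepOn X (Set.Iio b) F :=
  fun z hz w hw he => h z hz w hw fun i hi => he i (lt_of_lt_of_le hi hab)

/-- `AlgK K` is a good class (`AlgAt.mono`, `AlgAt.mulcomp`, `AlgAt.exists_part`, `AlgAt.rat`) -/
theorem goodClass_algK (K : Subfield ℂ) : GoodClass K (AlgK K) := by
  refine ⟨?_, ?_, ?_, ?_, ?_, ?_⟩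
  · rintro F G ⟨n, hd, hl⟩ hFG
    refine ⟨n, fun z hz w hw h => ?_, fun z0 => ?_⟩
    · rw [← hFG z hz, ← hFG w hw]
      exact hd z hz w hw h
    · obtain ⟨w, hw, h⟩ := hl z0
      exact ⟨w, hw, h.congr (Filter.Eventually.of_forall fun z => hFG _ (ext_mem_dom z))⟩
  · rintro F G ⟨n, hF⟩ ⟨m, hG⟩
    exact ⟨max n m, (hF.mono (le_max_left n m)).add (hG.mono (le_max_right n m))⟩
  · rintro F R φ ⟨m, hF⟩ hR hφ hmap
    obtain ⟨M0, hM0⟩ := hR.dep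
    choose M hM using fun i => (hφ i).dep
    have hle : ∀ i < m, M i ≤ max M0 ((Finset.range m).sup M) := fun i hi =>
      le_trans (Finset.le_sup (f := M) (Finset.mem_range.2 hi)) (le_max_right _ _)
    exact ⟨max M0 ((Finset.range m).sup M), AlgAt.mulcomp hF hR (algGood_dep_mono (le_max_left _ _) hM0)
      (fun i _ => hφ i) (fun i hi => algGood_dep_mono (hle i hi) (hM i)) hmap⟩
  · rintro F i ⟨n, hF⟩
    obtain ⟨F', h1, h2⟩ := hF.exists_part i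
    exact ⟨F', ⟨n, h1⟩, h2⟩
  · rintro F ⟨n, hF⟩
    exact ⟨n, hF.1⟩
  · intro F hF
    obtain ⟨n, hn⟩ := hF.dep
    exact ⟨n, AlgAt.rat hF hn⟩

theorem AlgK.neg {K : Subfield ℂ} {f : Pt → ℂ} (hf : AlgK K f) : AlgK K (fun z => - f z) := by
  obtain ⟨n, hd, hl⟩ := hf
  refine ⟨n, fun z hz w hw h => ?_, fun z0 => ?_⟩
  · show - f z = - f w
    rw [hd z hz w hw h]
  · obtain ⟨w, hw, h⟩ := hl z0
    exact ⟨w, hw, h.neg⟩

end MP1eadaeL
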