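import Mathlib
import Pool.Agent.Lib_MP_1eadae_ag.Defs
import Pool.Agent.Lib_MP_1eadae_ag.RatA
import Pool.Agent.Lib_MP_1eadae_ag.RatB
import Pool.Agent.Lib_MP_1eadae_ag.RatC
import Pool.Agent.Lib_MP_1eadae_ag.Ctr
import Pool.Agent.Lib_MP_1eadae_ag.Stk
import Pool.Agent.Lib_MP_1eadae_ag.Pen
import Pool.Agent.Lib_MP_1eadae_ag.Root
import Pool.Agent.Lib_MP_1eadae_ag.TwoSort
import Pool.Agent.Lib_MP_1eadae_ag.SubB

/-! # MP_1eadae_ag, piece LEB: Lebesgue number lemma for grid cubes -/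

namespace MP1eadaeL

open Complex Function

/-- the cube is compact -/
private theorem leb_compact (n : ℕ) : IsCompact (Set.univ : Set (CubeT n)) := by
  have h1 : IsCompact seg := isCompact_Icc.image Complex.continuous_ofReal
  have h2 : IsCompact {z : Fin n → ℂ | ∀ i, z i ∈ seg} := by
    have h3 := isCompact_univ_pi (fun _ : Fin n => h1)
    have h4 : {z : Fin n → ℂ | ∀ i, z i ∈ seg} = Set.univ.pi (fun _ => seg) := by
      ext z
      simp
    rw [h4]
    exact h3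
  exact isCompact_univ_iff.2 (isCompact_iff_compactSpace.1 h2)

/-- Piece LEB.  If a property of grid cubes holds for all grid cubes contained in some neighbourhood of
each point, it holds for all fine enough grids.  Proof: `CubeT n` is a compact metric space (closed
bounded subset of `Fin n → ℂ`, sup metric), `lebesgue_number_lemma_of_metric`: there is `δ > 0` such
that every ball of radius `δ` is contained in (the interior of) some `U z0`.  Take `N0 > 1/δ`, `N0 ≥ 1`: two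
points of the grid cube have distance `≤ 1/N`. -/
theorem leb (n : ℕ) (P : ∀ N : ℕ, (Fin n → Fin N) → Prop)
    (h : ∀ z0 : CubeT n, ∃ U ∈ nhds z0, ∀ N : ℕ, 1 ≤ N → ∀ a : Fin n → Fin N,
      (∀ z ∈ Dom X0, prj n (sc n N a z) ∈ U) → P N a) :
    ∃ N0 : ℕ, 1 ≤ N0 ∧ ∀ N ≥ N0, ∀ a : Fin n → Fin N, P N a := by
  choose U hU hP using h
  have hcomp : IsCompact (Set.univ : Set (CubeT n)) := leb_compact n
  obtain ⟨δ, hδ, hball⟩ := lebesgue_number_lemma_of_metric (c := fun z0 => interior (U z0)) hcomp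
    (fun z0 => isOpen_interior) (fun z _ => Set.mem_iUnion.2 ⟨z, mem_interior_iff_mem_nhds.2 (hU z)⟩)
  obtain ⟨N0, hN0⟩ := exists_nat_gt (1 / δ)
  refine ⟨max N0 1, le_max_right _ _, fun N hN a => ?_⟩
  have hN1 : 1 ≤ N := le_trans (le_max_right _ _) hN
  have hNN : N0 ≤ N := le_trans (le_max_left _ _) hN
  have hNpos : (0 : ℝ) < N := by exact_mod_cast hN1
  have hNδ : 1 / (N : ℝ) < δ := by
    have h1 : 1 / δ < N := lt_of_lt_of_le hN0 (by exact_mod_cast hNN)
    rw [div_lt_iff₀ hδ] at h1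
    rw [div_lt_iff₀ hNpos]
    linarith [mul_comm (N : ℝ) δ]
  have h0 : (fun _ => 0 : Pt) ∈ Dom X0 := fun i => ⟨0, by simp, by simp⟩
  obtain ⟨z0, hz0⟩ := hball (prj n (sc n N a (fun _ => 0))) (Set.mem_univ _)
  refine hP z0 N hN1 a fun z hz => ?_
  refine interior_subset (hz0 ?_)
  rw [Metric.mem_ball, Subtype.dist_eq,
    prj_val (fun i _ => sc_mem_dom hN1 a hz i), prj_val (fun i _ => sc_mem_dom hN1 a h0 i),
    dist_pi_lt_iff hδ]
  intro i
  change dist (sc n N a z i) (sc n N a (fun _ => 0) i) < δ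
  rw [subb_sc_lt a z i.2, subb_sc_lt a _ i.2, dist_eq_norm]
  have h2 : (z i + ((a ⟨i, i.2⟩ : ℕ) : ℂ)) / (N : ℂ) - (0 + ((a ⟨i, i.2⟩ : ℕ) : ℂ)) / (N : ℂ) =
      z i / (N : ℂ) := by ring
  rw [h2, norm_div]
  obtain ⟨t, ⟨ht0, ht1⟩, ht⟩ := hz i
  have h3 : ‖z i‖ ≤ 1 := by
    rw [← ht]
    change ‖((t : ℝ) : ℂ)‖ ≤ 1
    rw [Complex.norm_real, Real.norm_eq_abs, abs_of_nonneg ht0]
    exact ht1
  have h4 : ‖(N : ℂ)‖ = N := by simp
  rw [h4]
  refine lt_of_le_of_lt ?_ hNδ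
  exact div_le_div_of_nonneg_right h3 hNpos.le

end MP1eadaeL
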