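import Mathlib
import Pool.Agent.Lib_MP_1eadae_ag.Defs
import Pool.Agent.Lib_MP_1eadae_ag.RatA
import Pool.Agent.Lib_MP_1eadae_ag.RatB
import Pool.Agent.Lib_MP_1eadae_ag.RatC
import Pool.Agent.Lib_MP_1eadae_ag.Ctr
import Pool.Agent.Lib_MP_1eadae_ag.Stk
import Pool.Agent.Lib_MP_1eadae_ag.Pen
import Pool.Agent.Lib_MP_1eadae_ag.Root
import Pool.Agent.Lib_MP_1eadae_ag.TwoSort

/-! # MP_1eadae_ag, piece LOCGP: normal form of a simple root on a small neighbourhood -/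

namespace MP1eadaeL

open Complex Function

/-- Piece LOCGP.  Near `z0`, a continuous simple root `w` of `q` lies in a small disc `disc c r` with
`c ∈ K`, on which `q(z,·)/κ` (`κ ∈ K` close to `q'(z0, w z0)`) satisfies the contraction condition of a
pencil; and neighbourhood x disc is contained in a given neighbourhood `U` of `(z0, w z0)`.

Proof.  `K` is dense in `ℂ` (it contains `ℚ + ℚ i`).  Let `y0 = w z0`, `δ = q'(z0,y0) ≠ 0`.
`q'` is jointly continuous: choose `κ ∈ K`, `κ ≠ 0` with `|δ/κ - 1| < 1/4`; there are a neighbourhood `V` of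
`z0` and `ρ > 0` with `|q'(z,y)/κ - 1| ≤ 1/2` for `z ∈ V`, `|y - y0| ≤ ρ` and `V x ball(y0,ρ) ⊆ U`.
Take a rational `0 < r`, `2 r < ρ`, and `c ∈ K` with `|c - y0| < r/8`.  On the convex set `disc c r` the
function `q(z,y)/κ - y` has derivative of norm `≤ 1/2`, so it is `1/2`-Lipschitz
(`Convex.norm_image_sub_le_of_norm_hasDerivWithin_le`).  `|q(z0,c)/κ| = |q(z0,c) - q(z0,y0)|/|κ| ≤
(3/2) |c - y0| < r/4 < r/2`, and by continuity `|q(z,c)/κ| < r/2` for `z` near `z0`.  `w z ∈ disc c r` for `z`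
near `z0` by continuity of `w` at `z0`. -/
theorem locGP {K : Subfield ℂ} (hI : I ∈ K) {n : ℕ} {z0 : CubeT n} {w : CubeT n → ℂ}
    {q : Polynomial (MvPolynomial (Fin n) K)} (h : SRq (phi K n) z0 q w)
    {U : Set (CubeT n × ℂ)} (hU : U ∈ nhds (z0, w z0)) :
    ∃ (κ c : ℂ) (r : ℚ), κ ∈ K ∧ κ ≠ 0 ∧ c ∈ K ∧ 0 < r ∧ ∀ᶠ z in nhds z0,
      w z ∈ disc c r ∧ ev2 q z.1 (w z) = 0 ∧
      (∀ y ∈ disc c r, ∀ y' ∈ disc c r,
        ‖(ev2 q z.1 y / κ - y) - (ev2 q z.1 y' / κ - y')‖ ≤ 1 / 2 * ‖y - y'‖) ∧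
      ‖ev2 q z.1 c / κ‖ < (r : ℝ) / 2 ∧ ∀ y ∈ disc c r, (z, y) ∈ U := by
  have hev : ∀ (P : Polynomial (MvPolynomial (Fin n) K)) (z : CubeT n) (y : ℂ),
      evR (phi K n) P z y = ev2 P z.1 y := fun P z y => rfl
  -- density of `K`
  have hdense : ∀ (y : ℂ) (ε : ℝ), 0 < ε → ∃ c ∈ K, ‖c - y‖ < ε := by
    intro y ε hε
    obtain ⟨a, ha1, ha2⟩ := exists_rat_btwn (show y.re - ε / 2 < y.re by linarith)
    obtain ⟨b, hb1, hb2⟩ := exists_rat_btwn (show y.im - ε / 2 < y.im by linarith)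
    refine ⟨(a : ℂ) + (b : ℂ) * I, ?_, ?_⟩
    · exact K.add_mem (SubfieldClass.ratCast_mem K a)
        (K.mul_mem (SubfieldClass.ratCast_mem K b) hI)
    · have h1 : ((a : ℂ) + (b : ℂ) * I - y) = ((a - y.re : ℝ) : ℂ) + ((b - y.im : ℝ) : ℂ) * I := by
        apply Complex.ext <;> simp
      rw [h1]
      calc _ ≤ ‖((a - y.re : ℝ) : ℂ)‖ + ‖((b - y.im : ℝ) : ℂ) * I‖ := norm_add_le _ _
        _ = |(a : ℝ) - y.re| + |(b : ℝ) - y.im| := by
          rw [norm_mul, Complex.norm_I, mul_one, Complex.norm_real, Complex.norm_real,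
            Real.norm_eq_abs, Real.norm_eq_abs]
        _ < ε := by
          rw [abs_of_neg (by linarith), abs_of_neg (by linarith)]
          linarith
  obtain ⟨hwc, hw0, hd0⟩ := h.self_of_nhds
  rw [hev] at hw0 hd0
  obtain ⟨κ, hκK, hκ⟩ := hdense (ev2 (Polynomial.derivative q) z0.1 (w z0))
    (‖ev2 (Polynomial.derivative q) z0.1 (w z0)‖ / 8) (by
      have := norm_pos_iff.2 hd0
      positivity)
  set δ : ℂ := ev2 (Polynomial.derivative q) z0.1 (w z0) with hδ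
  have hδpos : 0 < ‖δ‖ := norm_pos_iff.2 hd0
  have hκn : 7 / 8 * ‖δ‖ ≤ ‖κ‖ := by
    have h1 := norm_sub_norm_le δ κ
    rw [norm_sub_rev] at h1
    linarith
  have hκpos : 0 < ‖κ‖ := by linarith
  have hκ0 : κ ≠ 0 := norm_pos_iff.1 hκpos
  have hg0 : ‖δ / κ - 1‖ < 1 / 2 := by
    have h1 : δ / κ - 1 = (δ - κ) / κ := by field_simp
    rw [h1, norm_div, div_lt_iff₀ hκpos, norm_sub_rev]
    linarith
  -- the neighbourhood
  have hcont : ∀ P : Polynomial (MvPolynomial (Fin n) K),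
      Continuous (fun zy : CubeT n × ℂ => ev2 P zy.1.1 zy.2) := fun P =>
    Continuous.comp (g := fun zy : (Fin n → ℂ) × ℂ => ev2 P zy.1 zy.2)
      (f := fun zy : CubeT n × ℂ => ((zy.1.1, zy.2) : (Fin n → ℂ) × ℂ)) (continuous_ev2 P)
      ((continuous_subtype_val.comp continuous_fst).prodMk continuous_snd)
  have hgc : Continuous (fun zy : CubeT n × ℂ =>
      ‖ev2 (Polynomial.derivative q) zy.1.1 zy.2 / κ - 1‖) :=
    (((hcont _).div_const κ).sub continuous_const).norm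
  have hG : {zy : CubeT n × ℂ | ‖ev2 (Polynomial.derivative q) zy.1.1 zy.2 / κ - 1‖ < 1 / 2} ∈
      nhds (z0, w z0) := (isOpen_lt hgc continuous_const).mem_nhds hg0
  obtain ⟨V, hV, B, hB, hVB⟩ := mem_nhds_prod_iff.1 (Filter.inter_mem hG hU)
  obtain ⟨ρ, hρ, hρB⟩ := Metric.mem_nhds_iff.1 hB
  obtain ⟨r, hr0, hr1⟩ := exists_rat_btwn (show (0 : ℝ) < ρ / 2 by linarith)
  have hrQ : (0 : ℚ) < r := by exact_mod_cast hr0
  obtain ⟨c, hcK, hc⟩ := hdense (w z0) (r / 8) (by linarith)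
  have hsub : ∀ y ∈ disc c r, y ∈ B := by
    intro y hy
    apply hρB
    have h1 : dist y c ≤ (r : ℝ) := hy
    rw [Metric.mem_ball]
    calc dist y (w z0) ≤ dist y c + dist c (w z0) := dist_triangle _ _ _
      _ < ρ := by
        rw [dist_eq_norm c]
        linarith
  have hlip : ∀ z ∈ V, ∀ y ∈ disc c r, ∀ y' ∈ disc c r,
      ‖(ev2 q z.1 y / κ - y) - (ev2 q z.1 y' / κ - y')‖ ≤ 1 / 2 * ‖y - y'‖ := by
    intro z hz y hy y' hy'
    have hconv : Convex ℝ (disc c r) := convex_closedBall c (r : ℝ)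
    have hder : ∀ x ∈ disc c r, HasDerivWithinAt (fun y => ev2 q z.1 y / κ - y)
        (ev2 (Polynomial.derivative q) z.1 x / κ - 1) (disc c r) x := fun x _ =>
      (((hasDerivAt_ev2 q z.1 x).div_const κ).sub (hasDerivAt_id x)).hasDerivWithinAt
    have hbd : ∀ x ∈ disc c r, ‖ev2 (Polynomial.derivative q) z.1 x / κ - 1‖ ≤ 1 / 2 := by
      intro x hx
      have h1 : ((z, x) : CubeT n × ℂ) ∈ V ×ˢ B := ⟨hz, hsub x hx⟩
      exact le_of_lt (hVB h1).1
    have := hconv.norm_image_sub_le_of_norm_hasDerivWithin_le hder hbd hy' hy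
    exact this
  have hy0 : w z0 ∈ disc c r := by
    show dist (w z0) c ≤ (r : ℝ)
    rw [dist_comm, dist_eq_norm]
    linarith
  have hcc : c ∈ disc c r := by
    show dist c c ≤ (r : ℝ)
    rw [dist_self]
    exact hr0.le
  have hcen0 : ‖ev2 q z0.1 c / κ‖ < (r : ℝ) / 2 := by
    have h1 := hlip z0 (mem_of_mem_nhds hV) c hcc (w z0) hy0
    rw [hw0, zero_div, zero_sub] at h1
    have h2 : ev2 q z0.1 c / κ = (ev2 q z0.1 c / κ - c - -(w z0)) + (c - w z0) := by ring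
    rw [h2]
    calc _ ≤ _ := norm_add_le _ _
      _ ≤ 1 / 2 * ‖c - w z0‖ + ‖c - w z0‖ := by linarith
      _ < (r : ℝ) / 2 := by linarith
  have hcen : ∀ᶠ z in nhds z0, ‖ev2 q z.1 c / κ‖ < (r : ℝ) / 2 := by
    have h0 : Continuous (fun z : CubeT n => ev2 q z.1 c) :=
      Continuous.comp (g := fun zy : CubeT n × ℂ => ev2 q zy.1.1 zy.2)
        (f := fun z : CubeT n => ((z, c) : CubeT n × ℂ)) (hcont q)
        (continuous_id.prodMk continuous_const)
    have h1 : Continuous (fun z : CubeT n => ‖ev2 q z.1 c / κ‖) := (h0.div_const κ).norm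
    exact (isOpen_lt h1 continuous_const).mem_nhds hcen0
  have hwd : ∀ᶠ z in nhds z0, w z ∈ disc c r := by
    have h1 : Metric.ball (w z0) ((r : ℝ) / 8) ∈ nhds (w z0) :=
      Metric.ball_mem_nhds _ (by linarith)
    filter_upwards [hwc h1] with z hz
    have h2 : dist (w z) (w z0) < (r : ℝ) / 8 := hz
    show dist (w z) c ≤ (r : ℝ)
    calc dist (w z) c ≤ dist (w z) (w z0) + dist (w z0) c := dist_triangle _ _ _
      _ ≤ (r : ℝ) := by
        rw [dist_comm (w z0), dist_eq_norm c]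
        linarith
  refine ⟨κ, c, r, hκK, hκ0, hcK, hrQ, ?_⟩
  filter_upwards [h, hV, hcen, hwd] with z h1 h2 h3 h4
  refine ⟨h4, ?_, hlip z h2, h3, fun y hy => ?_⟩
  · rw [← hev]
    exact h1.2.1
  · have h5 : ((z, y) : CubeT n × ℂ) ∈ V ×ˢ B := ⟨h2, hsub y hy⟩
    exact (hVB h5).2

end MP1eadaeL
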