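import Mathlib
import Pool.Agent.Lib_MP_1eadae_ag.Defs
import Pool.Agent.Lib_MP_1eadae_ag.RatA
import Pool.Agent.Lib_MP_1eadae_ag.RatB
import Pool.Agent.Lib_MP_1eadae_ag.RatC
import Pool.Agent.Lib_MP_1eadae_ag.Ctr
import Pool.Agent.Lib_MP_1eadae_ag.Stk
import Pool.Agent.Lib_MP_1eadae_ag.Pen
import Pool.Agent.Lib_MP_1eadae_ag.Root
import Pool.Agent.Lib_MP_1eadae_ag.TwoSort
import Pool.Agent.Lib_MP_1eadae_ag.SubB
import Pool.Agent.Lib_MP_1eadae_ag.Scale
import Pool.Agent.Lib_MP_1eadae_ag.RepA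
import Pool.Agent.Lib_MP_1eadae_ag.Leb
import Pool.Agent.Lib_MP_1eadae_ag.LocGP
import Pool.Agent.Lib_MP_1eadae_ag.Common

/-! # MP_1eadae_ag, piece ALGREP: algebraic functions are representable on small grid cubes -/

namespace MP1eadaeL

open Complex Function

/-- the first coordinates of a scaled point do not see the coordinate `n` -/
theorem algrep_rst {n N : ℕ} (a : Fin n → Fin N) (z : Pt) (y : ℂ) :
    rst n (sc n N a (update z n y)) = rst n (sc n N a z) := by
  rw [sc_update_ge a le_rfl]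
  funext i
  unfold rst
  rw [update_of_ne (by have := i.2; omega)]

/-- Piece ALGREP.  Proof.  `leb`: it suffices to find for `z0 : CubeT n` a neighbourhood `U` such that
`f∘sc_a` is representable when the grid cube lies in `U`.  `LocPres`: near `z0`, `f (ext z) = A(w)/B(w)`, `w` a
continuous simple root of `q`.  `locGP` with the neighbourhood `{(z,y) | B(z,y) ≠ 0}` of `(z0, w z0)`.
On the grid cube: pencil `pencil_of_locGP` in the coordinate `n`, `F z = ev2 A (rst n (sc z)) (z n) /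
ev2 B (..)` (`isRat_ev2_sc`, `depOn_ev2_sc`), `f (sc z) = f (ext (prj n (sc z)))` (`DepOn.ext_prj`). -/
theorem algRep {K : Subfield ℂ} (hI : I ∈ K) {n : ℕ} {f : Pt → ℂ} (hf : AlgAt K n f) :
    ∃ N0 : ℕ, 1 ≤ N0 ∧ ∀ N ≥ N0, ∀ a : Fin n → Fin N,
      ∃ g, Rep K n (fun z => f (sc n N a z)) g := by
  refine leb n (fun N a => ∃ g, Rep K n (fun z => f (sc n N a z)) g) ?_
  intro z0
  obtain ⟨w, ⟨q, hq⟩, A, B, hAB⟩ := hf.2 z0
  have hB0 : ev2 B z0.1 (w z0) ≠ 0 := by
    have h1 := hAB.self_of_nhds.1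
    rwa [evR_phi] at h1
  have hcont : Continuous (fun zy : CubeT n × ℂ => ev2 B zy.1.1 zy.2) :=
    Continuous.comp (g := fun p : (Fin n → ℂ) × ℂ => ev2 B p.1 p.2)
      (f := fun zy : CubeT n × ℂ => ((zy.1.1, zy.2) : (Fin n → ℂ) × ℂ)) (continuous_ev2 B)
      ((continuous_subtype_val.comp continuous_fst).prodMk continuous_snd)
  have hU : {zy : CubeT n × ℂ | ev2 B zy.1.1 zy.2 ≠ 0} ∈ nhds (z0, w z0) :=
    (isOpen_ne_fun hcont continuous_const).mem_nhds hB0
  obtain ⟨κ, c, r, hκ, hκ0, hc, hr, hloc⟩ := locGP hI hq hU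
  refine ⟨_, hloc.and hAB, ?_⟩
  intro N hN a ha
  have hval : ∀ z ∈ Dom X0, (prj n (sc n N a z)).1 = rst n (sc n N a z) := fun z hz =>
    prj_val fun i _ => sc_mem_dom hN a hz i
  have hP := pencil_of_locGP hN a le_rfl q hκ hκ0 hc hr
    (fun z hz => by
      have h1 := (ha z hz).1.2.2.1
      rwa [hval z hz] at h1)
    (fun z hz => by
      have h1 := (ha z hz).1.2.2.2.1
      rwa [hval z hz] at h1)
  have hset : (insert n (Set.Iio n) : Set ℕ) = Set.Iio (n + 1) := by
    ext i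
    simp only [Set.mem_insert_iff, Set.mem_Iio]
    omega
  have hdep : ∀ (P : Polynomial (MvPolynomial (Fin n) K)) (X : ℕ → Set ℂ),
      DepOn X (Set.Iio (n + 1)) (fun z => ev2 P (rst n (sc n N a z)) (z n)) := fun P X => by
    rw [← hset]
    exact depOn_ev2_sc le_rfl P X N a
  have hBne : ∀ z ∈ Dom (update X0 n (disc c r)), ev2 B (rst n (sc n N a z)) (z n) ≠ 0 := by
    intro z hz
    have hz' : update z n 0 ∈ Dom X0 := repa_upd0 hz
    have h1 : z n ∈ disc c r := by
      have := hz n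
      rwa [update_self] at this
    have h2 := (ha _ hz').1.2.2.2.2 (z n) h1
    change ev2 B (prj n (sc n N a (update z n 0))).1 (z n) ≠ 0 at h2
    rwa [hval _ hz', algrep_rst] at h2
  refine ⟨res n c r (fun z => ev2 A (rst n (sc n N a z)) (z n) / ev2 B (rst n (sc n N a z)) (z n))
    (fun z => ev2 q (rst n (sc n N a z)) (z n) / κ)
    (fun z => ev2 (Polynomial.derivative q) (rst n (sc n N a z)) (z n) / κ), ?_, c, r, _, _, _, hP,
    (isRat_ev2_sc A _ N a n).div (isRat_ev2_sc B _ N a n) hBne, ?_, ?_, ?_, fun z _ => rfl⟩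
  · intro z hz z' hz' hzz'
    exact hf.1 _ (sc_mem_dom hN a hz) _ (sc_mem_dom hN a hz') (repa_sc_eq a hzz')
  · intro z hz z' hz' hzz'
    have h1 := hdep A _ z hz z' hz' hzz'
    have h2 := hdep B _ z hz z' hz' hzz'
    simp only at h1 h2 ⊢
    rw [h1, h2]
  · intro z hz z' hz' hzz'
    have h1 := hdep q _ z hz z' hz' hzz'
    simp only at h1 ⊢
    rw [h1]
  · intro z hz y hy hQ
    simp only at hQ ⊢
    rw [algrep_rst, update_self] at hQ ⊢
    have h1 := ha z hz
    change _ ∧ _ at h1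
    obtain ⟨⟨h2, h3, h4, -, -⟩, h5, h6⟩ := h1
    rw [hval z hz] at h3 h4
    have hy0 : y = w (prj n (sc n N a z)) := by
      have h7 := h4 y hy _ h2
      rw [hQ, h3, zero_div] at h7
      have h8 : (0 : ℂ) - y - (0 - w (prj n (sc n N a z))) = -(y - w (prj n (sc n N a z))) := by ring
      rw [h8, norm_neg] at h7
      have h9 : ‖y - w (prj n (sc n N a z))‖ = 0 := by
        have := norm_nonneg (y - w (prj n (sc n N a z)))
        linarith
      exact sub_eq_zero.1 (norm_eq_zero.1 h9)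
    rw [evR_phi, evR_phi, hval z hz, ← hy0] at h6
    rw [← h6]
    exact DepOn.ext_prj hf.1 (sc_mem_dom hN a hz)

end MP1eadaeL
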