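import Mathlib
import Pool.Agent.Lib_MP_1eadae_ag.Defs
import Pool.Agent.Lib_MP_1eadae_ag.RatA
import Pool.Agent.Lib_MP_1eadae_ag.RatB
import Pool.Agent.Lib_MP_1eadae_ag.Pen
import Pool.Agent.Lib_MP_1eadae_ag.TwoSort
import Pool.Agent.Lib_MP_1eadae_ag.Germ
import Pool.Agent.Lib_MP_1eadae_ag.Common
import Pool.Agent.Lib_MP_1eadae_ag.AlgMul

/-! # MP_1eadae_ag, piece ALGROOT: rational functions of an algebraic root are algebraic -/

namespace MP1eadaeL

open Complex Function

/-- the substitution `X_e ↦ X`, `X_i ↦ C X_i` for `i < M`, `X_i ↦ 0` otherwise -/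
private noncomputable def arHom (K : Subfield ℂ) (M e : ℕ) :
    MvPolynomial ℕ K →+* Polynomial (MvPolynomial (Fin M) K) :=
  MvPolynomial.eval₂Hom (Polynomial.C.comp MvPolynomial.C)
    (fun i : ℕ => if i = e then (Polynomial.X : Polynomial (MvPolynomial (Fin M) K))
      else if h : i < M then Polynomial.C (MvPolynomial.X ⟨i, h⟩) else 0)

private theorem ar_ev {K : Subfield ℂ} {M e : ℕ} (P : MvPolynomial ℕ K) (z : CubeT M) (y : ℂ) :
    ev2 (arHom K M e P) z.1 y = pev P (update (ext z) e y) := by
  have key : (Polynomial.eval₂RingHom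
      (MvPolynomial.aeval z.1 : MvPolynomial (Fin M) K →ₐ[K] ℂ).toRingHom y).comp (arHom K M e) =
      (MvPolynomial.aeval (update (ext z) e y) : MvPolynomial ℕ K →ₐ[K] ℂ).toRingHom := by
    refine MvPolynomial.ringHom_ext (fun a => ?_) (fun i => ?_)
    · rw [RingHom.comp_apply]
      unfold arHom
      rw [MvPolynomial.eval₂Hom_C, RingHom.comp_apply, Polynomial.coe_eval₂RingHom,
        Polynomial.eval₂_C]
      show MvPolynomial.aeval z.1 (MvPolynomial.C a) =
        MvPolynomial.aeval (update (ext z) e y) (MvPolynomial.C a)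
      rw [MvPolynomial.aeval_C, MvPolynomial.aeval_C]
    · rw [RingHom.comp_apply]
      unfold arHom
      rw [MvPolynomial.eval₂Hom_X', Polynomial.coe_eval₂RingHom]
      show _ = MvPolynomial.aeval (update (ext z) e y) (MvPolynomial.X i)
      rw [MvPolynomial.aeval_X]
      by_cases hie : i = e
      · rw [if_pos hie, hie, update_self, Polynomial.eval₂_X]
      · rw [if_neg hie, update_of_ne hie]
        by_cases hM : i < M
        · rw [dif_pos hM, Polynomial.eval₂_C]
          show MvPolynomial.aeval z.1 (MvPolynomial.X ⟨i, hM⟩) = ext z i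
          rw [MvPolynomial.aeval_X]
          unfold ext
          rw [dif_pos hM]
        · rw [dif_neg hM, Polynomial.eval₂_zero]
          unfold ext
          rw [dif_neg hM]
  exact congrArg (fun f => f P) key

/-- raising the level -/
private theorem ar_raise {K : Subfield ℂ} {n M : ℕ} (hnM : n ≤ M)
    (A : Polynomial (MvPolynomial (Fin n) K)) (z : CubeT M) (y : ℂ) :
    ev2 (A.map (MvPolynomial.rename (Fin.castLE hnM) :
      MvPolynomial (Fin n) K →ₐ[K] MvPolynomial (Fin M) K).toRingHom) z.1 y =
      ev2 A (rst n (ext z)) y := by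
  unfold ev2
  rw [Polynomial.eval₂_map]
  congr 1
  refine RingHom.ext fun P => ?_
  show MvPolynomial.aeval z.1 (MvPolynomial.rename (Fin.castLE hnM) P) =
    MvPolynomial.aeval (rst n (ext z)) P
  rw [MvPolynomial.aeval_rename]
  congr 2
  funext i
  show z.1 (Fin.castLE hnM i) = ext z (i : ℕ)
  unfold ext
  rw [dif_pos (lt_of_lt_of_le i.2 hnM)]
  rfl

/-- Functions `R(z, η z)` are algebraic: `R` rational on `Dom (X0[e := disc c r])`, `η` the root function of a
pencil in the coordinate `n`.  `Q = N/D` (`IsRat.twoSorted`): `w = η∘ext` is a continuous simple root of `N`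
(over the cube of dimension `M` large, level raised by the inclusion of polynomial rings), and `R(z, η z)` is
`A(z,w)/B(z,w)` with `R = P/P'`, `A` obtained from `P` by `X_e ↦ X`, `X_i ↦ C X_i` for `i < M`, `i ≠ e`. -/
theorem algK_root {K : Subfield ℂ} {n e : ℕ} {Q Qy R η : Pt → ℂ} {c : ℂ} {r : ℚ}
    (P : Pencil K X0 n Q Qy c r) (hQd : DepOn (update X0 n (disc c r)) (Set.Iio (n + 1)) Q)
    (hη : ∀ z ∈ Dom X0, η z ∈ disc c r ∧ Q (update z n (η z)) = 0)
    (hηc : ContinuousOn η (Dom X0)) (hηd : DepOn X0 (Set.Iio n) η)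
    (hR : IsRat K (update X0 e (disc c r)) R) :
    AlgK K (fun z => R (update z e (η z))) := by
  obtain ⟨A, D, hAD⟩ := IsRat.twoSorted (K := K) (n := n) (q := n) (le_refl n) P.ratQ (by
    refine fun z hz w hw h => hQd z hz w hw fun i hi => h i ?_
    rcases Nat.lt_succ_iff_lt_or_eq.1 hi with h1 | h1
    · exact Set.mem_insert_of_mem _ h1
    · exact h1 ▸ Set.mem_insert _ _)
  obtain ⟨m, hm⟩ := hR.dep
  obtain ⟨P1, P2, hP⟩ := hR
  set M := max n m with hM
  have hnM : n ≤ M := le_max_left _ _
  have hmM : m ≤ M := le_max_right _ _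
  have hX : X0 n = seg := rfl
  have hdomn : ∀ z ∈ Dom X0, ∀ y ∈ disc c r, update z n y ∈ Dom (update X0 n (disc c r)) := by
    intro z hz y hy i
    by_cases h : i = n
    · subst h
      rw [update_self, update_self]
      exact hy
    · rw [update_of_ne h, update_of_ne h]
      exact hz i
  have hdome : ∀ z ∈ Dom X0, ∀ y ∈ disc c r, update z e y ∈ Dom (update X0 e (disc c r)) := by
    intro z hz y hy i
    by_cases h : i = e
    · subst h
      rw [update_self, update_self]
      exact hy
    · rw [update_of_ne h, update_of_ne h]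
      exact hz i
  refine ⟨M, ?_, fun z0 => ⟨fun z => η (ext z), ?_, ?_⟩⟩
  · intro z hz w hw hzw
    have h1 : η z = η w := hηd z hz w hw fun i hi => hzw i (lt_of_lt_of_le hi hnM)
    show R (update z e (η z)) = R (update w e (η w))
    rw [h1]
    refine hm _ (hdome z hz _ (hη w hw).1) _ (hdome w hw _ (hη w hw).1) fun i hi => ?_
    by_cases h : i = e
    · subst h
      rw [update_self, update_self]
    · rw [update_of_ne h, update_of_ne h]
      exact hzw i (lt_of_lt_of_le hi hmM)
  · have hcont : Continuous (fun z : CubeT M => η (ext z)) := by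
      rw [← continuousOn_univ]
      exact hηc.comp continuous_ext.continuousOn fun z _ => ext_mem_dom z
    refine ⟨A.map (MvPolynomial.rename (Fin.castLE hnM) :
      MvPolynomial (Fin n) K →ₐ[K] MvPolynomial (Fin M) K).toRingHom,
      Filter.Eventually.of_forall fun z => ⟨hcont.continuousAt, ?_, ?_⟩⟩
    · rw [evR_phi, ar_raise hnM]
      obtain ⟨h1, h2⟩ := hη (ext z) (ext_mem_dom z)
      obtain ⟨h3, h4⟩ := hAD _ (hdomn _ (ext_mem_dom z) _ h1)
      rw [h2, update_self] at h4
      rw [update_self] at h3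
      have h5 : rst n (update (ext z) n (η (ext z))) = rst n (ext z) := by
        funext i
        exact update_of_ne (ne_of_lt i.2) _ _
      rw [h5] at h3 h4
      rcases div_eq_zero_iff.1 h4.symm with h6 | h6
      · exact h6
      · exact absurd h6 h3
    · rw [Polynomial.derivative_map, evR_phi, ar_raise hnM]
      obtain ⟨h1, h2⟩ := hη (ext z) (ext_mem_dom z)
      have hz' := hdomn _ (ext_mem_dom z) _ h1
      have h3 := P.Qy_ne hX hz'
      have h4 := P.part _ hz'
      simp only [update_idem, update_self] at h4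
      set y0 := η (ext z) with hy0
      have hr5 : ∀ y, rst n (update (ext z) n y) = rst n (ext z) := by
        intro y
        funext i
        exact update_of_ne (ne_of_lt i.2) _ _
      intro hzero
      -- the function `Q(z, ·) = A / D` on the disc
      have hQA : ∀ y ∈ disc c r, ev2 D (rst n (ext z)) y ≠ 0 ∧
          Q (update (ext z) n y) = ev2 A (rst n (ext z)) y / ev2 D (rst n (ext z)) y := by
        intro y hy
        obtain ⟨a1, a2⟩ := hAD _ (hdomn _ (ext_mem_dom z) y hy)
        rw [update_self, hr5] at a1 a2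
        exact ⟨a1, a2⟩
      have hA0 : ev2 A (rst n (ext z)) y0 = 0 := by
        obtain ⟨a1, a2⟩ := hQA y0 h1
        rw [h2] at a2
        rcases div_eq_zero_iff.1 a2.symm with h6 | h6
        · exact h6
        · exact absurd h6 a1
      have hdA := hasDerivAt_ev2 A (rst n (ext z)) y0
      have hdD := hasDerivAt_ev2 D (rst n (ext z)) y0
      have hdiv := (hdA.div hdD (hQA y0 h1).1).hasDerivWithinAt (s := disc c r)
      have hQd' : HasDerivWithinAt (fun w => Q (update (ext z) n w)) _ (disc c r) y0 :=
        hdiv.congr (fun y hy => (hQA y hy).2) (hQA y0 h1).2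
      have huniq := (ud_disc c r P.hr y0 h1).eq_deriv _ h4 hQd'
      rw [hzero, hA0, zero_mul, zero_mul, sub_zero, zero_div] at huniq
      exact h3 huniq
  · refine ⟨arHom K M e P1, arHom K M e P2, Filter.Eventually.of_forall fun z => ?_⟩
    rw [evR_phi, evR_phi, ar_ev, ar_ev]
    exact hP _ (hdome _ (ext_mem_dom z) _ (hη (ext z) (ext_mem_dom z)).1)

end MP1eadaeL
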