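import Mathlib

/-!
# MP_1eadae_ag: the basic real definitions (used in the final statements)

Points are real sequences, functions are complex valued functions of finitely many
coordinates on the cube.
-/

namespace MP1eadae

/-- The (infinite dimensional) unit cube. -/
def Cube : Set (ℕ → ℝ) := {x | ∀ i, x i ∈ Set.Icc (0 : ℝ) 1}

/-- `F` depends (on the cube) only on the coordinates `x 0, ..., x (n-1)`. -/
def DepLT (n : ℕ) (F : (ℕ → ℝ) → ℂ) : Prop :=
  ∀ x ∈ Cube, ∀ y ∈ Cube, (∀ i < n, x i = y i) → F x = F y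

/-- value of a polynomial with coefficients in `k` at a real point -/
noncomputable def peval {k : Type} [Field k] [Algebra k ℂ] (P : MvPolynomial ℕ k)
    (x : ℕ → ℝ) : ℂ :=
  MvPolynomial.aeval (fun i => ((x i : ℝ) : ℂ)) P

/-- rational functions with coefficients in `k` and without poles on the cube -/
def RatFn (k : Type) [Field k] [Algebra k ℂ] : Set ((ℕ → ℝ) → ℂ) :=
  {F | ∃ P Q : MvPolynomial ℕ k, ∀ x ∈ Cube, peval Q x ≠ 0 ∧ F x = peval P x / peval Q x}

/-- `H` is the partial derivative of `G` with respect to the `i`-th variable on the cube. -/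
def PartialD (i : ℕ) (G H : (ℕ → ℝ) → ℂ) : Prop :=
  ∀ x ∈ Cube, HasDerivWithinAt (fun t : ℝ => G (Function.update x i t)) (H x)
    (Set.Icc 0 1) (x i)

/-- The additive span of the Newton-Leibniz (Stokes) elements
`∂G/∂x_i - G|_{x_i=1} + G|_{x_i=0}` with `G` and `∂G/∂x_i` in the class `C`. -/
def StokesSpan (C : Set ((ℕ → ℝ) → ℂ)) : Set ((ℕ → ℝ) → ℂ) :=
  {F | ∃ (m : ℕ) (i : Fin m → ℕ) (G H : Fin m → (ℕ → ℝ) → ℂ),
    (∀ l, G l ∈ C ∧ H l ∈ C ∧ PartialD (i l) (G l) (H l)) ∧
    ∀ x ∈ Cube, F x = ∑ l, (H l x - G l (Function.update x (i l) 1)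
      + G l (Function.update x (i l) 0))}

end MP1eadae
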