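import Mathlib
import Pool.Agent.Lib_MP_1eadae_ag.Real

/-!
# MP_1eadae_ag: real definitions for the main theorem (T1)
-/

namespace MP1eadae

/-- the field `ℚ(i)` -/
noncomputable def Qi : Subfield ℂ := Subfield.closure {Complex.I}

/-- the field of algebraic numbers in `ℂ` -/
noncomputable def Qbar : Subfield ℂ := (algebraicClosure ℚ ℂ).toSubfield

/-- value of a polynomial in `x_0, x_1, ...` and one more variable `y` -/
noncomputable def pevalY {k : Type} [Field k] [Algebra k ℂ] (q : Polynomial (MvPolynomial ℕ k))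
    (x : ℕ → ℝ) (y : ℂ) : ℂ :=
  q.eval₂ (MvPolynomial.aeval (fun i => ((x i : ℝ) : ℂ)) : MvPolynomial ℕ k →ₐ[k] ℂ).toRingHom y

/-- Algebraic (Nash) functions on the cube with coefficients in `k`: functions of finitely many
coordinates which near every point of the cube are of the form `A(x,w)/B(x,w)`, where `w` is a
continuous function which is a simple root of a polynomial `q(x,·)`. -/
def NashFn (k : Type) [Field k] [Algebra k ℂ] : Set ((ℕ → ℝ) → ℂ) :=
  {f | (∃ n, DepLT n f) ∧ ∀ x0 ∈ Cube, ∃ (q A B : Polynomial (MvPolynomial ℕ k))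
    (w : (ℕ → ℝ) → ℂ) (U : Set (ℕ → ℝ)), IsOpen U ∧ x0 ∈ U ∧ ContinuousOn w (U ∩ Cube) ∧
    ∀ x ∈ U ∩ Cube, pevalY q x (w x) = 0 ∧ pevalY (Polynomial.derivative q) x (w x) ≠ 0 ∧
      pevalY B x (w x) ≠ 0 ∧ f x = pevalY A x (w x) / pevalY B x (w x)}

/-- extension of a point of `ℝ^n` by `0` -/
def extR {n : ℕ} (t : Fin n → ℝ) : ℕ → ℝ := fun i => if h : i < n then t ⟨i, h⟩ else 0

/-- the integral over the `n`-dimensional unit cube -/
noncomputable def cubeInt (n : ℕ) (F : (ℕ → ℝ) → ℂ) : ℂ :=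
  ∫ t in Set.Icc (0 : Fin n → ℝ) 1, F (extR t)

/-- The period conjecture for functions of `n` variables in the class `C`: if `F ∈ C` is a function
of `x_0, ..., x_{n-1}` with integral `0` over the `n`-cube, then, after multiplication by finitely
many factors `4/(1+x_j^2)` (integral `π`) in new variables, `F` is a sum of Stokes elements
(of functions of any number of variables). -/
def PeriodConjN (n : ℕ) (C : Set ((ℕ → ℝ) → ℂ)) : Prop :=
  ∀ F : (ℕ → ℝ) → ℂ, F ∈ C → DepLT n F → cubeInt n F = 0 →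
    ∃ m : ℕ, (fun x => (∏ j ∈ Finset.range m, (4 : ℂ) / (1 + (x (n + j) : ℂ) ^ 2)) * F x)
      ∈ StokesSpan C

/-- The period conjecture for the class `C`. -/
def PeriodConj (C : Set ((ℕ → ℝ) → ℂ)) : Prop := ∀ n : ℕ, PeriodConjN n C

end MP1eadae
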