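import Mathlib
import Pool.Agent.Lib_MP_1eadae_ag.Real
import Pool.Agent.Lib_MP_1eadae_ag.Real2

/-! # MP_1eadae_ag, piece CINT: integration over cubes -/

namespace MP1eadae

/- Piece CINT.. -/

theorem continuous_extR {n : ℕ} : Continuous (extR : (Fin n → ℝ) → ℕ → ℝ) := by
  refine continuous_pi fun i => ?_
  unfold extR
  by_cases h : i < n
  · simp only [h, dif_pos]
    exact continuous_apply _
  · simp only [h, dif_neg, not_false_eq_true]
    exact continuous_const

theorem extR_mem_cube {n : ℕ} {t : Fin n → ℝ} (ht : t ∈ Set.Icc (0 : Fin n → ℝ) 1) :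
    extR t ∈ Cube := by
  intro i
  unfold extR
  by_cases h : i < n
  · simp only [h, dif_pos]
    exact ⟨ht.1 _, ht.2 _⟩
  · simp only [h, dif_neg, not_false_eq_true]
    exact ⟨le_rfl, zero_le_one⟩

private theorem ci_contOn {n : ℕ} {F : (ℕ → ℝ) → ℂ} (hF : ContinuousOn F Cube) :
    ContinuousOn (fun t : Fin n → ℝ => F (extR t)) (Set.Icc 0 1) :=
  hF.comp continuous_extR.continuousOn fun _ ht => extR_mem_cube ht

private theorem ci_int {n : ℕ} {F : (ℕ → ℝ) → ℂ} (hF : ContinuousOn F Cube) :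
    MeasureTheory.IntegrableOn (fun t : Fin n → ℝ => F (extR t)) (Set.Icc 0 1) :=
  (ci_contOn hF).integrableOn_compact isCompact_Icc

theorem cubeInt_congr {n : ℕ} {F G : (ℕ → ℝ) → ℂ} (h : ∀ x ∈ Cube, F x = G x) :
    cubeInt n F = cubeInt n G :=
  MeasureTheory.setIntegral_congr_fun measurableSet_Icc fun _ ht => h _ (extR_mem_cube ht)

theorem cubeInt_sub {n : ℕ} {F G : (ℕ → ℝ) → ℂ} (hF : ContinuousOn F Cube)
    (hG : ContinuousOn G Cube) : cubeInt n (fun x => F x - G x) = cubeInt n F - cubeInt n G :=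
  MeasureTheory.integral_sub (ci_int hF) (ci_int hG)

theorem cubeInt_const_mul {n : ℕ} {F : (ℕ → ℝ) → ℂ} (a : ℂ) :
    cubeInt n (fun x => a * F x) = a * cubeInt n F :=
  MeasureTheory.integral_const_mul _ _

/-- real and imaginary parts -/
theorem cubeInt_re {n : ℕ} {F : (ℕ → ℝ) → ℂ} (hF : ContinuousOn F Cube) :
    cubeInt n (fun x => ((F x).re : ℂ)) = ((cubeInt n F).re : ℂ) ∧
    cubeInt n (fun x => ((F x).im : ℂ)) = ((cubeInt n F).im : ℂ) := by
  have h := ci_int (n := n) hF
  unfold cubeInt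
  refine ⟨?_, ?_⟩
  · refine (integral_complex_ofReal (f := fun t : Fin n → ℝ => (F (extR t)).re)).trans ?_
    congr 1
    exact integral_re h
  · refine (integral_complex_ofReal (f := fun t : Fin n → ℝ => (F (extR t)).im)).trans ?_
    congr 1
    exact integral_im h

private theorem ci_update {n : ℕ} (i : Fin (n + 1)) (s t : ℝ) (r : Fin n → ℝ) :
    Function.update (extR (i.insertNth s r : Fin (n + 1) → ℝ)) (i : ℕ) t =
      extR (i.insertNth t r : Fin (n + 1) → ℝ) := by
  funext j
  by_cases hj : j = (i : ℕ)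
  · subst hj
    rw [Function.update_self]
    unfold extR
    rw [dif_pos i.isLt]
    have : (⟨(i : ℕ), i.isLt⟩ : Fin (n + 1)) = i := rfl
    rw [this, Fin.insertNth_apply_same]
  · rw [Function.update_of_ne hj]
    unfold extR
    by_cases h : j < n + 1
    · rw [dif_pos h, dif_pos h]
      have hne : (⟨j, h⟩ : Fin (n + 1)) ≠ i := fun h' => hj (congrArg Fin.val h')
      obtain ⟨k, hk⟩ := Fin.exists_succAbove_eq hne
      rw [← hk, Fin.insertNth_apply_succAbove, Fin.insertNth_apply_succAbove]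
    · rw [dif_neg h, dif_neg h]

private theorem ci_mem {n : ℕ} (i : Fin (n + 1)) {s : ℝ} {r : Fin n → ℝ} :
    (i.insertNth s r : Fin (n + 1) → ℝ) ∈ Set.Icc (0 : Fin (n + 1) → ℝ) 1 ↔
      s ∈ Set.Icc (0 : ℝ) 1 ∧ r ∈ Set.Icc (0 : Fin n → ℝ) 1 := by
  constructor
  · intro h
    refine ⟨⟨?_, ?_⟩, fun k => ?_, fun k => ?_⟩
    · have := h.1 i
      rwa [Fin.insertNth_apply_same] at this
    · have := h.2 i
      rwa [Fin.insertNth_apply_same] at this
    · have := h.1 (i.succAbove k)
      rwa [Fin.insertNth_apply_succAbove] at this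
    · have := h.2 (i.succAbove k)
      rwa [Fin.insertNth_apply_succAbove] at this
  · rintro ⟨hs, hr⟩
    refine ⟨fun j => ?_, fun j => ?_⟩
    · by_cases hj : j = i
      · subst hj
        rw [Fin.insertNth_apply_same]
        exact hs.1
      · obtain ⟨k, hk⟩ := Fin.exists_succAbove_eq hj
        rw [← hk, Fin.insertNth_apply_succAbove]
        exact hr.1 k
    · by_cases hj : j = i
      · subst hj
        rw [Fin.insertNth_apply_same]
        exact hs.2
      · obtain ⟨k, hk⟩ := Fin.exists_succAbove_eq hj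
        rw [← hk, Fin.insertNth_apply_succAbove]
        exact hr.2 k

private theorem ci_cont {n : ℕ} (i : Fin (n + 1)) :
    Continuous (fun p : ℝ × (Fin n → ℝ) => (i.insertNth p.1 p.2 : Fin (n + 1) → ℝ)) := by
  refine continuous_pi fun j => ?_
  by_cases hj : j = i
  · subst hj
    simp only [Fin.insertNth_apply_same]
    exact continuous_fst
  · obtain ⟨k, hk⟩ := Fin.exists_succAbove_eq hj
    rw [← hk]
    simp only [Fin.insertNth_apply_succAbove]
    exact (continuous_apply k).comp continuous_snd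

/-- Fubini -/
private theorem ci_split {n : ℕ} (i : Fin (n + 1)) {F : (ℕ → ℝ) → ℂ} (hF : ContinuousOn F Cube) :
    cubeInt (n + 1) F = ∫ r in Set.Icc (0 : Fin n → ℝ) 1, ∫ s in (0 : ℝ)..1,
      F (extR (i.insertNth s r : Fin (n + 1) → ℝ)) := by
  have hmp := (MeasureTheory.volume_preserving_piFinSuccAbove (fun _ : Fin (n + 1) => ℝ) i).symm
  have h1 := hmp.setIntegral_preimage_emb
    (MeasurableEquiv.piFinSuccAbove (fun _ : Fin (n + 1) => ℝ) i).symm.measurableEmbedding
    (fun t => F (extR t)) (Set.Icc 0 1)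
  have h2 : (MeasurableEquiv.piFinSuccAbove (fun _ : Fin (n + 1) => ℝ) i).symm ⁻¹'
      (Set.Icc 0 1) = Set.Icc (0 : ℝ) 1 ×ˢ Set.Icc (0 : Fin n → ℝ) 1 := by
    ext ⟨s, r⟩
    exact ci_mem i
  rw [h2] at h1
  have hcont : ContinuousOn (fun p : ℝ × (Fin n → ℝ) =>
      F (extR (i.insertNth p.1 p.2 : Fin (n + 1) → ℝ)))
      (Set.Icc (0 : ℝ) 1 ×ˢ Set.Icc (0 : Fin n → ℝ) 1) := by
    refine hF.comp (continuous_extR.comp (ci_cont i)).continuousOn ?_
    rintro ⟨s, r⟩ hp
    exact extR_mem_cube ((ci_mem i).2 hp)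
  have hint := hcont.integrableOn_compact (μ := MeasureTheory.volume)
    (isCompact_Icc.prod isCompact_Icc)
  have h3 : ∫ p in Set.Icc (0 : ℝ) 1 ×ˢ Set.Icc (0 : Fin n → ℝ) 1,
      F (extR (i.insertNth p.1 p.2 : Fin (n + 1) → ℝ)) =
      ∫ r in Set.Icc (0 : Fin n → ℝ) 1, ∫ s in Set.Icc (0 : ℝ) 1,
      F (extR (i.insertNth s r : Fin (n + 1) → ℝ)) := by
    rw [MeasureTheory.Measure.volume_eq_prod, ← MeasureTheory.Measure.prod_restrict,
      MeasureTheory.integral_prod_symm]
    rw [MeasureTheory.Measure.prod_restrict, ← MeasureTheory.Measure.volume_eq_prod]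
    exact hint
  have h4 : cubeInt (n + 1) F = ∫ p in Set.Icc (0 : ℝ) 1 ×ˢ Set.Icc (0 : Fin n → ℝ) 1,
      F (extR (i.insertNth p.1 p.2 : Fin (n + 1) → ℝ)) := h1.symm
  rw [h4, h3]
  refine MeasureTheory.setIntegral_congr_fun measurableSet_Icc fun r _ => ?_
  show ∫ s in Set.Icc (0 : ℝ) 1, _ = _
  rw [intervalIntegral.integral_of_le zero_le_one, MeasureTheory.integral_Icc_eq_integral_Ioc]

/-- Fubini with the last variable: for `h` continuous on `[0,1]` and `F` a function of `n`
coordinates, `∫_{[0,1]^{n+1}} h(x_n) F = (∫_0^1 h) ∫_{[0,1]^n} F`. -/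
theorem cubeInt_mul_last {n : ℕ} {F : (ℕ → ℝ) → ℂ} (hF : ContinuousOn F Cube) (hd : DepLT n F)
    (h : ℝ → ℂ) (hh : ContinuousOn h (Set.Icc 0 1)) :
    cubeInt (n + 1) (fun x => h (x n) * F x) = (∫ t in (0 : ℝ)..1, h t) * cubeInt n F := by
  have hmap : Set.MapsTo (fun x : ℕ → ℝ => x n) Cube (Set.Icc 0 1) := fun x hx => hx n
  have hc : ContinuousOn (fun x : ℕ → ℝ => h (x n) * F x) Cube :=
    (hh.comp (continuous_apply n).continuousOn hmap).mul hF
  rw [ci_split (Fin.last n) hc]
  have h1 : ∀ r ∈ Set.Icc (0 : Fin n → ℝ) 1, (∫ s in (0 : ℝ)..1,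
      h (extR ((Fin.last n).insertNth s r : Fin (n + 1) → ℝ) n) *
        F (extR ((Fin.last n).insertNth s r : Fin (n + 1) → ℝ))) =
      (∫ t in (0 : ℝ)..1, h t) * F (extR r) := by
    intro r hr
    rw [← intervalIntegral.integral_mul_const]
    refine intervalIntegral.integral_congr fun s hs => ?_
    rw [Set.uIcc_of_le zero_le_one] at hs
    have e1 : extR ((Fin.last n).insertNth s r : Fin (n + 1) → ℝ) n = s := by
      unfold extR
      rw [dif_pos (Nat.lt_succ_self n)]
      have : (⟨n, Nat.lt_succ_self n⟩ : Fin (n + 1)) = Fin.last n := rfl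
      rw [this, Fin.insertNth_apply_same]
    have e2 : F (extR ((Fin.last n).insertNth s r : Fin (n + 1) → ℝ)) = F (extR r) := by
      refine hd _ (extR_mem_cube ((ci_mem _).2 ⟨hs, hr⟩)) _ (extR_mem_cube hr) fun j hj => ?_
      unfold extR
      rw [dif_pos (hj.trans (Nat.lt_succ_self n)), dif_pos hj]
      have : (⟨j, hj.trans (Nat.lt_succ_self n)⟩ : Fin (n + 1)) =
          (Fin.last n).succAbove ⟨j, hj⟩ := by
        rw [Fin.succAbove_last]
        rfl
      rw [this, Fin.insertNth_apply_succAbove]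
    show h (extR ((Fin.last n).insertNth s r : Fin (n + 1) → ℝ) n) *
      F (extR ((Fin.last n).insertNth s r : Fin (n + 1) → ℝ)) = h s * F (extR r)
    rw [e1, e2]
  rw [MeasureTheory.setIntegral_congr_fun measurableSet_Icc h1]
  exact MeasureTheory.integral_const_mul _ _

theorem integral_pi_fun : (∫ t in (0 : ℝ)..1, (4 : ℂ) / (1 + (t : ℂ) ^ 2)) = (Real.pi : ℂ) := by
  have h1 : ∀ t : ℝ, (4 : ℂ) / (1 + (t : ℂ) ^ 2) = ((4 * (1 + t ^ 2)⁻¹ : ℝ) : ℂ) := by
    intro t
    push_cast
    rw [div_eq_mul_inv]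
  simp only [h1]
  rw [intervalIntegral.integral_ofReal, intervalIntegral.integral_const_mul,
    integral_inv_one_add_sq, Real.arctan_one, Real.arctan_zero]
  congr 1
  ring

/-- more variables than necessary -/
theorem cubeInt_mono {n m : ℕ} (hnm : n ≤ m) {F : (ℕ → ℝ) → ℂ} (hF : ContinuousOn F Cube)
    (hd : DepLT n F) : cubeInt m F = cubeInt n F := by
  induction m, hnm using Nat.le_induction with
  | base => rfl
  | succ m hm ih =>
    have hd' : DepLT m F := fun x hx y hy h => hd x hx y hy fun i hi => h i (hi.trans_le hm)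
    have h1 := cubeInt_mul_last hF hd' (fun _ => 1) continuousOn_const
    simp only [one_mul, intervalIntegral.integral_const, sub_zero, one_smul] at h1
    rw [h1, ih]

private theorem ci_upd_cont (i : ℕ) (c : ℝ) :
    Continuous (fun x : ℕ → ℝ => Function.update x i c) :=
  continuous_id.update i continuous_const

private theorem ci_upd_mem {i : ℕ} {c : ℝ} (hc : c ∈ Set.Icc (0 : ℝ) 1) {x : ℕ → ℝ}
    (hx : x ∈ Cube) : Function.update x i c ∈ Cube := by
  intro j
  by_cases hj : j = i
  · subst hj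
    rw [Function.update_self]
    exact hc
  · rw [Function.update_of_ne hj]
    exact hx j

private theorem ci_elem_cont {i : ℕ} {G H : (ℕ → ℝ) → ℂ} (hG : ContinuousOn G Cube)
    (hH : ContinuousOn H Cube) : ContinuousOn
    (fun x => H x - G (Function.update x i 1) + G (Function.update x i 0)) Cube :=
  (hH.sub (hG.comp (ci_upd_cont i 1).continuousOn fun _ hx =>
    ci_upd_mem ⟨zero_le_one, le_rfl⟩ hx)).add
    (hG.comp (ci_upd_cont i 0).continuousOn fun _ hx => ci_upd_mem ⟨le_rfl, zero_le_one⟩ hx)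

/-- Fundamental theorem of calculus and Fubini: `i < n`, `G, H` continuous functions of `n`
coordinates, `H = ∂G/∂x_i`. -/
theorem cubeInt_stokes_elem {n i : ℕ} (hi : i < n) {G H : (ℕ → ℝ) → ℂ} (hG : ContinuousOn G Cube)
    (hH : ContinuousOn H Cube) (hGd : DepLT n G) (hHd : DepLT n H) (hP : PartialD i G H) :
    cubeInt n (fun x => H x - G (Function.update x i 1) + G (Function.update x i 0)) = 0 := by
  obtain ⟨n, rfl⟩ : ∃ m, n = m + 1 := ⟨n - 1, by omega⟩
  rw [ci_split ⟨i, hi⟩ (ci_elem_cont hG hH)]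
  have h1 : ∀ r ∈ Set.Icc (0 : Fin n → ℝ) 1, (∫ s in (0 : ℝ)..1,
      (H (extR ((⟨i, hi⟩ : Fin (n + 1)).insertNth s r : Fin (n + 1) → ℝ)) -
        G (Function.update (extR ((⟨i, hi⟩ : Fin (n + 1)).insertNth s r :
          Fin (n + 1) → ℝ)) i 1) +
        G (Function.update (extR ((⟨i, hi⟩ : Fin (n + 1)).insertNth s r :
          Fin (n + 1) → ℝ)) i 0))) = 0 := by
    intro r hr
    set X : ℝ → ℕ → ℝ := fun s => extR ((⟨i, hi⟩ : Fin (n + 1)).insertNth s r :
      Fin (n + 1) → ℝ) with hX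
    have hup : ∀ s t, Function.update (X s) i t = X t := fun s t => ci_update ⟨i, hi⟩ s t r
    have hXi : ∀ s, X s i = s := by
      intro s
      have h2 := congrFun (hup s s) i
      rw [Function.update_self] at h2
      exact h2.symm
    have hXc : Continuous X :=
      continuous_extR.comp ((ci_cont ⟨i, hi⟩).comp (Continuous.prodMk_left r))
    have hXm : ∀ s ∈ Set.Icc (0 : ℝ) 1, X s ∈ Cube := fun s hs =>
      extR_mem_cube ((ci_mem _).2 ⟨hs, hr⟩)
    have hGc : ContinuousOn (fun s => G (X s)) (Set.Icc 0 1) :=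
      hG.comp hXc.continuousOn hXm
    have hHc : ContinuousOn (fun s => H (X s)) (Set.Icc 0 1) :=
      hH.comp hXc.continuousOn hXm
    have hder : ∀ s ∈ Set.Ioo (0 : ℝ) 1, HasDerivAt (fun s => G (X s)) (H (X s)) s := by
      intro s hs
      have h2 := hP (X s) (hXm s (Set.Ioo_subset_Icc_self hs))
      rw [hXi] at h2
      have h3 : (fun t : ℝ => G (Function.update (X s) i t)) = fun t => G (X t) := by
        funext t
        rw [hup]
      rw [h3] at h2
      exact h2.hasDerivAt (Icc_mem_nhds hs.1 hs.2)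
    have hHi : IntervalIntegrable (fun s => H (X s)) MeasureTheory.volume 0 1 := by
      apply ContinuousOn.intervalIntegrable
      rwa [Set.uIcc_of_le zero_le_one]
    have h4 := intervalIntegral.integral_eq_sub_of_hasDerivAt_of_le zero_le_one hGc hder hHi
    show ∫ s in (0 : ℝ)..1, (H (X s) - G (Function.update (X s) i 1) +
      G (Function.update (X s) i 0)) = 0
    simp only [hup]
    rw [intervalIntegral.integral_add (hHi.sub intervalIntegrable_const) intervalIntegrable_const,
      intervalIntegral.integral_sub hHi intervalIntegrable_const, h4]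
    simp
  rw [MeasureTheory.setIntegral_congr_fun measurableSet_Icc h1]
  simp

/-- integration kills the Stokes span (choose a common number of variables `N ≥ n`, larger than all
directions, and use `cubeInt_mono` for `F`) -/
theorem cubeInt_stokesSpan {C : Set ((ℕ → ℝ) → ℂ)} (hC : ∀ G ∈ C, ContinuousOn G Cube)
    (hCd : ∀ G ∈ C, ∃ n, DepLT n G) {n : ℕ} {F : (ℕ → ℝ) → ℂ} (hF : F ∈ StokesSpan C)
    (hd : DepLT n F) : cubeInt n F = 0 := by
  obtain ⟨m, i, G, H, h1, h2⟩ := hF
  have hGc : ∀ l, ContinuousOn (G l) Cube := fun l => hC _ (h1 l).1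
  have hHc : ∀ l, ContinuousOn (H l) Cube := fun l => hC _ (h1 l).2.1
  choose a ha using fun l => hCd _ (h1 l).1
  choose b hb using fun l => hCd _ (h1 l).2.1
  set N := n + ∑ l, (i l + 1 + a l + b l) with hN
  have hle : ∀ l, i l + 1 + a l + b l ≤ ∑ l, (i l + 1 + a l + b l) := fun l =>
    Finset.single_le_sum (f := fun l => i l + 1 + a l + b l) (fun _ _ => Nat.zero_le _)
      (Finset.mem_univ l)
  have hFc : ContinuousOn F Cube := by
    refine ContinuousOn.congr ?_ h2
    exact continuousOn_finsetSum _ fun l _ => ci_elem_cont (hGc l) (hHc l)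
  rw [← cubeInt_mono (Nat.le_add_right n (∑ l, (i l + 1 + a l + b l))) hFc hd,
    cubeInt_congr h2]
  have h3 : cubeInt (n + ∑ l, (i l + 1 + a l + b l)) (fun x => ∑ l, (H l x -
      G l (Function.update x (i l) 1) + G l (Function.update x (i l) 0))) =
      ∑ l, cubeInt (n + ∑ l, (i l + 1 + a l + b l)) (fun x => H l x -
      G l (Function.update x (i l) 1) + G l (Function.update x (i l) 0)) :=
    MeasureTheory.integral_finsetSum _ fun l _ => ci_int (ci_elem_cont (hGc l) (hHc l))
  rw [h3]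
  refine Finset.sum_eq_zero fun l _ => ?_
  have h4 := hle l
  refine cubeInt_stokes_elem (by omega) (hGc l) (hHc l) ?_ ?_ (h1 l).2.2
  · exact fun x hx y hy h => ha l x hx y hy fun j hj => h j (by omega)
  · exact fun x hx y hy h => hb l x hx y hy fun j hj => h j (by omega)

end MP1eadae
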