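import Mathlib
import Pool.Agent.Lib_MP_1eadae_ag.Defs
import Pool.Agent.Lib_MP_1eadae_ag.Germ
import Pool.Agent.Lib_MP_1eadae_ag.TwoStep
import Pool.Agent.Lib_MP_1eadae_ag.Common

/-! # MP_1eadae_ag, piece DESCEND: change of the field of coefficients -/

namespace MP1eadaeL

open Complex Function Polynomial

theorem desc_evR_comp {R R' : Type} [CommRing R] [CommRing R'] {D : Type} [TopologicalSpace D]
    (φ' : R' →+* (D → ℂ)) (ι : R →+* R') (q : R[X]) (z : D) (y : ℂ) :
    evR (φ'.comp ι) q z y = evR φ' (q.map ι) z y := by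
  unfold evR
  rw [Polynomial.eval₂_map]
  rfl

theorem desc_phi {K L : Subfield ℂ} (hKL : K ≤ L) (n : ℕ) :
    (phi L n).comp (MvPolynomial.map (Subfield.inclusion hKL)) = phi K n := by
  refine RingHom.ext fun p => ?_
  funext z
  show MvPolynomial.aeval z.1 (MvPolynomial.map (Subfield.inclusion hKL) p) =
    MvPolynomial.aeval z.1 p
  rw [MvPolynomial.aeval_def, MvPolynomial.aeval_def, MvPolynomial.eval₂_map]
  rfl

/-- `T ↦ θ` and inclusion of the coefficients in `ℂ` -/
noncomputable def descPsi (K : Subfield ℂ) (n : ℕ) (θ : ℂ) :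
    (MvPolynomial (Fin n) K)[X] →+* MvPolynomial (Fin n) ℂ :=
  Polynomial.eval₂RingHom (MvPolynomial.map K.subtype) (MvPolynomial.C θ)

/-- evaluation at a point -/
noncomputable def descEv {n : ℕ} (z : CubeT n) : MvPolynomial (Fin n) ℂ →+* ℂ :=
  MvPolynomial.eval₂Hom (RingHom.id ℂ) z.1

theorem desc_ev_psi (K : Subfield ℂ) (n : ℕ) (θ : ℂ) (z : CubeT n) :
    Polynomial.eval₂RingHom ((Pi.evalRingHom (fun _ : CubeT n => ℂ) z).comp (phi K n)) θ =
      (descEv z).comp (descPsi K n θ) := by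
  refine Polynomial.ringHom_ext ?_ ?_
  · intro p
    show Polynomial.eval₂ _ θ (Polynomial.C p) = descEv z (Polynomial.eval₂ _ _ (Polynomial.C p))
    rw [Polynomial.eval₂_C, Polynomial.eval₂_C]
    show MvPolynomial.aeval z.1 p = MvPolynomial.eval₂ (RingHom.id ℂ) z.1
      (MvPolynomial.map K.subtype p)
    rw [MvPolynomial.aeval_def, MvPolynomial.eval₂_map]
    rfl
  · show Polynomial.eval₂ _ θ Polynomial.X = descEv z (Polynomial.eval₂ _ _ Polynomial.X)
    rw [Polynomial.eval₂_X, Polynomial.eval₂_X]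
    show θ = MvPolynomial.eval₂ (RingHom.id ℂ) z.1 (MvPolynomial.C θ)
    rw [MvPolynomial.eval₂_C]
    rfl

theorem desc_ev_L (L : Subfield ℂ) (n : ℕ) (z : CubeT n) :
    (Pi.evalRingHom (fun _ : CubeT n => ℂ) z).comp (phi L n) =
      (descEv z).comp (MvPolynomial.map L.subtype) := by
  refine RingHom.ext fun p => ?_
  show MvPolynomial.aeval z.1 p = MvPolynomial.eval₂ (RingHom.id ℂ) z.1
    (MvPolynomial.map L.subtype p)
  rw [MvPolynomial.aeval_def, MvPolynomial.eval₂_map]
  rfl

theorem desc_evRR {K L : Subfield ℂ} {n : ℕ} {θ : ℂ} {q : (MvPolynomial (Fin n) L)[X]}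
    {q' : (MvPolynomial (Fin n) K)[X][X]}
    (h : q'.map (descPsi K n θ) = q.map (MvPolynomial.map L.subtype)) (z : CubeT n) (y : ℂ) :
    evRR (phi K n) q' z θ y = evR (phi L n) q z y := by
  unfold evRR evR
  rw [desc_ev_psi, desc_ev_L, ← Polynomial.eval₂_map, ← Polynomial.eval₂_map, h]

/-- the lift of a polynomial -/
theorem desc_lift {K L : Subfield ℂ} {n : ℕ} {θ : ℂ} (q : (MvPolynomial (Fin n) L)[X])
    (h : ∀ k m, ((MvPolynomial.coeff m (q.coeff k) : L) : ℂ) ∈ Algebra.adjoin K {θ}) :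
    ∃ q' : (MvPolynomial (Fin n) K)[X][X],
      q'.map (descPsi K n θ) = q.map (MvPolynomial.map L.subtype) := by
  have hC : ∀ c ∈ Algebra.adjoin K {θ}, (MvPolynomial.C c : MvPolynomial (Fin n) ℂ) ∈
      (descPsi K n θ).rangeS := by
    intro c hc
    rw [Algebra.adjoin_singleton_eq_range_aeval] at hc
    obtain ⟨p, rfl⟩ := hc
    refine ⟨p.map MvPolynomial.C, ?_⟩
    show Polynomial.eval₂ (MvPolynomial.map K.subtype) (MvPolynomial.C θ)
      (p.map MvPolynomial.C) = MvPolynomial.C (Polynomial.aeval θ p)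
    rw [Polynomial.eval₂_map, Polynomial.aeval_def, Polynomial.hom_eval₂]
    congr 1
    refine RingHom.ext fun x => ?_
    show MvPolynomial.map K.subtype (MvPolynomial.C x) = MvPolynomial.C _
    rw [MvPolynomial.map_C]
    rfl
  have hX : ∀ i, (MvPolynomial.X i : MvPolynomial (Fin n) ℂ) ∈ (descPsi K n θ).rangeS := by
    intro i
    refine ⟨Polynomial.C (MvPolynomial.X i), ?_⟩
    show Polynomial.eval₂ (MvPolynomial.map K.subtype) (MvPolynomial.C θ)
      (Polynomial.C (MvPolynomial.X i)) = _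
    rw [Polynomial.eval₂_C, MvPolynomial.map_X]
  have h1 : q.map (MvPolynomial.map L.subtype) ∈ Polynomial.lifts (descPsi K n θ) := by
    rw [Polynomial.lifts_iff_coeff_lifts]
    intro k
    rw [Polynomial.coeff_map]
    show MvPolynomial.map L.subtype (q.coeff k) ∈ (descPsi K n θ).rangeS
    rw [MvPolynomial.as_sum (MvPolynomial.map L.subtype (q.coeff k))]
    refine sum_mem fun m _ => ?_
    rw [MvPolynomial.coeff_map, MvPolynomial.monomial_eq]
    refine mul_mem (hC _ (h k m)) ?_
    refine prod_mem fun i _ => ?_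
    exact pow_mem (hX i) _
  exact (Polynomial.mem_lifts _).1 h1

theorem desc_const {K : Subfield ℂ} {n : ℕ} {θ : ℂ} (hθ : IsAlgebraic K θ) (z0 : CubeT n) :
    SR (phi K n) z0 (fun _ => θ) := by
  have hint : IsIntegral K θ := hθ.isIntegral
  have h0 : Polynomial.aeval θ (minpoly K θ) = 0 := minpoly.aeval K θ
  have hsep : (minpoly K θ).Separable := (minpoly.irreducible hint).separable
  have h1 : Polynomial.aeval θ (Polynomial.derivative (minpoly K θ)) ≠ 0 :=
    hsep.aeval_derivative_ne_zero h0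
  have hev : ∀ (p : K[X]) (z : CubeT n),
      evR (phi K n) (p.map MvPolynomial.C) z θ = Polynomial.aeval θ p := by
    intro p z
    unfold evR
    rw [Polynomial.eval₂_map, Polynomial.aeval_def]
    congr 1
    refine RingHom.ext fun x => ?_
    show MvPolynomial.aeval z.1 (MvPolynomial.C x) = _
    rw [MvPolynomial.aeval_C]
  refine ⟨(minpoly K θ).map MvPolynomial.C, Filter.Eventually.of_forall fun z => ?_⟩
  refine ⟨continuousAt_const, ?_, ?_⟩
  · rw [hev, h0]
  · rw [Polynomial.derivative_map, hev]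
    exact h1

/-- a primitive element for finitely many algebraic numbers -/
theorem desc_prim {K L : Subfield ℂ} (halg : ∀ x ∈ L, IsAlgebraic K x) (S : Set ℂ)
    (hS : S.Finite) (hSL : S ⊆ L) :
    ∃ θ : ℂ, IsAlgebraic K θ ∧ ∀ c ∈ S, c ∈ Algebra.adjoin K {θ} := by
  have hfin : FiniteDimensional K (IntermediateField.adjoin K S) := by
    haveI : Finite S := hS
    refine IntermediateField.finiteDimensional_adjoin fun x hx => ?_
    exact (halg x (hSL hx)).isIntegral
  obtain ⟨α, hα⟩ := Field.exists_primitive_element K (IntermediateField.adjoin K S)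
  have hαalg : IsAlgebraic K α := Algebra.IsAlgebraic.isAlgebraic α
  have hθ : IsAlgebraic K (α : ℂ) := by
    obtain ⟨p, hp, h⟩ := hαalg
    refine ⟨p, hp, ?_⟩
    have h2 := congrArg (IntermediateField.adjoin K S).val h
    rw [map_zero, ← Polynomial.aeval_algHom_apply] at h2
    exact h2
  refine ⟨(α : ℂ), hθ, fun c hc => ?_⟩
  have hcE : c ∈ IntermediateField.adjoin K S := IntermediateField.subset_adjoin K S hc
  have h1 : (⟨c, hcE⟩ : IntermediateField.adjoin K S) ∈ IntermediateField.adjoin K {α} := by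
    rw [hα]
    exact IntermediateField.mem_top
  have h2 : (⟨c, hcE⟩ : IntermediateField.adjoin K S) ∈ Algebra.adjoin K {α} := by
    have h3 := IntermediateField.adjoin_simple_toSubalgebra_of_isAlgebraic hαalg
    rw [← h3]
    exact h1
  rw [Algebra.adjoin_singleton_eq_range_aeval] at h2 ⊢
  obtain ⟨p, hp⟩ := h2
  refine ⟨p, ?_⟩
  have h4 := congrArg (IntermediateField.adjoin K S).val hp
  have h5 : (IntermediateField.adjoin K S).val ((Polynomial.aeval α) p) =
      Polynomial.aeval (α : ℂ) p := by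
    rw [← Polynomial.aeval_algHom_apply]
    rfl
  show Polynomial.aeval (α : ℂ) p = c
  rw [← h5]
  exact h4

theorem desc_coeffs {L : Subfield ℂ} {n : ℕ} (q : (MvPolynomial (Fin n) L)[X]) :
    {c : ℂ | ∃ k m, c = ((MvPolynomial.coeff m (q.coeff k) : L) : ℂ)}.Finite := by
  have h1 : {c : ℂ | ∃ k m, c = ((MvPolynomial.coeff m (q.coeff k) : L) : ℂ)} ⊆
      insert 0 (⋃ k ∈ q.support, ⋃ m ∈ (q.coeff k).support,
        {((MvPolynomial.coeff m (q.coeff k) : L) : ℂ)}) := by
    rintro c ⟨k, m, rfl⟩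
    by_cases hk : k ∈ q.support
    · by_cases hm : m ∈ (q.coeff k).support
      · refine Set.mem_insert_of_mem _ ?_
        simp only [Set.mem_iUnion]
        exact ⟨k, hk, m, hm, rfl⟩
      · rw [MvPolynomial.notMem_support_iff.1 hm]
        exact Set.mem_insert _ _
    · rw [Polynomial.notMem_support_iff.1 hk, MvPolynomial.coeff_zero]
      exact Set.mem_insert _ _
  refine Set.Finite.subset (Set.Finite.insert _ ?_) h1
  refine Set.Finite.biUnion (Finset.finite_toSet _) fun k _ => ?_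
  exact Set.Finite.biUnion (Finset.finite_toSet _) fun m _ => Set.finite_singleton _

/-- Reduction of the field of coefficients.  `L` algebraic over `K`.  Proof: let `w` be a simple root of
`q` over `L`, `f = A(w)/B(w)`.  The finitely many coefficients (in `L`) of `q, A, B` lie in `K(θ)` for
one `θ ∈ L` (primitive element theorem, characteristic `0`), so they are polynomials in `θ` over `K`:
`q = q^(θ)`, etc., with `q^, A^, B^ ∈ (MvPolynomial (Fin n) K)[T][X]`.  The constant function `θ` is a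
simple root of the minimal polynomial of `θ` over `K` (separable).  `twoStep` with `w1 = θ`, `w2 = w`
gives `w'` with `InE w' θ`, `InE w' w`; then `f = A^(θ,w)/B^(θ,w)` and `InE.evRR`, `InE.div`. -/
theorem LocPres.descend {K L : Subfield ℂ} (hKL : K ≤ L) (halg : ∀ x ∈ L, IsAlgebraic K x) {n : ℕ}
    {f : CubeT n → ℂ} {z0 : CubeT n} (h : LocPres L n f z0) : LocPres K n f z0 := by
  obtain ⟨w, ⟨q, hq⟩, A, B, hAB⟩ := h
  obtain ⟨θ, hθ, hmem⟩ := desc_prim (K := K) (L := L) halg
    ({c : ℂ | ∃ k m, c = ((MvPolynomial.coeff m (q.coeff k) : L) : ℂ)} ∪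
      ({c : ℂ | ∃ k m, c = ((MvPolynomial.coeff m (A.coeff k) : L) : ℂ)} ∪
      {c : ℂ | ∃ k m, c = ((MvPolynomial.coeff m (B.coeff k) : L) : ℂ)}))
    ((desc_coeffs q).union ((desc_coeffs A).union (desc_coeffs B)))
    (by
      rintro c (⟨k, m, rfl⟩ | ⟨k, m, rfl⟩ | ⟨k, m, rfl⟩) <;> exact Subtype.property _)
  obtain ⟨q', hq'⟩ := desc_lift (K := K) (θ := θ) q
    (fun k m => hmem _ (Or.inl ⟨k, m, rfl⟩))
  obtain ⟨A', hA'⟩ := desc_lift (K := K) (θ := θ) A
    (fun k m => hmem _ (Or.inr (Or.inl ⟨k, m, rfl⟩)))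
  obtain ⟨B', hB'⟩ := desc_lift (K := K) (θ := θ) B
    (fun k m => hmem _ (Or.inr (Or.inr ⟨k, m, rfl⟩)))
  have hdq : (Polynomial.derivative q').map (descPsi K n θ) =
      (Polynomial.derivative q).map (MvPolynomial.map L.subtype) := by
    rw [← Polynomial.derivative_map, hq', Polynomial.derivative_map]
  have hφ : ∀ r, Continuous (phi K n r) := continuous_phi K n
  obtain ⟨w', hw', h1, h2⟩ := twoStep hφ (desc_const (K := K) (n := n) hθ z0) q'
    (w2 := w) (by
      filter_upwards [hq] with z hz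
      refine ⟨hz.1, ?_, ?_⟩
      · rw [desc_evRR hq']
        exact hz.2.1
      · rw [desc_evRR hdq]
        exact hz.2.2)
  refine ⟨w', hw', ?_⟩
  have hA2 := InE.evRR A' h1 h2
  have hB2 := InE.evRR B' h1 h2
  have h3 : ∀ᶠ z in nhds z0, MP1eadaeL.evRR (phi K n) B' z θ (w z) ≠ 0 := by
    filter_upwards [hAB] with z hz
    rw [desc_evRR hB']
    exact hz.1
  refine (InE.div hA2 hB2 h3).congr ?_
  filter_upwards [hAB] with z hz
  show MP1eadaeL.evRR (phi K n) A' z θ (w z) / MP1eadaeL.evRR (phi K n) B' z θ (w z) = f z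
  rw [desc_evRR hA', desc_evRR hB', hz.2]

theorem LocPres.ascend {K L : Subfield ℂ} (hKL : K ≤ L) {n : ℕ}
    {f : CubeT n → ℂ} {z0 : CubeT n} (h : LocPres K n f z0) : LocPres L n f z0 := by
  obtain ⟨w, ⟨q, hq⟩, A, B, hAB⟩ := h
  have hev : ∀ (q : (MvPolynomial (Fin n) K)[X]) (z : CubeT n) (y : ℂ),
      evR (phi L n) (q.map (MvPolynomial.map (Subfield.inclusion hKL))) z y =
        evR (phi K n) q z y := by
    intro q z y
    rw [← desc_evR_comp, desc_phi hKL]
  refine ⟨w, ⟨q.map (MvPolynomial.map (Subfield.inclusion hKL)), ?_⟩,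
    A.map (MvPolynomial.map (Subfield.inclusion hKL)),
    B.map (MvPolynomial.map (Subfield.inclusion hKL)), ?_⟩
  · filter_upwards [hq] with z hz
    rw [Polynomial.derivative_map, hev, hev]
    exact hz
  · filter_upwards [hAB] with z hz
    rw [hev, hev]
    exact hz

end MP1eadaeL
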