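import Mathlib
import Pool.Agent.Lib_MP_1eadae_ag.Defs
import Pool.Agent.Lib_MP_1eadae_ag.TwoSort

/-! # MP_1eadae_ag, piece LEMC: divisibility by the equation of a root -/

namespace MP1eadaeL

open Complex Function

theorem lc_seg_infinite : seg.Infinite := by
  unfold seg
  exact (Set.Icc_infinite (zero_lt_one : (0 : ℝ) < 1)).image
    (fun a _ b _ h => Complex.ofReal_injective h)

theorem lc_preconnected (n : ℕ) : PreconnectedSpace (CubeT n) := by
  have h1 : IsPreconnected seg := by
    unfold seg
    exact isPreconnected_Icc.image _ Complex.continuous_ofReal.continuousOn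
  have h2 : IsPreconnected {z : Fin n → ℂ | ∀ i, z i ∈ seg} := by
    have h3 : {z : Fin n → ℂ | ∀ i, z i ∈ seg} = Set.pi Set.univ (fun _ => seg) := by
      ext z
      simp [Set.mem_pi]
    rw [h3]
    exact isPreconnected_univ_pi (fun _ => h1)
  exact isPreconnected_iff_preconnectedSpace.1 h2

open Polynomial in
/-- Gauss lemma: an irreducible polynomial of positive degree divides `A`, or a nonzero constant
is a combination of the two -/
theorem lc_gauss {R k : Type*} [CommRing R] [IsDomain R] [UniqueFactorizationMonoid R]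
    [Field k] [Algebra R k] [IsFractionRing R k] (M A : R[X]) (hirr : Irreducible M)
    (hdeg : M.natDegree ≠ 0) :
    M ∣ A ∨ ∃ d : R, d ≠ 0 ∧ ∃ a b : R[X], C d = a * M + b * A := by
  have hprim : M.IsPrimitive := hirr.isPrimitive hdeg
  have hirrk : Irreducible (M.map (algebraMap R k)) :=
    hprim.irreducible_iff_irreducible_map_fraction_map.1 hirr
  have hinj := Polynomial.map_injective (algebraMap R k) (IsFractionRing.injective R k)
  by_cases hd : M.map (algebraMap R k) ∣ A.map (algebraMap R k)
  · left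
    obtain ⟨B', hB'⟩ := hd
    obtain ⟨b, hb1, hb⟩ := IsLocalization.integerNormalization_spec (nonZeroDivisors R) B'
    have h2 : C b * A = M * IsLocalization.integerNormalization (nonZeroDivisors R) B' := by
      apply hinj
      rw [Polynomial.map_mul, Polynomial.map_mul, hb, hB', Polynomial.map_C]
      rw [Algebra.smul_def, Polynomial.algebraMap_apply]
      ring
    have hp : Prime M := hirr.prime
    rcases hp.dvd_or_dvd (Dvd.intro _ h2.symm) with h3 | h3
    · exfalso
      have hb0 : b ≠ 0 := nonZeroDivisors.ne_zero hb1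
      have h4 := Polynomial.natDegree_le_of_dvd h3 (Polynomial.C_ne_zero.2 hb0)
      rw [Polynomial.natDegree_C] at h4
      exact hdeg (Nat.le_zero.1 h4)
    · exact h3
  · right
    obtain ⟨a, b, hab⟩ := (hirrk.coprime_iff_not_dvd).2 hd
    obtain ⟨da, hda1, hda⟩ := IsLocalization.integerNormalization_spec (nonZeroDivisors R) a
    obtain ⟨db, hdb1, hdb⟩ := IsLocalization.integerNormalization_spec (nonZeroDivisors R) b
    refine ⟨da * db, mul_ne_zero (nonZeroDivisors.ne_zero hda1) (nonZeroDivisors.ne_zero hdb1),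
      C db * IsLocalization.integerNormalization (nonZeroDivisors R) a,
      C da * IsLocalization.integerNormalization (nonZeroDivisors R) b, ?_⟩
    apply hinj
    rw [Polynomial.map_add, Polynomial.map_mul, Polynomial.map_mul, Polynomial.map_mul,
      Polynomial.map_mul, hda, hdb, Polynomial.map_C, Polynomial.map_C, Polynomial.map_C,
      map_mul, Polynomial.C_mul]
    rw [Algebra.smul_def, Polynomial.algebraMap_apply, Algebra.smul_def,
      Polynomial.algebraMap_apply]
    linear_combination (-(C (algebraMap R k da) * C (algebraMap R k db))) * hab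

/-- a polynomial vanishing on the cube is zero -/
theorem lc_zero {K : Subfield ℂ} {n : ℕ} (d : MvPolynomial (Fin n) K)
    (h : ∀ z : CubeT n, (MvPolynomial.aeval z.1 d : ℂ) = 0) : d = 0 := by
  have h1 : MvPolynomial.map (algebraMap K ℂ) d = 0 := by
    refine MvPolynomial.funext_set (fun _ : Fin n => seg) (fun _ => lc_seg_infinite) ?_
    intro x hx
    have h2 := h ⟨x, fun i => hx i (Set.mem_univ i)⟩
    rw [map_zero, MvPolynomial.eval_map]
    exact h2
  have h3 := MvPolynomial.map_injective (σ := Fin n) (algebraMap K ℂ) (algebraMap K ℂ).injective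
  exact h3 (by rw [h1, map_zero])

theorem lc_ev2_add {K : Subfield ℂ} {n : ℕ} (P Q : Polynomial (MvPolynomial (Fin n) K))
    (z : Fin n → ℂ) (y : ℂ) : ev2 (P + Q) z y = ev2 P z y + ev2 Q z y :=
  Polynomial.eval₂_add _ _

theorem lc_ev2_C {K : Subfield ℂ} {n : ℕ} (d : MvPolynomial (Fin n) K)
    (z : Fin n → ℂ) (y : ℂ) : ev2 (Polynomial.C d) z y = MvPolynomial.aeval z d :=
  Polynomial.eval₂_C _ _

theorem lc_ev2_der_mul {K : Subfield ℂ} {n : ℕ} (P Q : Polynomial (MvPolynomial (Fin n) K))
    (z : Fin n → ℂ) (y : ℂ) : ev2 (Polynomial.derivative (P * Q)) z y =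
      ev2 (Polynomial.derivative P) z y * ev2 Q z y + ev2 P z y * ev2 (Polynomial.derivative Q) z y := by
  rw [Polynomial.derivative_mul, lc_ev2_add, ev2_mul, ev2_mul]

/-- Piece LEMC.  `η` a continuous function on the cube such that `y = η z` is the only zero in `B` of
`N(z, ·)` and is a simple zero; `A(z, η z) = 0` for all `z`.  Then `U A = N A'` for polynomials
`U, A'` with `U` nowhere zero on `cube × B`.

Proof.  The ring `𝓡 = (MvPolynomial (Fin n) K)[X]` is a UFD.  `N ≠ 0` (its derivative does not vanish at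
`(z, η z)`).  Factor `N = unit · N_1 ⋯ N_m` into irreducibles.  For every `z` exactly one factor vanishes
at `(z, η z)` (product rule: two vanishing factors would give `N'(z, η z) = 0`).  The sets
`{z | N_k(z, η z) = 0}` are closed, pairwise disjoint and cover the cube, which is connected
(convex): so there is one `k` with `N_k(z, η z) = 0` for all `z` and `N_j(z, η z) ≠ 0` for all `z` and
`j ≠ k`.  Let `U` be the product of the other factors (and the unit): `N = N_k U`.  If `U(z,y) = 0` with
`y ∈ B` then `N(z,y) = 0`, so `y = η z`, contradiction; so `U ≠ 0` on `cube × B`.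
It remains to see `N_k ∣ A`, `A = N_k A'`; then `U A = N A'`.  `N_k` has positive degree in `X`: otherwise
`N_k ∈ MvPolynomial (Fin n) K` vanishes on the cube, so it is `0`.  So `N_k` is primitive and
irreducible over the fraction field `k = FractionRing (MvPolynomial (Fin n) K)` (Gauss,
`Polynomial.IsPrimitive.irreducible_iff_irreducible_map_fraction_map` or
`IsPrimitive.Int`-analogues).  If `N_k ∤ A` in `k[X]`, then `a N_k + b A = 1` in `k[X]`; clear
denominators: `a' N_k + b' A = d ≠ 0` in `MvPolynomial (Fin n) K`; evaluating at `(z, η z)`: `d(z) = 0` on the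
cube, so `d = 0` (a polynomial vanishing on the product of infinite sets is zero,
`MvPolynomial.funext_set`-type lemma), contradiction.  So `N_k ∣ A` in `k[X]`, hence in `𝓡` (Gauss lemma for
a primitive divisor, `Polynomial.IsPrimitive.dvd_of_fraction_map_dvd_fraction_map`, applied to
`A` after dividing by its content, or directly). -/
theorem lemC {K : Subfield ℂ} {n : ℕ} (B : Set ℂ) (N A : Polynomial (MvPolynomial (Fin n) K))
    (η : CubeT n → ℂ) (hη : Continuous η) (hηB : ∀ z, η z ∈ B)
    (h0 : ∀ z : CubeT n, ev2 N z.1 (η z) = 0)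
    (h1 : ∀ z : CubeT n, ev2 (Polynomial.derivative N) z.1 (η z) ≠ 0)
    (huniq : ∀ z : CubeT n, ∀ y ∈ B, ev2 N z.1 y = 0 → y = η z)
    (hA : ∀ z : CubeT n, ev2 A z.1 (η z) = 0) :
    ∃ U A' : Polynomial (MvPolynomial (Fin n) K),
      (∀ z : CubeT n, ∀ y ∈ B, ev2 U z.1 y ≠ 0) ∧ U * A = N * A' := by
  classical
  have hcont : ∀ P : Polynomial (MvPolynomial (Fin n) K),
      Continuous (fun z : CubeT n => ev2 P z.1 (η z)) := fun P =>
    Continuous.comp (g := fun p : (Fin n → ℂ) × ℂ => ev2 P p.1 p.2)
      (f := fun z : CubeT n => ((z.1, η z) : (Fin n → ℂ) × ℂ)) (continuous_ev2 P)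
      (continuous_subtype_val.prodMk hη)
  have : PreconnectedSpace (CubeT n) := lc_preconnected n
  have z0 : CubeT n := prj n 0
  set S : Set (Polynomial (MvPolynomial (Fin n) K)) :=
    {M | M ∣ N ∧ ∀ z : CubeT n, ev2 M z.1 (η z) = 0} with hSdef
  have hS : S.Nonempty := ⟨N, dvd_rfl, h0⟩
  obtain ⟨M, ⟨⟨U, hU⟩, hM0⟩, hmin⟩ :=
    (wellFounded_dvdNotUnit (α := Polynomial (MvPolynomial (Fin n) K))).has_min S hS
  have hder : ∀ z : CubeT n, ev2 (Polynomial.derivative M) z.1 (η z) * ev2 U z.1 (η z) ≠ 0 := by
    intro z h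
    apply h1 z
    rw [hU, lc_ev2_der_mul, h, hM0, zero_mul, add_zero]
  have hMN : M ∣ N := ⟨U, hU⟩
  have hnu : ¬ IsUnit M := by
    intro h
    obtain ⟨V, hV⟩ := h.exists_right_inv
    have h2 : ev2 (M * V) z0.1 (η z0) = 0 := by rw [ev2_mul, hM0, zero_mul]
    rw [hV] at h2
    have h3 : ev2 (1 : Polynomial (MvPolynomial (Fin n) K)) z0.1 (η z0) = 1 :=
      Polynomial.eval₂_one _ _
    rw [h3] at h2
    exact one_ne_zero h2
  have hne0 : ∀ a b : Polynomial (MvPolynomial (Fin n) K), M = a * b → a ≠ 0 := by
    intro a b hab ha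
    apply hder z0
    rw [hab, ha, zero_mul, Polynomial.derivative_zero]
    have h3 : ev2 (0 : Polynomial (MvPolynomial (Fin n) K)) z0.1 (η z0) = 0 :=
      Polynomial.eval₂_zero _ _
    rw [h3, zero_mul]
  -- if `a` vanishes on the graph then `b` is a unit
  have hstep : ∀ a b : Polynomial (MvPolynomial (Fin n) K), M = a * b →
      (∀ z : CubeT n, ev2 a z.1 (η z) = 0) → IsUnit b := by
    intro a b hab ha
    by_contra hb
    exact hmin a ⟨(Dvd.intro _ hab.symm).trans hMN, ha⟩ ⟨hne0 a b hab, b, hb, hab⟩
  have hirr : Irreducible M := by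
    refine ⟨hnu, fun a b hab => ?_⟩
    have hx : ∀ z : CubeT n, ev2 a z.1 (η z) = 0 ∨ ev2 b z.1 (η z) = 0 := by
      intro z
      have h2 := hM0 z
      rw [hab, ev2_mul] at h2
      exact mul_eq_zero.1 h2
    have hy : ∀ z : CubeT n, ev2 a z.1 (η z) = 0 → ev2 b z.1 (η z) ≠ 0 := by
      intro z h2 h3
      apply hder z
      rw [hab, lc_ev2_der_mul, h2, h3, mul_zero, zero_mul, add_zero, zero_mul]
    have hclosed : ∀ P : Polynomial (MvPolynomial (Fin n) K),
        IsClosed {z : CubeT n | ev2 P z.1 (η z) = 0} := fun P =>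
      isClosed_eq (hcont P) continuous_const
    have hcompl : {z : CubeT n | ev2 a z.1 (η z) = 0}ᶜ = {z : CubeT n | ev2 b z.1 (η z) = 0} := by
      ext z
      constructor
      · intro h2
        exact (hx z).resolve_left h2
      · intro h2 h3
        exact hy z h3 h2
    have hclopen : IsClopen {z : CubeT n | ev2 a z.1 (η z) = 0} := by
      refine ⟨hclosed a, ?_⟩
      rw [← isClosed_compl_iff, hcompl]
      exact hclosed b
    rcases isClopen_iff.1 hclopen with h2 | h2
    · left
      refine hstep b a (by rw [hab, mul_comm]) fun z => (hx z).resolve_left fun h3 => ?_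
      have h4 : z ∈ {z : CubeT n | ev2 a z.1 (η z) = 0} := h3
      rw [h2] at h4
      exact h4
    · right
      refine hstep a b hab fun z => ?_
      have h4 : z ∈ {z : CubeT n | ev2 a z.1 (η z) = 0} := by
        rw [h2]
        exact Set.mem_univ z
      exact h4
  have hdeg : M.natDegree ≠ 0 := by
    intro h
    have h2 := Polynomial.eq_C_of_natDegree_eq_zero h
    have h3 : M.coeff 0 = 0 := by
      refine lc_zero _ fun z => ?_
      have h4 := hM0 z
      rw [h2, lc_ev2_C] at h4
      exact h4
    rw [h3, map_zero] at h2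
    exact hirr.ne_zero h2
  have hdvd : M ∣ A := by
    rcases lc_gauss (k := FractionRing (MvPolynomial (Fin n) K)) M A hirr hdeg with h | h
    · exact h
    · exfalso
      obtain ⟨d, hd0, a, b, hab⟩ := h
      apply hd0
      refine lc_zero _ fun z => ?_
      rw [← lc_ev2_C _ z.1 (η z), hab, lc_ev2_add, ev2_mul, ev2_mul, hM0, hA,
        mul_zero, mul_zero, add_zero]
  obtain ⟨A', hA'⟩ := hdvd
  refine ⟨U, A', fun z y hy h => ?_, ?_⟩
  · have h2 : ev2 N z.1 y = 0 := by rw [hU, ev2_mul, h, mul_zero]
    have h3 := huniq z y hy h2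
    subst h3
    apply hder z
    rw [h, mul_zero]
  · rw [hU, hA']
    ring

end MP1eadaeL
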