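import Mathlib
import Pool.Agent.Lib_MP_1eadae_ag.Defs
import Pool.Agent.Lib_MP_1eadae_ag.RatA
import Pool.Agent.Lib_MP_1eadae_ag.RatB
import Pool.Agent.Lib_MP_1eadae_ag.RatC
import Pool.Agent.Lib_MP_1eadae_ag.Ctr
import Pool.Agent.Lib_MP_1eadae_ag.Stk
import Pool.Agent.Lib_MP_1eadae_ag.Pen
import Pool.Agent.Lib_MP_1eadae_ag.Root
import Pool.Agent.Lib_MP_1eadae_ag.TwoSort
import Pool.Agent.Lib_MP_1eadae_ag.LemC

/-! # MP_1eadae_ag, piece DIVIDES: a rational function vanishing at the root of a pencil -/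

namespace MP1eadaeL

open Complex Function

/-- Piece DIVIDES.  `F` rational on cube x disc vanishing where `Q` vanishes is `Q h`, `h` rational.
Proof: `IsRat.twoSorted` for `Q = N/D` and `F = A/D'`; root function `η` of the pencil
(`Pencil.exists_root`), restricted to `CubeT n` by `ext` (continuous); `N(z, η) = 0`,
`∂_y N (z, η) = D · Qy ≠ 0` (`Pencil.Qy_ne`; differentiate `N = Q D`), unique zero in the disc.  `lemC` gives
`U A = N A'` with `U ≠ 0` on cube x disc, so `F = A/D' = N A'/(U D') = Q · (D A'/(U D'))`, and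
`h = D A'/(U D')` evaluated at `(rst n z, z q)`. -/
theorem Pencil.divides {K : Subfield ℂ} {n q : ℕ} (hq : n ≤ q) {Q Qy F : Pt → ℂ} {c : ℂ} {r : ℚ}
    (P : Pencil K X0 q Q Qy c r)
    (hQ : DepOn (update X0 q (disc c r)) (insert q (Set.Iio n)) Q)
    (hF : IsRat K (update X0 q (disc c r)) F)
    (hFd : DepOn (update X0 q (disc c r)) (insert q (Set.Iio n)) F)
    (h0 : ∀ z ∈ Dom (update X0 q (disc c r)), Q z = 0 → F z = 0) :
    ∃ h : Pt → ℂ, IsRat K (update X0 q (disc c r)) h ∧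
      DepOn (update X0 q (disc c r)) (insert q (Set.Iio n)) h ∧
      ∀ z ∈ Dom (update X0 q (disc c r)), F z = Q z * h z := by
  obtain ⟨N, D, hN⟩ := P.ratQ.twoSorted hq hQ
  obtain ⟨A, D', hA⟩ := hF.twoSorted hq hFd
  obtain ⟨η0, hη1, hηc, -, -, -⟩ := P.exists_root rfl
  have hpt : ∀ (z : CubeT n) (y : ℂ), y ∈ disc c r →
      update (ext z) q y ∈ Dom (update X0 q (disc c r)) := fun z y hy =>
    update_mem_dom (ext_mem_dom z) hy
  have hrst : ∀ (z : CubeT n) (y : ℂ), rst n (update (ext z) q y) = z.1 := by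
    intro z y
    rw [← rst_ext z]
    funext i
    unfold rst
    exact update_of_ne (by have := i.2; omega) _ _
  have hQN : ∀ (z : CubeT n) (y : ℂ), y ∈ disc c r → ev2 D z.1 y ≠ 0 ∧
      Q (update (ext z) q y) = ev2 N z.1 y / ev2 D z.1 y := by
    intro z y hy
    have h := hN _ (hpt z y hy)
    rw [hrst, update_self] at h
    exact h
  have hFA : ∀ (z : CubeT n) (y : ℂ), y ∈ disc c r → ev2 D' z.1 y ≠ 0 ∧
      F (update (ext z) q y) = ev2 A z.1 y / ev2 D' z.1 y := by
    intro z y hy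
    have h := hA _ (hpt z y hy)
    rw [hrst, update_self] at h
    exact h
  have hηd : ∀ z : CubeT n, η0 (ext z) ∈ disc c r := fun z => (hη1 _ (ext_mem_dom z)).1
  have hη0 : ∀ z : CubeT n, Q (update (ext z) q (η0 (ext z))) = 0 :=
    fun z => (hη1 _ (ext_mem_dom z)).2.2.1
  have hηN : ∀ z : CubeT n, ev2 N z.1 (η0 (ext z)) = 0 := by
    intro z
    obtain ⟨h1, h2⟩ := hQN z _ (hηd z)
    rw [hη0 z] at h2
    exact (div_eq_zero_iff.1 h2.symm).resolve_right h1
  have hηcont : Continuous (fun z : CubeT n => η0 (ext z)) :=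
    hηc.comp_continuous continuous_ext fun z => ext_mem_dom z
  have hηN' : ∀ z : CubeT n, ev2 (Polynomial.derivative N) z.1 (η0 (ext z)) ≠ 0 := by
    intro z
    have hmem := hpt z _ (hηd z)
    have hp := P.part _ hmem
    rw [update_self, update_self] at hp
    simp only [update_idem] at hp
    have h1 : HasDerivWithinAt (fun w => Q (update (ext z) q w) * ev2 D z.1 w)
        (Qy (update (ext z) q (η0 (ext z))) * ev2 D z.1 (η0 (ext z)) +
          Q (update (ext z) q (η0 (ext z))) * ev2 (Polynomial.derivative D) z.1 (η0 (ext z)))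
        (disc c r) (η0 (ext z)) :=
      hp.mul (hasDerivAt_ev2 D z.1 (η0 (ext z))).hasDerivWithinAt
    rw [hη0 z, zero_mul, add_zero] at h1
    have h2 : HasDerivWithinAt (fun w => Q (update (ext z) q w) * ev2 D z.1 w)
        (ev2 (Polynomial.derivative N) z.1 (η0 (ext z))) (disc c r) (η0 (ext z)) := by
      refine (hasDerivAt_ev2 N z.1 (η0 (ext z))).hasDerivWithinAt.congr (fun w hw => ?_) ?_
      · obtain ⟨h3, h4⟩ := hQN z w hw
        rw [h4, div_mul_cancel₀ _ h3]
      · obtain ⟨h3, h4⟩ := hQN z _ (hηd z)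
        rw [h4, div_mul_cancel₀ _ h3]
    have h3 := (ud_disc c r P.hr _ (hηd z)).eq_deriv _ h2 h1
    rw [h3]
    exact mul_ne_zero (P.Qy_ne rfl hmem) (hQN z _ (hηd z)).1
  obtain ⟨U, A', hU, hUA⟩ := lemC (disc c r) N A (fun z => η0 (ext z)) hηcont hηd hηN hηN'
    (fun z y hy hy0 => by
      refine (hη1 _ (ext_mem_dom z)).2.2.2 y hy ?_
      rw [(hQN z y hy).2, hy0, zero_div])
    (fun z => by
      obtain ⟨h1, h2⟩ := hFA z _ (hηd z)
      rw [h0 _ (hpt z _ (hηd z)) (hη0 z)] at h2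
      exact (div_eq_zero_iff.1 h2.symm).resolve_right h1)
  have hUne : ∀ z ∈ Dom (update X0 q (disc c r)), ev2 U (rst n z) (z q) ≠ 0 := by
    intro z hz
    have hs : ∀ i : Fin n, rst n z i ∈ seg := by
      intro i
      have h1 := hz i
      rw [update_of_ne (by have := i.2; omega)] at h1
      exact h1
    have hzq : z q ∈ disc c r := by
      have h1 := hz q
      rwa [update_self] at h1
    exact hU ⟨rst n z, hs⟩ (z q) hzq
  refine ⟨fun z => ev2 D (rst n z) (z q) * ev2 A' (rst n z) (z q) /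
    (ev2 U (rst n z) (z q) * ev2 D' (rst n z) (z q)), ?_, ?_, ?_⟩
  · refine IsRat.div ((isRat_ev2 D _ q).mul (isRat_ev2 A' _ q))
      ((isRat_ev2 U _ q).mul (isRat_ev2 D' _ q)) fun z hz => ?_
    exact mul_ne_zero (hUne z hz) (hA z hz).1
  · intro z _ w _ hzw
    have h1 : rst n z = rst n w := by
      funext i
      exact hzw i (Set.mem_insert_of_mem _ i.2)
    have h2 : z q = w q := hzw q (Set.mem_insert _ _)
    simp only [h1, h2]
  · intro z hz
    obtain ⟨h1, h2⟩ := hN z hz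
    obtain ⟨h3, h4⟩ := hA z hz
    have h5 := hUne z hz
    have h6 : ev2 U (rst n z) (z q) * ev2 A (rst n z) (z q) =
        ev2 N (rst n z) (z q) * ev2 A' (rst n z) (z q) := by
      rw [← ev2_mul, ← ev2_mul, hUA]
    rw [h2, h4]
    field_simp
    linear_combination h6

end MP1eadaeL
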