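import Mathlib
import Pool.Agent.Lib_MP_1eadae_ag.Real
import Pool.Agent.Lib_MP_1eadae_ag.Real2

/-!
# MP_1eadae_ag: the geometric form of the period conjecture (definitions)

Bodies under the graphs of positive rational functions over `ℚ` on cubes, and volume preserving
rational moves between them.
-/

namespace MP1eadae

/-- rational functions over `ℚ` without poles on the cube, as real functions -/
def RatR : Set ((ℕ → ℝ) → ℝ) :=
  {f | ∃ P Q : MvPolynomial ℕ ℚ, ∀ x ∈ Cube, MvPolynomial.aeval x Q ≠ (0 : ℝ) ∧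
    f x = MvPolynomial.aeval x P / MvPolynomial.aeval x Q}

/-- those which are positive on the cube -/
def PosRat : Set ((ℕ → ℝ) → ℝ) := {f | f ∈ RatR ∧ ∀ x ∈ Cube, 0 < f x}

/-- `f` depends (on the cube) only on the first `n` coordinates -/
def DepR (n : ℕ) (f : (ℕ → ℝ) → ℝ) : Prop :=
  ∀ x ∈ Cube, ∀ y ∈ Cube, (∀ i < n, x i = y i) → f x = f y

/-- the body under the graph of `f` over the `n`-dimensional unit cube -/
def body (n : ℕ) (f : (ℕ → ℝ) → ℝ) : Set ((Fin n → ℝ) × ℝ) :=
  {p | p.1 ∈ Set.Icc (0 : Fin n → ℝ) 1 ∧ 0 ≤ p.2 ∧ p.2 ≤ f (extR p.1)}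

/-- A volume preserving move: `χ x = Function.update x i (φ x)` is a self-map of the cube changing
one coordinate, `φ` a rational function with `φ = 0` for `x_i = 0`, `φ = 1` for `x_i = 1` and
`J = ∂φ/∂x_i > 0`, and `h' = (h ∘ χ) J`.  Then `(x, y) ↦ (χ x, y / J x)` is a volume preserving
bijection of the body under the graph of `h'` onto the body under the graph of `h`. -/
def Move (h' h : (ℕ → ℝ) → ℝ) : Prop :=
  ∃ (i : ℕ) (φ J : (ℕ → ℝ) → ℝ), φ ∈ RatR ∧ J ∈ PosRat ∧
    (∀ x ∈ Cube, HasDerivWithinAt (fun t : ℝ => φ (Function.update x i t)) (J x)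
      (Set.Icc 0 1) (x i)) ∧
    (∀ x ∈ Cube, φ (Function.update x i 0) = 0 ∧ φ (Function.update x i 1) = 1) ∧
    ∀ x ∈ Cube, h' x = h (Function.update x i (φ x)) * J x

/-- Stable congruence of the bodies under `f` and `g`: the body under
`f + h'_1 + ... + h'_r = g + h_1 + ... + h_r` is cut into layers in two ways, and the layers `h'_j` and
`h_j` are matched by volume preserving moves. -/
def StablyCongruent (f g : (ℕ → ℝ) → ℝ) : Prop :=
  ∃ (r : ℕ) (h' h : Fin r → (ℕ → ℝ) → ℝ),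
    (∀ j, h' j ∈ PosRat ∧ h j ∈ PosRat ∧ Move (h' j) (h j)) ∧
    ∀ x ∈ Cube, f x + ∑ j, h' j x = g x + ∑ j, h j x

end MP1eadae
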