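import Mathlib
import Pool.Agent.Lib_MP_1eadae_ag.Real
import Pool.Agent.Lib_MP_1eadae_ag.Real2

/-! # MP_1eadae_ag, piece REIM: real and imaginary parts of rational functions over `ℚ(i)` -/

namespace MP1eadae

/- Piece REIM.. -/

/-- elements of `ℚ(i)` -/
theorem mem_Qi_iff (x : ℂ) : x ∈ Qi ↔ ∃ a b : ℚ, x = (a : ℂ) + (b : ℂ) * Complex.I := by
  constructor
  · let E : Subfield ℂ :=
      { carrier := {x | ∃ a b : ℚ, x = (a : ℂ) + (b : ℂ) * Complex.I}
        mul_mem' := by
          rintro _ _ ⟨a, b, rfl⟩ ⟨c, d, rfl⟩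
          refine ⟨a * c - b * d, a * d + b * c, ?_⟩
          push_cast
          linear_combination (b : ℂ) * d * Complex.I_mul_I
        one_mem' := ⟨1, 0, by simp⟩
        add_mem' := by
          rintro _ _ ⟨a, b, rfl⟩ ⟨c, d, rfl⟩
          refine ⟨a + c, b + d, ?_⟩
          push_cast
          ring
        zero_mem' := ⟨0, 0, by simp⟩
        neg_mem' := by
          rintro _ ⟨a, b, rfl⟩
          refine ⟨-a, -b, ?_⟩
          push_cast
          ring
        inv_mem' := by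
          rintro _ ⟨a, b, rfl⟩
          by_cases h : a = 0 ∧ b = 0
          · obtain ⟨rfl, rfl⟩ := h
            exact ⟨0, 0, by simp⟩
          have h1 : a ^ 2 + b ^ 2 ≠ 0 := by
            intro h2
            apply h
            constructor
            · nlinarith [sq_nonneg a, sq_nonneg b]
            · nlinarith [sq_nonneg a, sq_nonneg b]
          have h2 : ((a : ℂ) ^ 2 + (b : ℂ) ^ 2) ≠ 0 := by exact_mod_cast h1
          refine ⟨a / (a ^ 2 + b ^ 2), -b / (a ^ 2 + b ^ 2), ?_⟩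
          have h3 : ((a : ℂ) + b * Complex.I) * ((a : ℂ) - b * Complex.I) =
              (a : ℂ) ^ 2 + (b : ℂ) ^ 2 := by
            linear_combination -(b : ℂ) * b * Complex.I_mul_I
          rw [inv_eq_of_mul_eq_one_right]
          push_cast
          field_simp
          linear_combination h3 }
    intro h
    have hle : Qi ≤ E := by
      refine Subfield.closure_le.2 ?_
      rintro _ rfl
      exact ⟨0, 1, by simp⟩
    exact hle h
  · rintro ⟨a, b, rfl⟩
    have hI : Complex.I ∈ Qi := Subfield.subset_closure rfl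
    exact Qi.add_mem (SubfieldClass.ratCast_mem Qi a)
      (Qi.mul_mem (SubfieldClass.ratCast_mem Qi b) hI)

private theorem ri_map {k l : Type} [Field k] [Field l] [Algebra k ℂ] [Algebra l ℂ] [Algebra k l]
    [IsScalarTower k l ℂ] (P : MvPolynomial ℕ k) (x : ℕ → ℝ) :
    peval (MvPolynomial.map (algebraMap k l) P) x = peval P x :=
  MvPolynomial.aeval_map_algebraMap _ _ _

private theorem ri_mono {k l : Type} [Field k] [Field l] [Algebra k ℂ] [Algebra l ℂ] [Algebra k l]
    [IsScalarTower k l ℂ] : RatFn k ⊆ RatFn l := by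
  rintro F ⟨P, Q, h⟩
  refine ⟨MvPolynomial.map (algebraMap k l) P, MvPolynomial.map (algebraMap k l) Q,
    fun x hx => ?_⟩
  rw [ri_map, ri_map]
  exact h x hx

theorem ratFn_rat_subset : RatFn ℚ ⊆ RatFn Qi :=
  ri_mono

/-- `⊥` is the prime field -/
theorem ratFn_rat_eq_bot : RatFn ℚ = RatFn (⊥ : Subfield ℂ) := by
  refine Set.Subset.antisymm ri_mono ?_
  have hs : Function.Surjective (algebraMap ℚ (⊥ : Subfield ℂ)) := by
    rintro ⟨x, hx⟩
    rw [Subfield.bot_eq_of_charZero] at hx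
    obtain ⟨a, rfl⟩ := hx
    exact ⟨a, Subtype.ext rfl⟩
  rintro F ⟨P, Q, h⟩
  obtain ⟨P, rfl⟩ := MvPolynomial.map_surjective _ hs P
  obtain ⟨Q, rfl⟩ := MvPolynomial.map_surjective _ hs Q
  refine ⟨P, Q, fun x hx => ?_⟩
  have h1 := h x hx
  rw [ri_map, ri_map] at h1
  exact h1

private theorem ri_split (P : MvPolynomial ℕ Qi) : ∃ A B : MvPolynomial ℕ ℚ, ∀ x : ℕ → ℝ,
    peval P x = peval A x + Complex.I * peval B x := by
  induction P using MvPolynomial.induction_on with
  | C c =>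
    obtain ⟨a, b, h⟩ := (mem_Qi_iff (c : ℂ)).1 c.2
    refine ⟨MvPolynomial.C a, MvPolynomial.C b, fun x => ?_⟩
    unfold peval
    rw [MvPolynomial.aeval_C, MvPolynomial.aeval_C, MvPolynomial.aeval_C]
    show (c : ℂ) = (a : ℂ) + Complex.I * (b : ℂ)
    rw [h]
    ring
  | add P Q hP hQ =>
    obtain ⟨A, B, h⟩ := hP
    obtain ⟨A', B', h'⟩ := hQ
    refine ⟨A + A', B + B', fun x => ?_⟩
    have h1 := h x
    have h2 := h' x
    unfold peval at h1 h2 ⊢
    rw [map_add, map_add, map_add, h1, h2]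
    ring
  | mul_X P i hP =>
    obtain ⟨A, B, h⟩ := hP
    refine ⟨A * MvPolynomial.X i, B * MvPolynomial.X i, fun x => ?_⟩
    have h1 := h x
    unfold peval at h1 ⊢
    rw [map_mul, map_mul, map_mul, h1, MvPolynomial.aeval_X, MvPolynomial.aeval_X]
    ring

private theorem ri_real (A : MvPolynomial ℕ ℚ) (x : ℕ → ℝ) :
    peval A x = ((MvPolynomial.aeval x A : ℝ) : ℂ) :=
  MvPolynomial.aeval_algebraMap_apply ℂ x A

/-- Real and imaginary parts.  `F = P/Q`; let `Q^c` be `Q` with conjugated coefficients; at real points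
`peval Q^c x = conj (peval Q x) ≠ 0`; `F = P Q^c/(Q Q^c)`, and `Q Q^c`, `P Q^c` have the form
`A + i B` with `A, B` over `ℚ` (`B = 0` for `Q Q^c`). -/
theorem ratFn_re_im {F : (ℕ → ℝ) → ℂ} (hF : F ∈ RatFn Qi) :
    (fun x => ((F x).re : ℂ)) ∈ RatFn ℚ ∧ (fun x => ((F x).im : ℂ)) ∈ RatFn ℚ := by
  obtain ⟨P, Q, h⟩ := hF
  obtain ⟨A, B, hP⟩ := ri_split P
  obtain ⟨C, D, hQ⟩ := ri_split Q
  have key : ∀ x ∈ Cube, ((MvPolynomial.aeval x C : ℝ) ^ 2 + (MvPolynomial.aeval x D : ℝ) ^ 2 ≠ 0) ∧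
      (F x).re = ((MvPolynomial.aeval x A : ℝ) * MvPolynomial.aeval x C +
        MvPolynomial.aeval x B * MvPolynomial.aeval x D) /
        ((MvPolynomial.aeval x C : ℝ) ^ 2 + (MvPolynomial.aeval x D : ℝ) ^ 2) ∧
      (F x).im = ((MvPolynomial.aeval x B : ℝ) * MvPolynomial.aeval x C -
        MvPolynomial.aeval x A * MvPolynomial.aeval x D) /
        ((MvPolynomial.aeval x C : ℝ) ^ 2 + (MvPolynomial.aeval x D : ℝ) ^ 2) := by
    intro x hx
    obtain ⟨h1, h2⟩ := h x hx
    rw [hQ, ri_real, ri_real] at h1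
    rw [hP, hQ, ri_real, ri_real, ri_real, ri_real] at h2
    set a : ℝ := MvPolynomial.aeval x A
    set b : ℝ := MvPolynomial.aeval x B
    set c : ℝ := MvPolynomial.aeval x C
    set d : ℝ := MvPolynomial.aeval x D
    have h3 : c ^ 2 + d ^ 2 ≠ 0 := by
      intro h4
      apply h1
      have hc : c = 0 := by nlinarith [sq_nonneg c, sq_nonneg d]
      have hd : d = 0 := by nlinarith [sq_nonneg c, sq_nonneg d]
      rw [hc, hd]
      simp
    have h5 : F x = ((((a * c + b * d) / (c ^ 2 + d ^ 2) : ℝ) : ℂ)) +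
        (((b * c - a * d) / (c ^ 2 + d ^ 2) : ℝ) : ℂ) * Complex.I := by
      rw [h2, div_eq_iff h1]
      have h6 : ((c : ℂ) ^ 2 + (d : ℂ) ^ 2) ≠ 0 := by exact_mod_cast h3
      push_cast
      field_simp
      linear_combination -((b : ℂ) * c * d - a * d ^ 2) * Complex.I_sq
    refine ⟨h3, ?_, ?_⟩
    · rw [h5, Complex.add_re, Complex.ofReal_re, Complex.re_ofReal_mul, Complex.I_re, mul_zero,
        add_zero]
    · rw [h5, Complex.add_im, Complex.ofReal_im, Complex.im_ofReal_mul, Complex.I_im, mul_one,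
        zero_add]
  refine ⟨⟨A * C + B * D, C ^ 2 + D ^ 2, fun x hx => ?_⟩,
    ⟨B * C - A * D, C ^ 2 + D ^ 2, fun x hx => ?_⟩⟩
  · obtain ⟨h1, h2, h3⟩ := key x hx
    rw [ri_real, ri_real]
    refine ⟨?_, ?_⟩
    · simp only [map_add, map_pow]
      exact_mod_cast h1
    · show ((F x).re : ℂ) = _
      rw [h2]
      simp only [map_add, map_mul, map_pow]
      push_cast
      rfl
  · obtain ⟨h1, h2, h3⟩ := key x hx
    rw [ri_real, ri_real]
    refine ⟨?_, ?_⟩
    · simp only [map_add, map_pow]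
      exact_mod_cast h1
    · show ((F x).im : ℂ) = _
      rw [h3]
      simp only [map_add, map_sub, map_mul, map_pow]
      push_cast
      rfl

/-- functions in `RatFn ℚ` are real valued -/
theorem ratFn_rat_real {F : (ℕ → ℝ) → ℂ} (hF : F ∈ RatFn ℚ) {x : ℕ → ℝ} (hx : x ∈ Cube) :
    ((F x).re : ℂ) = F x := by
  obtain ⟨P, Q, h⟩ := hF
  rw [(h x hx).2, ri_real, ri_real, ← Complex.ofReal_div, Complex.ofReal_re]

/-- the real part of a combination of Stokes elements over `ℚ(i)` is one over `ℚ` -/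
theorem stokesSpan_re {F : (ℕ → ℝ) → ℂ} (hF : F ∈ StokesSpan (RatFn Qi)) :
    (fun x => ((F x).re : ℂ)) ∈ StokesSpan (RatFn ℚ) := by
  obtain ⟨m, i, G, H, h1, h2⟩ := hF
  refine ⟨m, i, fun l x => ((G l x).re : ℂ), fun l x => ((H l x).re : ℂ), fun l =>
    ⟨(ratFn_re_im (h1 l).1).1, (ratFn_re_im (h1 l).2.1).1, fun x hx => ?_⟩, fun x hx => ?_⟩
  · have h3 := (h1 l).2.2 x hx
    have h4 := Complex.reCLM.hasFDerivAt.comp_hasDerivWithinAt (x (i l)) h3
    have h5 := Complex.ofRealCLM.hasFDerivAt.comp_hasDerivWithinAt (x (i l)) h4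
    exact h5
  · simp only [h2 x hx]
    rw [Complex.re_sum]
    push_cast
    refine Finset.sum_congr rfl fun l _ => ?_
    simp

end MP1eadae
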