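import Mathlib
import Pool.Agent.Lib_MP_1eadae_ag.Defs
import Pool.Agent.Lib_MP_1eadae_ag.RatA
import Pool.Agent.Lib_MP_1eadae_ag.RatB
import Pool.Agent.Lib_MP_1eadae_ag.Ctr
import Pool.Agent.Lib_MP_1eadae_ag.Stk
import Pool.Agent.Lib_MP_1eadae_ag.Pen

/-! # MP_1eadae_ag, piece VANC: the residue and the Stokes relation -/

namespace MP1eadaeL

open Complex Function

variable {K : Subfield ℂ} {X : ℕ → Set ℂ} {F G H Q Qy : Pt → ℂ} {c : ℂ} {r : ℚ} {p s i : ℕ}

/-- Compatibility of the residue with the Stokes relation in the direction `i ≠ p`.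
Proof: on `Dom (X[p := circ c r])` (`Q ≠ 0` there),
`∂_i (F Qy/Q) = (Fi - Fy Qi/Qy) Qy/Q + ∂_y (F Qi/Q)` because
`∂_i (Qy/Q) = ∂_y (Qi/Q)` (mixed derivatives `IsRat.exists_part2`).  Take `ctr`: the last term
contributes a Stokes element by `St.ctr_deriv`, and `∂_i (ctr (F Qy/Q)) = ctr (∂_i (F Qy/Q))`
(`Part.ctr`) is the derivative of `res`, so `St.gen` in the direction `i`. -/
theorem St.face (hI : I ∈ K) (P : Pencil K X p Q Qy c r) (hXp : X p = seg) (hXi : X i = seg)
    (hip : i ≠ p) (hF : IsRat K (update X p (disc c r)) F) {Fi Fy Qi : Pt → ℂ}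
    (hFi : IsRat K (update X p (disc c r)) Fi) (hFy : IsRat K (update X p (disc c r)) Fy)
    (hQi : IsRat K (update X p (disc c r)) Qi) (pFi : Part (update X p (disc c r)) i F Fi)
    (pFy : Part (update X p (disc c r)) p F Fy) (pQi : Part (update X p (disc c r)) i Q Qi) :
    St (IsRat K X) X {i, p} (fun z => res p c r (fun z => Fi z - Fy z * Qi z / Qy z) Q Qy z
      - res p c r F Q Qy (update z i 1) + res p c r F Q Qy (update z i 0)) := by
  have hr0 : 0 ≤ r := P.hr.le
  have hdi : update X p (disc c r) i = seg := by rw [update_of_ne hip, hXi]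
  have hdp : update X p (disc c r) p = disc c r := update_self _ _ _
  have hUi : ∀ w ∈ update X p (disc c r) i, UniqueDiffWithinAt ℂ (update X p (disc c r) i) w := by
    rw [hdi]
    exact ud_seg
  have hUp : ∀ w ∈ update X p (disc c r) p, UniqueDiffWithinAt ℂ (update X p (disc c r) p) w := by
    rw [hdp]
    exact ud_disc c r P.hr
  obtain ⟨Qi', Qp', Qip, _, _, rQip, a1, a2, a3, a4⟩ := P.ratQ.exists_part2 i p
  have pQip : Part (update X p (disc c r)) p Qi Qip :=
    a3.congr (Part.unique hUi a1 pQi) (fun _ _ => rfl)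
  have pQyi : Part (update X p (disc c r)) i Qy Qip :=
    a4.congr (Part.unique hUp a2 P.part) (fun _ _ => rfl)
  have hsub := circ_subset_disc c r
  have hdom : ∀ z ∈ Dom (update X p (circ c r)), z ∈ Dom (update X p (disc c r)) := by
    intro z hz k
    by_cases hk : k = p
    · subst hk
      have h1 := hz k
      rw [update_self] at h1 ⊢
      exact hsub h1
    · have h1 := hz k
      rw [update_of_ne hk] at h1 ⊢
      exact h1
  have hQ0 : ∀ z ∈ Dom (update X p (circ c r)), Q z ≠ 0 := fun z hz => P.circ_ne hXp hz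
  have hQy0 : ∀ z ∈ Dom (update X p (circ c r)), Qy z ≠ 0 := fun z hz => P.Qy_ne hXp (hdom z hz)
  have rF := hF.monoDom hdom
  have rFi := hFi.monoDom hdom
  have rFy := hFy.monoDom hdom
  have rQi := hQi.monoDom hdom
  have rQ := P.ratQ.monoDom hdom
  have rQy := P.ratQy.monoDom hdom
  have rQip' := rQip.monoDom hdom
  have cFi := pFi.mono_update hsub
  have cFy := pFy.mono_update hsub
  have cQi := pQi.mono_update hsub
  have cQ := P.part.mono_update hsub
  have cQip := pQip.mono_update hsub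
  have cQyi := pQyi.mono_update hsub
  have b1 := (cFi.mul cQyi).div cQi hQ0
  have b2 := (cFy.mul cQip).div cQ hQ0
  have hsq : ∀ z ∈ Dom (update X p (circ c r)), Q z ^ 2 ≠ 0 := fun z hz => pow_ne_zero _ (hQ0 z hz)
  have r1 : IsRat K (update X p (circ c r)) (fun z => F z * Qy z / Q z) := (rF.mul rQy).div rQ hQ0
  have r2 : IsRat K (update X p (circ c r))
      (fun z => ((Fi z * Qy z + F z * Qip z) * Q z - F z * Qy z * Qi z) / Q z ^ 2) :=
    (((((rFi.mul rQy).add (rF.mul rQip')).mul rQ).sub ((rF.mul rQy).mul rQi))).div (rQ.pow 2) hsq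
  have r3 : IsRat K (update X p (circ c r)) (fun z => F z * Qi z / Q z) := (rF.mul rQi).div rQ hQ0
  have r4 : IsRat K (update X p (circ c r))
      (fun z => ((Fy z * Qi z + F z * Qip z) * Q z - F z * Qi z * Qy z) / Q z ^ 2) :=
    (((((rFy.mul rQi).add (rF.mul rQip')).mul rQ).sub ((rF.mul rQi).mul rQy))).div (rQ.pow 2) hsq
  have g1 := St.gen (C := IsRat K X) (X := X) (I := ({i, p} : Set ℕ)) i (Set.mem_insert _ _) _ _
    (IsRat.ctr hI P.hc hr0 hXp r1) (IsRat.ctr hI P.hc hr0 hXp r2) (Part.ctr hip hr0 hXp b1)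
  have g2 : St (IsRat K X) X {i, p} (ctr p c r
      (fun z => ((Fy z * Qi z + F z * Qip z) * Q z - F z * Qi z * Qy z) / Q z ^ 2)) :=
    St.mono (fun _ h => h) (Set.subset_insert _ _) (St.ctr_deriv hI P.hc hr0 hXp r3 r4 b2)
  refine St.congr _ _ (St.sub g1 g2) ?_
  intro z hz
  have e1 : res p c r (fun z => Fi z - Fy z * Qi z / Qy z) Q Qy z =
      ctr p c r (fun z => ((Fi z * Qy z + F z * Qip z) * Q z - F z * Qy z * Qi z) / Q z ^ 2 -
        ((Fy z * Qi z + F z * Qip z) * Q z - F z * Qi z * Qy z) / Q z ^ 2) z := by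
    refine ctr_congr hr0 hXp ?_ z hz
    intro y hy
    have h1 := hQ0 y hy
    have h2 := hQy0 y hy
    field_simp
    ring
  rw [e1, ctr_sub]
  change _ - ctr p c r (fun z => F z * Qy z / Q z) (update z i 1) +
    ctr p c r (fun z => F z * Qy z / Q z) (update z i 0) - _ = _ -
    ctr p c r (fun z => F z * Qy z / Q z) (update z i 1) +
    ctr p c r (fun z => F z * Qy z / Q z) (update z i 0)
  ring

end MP1eadaeL
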