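import Mathlib
import Pool.Agent.Lib_MP_1eadae_ag.Defs
import Pool.Agent.Lib_MP_1eadae_ag.RatA
import Pool.Agent.Lib_MP_1eadae_ag.RatB
import Pool.Agent.Lib_MP_1eadae_ag.RatC
import Pool.Agent.Lib_MP_1eadae_ag.Ctr
import Pool.Agent.Lib_MP_1eadae_ag.Stk
import Pool.Agent.Lib_MP_1eadae_ag.Pen
import Pool.Agent.Lib_MP_1eadae_ag.Root
import Pool.Agent.Lib_MP_1eadae_ag.TwoSort
import Pool.Agent.Lib_MP_1eadae_ag.VanC
import Pool.Agent.Lib_MP_1eadae_ag.SubB
import Pool.Agent.Lib_MP_1eadae_ag.Scale
import Pool.Agent.Lib_MP_1eadae_ag.RepA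

/-! # MP_1eadae_ag, piece REPB: the Stokes relation for `Rep` -/

namespace MP1eadaeL

open Complex Function

variable {K : Subfield ℂ} {n : ℕ} {f g : Pt → ℂ}

/-- derivatives depend on the same coordinates -/
theorem repb_dep {X : ℕ → Set ℂ} {S : Set ℕ} {i : ℕ} (hi : i ∈ S) {G H : Pt → ℂ}
    (hU : ∀ w ∈ X i, UniqueDiffWithinAt ℂ (X i) w) (hP : Part X i G H) (hG : DepOn X S G) :
    DepOn X S H := by
  intro z hz w hw hzw
  have h1 := hP z hz
  have h2 := hP w hw
  have hiw : z i = w i := hzw i hi
  rw [← hiw] at h2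
  have h3 : HasDerivWithinAt (fun t => G (update z i t)) (H w) (X i) (z i) := by
    have key : ∀ t ∈ X i, G (update z i t) = G (update w i t) := by
      intro t ht
      refine hG _ (ROOT_update_dom hz ht) _ (ROOT_update_dom hw ht) fun j hj => ?_
      by_cases hji : j = i
      · subst hji
        rw [update_self, update_self]
      · rw [update_of_ne hji, update_of_ne hji]
        exact hzw j hj
    exact h2.congr key (key _ (hz i))
  exact (hU _ (hz i)).eq_deriv _ h1 h3

/-- restriction of a dependence statement to a face -/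
theorem repb_dep_face {X : ℕ → Set ℂ} {S : Set ℕ} {i : ℕ} {a : ℂ} (ha : a ∈ X i) {G : Pt → ℂ}
    (hG : DepOn X S G) : DepOn X S (fun z => G (update z i a)) := by
  intro z hz w hw hzw
  refine hG _ (ROOT_update_dom hz ha) _ (ROOT_update_dom hw ha) fun j hj => ?_
  by_cases hji : j = i
  · subst hji
    rw [update_self, update_self]
  · rw [update_of_ne hji, update_of_ne hji]
    exact hzw j hj

theorem repb_rat_face {X : ℕ → Set ℂ} {i : ℕ} {a : ℂ} (haK : a ∈ K) (ha : a ∈ X i) {G : Pt → ℂ}
    (hG : IsRat K X G) : IsRat K X (fun z => G (update z i a)) := by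
  refine hG.comp (fun z => update z i a) (fun j => ?_) (fun z hz => ROOT_update_dom hz ha)
  by_cases h : j = i
  · subst h
    refine (IsRat.const a haK).congr fun z _ => ?_
    rw [update_self]
  · refine (IsRat.coord j).congr fun z _ => ?_
    rw [update_of_ne h]

/-- the face of a pencil -/
theorem repb_pencil_face {X : ℕ → Set ℂ} {p i : ℕ} (hip : i ≠ p) {a : ℂ} (haK : a ∈ K)
    (ha : a ∈ X i) {Q Qy : Pt → ℂ} {c : ℂ} {r : ℚ} (P : Pencil K X p Q Qy c r) :
    Pencil K X p (fun z => Q (update z i a)) (fun z => Qy (update z i a)) c r := by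
  have ha' : a ∈ (update X p (disc c r)) i := by rwa [update_of_ne hip]
  refine ⟨repb_rat_face haK ha' P.ratQ, repb_rat_face haK ha' P.ratQy, ?_, P.hc, P.hr, ?_, ?_⟩
  · intro z hz
    have h1 := P.part _ (ROOT_update_dom hz ha')
    rw [update_of_ne (Ne.symm hip)] at h1
    refine h1.congr (fun w _ => ?_) ?_
    · change Q (update (update z p w) i a) = Q (update (update z i a) p w)
      rw [update_comm hip]
    · change Q (update (update z p (z p)) i a) = Q (update (update z i a) p (z p))
      rw [update_comm hip]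
  · intro z hz w hw w' hw'
    have h1 := P.contr _ (ROOT_update_dom hz ha) w hw w' hw'
    change ‖(Q (update (update z p w) i a) - w) - (Q (update (update z p w') i a) - w')‖ ≤ _
    rw [update_comm (Ne.symm hip) w a z, update_comm (Ne.symm hip) w' a z]
    exact h1
  · intro z hz
    have h1 := P.cen _ (ROOT_update_dom hz ha)
    change ‖Q (update (update z p c) i a)‖ < _
    rw [update_comm (Ne.symm hip) c a z]
    exact h1

/-- the face of a represented function -/
theorem repb_face {i : ℕ} (hi : i < n) {a : ℂ} (haK : a ∈ K) (ha : a ∈ seg) (h : Rep K n f g) :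
    Rep K n (fun z => f (update z i a)) (fun z => g (update z i a)) := by
  have hip : i ≠ n := by omega
  obtain ⟨hd, c, r, F, Q, Qy, P, hF, hFd, hQd, h0, hg⟩ := h
  have ha' : a ∈ (update X0 n (disc c r)) i := by
    rw [update_of_ne hip]
    exact ha
  refine ⟨repb_dep_face ha hd, c, r, fun z => F (update z i a), fun z => Q (update z i a),
    fun z => Qy (update z i a), repb_pencil_face hip haK ha P, repb_rat_face haK ha' hF,
    repb_dep_face ha' hFd, repb_dep_face ha' hQd, ?_, ?_⟩
  · intro z hz w hw hQ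
    change F (update (update z n w) i a) = f (update z i a)
    change Q (update (update z n w) i a) = 0 at hQ
    rw [update_comm (Ne.symm hip)] at hQ ⊢
    exact h0 _ (ROOT_update_dom hz ha) w hw hQ
  · intro z hz
    change g (update z i a) = _
    rw [hg _ (ROOT_update_dom hz ha)]
    unfold res ctr
    refine Finset.sum_congr rfl fun j _ => ?_
    rw [update_of_ne (Ne.symm hip), update_comm hip]

/-- chain rule for a rational function in two variables -/
theorem repb_chain {X : ℕ → Set ℂ} {i p : ℕ} (hip : i ≠ p) {B : Set ℂ} {F Fi Fy : Pt → ℂ}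
    (hUi : ∀ w ∈ X i, UniqueDiffWithinAt ℂ (X i) w) (hUp : ∀ w ∈ B, UniqueDiffWithinAt ℂ B w)
    (hF : IsRat K (update X p B) F) (hFi : Part (update X p B) i F Fi)
    (hFy : Part (update X p B) p F Fy) {η ηi : Pt → ℂ} (hη : ∀ z ∈ Dom X, η z ∈ B)
    (hηi : Part X i η ηi) :
    Part X i (fun z => F (update z p (η z)))
      (fun z => Fi (update z p (η z)) + Fy (update z p (η z)) * ηi z) := by
  intro z hz
  obtain ⟨A, D, hAD⟩ := hF
  have h1 := hη z hz
  have hmem : update z p (η z) ∈ Dom (update X p B) := update_mem_dom hz h1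
  have hzi : update z i (z i) = z := update_eq_self i z
  have hB0 : pev D (update (update z i (z i)) p (η z)) ≠ 0 := by
    rw [hzi]
    exact (hAD _ hmem).1
  have hgd : DifferentiableAt ℂ (fun v : ℂ × ℂ => pev A (update (update z i v.1) p v.2) /
      pev D (update (update z i v.1) p v.2)) (z i, η z) := by
    have e1 := ROOT_pev_diff A z i p (z i, η z)
    have e2 := ROOT_pev_diff D z i p (z i, η z)
    have e3 : DifferentiableAt ℂ (fun v : ℂ × ℂ => (pev D (update (update z i v.1) p v.2))⁻¹)
        (z i, η z) :=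
      (differentiableAt_inv (𝕜 := ℂ) hB0).comp (z i, η z) e2
    exact e1.mul e3
  obtain ⟨g', hg'⟩ := hgd
  have ht : g' (1, 0) = Fi (update z p (η z)) := by
    have ha : HasDerivAt (fun w : ℂ => ((w, η z) : ℂ × ℂ)) ((1 : ℂ), (0 : ℂ)) (z i) :=
      (hasDerivAt_id (z i)).prodMk (hasDerivAt_const (z i) (η z))
    have hb := hg'.comp_hasDerivAt_of_eq (z i) ha rfl
    have hc' := hFi _ hmem
    rw [update_of_ne hip, update_of_ne hip] at hc'
    have hd : HasDerivWithinAt ((fun v : ℂ × ℂ => pev A (update (update z i v.1) p v.2) /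
        pev D (update (update z i v.1) p v.2)) ∘ fun w : ℂ => ((w, η z) : ℂ × ℂ))
        (Fi (update z p (η z))) (X i) (z i) := by
      refine hc'.congr ?_ ?_
      · intro w hw
        have hm : update (update z i w) p (η z) ∈ Dom (update X p B) :=
          update_mem_dom (ROOT_update_dom hz hw) h1
        rw [update_comm (Ne.symm hip)]
        exact ((hAD _ hm).2).symm
      · have hm : update (update z i (z i)) p (η z) ∈ Dom (update X p B) := by
          rw [hzi]
          exact hmem
        rw [update_comm (Ne.symm hip)]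
        exact ((hAD _ hm).2).symm
    exact (hUi _ (hz i)).eq_deriv _ hb.hasDerivWithinAt hd
  have hy : g' (0, 1) = Fy (update z p (η z)) := by
    have ha : HasDerivAt (fun w : ℂ => ((z i, w) : ℂ × ℂ)) ((0 : ℂ), (1 : ℂ)) (η z) :=
      (hasDerivAt_const (η z) (z i)).prodMk (hasDerivAt_id (η z))
    have hb := hg'.comp_hasDerivAt_of_eq (η z) ha rfl
    have hc' := hFy _ hmem
    rw [update_self, update_self] at hc'
    have hd : HasDerivWithinAt ((fun v : ℂ × ℂ => pev A (update (update z i v.1) p v.2) /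
        pev D (update (update z i v.1) p v.2)) ∘ fun w : ℂ => ((z i, w) : ℂ × ℂ))
        (Fy (update z p (η z))) B (η z) := by
      refine hc'.congr ?_ ?_
      · intro w hw
        have hm : update (update z i (z i)) p w ∈ Dom (update X p B) := by
          rw [hzi]
          exact update_mem_dom hz hw
        rw [update_idem]
        have h6 := (hAD _ hm).2
        rw [hzi] at h6
        change pev A (update (update z i (z i)) p w) / pev D (update (update z i (z i)) p w) = _
        rw [hzi]
        exact h6.symm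
      · rw [update_idem]
        change pev A (update (update z i (z i)) p (η z)) /
          pev D (update (update z i (z i)) p (η z)) = _
        rw [hzi]
        exact ((hAD _ hmem).2).symm
    exact (hUp _ h1).eq_deriv _ hb.hasDerivWithinAt hd
  have hcurve : HasDerivWithinAt (fun t : ℂ => ((t, η (update z i t)) : ℂ × ℂ)) ((1 : ℂ), ηi z)
      (X i) (z i) := (hasDerivWithinAt_id (z i) (X i)).prodMk (hηi z hz)
  have hcomp := HasFDerivAt.comp_hasDerivWithinAt_of_eq (z i) hg' hcurve (by rw [hzi])
  have hval : g' ((1 : ℂ), ηi z) = Fi (update z p (η z)) + Fy (update z p (η z)) * ηi z := by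
    have : ((1 : ℂ), ηi z) = ((1 : ℂ), (0 : ℂ)) + ηi z • ((0 : ℂ), (1 : ℂ)) := by
      ext <;> simp
    rw [this, map_add, map_smul, ht, hy, smul_eq_mul, mul_comm]
  rw [hval] at hcomp
  have key : ∀ t ∈ X i, F (update (update z i t) p (η (update z i t))) =
      ((fun v : ℂ × ℂ => pev A (update (update z i v.1) p v.2) /
        pev D (update (update z i v.1) p v.2)) ∘ fun t : ℂ => ((t, η (update z i t)) : ℂ × ℂ)) t := by
    intro t ht'
    have hz' := ROOT_update_dom hz ht'
    exact (hAD _ (update_mem_dom hz' (hη _ hz'))).2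
  exact hcomp.congr key (key _ (hz i))

/-- The Stokes relation in a direction `i < n`.  With the data `(c, r, F, Q, Qy)` of `G`:
`H = Fi(z,η) + Fy(z,η) ∂_i η = (Fi - Fy Qi/Qy)(z,η)` (derivative of `F(z, η z)`: chain rule for the rational
function `F` in the two variables `z_i, y`, and `Pencil.exists_root`; compare with `H` by `Part.unique`),
`h = res (Fi - Fy Qi/Qy)`; the faces are represented by the data with `z_i := 1`, `z_i := 0`; then
`St.face`. -/
theorem Rep.face (hI : I ∈ K) {G H : Pt → ℂ} {i : ℕ} (hi : i < n) (h : Rep K n G g)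
    (hP : Part X0 i G H) :
    ∃ h : Pt → ℂ, Rep K n H h ∧ Rep K n (fun z => G (update z i 1)) (fun z => g (update z i 1)) ∧
      Rep K n (fun z => G (update z i 0)) (fun z => g (update z i 0)) ∧
      St (IsRat K X0) X0 {i, n} (fun z => h z - g (update z i 1) + g (update z i 0)) := by
  have hip : i ≠ n := by omega
  have h1face := repb_face hi K.one_mem one_mem_seg h
  have h0face := repb_face hi K.zero_mem zero_mem_seg h
  obtain ⟨hd, c, r, F, Q, Qy, P, hF, hFd, hQd, h0, hg⟩ := h
  have hX' : (update X0 n (disc c r)) i = seg := by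
    rw [update_of_ne hip]
    rfl
  have hXn : (update X0 n (disc c r)) n = disc c r := update_self _ _ _
  have hUi : ∀ w ∈ (update X0 n (disc c r)) i,
      UniqueDiffWithinAt ℂ ((update X0 n (disc c r)) i) w := by
    rw [hX']
    exact ud_seg
  have hUn : ∀ w ∈ (update X0 n (disc c r)) n,
      UniqueDiffWithinAt ℂ ((update X0 n (disc c r)) n) w := by
    rw [hXn]
    exact ud_disc c r P.hr
  obtain ⟨Fi, hFi, pFi⟩ := hF.exists_part i
  obtain ⟨Fy, hFy, pFy⟩ := hF.exists_part n
  obtain ⟨Qi, hQi, pQi⟩ := P.ratQ.exists_part i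
  have hin : i ∈ Set.Iio (n + 1) := Set.mem_Iio.mpr (by omega)
  have hnn : n ∈ Set.Iio (n + 1) := Set.mem_Iio.mpr (by omega)
  have dFi := repb_dep hin hUi pFi hFd
  have dFy := repb_dep hnn hUn pFy hFd
  have dQi := repb_dep hin hUi pQi hQd
  have dQy := repb_dep hnn hUn P.part hQd
  have hQy0 : ∀ z ∈ Dom (update X0 n (disc c r)), Qy z ≠ 0 := fun z hz => P.Qy_ne rfl hz
  have hR : IsRat K (update X0 n (disc c r)) (fun z => Fi z - Fy z * Qi z / Qy z) :=
    hFi.sub ((hFy.mul hQi).div P.ratQy hQy0)
  have dR : DepOn (update X0 n (disc c r)) (Set.Iio (n + 1))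
      (fun z => Fi z - Fy z * Qi z / Qy z) := by
    intro z hz w hw hzw
    change Fi z - Fy z * Qi z / Qy z = Fi w - Fy w * Qi w / Qy w
    rw [dFi z hz w hw hzw, dFy z hz w hw hzw, dQi z hz w hw hzw, dQy z hz w hw hzw]
  obtain ⟨η, hη, -, -, -, hηd⟩ := P.exists_root rfl
  have pη := hηd i hip Qi ud_seg pQi
  have pG : Part X0 i G (fun z => Fi (update z n (η z)) + Fy (update z n (η z)) *
      (-Qi (update z n (η z)) / Qy (update z n (η z)))) := by
    refine (repb_chain hip ud_seg (ud_disc c r P.hr) hF pFi pFy (fun z hz => (hη z hz).1)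
      pη).congr (fun z hz => ?_) (fun _ _ => rfl)
    exact h0 z hz (η z) (hη z hz).1 (hη z hz).2.2.1
  have hHeq := Part.unique ud_seg hP pG
  refine ⟨res n c r (fun z => Fi z - Fy z * Qi z / Qy z) Q Qy, ?_, h1face, h0face, ?_⟩
  · refine ⟨repb_dep (Set.mem_Iio.mpr hi) ud_seg hP hd, c, r, _, Q, Qy, P, hR, dR, hQd, ?_,
      fun z _ => rfl⟩
    intro z hz w hw hQ
    have hwη : w = η z := (hη z hz).2.2.2 w hw hQ
    rw [hHeq z hz, hwη]
    ring
  · refine St.congr _ _ (St.face hI P rfl rfl hip hF hFi hFy hQi pFi pFy pQi) fun z hz => ?_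
    rw [hg _ (ROOT_update_dom hz one_mem_seg), hg _ (ROOT_update_dom hz zero_mem_seg)]

end MP1eadaeL
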