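import Mathlib
import Pool.Agent.Lib_MP_1eadae_ag.Defs
import Pool.Agent.Lib_MP_1eadae_ag.RatA
import Pool.Agent.Lib_MP_1eadae_ag.RatB
import Pool.Agent.Lib_MP_1eadae_ag.Ctr
import Pool.Agent.Lib_MP_1eadae_ag.Stk
import Pool.Agent.Lib_MP_1eadae_ag.Pen

/-! # MP_1eadae_ag, piece VANA: Cauchy's theorem -/

namespace MP1eadaeL

open Complex Function

variable {K : Subfield ℂ} {X : ℕ → Set ℂ} {F G H Q Qy : Pt → ℂ} {c : ℂ} {r : ℚ} {p s i : ℕ}

/-- Cauchy: the contour integral of a function which is regular on the whole disc is a sum of Stokes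
elements.  Proof: `St.homotopy` with `B = disc c r`, `W = H`, `φ = c + z_s * r * u_j(z_p)`, summed over
`j < 4`.  At `s = 1`: the terms of `ctr`; at `s = 0`: `φ_p = 0`; the terms with `φ_s = r u_j(z_p)` at
`p = 1` and `p = 0` telescope over `j` (`uj_one`, `uj_four`). (`update (update z p 1) p _ =
update z p _`, and `H` is independent of `s`.) -/
theorem St.cauchy (hI : I ∈ K) (hc : c ∈ K) (hr : 0 < r) (hXp : X p = seg) (hXs : X s = seg)
    (hsp : s ≠ p) (hH : IsRat K (update X p (disc c r)) H)
    (hind : Indep (update X p (disc c r)) s H) :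
    St (IsRat K X) X {s, p} (ctr p c r H) := by
  have hr' : (0 : ℝ) < (r : ℝ) := by exact_mod_cast hr
  have hps : p ≠ s := fun h => hsp h.symm
  -- the homotopy
  have hφ : ∀ j, IsRat K X (fun z => c + z s * ((r : ℂ) * uj j (z p))) := fun j =>
    (IsRat.const c hc).add ((IsRat.coord s).mul ((IsRat.ratCast r).mul (isRat_uj hI hXp j)))
  have hφB : ∀ j, ∀ z ∈ Dom X, c + z s * ((r : ℂ) * uj j (z p)) ∈ disc c r := by
    intro j z hz
    have hp := hz p
    rw [hXp] at hp
    have hs := hz s
    rw [hXs] at hs
    obtain ⟨t, ht, hts⟩ := hs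
    have hts' : z s = (t : ℂ) := hts.symm
    rw [disc, Metric.mem_closedBall, dist_eq_norm, add_sub_cancel_left, norm_mul, norm_mul,
      norm_uj j hp, mul_one, hts', Complex.norm_real, Complex.norm_ratCast, Real.norm_eq_abs,
      abs_of_nonneg ht.1, abs_of_pos hr']
    calc t * (r : ℝ) ≤ 1 * (r : ℝ) := mul_le_mul_of_nonneg_right ht.2 hr'.le
      _ = r := one_mul _
  have hφs : ∀ j, Part X s (fun z => c + z s * ((r : ℂ) * uj j (z p)))
      (fun z => (r : ℂ) * uj j (z p)) := by
    intro j z hz
    have h1 : HasDerivWithinAt (fun w : ℂ => c + w * ((r : ℂ) * uj j (z p)))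
        (1 * ((r : ℂ) * uj j (z p))) (X s) (z s) :=
      ((hasDerivWithinAt_id (z s) (X s)).mul_const _).const_add c
    rw [one_mul] at h1
    refine h1.congr (fun w _ => ?_) ?_
    · show c + (update z s w) s * ((r : ℂ) * uj j ((update z s w) p)) = _
      rw [update_self, update_of_ne hps]
    · show c + (update z s (z s)) s * ((r : ℂ) * uj j ((update z s (z s)) p)) = _
      rw [update_self, update_of_ne hps]
  have hφp : ∀ j, Part X p (fun z => c + z s * ((r : ℂ) * uj j (z p)))
      (fun z => z s * ((r : ℂ) * duj j (z p))) := by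
    intro j z hz
    have hp := hz p
    rw [hXp] at hp
    have h1 : HasDerivWithinAt (fun w : ℂ => c + z s * ((r : ℂ) * uj j w))
        (z s * ((r : ℂ) * duj j (z p))) (X p) (z p) :=
      (((hasDerivAt_uj j hp).const_mul (r : ℂ)).const_mul (z s)).const_add c |>.hasDerivWithinAt
    refine h1.congr (fun w _ => ?_) ?_
    · show c + (update z p w) s * ((r : ℂ) * uj j ((update z p w) p)) = _
      rw [update_self, update_of_ne hsp]
    · show c + (update z p (z p)) s * ((r : ℂ) * uj j ((update z p (z p)) p)) = _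
      rw [update_self, update_of_ne hsp]
  have hst := fun j => St.homotopy (K := K) hsp hXs hXp hH hind (hφ j) (hφB j) (hφs j) (hφp j)
  refine St.congr _ _ (St.sum (Finset.range 4) _ (fun j _ => hst j)) (fun z hz => ?_)
  have hzp := hz p
  rw [hXp] at hzp
  have h0s : (0 : ℂ) ∈ X s := by rw [hXs]; exact zero_mem_seg
  have h1s : (1 : ℂ) ∈ X s := by rw [hXs]; exact one_mem_seg
  -- the boundary terms
  have hterm : ∀ j,
      H (update (update z s 1) p (c + (update z s 1) s * ((r : ℂ) * uj j ((update z s 1) p)))) *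
          ((update z s 1) s * ((r : ℂ) * duj j ((update z s 1) p)))
        - H (update (update z s 0) p
            (c + (update z s 0) s * ((r : ℂ) * uj j ((update z s 0) p)))) *
          ((update z s 0) s * ((r : ℂ) * duj j ((update z s 0) p)))
        - H (update (update z p 1) p
            (c + (update z p 1) s * ((r : ℂ) * uj j ((update z p 1) p)))) *
          ((r : ℂ) * uj j ((update z p 1) p))
        + H (update (update z p 0) p
            (c + (update z p 0) s * ((r : ℂ) * uj j ((update z p 0) p)))) *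
          ((r : ℂ) * uj j ((update z p 0) p)) =
      H (update z p (c + (r : ℂ) * uj j (z p))) * ((r : ℂ) * duj j (z p)) -
        (H (update z p (c + z s * ((r : ℂ) * uj (j + 1) 0))) * ((r : ℂ) * uj (j + 1) 0) -
          H (update z p (c + z s * ((r : ℂ) * uj j 0))) * ((r : ℂ) * uj j 0)) := by
    intro j
    simp only [update_self, update_of_ne hps, update_of_ne hsp, update_idem, one_mul, zero_mul,
      mul_zero, sub_zero]
    have hmem : c + (r : ℂ) * uj j (z p) ∈ disc c r :=
      circ_subset_disc c r (mem_circ_uj c hr.le j hzp)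
    have e1 : H (update (update z s 1) p (c + (r : ℂ) * uj j (z p))) =
        H (update z p (c + (r : ℂ) * uj j (z p))) := by
      rw [update_comm hsp]
      refine hind _ (update_mem_dom hz hmem) 1 ?_
      rw [update_of_ne hsp]
      exact h1s
    rw [e1, uj_one j]
    ring
  refine (Finset.sum_congr rfl (fun j _ => hterm j)).trans ?_
  rw [Finset.sum_sub_distrib, Finset.sum_range_sub
    (fun j => H (update z p (c + z s * ((r : ℂ) * uj j 0))) * ((r : ℂ) * uj j 0)), uj_four,
    sub_self, sub_zero]
  rfl

end MP1eadaeL
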