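import Mathlib
import Pool.Agent.Lib_MP_1eadae_ag.Defs
import Pool.Agent.Lib_MP_1eadae_ag.RatA
import Pool.Agent.Lib_MP_1eadae_ag.RatB
import Pool.Agent.Lib_MP_1eadae_ag.Ctr
import Pool.Agent.Lib_MP_1eadae_ag.Stk
import Pool.Agent.Lib_MP_1eadae_ag.Pen

/-! # MP_1eadae_ag, piece VANB: the homotopy of pencils -/

namespace MP1eadaeL

open Complex Function

variable {K : Subfield ℂ} {X : ℕ → Set ℂ} {F G H Q Qy : Pt → ℂ} {c : ℂ} {r : ℚ} {p s i : ℕ}

/-- `Q` on the `j`-th quarter circle -/
private noncomputable def vbQ (Q : Pt → ℂ) (c : ℂ) (r : ℚ) (p j : ℕ) : Pt → ℂ :=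
  fun z => Q (update z p (c + (r : ℂ) * uj j (z p)))

/-- the homotopy -/
private noncomputable def vbL (Q : Pt → ℂ) (c : ℂ) (r : ℚ) (p s j : ℕ) : Pt → ℂ :=
  fun z => (1 - z s) * vbQ Q c r p j z + z s * ((r : ℂ) * uj j (z p))

private noncomputable def vbLs (Q : Pt → ℂ) (c : ℂ) (r : ℚ) (p j : ℕ) : Pt → ℂ :=
  fun z => - vbQ Q c r p j z + (r : ℂ) * uj j (z p)

private noncomputable def vbLp (Qy : Pt → ℂ) (c : ℂ) (r : ℚ) (p s j : ℕ) : Pt → ℂ :=
  fun z => (1 - z s) * (vbQ Qy c r p j z * ((r : ℂ) * duj j (z p)))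
    + z s * ((r : ℂ) * duj j (z p))

/-- the boundary terms -/
private noncomputable def vbT (Q : Pt → ℂ) (c : ℂ) (r : ℚ) (p s : ℕ) (z : Pt) (u : ℂ) : ℂ :=
  (- Q (update z p (c + (r : ℂ) * u)) + (r : ℂ) * u) /
    ((1 - z s) * Q (update z p (c + (r : ℂ) * u)) + z s * ((r : ℂ) * u))

private theorem vb_mem (hr : 0 < r) (hXp : X p = seg) (j : ℕ) {z : Pt} (hz : z ∈ Dom X) :
    c + (r : ℂ) * uj j (z p) ∈ circ c r :=
  mem_circ_uj c hr.le j (hXp ▸ hz p)

private theorem vb_indep (hr : 0 < r) (hXp : X p = seg) (hsp : s ≠ p)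
    (hind : Indep (update X p (disc c r)) s Q) (j : ℕ) : Indep X s (vbQ Q c r p j) := by
  intro z hz w hw
  have h1 : (update z s w) p = z p := update_of_ne (Ne.symm hsp) _ _
  unfold vbQ
  rw [h1, update_comm hsp]
  refine hind (update z p (c + (r : ℂ) * uj j (z p)))
    (update_mem_dom hz (circ_subset_disc c r (vb_mem hr hXp j hz))) w ?_
  rw [update_of_ne hsp]
  exact hw

private theorem vb_isRat (hI : I ∈ K) (P : Pencil K X p Q Qy c r) (hXp : X p = seg)
    (hQ : IsRat K (update X p (disc c r)) Q) (j : ℕ) : IsRat K X (vbQ Q c r p j) := by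
  refine IsRat.subst hQ ?_ (fun z hz => circ_subset_disc c r (vb_mem P.hr hXp j hz))
  exact (IsRat.const c P.hc).add ((IsRat.ratCast r).mul (isRat_uj hI hXp j))

private theorem vb_part_const (i : ℕ) (a : ℂ) : Part X i (fun _ => a) (fun _ => 0) :=
  Part.of_indep (fun _ _ _ _ => rfl)

private theorem vb_part_s (P : Pencil K X p Q Qy c r) (hXp : X p = seg)
    (hsp : s ≠ p) (hind : Indep (update X p (disc c r)) s Q) (j : ℕ) :
    Part X s (vbL Q c r p s j) (vbLs Q c r p j) := by
  have h1 : Part X s (fun z => 1 + - z s) (fun _ => 0 + - 1) :=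
    (vb_part_const s 1).add (Part.coord s).neg
  have h2 : Part X s (vbQ Q c r p j) (fun _ => 0) :=
    Part.of_indep (vb_indep P.hr hXp hsp hind j)
  have h4 : Part X s (fun z => (r : ℂ) * uj j (z p)) (fun _ => 0) := by
    refine Part.of_indep (fun z _ w _ => ?_)
    have h1 : (update z s w) p = z p := update_of_ne (Ne.symm hsp) _ _
    rw [h1]
  have h5 := (h1.mul h2).add ((Part.coord s).mul h4)
  refine h5.congr (fun z _ => ?_) (fun z _ => ?_)
  · simp only [vbL]
    ring
  · simp only [vbLs]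
    ring

private theorem vb_part_p (P : Pencil K X p Q Qy c r) (hXp : X p = seg)
    (hsp : s ≠ p) (j : ℕ) :
    Part X p (vbL Q c r p s j) (vbLp Qy c r p s j) := by
  have h0 : Part X p (fun z => z s) (fun _ => 0) := by
    refine Part.of_indep (fun z _ w _ => ?_)
    rw [update_of_ne hsp]
  have h1 : Part X p (fun z => 1 + - z s) (fun _ => 0 + - 0) :=
    (vb_part_const p 1).add h0.neg
  have h2 : Part X p (vbQ Q c r p j) (fun z => vbQ Qy c r p j z * ((r : ℂ) * duj j (z p))) :=
    Part.comp_self P.part (fun z hz => circ_subset_disc c r (vb_mem P.hr hXp j hz))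
      (part_circle c r hXp j)
  have h4 : Part X p (fun z => (r : ℂ) * uj j (z p)) (fun z => (r : ℂ) * duj j (z p)) := by
    refine (part_circle 0 r hXp j).congr (fun z _ => ?_) (fun z _ => rfl)
    ring
  have h5 := (h1.mul h2).add (h0.mul h4)
  refine h5.congr (fun z _ => ?_) (fun z _ => ?_)
  · simp only [vbL]
    ring
  · simp only [vbLp]
    ring

/-- Homotopy from `Q` to `y - c`: `∮ dQ/Q ~ ∮ dy/(y-c)`.  Proof: for `j < 4` let
`L_j(z) = (1 - z_s) Q(z, c + r u_j(z_p)) + z_s r u_j(z_p)`, rational on `Dom X` without zeros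
(`Pencil.seg_ne`).  Apply `St.homotopy` with `B = {y | y ≠ 0}`, `W z = 1/z_p`, `φ = L_j`:
`(L_p/L)|_{s=1} - (L_p/L)|_{s=0} ~ (L_s/L)|_{p=1} - (L_s/L)|_{p=0}`.  At `s=1`: `duj/uj`, sum over `j`
`= tpi` (`ctr_inv`); at `s=0`: the integrand of `res p c r 1 Q Qy`; the right hand side telescopes. -/
theorem St.hom (hI : I ∈ K) (P : Pencil K X p Q Qy c r) (hXp : X p = seg) (hXs : X s = seg)
    (hsp : s ≠ p) (hind : Indep (update X p (disc c r)) s Q) :
    St (IsRat K X) X {s, p} (fun z => res p c r (fun _ => 1) Q Qy z - tpi p z) := by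
  have h0X : (0 : ℂ) ∈ X s := hXs ▸ zero_mem_seg
  have h1X : (1 : ℂ) ∈ X s := hXs ▸ one_mem_seg
  have hud : ∀ w ∈ (update X p (disc c r)) p,
      UniqueDiffWithinAt ℂ ((update X p (disc c r)) p) w := by
    rw [update_self]
    exact ud_disc c r P.hr
  have hindy : Indep (update X p (disc c r)) s Qy := Part.indep hsp hud P.part hind
  -- the homotopy for each quarter
  have hj : ∀ j ∈ Finset.range 4, St (IsRat K X) X {s, p} (fun z =>
      1 / vbL Q c r p s j (update z s 1) * vbLp Qy c r p s j (update z s 1)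
      - 1 / vbL Q c r p s j (update z s 0) * vbLp Qy c r p s j (update z s 0)
      - 1 / vbL Q c r p s j (update z p 1) * vbLs Q c r p j (update z p 1)
      + 1 / vbL Q c r p s j (update z p 0) * vbLs Q c r p j (update z p 0)) := by
    intro j _
    have hW : IsRat K (update X p {y : ℂ | y ≠ 0}) (fun z => 1 / z p) := by
      refine IsRat.div ((IsRat.natCast 1).congr (fun z _ => by simp)) (IsRat.coord p) ?_
      intro z hz
      have := hz p
      rw [update_self] at this
      exact this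
    have hWs : Indep (update X p {y : ℂ | y ≠ 0}) s (fun z => 1 / z p) := by
      intro z _ w _
      have h1 : (update z s w) p = z p := update_of_ne (Ne.symm hsp) _ _
      simp only [h1]
    have hφ : IsRat K X (vbL Q c r p s j) := by
      have ha : IsRat K X (fun z => 1 - z s) :=
        (((IsRat.natCast 1).congr (fun z _ => by simp) : IsRat K X (fun _ => 1))).sub
          (IsRat.coord s)
      exact (ha.mul (vb_isRat hI P hXp P.ratQ j)).add
        ((IsRat.coord s).mul ((IsRat.ratCast r).mul (isRat_uj hI hXp j)))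
    have hφB : ∀ z ∈ Dom X, vbL Q c r p s j z ∈ {y : ℂ | y ≠ 0} := by
      intro z hz
      have h1 := P.seg_ne hz (vb_mem (c := c) P.hr hXp j hz) (hXs ▸ hz s : z s ∈ seg)
      have h2 : vbL Q c r p s j z = (1 - z s) * Q (update z p (c + (r : ℂ) * uj j (z p)))
          + z s * (c + (r : ℂ) * uj j (z p) - c) := by
        simp only [vbL, vbQ]
        ring
      rw [Set.mem_ofPred_eq, h2]
      exact h1
    have h := St.homotopy hsp hXs hXp hW hWs hφ hφB (vb_part_s P hXp hsp hind j)
      (vb_part_p P hXp hsp j)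
    simpa only [update_self] using h
  have hsum := (St.sum (Finset.range 4) _ hj).neg
  refine hsum.congr _ _ (fun z hz => ?_)
  have hzp : z p ∈ seg := hXp ▸ hz p
  -- the terms at `s = 1`
  have e1 : ∀ j, 1 / vbL Q c r p s j (update z s 1) * vbLp Qy c r p s j (update z s 1)
      = 1 / (c + (r : ℂ) * uj j (z p) - c) * ((r : ℂ) * duj j (z p)) := by
    intro j
    have h1 : (update z s (1 : ℂ)) p = z p := update_of_ne (Ne.symm hsp) _ _
    simp only [vbL, vbLp, update_self, h1]
    ring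
  have e2 : ∀ j, 1 / vbL Q c r p s j (update z s 0) * vbLp Qy c r p s j (update z s 0)
      = (1 * Qy (update z p (c + (r : ℂ) * uj j (z p))) / Q (update z p (c + (r : ℂ) * uj j (z p))))
        * ((r : ℂ) * duj j (z p)) := by
    intro j
    have h1 : (update z s (0 : ℂ)) p = z p := update_of_ne (Ne.symm hsp) _ _
    have h2 : vbQ Q c r p j (update z s 0) = vbQ Q c r p j z :=
      vb_indep P.hr hXp hsp hind j z hz 0 h0X
    have h3 : vbQ Qy c r p j (update z s 0) = vbQ Qy c r p j z :=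
      vb_indep P.hr hXp hsp hindy j z hz 0 h0X
    simp only [vbL, vbLp, update_self, h1, h2, h3]
    simp only [vbQ]
    ring
  have e3 : ∀ j, 1 / vbL Q c r p s j (update z p 1) * vbLs Q c r p j (update z p 1)
      = vbT Q c r p s z (uj (j + 1) 0) := by
    intro j
    have h1 : (update z p (1 : ℂ)) s = z s := update_of_ne hsp _ _
    simp only [vbL, vbLs, vbT, vbQ, update_self, h1, update_idem, uj_one]
    ring
  have e4 : ∀ j, 1 / vbL Q c r p s j (update z p 0) * vbLs Q c r p j (update z p 0)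
      = vbT Q c r p s z (uj j 0) := by
    intro j
    have h1 : (update z p (0 : ℂ)) s = z s := update_of_ne hsp _ _
    simp only [vbL, vbLs, vbT, vbQ, update_self, h1, update_idem]
    ring
  have e5 : tpi p z = ∑ j ∈ Finset.range 4,
      1 / (c + (r : ℂ) * uj j (z p) - c) * ((r : ℂ) * duj j (z p)) := by
    rw [← ctr_inv (c := c) P.hr hzp]
    simp only [ctr, update_self]
  have e6 : res p c r (fun _ => 1) Q Qy z = ∑ j ∈ Finset.range 4,
      (1 * Qy (update z p (c + (r : ℂ) * uj j (z p))) / Q (update z p (c + (r : ℂ) * uj j (z p))))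
        * ((r : ℂ) * duj j (z p)) := rfl
  have e7 : ∑ j ∈ Finset.range 4, (vbT Q c r p s z (uj (j + 1) 0) - vbT Q c r p s z (uj j 0)) = 0 := by
    rw [Finset.sum_range_sub (fun j => vbT Q c r p s z (uj j 0)) 4, uj_four, sub_self]
  rw [e5, e6]
  simp only [e1, e2, e3, e4]
  have e8 : ∑ j ∈ Finset.range 4,
      (1 / (c + (r : ℂ) * uj j (z p) - c) * ((r : ℂ) * duj j (z p))
        - (1 * Qy (update z p (c + (r : ℂ) * uj j (z p))) /
            Q (update z p (c + (r : ℂ) * uj j (z p)))) * ((r : ℂ) * duj j (z p))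
        - vbT Q c r p s z (uj (j + 1) 0) + vbT Q c r p s z (uj j 0))
      = ∑ j ∈ Finset.range 4, 1 / (c + (r : ℂ) * uj j (z p) - c) * ((r : ℂ) * duj j (z p))
        - ∑ j ∈ Finset.range 4, (1 * Qy (update z p (c + (r : ℂ) * uj j (z p))) /
            Q (update z p (c + (r : ℂ) * uj j (z p)))) * ((r : ℂ) * duj j (z p))
        - ∑ j ∈ Finset.range 4,
          (vbT Q c r p s z (uj (j + 1) 0) - vbT Q c r p s z (uj j 0)) := by
    rw [← Finset.sum_sub_distrib, ← Finset.sum_sub_distrib]
    exact Finset.sum_congr rfl (fun j _ => by ring)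
  rw [e8, e7]
  ring

end MP1eadaeL
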