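import Mathlib
import Pool.Agent.Lib_MP_1eadae_ag.Defs
import Pool.Agent.Lib_MP_1eadae_ag.RatA
import Pool.Agent.Lib_MP_1eadae_ag.RatB
import Pool.Agent.Lib_MP_1eadae_ag.RatC
import Pool.Agent.Lib_MP_1eadae_ag.Ctr
import Pool.Agent.Lib_MP_1eadae_ag.Stk
import Pool.Agent.Lib_MP_1eadae_ag.Pen
import Pool.Agent.Lib_MP_1eadae_ag.VanA
import Pool.Agent.Lib_MP_1eadae_ag.VanB

/-! # MP_1eadae_ag, piece TOR: comparison of two presentations by a torus integral -/

namespace MP1eadaeL

open Complex Function

variable {K : Subfield ℂ}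

theorem tor_mem {X : ℕ → Set ℂ} {p : ℕ} {B B' : Set ℂ} {z : Pt} (hz : z ∈ Dom (update X p B))
    {w : ℂ} (hw : w ∈ B') : update z p w ∈ Dom (update X p B') := by
  have h := update_mem_dom (p := p) hz hw
  rwa [update_idem] at h

theorem tor_mono {X : ℕ → Set ℂ} {p : ℕ} {B B' : Set ℂ} (h : B' ⊆ B) :
    ∀ z ∈ Dom (update X p B'), z ∈ Dom (update X p B) := by
  intro z hz i
  have h1 := hz i
  by_cases hi : i = p
  · subst hi
    rw [update_self] at h1 ⊢
    exact h h1
  · rw [update_of_ne hi] at h1 ⊢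
    exact h1

/-- setting a coordinate in the segment to `0` -/
theorem tor_rat0 {X : ℕ → Set ℂ} {q : ℕ} {B : Set ℂ} {V : Pt → ℂ} (hX : X q = seg)
    (hV : IsRat K X V) : IsRat K (update X q B) (fun z => V (update z q 0)) := by
  refine IsRat.subst (p := q) (B := seg) (g := fun _ => 0) ?_ (IsRat.const 0 K.zero_mem)
    (fun _ _ => zero_mem_seg)
  rw [update_idem, ← hX, update_eq_self]
  exact hV

/-- the divided difference of the equation of a pencil does not vanish -/
theorem tor_DQ_ne {p q : ℕ} (hpq : p ≠ q) {c : ℂ} {r : ℚ} {Q Qy : Pt → ℂ}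
    (P : Pencil K X0 p Q Qy c r) {D : Pt → ℂ}
    (hD : IsRat K (update (update X0 p (disc c r)) q (disc c r)) D)
    (hDe : ∀ z ∈ Dom (update (update X0 p (disc c r)) q (disc c r)),
      Q (update z q 0) - Q (update (update z q 0) p (z q)) = (z p - z q) * D z) :
    ∀ z ∈ Dom (update (update X0 p (disc c r)) q (disc c r)), D z ≠ 0 := by
  intro z hz
  have hzw : ∀ w ∈ disc c r,
      update z p w ∈ Dom (update (update X0 p (disc c r)) q (disc c r)) := by
    intro w hw
    rw [update_comm hpq] at hz ⊢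
    exact tor_mem hz hw
  have he : z q ∈ disc c r := by
    have h1 := hz q
    rwa [update_self] at h1
  have hy : z p ∈ disc c r := by
    have h1 := hz p
    rwa [update_of_ne hpq, update_self] at h1
  have hz' : update (update z q 0) p 0 ∈ Dom X0 := by
    refine update_mem_dom' (B := disc c r) ?_ zero_mem_seg
    refine update_mem_dom' (B := disc c r) hz ?_
    rw [update_of_ne hpq.symm]
    exact zero_mem_seg
  have key : ∀ w ∈ disc c r, w ≠ z q → ‖D (update z p w) - 1‖ ≤ 1 / 2 := by
    intro w hw hne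
    have h1 := hDe _ (hzw w hw)
    have h2 := P.contr _ hz' w hw (z q) he
    have e1 : update (update z p w) q 0 = update (update z q 0) p w := update_comm hpq _ _ _
    rw [e1, update_idem, update_self, update_of_ne hpq.symm] at h1
    rw [update_idem, update_idem] at h2
    have h3 : (Q (update (update z q 0) p w) - w) - (Q (update (update z q 0) p (z q)) - z q)
        = (w - z q) * (D (update z p w) - 1) := by
      linear_combination h1
    rw [h3, norm_mul] at h2
    have h4 : 0 < ‖w - z q‖ := norm_pos_iff.2 (sub_ne_zero.2 hne)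
    nlinarith
  have hcont : ContinuousOn (fun w => D (update z p w)) (disc c r) :=
    hD.continuousOn.comp ((continuous_const (y := z)).update p continuous_id).continuousOn hzw
  have hacc : AccPt (z q) (Filter.principal (disc c r)) :=
    (ud_disc c r P.hr (z q) he).accPt
  have hat : ‖D (update z p (z q)) - 1‖ ≤ 1 / 2 := by
    have h1 : Filter.Tendsto (fun w => ‖D (update z p w) - 1‖)
        (nhdsWithin (z q) {z q}ᶜ ⊓ Filter.principal (disc c r))
        (nhds ‖D (update z p (z q)) - 1‖) := by
      have h2 := ((hcont (z q) he).sub_const 1).norm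
      refine h2.mono_left ?_
      exact inf_le_inf_right _ nhdsWithin_le_nhds
    have : (nhdsWithin (z q) {z q}ᶜ ⊓ Filter.principal (disc c r)).NeBot := hacc
    refine le_of_tendsto h1 ?_
    have h3 : ∀ᶠ w in (nhdsWithin (z q) {z q}ᶜ ⊓ Filter.principal (disc c r)), w ≠ z q :=
      Filter.Eventually.filter_mono inf_le_left self_mem_nhdsWithin
    have h4 : ∀ᶠ w in (nhdsWithin (z q) {z q}ᶜ ⊓ Filter.principal (disc c r)), w ∈ disc c r :=
      Filter.Eventually.filter_mono inf_le_right (Filter.mem_principal_self _)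
    filter_upwards [h3, h4] with w hw1 hw2 using key w hw2 hw1
  have hfin : ‖D z - 1‖ ≤ 1 / 2 := by
    by_cases h : z p = z q
    · rw [← h, update_eq_self] at hat
      exact hat
    · have h1 := key (z p) hy h
      rwa [update_eq_self] at h1
  intro h0
  rw [h0] at hfin
  norm_num at hfin

/-- the quotient of divided differences -/
theorem tor_G {p q s : ℕ} (hpq : p ≠ q) (hsp : s ≠ p) (hsq : s ≠ q) {c : ℂ} {r : ℚ}
    {F Q Qy : Pt → ℂ} (P : Pencil K X0 p Q Qy c r)
    (hF : IsRat K (update X0 p (disc c r)) F)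
    (hFs : Indep (update X0 p (disc c r)) s F) (hQs : Indep (update X0 p (disc c r)) s Q) :
    ∃ G : Pt → ℂ, IsRat K (update (update X0 p (disc c r)) q (disc c r)) G ∧
      (∀ z ∈ Dom (update (update X0 p (disc c r)) q (disc c r)),
        F (update z q 0) - F (update (update z q 0) p (z q))
          = G z * (Q (update z q 0) - Q (update (update z q 0) p (z q)))) ∧
      Indep (update (update X0 p (disc c r)) q (disc c r)) s G := by
  obtain ⟨DF, hDF, hDFe, hDFs⟩ := IsRat.divided (K := K) (X := X0) hpq rfl P.hr hF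
  obtain ⟨DQ, hDQ, hDQe, hDQs⟩ := IsRat.divided (K := K) (X := X0) hpq rfl P.hr P.ratQ
  have hne := tor_DQ_ne hpq P hDQ hDQe
  refine ⟨fun z => DF z / DQ z, hDF.div hDQ hne, ?_, ?_⟩
  · intro z hz
    rw [hDFe z hz, hDQe z hz]
    have h0 := hne z hz
    field_simp
  · intro z hz w hw
    show DF (update z s w) / DQ (update z s w) = DF z / DQ z
    rw [hDFs s hsp hsq hFs z hz w hw, hDQs s hsp hsq hQs z hz w hw]


theorem tor_indep0 {X : ℕ → Set ℂ} {q s : ℕ} (hsq : s ≠ q) {B : Set ℂ} {V : Pt → ℂ}
    (hX : X q = seg) (hV : Indep X s V) :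
    Indep (update X q B) s (fun z => V (update z q 0)) := by
  intro z hz w hw
  show V (update (update z s w) q 0) = V (update z q 0)
  rw [update_comm hsq]
  refine hV _ (update_mem_dom' hz (by rw [hX]; exact zero_mem_seg)) w ?_
  rwa [update_of_ne hsq] at hw

theorem tor_indep_mono {X : ℕ → Set ℂ} {p s : ℕ} (hsp : s ≠ p) {B B' : Set ℂ} (h : B' ⊆ B)
    {V : Pt → ℂ} (hV : Indep (update X p B) s V) : Indep (update X p B') s V := by
  intro z hz w hw
  refine hV z (tor_mono h z hz) w ?_
  rwa [update_of_ne hsp] at hw ⊢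

theorem tor_indep_mul {X : ℕ → Set ℂ} {s : ℕ} {V W : Pt → ℂ} (hV : Indep X s V)
    (hW : Indep X s W) : Indep X s (fun z => V z * W z) := by
  intro z hz w hw
  show V (update z s w) * W (update z s w) = V z * W z
  rw [hV z hz w hw, hW z hz w hw]

theorem tor_indep_div {X : ℕ → Set ℂ} {s : ℕ} {V W : Pt → ℂ} (hV : Indep X s V)
    (hW : Indep X s W) : Indep X s (fun z => V z / W z) := by
  intro z hz w hw
  show V (update z s w) / W (update z s w) = V z / W z
  rw [hV z hz w hw, hW z hz w hw]

/-- the residue integrand is independent of a coordinate of which the data are independent -/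
theorem tor_indep_res {p i : ℕ} (hip : i ≠ p) {c : ℂ} {r : ℚ}
    {F Q Qy : Pt → ℂ} (P : Pencil K X0 p Q Qy c r)
    (hF : Indep (update X0 p (disc c r)) i F) (hQ : Indep (update X0 p (disc c r)) i Q) :
    Indep X0 i (res p c r F Q Qy) := by
  have hQy : Indep (update X0 p (disc c r)) i Qy := by
    refine Part.indep hip ?_ P.part hQ
    rw [update_self]
    exact ud_disc c r P.hr
  refine ctr_indep hip P.hr.le rfl ?_
  have h := tor_indep_mono hip (circ_subset_disc c r)
    (tor_indep_div (tor_indep_mul hF hQy) hQ)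
  exact h

/-- the double contour integral of a function regular on the first disc -/
theorem tor_half (hI : I ∈ K) {p q s : ℕ} (hpq : p ≠ q) (hsp : s ≠ p) (hsq : s ≠ q)
    {c c2 : ℂ} {r r2 : ℚ} (hc : c ∈ K) (hr : 0 < r) (hc2 : c2 ∈ K) (hr2 : 0 < r2) {A : Pt → ℂ}
    (hA : IsRat K (update (update X0 p (disc c r)) q (circ c2 r2)) A)
    (hAs : Indep (update (update X0 p (disc c r)) q (circ c2 r2)) s A) :
    St (IsRat K X0) X0 {s, p, q} (ctr p c r (ctr q c2 r2 A)) := by
  have hXq : (update X0 p (disc c r)) q = seg := by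
    rw [update_of_ne hpq.symm]
    rfl
  have h1 : IsRat K (update X0 p (disc c r)) (ctr q c2 r2 A) :=
    IsRat.ctr hI hc2 hr2.le hXq hA
  have h2 : Indep (update X0 p (disc c r)) s (ctr q c2 r2 A) := ctr_indep hsq hr2.le hXq hAs
  have h3 := St.cauchy hI hc hr (X := X0) (p := p) (s := s) rfl rfl hsp h1 h2
  refine St.mono (fun _ h => h) ?_ h3
  intro i hi
  simp only [Set.mem_insert_iff, Set.mem_singleton_iff] at hi ⊢
  tauto

/-- set `q := 0` in a function on the first disc, the coordinate `q` ranging over `B` -/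
theorem tor_rp {p q : ℕ} (hpq : p ≠ q) {A B : Set ℂ} {V : Pt → ℂ}
    (hV : IsRat K (update X0 p A) V) :
    IsRat K (update (update X0 p A) q B) (fun z => V (update z q 0)) :=
  tor_rat0 (by rw [update_of_ne hpq.symm]; rfl) hV

theorem tor_rq {p q : ℕ} (hpq : p ≠ q) {A B : Set ℂ} {V : Pt → ℂ}
    (hV : IsRat K (update X0 q B) V) :
    IsRat K (update (update X0 p A) q B) (fun z => V (update z p 0)) := by
  rw [update_comm hpq]
  exact tor_rp hpq.symm hV

theorem tor_ip {p q s : ℕ} (hpq : p ≠ q) (hsq : s ≠ q) {A B : Set ℂ} {V : Pt → ℂ}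
    (hV : Indep (update X0 p A) s V) :
    Indep (update (update X0 p A) q B) s (fun z => V (update z q 0)) :=
  tor_indep0 hsq (by rw [update_of_ne hpq.symm]; rfl) hV

theorem tor_iq {p q s : ℕ} (hpq : p ≠ q) (hsp : s ≠ p) {A B : Set ℂ} {V : Pt → ℂ}
    (hV : Indep (update X0 q B) s V) :
    Indep (update (update X0 p A) q B) s (fun z => V (update z p 0)) := by
  rw [update_comm hpq]
  exact tor_ip hpq.symm hsp hV

/-- the identity of the divided differences after substitution -/
theorem tor_G2 {p q s : ℕ} (hpq : p ≠ q) (hsp : s ≠ p) (hsq : s ≠ q) {c c2 : ℂ} {r r2 : ℚ}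
    {F Q Qy Q2 E h : Pt → ℂ} (P : Pencil K X0 p Q Qy c r)
    (hF : IsRat K (update X0 p (disc c r)) F)
    (hFs : Indep (update X0 p (disc c r)) s F) (hQs : Indep (update X0 p (disc c r)) s Q)
    (hE : IsRat K (update X0 q (disc c2 r2)) E)
    (hEd : ∀ z ∈ Dom (update X0 q (disc c2 r2)), E z ∈ disc c r)
    (hEs : Indep (update X0 q (disc c2 r2)) s E)
    (hQE : ∀ z ∈ Dom (update X0 q (disc c2 r2)),
      Q (update (update z q 0) p (E z)) = Q2 z * h z) :
    ∃ G : Pt → ℂ, IsRat K (update (update X0 p (disc c r)) q (disc c2 r2)) G ∧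
      (∀ z ∈ Dom (update (update X0 p (disc c r)) q (disc c2 r2)),
        F (update z q 0) - F (update (update z q 0) p (E (update z p 0)))
          = G z * (Q (update z q 0) - Q2 (update z p 0) * h (update z p 0))) ∧
      Indep (update (update X0 p (disc c r)) q (disc c2 r2)) s G := by
  obtain ⟨G, hG, hGe, hGs⟩ := tor_G hpq hsp hsq P hF hFs hQs
  have hmp : ∀ z ∈ Dom (update (update X0 p (disc c r)) q (disc c2 r2)),
      update z p 0 ∈ Dom (update X0 q (disc c2 r2)) := by
    intro z hz
    rw [update_comm hpq] at hz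
    refine update_mem_dom' hz ?_
    rw [update_of_ne hpq]
    exact zero_mem_seg
  have hmq : ∀ z ∈ Dom (update (update X0 p (disc c r)) q (disc c2 r2)), ∀ w ∈ disc c r,
      update z q w ∈ Dom (update (update X0 p (disc c r)) q (disc c r)) :=
    fun z hz w hw => tor_mem hz hw
  refine ⟨fun z => G (update z q (E (update z p 0))), ?_, ?_, ?_⟩
  · refine IsRat.subst (p := q) (B := disc c r) (g := fun z => E (update z p 0)) ?_
      (tor_rq hpq hE) (fun z hz => hEd _ (hmp z hz))
    rw [update_idem]
    exact hG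
  · intro z hz
    have h1 := hGe _ (hmq z hz _ (hEd _ (hmp z hz)))
    have h2 := hQE _ (hmp z hz)
    rw [update_comm hpq, update_idem] at h2
    rw [update_idem, update_self, h2] at h1
    exact h1
  · intro z hz w hw
    show G (update (update z s w) q (E (update (update z s w) p 0)))
      = G (update z q (E (update z p 0)))
    have hws : w ∈ X0 s := by
      rwa [update_of_ne hsq, update_of_ne hsp] at hw
    have h1 : E (update (update z s w) p 0) = E (update z p 0) := by
      rw [update_comm hsp]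
      refine hEs _ (hmp z hz) w ?_
      rwa [update_of_ne hsq]
    rw [h1, update_comm hsq]
    refine hGs _ (hmq z hz _ (hEd _ (hmp z hz))) w ?_
    rwa [update_of_ne hsq, update_of_ne hsp]

theorem tor_alg (f f' g Qv Qyv Q2v Q2xv hv a b : ℂ) (hQ : Qv ≠ 0) (hQ2 : Q2v ≠ 0)
    (h : f - f' = g * (Qv - Q2v * hv)) :
    (f * Qyv / Qv * a) * (1 * Q2xv / Q2v * b) - (1 * Qyv / Qv * a) * (f' * Q2xv / Q2v * b)
      = (g * Qyv * Q2xv / Q2v) * b * a - (g * hv * Q2xv * Qyv / Qv) * b * a := by
  have h1 : f = f' + g * (Qv - Q2v * hv) := by linear_combination h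
  rw [h1]
  field_simp
  ring

theorem tor_ctr2 {p q : ℕ} (hpq : p ≠ q) (c c2 : ℂ) (r r2 : ℚ) (H : Pt → ℂ) (z : Pt) :
    ctr p c r (ctr q c2 r2 H) z = ∑ j ∈ Finset.range 4, ∑ k ∈ Finset.range 4,
      H (update (update z p (c + (r : ℂ) * uj j (z p))) q (c2 + (r2 : ℂ) * uj k (z q)))
        * ((r2 : ℂ) * duj k (z q)) * ((r : ℂ) * duj j (z p)) := by
  unfold ctr
  refine Finset.sum_congr rfl fun j _ => ?_
  rw [Finset.sum_mul, update_of_ne hpq.symm]

/-- the pointwise identity of the torus integrals -/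
theorem tor_point {p q : ℕ} (hpq : p ≠ q)
    {c c2 : ℂ} {r r2 : ℚ} {F Q Qy Q2 Q2x E h G : Pt → ℂ}
    (P : Pencil K X0 p Q Qy c r) (P2 : Pencil K X0 q Q2 Q2x c2 r2)
    (hFq : Indep (update X0 p (disc c r)) q F)
    (hQq : Indep (update X0 p (disc c r)) q Q)
    (hQ2p : Indep (update X0 q (disc c2 r2)) p Q2)
    (hEp : Indep (update X0 q (disc c2 r2)) p E)
    (hhp : Indep (update X0 q (disc c2 r2)) p h)
    (hGe : ∀ z ∈ Dom (update (update X0 p (disc c r)) q (disc c2 r2)),
        F (update z q 0) - F (update (update z q 0) p (E (update z p 0)))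
          = G z * (Q (update z q 0) - Q2 (update z p 0) * h (update z p 0))) :
    ∀ z ∈ Dom X0, res p c r F Q Qy z * res q c2 r2 (fun _ => 1) Q2 Q2x z
      - res q c2 r2 (fun z => F (update (update z q 0) p (E z))) Q2 Q2x z
        * res p c r (fun _ => 1) Q Qy z
      = ctr p c r (ctr q c2 r2 (fun z => G z * Qy (update z q 0) * Q2x (update z p 0)
          / Q2 (update z p 0))) z
        - ctr q c2 r2 (ctr p c r (fun z => G z * h (update z p 0) * Q2x (update z p 0)
          * Qy (update z q 0) / Q (update z q 0))) z := by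
  intro z hz
  have hQyq : Indep (update X0 p (disc c r)) q Qy := by
    refine Part.indep hpq.symm ?_ P.part hQq
    rw [update_self]
    exact ud_disc c r P.hr
  have hQ2xp : Indep (update X0 q (disc c2 r2)) p Q2x := by
    refine Part.indep hpq ?_ P2.part hQ2p
    rw [update_self]
    exact ud_disc c2 r2 P2.hr
  rw [← ctr_comm hpq, tor_ctr2 hpq, tor_ctr2 hpq,
    mul_comm (res q c2 r2 (fun z => F (update (update z q 0) p (E z))) Q2 Q2x z)]
  unfold res ctr
  rw [Finset.sum_mul_sum, Finset.sum_mul_sum, ← Finset.sum_sub_distrib,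
    ← Finset.sum_sub_distrib]
  refine Finset.sum_congr rfl fun j _ => ?_
  rw [← Finset.sum_sub_distrib, ← Finset.sum_sub_distrib]
  refine Finset.sum_congr rfl fun k _ => ?_
  have hy : c + (r : ℂ) * uj j (z p) ∈ circ c r := mem_circ_uj c P.hr.le j (hz p)
  have hx : c2 + (r2 : ℂ) * uj k (z q) ∈ circ c2 r2 := mem_circ_uj c2 P2.hr.le k (hz q)
  generalize c + (r : ℂ) * uj j (z p) = y at hy ⊢
  generalize c2 + (r2 : ℂ) * uj k (z q) = x at hx ⊢
  have hzyc : update z p y ∈ Dom (update X0 p (circ c r)) := update_mem_dom hz hy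
  have hzxc : update z q x ∈ Dom (update X0 q (circ c2 r2)) := update_mem_dom hz hx
  have hzy : update z p y ∈ Dom (update X0 p (disc c r)) :=
    tor_mono (circ_subset_disc c r) _ hzyc
  have hzx : update z q x ∈ Dom (update X0 q (disc c2 r2)) :=
    tor_mono (circ_subset_disc c2 r2) _ hzxc
  have hw : update (update z p y) q x ∈ Dom (update (update X0 p (disc c r)) q (disc c2 r2)) :=
    update_mem_dom hzy (circ_subset_disc c2 r2 hx)
  have e1 : update (update (update z p y) q x) q 0 = update (update z p y) q 0 := update_idem _ _ _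
  have e2 : update (update (update z p y) q x) p 0 = update (update z q x) p 0 := by
    rw [update_comm hpq.symm, update_idem, update_comm hpq]
  have s1 : (0 : ℂ) ∈ update X0 p (disc c r) q := by
    rw [update_of_ne hpq.symm]; exact zero_mem_seg
  have s2 : (0 : ℂ) ∈ update X0 q (disc c2 r2) p := by
    rw [update_of_ne hpq]; exact zero_mem_seg
  have hk := hGe _ hw
  have e3 : update (update (update (update z p y) q x) q 0) p (E (update z q x))
      = update (update (update z q x) q 0) p (E (update z q x)) := by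
    rw [update_idem, update_idem, update_comm hpq, update_idem]
  rw [e2, hEp _ hzx 0 s2, hQ2p _ hzx 0 s2, hhp _ hzx 0 s2, e3, e1, hFq _ hzy 0 s1,
    hQq _ hzy 0 s1] at hk
  show _ = (G (update (update z p y) q x) * Qy (update (update (update z p y) q x) q 0)
      * Q2x (update (update (update z p y) q x) p 0)
      / Q2 (update (update (update z p y) q x) p 0)) * _ * _
    - (G (update (update z p y) q x) * h (update (update (update z p y) q x) p 0)
      * Q2x (update (update (update z p y) q x) p 0)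
      * Qy (update (update (update z p y) q x) q 0)
      / Q (update (update (update z p y) q x) q 0)) * _ * _
  rw [e1, e2, hQ2p _ hzx 0 s2, hhp _ hzx 0 s2, hQ2xp _ hzx 0 s2, hQq _ hzy 0 s1,
    hQyq _ hzy 0 s1]
  exact tor_alg _ _ _ _ _ _ _ _ _ _ (P.circ_ne rfl hzyc) (P2.circ_ne rfl hzxc) hk

/-- Piece TOR.  Two presentations of the same algebraic function.  `(F, Q, c, r)` in the coordinate
`p`; `(Q2, c2, r2)` in the coordinate `q`; `E(z, x)` (`x = z_q` in the second disc) has values in the
first disc and `Q(z, E(z,x)) = Q2(z,x) h(z,x)`, i.e. the root of `Q` is `E` of the root of `Q2`.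
Then `2πi_q · res_p(F,Q) ~ 2πi_p · res_q(F∘E, Q2)`.

For `z` with `z_q` in the disc, `F` and `Q` are evaluated at `update z q 0` (they do not depend on
the coordinate `q`).

Proof.  Let `T = ctr p (ctr q (F · Qy/Q · Q2x/Q2))` where `F, Q, Qy` are evaluated at `z_q := 0` and
`Q2, Q2x` at `z_p := 0`.
(a) `T = res_p(F,Q) · res_q(1,Q2)` pointwise on `Dom X0`, and
`St (res_p(F,Q) · (res_q(1,Q2) - tpi q))` by `St.hom` (directions `s, q`; `res_p(F,Q)` is
independent of `s, q`) and `St.mul_indep`.
(b) `T' = ctr p (ctr q (F∘E · Qy/Q · Q2x/Q2)) = res_q(F∘E,Q2) · res_p(1,Q)` and similarly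
`St (res_q(F∘E,Q2) · (res_p(1,Q) - tpi p))` (directions `s, p`).
(c) `T - T'`: by `IsRat.divided` (applied to `F` and to `Q`, auxiliary coordinate `q` renamed:
the divided differences `DF, DQ` are rational on `Dom (X0[p:=disc c r][e:=disc c r])`; take the
auxiliary coordinate to be `q` itself in `IsRat.divided` and then substitute `z_q := E(z,x)`):
`F(z,y) - F(z,E) = (y - E) DF(z,y,E)`, `Q(z,y) - Q(z,E) = (y-E) DQ(z,y,E)`, `DQ ≠ 0` by the contraction
property (`‖DQ - 1‖ ≤ 1/2` for `y ≠ E`, for `y = E` by continuity).  Hence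
`F(z,y) - F(z,E) = (DF/DQ)(Q(z,y) - Q2(z,x) h(z,x))` and
`(F - F∘E) · Qy/Q · Q2x/Q2 = (DF/DQ) Qy · (Q2x/Q2) - (DF/DQ) h Q2x · (Qy/Q)`.
First term: for `x` on the circle in the coordinate `q` it is regular in `y` on the whole disc, so
`ctr p (ctr q (..)) = ctr p (regular)` is in the span by `St.cauchy` (directions `s, p`, on `X = X0`,
with `H = ctr q c2 r2 (..)`, rational on `Dom (X0[p:=disc c r])` by `IsRat.ctr`).
Second term: after `ctr_comm` it is `ctr q (H')` with `H' = ctr p (..)` rational on
`Dom (X0[q := disc c2 r2])`, again `St.cauchy` (directions `s, q`). -/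
theorem St.torus (hI : I ∈ K) {p q s : ℕ} (hpq : p ≠ q) (hsp : s ≠ p) (hsq : s ≠ q)
    {c c2 : ℂ} {r r2 : ℚ} {F Q Qy Q2 Q2x E h : Pt → ℂ}
    (P : Pencil K X0 p Q Qy c r) (P2 : Pencil K X0 q Q2 Q2x c2 r2)
    (hF : IsRat K (update X0 p (disc c r)) F)
    (hFq : Indep (update X0 p (disc c r)) q F) (hFs : Indep (update X0 p (disc c r)) s F)
    (hQq : Indep (update X0 p (disc c r)) q Q) (hQs : Indep (update X0 p (disc c r)) s Q)
    (hQ2p : Indep (update X0 q (disc c2 r2)) p Q2) (hQ2s : Indep (update X0 q (disc c2 r2)) s Q2)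
    (hE : IsRat K (update X0 q (disc c2 r2)) E)
    (hEd : ∀ z ∈ Dom (update X0 q (disc c2 r2)), E z ∈ disc c r)
    (hEp : Indep (update X0 q (disc c2 r2)) p E) (hEs : Indep (update X0 q (disc c2 r2)) s E)
    (hh : IsRat K (update X0 q (disc c2 r2)) h)
    (hhp : Indep (update X0 q (disc c2 r2)) p h) (hhs : Indep (update X0 q (disc c2 r2)) s h)
    (hQE : ∀ z ∈ Dom (update X0 q (disc c2 r2)),
      Q (update (update z q 0) p (E z)) = Q2 z * h z) :
    St (IsRat K X0) X0 {s, p, q} (fun z => tpi q z * res p c r F Q Qy z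
      - tpi p z * res q c2 r2 (fun z => F (update (update z q 0) p (E z))) Q2 Q2x z) := by
  classical
  have hD1 := circ_subset_disc c r
  have hD2 := circ_subset_disc c2 r2
  have hQys : Indep (update X0 p (disc c r)) s Qy := by
    refine Part.indep hsp ?_ P.part hQs
    rw [update_self]
    exact ud_disc c r P.hr
  have hQ2xs : Indep (update X0 q (disc c2 r2)) s Q2x := by
    refine Part.indep hsq ?_ P2.part hQ2s
    rw [update_self]
    exact ud_disc c2 r2 P2.hr
  obtain ⟨G, hG, hGe, hGs⟩ := tor_G2 hpq hsp hsq P hF hFs hQs hE hEd hEs hQE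
  -- the function `F ∘ E`
  have hmq : ∀ z ∈ Dom (update X0 q (disc c2 r2)), update (update z q 0) p (E z)
      ∈ Dom (update X0 p (disc c r)) := by
    intro z hz
    exact update_mem_dom (update_mem_dom' hz zero_mem_seg) (hEd z hz)
  have hFE : IsRat K (update X0 q (disc c2 r2))
      (fun z => F (update (update z q 0) p (E z))) := by
    have h1 := tor_rp (B := disc c2 r2) hpq hF
    rw [update_comm hpq] at h1
    refine (IsRat.subst h1 hE hEd).congr fun z _ => ?_
    rw [update_comm hpq]
  have hFEs : Indep (update X0 q (disc c2 r2)) s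
      (fun z => F (update (update z q 0) p (E z))) := by
    intro z hz w hw
    show F (update (update (update z s w) q 0) p (E (update z s w)))
      = F (update (update z q 0) p (E z))
    rw [hEs z hz w hw, update_comm hsq, update_comm hsp]
    refine hFs _ (hmq z hz) w ?_
    rw [update_of_ne hsq] at hw
    rwa [update_of_ne hsp]
  have hFEp : Indep (update X0 q (disc c2 r2)) p
      (fun z => F (update (update z q 0) p (E z))) := by
    intro z hz w hw
    show F (update (update (update z p w) q 0) p (E (update z p w)))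
      = F (update (update z q 0) p (E z))
    rw [hEp z hz w hw, update_comm hpq, update_idem]
  -- the homotopies to the standard integrands
  have hseg : ∀ (I0 : Set ℕ), ∀ i ∈ I0, (0 : ℂ) ∈ X0 i ∧ (1 : ℂ) ∈ X0 i :=
    fun _ _ _ => ⟨zero_mem_seg, one_mem_seg⟩
  have hr1 : IsRat K X0 (res p c r F Q Qy) := P.isRat_res hI rfl hF
  have hr2 : IsRat K X0 (res q c2 r2 (fun z => F (update (update z q 0) p (E z))) Q2 Q2x) :=
    P2.isRat_res hI rfl hFE
  have SH2 : St (IsRat K X0) X0 {s, q} (fun z => (res q c2 r2 (fun _ => 1) Q2 Q2x z - tpi q z)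
      * res p c r F Q Qy z) := by
    refine St.mul_indep (fun G hG => hG.mul hr1) (hseg _) ?_
      (St.hom hI P2 rfl rfl hsq hQ2s)
    intro i hi
    rcases hi with hi | hi
    · rw [hi]
      exact tor_indep_res hsp P hFs hQs
    · rw [hi]
      exact tor_indep_res hpq.symm P hFq hQq
  have SH1 : St (IsRat K X0) X0 {s, p} (fun z => (res p c r (fun _ => 1) Q Qy z - tpi p z)
      * res q c2 r2 (fun z => F (update (update z q 0) p (E z))) Q2 Q2x z) := by
    refine St.mul_indep (fun G hG => hG.mul hr2) (hseg _) ?_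
      (St.hom hI P rfl rfl hsp hQs)
    intro i hi
    rcases hi with hi | hi
    · rw [hi]
      exact tor_indep_res hsq P2 hFEs hQ2s
    · rw [hi]
      exact tor_indep_res hpq P2 hFEp hQ2p
  -- the two regular parts
  have hA : IsRat K (update (update X0 p (disc c r)) q (circ c2 r2))
      (fun z => G z * Qy (update z q 0) * Q2x (update z p 0) / Q2 (update z p 0)) := by
    refine IsRat.div (((hG.monoDom (tor_mono hD2)).mul (tor_rp hpq P.ratQy)).mul
      (tor_rq hpq (P2.ratQy.monoDom (tor_mono hD2))))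
      (tor_rq hpq (P2.ratQ.monoDom (tor_mono hD2))) fun z hz => ?_
    refine P2.circ_ne rfl ?_
    rw [update_comm hpq] at hz
    refine update_mem_dom' hz ?_
    rw [update_of_ne hpq]
    exact zero_mem_seg
  have hAs : Indep (update (update X0 p (disc c r)) q (circ c2 r2)) s
      (fun z => G z * Qy (update z q 0) * Q2x (update z p 0) / Q2 (update z p 0)) :=
    tor_indep_div (tor_indep_mul (tor_indep_mul (tor_indep_mono hsq hD2 hGs)
      (tor_ip hpq hsq hQys)) (tor_iq hpq hsp (tor_indep_mono hsq hD2 hQ2xs)))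
      (tor_iq hpq hsp (tor_indep_mono hsq hD2 hQ2s))
  have SA := tor_half hI hpq hsp hsq P.hc P.hr P2.hc P2.hr hA hAs
  have hG' := hG
  have hGs' := hGs
  rw [update_comm hpq] at hG' hGs'
  have hB : IsRat K (update (update X0 q (disc c2 r2)) p (circ c r))
      (fun z => G z * h (update z p 0) * Q2x (update z p 0) * Qy (update z q 0)
        / Q (update z q 0)) := by
    refine IsRat.div ((((hG'.monoDom (tor_mono hD1)).mul (tor_rp hpq.symm hh)).mul
      (tor_rp hpq.symm P2.ratQy)).mul (tor_rq hpq.symm (P.ratQy.monoDom (tor_mono hD1))))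
      (tor_rq hpq.symm (P.ratQ.monoDom (tor_mono hD1))) fun z hz => ?_
    refine P.circ_ne rfl ?_
    rw [update_comm hpq.symm] at hz
    refine update_mem_dom' hz ?_
    rw [update_of_ne hpq.symm]
    exact zero_mem_seg
  have hBs : Indep (update (update X0 q (disc c2 r2)) p (circ c r)) s
      (fun z => G z * h (update z p 0) * Q2x (update z p 0) * Qy (update z q 0)
        / Q (update z q 0)) :=
    tor_indep_div (tor_indep_mul (tor_indep_mul (tor_indep_mul
      (tor_indep_mono hsp hD1 hGs') (tor_ip hpq.symm hsp hhs))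
      (tor_ip hpq.symm hsp hQ2xs)) (tor_iq hpq.symm hsq (tor_indep_mono hsp hD1 hQys)))
      (tor_iq hpq.symm hsq (tor_indep_mono hsp hD1 hQs))
  have SB := tor_half hI hpq.symm hsq hsp P2.hc P2.hr P.hc P.hr hB hBs
  -- assembly
  have hpt := tor_point hpq P P2 hFq hQq hQ2p hEp hhp hGe
  have SH2' : St (IsRat K X0) X0 {s, p, q} (fun z => (res q c2 r2 (fun _ => 1) Q2 Q2x z
      - tpi q z) * res p c r F Q Qy z) := by
    refine St.mono (fun _ h => h) ?_ SH2
    intro i hi
    simp only [Set.mem_insert_iff, Set.mem_singleton_iff] at hi ⊢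
    tauto
  have SH1' : St (IsRat K X0) X0 {s, p, q} (fun z => (res p c r (fun _ => 1) Q Qy z
      - tpi p z) * res q c2 r2 (fun z => F (update (update z q 0) p (E z))) Q2 Q2x z) := by
    refine St.mono (fun _ h => h) ?_ SH1
    intro i hi
    simp only [Set.mem_insert_iff, Set.mem_singleton_iff] at hi ⊢
    tauto
  have SB' : St (IsRat K X0) X0 {s, p, q} (ctr q c2 r2 (ctr p c r
      (fun z => G z * h (update z p 0) * Q2x (update z p 0) * Qy (update z q 0)
        / Q (update z q 0)))) := by
    refine St.mono (fun _ h => h) ?_ SB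
    intro i hi
    simp only [Set.mem_insert_iff, Set.mem_singleton_iff] at hi ⊢
    tauto
  refine St.congr _ _ (((SA.sub SB').sub SH2').add _ _ SH1') fun z hz => ?_
  have h1 := hpt z hz
  linear_combination -h1

end MP1eadaeL
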