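import Mathlib
import Pool.Agent.Lib_MP_1eadae_ag.Defs
import Pool.Agent.Lib_MP_1eadae_ag.RatA
import Pool.Agent.Lib_MP_1eadae_ag.RatB
import Pool.Agent.Lib_MP_1eadae_ag.RatC
import Pool.Agent.Lib_MP_1eadae_ag.Ctr
import Pool.Agent.Lib_MP_1eadae_ag.Stk
import Pool.Agent.Lib_MP_1eadae_ag.Pen
import Pool.Agent.Lib_MP_1eadae_ag.Root
import Pool.Agent.Lib_MP_1eadae_ag.TwoSort
import Pool.Agent.Lib_MP_1eadae_ag.SubB
import Pool.Agent.Lib_MP_1eadae_ag.Scale
import Pool.Agent.Lib_MP_1eadae_ag.VanA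
import Pool.Agent.Lib_MP_1eadae_ag.VanB
import Pool.Agent.Lib_MP_1eadae_ag.Tor
import Pool.Agent.Lib_MP_1eadae_ag.Divides

/-! # MP_1eadae_ag, piece ULA: additivity of the residue in the presence of a common presentation -/

namespace MP1eadaeL

open Complex Function

theorem ula_dom0 {n : ℕ} {B : Set ℂ} {z : Pt} (hz : z ∈ Dom (update X0 (n + 1) B)) :
    update z (n + 1) 0 ∈ Dom X0 := by
  intro i
  by_cases h : i = n + 1
  · subst h
    rw [update_self]
    exact zero_mem_seg
  · rw [update_of_ne h]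
    have := hz i
    rwa [update_of_ne h] at this

/-- composition with the root `E` -/
theorem ula_rat {K : Subfield ℂ} {n : ℕ} {A B : Set ℂ} {F E : Pt → ℂ}
    (hF : IsRat K (update X0 n A) F) (hE : IsRat K (update X0 (n + 1) B) E)
    (hEm : ∀ z ∈ Dom (update X0 (n + 1) B), E z ∈ A) :
    IsRat K (update X0 (n + 1) B) (fun z => F (update (update z (n + 1) 0) n (E z))) := by
  refine hF.comp (fun z => update (update z (n + 1) 0) n (E z)) (fun i => ?_)
    (fun z hz => update_mem_dom (ula_dom0 hz) (hEm z hz))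
  by_cases h : i = n
  · subst h
    refine hE.congr fun z _ => ?_
    rw [update_self]
  · by_cases h' : i = n + 1
    · subst h'
      refine (IsRat.const 0 K.zero_mem).congr fun z _ => ?_
      rw [update_of_ne h, update_self]
    · refine (IsRat.coord i).congr fun z _ => ?_
      rw [update_of_ne h, update_of_ne h']

theorem ula_dep {n : ℕ} {A B : Set ℂ} {F E : Pt → ℂ}
    (hF : DepOn (update X0 n A) (Set.Iio (n + 1)) F)
    (hE : DepOn (update X0 (n + 1) B) (insert (n + 1) (Set.Iio n)) E)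
    (hEm : ∀ z ∈ Dom (update X0 (n + 1) B), E z ∈ A) :
    DepOn (update X0 (n + 1) B) (insert (n + 1) (Set.Iio n))
      (fun z => F (update (update z (n + 1) 0) n (E z))) := by
  intro z hz w hw hzw
  have h1 := hE z hz w hw hzw
  refine hF _ (update_mem_dom (ula_dom0 hz) (hEm z hz)) _
    (update_mem_dom (ula_dom0 hw) (hEm w hw)) fun i hi => ?_
  have hi' : i < n + 1 := hi
  by_cases h : i = n
  · subst h
    rw [update_self, update_self, h1]
  · rw [update_of_ne h, update_of_ne h, update_of_ne (by omega), update_of_ne (by omega)]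
    exact hzw i (Set.mem_insert_of_mem _ (Set.mem_Iio.mpr (by omega)))

/-- Piece ULA.  Functions `f_l` (`l < m`) with data `(c_l, r_l, F_l, Q_l, Qy_l)` in the coordinate `n`, and
a common pencil `Q2` in the coordinate `n+1` such that the root of `Q_l` is `E_l(z, x)` at the root `x` of
`Q2`.  If `∑ f_l = 0` then `2πi_{n+1} · ∑ res_l` is in the rational Stokes span.

Proof.  (1) `Q_l(z, E_l(z,x))` is rational on cube x second disc, depends on `z_0..z_{n-1}, x` and vanishes
where `Q2` vanishes, so it is `Q2 h_l` (`Pencil.divides` with `q = n+1`).  (2) `St.torus` (with `p = n`,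
`q = n+1`, `s = n+2`): `tpi (n+1) · res_l ~ tpi n · res (F_l∘E_l) Q2`.  (3) Sum over `l`:
`∑_l res (F_l∘E_l) Q2 = res (∑_l F_l∘E_l) Q2` (`ctr_sum`), and `Φ = ∑_l F_l(z, E_l(z,x))` vanishes where
`Q2 = 0` (there `E_l(z,x)` is the root of `Q_l`, so `F_l = f_l z`), so `Φ = Q2 h` (`Pencil.divides`) and
`res Φ Q2 = ctr (h Q2x)` on `Dom X0` (`ctr_congr`, `Q2 ≠ 0` on the circle, `Pencil.circ_ne`) is in the span by
`St.cauchy` (directions `n+2, n+1`), also after multiplication by `tpi n` (`St.mul_indep`). -/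
theorem ulA {K : Subfield ℂ} (hI : I ∈ K) (n m : ℕ) (f : Fin m → Pt → ℂ)
    (c : Fin m → ℂ) (r : Fin m → ℚ) (F Q Qy : Fin m → Pt → ℂ)
    (P : ∀ l, Pencil K X0 n (Q l) (Qy l) (c l) (r l))
    (hF : ∀ l, IsRat K (update X0 n (disc (c l) (r l))) (F l))
    (hFd : ∀ l, DepOn (update X0 n (disc (c l) (r l))) (Set.Iio (n + 1)) (F l))
    (hQd : ∀ l, DepOn (update X0 n (disc (c l) (r l))) (Set.Iio (n + 1)) (Q l))
    (hf : ∀ l, ∀ z ∈ Dom X0, ∀ w ∈ disc (c l) (r l), Q l (update z n w) = 0 →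
      F l (update z n w) = f l z)
    {c2 : ℂ} {r2 : ℚ} {Q2 Q2x : Pt → ℂ} (P2 : Pencil K X0 (n + 1) Q2 Q2x c2 r2)
    (hQ2d : DepOn (update X0 (n + 1) (disc c2 r2)) (insert (n + 1) (Set.Iio n)) Q2)
    (E : Fin m → Pt → ℂ) (hE : ∀ l, IsRat K (update X0 (n + 1) (disc c2 r2)) (E l))
    (hEd : ∀ l, DepOn (update X0 (n + 1) (disc c2 r2)) (insert (n + 1) (Set.Iio n)) (E l))
    (hEm : ∀ l, ∀ z ∈ Dom (update X0 (n + 1) (disc c2 r2)), E l z ∈ disc (c l) (r l))
    (hE0 : ∀ l, ∀ z ∈ Dom (update X0 (n + 1) (disc c2 r2)), Q2 z = 0 →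
      Q l (update (update z (n + 1) 0) n (E l z)) = 0)
    (hsum : ∀ z ∈ Dom X0, ∑ l, f l z = 0) :
    St (IsRat K X0) X0 Set.univ
      (fun z => tpi (n + 1) z * ∑ l, res n (c l) (r l) (F l) (Q l) (Qy l) z) := by
  classical
  have hn1 : n + 1 ∉ Set.Iio (n + 1) := fun h => absurd (Set.mem_Iio.mp h) (by omega)
  have hn2 : n + 2 ∉ Set.Iio (n + 1) := fun h => absurd (Set.mem_Iio.mp h) (by omega)
  have hn0' : n ∉ insert (n + 1) (Set.Iio n) := by
    rintro (h | h)
    · omega
    · exact absurd (Set.mem_Iio.mp h) (by omega)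
  have hn2' : n + 2 ∉ insert (n + 1) (Set.Iio n) := by
    rintro (h | h)
    · omega
    · exact absurd (Set.mem_Iio.mp h) (by omega)
  -- step 1 and 2
  have hstep : ∀ l, St (IsRat K X0) X0 Set.univ (fun z =>
      tpi (n + 1) z * res n (c l) (r l) (F l) (Q l) (Qy l) z
        - tpi n z * res (n + 1) c2 r2 (fun z => F l (update (update z (n + 1) 0) n (E l z)))
          Q2 Q2x z) := by
    intro l
    obtain ⟨h, hh, hhd, hQE⟩ := P2.divides (n := n) (Nat.le_succ n) hQ2d
      (ula_rat (P l).ratQ (hE l) (hEm l)) (ula_dep (hQd l) (hEd l) (hEm l)) (hE0 l)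
    refine St.mono (fun _ h => h) (Set.subset_univ _) (St.torus hI (p := n) (q := n + 1)
      (s := n + 2) (by omega) (by omega) (by omega) (P l) P2 (hF l) ((hFd l).indep hn1)
      ((hFd l).indep hn2) ((hQd l).indep hn1) ((hQd l).indep hn2) (hQ2d.indep hn0')
      (hQ2d.indep hn2') (hE l) (hEm l) ((hEd l).indep hn0') ((hEd l).indep hn2') hh
      (hhd.indep hn0') (hhd.indep hn2') hQE)
  -- step 3
  set Φ : Pt → ℂ := fun z => ∑ l, F l (update (update z (n + 1) 0) n (E l z)) with hΦ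
  have hΦr : IsRat K (update X0 (n + 1) (disc c2 r2)) Φ :=
    IsRat.sum _ _ fun l _ => ula_rat (hF l) (hE l) (hEm l)
  have hΦd : DepOn (update X0 (n + 1) (disc c2 r2)) (insert (n + 1) (Set.Iio n)) Φ := by
    intro z hz w hw hzw
    refine Finset.sum_congr rfl fun l _ => ?_
    exact ula_dep (hFd l) (hEd l) (hEm l) z hz w hw hzw
  have hΦ0 : ∀ z ∈ Dom (update X0 (n + 1) (disc c2 r2)), Q2 z = 0 → Φ z = 0 := by
    intro z hz hQ
    rw [← hsum _ (ula_dom0 hz)]
    refine Finset.sum_congr rfl fun l _ => ?_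
    exact hf l _ (ula_dom0 hz) _ (hEm l z hz) (hE0 l z hz hQ)
  obtain ⟨h, hh, hhd, hΦh⟩ := P2.divides (n := n) (Nat.le_succ n) hQ2d hΦr hΦd hΦ0
  have hUd : ∀ w ∈ (update X0 (n + 1) (disc c2 r2)) (n + 1),
      UniqueDiffWithinAt ℂ ((update X0 (n + 1) (disc c2 r2)) (n + 1)) w := by
    rw [update_self]
    exact ud_disc c2 r2 P2.hr
  have hQ2x : Indep (update X0 (n + 1) (disc c2 r2)) (n + 2) Q2x :=
    P2.part.indep (by omega) hUd (hQ2d.indep hn2')
  have hind : Indep (update X0 (n + 1) (disc c2 r2)) (n + 2) (fun z => h z * Q2x z) := by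
    intro z hz w hw
    change h (update z (n + 2) w) * Q2x (update z (n + 2) w) = h z * Q2x z
    rw [hhd.indep hn2' z hz w hw, hQ2x z hz w hw]
  have hcau : St (IsRat K X0) X0 {n + 2, n + 1} (ctr (n + 1) c2 r2 (fun z => h z * Q2x z)) :=
    St.cauchy hI P2.hc P2.hr rfl rfl (by omega) (hh.mul P2.ratQy) hind
  have htpi : IsRat K X0 (tpi n) := isRat_tpi hI rfl
  have hcau2 : St (IsRat K X0) X0 {n + 2, n + 1}
      (fun z => ctr (n + 1) c2 r2 (fun z => h z * Q2x z) z * tpi n z) := by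
    refine St.mul_indep (fun G hG => hG.mul htpi) (fun i _ => ⟨zero_mem_seg, one_mem_seg⟩)
      (fun i hi z _ w _ => ?_) hcau
    have hin : i ≠ n := by
      rcases hi with h | h
      · omega
      · have : i = n + 1 := h
        omega
    unfold tpi
    rw [update_of_ne (Ne.symm hin)]
  have hsumst := St.sum Finset.univ _ fun l _ => hstep l
  refine St.congr _ _ (St.add _ _ hsumst (St.mono (fun _ h => h) (Set.subset_univ _) hcau2))
    fun z hz => ?_
  have hres : ctr (n + 1) c2 r2 (fun z => h z * Q2x z) z = ∑ l,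
      res (n + 1) c2 r2 (fun z => F l (update (update z (n + 1) 0) n (E l z))) Q2 Q2x z := by
    have e1 : ∀ z ∈ Dom (update X0 (n + 1) (circ c2 r2)), h z * Q2x z =
        ∑ l, F l (update (update z (n + 1) 0) n (E l z)) * Q2x z / Q2 z := by
      intro z hz
      have hz' : z ∈ Dom (update X0 (n + 1) (disc c2 r2)) := by
        intro i
        by_cases hi : i = n + 1
        · subst hi
          have := hz (n + 1)
          rw [update_self] at this ⊢
          exact circ_subset_disc _ _ this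
        · have := hz i
          rw [update_of_ne hi] at this ⊢
          exact this
      have hne : Q2 z ≠ 0 := P2.circ_ne rfl hz
      have h1 := hΦh z hz'
      rw [← Finset.sum_div, ← Finset.sum_mul]
      change h z * Q2x z = Φ z * Q2x z / Q2 z
      rw [h1]
      field_simp
    rw [ctr_congr P2.hr.le rfl e1 z hz, ctr_sum]
    rfl
  rw [hres, Finset.sum_sub_distrib, ← Finset.mul_sum, ← Finset.mul_sum]
  ring

end MP1eadaeL
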