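import Mathlib
import Pool.Agent.Lib_MP_1eadae_ag.Defs
import Pool.Agent.Lib_MP_1eadae_ag.RatA
import Pool.Agent.Lib_MP_1eadae_ag.RatB
import Pool.Agent.Lib_MP_1eadae_ag.RatC
import Pool.Agent.Lib_MP_1eadae_ag.Ctr
import Pool.Agent.Lib_MP_1eadae_ag.Stk
import Pool.Agent.Lib_MP_1eadae_ag.Pen
import Pool.Agent.Lib_MP_1eadae_ag.Root
import Pool.Agent.Lib_MP_1eadae_ag.TwoSort
import Pool.Agent.Lib_MP_1eadae_ag.SubB
import Pool.Agent.Lib_MP_1eadae_ag.Scale
import Pool.Agent.Lib_MP_1eadae_ag.RepA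
import Pool.Agent.Lib_MP_1eadae_ag.UL1
import Pool.Agent.Lib_MP_1eadae_ag.Germ
import Pool.Agent.Lib_MP_1eadae_ag.TwoStep
import Pool.Agent.Lib_MP_1eadae_ag.Common
import Pool.Agent.Lib_MP_1eadae_ag.LocGP

/-! # MP_1eadae_ag, piece ULB: additivity of the residue on small grid cubes -/

namespace MP1eadaeL

open Complex Function

private theorem ulb_disc {c w : ℂ} {r : ℚ} : w ∈ disc c r ↔ ‖w - c‖ ≤ (r : ℝ) := by
  unfold disc
  rw [Metric.mem_closedBall, dist_eq_norm]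

/-- scaling preserves cube x anything in a coordinate `≥ n` -/
private theorem ulb_sc_dom {n N q : ℕ} (a : Fin n → Fin N) (hq : n ≤ q) {B : Set ℂ}
    {z : Pt} (hz : z ∈ Dom (update X0 q B)) : sc n N a z ∈ Dom (update X0 q B) := by
  intro i
  by_cases hi : i < n
  · have h1 := hz i
    rw [update_of_ne (by omega : i ≠ q)] at h1 ⊢
    rw [subb_sc_lt a z hi]
    exact subb_seg _ h1
  · rw [subb_sc_ge a z hi]
    exact hz i

private theorem ulb_ext_lt {n : ℕ} (x : CubeT n) {i : ℕ} (hi : i < n) : ext x i = x.1 ⟨i, hi⟩ := by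
  unfold ext
  rw [dif_pos hi]

/-- `Q (update z n y)` only depends on the projection of `z` -/
private theorem ulb_dep {n : ℕ} {B : Set ℂ} {Q : Pt → ℂ}
    (hQd : DepOn (update X0 n B) (Set.Iio (n + 1)) Q) {z : Pt} (hz : z ∈ Dom X0) {y : ℂ}
    (hy : y ∈ B) : Q (update z n y) = Q (update (ext (prj n z)) n y) := by
  refine hQd _ (update_mem_dom hz hy) _ (update_mem_dom (ext_mem_dom _) hy) fun i hi => ?_
  by_cases h : i = n
  · subst h
    rw [update_self, update_self]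
  · have hi' : i < n := lt_of_le_of_ne (Nat.lt_succ_iff.1 hi) h
    rw [update_of_ne h, update_of_ne h, ulb_ext_lt _ hi', prj_val fun j _ => hz j]
    rfl

/-- the root of a pencil as a simple root of the numerator -/
private theorem ulb_root {K : Subfield ℂ} {n : ℕ} {Q Qy : Pt → ℂ} {c : ℂ} {r : ℚ}
    (P : Pencil K X0 n Q Qy c r)
    (hQd : DepOn (update X0 n (disc c r)) (Set.Iio (n + 1)) Q) (z0 : CubeT n) :
    ∃ w : CubeT n → ℂ, SR (phi K n) z0 w ∧ ∀ x, w x ∈ disc c r ∧ ‖w x - c‖ < r ∧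
      Q (update (ext x) n (w x)) = 0 := by
  have hins : Set.Iio (n + 1) = insert n (Set.Iio n) := by
    ext i
    simp only [Set.mem_Iio, Set.mem_insert_iff]
    omega
  obtain ⟨N, D, hN⟩ := P.ratQ.twoSorted le_rfl (hins ▸ hQd)
  obtain ⟨η0, hη1, hηc, -, -, -⟩ := P.exists_root rfl
  have hpt : ∀ (z : CubeT n) (y : ℂ), y ∈ disc c r →
      update (ext z) n y ∈ Dom (update X0 n (disc c r)) := fun z y hy =>
    update_mem_dom (ext_mem_dom z) hy
  have hrst : ∀ (z : CubeT n) (y : ℂ), rst n (update (ext z) n y) = z.1 := by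
    intro z y
    rw [← rst_ext z]
    funext i
    unfold rst
    exact update_of_ne (by have := i.2; omega) _ _
  have hQN : ∀ (z : CubeT n) (y : ℂ), y ∈ disc c r → ev2 D z.1 y ≠ 0 ∧
      Q (update (ext z) n y) = ev2 N z.1 y / ev2 D z.1 y := by
    intro z y hy
    have h := hN _ (hpt z y hy)
    rw [hrst, update_self] at h
    exact h
  have hηd : ∀ z : CubeT n, η0 (ext z) ∈ disc c r := fun z => (hη1 _ (ext_mem_dom z)).1
  have hη0 : ∀ z : CubeT n, Q (update (ext z) n (η0 (ext z))) = 0 :=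
    fun z => (hη1 _ (ext_mem_dom z)).2.2.1
  have hηN : ∀ z : CubeT n, ev2 N z.1 (η0 (ext z)) = 0 := by
    intro z
    obtain ⟨h1, h2⟩ := hQN z _ (hηd z)
    rw [hη0 z] at h2
    exact (div_eq_zero_iff.1 h2.symm).resolve_right h1
  have hηcont : Continuous (fun z : CubeT n => η0 (ext z)) :=
    hηc.comp_continuous continuous_ext fun z => ext_mem_dom z
  have hηN' : ∀ z : CubeT n, ev2 (Polynomial.derivative N) z.1 (η0 (ext z)) ≠ 0 := by
    intro z
    have hmem := hpt z _ (hηd z)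
    have hp := P.part _ hmem
    rw [update_self, update_self] at hp
    simp only [update_idem] at hp
    have h1 : HasDerivWithinAt (fun w => Q (update (ext z) n w) * ev2 D z.1 w)
        (Qy (update (ext z) n (η0 (ext z))) * ev2 D z.1 (η0 (ext z)) +
          Q (update (ext z) n (η0 (ext z))) * ev2 (Polynomial.derivative D) z.1 (η0 (ext z)))
        (disc c r) (η0 (ext z)) :=
      hp.mul (hasDerivAt_ev2 D z.1 (η0 (ext z))).hasDerivWithinAt
    rw [hη0 z, zero_mul, add_zero] at h1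
    have h2 : HasDerivWithinAt (fun w => Q (update (ext z) n w) * ev2 D z.1 w)
        (ev2 (Polynomial.derivative N) z.1 (η0 (ext z))) (disc c r) (η0 (ext z)) := by
      refine (hasDerivAt_ev2 N z.1 (η0 (ext z))).hasDerivWithinAt.congr (fun w hw => ?_) ?_
      · obtain ⟨h3, h4⟩ := hQN z w hw
        rw [h4, div_mul_cancel₀ _ h3]
      · obtain ⟨h3, h4⟩ := hQN z _ (hηd z)
        rw [h4, div_mul_cancel₀ _ h3]
    have h3 := (ud_disc c r P.hr _ (hηd z)).eq_deriv _ h2 h1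
    rw [h3]
    exact mul_ne_zero (P.Qy_ne rfl hmem) (hQN z _ (hηd z)).1
  refine ⟨fun z => η0 (ext z), ⟨N, Filter.Eventually.of_forall fun z =>
    ⟨hηcont.continuousAt, ?_, ?_⟩⟩, fun x => ⟨hηd x, (hη1 _ (ext_mem_dom x)).2.1, hη0 x⟩⟩
  · rw [evR_phi]
    exact hηN z
  · rw [evR_phi]
    exact hηN' z

/-- continuity of a rational expression at a point of cube x plane -/
private theorem ulb_cont {K : Subfield ℂ} {n : ℕ} (A : Polynomial (MvPolynomial (Fin n) K)) :
    Continuous (fun p : CubeT n × ℂ => ev2 A p.1.1 p.2) := by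
  have h1 : Continuous (fun p : CubeT n × ℂ => ((p.1.1, p.2) : (Fin n → ℂ) × ℂ)) :=
    (continuous_subtype_val.comp continuous_fst).prodMk continuous_snd
  have h2 := (continuous_ev2 A).comp h1
  exact h2

/-- Piece ULB.  Proof.  Unpack the data `(c_l, r_l, F_l, Q_l, Qy_l)` of `Rep K n (f l) (g l)`, root functions
`η_l` (`Pencil.exists_root`), `w_l = η_l ∘ ext : CubeT n → ℂ`, continuous.  `IsRat.twoSorted` (with `q = n`;
`insert n (Iio n) = Iio (n+1)`) : `Q_l = N_l/D_l`, so `w_l` is a simple root of `N_l`: `ev2 N_l z (w_l z) = 0`,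
`ev2 N_l' z (w_l z) = D_l · Qy_l ≠ 0` (`Pencil.Qy_ne`).  Hence `SR (phi K n) z0 (w l)`.
`common_family`: `w'` with `SR (phi K n) z0 w'` (polynomial `q'`) and `w_l = A_l(w')/B_l(w')` near `z0`.
Let `U = {(z,y) | ∀ l, B_l(z,y) ≠ 0 ∧ A_l(z,y)/B_l(z,y) ∈ ball (c l) (r l)}`, a neighbourhood of `(z0, w' z0)`
(at the point: `A_l/B_l = w_l z0`, `‖w_l z0 - c l‖ < r l`).  `locGP` gives `κ, c2, r2` and a neighbourhood
`V` of `z0` on which everything holds (also `w_l = A_l(w')/B_l(w')`).  For a grid cube with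
`prj n (sc n N a z) ∈ V` for all `z ∈ Dom X0` apply `ulA` to: `f_l∘sc`, data `(c_l, r_l, F_l∘sc, Q_l∘sc, Qy_l∘sc)`
(`Pencil.sc`), `Q2 z = ev2 q' (rst n (sc z)) (z (n+1)) / κ` (`pencil_of_locGP`),
`E_l z = ev2 A_l (rst n (sc z)) (z (n+1)) / ev2 B_l (..) (..)` (`isRat_ev2_sc`, `IsRat.div`).
`hE0`: if `Q2 z = 0`, then `z (n+1) = w'(sc z)` (both are zeros in the disc, contraction), so
`E_l z = w_l(sc z) = η_l (sc z)`, a zero of `Q_l`.  Finally `res_sc`. -/
theorem ulB {K : Subfield ℂ} (hI : I ∈ K) (n m : ℕ) (f g : Fin m → Pt → ℂ)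
    (h : ∀ l, Rep K n (f l) (g l)) (hsum : ∀ z ∈ Dom X0, ∑ l, f l z = 0) (z0 : CubeT n) :
    ∃ U ∈ nhds z0, ∀ N : ℕ, 1 ≤ N → ∀ a : Fin n → Fin N,
      (∀ z ∈ Dom X0, prj n (sc n N a z) ∈ U) →
      St (IsRat K X0) X0 Set.univ (fun z => tpi (n + 1) z * ∑ l, g l (sc n N a z)) := by
  choose hfd c r F Q Qy P hF hFd hQd hf hg using h
  choose w hwSR hw using fun l => ulb_root (P l) (hQd l) z0
  obtain ⟨w', ⟨q', hq'⟩, hE⟩ := common_family (continuous_phi K n) m w hwSR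
  choose A B hAB using hE
  -- the neighbourhood of `(z0, w' z0)`
  have hU : {p : CubeT n × ℂ | ∀ l, ev2 (B l) p.1.1 p.2 ≠ 0 ∧
      ‖ev2 (A l) p.1.1 p.2 / ev2 (B l) p.1.1 p.2 - c l‖ < r l} ∈ nhds (z0, w' z0) := by
    rw [Set.ofPred_forall]
    refine (Filter.iInter_mem).2 fun l => ?_
    have h1 := (hAB l).self_of_nhds
    rw [evR_phi, evR_phi] at h1
    have h2 : ContinuousAt (fun p : CubeT n × ℂ => ev2 (A l) p.1.1 p.2 / ev2 (B l) p.1.1 p.2)
        (z0, w' z0) := (ulb_cont (A l)).continuousAt.div (ulb_cont (B l)).continuousAt h1.1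
    have h3 : ∀ᶠ p : CubeT n × ℂ in nhds (z0, w' z0), ev2 (B l) p.1.1 p.2 ≠ 0 :=
      (ulb_cont (B l)).continuousAt.eventually_ne h1.1
    have h4 : ∀ᶠ p : CubeT n × ℂ in nhds (z0, w' z0),
        ‖ev2 (A l) p.1.1 p.2 / ev2 (B l) p.1.1 p.2 - c l‖ < r l := by
      refine (h2.sub continuousAt_const).norm.eventually_lt continuousAt_const ?_
      show ‖ev2 (A l) z0.1 (w' z0) / ev2 (B l) z0.1 (w' z0) - c l‖ < r l
      rw [← h1.2]
      exact (hw l z0).2.1
    exact h3.and h4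
  obtain ⟨κ, c2, r2, hκ, hκ0, hc2, hr2, hloc⟩ := locGP hI hq' hU
  have hAB' : ∀ᶠ x in nhds z0, ∀ l, w l x = ev2 (A l) x.1 (w' x) / ev2 (B l) x.1 (w' x) := by
    rw [Filter.eventually_all]
    intro l
    filter_upwards [hAB l] with x hx
    rw [evR_phi, evR_phi] at hx
    exact hx.2
  refine ⟨_, hloc.and hAB', fun N hN a hV => ?_⟩
  -- points of the second domain
  have hpt : ∀ z ∈ Dom (update X0 (n + 1) (disc c2 r2)), ∃ x : CubeT n,
      x.1 = rst n (sc n N a z) ∧ prj n (sc n N a (update z (n + 1) 0)) = x ∧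
      z (n + 1) ∈ disc c2 r2 ∧ update z (n + 1) 0 ∈ Dom X0 ∧
      ((w' x ∈ disc c2 r2 ∧ ev2 q' x.1 (w' x) = 0 ∧
      (∀ y ∈ disc c2 r2, ∀ y' ∈ disc c2 r2,
        ‖(ev2 q' x.1 y / κ - y) - (ev2 q' x.1 y' / κ - y')‖ ≤ 1 / 2 * ‖y - y'‖) ∧
      ‖ev2 q' x.1 c2 / κ‖ < (r2 : ℝ) / 2 ∧ ∀ y ∈ disc c2 r2, (x, y) ∈
        {p : CubeT n × ℂ | ∀ l, ev2 (B l) p.1.1 p.2 ≠ 0 ∧
          ‖ev2 (A l) p.1.1 p.2 / ev2 (B l) p.1.1 p.2 - c l‖ < r l}) ∧
      ∀ l, w l x = ev2 (A l) x.1 (w' x) / ev2 (B l) x.1 (w' x)) := by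
    intro z hz
    have h0 : update z (n + 1) 0 ∈ Dom X0 := update_mem_dom' hz zero_mem_seg
    have h1 : z (n + 1) ∈ disc c2 r2 := by
      have := hz (n + 1)
      rwa [update_self] at this
    refine ⟨prj n (sc n N a (update z (n + 1) 0)), ?_, rfl, h1, h0, hV _ h0⟩
    rw [prj_val fun j _ => sc_mem_dom hN a h0 j]
    funext i
    unfold rst
    rw [sc_update_ge a (Nat.le_succ n), update_of_ne (by have := i.2; omega)]
  -- the pencil in the coordinate `n + 1`
  have hmk : ∀ z ∈ Dom X0, (prj n (sc n N a z)).1 = rst n (sc n N a z) := fun z hz =>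
    prj_val fun j _ => sc_mem_dom hN a hz j
  have P2 : Pencil K X0 (n + 1) (fun z => ev2 q' (rst n (sc n N a z)) (z (n + 1)) / κ)
      (fun z => ev2 (Polynomial.derivative q') (rst n (sc n N a z)) (z (n + 1)) / κ) c2 r2 := by
    refine pencil_of_locGP hN a (Nat.le_succ n) q' hκ hκ0 hc2 hr2 (fun z hz y hy y' hy' => ?_)
      fun z hz => ?_
    · rw [← hmk z hz]
      exact (hV z hz).1.2.2.1 y hy y' hy'
    · rw [← hmk z hz]
      exact (hV z hz).1.2.2.2.1
  have hBne : ∀ l, ∀ z ∈ Dom (update X0 (n + 1) (disc c2 r2)),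
      ev2 (B l) (rst n (sc n N a z)) (z (n + 1)) ≠ 0 := by
    intro l z hz
    obtain ⟨x, h1, -, h3, -, h5⟩ := hpt z hz
    rw [← h1]
    exact (h5.1.2.2.2.2 _ h3 l).1
  have key := ulA hI n m (fun l z => f l (sc n N a z)) c r (fun l z => F l (sc n N a z))
    (fun l z => Q l (sc n N a z)) (fun l z => Qy l (sc n N a z))
    (fun l => (P l).sc hN a le_rfl) (fun l => (hF l).sc hN a le_rfl)
    (fun l z hz z' hz' hzz' => hFd l _ (ulb_sc_dom a le_rfl hz) _ (ulb_sc_dom a le_rfl hz')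
      fun i hi => by
        by_cases hin : i < n
        · rw [subb_sc_lt a z hin, subb_sc_lt a z' hin, hzz' i hi]
        · rw [subb_sc_ge a z hin, subb_sc_ge a z' hin, hzz' i hi])
    (fun l z hz z' hz' hzz' => hQd l _ (ulb_sc_dom a le_rfl hz) _ (ulb_sc_dom a le_rfl hz')
      fun i hi => by
        by_cases hin : i < n
        · rw [subb_sc_lt a z hin, subb_sc_lt a z' hin, hzz' i hi]
        · rw [subb_sc_ge a z hin, subb_sc_ge a z' hin, hzz' i hi])
    (fun l z hz y hy hy0 => by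
      simp only [sc_update_ge a (le_refl n)] at hy0 ⊢
      exact hf l _ (sc_mem_dom hN a hz) y hy hy0)
    P2
    (fun z hz z' hz' hzz' => by
      have := depOn_ev2_sc (Nat.le_succ n) q' (update X0 (n + 1) (disc c2 r2)) N a z hz z' hz' hzz'
      simp only [this])
    (fun l z => ev2 (A l) (rst n (sc n N a z)) (z (n + 1)) /
      ev2 (B l) (rst n (sc n N a z)) (z (n + 1)))
    (fun l => (isRat_ev2_sc (A l) _ N a (n + 1)).div (isRat_ev2_sc (B l) _ N a (n + 1)) (hBne l))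
    (fun l z hz z' hz' hzz' => by
      have e1 := depOn_ev2_sc (Nat.le_succ n) (A l) (update X0 (n + 1) (disc c2 r2)) N a z hz z'
        hz' hzz'
      have e2 := depOn_ev2_sc (Nat.le_succ n) (B l) (update X0 (n + 1) (disc c2 r2)) N a z hz z'
        hz' hzz'
      simp only at e1 e2
      simp only [e1, e2])
    (fun l z hz => by
      obtain ⟨x, h1, -, h3, -, h5⟩ := hpt z hz
      rw [ulb_disc, ← h1]
      exact (h5.1.2.2.2.2 _ h3 l).2.le)
    (fun l z hz hz0 => by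
      obtain ⟨x, h1, h2, h3, h4, h5, h6⟩ := hpt z hz
      have h7 : ev2 q' x.1 (z (n + 1)) = 0 := by
        rw [h1]
        exact (div_eq_zero_iff.1 hz0).resolve_right hκ0
      have h8 : z (n + 1) = w' x := by
        have h9 := h5.2.2.1 _ h3 _ h5.1
        rw [h7, h5.2.1] at h9
        have h10 : (0 / κ - z (n + 1)) - (0 / κ - w' x) = - (z (n + 1) - w' x) := by ring
        rw [h10, norm_neg] at h9
        have h11 : ‖z (n + 1) - w' x‖ ≤ 0 := by
          have := norm_nonneg (z (n + 1) - w' x)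
          linarith
        exact sub_eq_zero.1 (norm_le_zero_iff.1 h11)
      have h9 : ev2 (A l) (rst n (sc n N a z)) (z (n + 1)) /
          ev2 (B l) (rst n (sc n N a z)) (z (n + 1)) = w l x := by
        rw [← h1, h8]
        exact (h6 l).symm
      show Q l (sc n N a (update (update z (n + 1) 0) n (ev2 (A l) (rst n (sc n N a z)) (z (n + 1)) /
        ev2 (B l) (rst n (sc n N a z)) (z (n + 1))))) = 0
      rw [h9, sc_update_ge a (le_refl n), ulb_dep (hQd l) (sc_mem_dom hN a h4) (hw l x).1, h2]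
      exact (hw l x).2.2)
    (fun z hz => hsum _ (sc_mem_dom hN a hz))
  refine St.congr _ _ key fun z hz => ?_
  congr 1
  refine Finset.sum_congr rfl fun l _ => ?_
  rw [res_sc a (le_refl n), hg l _ (sc_mem_dom hN a hz)]

end MP1eadaeL
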