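import Mathlib
import Pool.Agent.Lib_MP_1eadae_ag.Defs
import Pool.Agent.Lib_MP_1eadae_ag.RatA
import Pool.Agent.Lib_MP_1eadae_ag.RatB
import Pool.Agent.Lib_MP_1eadae_ag.RatC
import Pool.Agent.Lib_MP_1eadae_ag.Ctr
import Pool.Agent.Lib_MP_1eadae_ag.Stk
import Pool.Agent.Lib_MP_1eadae_ag.Pen
import Pool.Agent.Lib_MP_1eadae_ag.Root
import Pool.Agent.Lib_MP_1eadae_ag.TwoSort
import Pool.Agent.Lib_MP_1eadae_ag.SubB
import Pool.Agent.Lib_MP_1eadae_ag.Scale
import Pool.Agent.Lib_MP_1eadae_ag.RepA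
import Pool.Agent.Lib_MP_1eadae_ag.ULoc
import Pool.Agent.Lib_MP_1eadae_ag.SubA
import Pool.Agent.Lib_MP_1eadae_ag.Leb

/-! # MP_1eadae_ag, piece ULC: additivity of the residue -/

namespace MP1eadaeL

open Complex Function

/-- Piece ULC.  Proof.  `leb` and `ulB`: for a fine grid all the functions
`tpi (n+1) · ∑_l g_l∘sc_a` are in the span.  `GoodClass.subdiv` (`goodClass_isRat`, applied to `∑_l g_l`, with
`s = n+2`) : `∑_l g_l - ∑_a (1/N)^n ∑_l g_l∘sc_a` is in the span with directions `insert (n+2) (Iio n)`,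
so also after multiplication by `tpi (n+1)` (`St.mul_indep`); add up (rational multiples of elements of the
span: `St.mul_indep` with a constant). -/
theorem ulC {K : Subfield ℂ} (hI : I ∈ K) (n m : ℕ) (f g : Fin m → Pt → ℂ)
    (h : ∀ l, Rep K n (f l) (g l)) (hsum : ∀ z ∈ Dom X0, ∑ l, f l z = 0) :
    St (IsRat K X0) X0 Set.univ (fun z => tpi (n + 1) z * ∑ l, g l z) := by
  obtain ⟨N, hN, hleb⟩ := leb n (fun N a => St (IsRat K X0) X0 Set.univ
    (fun z => tpi (n + 1) z * ∑ l, g l (sc n N a z))) (ulB hI n m f g h hsum)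
  have hP := hleb N le_rfl
  set G : Pt → ℂ := fun z => ∑ l, g l z with hG
  have hGr : IsRat K X0 G := IsRat.sum Finset.univ g (fun l _ => (h l).isRat hI)
  have hGd : DepOn X0 (Set.Iio (n + 1)) G := by
    intro z hz w hw hzw
    exact Finset.sum_congr rfl fun l _ => (h l).depOn z hz w hw hzw
  have hGi : Indep X0 (n + 2) G := hGd.indep (by simp)
  have h1 := (goodClass_isRat K).subdiv hGr n (s := n + 2) (by omega) hGi N hN
  have ht : IsRat K X0 (tpi (n + 1)) := isRat_tpi hI rfl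
  have hti : ∀ i, i ≠ n + 1 → Indep X0 i (tpi (n + 1)) := by
    intro i hi z hz w hw
    simp only [tpi]
    rw [Function.update_of_ne (Ne.symm hi)]
  have h2 : St (IsRat K X0) X0 (insert (n + 2) (Set.Iio n))
      (fun z => (G z - ∑ a : Fin n → Fin N, (1 / (N : ℂ)) ^ n * G (sc n N a z)) *
        tpi (n + 1) z) := by
    refine St.mul_indep (fun F hF => hF.mul ht) (fun i _ => ⟨zero_mem_seg, one_mem_seg⟩) ?_ h1
    intro i hi
    refine hti i ?_
    rcases hi with hi | hi
    · rw [hi]; omega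
    · have : i < n := hi
      omega
  have h3 := h2.mono (fun F hF => hF) (Set.subset_univ _)
  have h4 : ∀ a : Fin n → Fin N, St (IsRat K X0) X0 Set.univ
      (fun z => (tpi (n + 1) z * ∑ l, g l (sc n N a z)) * (1 / (N : ℂ)) ^ n) := by
    intro a
    refine St.mul_indep (fun F hF => hF.mul ?_) (fun i _ => ⟨zero_mem_seg, one_mem_seg⟩) ?_ (hP a)
    · exact ((IsRat.const 1 K.one_mem).div (IsRat.natCast N) (fun z _ => by
        have : (N : ℂ) ≠ 0 := by exact_mod_cast (by omega : N ≠ 0)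
        exact this)).pow n
    · intro i _ z hz w hw; rfl
  have h5 := St.sum Finset.univ _ (fun a (_ : a ∈ (Finset.univ : Finset (Fin n → Fin N))) => h4 a)
  refine St.congr _ _ (St.add _ _ h3 h5) ?_
  intro z hz
  have e : (∑ a : Fin n → Fin N, (1 / (N : ℂ)) ^ n * G (sc n N a z)) * tpi (n + 1) z
      = ∑ a : Fin n → Fin N, (tpi (n + 1) z * ∑ l, g l (sc n N a z)) * (1 / (N : ℂ)) ^ n := by
    rw [Finset.sum_mul]
    exact Finset.sum_congr rfl (fun a _ => by simp only [hG]; ring)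
  rw [sub_mul, e]
  simp only [hG]
  ring

end MP1eadaeL
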