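import Mathlib
import Pool.Agent.Lib_MP_1eadae_ag.Defs
import Pool.Agent.Lib_MP_1eadae_ag.RatA
import Pool.Agent.Lib_MP_1eadae_ag.RatB
import Pool.Agent.Lib_MP_1eadae_ag.RatC
import Pool.Agent.Lib_MP_1eadae_ag.Ctr
import Pool.Agent.Lib_MP_1eadae_ag.Stk
import Pool.Agent.Lib_MP_1eadae_ag.Pen
import Pool.Agent.Lib_MP_1eadae_ag.Root
import Pool.Agent.Lib_MP_1eadae_ag.TwoSort
import Pool.Agent.Lib_MP_1eadae_ag.SubB
import Pool.Agent.Lib_MP_1eadae_ag.Scale
import Pool.Agent.Lib_MP_1eadae_ag.RepA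
import Pool.Agent.Lib_MP_1eadae_ag.RepB
import Pool.Agent.Lib_MP_1eadae_ag.SubA
import Pool.Agent.Lib_MP_1eadae_ag.UL

/-! # MP_1eadae_ag, piece GRID: an algebraic Stokes certificate kills the residue -/

namespace MP1eadaeL

open Complex Function

theorem grid_sum_update {n N : ℕ} (i : Fin n) (φ : (Fin n → Fin N) → ℂ) :
    ∑ a : Fin n → Fin N, ∑ k : Fin N, φ (update a i k) = (N : ℂ) * ∑ a, φ a := by
  let e : ((Fin n → Fin N) × Fin N) ≃ ((Fin n → Fin N) × Fin N) :=
    { toFun := fun p => (update p.1 i p.2, p.1 i)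
      invFun := fun p => (update p.1 i p.2, p.1 i)
      left_inv := by rintro ⟨a, k⟩; simp
      right_inv := by rintro ⟨a, k⟩; simp }
  rw [← Fintype.sum_prod_type' (f := fun (a : Fin n → Fin N) (k : Fin N) => φ (update a i k))]
  have h1 : ∑ p : (Fin n → Fin N) × Fin N, φ (update p.1 i p.2) =
      ∑ p : (Fin n → Fin N) × Fin N, (fun q : (Fin n → Fin N) × Fin N => φ q.1) (e p) := rfl
  rw [h1, Equiv.sum_comp e (fun q : (Fin n → Fin N) × Fin N => φ q.1), Fintype.sum_prod_type]
  simp [Finset.mul_sum]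

theorem grid_telescope {n N : ℕ} (i : Fin n) (X : (Fin n → Fin N) → ℕ → ℂ)
    (hX : ∀ a j k, X (update a i j) k = X a k) :
    (N : ℂ) * ∑ a, (X a ((a i : ℕ) + 1) - X a (a i)) = ∑ a, (X a N - X a 0) := by
  rw [← grid_sum_update i (fun a => X a ((a i : ℕ) + 1) - X a (a i))]
  apply Finset.sum_congr rfl
  intro a _
  simp only [update_self, hX]
  rw [Fin.sum_univ_eq_sum_range (fun k => X a (k + 1) - X a k) N, Finset.sum_range_sub]

/-- the additive group of residues which are killed -/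
def TT (K : Subfield ℂ) (n : ℕ) (u : Pt → ℂ) : Prop :=
  St (IsRat K X0) X0 Set.univ (fun z => tpi (n + 1) z * u z)

section TTcalc

variable {K : Subfield ℂ} {n : ℕ} {u v : Pt → ℂ}

theorem TT.congr (h : TT K n u) (huv : ∀ z ∈ Dom X0, u z = v z) : TT K n v :=
  St.congr _ _ h fun z hz => by rw [huv z hz]

theorem TT.add (h : TT K n u) (h' : TT K n v) : TT K n (fun z => u z + v z) :=
  St.congr _ _ (St.add _ _ h h') fun z _ => by ring

theorem TT.smul (c : ℂ) (hc : c ∈ K) (h : TT K n u) : TT K n (fun z => c * u z) := by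
  have h1 := St.mul_indep (W := fun _ => c) (fun G hG => hG.mul (IsRat.const c hc))
    (fun _ _ => ⟨zero_mem_seg, one_mem_seg⟩) (fun _ _ _ _ _ _ => rfl) h
  exact St.congr _ _ h1 fun z _ => by ring

theorem TT.sum {ι : Type} (s : Finset ι) (f : ι → Pt → ℂ) (h : ∀ i ∈ s, TT K n (f i)) :
    TT K n (fun z => ∑ i ∈ s, f i z) := by
  have h1 := St.sum s (fun i z => tpi (n + 1) z * f i z) h
  exact St.congr _ _ h1 fun z _ => by rw [Finset.mul_sum]

theorem TT.of_st (hI : I ∈ K) {J : Set ℕ} (hJ : n + 1 ∉ J) (h : St (IsRat K X0) X0 J u) :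
    TT K n u := by
  have h1 := St.mul_indep (W := tpi (n + 1)) (fun G hG => hG.mul (isRat_tpi hI rfl))
    (fun _ _ => ⟨zero_mem_seg, one_mem_seg⟩)
    (fun i hi z _ w _ => by
      have hne : n + 1 ≠ i := by
        rintro rfl
        exact hJ hi
      unfold tpi
      rw [update_of_ne hne]) h
  exact St.congr _ _ (St.mono (fun _ h => h) (Set.subset_univ _) h1) fun z _ => by ring

theorem TT.ul (hI : I ∈ K) {ι : Type} [Fintype ι] (k : ι → ℂ) (hk : ∀ j, k j ∈ K)
    (u v : ι → Pt → ℂ) (h : ∀ j, Rep K n (u j) (v j))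
    (hs : ∀ z ∈ Dom X0, ∑ j, k j * u j z = 0) : TT K n (fun z => ∑ j, k j * v j z) := by
  have e := Fintype.equivFin ι
  have h1 := ulC hI n (Fintype.card ι) (fun l z => k (e.symm l) * u (e.symm l) z)
    (fun l z => k (e.symm l) * v (e.symm l) z) (fun l => (h (e.symm l)).smul _ (hk _))
    (fun z hz => by
      rw [← hs z hz]
      exact Equiv.sum_comp e.symm (fun j => k j * u j z))
  refine St.congr _ _ h1 fun z _ => ?_
  congr 1
  exact Equiv.sum_comp e.symm (fun j => k j * v j z)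

end TTcalc

/-- Piece GRID.  Let `𝒩` be the set of functions `g` with `St (IsRat K X0) X0 univ (tpi (n+1) · g)`, an
additive group closed under rational multiples.  `≡` is equality modulo `𝒩`.  By `ulC` (and `Rep.smul`):
(U) if `Rep K n u_j v_j`, `k_j ∈ ℚ` and `∑ k_j u_j = 0` on `Dom X0` then `∑ k_j v_j ≡ 0`.
Choose `g_{l,a}` with `Rep (G_l∘sc_a) g_{l,a}`.  `Rep.face` in the direction `i = i_l` (note
`Part X0 i (G_l∘sc_a) ((1/N) H_l∘sc_a)`, `Part.sc_lt`): `h_{l,a}` with `Rep ((1/N) H_l∘sc_a) h_{l,a}`,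
`h_{l,a} ≡ g_{l,a}|_{i=1} - g_{l,a}|_{i=0}` (multiply the relation, directions `i, n`, by `tpi (n+1)`).
(1) `g ≡ ∑_a (1/N)^n g∘sc_a` by `GoodClass.subdiv` (`s = n+2`) times `tpi (n+1)`; `Rep (f∘sc_a) (g∘sc_a)`.
(2) `f∘sc_a = ∑_l (H_l∘sc_a - G_l(update (sc_a z) i 1) + G_l(update (sc_a z) i 0))`, and
`G_l(update (sc_a z) i 1) = (G_l∘sc_{a'})(update z i 1)` with `a' = update a i (N-1)`, which is represented by
`g_{l,a'}|_{i=1}`; similarly with `0`, `a'' = update a i 0`.  So by (U)
`g∘sc_a ≡ ∑_l (N h_{l,a} - g_{l,a'}|_{i=1} + g_{l,a''}|_{i=0})`.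
(3) For fixed `l` and fixed other indices, let `a_k = update a i k`, `k < N`.  `(G_l∘sc_{a_k})|_{z_i=1} =
(G_l∘sc_{a_{k+1}})|_{z_i=0}`, so `g_{l,a_k}|_{i=1} ≡ g_{l,a_{k+1}}|_{i=0}` by (U), and
`∑_k (g_{l,a_k}|_{i=1} - g_{l,a_k}|_{i=0}) ≡ g_{l,a_{N-1}}|_{i=1} - g_{l,a_0}|_{i=0}`.  Hence
`∑_a N h_{l,a} ≡ ∑_a (g_{l,a'}|_{i=1} - g_{l,a''}|_{i=0})` and everything cancels: `g ≡ 0`. -/
theorem grid {K : Subfield ℂ} (hI : I ∈ K) (n m : ℕ) (i : Fin m → ℕ) (hi : ∀ l, i l < n)
    (G H : Fin m → Pt → ℂ) (hG : ∀ l, DepOn X0 (Set.Iio n) (G l))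
    (hP : ∀ l, Part X0 (i l) (G l) (H l)) (N : ℕ) (hN : 1 ≤ N)
    (hrep : ∀ l, ∀ a : Fin n → Fin N, ∃ g, Rep K n (fun z => G l (sc n N a z)) g)
    (f g : Pt → ℂ) (hfg : Rep K n f g)
    (hf : ∀ z ∈ Dom X0, f z = ∑ l, (H l z - G l (update z (i l) 1) + G l (update z (i l) 0))) :
    St (IsRat K X0) X0 Set.univ (fun z => tpi (n + 1) z * g z) := by
  have hNc : (N : ℂ) ≠ 0 := by
    have h1 : 0 < N := hN
    exact_mod_cast h1.ne'
  choose gg hgg using hrep
  choose hh hrepH hrep1 hrep0 hst using fun l a =>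
    Rep.face hI (hi l) (hgg l a) (Part.sc_lt hN a (hi l) (hP l))
  -- the identity of the functions
  have htel : ∀ (l : Fin m) (z : Pt), (N : ℂ) * ∑ a : Fin n → Fin N,
      (G l (sc n N a (update z (i l) 1)) - G l (sc n N a (update z (i l) 0))) =
      ∑ a : Fin n → Fin N,
        (G l (update (sc n N a z) (i l) 1) - G l (update (sc n N a z) (i l) 0)) := by
    intro l z
    have h1 := grid_telescope (N := N) ⟨i l, hi l⟩
      (fun a k => G l (update (sc n N a z) (i l) ((k : ℂ) / (N : ℂ)))) (fun a j k => by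
        congr 1
        funext q
        by_cases hq : q = i l
        · subst hq
          rw [update_self, update_self]
        · rw [update_of_ne hq, update_of_ne hq]
          by_cases hqn : q < n
          · rw [subb_sc_lt _ _ hqn, subb_sc_lt _ _ hqn, update_of_ne]
            intro h2
            exact hq (by simpa using congrArg Fin.val h2)
          · rw [subb_sc_ge _ _ hqn, subb_sc_ge _ _ hqn])
    rw [Nat.cast_zero, zero_div, div_self hNc] at h1
    rw [← h1]
    congr 1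
    apply Finset.sum_congr rfl
    intro a _
    rw [subb_sc_update_lt a z (hi l), subb_sc_update_lt a z (hi l), zero_add]
    push_cast
    rw [add_comm (1 : ℂ)]
  -- the big relation
  have hU := TT.ul (n := n) hI (ι := (Fin n → Fin N) ⊕ ((Fin m × (Fin n → Fin N)) ⊕
      ((Fin m × (Fin n → Fin N)) ⊕ (Fin m × (Fin n → Fin N)))))
    (Sum.elim (fun _ => 1) (Sum.elim (fun _ => -(N : ℂ)) (Sum.elim (fun _ => (N : ℂ))
      (fun _ => -(N : ℂ)))))
    (by
      have hNK : (N : ℂ) ∈ K := natCast_mem K N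
      rintro (a | a | a | a)
      · exact K.one_mem
      · exact K.neg_mem hNK
      · exact hNK
      · exact K.neg_mem hNK)
    (Sum.elim (fun a z => f (sc n N a z)) (Sum.elim
      (fun p z => (1 / (N : ℂ)) * H p.1 (sc n N p.2 z)) (Sum.elim
      (fun p z => G p.1 (sc n N p.2 (update z (i p.1) 1)))
      (fun p z => G p.1 (sc n N p.2 (update z (i p.1) 0))))))
    (Sum.elim (fun a z => g (sc n N a z)) (Sum.elim
      (fun p z => hh p.1 p.2 z) (Sum.elim
      (fun p z => gg p.1 p.2 (update z (i p.1) 1))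
      (fun p z => gg p.1 p.2 (update z (i p.1) 0)))))
    (by
      rintro (a | p | p | p)
      · exact hfg.sc hN a
      · exact hrepH p.1 p.2
      · exact hrep1 p.1 p.2
      · exact hrep0 p.1 p.2)
    (by
      intro z hz
      simp only [Fintype.sum_sum_type, Sum.elim_inl, Sum.elim_inr, Fintype.sum_prod_type]
      have h1 : ∑ a : Fin n → Fin N, (1 : ℂ) * f (sc n N a z) =
          ∑ l, ∑ a : Fin n → Fin N, (H l (sc n N a z) -
            G l (update (sc n N a z) (i l) 1) + G l (update (sc n N a z) (i l) 0)) := by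
        rw [Finset.sum_comm]
        apply Finset.sum_congr rfl
        intro a _
        rw [one_mul, hf _ (sc_mem_dom hN a hz)]
      rw [h1, ← Finset.sum_add_distrib, ← Finset.sum_add_distrib, ← Finset.sum_add_distrib]
      apply Finset.sum_eq_zero
      intro l _
      have h2 := htel l z
      simp only [Finset.sum_sub_distrib, Finset.sum_add_distrib, mul_sub] at h2 ⊢
      have h3 : ∑ a : Fin n → Fin N, -(N : ℂ) * (1 / (N : ℂ) * H l (sc n N a z)) =
          - ∑ a : Fin n → Fin N, H l (sc n N a z) := by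
        rw [← Finset.sum_neg_distrib]
        apply Finset.sum_congr rfl
        intro a _
        field_simp
      rw [h3, ← Finset.mul_sum, ← Finset.mul_sum]
      linear_combination h2)
  have hface : ∀ p : Fin m × (Fin n → Fin N), TT K n (fun z => (N : ℂ) * (hh p.1 p.2 z -
      gg p.1 p.2 (update z (i p.1) 1) + gg p.1 p.2 (update z (i p.1) 0))) := by
    intro p
    refine TT.smul _ (natCast_mem K N) (TT.of_st hI ?_ (hst p.1 p.2))
    have h1 := hi p.1
    simp only [Set.mem_insert_iff, Set.mem_singleton_iff, not_or]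
    omega
  have hsumface := TT.sum (Finset.univ : Finset (Fin m × (Fin n → Fin N))) _
    (fun p _ => hface p)
  have hsum : TT K n (fun z => ∑ a : Fin n → Fin N, g (sc n N a z)) := by
    refine (hU.add hsumface).congr fun z _ => ?_
    simp only [Fintype.sum_sum_type, Sum.elim_inl, Sum.elim_inr, mul_add, mul_sub,
      Finset.sum_add_distrib, Finset.sum_sub_distrib, one_mul, neg_mul, Finset.sum_neg_distrib]
    ring
  have hK : (1 / (N : ℂ)) ^ n ∈ K := K.pow_mem (K.div_mem K.one_mem (natCast_mem K N)) n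
  have hgind : Indep X0 (n + 2) g := hfg.depOn.indep (by
    simp only [Set.mem_Iio]
    omega)
  have hsub := TT.of_st (n := n) hI (by
      simp only [Set.mem_insert_iff, Set.mem_Iio]
      omega)
    ((goodClass_isRat K).subdiv (hfg.isRat hI) n (by omega : n ≤ n + 2) hgind N hN)
  refine ((hsum.smul _ hK).add hsub).congr fun z _ => ?_
  rw [Finset.mul_sum]
  ring

end MP1eadaeL
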