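import Mathlib
import Pool.Agent.Lib_MP_1eadae_ag.Defs
import Pool.Agent.Lib_MP_1eadae_ag.RatA
import Pool.Agent.Lib_MP_1eadae_ag.RatB
import Pool.Agent.Lib_MP_1eadae_ag.RatC
import Pool.Agent.Lib_MP_1eadae_ag.Ctr
import Pool.Agent.Lib_MP_1eadae_ag.Stk
import Pool.Agent.Lib_MP_1eadae_ag.Pen
import Pool.Agent.Lib_MP_1eadae_ag.Root
import Pool.Agent.Lib_MP_1eadae_ag.TwoSort
import Pool.Agent.Lib_MP_1eadae_ag.VanC
import Pool.Agent.Lib_MP_1eadae_ag.SubB
import Pool.Agent.Lib_MP_1eadae_ag.Scale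

/-! # MP_1eadae_ag, piece REPA: properties of the relation `Rep` -/

namespace MP1eadaeL

open Complex Function

variable {K : Subfield ℂ} {n : ℕ} {f g : Pt → ℂ}

/- Piece REPA. -/

theorem Rep.isRat (hI : I ∈ K) (h : Rep K n f g) : IsRat K X0 g := by
  obtain ⟨-, c, r, F, Q, Qy, P, hF, -, -, -, hg⟩ := h
  exact (P.isRat_res hI rfl hF).congr fun z hz => (hg z hz).symm

theorem Rep.depOn (h : Rep K n f g) : DepOn X0 (Set.Iio (n + 1)) g := by
  obtain ⟨-, c, r, F, Q, Qy, P, -, hFd, hQd, -, hg⟩ := h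
  have h1 := P.depOn_res (S := Set.Iio (n + 1)) rfl (Set.mem_Iio.mpr (Nat.lt_succ_self n)) hFd hQd
  intro z hz w hw hzw
  rw [hg z hz, hg w hw]
  exact h1 z hz w hw hzw

theorem Rep.congr {f' g' : Pt → ℂ} (h : Rep K n f g) (hf : ∀ z ∈ Dom X0, f z = f' z)
    (hg : ∀ z ∈ Dom X0, g z = g' z) : Rep K n f' g' := by
  obtain ⟨hd, c, r, F, Q, Qy, P, hF, hFd, hQd, h0, hgg⟩ := h
  refine ⟨?_, c, r, F, Q, Qy, P, hF, hFd, hQd, ?_, ?_⟩
  · intro z hz w hw hzw
    rw [← hf z hz, ← hf w hw]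
    exact hd z hz w hw hzw
  · intro z hz w hw hQ
    rw [h0 z hz w hw hQ, hf z hz]
  · intro z hz
    rw [← hg z hz, hgg z hz]

/-- multiples: `F ↦ k F` -/
theorem Rep.smul (k : ℂ) (hk : k ∈ K) (h : Rep K n f g) :
    Rep K n (fun z => k * f z) (fun z => k * g z) := by
  obtain ⟨hd, c, r, F, Q, Qy, P, hF, hFd, hQd, h0, hgg⟩ := h
  refine ⟨?_, c, r, fun z => k * F z, Q, Qy, P, (IsRat.const k hk).mul hF, ?_, hQd, ?_, ?_⟩
  · intro z hz w hw hzw
    change k * f z = k * f w
    rw [hd z hz w hw hzw]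
  · intro z hz w hw hzw
    change k * F z = k * F w
    rw [hFd z hz w hw hzw]
  · intro z hz w hw hQ
    change k * F (update z n w) = k * f z
    rw [h0 z hz w hw hQ]
  · intro z hz
    change k * g z = res n c r (fun z => k * F z) Q Qy z
    rw [hgg z hz]
    have h1 := ctr_mul_left (p := n) (c := c) (r := r) (W := fun _ => k)
      (F := fun z => F z * Qy z / Q z) z (fun _ => rfl)
    unfold res
    rw [← h1]
    congr 1
    funext z
    ring

theorem repa_sc_dom {N : ℕ} (a : Fin n → Fin N) {B : Set ℂ} {z : Pt}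
    (hz : z ∈ Dom (update X0 n B)) : MP1eadaeL.sc n N a z ∈ Dom (update X0 n B) := by
  intro i
  have hi := hz i
  by_cases h : i < n
  · rw [subb_sc_lt a z h]
    rw [update_of_ne (by omega)] at hi ⊢
    exact subb_seg _ hi
  · rw [subb_sc_ge a z h]
    exact hi

theorem repa_sc_eq {N : ℕ} (a : Fin n → Fin N) {m : ℕ} {z w : Pt}
    (h : ∀ i ∈ Set.Iio m, z i = w i) : ∀ i ∈ Set.Iio m,
      MP1eadaeL.sc n N a z i = MP1eadaeL.sc n N a w i := by
  intro i hi
  by_cases hin : i < n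
  · rw [subb_sc_lt a z hin, subb_sc_lt a w hin, h i hi]
  · rw [subb_sc_ge a z hin, subb_sc_ge a w hin, h i hi]

/-- restriction to a grid cube (`Pencil.sc`, `res_sc`) -/
theorem Rep.sc {N : ℕ} (hN : 1 ≤ N) (a : Fin n → Fin N) (h : Rep K n f g) :
    Rep K n (fun z => f (MP1eadaeL.sc n N a z)) (fun z => g (MP1eadaeL.sc n N a z)) := by
  obtain ⟨hd, c, r, F, Q, Qy, P, hF, hFd, hQd, h0, hgg⟩ := h
  refine ⟨?_, c, r, fun z => F (MP1eadaeL.sc n N a z), fun z => Q (MP1eadaeL.sc n N a z),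
    fun z => Qy (MP1eadaeL.sc n N a z), P.sc hN a le_rfl, hF.sc hN a le_rfl, ?_, ?_, ?_, ?_⟩
  · intro z hz w hw hzw
    exact hd _ (sc_mem_dom hN a hz) _ (sc_mem_dom hN a hw) (repa_sc_eq a hzw)
  · intro z hz w hw hzw
    exact hFd _ (repa_sc_dom a hz) _ (repa_sc_dom a hw) (repa_sc_eq a hzw)
  · intro z hz w hw hzw
    exact hQd _ (repa_sc_dom a hz) _ (repa_sc_dom a hw) (repa_sc_eq a hzw)
  · intro z hz w hw hQ
    change F (MP1eadaeL.sc n N a (update z n w)) = f (MP1eadaeL.sc n N a z)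
    change Q (MP1eadaeL.sc n N a (update z n w)) = 0 at hQ
    rw [sc_update_ge a le_rfl] at hQ ⊢
    exact h0 _ (sc_mem_dom hN a hz) w hw hQ
  · intro z hz
    change g (MP1eadaeL.sc n N a z) = _
    rw [res_sc a le_rfl]
    exact hgg _ (sc_mem_dom hN a hz)

theorem repa_upd0 {B : Set ℂ} {z : Pt} (hz : z ∈ Dom (update X0 n B)) :
    update z n 0 ∈ Dom X0 := by
  intro i
  by_cases h : i = n
  · subst h
    rw [update_self]
    exact zero_mem_seg
  · rw [update_of_ne h]
    have := hz i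
    rwa [update_of_ne h] at this

/-- a rational function of the first `n` coordinates represents itself: `Q = z_n`, `c = 0`, `r = 1`,
`F(update z n 0)` (`Pencil.trivial`, `ctr_inv`) -/
theorem Rep.rat {F : Pt → ℂ} (hF : IsRat K X0 F) (hd : DepOn X0 (Set.Iio n) F) :
    Rep K n F (fun z => tpi n z * F z) := by
  refine ⟨hd, 0, 1, fun z => F (update z n 0), fun z => z n, fun _ => 1,
    Pencil.trivial K X0 n, ?_, ?_, ?_, ?_, ?_⟩
  · refine hF.comp (fun z => update z n 0) (fun i => ?_) (fun z hz => repa_upd0 hz)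
    by_cases h : i = n
    · subst h
      refine (IsRat.const 0 K.zero_mem).congr fun z _ => ?_
      rw [update_self]
    · refine (IsRat.coord i).congr fun z _ => ?_
      rw [update_of_ne h]
  · intro z hz w hw hzw
    refine hd _ (repa_upd0 hz) _ (repa_upd0 hw) fun i hi => ?_
    have hi' : i < n := hi
    rw [update_of_ne (by omega), update_of_ne (by omega)]
    exact hzw i (Set.mem_Iio.mpr (by omega))
  · intro z _ w _ hzw
    exact hzw n (Set.mem_Iio.mpr (Nat.lt_succ_self n))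
  · intro z hz w _ _
    change F (update (update z n w) n 0) = F z
    rw [update_idem]
    refine hd _ (rb_dom_mem_update hz zero_mem_seg) _ hz fun i hi => ?_
    have hi' : i < n := hi
    rw [update_of_ne (by omega)]
  · intro z hz
    have h1 := ctr_mul_left (p := n) (c := 0) (r := 1) (W := fun z => F (update z n 0))
      (F := fun z => 1 / (z n - 0)) z (fun w => by
        change F (update (update z n w) n 0) = F (update z n 0)
        rw [update_idem])
    rw [ctr_inv one_pos (hz n)] at h1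
    have h2 : F (update z n 0) = F z := by
      refine hd _ (rb_dom_mem_update hz zero_mem_seg) _ hz fun i hi => ?_
      have hi' : i < n := hi
      rw [update_of_ne (by omega)]
    rw [h2] at h1
    change tpi n z * F z = _
    unfold res
    rw [mul_comm, ← h1]
    congr 1
    funext z
    rw [sub_zero]
    ring

end MP1eadaeL
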