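import Mathlib
import Pool.Agent.Lib_MP_1eadae_ag.Defs
import Pool.Agent.Lib_MP_1eadae_ag.RatA
import Pool.Agent.Lib_MP_1eadae_ag.RatB
import Pool.Agent.Lib_MP_1eadae_ag.RatC
import Pool.Agent.Lib_MP_1eadae_ag.Ctr
import Pool.Agent.Lib_MP_1eadae_ag.Stk
import Pool.Agent.Lib_MP_1eadae_ag.Pen
import Pool.Agent.Lib_MP_1eadae_ag.Root
import Pool.Agent.Lib_MP_1eadae_ag.TwoSort
import Pool.Agent.Lib_MP_1eadae_ag.SubB
import Pool.Agent.Lib_MP_1eadae_ag.Scale
import Pool.Agent.Lib_MP_1eadae_ag.RepA
import Pool.Agent.Lib_MP_1eadae_ag.SubA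
import Pool.Agent.Lib_MP_1eadae_ag.UL
import Pool.Agent.Lib_MP_1eadae_ag.AlgRep
import Pool.Agent.Lib_MP_1eadae_ag.Grid
import Pool.Agent.Lib_MP_1eadae_ag.AlgGood

/-! # MP_1eadae_ag, piece HARD: injectivity -/

namespace MP1eadaeL

open Complex Function

/-- an element of the span as an explicit finite sum -/
theorem St.exists_fin {C : (Pt → ℂ) → Prop} {X : ℕ → Set ℂ} {I0 : Set ℕ} {F : Pt → ℂ}
    (hneg : ∀ G, C G → C (fun z => - G z)) (h : St C X I0 F) :
    ∃ (m : ℕ) (i : Fin m → ℕ) (G H : Fin m → Pt → ℂ),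
      (∀ l, i l ∈ I0 ∧ C (G l) ∧ C (H l) ∧ Part X (i l) (G l) (H l)) ∧
      ∀ z ∈ Dom X, F z = ∑ l, (H l z - G l (update z (i l) 1) + G l (update z (i l) 0)) := by
  induction h with
  | gen i hi G H hG hH hP =>
    refine ⟨1, fun _ => i, fun _ => G, fun _ => H, fun _ => ⟨hi, hG, hH, hP⟩, fun z _ => ?_⟩
    rw [Fin.sum_univ_one]
  | zero =>
    refine ⟨0, Fin.elim0, Fin.elim0, Fin.elim0, fun l => l.elim0, fun z _ => ?_⟩
    rw [Fin.sum_univ_zero]
  | add F F' _ _ h1 h2 =>
    obtain ⟨m, i, G, H, hG, hs⟩ := h1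
    obtain ⟨m', i', G', H', hG', hs'⟩ := h2
    refine ⟨m + m', Fin.append i i', Fin.append G G', Fin.append H H', fun l => ?_,
      fun z hz => ?_⟩
    · refine Fin.addCases (fun l => ?_) (fun l => ?_) l
      · rw [Fin.append_left, Fin.append_left, Fin.append_left]
        exact hG l
      · rw [Fin.append_right, Fin.append_right, Fin.append_right]
        exact hG' l
    · show F z + F' z = _
      rw [Fin.sum_univ_add, hs z hz, hs' z hz]
      congr 1
      · apply Finset.sum_congr rfl
        intro l _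
        rw [Fin.append_left, Fin.append_left, Fin.append_left]
      · apply Finset.sum_congr rfl
        intro l _
        rw [Fin.append_right, Fin.append_right, Fin.append_right]
  | neg F _ h1 =>
    obtain ⟨m, i, G, H, hG, hs⟩ := h1
    refine ⟨m, i, fun l z => - G l z, fun l z => - H l z, fun l => ?_, fun z hz => ?_⟩
    · obtain ⟨a, b, c, d⟩ := hG l
      exact ⟨a, hneg _ b, hneg _ c, fun z hz => (d z hz).neg⟩
    · show - F z = _
      rw [hs z hz, ← Finset.sum_neg_distrib]
      apply Finset.sum_congr rfl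
      intro l _
      ring
  | congr F F' _ h1 h2 =>
    obtain ⟨m, i, G, H, hG, hs⟩ := h2
    exact ⟨m, i, G, H, hG, fun z hz => by rw [← h1 z hz, hs z hz]⟩

/-- Piece HARD.  A rational function which is an algebraic Stokes combination is a rational Stokes
combination after multiplication by `tpi n · tpi (n+1)`.
Proof.  `St.exists_fin`: finitely many `G_l ∈ AlgK K`, directions `i_l`.  Choose `M ≥ n + 2` with `i_l < M` and
`AlgAt K M (G_l)` for all `l` (`AlgAt.mono`).  `algRep` for each `l`: a common `N` such that all `G_l∘sc` are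
representable.  `F` is represented by `tpi M · F` (`Rep.rat`), so `grid` gives
`St (tpi (M+1) · (tpi M · F))`.  Rename by the permutation exchanging `n ↔ M` and `n+1 ↔ M+1`
(`St.rename`; `F` depends on coordinates `< n` only). -/
theorem hard {K : Subfield ℂ} (hI : I ∈ K) {n : ℕ} {F : Pt → ℂ} (hF : IsRat K X0 F)
    (hd : DepOn X0 (Set.Iio n) F) (h : St (AlgK K) X0 Set.univ F) :
    St (IsRat K X0) X0 Set.univ (fun z => tpi n z * tpi (n + 1) z * F z) := by
  obtain ⟨m, i, G, H, hGH, hsum⟩ := h.exists_fin (fun G hG => hG.neg)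
  choose nl hnl using fun l => (hGH l).2.1
  set M : ℕ := n + 2 + ∑ l, (i l + 1 + nl l) with hM
  have hle : ∀ l, i l + 1 + nl l ≤ ∑ l, (i l + 1 + nl l) := fun l =>
    Finset.single_le_sum (f := fun l => i l + 1 + nl l) (fun _ _ => Nat.zero_le _)
      (Finset.mem_univ l)
  have hiM : ∀ l, i l < M := by
    intro l
    have := hle l
    omega
  have hAt : ∀ l, AlgAt K M (G l) := by
    intro l
    refine AlgAt.mono ?_ (hnl l)
    have := hle l
    omega
  choose N0 hN0 hN0r using fun l => algRep hI (hAt l)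
  set N : ℕ := 1 + ∑ l, N0 l with hN
  have hleN : ∀ l, N0 l ≤ N := by
    intro l
    have := Finset.single_le_sum (f := N0) (fun _ _ => Nat.zero_le _) (Finset.mem_univ l)
    omega
  have hdM : DepOn X0 (Set.Iio M) F := fun z hz w hw h =>
    hd z hz w hw fun j hj => h j (by
      simp only [Set.mem_Iio] at hj ⊢
      omega)
  have key := grid hI M m i hiM G H (fun l => (hAt l).1) (fun l => (hGH l).2.2.2) N (by omega)
    (fun l a => hN0r l N (hleN l) a) F _ (Rep.rat hF hdM) hsum
  -- renaming
  let σ : ℕ → ℕ := fun j => if j = n then M else if j = M then n else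
    if j = n + 1 then M + 1 else if j = M + 1 then n + 1 else j
  have hσ : Injective σ := by
    intro a b hab
    simp only [σ] at hab
    split_ifs at hab <;> omega
  have hσ1 : σ M = n := by
    simp only [σ]
    split_ifs <;> omega
  have hσ2 : σ (M + 1) = n + 1 := by
    simp only [σ]
    split_ifs <;> omega
  have hσ3 : ∀ j, j < n → σ j = j := by
    intro j hj
    simp only [σ]
    split_ifs <;> omega
  have hren := St.rename (σ := σ) (fun G hG => hG.comp (fun z i => z (σ i))
    (fun i => IsRat.coord (σ i)) (fun z hz i => hz (σ i))) hσ key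
  refine St.congr _ _ (St.mono (fun _ h => h) (Set.subset_univ _) hren) fun z hz => ?_
  have hFz : F (fun i => z (σ i)) = F z := by
    refine hd _ (fun i => hz (σ i)) z hz fun j hj => ?_
    show z (σ j) = z j
    rw [hσ3 j hj]
  show tpi (M + 1) (fun i => z (σ i)) * (tpi M (fun i => z (σ i)) * F (fun i => z (σ i))) = _
  rw [hFz]
  unfold tpi
  simp only [hσ1, hσ2]
  ring

end MP1eadaeL
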