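import Mathlib
import Pool.Agent.Lib_MP_1eadae_ag.Real
import Pool.Agent.Lib_MP_1eadae_ag.Real2
import Pool.Agent.Lib_MP_1eadae_ag.Defs
import Pool.Agent.Lib_MP_1eadae_ag.RatA
import Pool.Agent.Lib_MP_1eadae_ag.RatB
import Pool.Agent.Lib_MP_1eadae_ag.Stk
import Pool.Agent.Lib_MP_1eadae_ag.SubA
import Pool.Agent.Lib_MP_1eadae_ag.Hard

/-! # MP_1eadae_ag, piece TRA: translation between real and complex coordinates -/

namespace MP1eadaeL

open Complex Function MP1eadae

/-- a function of real coordinates as a function of complex coordinates -/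
def cx (F : (ℕ → ℝ) → ℂ) : Pt → ℂ := fun z => F (fun i => (z i).re)

/-- restriction to real points -/
def rl (G : Pt → ℂ) : (ℕ → ℝ) → ℂ := fun x => G (fun i => ((x i : ℝ) : ℂ))

/- Piece TRA.  Replace every sorry. -/

theorem ofReal_mem_dom {x : ℕ → ℝ} (hx : x ∈ Cube) : (fun i => ((x i : ℝ) : ℂ)) ∈ Dom X0 := by
  intro i
  exact ⟨x i, hx i, rfl⟩

theorem re_mem_cube {z : Pt} (hz : z ∈ Dom X0) : (fun i => (z i).re) ∈ Cube := by
  intro i
  obtain ⟨t, ht, h⟩ := hz i
  have h' : (t : ℂ) = z i := h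
  show (z i).re ∈ Set.Icc (0 : ℝ) 1
  rw [← h', Complex.ofReal_re]
  exact ht

theorem ofReal_re {z : Pt} (hz : z ∈ Dom X0) : (fun i => (((z i).re : ℝ) : ℂ)) = z := by
  funext i
  obtain ⟨t, ht, h⟩ := hz i
  have h' : (t : ℂ) = z i := h
  show (((z i).re : ℝ) : ℂ) = z i
  rw [← h', Complex.ofReal_re]

theorem rl_cx (F : (ℕ → ℝ) → ℂ) : rl (cx F) = F := by
  funext x
  show F (fun i => (((x i : ℝ) : ℂ)).re) = F x
  congr 1

theorem cx_rl {G : Pt → ℂ} {z : Pt} (hz : z ∈ Dom X0) : cx (rl G) z = G z := by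
  show G (fun i => (((z i).re : ℝ) : ℂ)) = G z
  rw [ofReal_re hz]

theorem mem_ratFn_iff {K : Subfield ℂ} {F : (ℕ → ℝ) → ℂ} : F ∈ RatFn K ↔ IsRat K X0 (cx F) := by
  constructor
  · rintro ⟨P, Q, h⟩
    refine ⟨P, Q, fun z hz => ?_⟩
    have h1 := h _ (re_mem_cube hz)
    unfold peval at h1
    rw [ofReal_re hz] at h1
    exact h1
  · rintro ⟨P, Q, h⟩
    refine ⟨P, Q, fun x hx => ?_⟩
    have h1 := h _ (ofReal_mem_dom hx)
    exact h1

theorem rl_mem_ratFn {K : Subfield ℂ} {G : Pt → ℂ} (h : IsRat K X0 G) : rl G ∈ RatFn K := by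
  obtain ⟨P, Q, h⟩ := h
  exact ⟨P, Q, fun x hx => h _ (ofReal_mem_dom hx)⟩

theorem depLT_iff {n : ℕ} {F : (ℕ → ℝ) → ℂ} : DepLT n F ↔ DepOn X0 (Set.Iio n) (cx F) := by
  constructor
  · intro h z hz w hw hzw
    exact h _ (re_mem_cube hz) _ (re_mem_cube hw) fun i hi => by
      show (z i).re = (w i).re
      rw [hzw i hi]
  · intro h x hx y hy hxy
    have h1 := h _ (ofReal_mem_dom hx) _ (ofReal_mem_dom hy) fun i hi => by
      show ((x i : ℝ) : ℂ) = ((y i : ℝ) : ℂ)
      rw [hxy i hi]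
    exact h1

theorem depLT_rl {n : ℕ} {G : Pt → ℂ} (h : DepOn X0 (Set.Iio n) G) : DepLT n (rl G) := by
  intro x hx y hy hxy
  refine h _ (ofReal_mem_dom hx) _ (ofReal_mem_dom hy) fun i hi => ?_
  show ((x i : ℝ) : ℂ) = ((y i : ℝ) : ℂ)
  rw [hxy i hi]

/-- A real derivative on `[0,1]` is a complex derivative within `seg`: for `w = (t : ℂ)` with
`t ∈ [0,1]`, `G (re ∘ update z i w) = G (update (re ∘ z) i t)`. -/
theorem PartialD.cx {i : ℕ} {G H : (ℕ → ℝ) → ℂ} (h : PartialD i G H) :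
    Part X0 i (MP1eadaeL.cx G) (MP1eadaeL.cx H) := by
  intro z hz
  have hx := re_mem_cube hz
  have h1 := h _ hx
  have hzi : (((z i).re : ℝ) : ℂ) = z i := congrFun (ofReal_re hz) i
  have hupd : ∀ w : ℂ, MP1eadaeL.cx G (update z i w) =
      G (update (fun j => (z j).re) i w.re) := by
    intro w
    show G (fun j => (update z i w j).re) = _
    congr 1
    funext j
    by_cases hj : j = i
    · subst hj
      rw [update_self, update_self]
    · rw [update_of_ne hj, update_of_ne hj]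
  rw [hasDerivWithinAt_iff_tendsto_slope] at h1 ⊢
  have hre : Filter.Tendsto Complex.re (nhdsWithin (z i) (X0 i \ {z i}))
      (nhdsWithin ((z i).re) (Set.Icc (0 : ℝ) 1 \ {(z i).re})) := by
    refine tendsto_nhdsWithin_iff.mpr ⟨?_, ?_⟩
    · exact (Complex.continuous_re.tendsto (z i)).mono_left nhdsWithin_le_nhds
    · refine Filter.eventually_of_mem self_mem_nhdsWithin ?_
      rintro w ⟨hw1, hw2⟩
      obtain ⟨t, ht, htw⟩ := hw1
      have h' : (t : ℂ) = w := htw
      refine ⟨?_, ?_⟩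
      · rw [← h', Complex.ofReal_re]
        exact ht
      · intro h3
        apply hw2
        have h3' : w.re = (z i).re := h3
        show w = z i
        rw [← hzi, ← h3', ← h', Complex.ofReal_re]
  have h2 := h1.comp hre
  refine h2.congr' ?_
  refine Filter.eventually_of_mem self_mem_nhdsWithin ?_
  rintro w ⟨hw1, hw2⟩
  obtain ⟨t, ht, htw⟩ := hw1
  have h' : (t : ℂ) = w := htw
  simp only [Function.comp_apply, slope_def_module, hupd]
  have hw : (w - z i)⁻¹ = (((w.re - (z i).re)⁻¹ : ℝ) : ℂ) := by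
    rw [← h', ← hzi]
    push_cast
    simp
  rw [hw]
  rfl

theorem Part.rl {i : ℕ} {G H : Pt → ℂ} (h : Part X0 i G H) :
    PartialD i (MP1eadaeL.rl G) (MP1eadaeL.rl H) := by
  intro x hx
  have h1 := h _ (ofReal_mem_dom hx)
  have hupd : ∀ t : ℝ, MP1eadaeL.rl G (update x i t) =
      G (update (fun j => ((x j : ℝ) : ℂ)) i (t : ℂ)) := by
    intro t
    show G (fun j => ((update x i t j : ℝ) : ℂ)) = _
    congr 1
    funext j
    by_cases hj : j = i
    · subst hj
      rw [update_self, update_self]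
    · rw [update_of_ne hj, update_of_ne hj]
  have h2 : HasDerivWithinAt (fun t : ℝ => (t : ℂ)) 1 (Set.Icc (0 : ℝ) 1) (x i) :=
    (Complex.ofRealCLM.hasDerivAt (x := x i)).hasDerivWithinAt
  have h3 := HasDerivWithinAt.scomp (x i) h1 h2 (fun t ht => ⟨t, ht, rfl⟩)
  rw [one_smul] at h3
  refine h3.congr (fun t _ => ?_) ?_
  · exact hupd t
  · exact hupd _

/-- from the real span to the complex one -/
theorem stokesSpan_cx {C : Set ((ℕ → ℝ) → ℂ)} {C' : (Pt → ℂ) → Prop} (hC : ∀ G ∈ C, C' (cx G))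
    {F : (ℕ → ℝ) → ℂ} (h : F ∈ StokesSpan C) : St C' X0 Set.univ (cx F) := by
  obtain ⟨m, i, G, H, h1, h2⟩ := h
  have hgen : ∀ l ∈ (Finset.univ : Finset (Fin m)), St C' X0 Set.univ
      (fun z => cx (H l) z - cx (G l) (update z (i l) 1) + cx (G l) (update z (i l) 0)) :=
    fun l _ => St.gen (i l) (Set.mem_univ _) _ _ (hC _ (h1 l).1) (hC _ (h1 l).2.1)
      (PartialD.cx (h1 l).2.2)
  refine St.congr _ _ (St.sum Finset.univ _ hgen) (fun z hz => ?_)
  have hupd : ∀ (l : Fin m) (c : ℝ), cx (G l) (update z (i l) (c : ℂ)) =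
      G l (update (fun j => (z j).re) (i l) c) := by
    intro l c
    show G l (fun j => (update z (i l) (c : ℂ) j).re) = _
    congr 1
    funext j
    by_cases hj : j = i l
    · subst hj
      rw [update_self, update_self, Complex.ofReal_re]
    · rw [update_of_ne hj, update_of_ne hj]
  have h3 := h2 _ (re_mem_cube hz)
  show _ = F (fun j => (z j).re)
  rw [h3]
  refine Finset.sum_congr rfl fun l _ => ?_
  rw [← hupd l 1, ← hupd l 0, Complex.ofReal_one, Complex.ofReal_zero]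
  rfl

/-- from the complex span to the real one (`St.exists_fin`) -/
theorem stokesSpan_of_St {C : Set ((ℕ → ℝ) → ℂ)} {C' : (Pt → ℂ) → Prop}
    (hneg : ∀ G, C' G → C' (fun z => - G z)) (hC : ∀ G, C' G → rl G ∈ C)
    {F : (ℕ → ℝ) → ℂ} {G : Pt → ℂ} (h : St C' X0 Set.univ G)
    (hFG : ∀ x ∈ Cube, F x = G (fun i => ((x i : ℝ) : ℂ))) : F ∈ StokesSpan C := by
  obtain ⟨m, i, G', H', h1, h2⟩ := St.exists_fin hneg h
  refine ⟨m, i, fun l => rl (G' l), fun l => rl (H' l), fun l => ⟨hC _ (h1 l).2.1,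
    hC _ (h1 l).2.2.1, Part.rl (h1 l).2.2.2⟩, fun x hx => ?_⟩
  have hupd : ∀ (l : Fin m) (c : ℝ), rl (G' l) (update x (i l) c) =
      G' l (update (fun j => ((x j : ℝ) : ℂ)) (i l) (c : ℂ)) := by
    intro l c
    show G' l (fun j => ((update x (i l) c j : ℝ) : ℂ)) = _
    congr 1
    funext j
    by_cases hj : j = i l
    · subst hj
      rw [update_self, update_self]
    · rw [update_of_ne hj, update_of_ne hj]
  rw [hFG x hx, h2 _ (ofReal_mem_dom hx)]
  refine Finset.sum_congr rfl fun l _ => ?_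
  beta_reduce
  rw [hupd l 1, hupd l 0, Complex.ofReal_one, Complex.ofReal_zero]
  rfl

end MP1eadaeL
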