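import Mathlib
import Pool.Agent.Lib_MP_1eadae_ag.Geo
import Pool.Agent.Lib_MP_1eadae_ag.Defs
import Pool.Agent.Lib_MP_1eadae_ag.RatA
import Pool.Agent.Lib_MP_1eadae_ag.RatB
import Pool.Agent.Lib_MP_1eadae_ag.Stk
import Pool.Agent.Lib_MP_1eadae_ag.TrA
import Pool.Agent.Lib_MP_1eadae_ag.ReIm

/-! # MP_1eadae_ag, piece GEOA: the moves are sums of Stokes elements -/

namespace MP1eadae

open Complex MP1eadaeL

theorem geoa_peval (A : MvPolynomial ℕ ℚ) (x : ℕ → ℝ) :
    peval A x = ((MvPolynomial.aeval x A : ℝ) : ℂ) :=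
  MvPolynomial.aeval_algebraMap_apply ℂ x A

/-- real and complex rational functions -/
theorem ratR_iff {f : (ℕ → ℝ) → ℝ} : f ∈ RatR ↔ (fun x => (f x : ℂ)) ∈ RatFn ℚ := by
  constructor
  · rintro ⟨P, Q, h⟩
    refine ⟨P, Q, fun x hx => ?_⟩
    obtain ⟨h1, h2⟩ := h x hx
    rw [geoa_peval, geoa_peval]
    refine ⟨by exact_mod_cast h1, ?_⟩
    show (f x : ℂ) = _
    rw [h2]
    push_cast
    rfl
  · rintro ⟨P, Q, h⟩
    refine ⟨P, Q, fun x hx => ?_⟩
    obtain ⟨h1, h2⟩ := h x hx
    rw [geoa_peval, geoa_peval] at h2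
    rw [geoa_peval] at h1
    refine ⟨by exact_mod_cast h1, ?_⟩
    have h3 : (f x : ℂ) = ((MvPolynomial.aeval x P : ℝ) : ℂ) / ((MvPolynomial.aeval x Q : ℝ) : ℂ) :=
      h2
    exact_mod_cast h3

theorem geoa_isRat {f : (ℕ → ℝ) → ℝ} :
    f ∈ RatR ↔ IsRat (⊥ : Subfield ℂ) X0 (cx (fun x => (f x : ℂ))) := by
  rw [ratR_iff, ratFn_rat_eq_bot]
  exact mem_ratFn_iff

theorem geoa_upd {x : ℕ → ℝ} (hx : x ∈ Cube) (i : ℕ) {t : ℝ} (ht : t ∈ Set.Icc (0 : ℝ) 1) :
    Function.update x i t ∈ Cube := by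
  intro j
  by_cases h : j = i
  · subst h
    rw [Function.update_self]
    exact ht
  · rw [Function.update_of_ne h]
    exact hx j

theorem geoa_deriv {i : ℕ} {φ J : (ℕ → ℝ) → ℝ}
    (hd : ∀ x ∈ Cube, HasDerivWithinAt (fun t : ℝ => φ (Function.update x i t)) (J x)
      (Set.Icc 0 1) (x i)) {x : ℕ → ℝ} (hx : x ∈ Cube) {t : ℝ} (ht : t ∈ Set.Icc (0 : ℝ) 1) :
    HasDerivWithinAt (fun t : ℝ => φ (Function.update x i t)) (J (Function.update x i t))
      (Set.Icc 0 1) t := by
  have h1 := hd _ (geoa_upd hx i ht)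
  rw [Function.update_self] at h1
  refine h1.congr (fun s _ => ?_) ?_
  · rw [Function.update_idem]
  · rw [Function.update_idem]

/-- a function with nonnegative derivative is monotone -/
theorem geoa_mono {i : ℕ} {φ J : (ℕ → ℝ) → ℝ} (hJ : ∀ x ∈ Cube, 0 ≤ J x)
    (hd : ∀ x ∈ Cube, HasDerivWithinAt (fun t : ℝ => φ (Function.update x i t)) (J x)
      (Set.Icc 0 1) (x i)) {x : ℕ → ℝ} (hx : x ∈ Cube) :
    MonotoneOn (fun t : ℝ => φ (Function.update x i t)) (Set.Icc 0 1) := by
  refine monotoneOn_of_hasDerivWithinAt_nonneg (f' := fun t => J (Function.update x i t))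
    (convex_Icc 0 1) (fun t ht => (geoa_deriv hd hx ht).continuousWithinAt) (fun t ht => ?_)
    (fun t ht => ?_)
  · exact (geoa_deriv hd hx (interior_subset ht)).mono interior_subset
  · exact hJ _ (geoa_upd hx i (interior_subset ht))

theorem geoa_mem {i : ℕ} {φ J : (ℕ → ℝ) → ℝ} (hJ : ∀ x ∈ Cube, 0 ≤ J x)
    (hd : ∀ x ∈ Cube, HasDerivWithinAt (fun t : ℝ => φ (Function.update x i t)) (J x)
      (Set.Icc 0 1) (x i))
    (hb : ∀ x ∈ Cube, φ (Function.update x i 0) = 0 ∧ φ (Function.update x i 1) = 1)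
    {x : ℕ → ℝ} (hx : x ∈ Cube) : φ x ∈ Set.Icc (0 : ℝ) 1 := by
  have h1 := geoa_mono hJ hd hx
  have h2 := h1 (Set.left_mem_Icc.2 zero_le_one) (hx i) (hx i).1
  have h3 := h1 (hx i) (Set.right_mem_Icc.2 zero_le_one) (hx i).2
  simp only [Function.update_eq_self] at h2 h3
  rw [(hb x hx).1] at h2
  rw [(hb x hx).2] at h3
  exact ⟨h2, h3⟩

theorem geoa_re_upd (z : Pt) (i : ℕ) (t : ℝ) :
    (fun j => (Function.update z i (t : ℂ) j).re) =
      Function.update (fun j => (z j).re) i t := by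
  funext j
  by_cases h : j = i
  · subst h
    rw [Function.update_self, Function.update_self, Complex.ofReal_re]
  · rw [Function.update_of_ne h, Function.update_of_ne h]

theorem geoa_cx_upd (F : (ℕ → ℝ) → ℂ) (z : Pt) (i : ℕ) (t : ℝ) :
    cx F (Function.update z i (t : ℂ)) = F (Function.update (fun j => (z j).re) i t) := by
  show F (fun j => (Function.update z i (t : ℂ) j).re) = _
  rw [geoa_re_upd]

/-- Piece GEOA.  Soundness of a move.  Let `h' = (h ∘ χ) J`.  In complex coordinates (`cx`,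
`ratFn_rat_eq_bot`, `K = ⊥`) apply `St.homotopy` with `p = i`, `s` a coordinate on which `h, φ` do not
depend, `B = seg`, `W = cx h`, and the function `z ↦ (1 - z_s) z_i + z_s φ(z)` (values in `seg`, since
`0 ≤ φ ≤ 1`: `φ` is increasing in `x_i` from `0` to `1`).  At `s = 1` it gives `(h ∘ χ) J`, at `s = 0` it gives
`h`, and the derivative in `s` is `φ - z_i`, which vanishes for `z_i = 0, 1`.  Translate back with
`stokesSpan_of_St`. -/
theorem move_mem_stokesSpan {h' h : (ℕ → ℝ) → ℝ} (hh' : h' ∈ RatR) (hh : h ∈ RatR)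
    (hm : Move h' h) : (fun x => (h' x : ℂ) - (h x : ℂ)) ∈ StokesSpan (RatFn ℚ) := by
  obtain ⟨i, φ, J, hφR, ⟨hJR, hJpos⟩, hd, hb, hhx⟩ := hm
  have rh := geoa_isRat.1 hh
  have rφ := geoa_isRat.1 hφR
  have rJ := geoa_isRat.1 hJR
  obtain ⟨n1, hn1⟩ := rh.dep
  obtain ⟨n2, hn2⟩ := rφ.dep
  obtain ⟨n3, hn3⟩ := rJ.dep
  obtain ⟨s, hs1, hs2, hs3, hs4⟩ : ∃ s : ℕ, n1 ≤ s ∧ n2 ≤ s ∧ n3 ≤ s ∧ i < s :=
    ⟨n1 + n2 + n3 + i + 1, by omega, by omega, by omega, by omega⟩
  have hsi : s ≠ i := by omega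
  have ih : Indep X0 s (cx (fun x => (h x : ℂ))) := hn1.indep (by simpa using hs1)
  have iφ : Indep X0 s (cx (fun x => (φ x : ℂ))) := hn2.indep (by simpa using hs2)
  have iJ : Indep X0 s (cx (fun x => (J x : ℂ))) := hn3.indep (by simpa using hs3)
  have hX : Function.update X0 i seg = X0 := Function.update_eq_self i X0
  -- the derivative of `φ`
  have pφ : Part X0 i (cx (fun x => (φ x : ℂ))) (cx (fun x => (J x : ℂ))) := by
    refine PartialD.cx (fun x hx => ?_)
    exact Complex.ofRealCLM.hasFDerivAt.comp_hasDerivWithinAt (x i) (hd x hx)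
  -- the homotopy
  let Φ : Pt → ℂ := fun z => (1 - z s) * z i + z s * cx (fun x => (φ x : ℂ)) z
  have rΦ : IsRat (⊥ : Subfield ℂ) X0 Φ := by
    refine IsRat.add (IsRat.mul (IsRat.sub ?_ (IsRat.coord s)) (IsRat.coord i))
      (IsRat.mul (IsRat.coord s) rφ)
    exact IsRat.const 1 (Subfield.one_mem _)
  have hΦB : ∀ z ∈ Dom X0, Φ z ∈ seg := by
    intro z hz
    obtain ⟨a, ha, ha'⟩ := hz s
    obtain ⟨b, hb', hb''⟩ := hz i
    have hc := geoa_mem (fun x hx => (hJpos x hx).le) hd hb (re_mem_cube hz)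
    refine ⟨(1 - a) * b + a * φ (fun j => (z j).re), ⟨?_, ?_⟩, ?_⟩
    · exact add_nonneg (mul_nonneg (by linarith [ha.2]) hb'.1) (mul_nonneg ha.1 hc.1)
    · nlinarith [ha.1, ha.2, hb'.2, hc.2, hb'.1, hc.1]
    · show _ = (1 - z s) * z i + z s * (φ (fun j => (z j).re) : ℂ)
      have ha2 : (a : ℂ) = z s := ha'
      have hb2 : (b : ℂ) = z i := hb''
      rw [← ha2, ← hb2]
      push_cast
      ring
  have hseg : ∀ i, ∀ w ∈ X0 i, UniqueDiffWithinAt ℂ (X0 i) w := fun i => ud_seg
  have pone : ∀ k : ℕ, Part X0 k (fun _ => (1 : ℂ)) (fun _ => 0) := fun k =>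
    Part.of_indep (fun _ _ _ _ => rfl)
  have hΦs : Part X0 s Φ (fun z => cx (fun x => (φ x : ℂ)) z - z i) := by
    have c1 : Part X0 s (fun z => z s) (fun _ => 1) := Part.coord s
    have c2 : Part X0 s (fun z => z i) (fun _ => 0) := Part.of_indep (fun z _ w _ =>
      Function.update_of_ne (Ne.symm hsi) w z)
    have c3 : Part X0 s (cx (fun x => (φ x : ℂ))) (fun _ => 0) := Part.of_indep iφ
    have c4 := Part.add (Part.mul (Part.add (pone s) (Part.neg c1)) c2) (Part.mul c1 c3)
    refine Part.congr c4 (fun z _ => ?_) (fun z _ => ?_)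
    · show (1 + -z s) * z i + z s * cx (fun x => (φ x : ℂ)) z =
        (1 - z s) * z i + z s * cx (fun x => (φ x : ℂ)) z
      ring
    · show (0 + -1) * z i + (1 + -z s) * 0 + (1 * cx (fun x => (φ x : ℂ)) z + z s * 0) =
        cx (fun x => (φ x : ℂ)) z - z i
      ring
  have hΦp : Part X0 i Φ (fun z => (1 - z s) + z s * cx (fun x => (J x : ℂ)) z) := by
    have c1 : Part X0 i (fun z => z i) (fun _ => 1) := Part.coord i
    have c2 : Part X0 i (fun z => z s) (fun _ => 0) := Part.of_indep (fun z _ w _ =>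
      Function.update_of_ne hsi w z)
    have c4 := Part.add (Part.mul (Part.add (pone i) (Part.neg c2)) c1) (Part.mul c2 pφ)
    refine Part.congr c4 (fun z _ => ?_) (fun z _ => ?_)
    · show (1 + -z s) * z i + z s * cx (fun x => (φ x : ℂ)) z =
        (1 - z s) * z i + z s * cx (fun x => (φ x : ℂ)) z
      ring
    · show (0 + -0) * z i + (1 + -z s) * 1 + (0 * cx (fun x => (φ x : ℂ)) z +
        z s * cx (fun x => (J x : ℂ)) z) = (1 - z s) + z s * cx (fun x => (J x : ℂ)) z
      ring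
  have hst := St.homotopy (K := (⊥ : Subfield ℂ)) (X := X0) (s := s) (p := i) (B := seg)
    (W := cx (fun x => (h x : ℂ))) hsi rfl rfl (by rw [hX]; exact rh) (by rw [hX]; exact ih)
    rΦ hΦB hΦs hΦp
  have hst2 := St.mono (C' := IsRat (⊥ : Subfield ℂ) X0) (fun _ hG => hG)
    (Set.subset_univ _) hst
  have hst3 : St (IsRat (⊥ : Subfield ℂ) X0) X0 Set.univ
      (fun z => cx (fun x => (h' x : ℂ)) z - cx (fun x => (h x : ℂ)) z) := by
    refine St.congr _ _ hst2 (fun z hz => ?_)
    have hx := re_mem_cube hz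
    have hφ1 : cx (fun x => (φ x : ℂ)) (Function.update z s 1) = cx (fun x => (φ x : ℂ)) z :=
      iφ z hz 1 one_mem_seg
    have hJ1 : cx (fun x => (J x : ℂ)) (Function.update z s 1) = cx (fun x => (J x : ℂ)) z :=
      iJ z hz 1 one_mem_seg
    have e1 : Φ (Function.update z s 1) = cx (fun x => (φ x : ℂ)) z := by
      show (1 - Function.update z s 1 s) * Function.update z s 1 i +
        Function.update z s 1 s * cx (fun x => (φ x : ℂ)) (Function.update z s 1) = _
      rw [hφ1, Function.update_self]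
      ring
    have e0 : Φ (Function.update z s 0) = z i := by
      show (1 - Function.update z s 0 s) * Function.update z s 0 i +
        Function.update z s 0 s * cx (fun x => (φ x : ℂ)) (Function.update z s 0) = _
      rw [Function.update_self, Function.update_of_ne (Ne.symm hsi)]
      ring
    have f1 : cx (fun x => (φ x : ℂ)) (Function.update z i 1) = 1 := by
      have h1 := geoa_cx_upd (fun x => (φ x : ℂ)) z i 1
      rw [Complex.ofReal_one] at h1
      rw [h1, (hb _ hx).2, Complex.ofReal_one]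
    have f0 : cx (fun x => (φ x : ℂ)) (Function.update z i 0) = 0 := by
      have h1 := geoa_cx_upd (fun x => (φ x : ℂ)) z i 0
      rw [Complex.ofReal_zero] at h1
      rw [h1, (hb _ hx).1, Complex.ofReal_zero]
    have hφseg : ((φ (fun j => (z j).re) : ℝ) : ℂ) ∈ seg :=
      ⟨_, geoa_mem (fun x hx => (hJpos x hx).le) hd hb hx, rfl⟩
    have g1 : cx (fun x => (h x : ℂ)) (Function.update (Function.update z s 1) i
        (cx (fun x => (φ x : ℂ)) z)) =
        (h (Function.update (fun j => (z j).re) i (φ (fun j => (z j).re))) : ℂ) := by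
      rw [Function.update_comm hsi]
      have hz2 : Function.update z i (cx (fun x => (φ x : ℂ)) z) ∈ Dom X0 := by
        have := update_mem_dom (X := X0) (p := i) (B := seg) hz hφseg
        rw [hX] at this
        exact this
      rw [ih _ hz2 1 one_mem_seg]
      exact geoa_cx_upd (fun x => (h x : ℂ)) z i _
    have g0 : cx (fun x => (h x : ℂ)) (Function.update (Function.update z s 0) i (z i)) =
        cx (fun x => (h x : ℂ)) z := by
      rw [Function.update_comm hsi, Function.update_eq_self]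
      exact ih z hz 0 zero_mem_seg
    show cx (fun x => (h x : ℂ)) (Function.update (Function.update z s 1) i
        (Φ (Function.update z s 1))) * ((1 - Function.update z s 1 s) +
          Function.update z s 1 s * cx (fun x => (J x : ℂ)) (Function.update z s 1))
      - cx (fun x => (h x : ℂ)) (Function.update (Function.update z s 0) i
        (Φ (Function.update z s 0))) * ((1 - Function.update z s 0 s) +
          Function.update z s 0 s * cx (fun x => (J x : ℂ)) (Function.update z s 0))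
      - cx (fun x => (h x : ℂ)) (Function.update (Function.update z i 1) i
        (Φ (Function.update z i 1))) * (cx (fun x => (φ x : ℂ)) (Function.update z i 1) -
          Function.update z i 1 i)
      + cx (fun x => (h x : ℂ)) (Function.update (Function.update z i 0) i
        (Φ (Function.update z i 0))) * (cx (fun x => (φ x : ℂ)) (Function.update z i 0) -
          Function.update z i 0 i) = _
    rw [e1, e0, f1, f0, g1, g0, hJ1]
    simp only [Function.update_self]
    show _ = ((h' (fun j => (z j).re) : ℝ) : ℂ) - cx (fun x => (h x : ℂ)) z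
    rw [hhx _ hx]
    show _ = (((h (Function.update (fun j => (z j).re) i (φ (fun j => (z j).re))) *
      J (fun j => (z j).re) : ℝ)) : ℂ) - cx (fun x => (h x : ℂ)) z
    have hJc : cx (fun x => (J x : ℂ)) z = ((J (fun j => (z j).re) : ℝ) : ℂ) := rfl
    rw [hJc]
    push_cast
    ring
  refine stokesSpan_of_St (C' := IsRat (⊥ : Subfield ℂ) X0) (fun G hG => hG.neg)
    (fun G hG => ?_) hst3 (fun x hx => ?_)
  · rw [ratFn_rat_eq_bot]
    exact rl_mem_ratFn hG
  · show _ = ((h' (fun j => ((x j : ℝ) : ℂ).re) : ℝ) : ℂ) -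
      ((h (fun j => ((x j : ℝ) : ℂ).re) : ℝ) : ℂ)
    simp only [Complex.ofReal_re]

end MP1eadae
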