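import Mathlib
import Pool.Agent.Lib_MP_1eadae_ag.Geo
import Pool.Agent.Lib_MP_1eadae_ag.ReIm
import Pool.Agent.Lib_MP_1eadae_ag.GeoA

/-! # MP_1eadae_ag, piece GEOB: Stokes elements are differences of moves -/

namespace MP1eadae

open Complex

/-! ### rational functions -/

theorem geob_const (c : ℕ) : (fun _ => (c : ℝ)) ∈ RatR := by
  rw [geoa_isRat]
  exact (MP1eadaeL.IsRat.natCast c).congr fun z _ => by
    show (c : ℂ) = (((c : ℝ)) : ℂ)
    push_cast
    rfl

theorem geob_coord (i : ℕ) : (fun x : ℕ → ℝ => x i) ∈ RatR := by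
  rw [geoa_isRat]
  exact (MP1eadaeL.IsRat.coord i).congr fun z hz =>
    (congrFun (MP1eadaeL.ofReal_re hz) i).symm

theorem geob_add {F G : (ℕ → ℝ) → ℝ} (hF : F ∈ RatR) (hG : G ∈ RatR) :
    (fun x => F x + G x) ∈ RatR := by
  rw [geoa_isRat] at *
  exact (hF.add hG).congr fun z _ => (Complex.ofReal_add _ _).symm

theorem geob_sub {F G : (ℕ → ℝ) → ℝ} (hF : F ∈ RatR) (hG : G ∈ RatR) :
    (fun x => F x - G x) ∈ RatR := by
  rw [geoa_isRat] at *
  exact (hF.sub hG).congr fun z _ => (Complex.ofReal_sub _ _).symm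

theorem geob_mul {F G : (ℕ → ℝ) → ℝ} (hF : F ∈ RatR) (hG : G ∈ RatR) :
    (fun x => F x * G x) ∈ RatR := by
  rw [geoa_isRat] at *
  exact (hF.mul hG).congr fun z _ => (Complex.ofReal_mul _ _).symm

theorem geob_div {F G : (ℕ → ℝ) → ℝ} (hF : F ∈ RatR) (hG : G ∈ RatR)
    (h0 : ∀ x ∈ Cube, G x ≠ 0) : (fun x => F x / G x) ∈ RatR := by
  rw [geoa_isRat] at *
  refine (hF.div hG fun z hz => ?_).congr fun z _ => (Complex.ofReal_div _ _).symm
  exact Complex.ofReal_ne_zero.2 (h0 _ (MP1eadaeL.re_mem_cube hz))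

theorem geob_subst {F : (ℕ → ℝ) → ℝ} (hF : F ∈ RatR) (i : ℕ) (t : ℕ) (ht : t = 0 ∨ t = 1) :
    (fun x => F (Function.update x i (t : ℝ))) ∈ RatR := by
  rw [geoa_isRat] at *
  have hX : Function.update MP1eadaeL.X0 i MP1eadaeL.seg = MP1eadaeL.X0 :=
    Function.update_eq_self i MP1eadaeL.X0
  have h1 : MP1eadaeL.IsRat (⊥ : Subfield ℂ) MP1eadaeL.X0
      (fun z => MP1eadaeL.cx (fun x => (F x : ℂ)) (Function.update z i ((fun _ => (t : ℂ)) z))) := by
    refine MP1eadaeL.IsRat.subst (B := MP1eadaeL.seg) (by rw [hX]; exact hF)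
      (MP1eadaeL.IsRat.natCast t) (fun z _ => ?_)
    rcases ht with rfl | rfl
    · rw [Nat.cast_zero]
      exact MP1eadaeL.zero_mem_seg
    · rw [Nat.cast_one]
      exact MP1eadaeL.one_mem_seg
  refine h1.congr fun z _ => ?_
  have h2 := geoa_cx_upd (fun x => (F x : ℂ)) z i (t : ℝ)
  rw [Complex.ofReal_natCast] at h2
  exact h2

theorem geob_subst0 {F : (ℕ → ℝ) → ℝ} (hF : F ∈ RatR) (i : ℕ) :
    (fun x => F (Function.update x i 0)) ∈ RatR := by
  have h := geob_subst hF i 0 (Or.inl rfl)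
  rw [Nat.cast_zero] at h
  exact h

theorem geob_subst1 {F : (ℕ → ℝ) → ℝ} (hF : F ∈ RatR) (i : ℕ) :
    (fun x => F (Function.update x i 1)) ∈ RatR := by
  have h := geob_subst hF i 1 (Or.inr rfl)
  rw [Nat.cast_one] at h
  exact h

theorem geob_cont (P : MvPolynomial ℕ ℚ) :
    Continuous (fun x : ℕ → ℝ => (MvPolynomial.aeval x P : ℝ)) := by
  induction P using MvPolynomial.induction_on with
  | C a =>
    simp only [MvPolynomial.aeval_C]
    exact continuous_const
  | add P Q hP hQ =>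
    simp only [map_add]
    exact hP.add hQ
  | mul_X P i hP =>
    simp only [map_mul, MvPolynomial.aeval_X]
    exact hP.mul (continuous_apply i)

theorem geob_compact : IsCompact Cube := by
  have h : Cube = Set.pi Set.univ (fun _ : ℕ => Set.Icc (0 : ℝ) 1) := by
    ext x
    exact ⟨fun h i _ => h i, fun h i => h i (Set.mem_univ i)⟩
  rw [h]
  exact isCompact_univ_pi fun _ => isCompact_Icc

theorem geob_bdd {H : (ℕ → ℝ) → ℝ} (hH : H ∈ RatR) : ∃ c : ℕ, ∀ x ∈ Cube, 0 < H x + c := by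
  obtain ⟨P, Q, h⟩ := hH
  have hc : ContinuousOn H Cube :=
    (((geob_cont P).continuousOn).div ((geob_cont Q).continuousOn) fun x hx => (h x hx).1).congr
      fun x hx => (h x hx).2
  obtain ⟨C, hC⟩ := geob_compact.exists_bound_of_continuousOn hc
  refine ⟨⌈C⌉₊ + 1, fun x hx => ?_⟩
  have h1 := hC x hx
  rw [Real.norm_eq_abs] at h1
  have h2 := (abs_le.1 h1).1
  have h3 := Nat.le_ceil C
  push_cast
  linarith

theorem geob_one_mem : (1 : ℝ) ∈ Set.Icc (0 : ℝ) 1 := Set.right_mem_Icc.2 zero_le_one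

theorem geob_zero_mem : (0 : ℝ) ∈ Set.Icc (0 : ℝ) 1 := Set.left_mem_Icc.2 zero_le_one

/-- one Stokes element -/
theorem geob_one {i : ℕ} {G H : (ℕ → ℝ) → ℝ} (hG : G ∈ RatR) (hH : H ∈ RatR)
    (hd : ∀ x ∈ Cube, HasDerivWithinAt (fun t : ℝ => G (Function.update x i t)) (H x)
      (Set.Icc 0 1) (x i)) :
    ∃ h' h : (ℕ → ℝ) → ℝ, (h' ∈ PosRat ∧ h ∈ PosRat ∧ Move h' h) ∧ ∀ x ∈ Cube,
      H x - G (Function.update x i 1) + G (Function.update x i 0) = h' x - h x := by
  obtain ⟨c, hc⟩ := geob_bdd hH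
  obtain ⟨G', hG'def⟩ : ∃ G' : (ℕ → ℝ) → ℝ, G' = fun x => G x + (c : ℝ) * x i := ⟨_, rfl⟩
  obtain ⟨H', hH'def⟩ : ∃ H' : (ℕ → ℝ) → ℝ, H' = fun x => H x + (c : ℝ) := ⟨_, rfl⟩
  have hG' : G' ∈ RatR := by
    rw [hG'def]
    exact geob_add hG (geob_mul (geob_const c) (geob_coord i))
  have hH' : H' ∈ RatR := by
    rw [hH'def]
    exact geob_add hH (geob_const c)
  have hH'pos : ∀ x ∈ Cube, 0 < H' x := by
    intro x hx
    rw [hH'def]
    exact hc x hx
  have hd' : ∀ x ∈ Cube, HasDerivWithinAt (fun t : ℝ => G' (Function.update x i t)) (H' x)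
      (Set.Icc 0 1) (x i) := by
    intro x hx
    have h1 : HasDerivWithinAt (fun t : ℝ => (c : ℝ) * t) ((c : ℝ) * 1) (Set.Icc 0 1) (x i) :=
      ((hasDerivAt_id (x i)).const_mul (c : ℝ)).hasDerivWithinAt
    have h2 := (hd x hx).add h1
    rw [mul_one] at h2
    rw [hG'def, hH'def]
    refine h2.congr (fun t _ => ?_) ?_
    · show G (Function.update x i t) + (c : ℝ) * Function.update x i t i = _
      rw [Function.update_self]
      rfl
    · show G (Function.update x i (x i)) + (c : ℝ) * Function.update x i (x i) i = _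
      rw [Function.update_self]
      rfl
  obtain ⟨k, hkdef⟩ : ∃ k : (ℕ → ℝ) → ℝ, k = fun x => G' (Function.update x i 1) -
    G' (Function.update x i 0) := ⟨_, rfl⟩
  have hk : k ∈ RatR := by
    rw [hkdef]
    exact geob_sub (geob_subst1 hG' i) (geob_subst0 hG' i)
  have hkpos : ∀ x ∈ Cube, 0 < k x := by
    intro x hx
    have h1 : StrictMonoOn (fun t : ℝ => G' (Function.update x i t)) (Set.Icc 0 1) := by
      refine strictMonoOn_of_hasDerivWithinAt_pos (f' := fun t => H' (Function.update x i t))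
        (convex_Icc 0 1) (fun t ht => (geoa_deriv hd' hx ht).continuousWithinAt) (fun t ht => ?_)
        (fun t ht => ?_)
      · exact (geoa_deriv hd' hx (interior_subset ht)).mono interior_subset
      · exact hH'pos _ (geoa_upd hx i (interior_subset ht))
    have h2 := h1 geob_zero_mem geob_one_mem one_pos
    rw [hkdef]
    exact sub_pos.2 h2
  have hku : ∀ (x : ℕ → ℝ) (t : ℝ), k (Function.update x i t) = k x := by
    intro x t
    rw [hkdef]
    simp only [Function.update_idem]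
  obtain ⟨φ, hφdef⟩ : ∃ φ : (ℕ → ℝ) → ℝ, φ = fun x => (G' x - G' (Function.update x i 0)) / k x :=
    ⟨_, rfl⟩
  obtain ⟨J, hJdef⟩ : ∃ J : (ℕ → ℝ) → ℝ, J = fun x => H' x / k x := ⟨_, rfl⟩
  have hφ : φ ∈ RatR := by
    rw [hφdef]
    exact geob_div (geob_sub hG' (geob_subst0 hG' i)) hk fun x hx => (hkpos x hx).ne'
  have hJ : J ∈ PosRat := by
    rw [hJdef]
    exact ⟨geob_div hH' hk fun x hx => (hkpos x hx).ne', fun x hx =>
      div_pos (hH'pos x hx) (hkpos x hx)⟩
  refine ⟨H', k, ⟨⟨hH', hH'pos⟩, ⟨hk, hkpos⟩, i, φ, J, hφ, hJ, ?_, ?_, ?_⟩, ?_⟩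
  · intro x hx
    have h1 := ((hd' x hx).sub_const (G' (Function.update x i 0))).div_const (k x)
    rw [hφdef, hJdef]
    refine h1.congr (fun t _ => ?_) ?_
    · show (G' (Function.update x i t) - G' (Function.update (Function.update x i t) i 0)) /
        k (Function.update x i t) = _
      rw [hku, Function.update_idem]
    · show (G' (Function.update x i (x i)) -
        G' (Function.update (Function.update x i (x i)) i 0)) / k (Function.update x i (x i)) = _
      rw [hku, Function.update_idem]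
  · intro x hx
    rw [hφdef]
    constructor
    · show (G' (Function.update x i 0) - G' (Function.update (Function.update x i 0) i 0)) /
        k (Function.update x i 0) = 0
      rw [Function.update_idem, sub_self, zero_div]
    · show (G' (Function.update x i 1) - G' (Function.update (Function.update x i 1) i 0)) /
        k (Function.update x i 1) = 1
      rw [Function.update_idem, hku, div_eq_one_iff_eq (hkpos x hx).ne', hkdef]
  · intro x hx
    rw [hku, hJdef]
    show H' x = k x * (H' x / k x)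
    rw [mul_div_cancel₀ _ (hkpos x hx).ne']
  · intro x _
    rw [hkdef, hH'def, hG'def]
    show _ = (H x + (c : ℝ)) - ((G (Function.update x i 1) +
      (c : ℝ) * Function.update x i 1 i) - (G (Function.update x i 0) +
      (c : ℝ) * Function.update x i 0 i))
    rw [Function.update_self, Function.update_self]
    ring

theorem geob_re {F : (ℕ → ℝ) → ℂ} (hF : F ∈ RatFn ℚ) : (fun x => (F x).re) ∈ RatR := by
  rw [ratR_iff]
  have h0 := hF
  obtain ⟨P, Q, h⟩ := hF
  refine ⟨P, Q, fun x hx => ⟨(h x hx).1, ?_⟩⟩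
  show ((F x).re : ℂ) = _
  rw [ratFn_rat_real h0 hx]
  exact (h x hx).2

/-- Piece GEOB.  If `f - g` (real valued) is in the rational Stokes span then `f` and `g` are stably
congruent.
Proof.  `g - f = ∑_l (H_l - G_l|_{x_i=1} + G_l|_{x_i=0})` with `G_l, H_l ∈ RatFn ℚ` (real valued on the cube,
`ratFn_rat_real`), `i = i_l`; let `G_l` denote the real function.  `H_l` is continuous on the compact cube
(`G_l` depends on finitely many coordinates; `Cube` is compact in the product topology, Tychonoff), so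
there is a natural number `c` with `H_l + c > 0` on the cube; put `G' = G_l + c x_i`, `H' = H_l + c`; then
`H' - G'|_1 + G'|_0 = H_l - G_l|_1 + G_l|_0`.  `k = G'|_{x_i=1} - G'|_{x_i=0}` is positive (a function with positive
derivative is increasing), rational, and does not depend on `x_i`.  `φ = (G' - G'|_{x_i=0})/k` is rational,
`φ = 0` at `x_i = 0`, `φ = 1` at `x_i = 1`, `J = ∂φ/∂x_i = H'/k > 0`.  With `h = k`: `h' = (k∘χ) J = k J = H'`.
So `Move H' k` and `H_l - G_l|_1 + G_l|_0 = h' - h`.  Hence `g - f = ∑ (h'_l - h_l)`, that is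
`f + ∑ h'_l = g + ∑ h_l`. -/
theorem stablyCongruent_of_stokesSpan {f g : (ℕ → ℝ) → ℝ}
    (h : (fun x => (g x : ℂ) - (f x : ℂ)) ∈ StokesSpan (RatFn ℚ)) : StablyCongruent f g := by
  obtain ⟨m, i, G, H, h1, h2⟩ := h
  have key : ∀ l : Fin m, ∃ h' h : (ℕ → ℝ) → ℝ, (h' ∈ PosRat ∧ h ∈ PosRat ∧ Move h' h) ∧
      ∀ x ∈ Cube, (H l x).re - (G l (Function.update x (i l) 1)).re +
        (G l (Function.update x (i l) 0)).re = h' x - h x := by
    intro l
    refine geob_one (i := i l) (geob_re (h1 l).1) (geob_re (h1 l).2.1) (fun x hx => ?_)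
    exact Complex.reCLM.hasFDerivAt.comp_hasDerivWithinAt (x (i l)) ((h1 l).2.2 x hx)
  choose h' hh hm he using key
  refine ⟨m, h', hh, hm, fun x hx => ?_⟩
  have h3 := congrArg Complex.re (h2 x hx)
  rw [Complex.re_sum] at h3
  have h4 : g x - f x = ∑ l, (h' l x - hh l x) := by
    have h5 : (((g x : ℝ) : ℂ) - ((f x : ℝ) : ℂ)).re = g x - f x := by
      rw [Complex.sub_re, Complex.ofReal_re, Complex.ofReal_re]
    rw [← h5]
    refine h3.trans (Finset.sum_congr rfl fun l _ => ?_)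
    rw [Complex.add_re, Complex.sub_re]
    exact he l x hx
  rw [Finset.sum_sub_distrib] at h4
  linarith

end MP1eadae
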