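import Mathlib
import Pool.Agent.Lib_MP_1eadae_ag.Geo
import Pool.Agent.Lib_MP_1eadae_ag.CInt

/-! # MP_1eadae_ag, piece GEOC: volumes of bodies -/

namespace MP1eadae

private theorem gc_contOn {n : ℕ} {f : (ℕ → ℝ) → ℝ} (hf : ContinuousOn f Cube) :
    ContinuousOn (fun t : Fin n → ℝ => f (extR t)) (Set.Icc 0 1) :=
  hf.comp continuous_extR.continuousOn fun _ ht => extR_mem_cube ht

private theorem gc_int {n : ℕ} {f : (ℕ → ℝ) → ℝ} (hf : ContinuousOn f Cube) :
    MeasureTheory.IntegrableOn (fun t : Fin n → ℝ => f (extR t)) (Set.Icc 0 1) :=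
  (gc_contOn hf).integrableOn_compact isCompact_Icc

private theorem gc_closed {n : ℕ} {f : (ℕ → ℝ) → ℝ} (hf : ContinuousOn f Cube) :
    IsClosed (body n f) := by
  have h1 : ContinuousOn (fun p : (Fin n → ℝ) × ℝ => (p.2, f (extR p.1) - p.2))
      (Set.Icc (0 : Fin n → ℝ) 1 ×ˢ Set.univ) := by
    refine continuousOn_snd.prodMk (ContinuousOn.sub ?_ continuousOn_snd)
    exact (gc_contOn hf).comp continuousOn_fst fun p hp => hp.1
  have h2 := h1.preimage_isClosed_of_isClosed (isClosed_Icc.prod isClosed_univ)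
    (isClosed_Ici (a := (0 : ℝ)) |>.prod (isClosed_Ici (a := (0 : ℝ))))
  have h3 : body n f = Set.Icc (0 : Fin n → ℝ) 1 ×ˢ Set.univ ∩
      (fun p : (Fin n → ℝ) × ℝ => (p.2, f (extR p.1) - p.2)) ⁻¹' (Set.Ici 0 ×ˢ Set.Ici 0) := by
    ext p
    constructor
    · rintro ⟨a, b, c⟩
      exact ⟨⟨a, Set.mem_univ _⟩, b, sub_nonneg.mpr c⟩
    · rintro ⟨⟨a, _⟩, b, c⟩
      exact ⟨a, b, sub_nonneg.mp c⟩
  rw [h3]
  exact h2

/-- Volume of the body under the graph of a continuous positive function: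
`volume_regionBetween_eq_integral` or `MeasureTheory.measure_lt_top`-type lemmas for
`regionBetween` (the difference between `<` and `≤` is a null set; alternatively use Fubini
`MeasureTheory.Measure.prod_apply` directly: the slice over `t` is `Icc 0 (f (extR t))`). -/
theorem volume_body {n : ℕ} {f : (ℕ → ℝ) → ℝ} (hf : ContinuousOn f Cube)
    (h0 : ∀ x ∈ Cube, 0 < f x) :
    MeasureTheory.volume (body n f) =
      ENNReal.ofReal (∫ t in Set.Icc (0 : Fin n → ℝ) 1, f (extR t)) := by
  rw [MeasureTheory.Measure.volume_eq_prod,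
    MeasureTheory.Measure.prod_apply (gc_closed hf).measurableSet]
  have h1 : ∀ t : Fin n → ℝ, MeasureTheory.volume (Prod.mk t ⁻¹' body n f) =
      (Set.Icc (0 : Fin n → ℝ) 1).indicator (fun t => ENNReal.ofReal (f (extR t))) t := by
    intro t
    by_cases ht : t ∈ Set.Icc (0 : Fin n → ℝ) 1
    · rw [Set.indicator_of_mem ht]
      have h2 : Prod.mk t ⁻¹' body n f = Set.Icc 0 (f (extR t)) := by
        ext s
        constructor
        · rintro ⟨_, b, c⟩
          exact ⟨b, c⟩
        · rintro ⟨b, c⟩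
          exact ⟨ht, b, c⟩
      rw [h2, Real.volume_Icc, sub_zero]
    · rw [Set.indicator_of_notMem ht]
      have h2 : Prod.mk t ⁻¹' body n f = ∅ := by
        ext s
        constructor
        · rintro ⟨a, _, _⟩
          exact (ht a).elim
        · intro h
          exact h.elim
      rw [h2, MeasureTheory.measure_empty]
  rw [MeasureTheory.lintegral_congr h1, MeasureTheory.lintegral_indicator measurableSet_Icc,
    MeasureTheory.ofReal_integral_eq_lintegral_ofReal (gc_int hf)]
  filter_upwards [MeasureTheory.ae_restrict_mem measurableSet_Icc] with t ht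
  exact (h0 _ (extR_mem_cube ht)).le

/-- relation with `cubeInt` (`integral_ofReal`) -/
theorem cubeInt_ofReal {n : ℕ} (f : (ℕ → ℝ) → ℝ) :
    cubeInt n (fun x => (f x : ℂ)) = ((∫ t in Set.Icc (0 : Fin n → ℝ) 1, f (extR t) : ℝ) : ℂ) :=
  integral_complex_ofReal (f := fun t : Fin n → ℝ => f (extR t))

/-- equal volumes and equal integrals -/
theorem volume_body_eq_iff {n : ℕ} {f g : (ℕ → ℝ) → ℝ} (hf : ContinuousOn f Cube)
    (hg : ContinuousOn g Cube) (hf0 : ∀ x ∈ Cube, 0 < f x) (hg0 : ∀ x ∈ Cube, 0 < g x) :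
    MeasureTheory.volume (body n f) = MeasureTheory.volume (body n g) ↔
      cubeInt n (fun x => (f x : ℂ) - (g x : ℂ)) = 0 := by
  have hnn : ∀ {f : (ℕ → ℝ) → ℝ}, (∀ x ∈ Cube, 0 < f x) →
      0 ≤ ∫ t in Set.Icc (0 : Fin n → ℝ) 1, f (extR t) := by
    intro f hf0
    exact MeasureTheory.setIntegral_nonneg measurableSet_Icc
      fun t ht => (hf0 _ (extR_mem_cube ht)).le
  have hcf : ContinuousOn (fun x : ℕ → ℝ => (f x : ℂ)) Cube :=
    Complex.continuous_ofReal.comp_continuousOn hf
  have hcg : ContinuousOn (fun x : ℕ → ℝ => (g x : ℂ)) Cube :=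
    Complex.continuous_ofReal.comp_continuousOn hg
  rw [volume_body hf hf0, volume_body hg hg0, cubeInt_sub hcf hcg, cubeInt_ofReal,
    cubeInt_ofReal, sub_eq_zero, Complex.ofReal_inj,
    ENNReal.ofReal_eq_ofReal_iff (hnn hf0) (hnn hg0)]

private theorem gc_aeval_cont (P : MvPolynomial ℕ ℚ) :
    Continuous (fun x : ℕ → ℝ => (MvPolynomial.aeval x P : ℝ)) := by
  induction P using MvPolynomial.induction_on with
  | C a =>
    simp only [MvPolynomial.aeval_C]
    exact continuous_const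
  | add p q hp hq =>
    simp only [map_add]
    exact hp.add hq
  | mul_X p i hp =>
    simp only [map_mul, MvPolynomial.aeval_X]
    exact hp.mul (continuous_apply i)

theorem continuousOn_ratR {f : (ℕ → ℝ) → ℝ} (hf : f ∈ RatR) : ContinuousOn f Cube := by
  obtain ⟨P, Q, h⟩ := hf
  refine ContinuousOn.congr (f := fun x : ℕ → ℝ =>
    (MvPolynomial.aeval x P : ℝ) / MvPolynomial.aeval x Q) ?_ fun x hx => (h x hx).2
  exact (gc_aeval_cont P).continuousOn.div (gc_aeval_cont Q).continuousOn fun x hx => (h x hx).1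

end MP1eadae
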