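import Mathlib
import Pool.Agent.Lib_MP_1eadae_ag.Real
import Pool.Agent.Lib_MP_1eadae_ag.Real2
import Pool.Agent.Lib_MP_1eadae_ag.Defs
import Pool.Agent.Lib_MP_1eadae_ag.RatA
import Pool.Agent.Lib_MP_1eadae_ag.RatB
import Pool.Agent.Lib_MP_1eadae_ag.TwoSort
import Pool.Agent.Lib_MP_1eadae_ag.Common
import Pool.Agent.Lib_MP_1eadae_ag.Descend
import Pool.Agent.Lib_MP_1eadae_ag.TrA

/-! # MP_1eadae_ag, piece TRN: Nash functions in real and in complex coordinates -/

namespace MP1eadaeL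

open Complex Function MP1eadae

/- Piece TRN.. -/

theorem I_mem_Qi : I ∈ Qi := Subfield.subset_closure (Set.mem_singleton _)

theorem Qi_le_Qbar : Qi ≤ Qbar := by
  refine Subfield.closure_le.2 ?_
  intro x hx
  rw [Set.mem_singleton_iff] at hx
  subst hx
  show I ∈ (algebraicClosure ℚ ℂ).toSubfield
  rw [IntermediateField.mem_toSubfield, mem_algebraicClosure_iff]
  exact Complex.isIntegral_rat_I.isAlgebraic

theorem isAlgebraic_of_mem_Qbar {x : ℂ} (hx : x ∈ Qbar) : IsAlgebraic Qi x := by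
  have h : x ∈ (algebraicClosure ℚ ℂ).toSubfield := hx
  rw [IntermediateField.mem_toSubfield, mem_algebraicClosure_iff] at h
  exact h.tower_top Qi

/-- substitution of `0` for the variables of index at least `n` -/
noncomputable def trnR (n : ℕ) : MvPolynomial ℕ Qbar →+* MvPolynomial (Fin n) Qbar :=
  (MvPolynomial.aeval (R := Qbar) (fun i : ℕ => if h : i < n then
    (MvPolynomial.X ⟨i, h⟩ : MvPolynomial (Fin n) Qbar) else 0)).toRingHom

theorem trnR_eval {n : ℕ} (q : Polynomial (MvPolynomial ℕ Qbar)) (z : CubeT n) (y : ℂ) :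
    evR (phi Qbar n) (q.map (trnR n)) z y = pevalY q (fun i => (ext z i).re) y := by
  unfold evR pevalY
  rw [Polynomial.eval₂_map]
  congr 1
  refine MvPolynomial.ringHom_ext ?_ ?_
  · intro a
    show MvPolynomial.aeval z.1 (MvPolynomial.aeval (R := Qbar) _ (MvPolynomial.C a)) =
      MvPolynomial.aeval _ (MvPolynomial.C a)
    rw [MvPolynomial.algHom_C, MvPolynomial.algHom_C, MvPolynomial.algebraMap_eq,
      MvPolynomial.algHom_C]
  · intro i
    show MvPolynomial.aeval z.1 (MvPolynomial.aeval (R := Qbar) _ (MvPolynomial.X i)) =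
      MvPolynomial.aeval _ (MvPolynomial.X i)
    rw [MvPolynomial.aeval_X, MvPolynomial.aeval_X]
    have h1 : (((ext z i).re : ℝ) : ℂ) = ext z i := congrFun (ofReal_re (ext_mem_dom z)) i
    rw [h1]
    unfold ext
    by_cases h : i < n
    · rw [dif_pos h, dif_pos h, MvPolynomial.aeval_X]
    · rw [dif_neg h, dif_neg h, map_zero]

/-- A real Nash function over `Qbar` of `n` variables is algebraic of level `n` over `Qi`.
Proof.  Let `z0 : CubeT n`; `x0 = re ∘ ext z0 ∈ Cube`.  Take `q, A, B, w, U` at `x0`; let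
`w' z = w (re ∘ ext z)`, continuous near `z0`; replace the polynomials in the variables `ℕ` by
polynomials in `Fin n` by substituting `0` for the variables of index `≥ n` (values at points
`ext z` do not change).  This gives `LocPres Qbar n`, then `LocPres.descend`. -/
theorem algAt_of_nash {n : ℕ} {f : (ℕ → ℝ) → ℂ} (hf : f ∈ NashFn Qbar) (hd : DepLT n f) :
    AlgAt Qi n (cx f) := by
  refine ⟨depLT_iff.1 hd, fun z0 => ?_⟩
  refine LocPres.descend Qi_le_Qbar (fun x hx => isAlgebraic_of_mem_Qbar hx) ?_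
  obtain ⟨q, A, B, w, U, hU, hx0, hcont, h⟩ := hf.2 _ (re_mem_cube (ext_mem_dom z0))
  set r : CubeT n → (ℕ → ℝ) := fun z i => (ext z i).re with hr
  have hrc : Continuous r := by
    refine continuous_pi fun i => ?_
    exact Complex.continuous_re.comp ((continuous_apply i).comp continuous_ext)
  have hrm : ∀ z, r z ∈ Cube := fun z => re_mem_cube (ext_mem_dom z)
  have hev : ∀ᶠ z in nhds z0, r z ∈ U := hrc.continuousAt.eventually (hU.mem_nhds hx0)
  refine ⟨fun z => w (r z), ⟨q.map (trnR n), ?_⟩, A.map (trnR n), B.map (trnR n), ?_⟩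
  · unfold SRq
    filter_upwards [hev] with z hz
    obtain ⟨h1, h2, h3, h4⟩ := h _ ⟨hz, hrm z⟩
    refine ⟨?_, ?_, ?_⟩
    · have h5 : Filter.Tendsto r (nhds z) (nhdsWithin (r z) (U ∩ Cube)) := by
        refine tendsto_nhdsWithin_iff.2 ⟨hrc.continuousAt, ?_⟩
        have h6 : ∀ᶠ z' in nhds z, r z' ∈ U := hrc.continuousAt.eventually (hU.mem_nhds hz)
        filter_upwards [h6] with z' hz'
        exact ⟨hz', hrm z'⟩
      exact (hcont (r z) ⟨hz, hrm z⟩).tendsto.comp h5
    · rw [trnR_eval]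
      exact h1
    · rw [Polynomial.derivative_map, trnR_eval]
      exact h2
  · filter_upwards [hev] with z hz
    obtain ⟨h1, h2, h3, h4⟩ := h _ ⟨hz, hrm z⟩
    rw [trnR_eval, trnR_eval]
    exact ⟨h3, h4⟩

/-- extension of the coefficients and of the variables -/
noncomputable def trnS (n : ℕ) : MvPolynomial (Fin n) Qi →+* MvPolynomial ℕ Qbar :=
  (MvPolynomial.rename (fun i : Fin n => (i : ℕ)) :
    MvPolynomial (Fin n) Qbar →ₐ[Qbar] MvPolynomial ℕ Qbar).toRingHom.comp
    (MvPolynomial.map (Subfield.inclusion Qi_le_Qbar))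

theorem trnS_eval {n : ℕ} (q : Polynomial (MvPolynomial (Fin n) Qi)) {x : ℕ → ℝ} (hx : x ∈ Cube)
    (y : ℂ) : pevalY (q.map (trnS n)) x y =
      evR (phi Qi n) q (prj n (fun i => ((x i : ℝ) : ℂ))) y := by
  unfold evR pevalY
  rw [Polynomial.eval₂_map]
  congr 1
  have hprj : (prj n (fun i => ((x i : ℝ) : ℂ))).1 = rst n (fun i => ((x i : ℝ) : ℂ)) :=
    prj_val (fun i _ => ofReal_mem_dom hx i)
  refine MvPolynomial.ringHom_ext ?_ ?_
  · intro a
    show MvPolynomial.aeval _ (MvPolynomial.rename _ (MvPolynomial.map _ (MvPolynomial.C a))) =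
      MvPolynomial.aeval (prj n (fun i => ((x i : ℝ) : ℂ))).1 (MvPolynomial.C a)
    rw [MvPolynomial.map_C, MvPolynomial.rename_C, MvPolynomial.algHom_C, MvPolynomial.algHom_C]
    rfl
  · intro i
    show MvPolynomial.aeval _ (MvPolynomial.rename _ (MvPolynomial.map _ (MvPolynomial.X i))) =
      MvPolynomial.aeval (prj n (fun i => ((x i : ℝ) : ℂ))).1 (MvPolynomial.X i)
    rw [MvPolynomial.map_X, MvPolynomial.rename_X, MvPolynomial.aeval_X, MvPolynomial.aeval_X,
      hprj]
    rfl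

/-- Conversely.  Let `AlgAt Qi n f`, `x0 ∈ Cube`, `z0 = prj n (x0)`; `w' x = w (prj n x)`;
polynomials in `Fin n` renamed to `ℕ` with coefficients mapped to `Qbar`. -/
theorem nash_of_algAt {n : ℕ} {f : Pt → ℂ} (hf : AlgAt Qi n f) : rl f ∈ NashFn Qbar := by
  refine ⟨⟨n, depLT_rl hf.1⟩, fun x0 hx0 => ?_⟩
  set p : (ℕ → ℝ) → CubeT n := fun x => prj n (fun i => ((x i : ℝ) : ℂ)) with hp
  have hpc : ContinuousOn p Cube := by
    refine continuousOn_prj.comp (f := fun x : ℕ → ℝ => (fun i => ((x i : ℝ) : ℂ))) ?_ ?_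
    · refine Continuous.continuousOn ?_
      refine continuous_pi fun i => ?_
      exact Complex.continuous_ofReal.comp (continuous_apply i)
    · intro x hx
      exact ofReal_mem_dom hx
  obtain ⟨w, ⟨q, hq⟩, A, B, hAB⟩ := hf.2 (p x0)
  obtain ⟨V, hV, hVo, hV0⟩ := eventually_nhds_iff.1 (hq.and hAB)
  obtain ⟨U, hU, hUV⟩ := (continuousOn_iff'.1 hpc) V hVo
  have hmem : ∀ x ∈ U ∩ Cube, p x ∈ V := by
    intro x hx
    rw [← hUV] at hx
    exact hx.1
  have hx0U : x0 ∈ U := by
    have : x0 ∈ p ⁻¹' V ∩ Cube := ⟨hV0, hx0⟩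
    rw [hUV] at this
    exact this.1
  refine ⟨q.map (trnS n), A.map (trnS n), B.map (trnS n), fun x => w (p x), U, hU, hx0U, ?_, ?_⟩
  · intro x hx
    have h1 : ContinuousAt w (p x) := (hV _ (hmem x hx)).1.1
    have h2 : ContinuousWithinAt p (U ∩ Cube) x :=
      (hpc x hx.2).mono Set.inter_subset_right
    exact h1.comp_continuousWithinAt h2
  · intro x hx
    obtain ⟨⟨h1, h2, h3⟩, h4, h5⟩ := hV _ (hmem x hx)
    refine ⟨?_, ?_, ?_, ?_⟩
    · rw [trnS_eval q hx.2]
      exact h2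
    · rw [Polynomial.derivative_map, trnS_eval _ hx.2]
      exact h3
    · rw [trnS_eval _ hx.2]
      exact h4
    · rw [trnS_eval _ hx.2, trnS_eval _ hx.2]
      have h6 : f (ext (p x)) = rl f x := DepOn.ext_prj hf.1 (ofReal_mem_dom hx.2)
      rw [← h6]
      exact h5

theorem nash_of_algK {f : Pt → ℂ} (hf : AlgK Qi f) : rl f ∈ NashFn Qbar := by
  obtain ⟨n, hn⟩ := hf
  exact nash_of_algAt hn

end MP1eadaeL
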