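import Mathlib
import Pool.Agent.Lib_MP_1eadae_ag.Real
import Pool.Agent.Lib_MP_1eadae_ag.Real2
import Pool.Agent.Lib_MP_1eadae_ag.ReIm
import Pool.Agent.Lib_MP_1eadae_ag.CInt
import Pool.Agent.Lib_MP_1eadae_ag.Defs
import Pool.Agent.Lib_MP_1eadae_ag.RatA
import Pool.Agent.Lib_MP_1eadae_ag.RatB
import Pool.Agent.Lib_MP_1eadae_ag.Stk
import Pool.Agent.Lib_MP_1eadae_ag.TrA
import Pool.Agent.Lib_MP_1eadae_ag.TrN
import Pool.Agent.Lib_MP_1eadae_ag.Hard
import Pool.Agent.Lib_MP_1eadae_ag.Surj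

/-! # MP_1eadae_ag, pieces FINA, FINB: the main theorem -/

namespace MP1eadae

open Complex MP1eadaeL

/-- generation: translate `surj` -/
theorem generation (n : ℕ) (f : (ℕ → ℝ) → ℂ) (hf : f ∈ NashFn Qbar) (hd : DepLT n f) :
    ∃ g ∈ RatFn Qi, DepLT (n + 1) g ∧
      (fun x => 2 * I * ((4 : ℂ) / (1 + (x n : ℂ) ^ 2)) * f x - g x) ∈ StokesSpan (NashFn Qbar) := by
  obtain ⟨g, hg, hgd, hSt⟩ := surj I_mem_Qi (algAt_of_nash hf hd)
  refine ⟨rl g, rl_mem_ratFn hg, depLT_rl hgd,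
    stokesSpan_of_St (C := NashFn Qbar) (C' := AlgK Qi) (fun G hG => hG.neg)
      (fun G hG => nash_of_algK hG) hSt ?_⟩
  intro x _
  simp only [cx, tpi, rl, Complex.ofReal_re]
  ring

/-- scalar multiples of rational Stokes combinations -/
private theorem st_smul {K : Subfield ℂ} {F : Pt → ℂ} (h : St (IsRat K X0) X0 Set.univ F) (a : ℂ)
    (ha : a ∈ K) : St (IsRat K X0) X0 Set.univ (fun z => F z * a) := by
  induction h with
  | gen i hi G H hG hH hP =>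
    have h1 : St (IsRat K X0) X0 Set.univ (fun z => H z * a - G (Function.update z i 1) * a +
        G (Function.update z i 0) * a) :=
      St.gen i hi (fun z => G z * a) (fun z => H z * a) (hG.mul (IsRat.const a ha))
        (hH.mul (IsRat.const a ha)) (fun z hz => (hP z hz).mul_const a)
    exact St.congr _ _ h1 fun z _ => by ring
  | zero => exact St.congr _ _ St.zero fun z _ => by simp
  | add F G _ _ hF hG => exact St.congr _ _ (St.add _ _ hF hG) fun z _ => by ring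
  | neg F _ hF => exact St.congr _ _ (St.neg _ hF) fun z _ => by ring
  | congr F G _ hFG hF =>
    refine St.congr _ _ hF fun z hz => ?_
    show F z * a = G z * a
    rw [hFG z hz]

/-- relations: translate `hard` (`tpi n · tpi (n+1) = -4 · π_n π_{n+1}`) -/
theorem relations (n : ℕ) (F : (ℕ → ℝ) → ℂ) (hF : F ∈ RatFn Qi) (hd : DepLT n F)
    (h : F ∈ StokesSpan (NashFn Qbar)) :
    (fun x => ((4 : ℂ) / (1 + (x n : ℂ) ^ 2)) * ((4 : ℂ) / (1 + (x (n + 1) : ℂ) ^ 2)) * F x) ∈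
      StokesSpan (RatFn Qi) := by
  have h1 : St (AlgK Qi) X0 Set.univ (cx F) := by
    refine stokesSpan_cx (C := NashFn Qbar) (C' := AlgK Qi) ?_ h
    intro G hG
    obtain ⟨m, hm⟩ := hG.1
    exact ⟨m, algAt_of_nash hG hm⟩
  have h2 := hard I_mem_Qi (mem_ratFn_iff.1 hF) (depLT_iff.1 hd) h1
  have ha : ((-(1 / 4) : ℚ) : ℂ) ∈ Qi := SubfieldClass.ratCast_mem Qi _
  have h3 := st_smul h2 _ ha
  refine stokesSpan_of_St (C := RatFn Qi) (C' := IsRat Qi X0) (fun G hG => hG.neg)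
      (fun G hG => rl_mem_ratFn hG) h3 ?_
  intro x _
  simp only [cx, tpi, Complex.ofReal_re]
  push_cast
  rw [div_mul_div_comm, div_mul_div_comm]
  have hI : (8 * I) * (8 * I) = -64 := by
    have := Complex.I_mul_I
    linear_combination 64 * this
  rw [hI]
  ring

/-- the same over `ℚ` (`stokesSpan_re`) -/
theorem relationsQ (n : ℕ) (F : (ℕ → ℝ) → ℂ) (hF : F ∈ RatFn ℚ) (hd : DepLT n F)
    (h : F ∈ StokesSpan (NashFn Qbar)) :
    (fun x => ((4 : ℂ) / (1 + (x n : ℂ) ^ 2)) * ((4 : ℂ) / (1 + (x (n + 1) : ℂ) ^ 2)) * F x) ∈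
      StokesSpan (RatFn ℚ) := by
  have h1 := stokesSpan_re (relations n F (ratFn_rat_subset hF) hd h)
  obtain ⟨m, i, G, H, h2, h3⟩ := h1
  refine ⟨m, i, G, H, h2, fun x hx => ?_⟩
  rw [← h3 x hx]
  have h4 : (4 : ℂ) / (1 + (x n : ℂ) ^ 2) * ((4 : ℂ) / (1 + (x (n + 1) : ℂ) ^ 2)) =
      ((4 / (1 + x n ^ 2) * (4 / (1 + x (n + 1) ^ 2)) : ℝ) : ℂ) := by push_cast; ring
  show _ = ((((4 : ℂ) / (1 + (x n : ℂ) ^ 2) * ((4 : ℂ) / (1 + (x (n + 1) : ℂ) ^ 2))) * F x).re : ℂ)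
  rw [h4, Complex.re_ofReal_mul, Complex.ofReal_mul, ratFn_rat_real hF hx, ← h4]

end MP1eadae
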