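import Mathlib
import Pool.Agent.Lib_MP_1eadae_ag.T1Fin

/-! # MP_1eadae_ag, piece EQUIV: the equivalence of the two forms of the conjecture -/

namespace MP1eadae

open Complex MP1eadaeL

private theorem eq_pi_ne (x : ℝ) : (1 : ℂ) + (x : ℂ) ^ 2 ≠ 0 := by
  have h1 : ((1 + x ^ 2 : ℝ) : ℂ) ≠ 0 := by
    rw [Complex.ofReal_ne_zero]
    positivity
  intro h
  apply h1
  push_cast
  exact h

private theorem eq_pi_rat (K : Subfield ℂ) (k : ℕ) :
    IsRat K X0 (fun z : Pt => (4 : ℂ) / (1 + (z k) ^ 2)) := by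
  refine IsRat.div ((IsRat.natCast (K := K) (X := X0) 4).congr fun z _ => by norm_num)
    (((IsRat.const (X := X0) (1 : ℂ) K.one_mem).add ((IsRat.coord k).pow 2)).congr fun z _ => rfl) ?_
  intro z hz
  obtain ⟨t, _, ht⟩ := hz k
  rw [← ht]
  exact eq_pi_ne t

/-- the class `AlgK Qi` in the real span -/
private theorem eq_nash_iff {F : (ℕ → ℝ) → ℂ} :
    F ∈ StokesSpan (NashFn Qbar) ↔ St (AlgK Qi) X0 Set.univ (cx F) := by
  constructor
  · intro h
    refine stokesSpan_cx (fun G hG => ?_) h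
    obtain ⟨n, hn⟩ := hG.1
    exact ⟨n, algAt_of_nash hG hn⟩
  · intro h
    refine stokesSpan_of_St (C := NashFn Qbar) (fun G hG => AlgK.neg hG)
      (fun G hG => nash_of_algK hG) h (fun x _ => ?_)
    show F x = F (fun i => (((x i : ℝ) : ℂ)).re)
    simp only [Complex.ofReal_re]

private theorem eq_rat_iff {F : (ℕ → ℝ) → ℂ} :
    F ∈ StokesSpan (RatFn ℚ) ↔ St (IsRat (⊥ : Subfield ℂ) X0) X0 Set.univ (cx F) := by
  rw [ratFn_rat_eq_bot]
  constructor
  · intro h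
    exact stokesSpan_cx (fun G hG => mem_ratFn_iff.1 hG) h
  · intro h
    refine stokesSpan_of_St (C := RatFn (⊥ : Subfield ℂ)) (fun G hG => hG.neg)
      (fun G hG => rl_mem_ratFn hG) h (fun x _ => ?_)
    show F x = F (fun i => (((x i : ℝ) : ℂ)).re)
    simp only [Complex.ofReal_re]

private theorem eq_fresh {C : (Pt → ℂ) → Prop}
    (hren : ∀ (σ : ℕ → ℕ) (G : Pt → ℂ), Function.Injective σ → C G →
      C (fun z => G (fun i => z (σ i))))
    (k : ℕ) (hC : ∀ G, C G → C (fun z => G z * ((4 : ℂ) / (1 + (z k) ^ 2))))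
    {F : (ℕ → ℝ) → ℂ} (hd : DepLT k F) (h : St C X0 Set.univ (cx F)) :
    St C X0 Set.univ (cx (fun x => ((4 : ℂ) / (1 + (x k : ℂ) ^ 2)) * F x)) := by
  have h1 := St.mul_fresh (W := fun z => (4 : ℂ) / (1 + (z k) ^ 2)) hren hC (k + 1) (Set.Iio k) {k}
    (fun i hi => (Set.mem_Iio.1 hi).trans (Nat.lt_succ_self k))
    (fun i hi => by rw [Set.mem_singleton_iff.1 hi]; exact Nat.lt_succ_self k)
    (by
      rw [Set.disjoint_singleton_right]
      exact fun h => lt_irrefl k h)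
    (depLT_iff.1 hd) (fun z _ w _ hzw => by
      show (4 : ℂ) / (1 + (z k) ^ 2) = (4 : ℂ) / (1 + (w k) ^ 2)
      rw [hzw k rfl]) h
  refine St.congr _ _ h1 fun z hz => ?_
  show cx F z * ((4 : ℂ) / (1 + (z k) ^ 2)) =
    ((4 : ℂ) / (1 + (((z k).re : ℝ) : ℂ) ^ 2)) * F (fun i => (z i).re)
  have h2 : (((z k).re : ℝ) : ℂ) = z k := congrFun (ofReal_re hz) k
  rw [h2, mul_comm]
  rfl

/-- multiplication of an element of the span by `4/(1+x_p^2)`, `p` a new variable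
(translate `St.mul_fresh`) -/
theorem mul_pi_rat (k : ℕ) {F : (ℕ → ℝ) → ℂ} (hd : DepLT k F) (h : F ∈ StokesSpan (RatFn ℚ)) :
    (fun x => ((4 : ℂ) / (1 + (x k : ℂ) ^ 2)) * F x) ∈ StokesSpan (RatFn ℚ) := by
  rw [eq_rat_iff] at h ⊢
  refine eq_fresh (fun σ G _ hG => ?_) k (fun G hG => hG.mul (eq_pi_rat _ k)) hd h
  exact hG.comp (fun z => fun i => z (σ i)) (fun i => IsRat.coord (σ i)) (fun z hz i => hz (σ i))

theorem mul_pi_nash (k : ℕ) {F : (ℕ → ℝ) → ℂ} (hd : DepLT k F)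
    (h : F ∈ StokesSpan (NashFn Qbar)) :
    (fun x => ((4 : ℂ) / (1 + (x k : ℂ) ^ 2)) * F x) ∈ StokesSpan (NashFn Qbar) := by
  have hgood := goodClass_algK Qi
  rw [eq_nash_iff] at h ⊢
  refine eq_fresh (fun σ G _ hG => ?_) k (fun G hG => ?_) hd h
  · have h1 := hgood.mulcomp G (fun _ => 1) (fun z => fun i => z (σ i)) hG
      (IsRat.const 1 Qi.one_mem) (fun i => IsRat.coord (σ i)) (fun z hz i => hz (σ i))
    exact hgood.congr _ _ h1 fun z _ => one_mul _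
  · have h1 := hgood.mulcomp G (fun z => (4 : ℂ) / (1 + (z k) ^ 2)) (fun z => z) hG
      (eq_pi_rat _ k) (fun i => IsRat.coord i) (fun z hz => hz)
    exact hgood.congr _ _ h1 fun z _ => mul_comm _ _

theorem ratFn_subset_nash : RatFn Qi ⊆ NashFn Qbar := by
  intro F hF
  have h1 := (goodClass_algK Qi).rat _ (mem_ratFn_iff.1 hF)
  have h2 := nash_of_algK h1
  rwa [rl_cx] at h2

private theorem eq_peval_cont {k : Type} [Field k] [Algebra k ℂ] (P : MvPolynomial ℕ k) :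
    Continuous (fun x : ℕ → ℝ =>
      (MvPolynomial.aeval (fun i => ((x i : ℝ) : ℂ)) : MvPolynomial ℕ k →ₐ[k] ℂ) P) := by
  induction P using MvPolynomial.induction_on with
  | C a =>
    simp only [MvPolynomial.aeval_C]
    exact continuous_const
  | add P P' hP hP' =>
    simp only [map_add]
    exact hP.add hP'
  | mul_X P i hP =>
    simp only [map_mul, MvPolynomial.aeval_X]
    exact hP.mul (Complex.continuous_ofReal.comp (continuous_apply i))

private theorem eq_pevalY_cont {k : Type} [Field k] [Algebra k ℂ]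
    (q : Polynomial (MvPolynomial ℕ k)) {S : Set (ℕ → ℝ)} {w : (ℕ → ℝ) → ℂ}
    (hw : ContinuousOn w S) : ContinuousOn (fun x => pevalY q x (w x)) S := by
  unfold pevalY
  induction q using Polynomial.induction_on' with
  | add p q hp hq =>
    simp only [Polynomial.eval₂_add]
    exact hp.add hq
  | monomial n a =>
    simp only [Polynomial.eval₂_monomial]
    exact (eq_peval_cont a).continuousOn.mul (hw.pow n)

theorem nash_continuousOn {f : (ℕ → ℝ) → ℂ} (hf : f ∈ NashFn Qbar) : ContinuousOn f Cube := by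
  intro x0 hx0
  obtain ⟨q, A, B, w, U, hU, hxU, hw, h⟩ := hf.2 x0 hx0
  have h1 : ContinuousOn (fun x => pevalY A x (w x) / pevalY B x (w x)) (U ∩ Cube) :=
    (eq_pevalY_cont A hw).div (eq_pevalY_cont B hw) fun x hx => (h x hx).2.2.1
  have h2 : ContinuousOn f (U ∩ Cube) := h1.congr fun x hx => (h x hx).2.2.2
  have h3 := h2 x0 ⟨hxU, hx0⟩
  have h4 : nhdsWithin x0 (U ∩ Cube) = nhdsWithin x0 Cube := by
    rw [Set.inter_comm]
    exact nhdsWithin_inter_of_mem' (mem_nhdsWithin_of_mem_nhds (hU.mem_nhds hxU))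
  rw [ContinuousWithinAt, h4] at h3
  exact h3

private theorem eq_span_mono {C C' : Set ((ℕ → ℝ) → ℂ)} (h : C ⊆ C') :
    StokesSpan C ⊆ StokesSpan C' := by
  rintro F ⟨m, i, G, H, h1, h2⟩
  exact ⟨m, i, G, H, fun l => ⟨h (h1 l).1, h (h1 l).2.1, (h1 l).2.2⟩, h2⟩

private theorem eq_dep_mono {F : (ℕ → ℝ) → ℂ} {a b : ℕ} (hab : a ≤ b) (h : DepLT a F) :
    DepLT b F := fun x hx y hy hxy => h x hx y hy fun i hi => hxy i (lt_of_lt_of_le hi hab)

private theorem eq_dep_prod {F : (ℕ → ℝ) → ℂ} (k m : ℕ) (h : DepLT k F) :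
    DepLT (k + m) (fun x => (∏ j ∈ Finset.range m, (4 : ℂ) / (1 + (x (k + j) : ℂ) ^ 2)) * F x) := by
  intro x hx y hy hxy
  have h1 := eq_dep_mono (Nat.le_add_right k m) h x hx y hy hxy
  show (∏ j ∈ Finset.range m, (4 : ℂ) / (1 + (x (k + j) : ℂ) ^ 2)) * F x =
    (∏ j ∈ Finset.range m, (4 : ℂ) / (1 + (y (k + j) : ℂ) ^ 2)) * F y
  rw [h1]
  congr 1
  refine Finset.prod_congr rfl fun j hj => ?_
  rw [hxy (k + j) (Nat.add_lt_add_left (Finset.mem_range.1 hj) k)]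

/-- more factors -/
private theorem eq_more {S : Set ((ℕ → ℝ) → ℂ)}
    (hS : ∀ (k : ℕ) (F : (ℕ → ℝ) → ℂ), DepLT k F → F ∈ S →
      (fun x => ((4 : ℂ) / (1 + (x k : ℂ) ^ 2)) * F x) ∈ S)
    {F : (ℕ → ℝ) → ℂ} {k a : ℕ} (hd : DepLT k F)
    (h : (fun x => (∏ j ∈ Finset.range a, (4 : ℂ) / (1 + (x (k + j) : ℂ) ^ 2)) * F x) ∈ S)
    {b : ℕ} (hab : a ≤ b) :
    (fun x => (∏ j ∈ Finset.range b, (4 : ℂ) / (1 + (x (k + j) : ℂ) ^ 2)) * F x) ∈ S := by
  induction b, hab using Nat.le_induction with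
  | base => exact h
  | succ b _ ih =>
    have h1 := hS (k + b) _ (eq_dep_prod k b hd) ih
    have h2 : (fun x : ℕ → ℝ => ((4 : ℂ) / (1 + (x (k + b) : ℂ) ^ 2)) *
        ((∏ j ∈ Finset.range b, (4 : ℂ) / (1 + (x (k + j) : ℂ) ^ 2)) * F x)) =
        (fun x => (∏ j ∈ Finset.range (b + 1), (4 : ℂ) / (1 + (x (k + j) : ℂ) ^ 2)) * F x) := by
      funext x
      rw [Finset.prod_range_succ]
      ring
    rw [h2] at h1
    exact h1

private theorem eq_ratFn_prod (k m : ℕ) {F : (ℕ → ℝ) → ℂ} (hF : F ∈ RatFn ℚ) :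
    (fun x => (∏ j ∈ Finset.range m, (4 : ℂ) / (1 + (x (k + j) : ℂ) ^ 2)) * F x) ∈ RatFn ℚ := by
  rw [ratFn_rat_eq_bot, mem_ratFn_iff] at hF ⊢
  have h1 : IsRat (⊥ : Subfield ℂ) X0
      (fun z => ∏ j ∈ Finset.range m, (4 : ℂ) / (1 + (z (k + j)) ^ 2)) :=
    IsRat.prod _ _ fun j _ => eq_pi_rat _ (k + j)
  refine (h1.mul hF).congr fun z hz => ?_
  show (∏ j ∈ Finset.range m, (4 : ℂ) / (1 + (z (k + j)) ^ 2)) * cx F z =
    (∏ j ∈ Finset.range m, (4 : ℂ) / (1 + (((z (k + j)).re : ℝ) : ℂ) ^ 2)) * F (fun i => (z i).re)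
  have h2 : ∀ i, (((z i).re : ℝ) : ℂ) = z i := fun i => congrFun (ofReal_re hz) i
  simp only [h2]
  rfl

private theorem eq_nash_add {F G : (ℕ → ℝ) → ℂ} (hF : F ∈ StokesSpan (NashFn Qbar))
    (hG : G ∈ StokesSpan (NashFn Qbar)) : (fun x => F x + G x) ∈ StokesSpan (NashFn Qbar) := by
  rw [eq_nash_iff] at hF hG ⊢
  exact St.add _ _ hF hG

private theorem eq_nash_smul {a : ℂ} (ha : a ∈ Qi) {F : (ℕ → ℝ) → ℂ}
    (hF : F ∈ StokesSpan (NashFn Qbar)) : (fun x => a * F x) ∈ StokesSpan (NashFn Qbar) := by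
  have hgood := goodClass_algK Qi
  rw [eq_nash_iff] at hF ⊢
  have h1 := St.mul_indep (W := fun _ => a) (fun G hG => by
      have h2 := hgood.mulcomp G (fun _ => a) (fun z => z) hG
        (IsRat.const a ha) (fun i => IsRat.coord i) (fun z hz => hz)
      exact hgood.congr _ _ h2 fun z _ => mul_comm _ _)
    (fun i _ => by
      show (0 : ℂ) ∈ seg ∧ (1 : ℂ) ∈ seg
      exact ⟨⟨0, ⟨le_refl _, zero_le_one⟩, by simp⟩, ⟨1, ⟨zero_le_one, le_refl _⟩, by simp⟩⟩)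
    (fun i _ z _ w _ => rfl) hF
  exact St.congr _ _ h1 fun z _ => mul_comm _ _

private theorem eq_nash_congr {F G : (ℕ → ℝ) → ℂ} (hF : F ∈ StokesSpan (NashFn Qbar))
    (h : ∀ x, F x = G x) : G ∈ StokesSpan (NashFn Qbar) := by
  have : F = G := funext h
  rwa [← this]

/-- From Nash functions to rational functions, for functions of `n` variables. -/
theorem periodConjN_rat (n : ℕ) (hP : PeriodConjN n (NashFn Qbar)) :
    PeriodConjN n (RatFn ℚ) := by
  have hsub : RatFn ℚ ⊆ NashFn Qbar := ratFn_rat_subset.trans ratFn_subset_nash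
  intro F hF hd h0
  obtain ⟨m, hm⟩ := hP F (hsub hF) hd h0
  refine ⟨m + 2, ?_⟩
  have h1 := relationsQ (n + m) _ (eq_ratFn_prod n m hF) (eq_dep_prod n m hd) hm
  have h2 : (fun x : ℕ → ℝ => ((4 : ℂ) / (1 + (x (n + m) : ℂ) ^ 2)) *
      ((4 : ℂ) / (1 + (x (n + m + 1) : ℂ) ^ 2)) *
      ((∏ j ∈ Finset.range m, (4 : ℂ) / (1 + (x (n + j) : ℂ) ^ 2)) * F x)) =
      (fun x => (∏ j ∈ Finset.range (m + 2), (4 : ℂ) / (1 + (x (n + j) : ℂ) ^ 2)) * F x) := by
    funext x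
    rw [Finset.prod_range_succ, Finset.prod_range_succ]
    have h3 : n + (m + 1) = n + m + 1 := rfl
    rw [h3]
    ring
  rw [h2] at h1
  exact h1

/-- From rational functions of `n + 1` variables to Nash functions of `n` variables. -/
theorem periodConjN_nash (n : ℕ) (hP : PeriodConjN (n + 1) (RatFn ℚ)) :
    PeriodConjN n (NashFn Qbar) := by
  have hsub : RatFn ℚ ⊆ NashFn Qbar := ratFn_rat_subset.trans ratFn_subset_nash
  intro f hf hd h0
  obtain ⟨g, hg, hgd, hR⟩ := generation n f hf hd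
  have hgN : g ∈ NashFn Qbar := ratFn_subset_nash hg
  have hgc : ContinuousOn g Cube := nash_continuousOn hgN
  have hfc : ContinuousOn f Cube := nash_continuousOn hf
  have hpc : ContinuousOn (fun t : ℝ => (4 : ℂ) / (1 + (t : ℂ) ^ 2)) Set.univ := by
    refine ContinuousOn.div continuousOn_const ?_ fun t _ => eq_pi_ne t
    exact (continuous_const.add (Complex.continuous_ofReal.pow 2)).continuousOn
  have hpxc : ContinuousOn (fun x : ℕ → ℝ => (4 : ℂ) / (1 + (x n : ℂ) ^ 2)) Cube := by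
    have h1 : Continuous (fun t : ℝ => (4 : ℂ) / (1 + (t : ℂ) ^ 2)) :=
      continuousOn_univ.1 hpc
    exact (h1.comp (continuous_apply n)).continuousOn
  have hRd : DepLT (n + 1) (fun x => 2 * I * ((4 : ℂ) / (1 + (x n : ℂ) ^ 2)) * f x - g x) := by
    intro x hx y hy hxy
    show 2 * I * ((4 : ℂ) / (1 + (x n : ℂ) ^ 2)) * f x - g x =
      2 * I * ((4 : ℂ) / (1 + (y n : ℂ) ^ 2)) * f y - g y
    rw [hxy n (Nat.lt_succ_self n), hgd x hx y hy hxy,
      hd x hx y hy fun i hi => hxy i (hi.trans (Nat.lt_succ_self n))]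
  have hI1 : cubeInt (n + 1) (fun x => 2 * I * ((4 : ℂ) / (1 + (x n : ℂ) ^ 2)) * f x - g x) = 0 :=
    cubeInt_stokesSpan (fun G hG => nash_continuousOn hG) (fun G hG => hG.1) hR hRd
  have hI2 : cubeInt (n + 1) (fun x => 2 * I * ((4 : ℂ) / (1 + (x n : ℂ) ^ 2)) * f x) = 0 := by
    have h1 : (fun x : ℕ → ℝ => 2 * I * ((4 : ℂ) / (1 + (x n : ℂ) ^ 2)) * f x) =
        (fun x => (2 * I) * (((4 : ℂ) / (1 + (x n : ℂ) ^ 2)) * f x)) := by
      funext x
      ring
    rw [h1, cubeInt_const_mul,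
      cubeInt_mul_last hfc hd (fun t : ℝ => (4 : ℂ) / (1 + (t : ℂ) ^ 2))
        (hpc.mono (Set.subset_univ _)), h0, mul_zero, mul_zero]
  have hI3 : cubeInt (n + 1) g = 0 := by
    have hFc : ContinuousOn (fun x : ℕ → ℝ => 2 * I * ((4 : ℂ) / (1 + (x n : ℂ) ^ 2)) * f x) Cube :=
      (continuousOn_const.mul hpxc).mul hfc
    rw [cubeInt_sub hFc hgc, hI2, zero_sub, neg_eq_zero] at hI1
    exact hI1
  obtain ⟨hg1, hg2⟩ := ratFn_re_im hg
  obtain ⟨hi1, hi2⟩ := cubeInt_re (n := n + 1) hgc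
  rw [hI3, Complex.zero_re, Complex.ofReal_zero] at hi1
  rw [hI3, Complex.zero_im, Complex.ofReal_zero] at hi2
  have hd1 : DepLT (n + 1) (fun x => ((g x).re : ℂ)) := fun x hx y hy hxy => by
    show ((g x).re : ℂ) = ((g y).re : ℂ)
    rw [hgd x hx y hy hxy]
  have hd2 : DepLT (n + 1) (fun x => ((g x).im : ℂ)) := fun x hx y hy hxy => by
    show ((g x).im : ℂ) = ((g y).im : ℂ)
    rw [hgd x hx y hy hxy]
  obtain ⟨m1, hm1⟩ := hP _ hg1 hd1 hi1
  obtain ⟨m2, hm2⟩ := hP _ hg2 hd2 hi2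
  have hm1' := eq_span_mono hsub (eq_more (fun k F hF hS => mul_pi_rat k hF hS) hd1 hm1
    (Nat.le_add_right m1 m2))
  have hm2' := eq_span_mono hsub (eq_more (fun k F hF hS => mul_pi_rat k hF hS) hd2 hm2
    (Nat.le_add_left m2 m1))
  set m := m1 + m2 with hm
  have hRm := eq_more (S := StokesSpan (NashFn Qbar)) (a := 0) (b := m) (k := n + 1)
    (fun k F hF hS => mul_pi_nash k hF hS) hRd
    (eq_nash_congr hR fun x => by rw [Finset.range_zero, Finset.prod_empty, one_mul])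
    (Nat.zero_le m)
  have hgm := eq_nash_add hm1' (eq_nash_smul I_mem_Qi hm2')
  have hfm := eq_nash_smul (a := (2 * I)⁻¹)
    (Qi.inv_mem (Qi.mul_mem (by
      have := Qi.add_mem Qi.one_mem Qi.one_mem
      rwa [one_add_one_eq_two] at this) I_mem_Qi))
    (eq_nash_add hRm hgm)
  refine ⟨m + 1, eq_nash_congr hfm fun x => ?_⟩
  have hgx : ((g x).re : ℂ) + ((g x).im : ℂ) * I = g x := Complex.re_add_im (g x)
  have h2I : (2 * I : ℂ) ≠ 0 := mul_ne_zero two_ne_zero Complex.I_ne_zero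
  have hprod : (∏ j ∈ Finset.range (m + 1), (4 : ℂ) / (1 + (x (n + j) : ℂ) ^ 2)) =
      (∏ j ∈ Finset.range m, (4 : ℂ) / (1 + (x (n + 1 + j) : ℂ) ^ 2)) *
        ((4 : ℂ) / (1 + (x n : ℂ) ^ 2)) := by
    rw [Finset.prod_range_succ']
    congr 1
    refine Finset.prod_congr rfl fun j _ => ?_
    have h3 : n + (j + 1) = n + 1 + j := by omega
    rw [h3]
  rw [hprod]
  generalize (∏ j ∈ Finset.range m, (4 : ℂ) / (1 + (x (n + 1 + j) : ℂ) ^ 2)) = a
  generalize (4 : ℂ) / (1 + (x n : ℂ) ^ 2) = b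
  rw [inv_mul_eq_iff_eq_mul₀ h2I]
  linear_combination a * hgx

/-- The equivalence.
(⇒) Let `F ∈ RatFn ℚ`, `DepLT n F`, integral `0`.  `F ∈ NashFn Qbar`, so for some `m` the function
`Π_m F = (∏_{j<m} π(x_{n+j})) F` is in the Nash span; it is in `RatFn ℚ` and depends on `n + m`
coordinates, so by `relationsQ` `π(x_{n+m}) π(x_{n+m+1}) Π_m F = Π_{m+2} F` is in the rational span.
(⇐) Let `f ∈ NashFn Qbar`, `DepLT n f`, integral `0`.  `generation`: `g ∈ RatFn Qi`, `DepLT (n+1) g`, and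
`R = 2 i π(x_n) f - g` in the Nash span.  `cubeInt (n+1) R = 0` (`cubeInt_stokesSpan`), so
`cubeInt (n+1) g = 2 i π · cubeInt n f = 0` (`cubeInt_mul_last`, `integral_pi_fun`).  The real and imaginary
parts `g1, g2 ∈ RatFn ℚ` (`ratFn_re_im`) have integral `0` (`cubeInt_re`), so by hypothesis
`(∏_{j<m1} π(x_{n+1+j})) g1` and `(∏_{j<m2} π(x_{n+1+j})) g2` are in the rational span, and the same for
`m = m1 + m2` (`mul_pi_rat` repeatedly).  So `(∏_{j<m} π(x_{n+1+j})) g` is in the Nash span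
(`g = g1 + i g2`; the span is closed under sums and constant multiples by `i`), and by `mul_pi_nash`
`(∏_{j<m} π(x_{n+1+j})) R` as well.  Hence `2 i ∏_{j<m+1} π(x_{n+j}) f` is in the Nash span, divide by `2i`. -/
theorem periodConj_iff : PeriodConj (NashFn Qbar) ↔ PeriodConj (RatFn ℚ) :=
  ⟨fun h n => periodConjN_rat n (h n), fun h n => periodConjN_nash n (h (n + 1))⟩

end MP1eadae
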