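import Mathlib
import Pool.Agent.Lib_MP_1eadae_ag.Geo
import Pool.Agent.Lib_MP_1eadae_ag.GeoA
import Pool.Agent.Lib_MP_1eadae_ag.GeoB
import Pool.Agent.Lib_MP_1eadae_ag.GeoC
import Pool.Agent.Lib_MP_1eadae_ag.T1Equiv

/-! # MP_1eadae_ag, piece GEOD: the geometric form of the period conjecture -/

namespace MP1eadae

open Complex

/-! ### closure properties of the span -/

private theorem geod_iff {F : (ℕ → ℝ) → ℂ} :
    F ∈ StokesSpan (RatFn ℚ) ↔
      MP1eadaeL.St (MP1eadaeL.IsRat (⊥ : Subfield ℂ) MP1eadaeL.X0) MP1eadaeL.X0 Set.univ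
        (MP1eadaeL.cx F) := by
  rw [ratFn_rat_eq_bot]
  constructor
  · intro h
    exact MP1eadaeL.stokesSpan_cx (fun G hG => MP1eadaeL.mem_ratFn_iff.1 hG) h
  · intro h
    refine MP1eadaeL.stokesSpan_of_St (C := RatFn (⊥ : Subfield ℂ)) (fun G hG => hG.neg)
      (fun G hG => MP1eadaeL.rl_mem_ratFn hG) h (fun x _ => ?_)
    show F x = F (fun i => (((x i : ℝ) : ℂ)).re)
    simp only [Complex.ofReal_re]

private theorem geod_congr {F G : (ℕ → ℝ) → ℂ} (hF : F ∈ StokesSpan (RatFn ℚ))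
    (h : ∀ x ∈ Cube, G x = F x) : G ∈ StokesSpan (RatFn ℚ) := by
  obtain ⟨m, i, A, B, h1, h2⟩ := hF
  exact ⟨m, i, A, B, h1, fun x hx => by rw [h x hx, h2 x hx]⟩

private theorem geod_neg {F : (ℕ → ℝ) → ℂ} (hF : F ∈ StokesSpan (RatFn ℚ)) :
    (fun x => - F x) ∈ StokesSpan (RatFn ℚ) :=
  geod_iff.2 (MP1eadaeL.St.neg _ (geod_iff.1 hF))

private theorem geod_add {F G : (ℕ → ℝ) → ℂ} (hF : F ∈ StokesSpan (RatFn ℚ))
    (hG : G ∈ StokesSpan (RatFn ℚ)) : (fun x => F x + G x) ∈ StokesSpan (RatFn ℚ) :=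
  geod_iff.2 (MP1eadaeL.St.add _ _ (geod_iff.1 hF) (geod_iff.1 hG))

private theorem geod_sum {ι : Type} (s : Finset ι) (F : ι → (ℕ → ℝ) → ℂ)
    (hF : ∀ j, F j ∈ StokesSpan (RatFn ℚ)) :
    (fun x => ∑ j ∈ s, F j x) ∈ StokesSpan (RatFn ℚ) := by
  classical
  induction s using Finset.induction_on with
  | empty =>
    refine ⟨0, fun l => l.elim0, fun l => l.elim0, fun l => l.elim0, fun l => l.elim0,
      fun x _ => ?_⟩
    beta_reduce
    rw [Finset.sum_empty, Finset.univ_eq_empty, Finset.sum_empty]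
  | insert a s ha ih =>
    refine geod_congr (geod_add (hF a) ih) fun x _ => ?_
    rw [Finset.sum_insert ha]

/-! ### closure properties of real rational functions -/

private theorem geod_rat_add {f g : (ℕ → ℝ) → ℝ} (hf : f ∈ RatR) (hg : g ∈ RatR) :
    (fun x => f x + g x) ∈ RatR := by
  obtain ⟨P, Q, h1⟩ := hf
  obtain ⟨P', Q', h2⟩ := hg
  refine ⟨P * Q' + Q * P', Q * Q', fun x hx => ?_⟩
  obtain ⟨a1, a2⟩ := h1 x hx
  obtain ⟨b1, b2⟩ := h2 x hx
  beta_reduce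
  rw [map_add, map_mul, map_mul, map_mul, a2, b2]
  exact ⟨mul_ne_zero a1 b1, div_add_div _ _ a1 b1⟩

private theorem geod_rat_mul {f g : (ℕ → ℝ) → ℝ} (hf : f ∈ RatR) (hg : g ∈ RatR) :
    (fun x => f x * g x) ∈ RatR := by
  obtain ⟨P, Q, h1⟩ := hf
  obtain ⟨P', Q', h2⟩ := hg
  refine ⟨P * P', Q * Q', fun x hx => ?_⟩
  obtain ⟨a1, a2⟩ := h1 x hx
  obtain ⟨b1, b2⟩ := h2 x hx
  beta_reduce
  rw [map_mul, map_mul, a2, b2]
  exact ⟨mul_ne_zero a1 b1, div_mul_div_comm _ _ _ _⟩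

private theorem geod_rat_neg {f : (ℕ → ℝ) → ℝ} (hf : f ∈ RatR) : (fun x => - f x) ∈ RatR := by
  obtain ⟨P, Q, h1⟩ := hf
  refine ⟨-P, Q, fun x hx => ?_⟩
  obtain ⟨a1, a2⟩ := h1 x hx
  beta_reduce
  rw [map_neg, a2, neg_div]
  exact ⟨a1, rfl⟩

private theorem geod_rat_const (c : ℕ) : (fun _ : ℕ → ℝ => (c : ℝ)) ∈ RatR := by
  refine ⟨(c : MvPolynomial ℕ ℚ), 1, fun x _ => ?_⟩
  rw [map_one, map_natCast, div_one]
  exact ⟨one_ne_zero, rfl⟩

private theorem geod_rat_congr {f g : (ℕ → ℝ) → ℝ} (hf : f ∈ RatR)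
    (h : ∀ x ∈ Cube, g x = f x) : g ∈ RatR := by
  obtain ⟨P, Q, h1⟩ := hf
  exact ⟨P, Q, fun x hx => ⟨(h1 x hx).1, by rw [h x hx]; exact (h1 x hx).2⟩⟩

private theorem geod_ratFn_congr {F G : (ℕ → ℝ) → ℂ} (hF : F ∈ RatFn ℚ)
    (h : ∀ x ∈ Cube, G x = F x) : G ∈ RatFn ℚ := by
  obtain ⟨P, Q, h1⟩ := hF
  exact ⟨P, Q, fun x hx => ⟨(h1 x hx).1, by rw [h x hx]; exact (h1 x hx).2⟩⟩

private theorem geod_compact : IsCompact Cube := by
  have h1 : Cube = Set.univ.pi (fun _ : ℕ => Set.Icc (0 : ℝ) 1) := by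
    ext x
    exact ⟨fun h i _ => h i, fun h i => h i trivial⟩
  rw [h1]
  exact isCompact_univ_pi fun _ => isCompact_Icc

private theorem geod_coe (n m : ℕ) (f : (ℕ → ℝ) → ℝ) (x : ℕ → ℝ) :
    (((∏ j ∈ Finset.range m, 4 / (1 + x (n + j) ^ 2)) * f x : ℝ) : ℂ) =
      (∏ j ∈ Finset.range m, (4 : ℂ) / (1 + (x (n + j) : ℂ) ^ 2)) * (f x : ℂ) := by
  rw [Complex.ofReal_mul, Complex.ofReal_prod]
  congr 1
  refine Finset.prod_congr rfl fun j _ => ?_
  push_cast
  rfl

/-- Piece GEOD.  (⇒) `periodConj_iff` gives `PeriodConj (RatFn ℚ)`.  Apply it to `F = g - f`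
(`ratR_iff`; integral `0` by `volume_body_eq_iff`): `Π_m (g - f)` is in the rational span; it is
`Π_m g - Π_m f`; `stablyCongruent_of_stokesSpan`.
(⇐) By `periodConj_iff` it suffices to prove `PeriodConj (RatFn ℚ)`.  Let `F ∈ RatFn ℚ`, `DepLT n F`,
integral `0`; `F` is real valued on the cube (`ratFn_rat_real`), bounded (`Cube` is compact,
`continuousOn_ratR`): take a natural number `c` with `|F| < c`; `f = F + c`, `g = c` are positive rational
functions with bodies of equal volume.  So `Π_m f + ∑ h'_j = Π_m g + ∑ h_j` for some `m`; hence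
`Π_m F = ∑ (h_j - h'_j)`, and `move_mem_stokesSpan` (the span is closed under sums and negatives). -/
theorem periodConj_iff_geometric : PeriodConj (NashFn Qbar) ↔
    ∀ (n : ℕ) (f g : (ℕ → ℝ) → ℝ), f ∈ PosRat → g ∈ PosRat → DepR n f → DepR n g →
      MeasureTheory.volume (body n f) = MeasureTheory.volume (body n g) →
      ∃ m : ℕ, StablyCongruent
        (fun x => (∏ j ∈ Finset.range m, 4 / (1 + x (n + j) ^ 2)) * f x)
        (fun x => (∏ j ∈ Finset.range m, 4 / (1 + x (n + j) ^ 2)) * g x) := by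
  rw [periodConj_iff]
  constructor
  · intro hP n f g hf hg hdf hdg hvol
    have h1 : (fun x => (g x : ℂ) - (f x : ℂ)) ∈ RatFn ℚ := by
      have h2 := ratR_iff.1 (geod_rat_add hg.1 (geod_rat_neg hf.1))
      refine geod_ratFn_congr h2 fun x _ => ?_
      push_cast
      ring
    have h3 : DepLT n (fun x => (g x : ℂ) - (f x : ℂ)) := by
      intro x hx y hy hxy
      show (g x : ℂ) - (f x : ℂ) = (g y : ℂ) - (f y : ℂ)
      rw [hdf x hx y hy hxy, hdg x hx y hy hxy]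
    have h4 := (volume_body_eq_iff (n := n) (continuousOn_ratR hg.1) (continuousOn_ratR hf.1)
      hg.2 hf.2).1 hvol.symm
    obtain ⟨m, hm⟩ := hP n _ h1 h3 h4
    refine ⟨m, stablyCongruent_of_stokesSpan (geod_congr hm fun x _ => ?_)⟩
    rw [geod_coe, geod_coe]
    ring
  · intro hG n F hF hd h0
    have hre : ∀ x ∈ Cube, (((F x).re : ℝ) : ℂ) = F x := fun x hx =>
      ratFn_rat_real hF hx
    have hf0 : (fun x => (F x).re) ∈ RatR :=
      ratR_iff.2 (geod_ratFn_congr hF fun x hx => hre x hx)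
    have hcont := continuousOn_ratR hf0
    obtain ⟨c, hc⟩ : ∃ c : ℕ, ∀ x ∈ Cube, |(F x).re| < c := by
      obtain ⟨C, hC⟩ := geod_compact.exists_bound_of_continuousOn hcont
      obtain ⟨c, hc⟩ := exists_nat_gt C
      refine ⟨c, fun x hx => ?_⟩
      have h1 := hC x hx
      rw [Real.norm_eq_abs] at h1
      linarith
    have hcpos : (0 : ℝ) < c := by
      have h1 : (fun _ => 0 : ℕ → ℝ) ∈ Cube := fun _ => ⟨le_rfl, zero_le_one⟩
      exact lt_of_le_of_lt (abs_nonneg _) (hc _ h1)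
    have hfP : (fun x => (F x).re + c) ∈ PosRat := by
      refine ⟨geod_rat_add hf0 (geod_rat_const c), fun x hx => ?_⟩
      have h1 := (abs_lt.1 (hc x hx)).1
      show 0 < (F x).re + c
      linarith
    have hgP : (fun _ : ℕ → ℝ => (c : ℝ)) ∈ PosRat := ⟨geod_rat_const c, fun _ _ => hcpos⟩
    have hdf : DepR n (fun x => (F x).re + c) := by
      intro x hx y hy hxy
      show (F x).re + c = (F y).re + c
      rw [hd x hx y hy hxy]
    have hdg : DepR n (fun _ : ℕ → ℝ => (c : ℝ)) := fun _ _ _ _ _ => rfl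
    have hvol : MeasureTheory.volume (body n (fun x => (F x).re + c)) =
        MeasureTheory.volume (body n (fun _ => (c : ℝ))) := by
      refine (volume_body_eq_iff (n := n) (continuousOn_ratR hfP.1) (continuousOn_ratR hgP.1)
        hfP.2 hgP.2).2 ?_
      rw [← h0]
      refine cubeInt_congr fun x hx => ?_
      have h1 := hre x hx
      push_cast
      linear_combination h1
    obtain ⟨m, r, h', h, hj, he⟩ := hG n _ _ hfP hgP hdf hdg hvol
    refine ⟨m, ?_⟩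
    have h1 : ∀ j : Fin r, (fun x => -((h' j x : ℂ) - (h j x : ℂ))) ∈ StokesSpan (RatFn ℚ) :=
      fun j => geod_neg (move_mem_stokesSpan (hj j).1.1 (hj j).2.1.1 (hj j).2.2)
    refine geod_congr (geod_sum Finset.univ _ h1) fun x hx => ?_
    have h2 := congrArg (fun t : ℝ => (t : ℂ)) (he x hx)
    beta_reduce at h2
    rw [Complex.ofReal_add, Complex.ofReal_add, Complex.ofReal_sum, Complex.ofReal_sum,
      geod_coe n m (fun x => (F x).re + c) x, geod_coe n m (fun _ => (c : ℝ)) x,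
      Complex.ofReal_add, hre x hx] at h2
    rw [Finset.sum_neg_distrib, Finset.sum_sub_distrib]
    linear_combination h2

end MP1eadae
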