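import Mathlib

/-! # MP_1eadae_ag, piece N1: derivations and traces -/

namespace MP1eadae

/-- Extension of a derivation to a finite extension in characteristic zero.
(Mathlib: `Differential` instance on `k` given by `D`, then `differentialFiniteDimensional` and
`differentialAlgebraFiniteDimensional` in Mathlib/FieldTheory/Differential/Basic.lean.) -/
theorem exists_derivation_extension (k L : Type) [Field k] [Field L] [Algebra k L]
    [FiniteDimensional k L] [CharZero k] (D : Derivation ℤ k k) :
    ∃ DL : Derivation ℤ L L, ∀ x, DL (algebraMap k L x) = algebraMap k L (D x) := by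
  let i1 : Differential k := ⟨D⟩
  let i2 : Differential L := Differential.differentialFiniteDimensional k L
  have i3 : DifferentialAlgebra k L := Differential.differentialAlgebraFiniteDimensional
  exact ⟨i2.deriv, fun x => i3.deriv_algebraMap x⟩

/-- The derivative in coordinates. -/
theorem n1_repr (k L : Type) [Field k] [Field L] [Algebra k L] {ι : Type} [Fintype ι] [DecidableEq ι]
    (b : Module.Basis ι k L) (D : Derivation ℤ k k) (DL : Derivation ℤ L L)
    (h : ∀ x, DL (algebraMap k L x) = algebraMap k L (D x)) (z : L) (l : ι) :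
    b.repr (DL z) l = D (b.repr z l) + ∑ i, b.repr z i * b.repr (DL (b i)) l := by
  have h1 : DL z = ∑ i, (b.repr z i • DL (b i) + D (b.repr z i) • b i) := by
    conv_lhs => rw [← b.sum_repr z]
    rw [map_sum]
    refine Finset.sum_congr rfl fun i _ => ?_
    rw [Algebra.smul_def, Derivation.leibniz, h, smul_eq_mul, smul_eq_mul, Algebra.smul_def, Algebra.smul_def]
    ring
  rw [h1, Finset.sum_add_distrib, map_add, map_sum, map_sum, Finsupp.add_apply, Finsupp.finsetSum_apply,
    Finsupp.finsetSum_apply, add_comm]
  congr 1
  · rw [Finset.sum_eq_single l]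
    · simp
    · intro i _ hi
      simp [hi]
    · intro h
      exact absurd (Finset.mem_univ _) h
  · refine Finset.sum_congr rfl fun i _ => ?_
    simp

/-- The trace commutes with derivations.  Proof: for a basis `b` of `L` over `k` write
`DL (b j) = ∑_i Γ i j • b i`; with `M(x) = Algebra.leftMulMatrix b x`, applying `DL` to
`x b_j = ∑_i M(x) i j • b_i` gives `M(DL x) + M(x) Γ = D(M(x)) + Γ M(x)` (`D` entrywise), and
`trace (M Γ) = trace (Γ M)`. -/
theorem trace_derivation (k L : Type) [Field k] [Field L] [Algebra k L]
    [FiniteDimensional k L] (D : Derivation ℤ k k) (DL : Derivation ℤ L L)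
    (h : ∀ x, DL (algebraMap k L x) = algebraMap k L (D x)) (y : L) :
    Algebra.trace k L (DL y) = D (Algebra.trace k L y) := by
  classical
  let b := Module.finBasis k L
  have ht : ∀ z : L, Algebra.trace k L z = ∑ j, b.repr (z * b j) j := by
    intro z
    rw [Algebra.trace_eq_matrix_trace b z]
    refine Finset.sum_congr rfl fun j _ => ?_
    exact Algebra.leftMulMatrix_eq_repr_mul b z j j
  rw [ht, ht, map_sum]
  have h1 : ∀ j, b.repr (DL y * b j) j = D (b.repr (y * b j) j) +
      (∑ i, b.repr (y * b j) i * b.repr (DL (b i)) j - ∑ i, b.repr (DL (b j)) i * b.repr (y * b i) j) := by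
    intro j
    have h2 := n1_repr k L b D DL h (y * b j) j
    rw [Derivation.leibniz, smul_eq_mul, smul_eq_mul, map_add, Finsupp.add_apply] at h2
    have h3 : b.repr (y * DL (b j)) j = ∑ i, b.repr (DL (b j)) i * b.repr (y * b i) j := by
      conv_lhs => rw [← b.sum_repr (DL (b j)), Finset.mul_sum, map_sum, Finsupp.finsetSum_apply]
      refine Finset.sum_congr rfl fun i _ => ?_
      rw [mul_smul_comm, map_smul, Finsupp.smul_apply, smul_eq_mul]
    rw [h3, mul_comm (b j)] at h2
    linear_combination h2
  rw [Finset.sum_congr rfl fun j _ => h1 j, Finset.sum_add_distrib, Finset.sum_sub_distrib,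
    Finset.sum_comm (f := fun j i => b.repr (y * b j) i * b.repr (DL (b i)) j)]
  have h4 : ∑ j, ∑ i, b.repr (y * b i) j * b.repr (DL (b j)) i =
      ∑ j, ∑ i, b.repr (DL (b j)) i * b.repr (y * b i) j :=
    Finset.sum_congr rfl fun j _ => Finset.sum_congr rfl fun i _ => mul_comm _ _
  rw [h4, sub_self, add_zero]

/-- Extension of a derivation to the fraction field (quotient rule). -/
theorem exists_derivation_fraction (R k : Type) [CommRing R] [IsDomain R] [Field k] [Algebra R k]
    [IsFractionRing R k] (D : Derivation ℤ R R) :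
    ∃ Dk : Derivation ℤ k k, ∀ r, Dk (algebraMap R k r) = algebraMap R k (D r) := by
  let φ : R →+* TrivSqZeroExt k k :=
    { toFun := fun r => TrivSqZeroExt.inl (algebraMap R k r) + TrivSqZeroExt.inr (algebraMap R k (D r))
      map_one' := by
        rw [map_one, Derivation.map_one_eq_zero, map_zero]
        simp
      map_mul' := by
        intro x y
        ext
        · simp
        · simp only [TrivSqZeroExt.snd_add, TrivSqZeroExt.snd_inl, TrivSqZeroExt.snd_inr, TrivSqZeroExt.snd_mul,
            TrivSqZeroExt.fst_add, TrivSqZeroExt.fst_inl, TrivSqZeroExt.fst_inr, Derivation.leibniz, smul_eq_mul,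
            map_add, map_mul, zero_add, add_zero, MulOpposite.smul_eq_mul_unop, MulOpposite.unop_op]
          ring
      map_zero' := by
        rw [map_zero, map_zero, map_zero]
        simp
      map_add' := by
        intro x y
        rw [map_add, map_add, map_add, TrivSqZeroExt.inl_add, TrivSqZeroExt.inr_add]
        abel }
  have hφ1 : ∀ r, (φ r).fst = algebraMap R k r := by
    intro r
    show (TrivSqZeroExt.inl (algebraMap R k r) + TrivSqZeroExt.inr (algebraMap R k (D r)) :
      TrivSqZeroExt k k).fst = _
    simp
  have hφ2 : ∀ r, (φ r).snd = algebraMap R k (D r) := by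
    intro r
    show (TrivSqZeroExt.inl (algebraMap R k r) + TrivSqZeroExt.inr (algebraMap R k (D r)) :
      TrivSqZeroExt k k).snd = _
    rw [TrivSqZeroExt.snd_add, TrivSqZeroExt.snd_inl, TrivSqZeroExt.snd_inr, zero_add]
  have hu : ∀ y : nonZeroDivisors R, IsUnit (φ y) := by
    intro y
    rw [TrivSqZeroExt.isUnit_iff_isUnit_fst, hφ1]
    exact IsLocalization.map_units k y
  let ψ : k →+* TrivSqZeroExt k k := IsLocalization.lift (M := nonZeroDivisors R) hu
  have hψ : ∀ r, ψ (algebraMap R k r) = φ r := fun r => IsLocalization.lift_eq hu r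
  have hfst : ∀ x, (ψ x).fst = x := by
    intro x
    have h1 : ((TrivSqZeroExt.fstHom k k k).toRingHom.comp ψ) = RingHom.id k := by
      refine IsLocalization.ringHom_ext (nonZeroDivisors R) ?_
      ext r
      show (ψ (algebraMap R k r)).fst = algebraMap R k r
      rw [hψ, hφ1]
    exact congrArg (fun g : k →+* k => g x) h1
  refine ⟨Derivation.mk' (AddMonoidHom.toIntLinearMap
    { toFun := fun x => (ψ x).snd
      map_zero' := by
        rw [map_zero]
        rfl
      map_add' := by
        intro x y
        rw [map_add, TrivSqZeroExt.snd_add] }) ?_, ?_⟩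
  · intro x y
    show (ψ (x * y)).snd = x • (ψ y).snd + y • (ψ x).snd
    rw [map_mul, TrivSqZeroExt.snd_mul, hfst, hfst, op_smul_eq_smul]
  · intro r
    show (ψ (algebraMap R k r)).snd = _
    rw [hψ, hφ2]

end MP1eadae
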