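import Mathlib
import Pool.Agent.Lib_MP_1eadae_ag.Defs
import Pool.Agent.Lib_MP_1eadae_ag.RatA
import Pool.Agent.Lib_MP_1eadae_ag.RatB
import Pool.Agent.Lib_MP_1eadae_ag.RatC
import Pool.Agent.Lib_MP_1eadae_ag.TwoSort
import Pool.Agent.Lib_MP_1eadae_ag.Germ
import Pool.Agent.Lib_MP_1eadae_ag.TwoStep
import Pool.Agent.Lib_MP_1eadae_ag.Common
import Pool.Agent.Lib_MP_1eadae_ag.AlgPart
import Pool.Agent.Lib_MP_1eadae_ag.N1

/-! # MP_1eadae_ag, piece N2: sums of derivatives of algebraic functions, trace argument -/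

namespace MP1eadaeL

open Complex Function

namespace N2

variable {K : Subfield ℂ} {n : ℕ}

/-- the segment is infinite near each of its points -/
theorem infinite_seg {c : ℂ} (hc : c ∈ seg) {ε : ℝ} (hε : 0 < ε) :
    {w : ℂ | w ∈ seg ∧ dist w c < ε}.Infinite := by
  obtain ⟨t0, ht0, rfl⟩ := hc
  have h1 : (Set.Ioo (max 0 (t0 - ε)) (min 1 (t0 + ε))).Infinite := by
    refine Set.Ioo_infinite ?_
    have h2 := ht0.1
    have h3 := ht0.2
    refine max_lt (lt_min one_pos (by linarith)) (lt_min (by linarith) (by linarith))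
  refine (h1.image (f := fun t : ℝ => (t : ℂ)) (Complex.ofReal_injective.injOn)).mono ?_
  rintro _ ⟨t, ht, rfl⟩
  have h4 := lt_of_le_of_lt (le_max_left _ _) ht.1
  have h5 := lt_of_le_of_lt (le_max_right _ _) ht.1
  have h6 := lt_of_lt_of_le ht.2 (min_le_left _ _)
  have h7 := lt_of_lt_of_le ht.2 (min_le_right _ _)
  refine ⟨⟨t, ⟨h4.le, h6.le⟩, rfl⟩, ?_⟩
  rw [Complex.dist_eq, ← Complex.ofReal_sub, Complex.norm_real, Real.norm_eq_abs, abs_lt]
  constructor <;> linarith

/-- a polynomial vanishing near a point of the cube is zero -/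
theorem eq_zero_of_eventually (r : MvPolynomial (Fin n) K) (z0 : CubeT n)
    (h : ∀ᶠ z : CubeT n in nhds z0, MvPolynomial.aeval z.1 r = (0 : ℂ)) : r = 0 := by
  obtain ⟨ε, hε, h1⟩ := Metric.eventually_nhds_iff.1 h
  have h2 : MvPolynomial.map (algebraMap K ℂ) r = 0 := by
    refine MvPolynomial.funext_set (fun i => {w : ℂ | w ∈ seg ∧ dist w (z0.1 i) < ε})
      (fun i => infinite_seg (z0.2 i) hε) fun x hx => ?_
    have h3 : ∀ i, x i ∈ seg ∧ dist (x i) (z0.1 i) < ε := fun i => hx i (Set.mem_univ i)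
    have h4 : dist (⟨x, fun i => (h3 i).1⟩ : CubeT n) z0 < ε :=
      (dist_pi_lt_iff hε).2 fun i => (h3 i).2
    have h5 := h1 h4
    rw [map_zero, MvPolynomial.eval_map]
    rw [MvPolynomial.aeval_def] at h5
    exact h5
  exact (map_eq_zero_iff _ (MvPolynomial.map_injective (algebraMap K ℂ)
    (algebraMap K ℂ).injective)).1 h2

/-- coefficientwise derivative -/
noncomputable def cd (i : Fin n) (P : Polynomial (MvPolynomial (Fin n) K)) :
    Polynomial (MvPolynomial (Fin n) K) :=
  P.sum fun k a => Polynomial.monomial k (MvPolynomial.pderiv i a)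

theorem cd_add (i : Fin n) (P Q : Polynomial (MvPolynomial (Fin n) K)) :
    cd i (P + Q) = cd i P + cd i Q := by
  refine Polynomial.sum_add_index _ _ _ (fun k => ?_) (fun k a b => ?_)
  · rw [map_zero, Polynomial.monomial_zero_right]
  · rw [map_add, map_add]

theorem cd_monomial (i : Fin n) (k : ℕ) (a : MvPolynomial (Fin n) K) :
    cd i (Polynomial.monomial k a) = Polynomial.monomial k (MvPolynomial.pderiv i a) := by
  refine Polynomial.sum_monomial_index _ _ ?_
  rw [map_zero, Polynomial.monomial_zero_right]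

/-- the joint derivative of a polynomial in one coordinate and `y` -/
theorem hasFDerivAt_ev2 (q : Polynomial (MvPolynomial (Fin n) K)) (i : Fin n) (z : Fin n → ℂ)
    (y : ℂ) :
    HasFDerivAt (fun p : ℂ × ℂ => ev2 q (update z i p.1) p.2)
        (ev2 (cd i q) z y • ContinuousLinearMap.fst ℂ ℂ ℂ +
          ev2 (Polynomial.derivative q) z y • ContinuousLinearMap.snd ℂ ℂ ℂ) (z i, y) := by
  induction q using Polynomial.induction_on' with
  | add p q hp hq =>
    have h1 := hp.fun_add hq
    have h2 : (ev2 (cd i (p + q)) z y • ContinuousLinearMap.fst ℂ ℂ ℂ +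
          ev2 (Polynomial.derivative (p + q)) z y • ContinuousLinearMap.snd ℂ ℂ ℂ) =
        (ev2 (cd i p) z y • ContinuousLinearMap.fst ℂ ℂ ℂ +
          ev2 (Polynomial.derivative p) z y • ContinuousLinearMap.snd ℂ ℂ ℂ) +
        (ev2 (cd i q) z y • ContinuousLinearMap.fst ℂ ℂ ℂ +
          ev2 (Polynomial.derivative q) z y • ContinuousLinearMap.snd ℂ ℂ ℂ) := by
      rw [map_add, cd_add, AlgPart.ev2_add, AlgPart.ev2_add]
      module
    rw [h2]
    simp only [AlgPart.ev2_add]
    exact h1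
  | monomial k a =>
    have h1 : HasFDerivAt (fun p : ℂ × ℂ => MvPolynomial.aeval (update z i p.1) a)
        (MvPolynomial.aeval z (MvPolynomial.pderiv i a) • ContinuousLinearMap.fst ℂ ℂ ℂ) (z i, y) := by
      have h2 := (AlgPart.aeval_hasDerivAt a i z).comp_hasFDerivAt (x := ((z i, y) : ℂ × ℂ))
        (f := Prod.fst) (f' := ContinuousLinearMap.fst ℂ ℂ ℂ) hasFDerivAt_fst
      exact h2
    have h3 : HasFDerivAt (fun p : ℂ × ℂ => p.2 ^ k)
        (((k : ℂ) * y ^ (k - 1)) • ContinuousLinearMap.snd ℂ ℂ ℂ) (z i, y) := by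
      have h2 := (hasDerivAt_pow k y).comp_hasFDerivAt (x := ((z i, y) : ℂ × ℂ))
        (f := Prod.snd) (f' := ContinuousLinearMap.snd ℂ ℂ ℂ) hasFDerivAt_snd
      exact h2
    have h4 := h1.fun_mul h3
    simp only [AlgPart.ev2_monomial, cd_monomial]
    refine h4.congr_fderiv ?_
    ext
    · simp [Polynomial.derivative_monomial, AlgPart.ev2_monomial, update_eq_self]
      ring
    · simp [Polynomial.derivative_monomial, AlgPart.ev2_monomial, update_eq_self]
      ring

/-- a derivation applied to a polynomial expression -/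
theorem derivation_eval₂ {L : Type} [Field L] (ψ : MvPolynomial (Fin n) K →+* L)
    (DL : Derivation ℤ L L) (i : Fin n) (hD : ∀ r, DL (ψ r) = ψ (MvPolynomial.pderiv i r)) (α : L)
    (P : Polynomial (MvPolynomial (Fin n) K)) :
    DL (P.eval₂ ψ α) = (cd i P).eval₂ ψ α + (Polynomial.derivative P).eval₂ ψ α * DL α := by
  induction P using Polynomial.induction_on' with
  | add p q hp hq =>
    rw [Polynomial.eval₂_add, map_add, hp, hq, cd_add, map_add, Polynomial.eval₂_add,
      Polynomial.eval₂_add]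
    ring
  | monomial k a =>
    rw [Polynomial.eval₂_monomial, Derivation.leibniz, Derivation.leibniz_pow, hD, cd_monomial,
      Polynomial.eval₂_monomial, Polynomial.derivative_monomial, Polynomial.eval₂_monomial]
    simp only [smul_eq_mul, nsmul_eq_mul, map_mul, map_natCast]
    ring

/-- the prime factor of the equation vanishing at the root -/
theorem exists_prime_factor (z0 : CubeT n) (w : CubeT n → ℂ) (hw : ContinuousAt w z0)
    (q : Polynomial (MvPolynomial (Fin n) K)) :
    (∀ᶠ z in nhds z0, ev2 q z.1 (w z) = 0) → ev2 (Polynomial.derivative q) z0.1 (w z0) ≠ 0 →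
      ∃ p : Polynomial (MvPolynomial (Fin n) K), Prime p ∧
        (∀ᶠ z in nhds z0, ev2 p z.1 (w z) = 0) ∧
        ev2 (Polynomial.derivative p) z0.1 (w z0) ≠ 0 := by
  have hcont : ∀ T : Polynomial (MvPolynomial (Fin n) K), ev2 T z0.1 (w z0) ≠ 0 →
      ∀ᶠ z in nhds z0, ev2 T z.1 (w z) ≠ 0 := by
    intro T hT
    have h1 := continuousAt_evR (φ := phi K n) (continuous_phi K n) T hw
    have h2 : evR (phi K n) T z0 (w z0) ≠ 0 := by
      rw [evR_phi]
      exact hT
    refine (h1.eventually_ne h2).mono fun z hz => ?_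
    rw [evR_phi] at hz
    exact hz
  induction q using UniqueFactorizationMonoid.induction_on_prime with
  | h₁ =>
    intro _ h2
    exact absurd (by rw [map_zero]; exact Polynomial.eval₂_zero _ _) h2
  | h₂ x hx =>
    intro h1 _
    have h2 : IsUnit (ev2 x z0.1 (w z0)) :=
      hx.map (Polynomial.eval₂RingHom (MvPolynomial.aeval z0.1 : MvPolynomial (Fin n) K →ₐ[K] ℂ).toRingHom
        (w z0))
    exact absurd h1.self_of_nhds h2.ne_zero
  | h₃ a p ha hp ih =>
    intro h1 h2
    rw [Polynomial.derivative_mul, AlgPart.ev2_add, ev2_mul, ev2_mul] at h2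
    simp only [ev2_mul] at h1
    by_cases h3 : ev2 p z0.1 (w z0) = 0
    · rw [h3, zero_mul, add_zero] at h2
      refine ⟨p, hp, ?_, left_ne_zero_of_mul h2⟩
      filter_upwards [h1, hcont a (right_ne_zero_of_mul h2)] with z hz1 hz2
      exact (mul_eq_zero.1 hz1).resolve_right hz2
    · have h4 : ∀ᶠ z in nhds z0, ev2 a z.1 (w z) = 0 := by
        filter_upwards [h1, hcont p h3] with z hz1 hz2
        exact (mul_eq_zero.1 hz1).resolve_left hz2
      rw [h4.self_of_nhds, mul_zero, zero_add] at h2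
      exact ih h4 (right_ne_zero_of_mul h2)

section field

variable (z0 : CubeT n) (w : CubeT n → ℂ) (p : Polynomial (MvPolynomial (Fin n) K))

theorem ev2_C (r : MvPolynomial (Fin n) K) (z : Fin n → ℂ) (y : ℂ) :
    ev2 (Polynomial.C r) z y = MvPolynomial.aeval z r := by
  unfold ev2
  rw [Polynomial.eval₂_C]
  rfl

/-- clearing denominators -/
theorem clear_den {k : Type} [Field k] [Algebra (MvPolynomial (Fin n) K) k]
    [IsFractionRing (MvPolynomial (Fin n) K) k] (a : Polynomial k) :
    ∃ (c : MvPolynomial (Fin n) K) (A : Polynomial (MvPolynomial (Fin n) K)), c ≠ 0 ∧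
      A.map (algebraMap (MvPolynomial (Fin n) K) k) =
        Polynomial.C (algebraMap (MvPolynomial (Fin n) K) k c) * a := by
  obtain ⟨c, hc, h⟩ := IsLocalization.integerNormalization_spec
    (nonZeroDivisors (MvPolynomial (Fin n) K)) a
  refine ⟨c, IsLocalization.integerNormalization
    (nonZeroDivisors (MvPolynomial (Fin n) K)) a, nonZeroDivisors.ne_zero hc, ?_⟩
  rw [h, ← Polynomial.smul_eq_C_mul, algebraMap_smul]

variable (k : Type) [Field k] [Algebra (MvPolynomial (Fin n) K) k]
  [IsFractionRing (MvPolynomial (Fin n) K) k]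

theorem map_injective' :
    Function.Injective (Polynomial.map (algebraMap (MvPolynomial (Fin n) K) k)) :=
  Polynomial.map_injective _ (IsFractionRing.injective _ _)

/-- a polynomial vanishing near `z0` on the graph of `w` is divisible by the equation of `w` -/
theorem dvd_of_eventually
    (hirr : Irreducible (p.map (algebraMap (MvPolynomial (Fin n) K) k)))
    (hp : ∀ᶠ z in nhds z0, ev2 p z.1 (w z) = 0) (T : Polynomial (MvPolynomial (Fin n) K))
    (hT : ∀ᶠ z in nhds z0, ev2 T z.1 (w z) = 0) :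
    p.map (algebraMap (MvPolynomial (Fin n) K) k) ∣
      T.map (algebraMap (MvPolynomial (Fin n) K) k) := by
  by_contra hnd
  obtain ⟨a, b, hab⟩ := (Irreducible.coprime_iff_not_dvd hirr).2 hnd
  obtain ⟨c, A, hc, hA⟩ := clear_den (K := K) (n := n) a
  obtain ⟨d, B, hd, hB⟩ := clear_den (K := K) (n := n) b
  have h1 : Polynomial.C d * A * p + Polynomial.C c * B * T = Polynomial.C (c * d) := by
    apply map_injective' k
    simp only [Polynomial.map_add, Polynomial.map_mul, Polynomial.map_C, hA, hB, map_mul]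
    linear_combination (Polynomial.C (algebraMap (MvPolynomial (Fin n) K) k c) *
      Polynomial.C (algebraMap (MvPolynomial (Fin n) K) k d)) * hab
  have h2 : c * d = 0 := by
    refine eq_zero_of_eventually _ z0 ?_
    filter_upwards [hp, hT] with z hz1 hz2
    have h3 := congrArg (fun P => ev2 P z.1 (w z)) h1
    simp only [AlgPart.ev2_add, ev2_mul, ev2_C, hz1, hz2, mul_zero, add_zero] at h3
    exact h3.symm
  exact mul_ne_zero hc hd h2

/-- a multiple of the equation of `w` vanishes at `z0` -/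
theorem eq_zero_of_dvd (hw : ContinuousAt w z0)
    (hp : ∀ᶠ z in nhds z0, ev2 p z.1 (w z) = 0) (T : Polynomial (MvPolynomial (Fin n) K))
    (hT : p.map (algebraMap (MvPolynomial (Fin n) K) k) ∣
      T.map (algebraMap (MvPolynomial (Fin n) K) k)) :
    ev2 T z0.1 (w z0) = 0 := by
  by_contra h0
  obtain ⟨S, hS⟩ := hT
  obtain ⟨c, S', hc, hS'⟩ := clear_den (K := K) (n := n) S
  have h1 : Polynomial.C c * T = p * S' := by
    apply map_injective' k
    simp only [Polynomial.map_mul, Polynomial.map_C, hS', hS]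
    ring
  have hcont : ∀ᶠ z in nhds z0, ev2 T z.1 (w z) ≠ 0 := by
    have h1 := continuousAt_evR (φ := phi K n) (continuous_phi K n) T hw
    have h2 : evR (phi K n) T z0 (w z0) ≠ 0 := by
      rw [evR_phi]
      exact h0
    refine (h1.eventually_ne h2).mono fun z hz => ?_
    rw [evR_phi] at hz
    exact hz
  refine hc (eq_zero_of_eventually _ z0 ?_)
  filter_upwards [hp, hcont] with z hz1 hz2
  have h3 := congrArg (fun P => ev2 P z.1 (w z)) h1
  simp only [ev2_mul, ev2_C, hz1, zero_mul] at h3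
  exact (mul_eq_zero.1 h3).resolve_right hz2

end field

/-- the explicit local derivative -/
theorem local_deriv {f : Pt → ℂ} (hdep : DepOn X0 (Set.Iio n) f) (i : Fin n) (z0 : CubeT n)
    {w : CubeT n → ℂ} {q A B : Polynomial (MvPolynomial (Fin n) K)}
    (hq' : ∀ᶠ z in nhds z0, ContinuousAt w z ∧ ev2 q z.1 (w z) = 0 ∧
      ev2 (Polynomial.derivative q) z.1 (w z) ≠ 0)
    (hAB' : ∀ᶠ z in nhds z0, ev2 B z.1 (w z) ≠ 0 ∧
      f (ext z) = ev2 A z.1 (w z) / ev2 B z.1 (w z)) :
    ∀ᶠ z in nhds z0, HasDerivWithinAt (fun t => f (update (ext z) i t))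
      (ev2 ((cd i A * Polynomial.derivative q - Polynomial.derivative A * cd i q) * B -
        A * (cd i B * Polynomial.derivative q - Polynomial.derivative B * cd i q)) z.1 (w z) /
        ev2 (B ^ 2 * Polynomial.derivative q) z.1 (w z)) seg (ext z i) := by
  filter_upwards [hq'.eventually_nhds, hAB'.eventually_nhds] with z hz1 hz2
  -- the line through `z` in the direction `i`
  have hzd : ext z ∈ Dom X0 := ext_mem_dom z
  have hup : ∀ t ∈ seg, update (ext z) (i : ℕ) t ∈ Dom X0 := fun t ht => rb_dom_mem_update hzd ht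
  set L : ℂ → CubeT n := fun t => prj n (update (ext z) (i : ℕ) t) with hL
  have hLval : ∀ t ∈ seg, (L t).1 = update z.1 i t := by
    intro t ht
    rw [hL, prj_val (fun j _ => hup t ht j)]
    funext j
    unfold rst
    by_cases hj : j = i
    · subst hj
      rw [update_self, update_self]
    · rw [update_of_ne hj, update_of_ne]
      · exact congrFun (rst_ext z) j
      · intro h
        exact hj (Fin.ext h)
  have hzi : ext z i = z.1 i := congrFun (rst_ext z) i
  have hzseg : ext z i ∈ seg := hzd i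
  have hL0 : L (ext z i) = z := by
    rw [hL]
    show prj n (update (ext z) (i : ℕ) (ext z i)) = z
    rw [update_eq_self, prj_ext]
  have hLc : ContinuousWithinAt L seg (ext z i) := by
    have h1 : ContinuousWithinAt (prj n) (Dom X0) (update (ext z) (i : ℕ) (ext z i)) :=
      continuousOn_prj _ (hup _ hzseg)
    have h2 : ContinuousWithinAt (fun t : ℂ => update (ext z) (i : ℕ) t) seg (ext z i) :=
      (continuous_const.update (i : ℕ) continuous_id).continuousWithinAt
    exact h1.comp h2 (fun t ht => hup t ht)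
  have hLt : Filter.Tendsto L (nhdsWithin (ext z i) seg) (nhds z) := by
    have h1 := hLc.tendsto
    rw [hL0] at h1
    exact h1
  have hz1' := hLt.eventually hz1
  have hz2' := hLt.eventually hz2
  obtain ⟨hwc, hq0, hq1⟩ := hz1.self_of_nhds
  obtain ⟨hB0, hf0⟩ := hz2.self_of_nhds
  set W : ℂ → ℂ := fun t => w (L t) with hW
  have hW0 : W (ext z i) = w z := by
    rw [hW]
    show w (L (ext z i)) = w z
    rw [hL0]
  have hWc : ContinuousWithinAt W seg (ext z i) := by
    have h1 : ContinuousAt w (L (ext z i)) := by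
      rw [hL0]
      exact hwc
    exact h1.comp_continuousWithinAt hLc
  -- the derivative of the root
  set W' : ℂ := - ev2 (cd i q) z.1 (w z) / ev2 (Polynomial.derivative q) z.1 (w z) with hW'
  have hWd : HasDerivWithinAt W W' seg (ext z i) := by
    refine impl_deriv (fun p : ℂ × ℂ => ev2 q (update z.1 i p.1) p.2) (ev2 (cd i q) z.1 (w z))
      (ev2 (Polynomial.derivative q) z.1 (w z)) (ext z i) W seg ?_ hq1 hWc ?_ ?_
    · rw [hW0, hzi]
      exact hasFDerivAt_ev2 q i z.1 (w z)
    · show ev2 q (update z.1 i (ext z i)) (W (ext z i)) = 0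
      rw [hW0, hzi, update_eq_self]
      exact hq0
    · filter_upwards [hz1', self_mem_nhdsWithin] with t ht hts
      show ev2 q (update z.1 i t) (W t) = 0
      rw [← hLval t hts]
      exact ht.2.1
  -- derivative of a polynomial expression
  have hPd : ∀ P : Polynomial (MvPolynomial (Fin n) K),
      HasDerivWithinAt (fun t => ev2 P (update z.1 i t) (W t))
        (ev2 (cd i P) z.1 (w z) + ev2 (Polynomial.derivative P) z.1 (w z) * W') seg (ext z i) := by
    intro P
    have h1 := hasFDerivAt_ev2 P i z.1 (w z)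
    rw [← hzi, ← hW0] at h1
    have h2 : HasDerivWithinAt (fun t : ℂ => ((t, W t) : ℂ × ℂ)) (1, W') seg (ext z i) :=
      (hasDerivWithinAt_id (ext z i) seg).prodMk hWd
    have h3 := HasFDerivAt.comp_hasDerivWithinAt (ext z i) (f := fun t : ℂ => ((t, W t) : ℂ × ℂ)) h1 h2
    rw [hW0] at h3
    refine h3.congr_deriv ?_
    simp
  have hA := hPd A
  have hB := hPd B
  have hA0 : ev2 A (update z.1 i (ext z i)) (W (ext z i)) = ev2 A z.1 (w z) := by
    rw [hW0, hzi, update_eq_self]
  have hB0' : ev2 B (update z.1 i (ext z i)) (W (ext z i)) = ev2 B z.1 (w z) := by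
    rw [hW0, hzi, update_eq_self]
  have hdiv := hA.fun_div hB (by
    rw [hB0']
    exact hB0)
  rw [hA0, hB0'] at hdiv
  have hsub : ∀ P Q : Polynomial (MvPolynomial (Fin n) K), ev2 (P - Q) z.1 (w z) =
      ev2 P z.1 (w z) - ev2 Q z.1 (w z) := fun P Q => Polynomial.eval₂_sub _
  have hpow : ev2 (B ^ 2) z.1 (w z) = ev2 B z.1 (w z) ^ 2 := Polynomial.eval₂_pow _ _ _
  refine HasDerivWithinAt.congr_deriv (f' := ((ev2 (cd i A) z.1 (w z) +
    ev2 (Polynomial.derivative A) z.1 (w z) * W') * ev2 B z.1 (w z) - ev2 A z.1 (w z) *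
      (ev2 (cd i B) z.1 (w z) + ev2 (Polynomial.derivative B) z.1 (w z) * W')) /
        (ev2 B z.1 (w z) ^ 2)) ?_ ?_
  · refine hdiv.congr_of_eventuallyEq_of_mem ?_ hzseg
    filter_upwards [hz2', self_mem_nhdsWithin] with t ht hts
    rw [← hLval t hts]
    have h5 : f (update (ext z) (i : ℕ) t) = f (ext (L t)) := (hdep.ext_prj (hup t hts)).symm
    rw [h5]
    exact ht.2
  · rw [hW']
    simp only [hsub, ev2_mul, hpow]
    field_simp
    ring

/-- sums of fractions -/
theorem frac_sum {A : Type} [CommRing A] : ∀ (m : ℕ) (M D : Fin m → A), ∃ M' D' : A,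
    ∀ (F : Type) [Field F] (θ : A →+* F), (∀ l, θ (D l) ≠ 0) →
      θ D' ≠ 0 ∧ ∑ l, θ (M l) / θ (D l) = θ M' / θ D' := by
  intro m
  induction m with
  | zero =>
    intro M D
    refine ⟨0, 1, fun F _ θ _ => ⟨?_, ?_⟩⟩
    · rw [map_one]
      exact one_ne_zero
    · rw [map_zero, zero_div, Fin.sum_univ_zero]
  | succ m ih =>
    intro M D
    obtain ⟨M', D', h⟩ := ih (fun l => M l.succ) (fun l => D l.succ)
    refine ⟨M 0 * D' + M' * D 0, D 0 * D', fun F _ θ h0 => ?_⟩
    obtain ⟨h1, h2⟩ := h F θ (fun l => h0 l.succ)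
    have h3 := h0 0
    refine ⟨?_, ?_⟩
    · rw [map_mul]
      exact mul_ne_zero h3 h1
    · rw [Fin.sum_univ_succ, h2, map_add, map_mul, map_mul, map_mul]
      field_simp

/-- the algebraic part: traces -/
theorem trace_part {N m : ℕ} (k : Type) [Field k] [CharZero k]
    [Algebra (MvPolynomial (Fin N) K) k] [IsFractionRing (MvPolynomial (Fin N) K) k]
    (i : Fin m → Fin N) (L : Type) [Field L] [Algebra k L] [FiniteDimensional k L]
    (D : Fin N → Derivation ℤ k k) (DL : Fin N → Derivation ℤ L L)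
    (hD : ∀ j r, D j (algebraMap (MvPolynomial (Fin N) K) k r) =
      algebraMap (MvPolynomial (Fin N) K) k (MvPolynomial.pderiv j r))
    (hDL : ∀ j x, DL j (algebraMap k L x) = algebraMap k L (D j x)) (y : Fin m → L) (x : k)
    (hx : algebraMap k L x = ∑ l, DL (i l) (y l)) :
    ∃ P Q : Fin m → MvPolynomial (Fin N) K, (∀ l, Q l ≠ 0) ∧
      x = ∑ l, algebraMap (MvPolynomial (Fin N) K) k
        (MvPolynomial.pderiv (i l) (P l) * Q l - P l * MvPolynomial.pderiv (i l) (Q l)) /
        algebraMap (MvPolynomial (Fin N) K) k (Q l) ^ 2 := by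
  have hn : ((Module.finrank k L : ℕ) : k) ≠ 0 := by
    rw [Nat.cast_ne_zero]
    exact Module.finrank_pos.ne'
  have h0 : ∀ l, ∃ P Q : MvPolynomial (Fin N) K, Q ≠ 0 ∧
      algebraMap (MvPolynomial (Fin N) K) k P / algebraMap (MvPolynomial (Fin N) K) k Q =
        Algebra.trace k L (y l) / (Module.finrank k L : ℕ) := by
    intro l
    obtain ⟨P, Q, hQ, h⟩ := IsFractionRing.div_surjective (MvPolynomial (Fin N) K)
      (Algebra.trace k L (y l) / ((Module.finrank k L : ℕ) : k))
    exact ⟨P, Q, nonZeroDivisors.ne_zero hQ, h⟩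
  choose P Q hQ hPQ using h0
  refine ⟨P, Q, hQ, ?_⟩
  have h1 : ((Module.finrank k L : ℕ) : k) * x =
      ∑ l, D (i l) (Algebra.trace k L (y l)) := by
    have h2 := congrArg (Algebra.trace k L) hx
    rw [Algebra.trace_algebraMap, map_sum, nsmul_eq_mul] at h2
    rw [h2]
    exact Finset.sum_congr rfl fun l _ =>
      MP1eadae.trace_derivation k L (D (i l)) (DL (i l)) (hDL (i l)) (y l)
  have h2 : ∀ l, D (i l) (Algebra.trace k L (y l)) = ((Module.finrank k L : ℕ) : k) *
      (algebraMap (MvPolynomial (Fin N) K) k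
        (MvPolynomial.pderiv (i l) (P l) * Q l - P l * MvPolynomial.pderiv (i l) (Q l)) /
        algebraMap (MvPolynomial (Fin N) K) k (Q l) ^ 2) := by
    intro l
    have h3 : Algebra.trace k L (y l) = ((Module.finrank k L : ℕ) : k) *
        (algebraMap (MvPolynomial (Fin N) K) k (P l) /
          algebraMap (MvPolynomial (Fin N) K) k (Q l)) := by
      rw [hPQ, mul_div_cancel₀ _ hn]
    have hQk : algebraMap (MvPolynomial (Fin N) K) k (Q l) ≠ 0 := by
      intro h
      exact hQ l ((map_eq_zero_iff _ (IsFractionRing.injective (MvPolynomial (Fin N) K) k)).1 h)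
    rw [h3, Derivation.leibniz, Derivation.map_natCast, smul_zero, add_zero, smul_eq_mul,
      Derivation.leibniz_div, hD, hD, map_sub, map_mul, map_mul]
    simp only [smul_eq_mul]
    field_simp
  rw [Finset.sum_congr rfl fun l _ => h2 l, ← Finset.mul_sum] at h1
  exact mul_left_cancel₀ hn h1

/-- the theorem for an abstract fraction field -/
theorem main {N m : ℕ} (k : Type) [Field k]
    [Algebra (MvPolynomial (Fin N) K) k] [IsFractionRing (MvPolynomial (Fin N) K) k]
    (i : Fin m → Fin N)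
    (G H : Fin m → Pt → ℂ) (hG : ∀ l, AlgAt K N (G l))
    (hP : ∀ l, Part X0 (i l : ℕ) (G l) (H l)) (P0 Q0 : MvPolynomial (Fin N) K)
    (hQ0 : ∀ z : CubeT N, MvPolynomial.aeval z.1 Q0 ≠ (0 : ℂ))
    (hid : ∀ z : CubeT N, (MvPolynomial.aeval z.1 P0 : ℂ) / MvPolynomial.aeval z.1 Q0 =
      ∑ l, H l (ext z)) :
    ∃ P Q : Fin m → MvPolynomial (Fin N) K, (∀ l, Q l ≠ 0) ∧
      algebraMap (MvPolynomial (Fin N) K) k P0 / algebraMap (MvPolynomial (Fin N) K) k Q0 =
      ∑ l, algebraMap (MvPolynomial (Fin N) K) k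
        (MvPolynomial.pderiv (i l) (P l) * Q l - P l * MvPolynomial.pderiv (i l) (Q l)) /
        algebraMap (MvPolynomial (Fin N) K) k (Q l) ^ 2 := by
  set z0 : CubeT N := ⟨fun _ => 0, fun _ => zero_mem_seg⟩ with hz0
  -- a common presentation
  have h1 : ∀ l, LocPres K N (fun z => G l (ext z)) z0 := fun l => (hG l).2 z0
  choose w1 hw1 hE1 using h1
  obtain ⟨w, ⟨q, hq⟩, hE2⟩ := common_family (continuous_phi K N) m w1 hw1
  have hE : ∀ l, InE (phi K N) z0 w (fun z => G l (ext z)) := fun l => (hE1 l).trans (hE2 l)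
  choose A B hAB using hE
  have hwc : ∀ᶠ z in nhds z0, ContinuousAt w z := hq.mono fun z hz => hz.1
  have hw0 : ContinuousAt w z0 := hwc.self_of_nhds
  -- the prime equation
  obtain ⟨p, hp, hp0, hp1⟩ := exists_prime_factor z0 w hw0 q
    (hq.mono fun z hz => by
      rw [← evR_phi]
      exact hz.2.1) (by
      rw [← evR_phi]
      exact hq.self_of_nhds.2.2)
  have hcont : ∀ T : Polynomial (MvPolynomial (Fin N) K), ev2 T z0.1 (w z0) ≠ 0 →
      ∀ᶠ z in nhds z0, ev2 T z.1 (w z) ≠ 0 := by
    intro T hT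
    have h1 := continuousAt_evR (φ := phi K N) (continuous_phi K N) T hw0
    have h2 : evR (phi K N) T z0 (w z0) ≠ 0 := by
      rw [evR_phi]
      exact hT
    refine (h1.eventually_ne h2).mono fun z hz => ?_
    rw [evR_phi] at hz
    exact hz
  have hpS : ∀ᶠ z in nhds z0, ContinuousAt w z ∧ ev2 p z.1 (w z) = 0 ∧
      ev2 (Polynomial.derivative p) z.1 (w z) ≠ 0 := by
    filter_upwards [hwc, hp0, hcont _ hp1] with z hz1 hz2 hz3
    exact ⟨hz1, hz2, hz3⟩
  have hABe : ∀ l, ∀ᶠ z in nhds z0, ev2 (B l) z.1 (w z) ≠ 0 ∧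
      G l (ext z) = ev2 (A l) z.1 (w z) / ev2 (B l) z.1 (w z) := by
    intro l
    refine (hAB l).mono fun z hz => ?_
    rw [evR_phi, evR_phi] at hz
    exact hz
  -- the derivatives
  set M : Fin m → Polynomial (MvPolynomial (Fin N) K) := fun l =>
    (cd (i l) (A l) * Polynomial.derivative p - Polynomial.derivative (A l) * cd (i l) p) * B l -
      A l * (cd (i l) (B l) * Polynomial.derivative p - Polynomial.derivative (B l) * cd (i l) p)
    with hM
  set E : Fin m → Polynomial (MvPolynomial (Fin N) K) := fun l =>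
    B l ^ 2 * Polynomial.derivative p with hE
  have hH : ∀ l, ∀ᶠ z in nhds z0, H l (ext z) = ev2 (M l) z.1 (w z) / ev2 (E l) z.1 (w z) := by
    intro l
    filter_upwards [local_deriv (hG l).1 (i l) z0 hpS (hABe l)] with z hz
    exact (ud_seg _ (ext_mem_dom z (i l))).eq_deriv _ (hP l (ext z) (ext_mem_dom z)) hz
  have hE0 : ∀ l, ev2 (E l) z0.1 (w z0) ≠ 0 := by
    intro l
    rw [hE, ev2_mul]
    have hpow : ev2 (B l ^ 2) z0.1 (w z0) = ev2 (B l) z0.1 (w z0) ^ 2 :=
      Polynomial.eval₂_pow _ _ _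
    rw [hpow]
    exact mul_ne_zero (pow_ne_zero _ (hABe l).self_of_nhds.1) hp1
  -- the field
  have hdeg : p.natDegree ≠ 0 := by
    intro h
    rw [Polynomial.natDegree_eq_zero] at h
    obtain ⟨c, hc⟩ := h
    rw [← hc, Polynomial.derivative_C] at hp1
    exact hp1 (Polynomial.eval₂_zero _ _)
  have hirr : Irreducible (p.map (algebraMap (MvPolynomial (Fin N) K) k)) :=
    ((hp.irreducible.isPrimitive hdeg).irreducible_iff_irreducible_map_fraction_map).1
      hp.irreducible
  have : CharZero k := charZero_of_injective_algebraMap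
    (IsFractionRing.injective (MvPolynomial (Fin N) K) k)
  have hfact : Fact (Irreducible (p.map (algebraMap (MvPolynomial (Fin N) K) k))) := ⟨hirr⟩
  have hfin : FiniteDimensional k (AdjoinRoot (p.map (algebraMap (MvPolynomial (Fin N) K) k))) :=
    (AdjoinRoot.powerBasis hirr.ne_zero).finite
  obtain ⟨L, iF, iA, iD, α, hα⟩ : ∃ (L : Type) (_ : Field L) (_ : Algebra k L)
      (_ : FiniteDimensional k L) (α : L), ∀ T : Polynomial (MvPolynomial (Fin N) K),
      T.eval₂ ((algebraMap k L).comp (algebraMap (MvPolynomial (Fin N) K) k)) α = 0 ↔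
        p.map (algebraMap (MvPolynomial (Fin N) K) k) ∣
          T.map (algebraMap (MvPolynomial (Fin N) K) k) := by
    refine ⟨AdjoinRoot (p.map (algebraMap (MvPolynomial (Fin N) K) k)), inferInstance,
      inferInstance, hfin, AdjoinRoot.root _, fun T => ?_⟩
    rw [← AdjoinRoot.mk_eq_zero, ← AdjoinRoot.aeval_eq, Polynomial.aeval_def,
      Polynomial.eval₂_map]
  set ψ : MvPolynomial (Fin N) K →+* L :=
    (algebraMap k L).comp (algebraMap (MvPolynomial (Fin N) K) k) with hψ
  -- transfer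
  have htr : ∀ T : Polynomial (MvPolynomial (Fin N) K), (∀ᶠ z in nhds z0, ev2 T z.1 (w z) = 0) →
      T.eval₂ ψ α = 0 := fun T hT =>
    (hα T).2 (dvd_of_eventually z0 w p k hirr hp0 T hT)
  have htr' : ∀ T : Polynomial (MvPolynomial (Fin N) K), ev2 T z0.1 (w z0) ≠ 0 →
      T.eval₂ ψ α ≠ 0 := fun T hT h =>
    hT (eq_zero_of_dvd z0 w p k hw0 hp0 T ((hα T).1 h))
  -- the derivations
  have hDex : ∀ j : Fin N, ∃ D : Derivation ℤ k k, ∀ r,
      D (algebraMap (MvPolynomial (Fin N) K) k r) =
        algebraMap (MvPolynomial (Fin N) K) k (MvPolynomial.pderiv j r) := fun j =>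
    MP1eadae.exists_derivation_fraction (MvPolynomial (Fin N) K) k
      ((MvPolynomial.pderiv j : Derivation K (MvPolynomial (Fin N) K)
        (MvPolynomial (Fin N) K)).restrictScalars ℤ)
  choose D hD using hDex
  have hDLex : ∀ j : Fin N, ∃ DL : Derivation ℤ L L, ∀ x,
      DL (algebraMap k L x) = algebraMap k L (D j x) := fun j =>
    MP1eadae.exists_derivation_extension k L (D j)
  choose DL hDL using hDLex
  have hDψ : ∀ j r, DL j (ψ r) = ψ (MvPolynomial.pderiv j r) := by
    intro j r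
    rw [hψ, RingHom.comp_apply, RingHom.comp_apply, hDL, hD]
  have hev := fun (j : Fin N) (T : Polynomial (MvPolynomial (Fin N) K)) =>
    derivation_eval₂ ψ (DL j) j (hDψ j) α T
  have hpα : p.eval₂ ψ α = 0 := htr p hp0
  have hp'α : (Polynomial.derivative p).eval₂ ψ α ≠ 0 := htr' _ hp1
  have hBα : ∀ l, (B l).eval₂ ψ α ≠ 0 := fun l => htr' _ (hABe l).self_of_nhds.1
  have hDα : ∀ j, DL j α = - (cd j p).eval₂ ψ α / (Polynomial.derivative p).eval₂ ψ α := by
    intro j
    have h2 := hev j p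
    rw [hpα, map_zero] at h2
    rw [eq_div_iff hp'α]
    linear_combination -h2
  -- the elements
  set y : Fin m → L := fun l => (A l).eval₂ ψ α / (B l).eval₂ ψ α with hy
  have hDy : ∀ l, DL (i l) (y l) = (M l).eval₂ ψ α / (E l).eval₂ ψ α := by
    intro l
    have hBl := hBα l
    rw [hy, hM, hE]
    simp only [Polynomial.eval₂_sub, Polynomial.eval₂_mul, Polynomial.eval₂_pow]
    rw [Derivation.leibniz_div, hev, hev, hDα]
    simp only [smul_eq_mul]
    field_simp
    ring
  obtain ⟨M', E', hfs⟩ := frac_sum m M E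
  have hfL := hfs L (Polynomial.eval₂RingHom ψ α) (fun l => htr' _ (hE0 l))
  have hQ0' : Q0 ≠ 0 := by
    intro h
    exact hQ0 z0 (by rw [h, map_zero])
  have hQk : algebraMap (MvPolynomial (Fin N) K) k Q0 ≠ 0 := fun h =>
    hQ0' ((map_eq_zero_iff _ (IsFractionRing.injective (MvPolynomial (Fin N) K) k)).1 h)
  have hT : (Polynomial.C P0 * E' - M' * Polynomial.C Q0).eval₂ ψ α = 0 := by
    refine htr _ ?_
    have hHall : ∀ᶠ z in nhds z0, ∀ l, H l (ext z) = ev2 (M l) z.1 (w z) / ev2 (E l) z.1 (w z) :=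
      Filter.eventually_all.2 hH
    have hEall : ∀ᶠ z in nhds z0, ∀ l, ev2 (E l) z.1 (w z) ≠ 0 :=
      Filter.eventually_all.2 fun l => hcont _ (hE0 l)
    filter_upwards [hHall, hEall] with z hz1 hz2
    have hfz := hfs ℂ (Polynomial.eval₂RingHom
      (MvPolynomial.aeval z.1 : MvPolynomial (Fin N) K →ₐ[K] ℂ).toRingHom (w z)) hz2
    have h3 := hid z
    rw [Finset.sum_congr rfl fun l _ => hz1 l] at h3
    have h4 : (MvPolynomial.aeval z.1 P0 : ℂ) / MvPolynomial.aeval z.1 Q0 =
        ev2 M' z.1 (w z) / ev2 E' z.1 (w z) := h3.trans hfz.2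
    have h5 : ev2 E' z.1 (w z) ≠ 0 := hfz.1
    rw [div_eq_div_iff (hQ0 z) h5] at h4
    have hsub : ev2 (Polynomial.C P0 * E' - M' * Polynomial.C Q0) z.1 (w z) =
        ev2 (Polynomial.C P0 * E') z.1 (w z) - ev2 (M' * Polynomial.C Q0) z.1 (w z) :=
      Polynomial.eval₂_sub _
    rw [hsub, ev2_mul, ev2_mul, ev2_C, ev2_C, h4, sub_self]
  have hx : algebraMap k L (algebraMap (MvPolynomial (Fin N) K) k P0 /
      algebraMap (MvPolynomial (Fin N) K) k Q0) = ∑ l, DL (i l) (y l) := by
    rw [Finset.sum_congr rfl fun l _ => hDy l]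
    have h3 : ∑ l, (M l).eval₂ ψ α / (E l).eval₂ ψ α = M'.eval₂ ψ α / E'.eval₂ ψ α := hfL.2
    have h4 : E'.eval₂ ψ α ≠ 0 := hfL.1
    have h5 : algebraMap k L (algebraMap (MvPolynomial (Fin N) K) k Q0) ≠ 0 := by
      intro h
      exact hQk ((map_eq_zero_iff _ (algebraMap k L).injective).1 h)
    rw [h3, map_div₀, div_eq_div_iff h5 h4]
    rw [Polynomial.eval₂_sub, Polynomial.eval₂_mul, Polynomial.eval₂_mul, Polynomial.eval₂_C,
      Polynomial.eval₂_C] at hT
    have h6 : ψ P0 = algebraMap k L (algebraMap (MvPolynomial (Fin N) K) k P0) := rfl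
    have h7 : ψ Q0 = algebraMap k L (algebraMap (MvPolynomial (Fin N) K) k Q0) := rfl
    rw [← h6, ← h7]
    exact sub_eq_zero.1 hT
  exact trace_part k i L D DL hD hDL y _ hx

end N2

/-- Piece N2.  If a rational function `P0/Q0` (in `N` variables, on the cube) is a sum of partial
derivatives `H_l = ∂_{i_l} G_l` of algebraic functions `G_l` of `N` variables, then it is, in the field of
rational functions, a sum of partial derivatives of rational functions `P_l/Q_l` (whose denominators
may vanish on the cube).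

Proof.  Let `R = MvPolynomial (Fin N) K`, `k = FractionRing R`.  Fix `z0 : CubeT N` (e.g. `0`).
`H_l` is algebraic too (`AlgAt.exists_part` and uniqueness of derivatives on `seg`; only `G_l` is needed
below).  By `common_family` (with `φ = phi K N`) and `InE.trans` there is one continuous simple root `w` near `z0`
of some `q ∈ R[X]` with `G_l ∘ ext = A_l(w)/B_l(w)` near `z0`, `B_l(w) ≠ 0`.
(1) Irreducible equation.  Factor `q` in the UFD `R[X]`; exactly one irreducible factor `q1` vanishes at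
`(z0, w z0)` (simple root), the others do not vanish at `(z, w z)` for `z` near `z0`, so `q1(z, w z) = 0` near
`z0`, and `q1'(z, w z) ≠ 0` near `z0`.  `q1` has positive degree (as in `LemC`), is primitive and
irreducible over `k`.
(2) For `T ∈ R[X]`: if `T(z, w z) = 0` for all `z` near `z0`, then `q1 ∣ T` in `k[X]`: otherwise
`a q1 + b T = d` with `a, b ∈ R[X]`, `0 ≠ d ∈ R`, and `d` vanishes near `z0`, so `d = 0` (a neighbourhood of
`z0` in the cube contains a product of infinite sets).
(3) `L = AdjoinRoot (q1 over k)`, a finite field extension, `α` the root; `D_i` on `k` extending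
`MvPolynomial.pderiv i` (`exists_derivation_fraction`), `D_i` on `L` (`exists_derivation_extension`);
`q1'(α) · D_i α = - q1_i(α)` (`q1_i`: coefficientwise `pderiv i`).  `B_l(α) ≠ 0` by (2).  Put
`y_l = A_l(α)/B_l(α) ∈ L`.
(4) Near `z0`, `w` is differentiable in the direction `i` with derivative `-q1_i(z,w)/q1'(z,w)`
(`impl_deriv`, as in `AlgPart`), so near `z0`: `B_l^2 q1' · H_l = M_l` at `(z, w z)`, with
`M_l = ((A_l)_i q1' - A_l' q1_i) B_l - A_l ((B_l)_i q1' - B_l' q1_i) ∈ R[X]` (`i = i_l`), and in `L`: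
`B_l(α)^2 q1'(α) · D_i y_l = M_l(α)`.
(5) The identity `P0/Q0 = ∑_l H_l` becomes, after multiplication by `Q0 q1' ∏ B_l^2`, a polynomial identity at
`(z, w z)`, hence by (2) an identity in `L`: `P0/Q0 = ∑_l D_{i_l} y_l`.
(6) Apply `(1/[L:k]) Algebra.trace k L` and `trace_derivation`: `P0/Q0 = ∑_l D_{i_l} g_l`,
`g_l = (1/[L:k]) tr y_l ∈ k`; write `g_l = P_l/Q_l` and use the quotient rule. -/
theorem nash_primitive_to_rational {K : Subfield ℂ} {N m : ℕ} (i : Fin m → Fin N)
    (G H : Fin m → Pt → ℂ) (hG : ∀ l, AlgAt K N (G l))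
    (hP : ∀ l, Part X0 (i l : ℕ) (G l) (H l)) (P0 Q0 : MvPolynomial (Fin N) K)
    (hQ0 : ∀ z : CubeT N, MvPolynomial.aeval z.1 Q0 ≠ (0 : ℂ))
    (hid : ∀ z : CubeT N, (MvPolynomial.aeval z.1 P0 : ℂ) / MvPolynomial.aeval z.1 Q0 =
      ∑ l, H l (ext z)) :
    ∃ P Q : Fin m → MvPolynomial (Fin N) K, (∀ l, Q l ≠ 0) ∧
      algebraMap (MvPolynomial (Fin N) K) (FractionRing (MvPolynomial (Fin N) K)) P0 /
        algebraMap (MvPolynomial (Fin N) K) (FractionRing (MvPolynomial (Fin N) K)) Q0 =
      ∑ l, algebraMap (MvPolynomial (Fin N) K) (FractionRing (MvPolynomial (Fin N) K))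
          (MvPolynomial.pderiv (i l) (P l) * Q l - P l * MvPolynomial.pderiv (i l) (Q l)) /
        algebraMap (MvPolynomial (Fin N) K) (FractionRing (MvPolynomial (Fin N) K)) (Q l) ^ 2 := by
  exact N2.main (FractionRing (MvPolynomial (Fin N) K)) i G H hG hP P0 Q0 hQ0 hid

end MP1eadaeL
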