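import Mathlib

/-! # MP_1eadae_ag, piece T2RAD: small tori avoiding finitely many hypersurfaces -/

namespace MP1eadae

theorem t2rad_one (N : ℕ) : ∀ (Q : MvPolynomial (Fin N) ℂ), Q ≠ 0 → ∀ (c : Fin N → ℂ) (ρ : ℝ),
    0 < ρ → ∃ ε : Fin N → ℝ, (∀ i, 0 < ε i ∧ ε i < ρ) ∧
      ∀ x : Fin N → ℂ, (∀ i, ‖x i - c i‖ = ε i) → MvPolynomial.eval x Q ≠ 0 := by
  induction N with
  | zero =>
    intro Q hQ c ρ _
    refine ⟨fun _ => 1, fun i => i.elim0, fun x _ h => hQ ?_⟩
    rw [MvPolynomial.eq_C_of_isEmpty Q] at h ⊢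
    rw [MvPolynomial.eval_C] at h
    rw [h, map_zero]
  | succ N ih =>
    intro Q hQ c ρ hρ
    set F := MvPolynomial.finSuccEquiv ℂ N Q with hF
    have hF0 : F ≠ 0 := by
      intro h
      exact hQ ((MvPolynomial.finSuccEquiv ℂ N).injective (by rw [← hF, h, map_zero]))
    obtain ⟨q, hq1, hq2⟩ := Polynomial.exists_eq_pow_rootMultiplicity_mul_and_not_dvd F hF0
      (MvPolynomial.C (c 0))
    rw [Polynomial.dvd_iff_isRoot] at hq2
    obtain ⟨ε', hε', hx'⟩ := ih (q.eval (MvPolynomial.C (c 0))) hq2 (fun i => c i.succ) ρ hρ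
    set Q' := (MvPolynomial.finSuccEquiv ℂ N).symm q with hQ'
    have hev : ∀ (t : ℂ) (x' : Fin N → ℂ), MvPolynomial.eval (Fin.cons t x' : Fin (N + 1) → ℂ) Q' =
        Polynomial.eval t (Polynomial.map (MvPolynomial.eval x') q) := by
      intro t x'
      rw [MvPolynomial.eval_eq_eval_mv_eval', hQ', AlgEquiv.apply_symm_apply]
    have hcont : Continuous fun p : (Fin N → ℂ) × ℂ =>
        MvPolynomial.eval (Fin.cons p.2 p.1 : Fin (N + 1) → ℂ) Q' := by
      have h1 : Continuous fun p : (Fin N → ℂ) × ℂ => (Fin.cons p.2 p.1 : Fin (N + 1) → ℂ) := by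
        refine continuous_pi fun i => ?_
        refine Fin.cases ?_ (fun i => ?_) i
        · simpa using continuous_snd
        · simp only [Fin.cons_succ]
          exact (continuous_apply i).comp continuous_fst
      exact (MvPolynomial.continuous_eval Q').comp h1
    set T' : Set (Fin N → ℂ) := Set.pi Set.univ (fun i => Metric.sphere (c i.succ) (ε' i)) with hT
    have hT' : IsCompact T' := isCompact_univ_pi fun i => isCompact_sphere _ _
    have hopen : IsOpen {p : (Fin N → ℂ) × ℂ |
        MvPolynomial.eval (Fin.cons p.2 p.1 : Fin (N + 1) → ℂ) Q' ≠ 0} :=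
      isOpen_ne_fun hcont continuous_const
    have hsub : T' ×ˢ ({c 0} : Set ℂ) ⊆ {p : (Fin N → ℂ) × ℂ |
        MvPolynomial.eval (Fin.cons p.2 p.1 : Fin (N + 1) → ℂ) Q' ≠ 0} := by
      rintro ⟨x', t⟩ ⟨h1, h2⟩
      have h3 : t = c 0 := h2
      have h4 : ∀ i, ‖x' i - c i.succ‖ = ε' i := by
        intro i
        have := h1 i (Set.mem_univ i)
        rwa [Metric.mem_sphere, dist_eq_norm] at this
      show MvPolynomial.eval (Fin.cons t x' : Fin (N + 1) → ℂ) Q' ≠ 0
      rw [hev, h3, Polynomial.eval_map]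
      have h5 := Polynomial.eval₂_at_apply (p := q) (MvPolynomial.eval x')
        (MvPolynomial.C (c 0))
      rw [MvPolynomial.eval_C] at h5
      rw [h5]
      exact hx' x' h4
    obtain ⟨u, v, _, hv, hu', hv', huv⟩ := generalized_tube_lemma hT' isCompact_singleton hopen hsub
    obtain ⟨r, hr, hball⟩ := Metric.isOpen_iff.1 hv (c 0) (hv' rfl)
    refine ⟨Fin.cons (min ρ r / 2) ε', ?_, ?_⟩
    · intro i
      refine Fin.cases ?_ (fun i => ?_) i
      · have h1 : 0 < min ρ r := lt_min hρ hr
        have h2 : min ρ r ≤ ρ := min_le_left _ _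
        simp only [Fin.cons_zero]
        constructor <;> linarith
      · simpa using hε' i
    · intro x hx
      have hx0 : ‖x 0 - c 0‖ = min ρ r / 2 := by simpa using hx 0
      have hxs : ∀ i : Fin N, ‖x i.succ - c i.succ‖ = ε' i := fun i => by simpa using hx i.succ
      have hpos : 0 < min ρ r := lt_min hρ hr
      have hxc : x = (Fin.cons (x 0) (fun i => x i.succ) : Fin (N + 1) → ℂ) := by
        funext i
        refine Fin.cases ?_ (fun i => ?_) i
        · simp
        · simp
      have h1 : MvPolynomial.eval x Q = (x 0 - c 0) ^ (F.rootMultiplicity (MvPolynomial.C (c 0))) *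
          MvPolynomial.eval (Fin.cons (x 0) (fun i => x i.succ) : Fin (N + 1) → ℂ) Q' := by
        conv_lhs => rw [hxc]
        rw [MvPolynomial.eval_eq_eval_mv_eval', ← hF, hev]
        conv_lhs => rw [hq1]
        simp [Polynomial.map_mul, Polynomial.map_pow]
      rw [h1]
      refine mul_ne_zero (pow_ne_zero _ ?_) ?_
      · intro h
        rw [h, norm_zero] at hx0
        linarith
      · refine huv (a := ((fun i => x i.succ), x 0)) ⟨hu' ?_, hball ?_⟩
        · intro i _
          rw [Metric.mem_sphere, dist_eq_norm]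
          exact hxs i
        · rw [Metric.mem_ball, dist_eq_norm, hx0]
          have : min ρ r ≤ r := min_le_right _ _
          linarith

/-- Piece T2RAD.  Finitely many nonzero polynomials in `N` variables and a point `c`: there are
arbitrarily small radii such that no polynomial vanishes on the torus `|x_i - c_i| = ε_i`.

Proof.  Replace the finite set by its product: one nonzero polynomial `Q`.  Induction on `N`
(reformulate with all radii `< ρ`).  `N = 0`: `Q` is a nonzero constant.  Step: write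
`Q = ∑_k q_k(x_0..x_{N-1}) (x_N - c_N)^k` (use `MvPolynomial.finSuccEquiv`, or the version with the
last variable `MvPolynomial.finSuccEquiv` after a reindexing; the order of the variables is free,
so one may just as well single out the variable `0`), translate by `c` first so that `c = 0` if
convenient.  Let `k` be minimal with `q_k ≠ 0`.  By induction there are radii with `q_k ≠ 0` on the
torus of the other variables; this torus is compact, hence `|q_k| ≥ δ > 0` and
`|∑_{j>k} q_j(x') t^{j-k-1}| ≤ M` for `x'` in the torus and `|t| ≤ 1`.  For `0 < ε < min(ρ, 1, δ/(M+1))`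
one has `|Q(x', c_N + t)| ≥ |t|^k (δ - M |t|) > 0` for `|t| = ε`. -/
theorem exists_radii (N : ℕ) (S : Finset (MvPolynomial (Fin N) ℂ)) (hS : ∀ Q ∈ S, Q ≠ 0)
    (c : Fin N → ℂ) (ρ : ℝ) (hρ : 0 < ρ) :
    ∃ ε : Fin N → ℝ, (∀ i, 0 < ε i ∧ ε i < ρ) ∧
      ∀ Q ∈ S, ∀ x : Fin N → ℂ, (∀ i, ‖x i - c i‖ = ε i) → MvPolynomial.eval x Q ≠ 0 := by
  obtain ⟨ε, h1, h2⟩ := t2rad_one N (∏ Q ∈ S, Q) (Finset.prod_ne_zero_iff.2 hS) c ρ hρ
  refine ⟨ε, h1, fun Q hQ x hx => ?_⟩
  have h3 := h2 x hx
  rw [map_prod, Finset.prod_ne_zero_iff] at h3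
  exact h3 Q hQ

end MP1eadae
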