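import Mathlib

/-! # MP_1eadae_ag, piece T2TOR: the torus integral as a functional -/

namespace MP1eadae

open MeasureTheory Set in
open scoped Real in
/-- Fubini, with the circle integral as the inner integral. -/
theorem t2tor_symm {n : ℕ} {f : (Fin (n + 1) → ℂ) → ℂ} {c : Fin (n + 1) → ℂ}
    {R : Fin (n + 1) → ℝ} (hf : TorusIntegrable f c R) (i : Fin (n + 1)) :
    (∯ x in T(c, R), f x) = ∯ y in T(c ∘ i.succAbove, R ∘ i.succAbove),
      ∮ x in C(c i, R i), f (i.insertNth x y) := by
  set e : ℝ × (Fin n → ℝ) ≃ᵐ (Fin (n + 1) → ℝ) :=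
    (MeasurableEquiv.piFinSuccAbove (fun _ => ℝ) i).symm
  have hem : MeasurePreserving e :=
    (volume_preserving_piFinSuccAbove (fun _ : Fin (n + 1) => ℝ) i).symm _
  have heπ : (e ⁻¹' Icc 0 fun _ => 2 * π) =
      Icc 0 (2 * π) ×ˢ Icc (0 : Fin n → ℝ) fun _ => 2 * π :=
    ((Fin.insertNthOrderIso (fun _ => ℝ) i).preimage_Icc _ _).trans (Icc_prod_eq _ _)
  have hint := hf.function_integrable
  rw [← hem.integrableOn_comp_preimage e.measurableEmbedding, heπ, IntegrableOn,
    Measure.volume_eq_prod, ← Measure.prod_restrict] at hint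
  rw [torusIntegral, ← hem.map_eq, setIntegral_map_equiv, heπ, Measure.volume_eq_prod,
    ← Measure.prod_restrict]
  refine (integral_prod_symm _ hint).trans ?_
  rw [torusIntegral]
  refine integral_congr_ae (Filter.Eventually.of_forall fun Θ => ?_)
  simp only [circleIntegral_def_Icc]
  rw [← integral_smul]
  refine integral_congr_ae (Filter.Eventually.of_forall fun θ => ?_)
  simp +unfoldPartialApp only [e, deriv_circleMap, i.prod_univ_succAbove _, smul_smul, torusMap,
    circleMap_zero]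
  simp only [MeasurableEquiv.piFinSuccAbove_symm_apply, i.insertNth_apply_same,
    i.insertNth_apply_succAbove, (· ∘ ·), Fin.insertNthEquiv, Equiv.coe_fn_mk]
  congr 1
  · ring
  · congr 1
    simp only [funext_iff, i.forall_iff_succAbove, circleMap, Fin.insertNth_apply_same,
      Fin.insertNth_apply_succAbove, imp_true_iff, and_self_iff]

theorem t2tor_mem {N : ℕ} {c : Fin N → ℂ} {ε : Fin N → ℝ} (hε : ∀ i, 0 < ε i)
    (θ : Fin N → ℝ) : ∀ i, ‖torusMap c ε θ i - c i‖ = ε i := by
  intro i
  simp [torusMap, abs_of_pos (hε i)]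

theorem t2tor_int {N : ℕ} {c : Fin N → ℂ} {ε : Fin N → ℝ} (hε : ∀ i, 0 < ε i)
    {F : (Fin N → ℂ) → ℂ} (hF : ContinuousOn F {x | ∀ i, ‖x i - c i‖ = ε i}) :
    TorusIntegrable F c ε := by
  unfold TorusIntegrable
  have h1 : Continuous (torusMap c ε) := by
    unfold torusMap
    fun_prop
  have h2 : Continuous fun θ => F (torusMap c ε θ) :=
    hF.comp_continuous h1 fun θ => t2tor_mem hε θ
  exact h2.continuousOn.integrableOn_compact isCompact_Icc

theorem t2tor_congr {N : ℕ} {c : Fin N → ℂ} {ε : Fin N → ℝ} (hε : ∀ i, 0 < ε i)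
    {F G : (Fin N → ℂ) → ℂ} (h : ∀ x, (∀ i, ‖x i - c i‖ = ε i) → F x = G x) :
    (∯ x in T(c, ε), F x) = ∯ x in T(c, ε), G x := by
  unfold torusIntegral
  congr 1
  funext θ
  simp only [h _ (t2tor_mem hε θ)]

theorem t2tor_zero {n : ℕ} {c : Fin (n + 1) → ℂ} {ε : Fin (n + 1) → ℝ} (hε : ∀ i, 0 < ε i)
    {F : (Fin (n + 1) → ℂ) → ℂ} (hF : ContinuousOn F {x | ∀ i, ‖x i - c i‖ = ε i})
    (i : Fin (n + 1)) (h : ∀ y : Fin n → ℂ, (∀ j, ‖y j - c (i.succAbove j)‖ = ε (i.succAbove j)) →
      (∮ t in C(c i, ε i), F (i.insertNth t y)) = 0) : (∯ x in T(c, ε), F x) = 0 := by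
  rw [t2tor_symm (t2tor_int hε hF) i,
    t2tor_congr (c := c ∘ i.succAbove) (ε := ε ∘ i.succAbove) (G := fun _ => 0)
      (fun j => hε _) (fun y hy => h y hy)]
  unfold torusIntegral
  simp

theorem t2tor_ins {n : ℕ} {c : Fin (n + 1) → ℂ} {ε : Fin (n + 1) → ℝ} (i : Fin (n + 1))
    {y : Fin n → ℂ} (hy : ∀ j, ‖y j - c (i.succAbove j)‖ = ε (i.succAbove j)) {t : ℂ}
    (ht : t ∈ Metric.sphere (c i) (ε i)) :
    ∀ j, ‖(i.insertNth t y : Fin (n + 1) → ℂ) j - c j‖ = ε j := by
  rw [Metric.mem_sphere, dist_eq_norm] at ht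
  rw [i.forall_iff_succAbove]
  refine ⟨by simpa using ht, fun j => by simpa using hy j⟩

theorem t2tor_prod : ∀ (N : ℕ) (c : Fin N → ℂ) (ε : Fin N → ℝ) (_ : ∀ i, 0 < ε i)
    (h : Fin N → ℂ → ℂ) (_ : ∀ i, ContinuousOn (h i) (Metric.sphere (c i) (ε i))),
    (∯ x in T(c, ε), ∏ i, h i (x i)) = ∏ i, (∮ t in C(c i, ε i), h i t) := by
  intro N
  induction N with
  | zero =>
    intro c ε _ h _
    simp
  | succ n ih =>
    intro c ε hε h hh
    have hcont : ContinuousOn (fun x : Fin (n + 1) → ℂ => ∏ i, h i (x i))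
        {x | ∀ i, ‖x i - c i‖ = ε i} := by
      refine continuousOn_finsetProd _ fun i _ => ?_
      refine (hh i).comp (continuous_apply i).continuousOn fun x hx => ?_
      rw [Metric.mem_sphere, dist_eq_norm]
      exact hx i
    rw [torusIntegral_succ (t2tor_int hε hcont), Fin.prod_univ_succ,
      ← ih (fun i => c i.succ) (fun i => ε i.succ) (fun i => hε _) (fun i => h i.succ)
        (fun i => hh _)]
    have h1 : ∀ x : ℂ, (∯ y in T(c ∘ Fin.succ, ε ∘ Fin.succ),
        ∏ i, h i ((Fin.cons x y : Fin (n + 1) → ℂ) i)) =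
        (∯ y in T(fun i => c i.succ, fun i => ε i.succ), ∏ i : Fin n, h i.succ (y i)) * h 0 x := by
      intro x
      simp only [Fin.prod_univ_succ, Fin.cons_zero, Fin.cons_succ]
      rw [torusIntegral_const_mul, mul_comm]
      rfl
    simp_rw [h1]
    rw [circleIntegral.integral_const_mul, mul_comm]

/-- Piece T2TOR.  The torus integral functional.  Here `T = {x | ∀ i, ‖x i - c i‖ = ε i}`.

Proof.  Take `Λ F = ∯ x in T(c, ε), F x` (Mathlib `torusIntegral`; `torusMap c ε θ ∈ T` and every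
point of `T` is of this form; continuity on `T` gives `TorusIntegrable`, as a continuous function
of `θ` on a compact cube).  Congruence and additivity are immediate.
For the two vanishing statements use Fubini with the `i`-th variable as the INNER integral:
`∯ x in T(c, ε), F x = ∯ y in T(c ∘ i.succAbove, ε ∘ i.succAbove), ∮ x in C(c i, ε i), F (i.insertNth x y)`
(proof as for Mathlib `torusIntegral_succAbove`, file Mathlib/MeasureTheory/Integral/TorusIntegral,
with `MeasureTheory.integral_prod_symm` or `setIntegral_prod` after swapping the factors).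
The inner integral of a derivative is `0` by `circleIntegral.integral_eq_zero_of_hasDerivWithinAt`
(or `integral_eq_zero_of_hasDerivAt`), and the inner integral of a constant is `0` by the same
lemma.  The product formula: induction on `N` with `torusIntegral_succ`
(or `Fin.prod_univ_succ` and `torusIntegral` of a product through
`MeasureTheory.integral_fintype_prod_eq_prod`). -/
theorem exists_torus_functional (N : ℕ) (c : Fin N → ℂ) (ε : Fin N → ℝ) (hε : ∀ i, 0 < ε i) :
    ∃ Λ : ((Fin N → ℂ) → ℂ) → ℂ,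
      (∀ F G : (Fin N → ℂ) → ℂ, (∀ x, (∀ i, ‖x i - c i‖ = ε i) → F x = G x) → Λ F = Λ G) ∧
      (∀ F G : (Fin N → ℂ) → ℂ, ContinuousOn F {x | ∀ i, ‖x i - c i‖ = ε i} →
        ContinuousOn G {x | ∀ i, ‖x i - c i‖ = ε i} → Λ (fun x => F x + G x) = Λ F + Λ G) ∧
      (∀ (i : Fin N) (G H : (Fin N → ℂ) → ℂ), ContinuousOn H {x | ∀ i, ‖x i - c i‖ = ε i} →
        (∀ x, (∀ i, ‖x i - c i‖ = ε i) →
          HasDerivAt (fun t => G (Function.update x i t)) (H x) (x i)) → Λ H = 0) ∧
      (∀ (i : Fin N) (F : (Fin N → ℂ) → ℂ), ContinuousOn F {x | ∀ i, ‖x i - c i‖ = ε i} →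
        (∀ x, (∀ i, ‖x i - c i‖ = ε i) → ∀ t : ℂ, ‖t - c i‖ = ε i →
          F (Function.update x i t) = F x) → Λ F = 0) ∧
      (∀ h : Fin N → ℂ → ℂ, (∀ i, ContinuousOn (h i) (Metric.sphere (c i) (ε i))) →
        Λ (fun x => ∏ i, h i (x i)) = ∏ i, (∮ t in C(c i, ε i), h i t)) := by
  refine ⟨fun F => ∯ x in T(c, ε), F x, fun F G h => t2tor_congr hε h,
    fun F G hF hG => torusIntegral_add (t2tor_int hε hF) (t2tor_int hε hG), ?_, ?_,
    fun h hh => t2tor_prod N c ε hε h hh⟩
  · intro i G H hH hd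
    cases N with
    | zero => exact i.elim0
    | succ n =>
      refine t2tor_zero hε hH i fun y hy => ?_
      refine circleIntegral.integral_eq_zero_of_hasDerivWithinAt
        (f := fun t => G (i.insertNth t y)) (hε i).le fun t ht => ?_
      have h1 := hd (i.insertNth t y) (t2tor_ins i hy ht)
      simp only [Fin.update_insertNth, Fin.insertNth_apply_same] at h1
      exact h1.hasDerivWithinAt
  · intro i F hF hd
    cases N with
    | zero => exact i.elim0
    | succ n =>
      refine t2tor_zero hε hF i fun y hy => ?_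
      have h0 : c i + ε i ∈ Metric.sphere (c i) (ε i) := by
        simp [abs_of_pos (hε i)]
      have h1 : Set.EqOn (fun t => F (i.insertNth t y)) (fun _ => F (i.insertNth (c i + ε i) y))
          (Metric.sphere (c i) (ε i)) := by
        intro t ht
        have h2 := hd (i.insertNth (c i + ε i) y) (t2tor_ins i hy h0) t (by
          rwa [Metric.mem_sphere, dist_eq_norm] at ht)
        rwa [Fin.update_insertNth] at h2
      rw [circleIntegral.integral_congr (hε i).le h1]
      refine circleIntegral.integral_eq_zero_of_hasDerivWithinAt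
        (f := fun t => F (i.insertNth (c i + ε i) y) * t) (hε i).le fun t _ => ?_
      simpa using ((hasDerivAt_id t).const_mul (F (i.insertNth (c i + ε i) y))).hasDerivWithinAt

end MP1eadae
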