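import Mathlib
import Pool.Agent.Lib_MP_1eadae_ag.Real
import Pool.Agent.Lib_MP_1eadae_ag.T2Rad
import Pool.Agent.Lib_MP_1eadae_ag.T2Tor

/-! # MP_1eadae_ag, piece T2LOW: a product of functions with a nonzero residue is not a
combination of Stokes relations in the same number of variables -/

namespace MP1eadae

/-- Rational functions which only depend on the first `N` variables. -/
theorem t2low_rat {N : ℕ} {G : (ℕ → ℝ) → ℂ} (hG : G ∈ RatFn ℂ) (hd : DepLT N G) :
    ∃ P Q : MvPolynomial (Fin N) ℂ, ∀ x ∈ Cube,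
      MvPolynomial.eval (fun j : Fin N => (x j : ℂ)) Q ≠ 0 ∧
      G x = MvPolynomial.eval (fun j : Fin N => (x j : ℂ)) P /
        MvPolynomial.eval (fun j : Fin N => (x j : ℂ)) Q := by
  obtain ⟨P, Q, h⟩ := hG
  set φ : ℕ → MvPolynomial (Fin N) ℂ := fun j => if h : j < N then MvPolynomial.X ⟨j, h⟩ else 0
    with hφ
  refine ⟨MvPolynomial.aeval φ P, MvPolynomial.aeval φ Q, fun x hx => ?_⟩
  set x' : ℕ → ℝ := fun j => if j < N then x j else 0 with hx'
  have hx'C : x' ∈ Cube := by
    intro j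
    by_cases hj : j < N
    · simpa [hx', hj] using hx j
    · simp [hx', hj]
  have hev : ∀ R : MvPolynomial ℕ ℂ, MvPolynomial.eval (fun j : Fin N => (x j : ℂ))
      (MvPolynomial.aeval φ R) = peval R x' := by
    intro R
    have h1 : MvPolynomial.eval (fun j : Fin N => (x j : ℂ)) (MvPolynomial.aeval φ R) =
        MvPolynomial.aeval (fun j : Fin N => (x j : ℂ)) (MvPolynomial.aeval φ R) := by
      rw [MvPolynomial.aeval_eq_eval]
    rw [h1, MvPolynomial.comp_aeval_apply]
    unfold peval
    congr 1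
    congr 1
    funext j
    by_cases hj : j < N
    · simp [hφ, hx', hj]
    · simp [hφ, hx', hj]
  have h2 : G x = G x' := hd x hx x' hx'C (fun i hi => by simp [hx', hi])
  rw [hev, hev, h2]
  exact h x' hx'C

/-- Derivative of a polynomial in one variable. -/
theorem t2low_deriv {N : ℕ} (i : Fin N) (z : Fin N → ℂ) (R : MvPolynomial (Fin N) ℂ) (t : ℂ) :
    HasDerivAt (fun t => MvPolynomial.eval (Function.update z i t) R)
      (MvPolynomial.eval (Function.update z i t) (MvPolynomial.pderiv i R)) t := by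
  induction R using MvPolynomial.induction_on with
  | C a => simpa using hasDerivAt_const t a
  | add p q hp hq =>
    simp only [map_add]
    exact hp.add hq
  | mul_X p j hp =>
    have hX : HasDerivAt (fun t => MvPolynomial.eval (Function.update z i t)
        (MvPolynomial.X j : MvPolynomial (Fin N) ℂ))
        (MvPolynomial.eval (Function.update z i t)
          (MvPolynomial.pderiv i (MvPolynomial.X j : MvPolynomial (Fin N) ℂ))) t := by
      by_cases hj : j = i
      · subst hj
        simp only [MvPolynomial.eval_X, Function.update_self, MvPolynomial.pderiv_X_self, map_one]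
        exact hasDerivAt_id' t
      · have h1 : MvPolynomial.pderiv i (MvPolynomial.X j : MvPolynomial (Fin N) ℂ) = 0 :=
          MvPolynomial.pderiv_X_of_ne hj
        rw [h1]
        simpa [hj] using hasDerivAt_const t (z j)
    have h2 := hp.mul hX
    have h3 : (fun t => MvPolynomial.eval (Function.update z i t) (p * MvPolynomial.X j)) =
        (fun t => MvPolynomial.eval (Function.update z i t) p) *
          fun t => MvPolynomial.eval (Function.update z i t) (MvPolynomial.X j) := by
      funext t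
      simp
    rw [h3]
    refine h2.congr_deriv ?_
    rw [Derivation.leibniz, smul_eq_mul, smul_eq_mul, map_add, map_mul, map_mul]
    ring

/-- Derivative of a rational function in one variable. -/
theorem t2low_deriv' {N : ℕ} (i : Fin N) (z : Fin N → ℂ) (P Q : MvPolynomial (Fin N) ℂ)
    (hQ : MvPolynomial.eval z Q ≠ 0) :
    HasDerivAt (fun t => MvPolynomial.eval (Function.update z i t) P /
      MvPolynomial.eval (Function.update z i t) Q)
      (MvPolynomial.eval z (MvPolynomial.pderiv i P * Q - P * MvPolynomial.pderiv i Q) /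
        MvPolynomial.eval z Q ^ 2) (z i) := by
  have h1 := t2low_deriv i z P (z i)
  have h2 := t2low_deriv i z Q (z i)
  have h3 : MvPolynomial.eval (Function.update z i (z i)) Q ≠ 0 := by
    rwa [Function.update_eq_self]
  have h4 := h1.div h2 h3
  refine h4.congr_deriv ?_
  rw [Function.update_eq_self, map_sub, map_mul, map_mul]

theorem t2low_cube {x : ℕ → ℝ} (hx : x ∈ Cube) (i : ℕ) {t : ℝ} (ht : t ∈ Set.Icc (0 : ℝ) 1) :
    Function.update x i t ∈ Cube := by
  intro j
  by_cases hj : j = i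
  · subst hj
    simpa using ht
  · simpa [hj] using hx j

theorem t2low_restr {N : ℕ} (x : ℕ → ℝ) (i : Fin N) (t : ℝ) :
    (fun j : Fin N => ((Function.update x (i : ℕ) t j : ℝ) : ℂ)) =
      Function.update (fun j : Fin N => (x j : ℂ)) i (t : ℂ) := by
  funext j
  by_cases hj : j = i
  · subst hj
    simp
  · have h1 : (j : ℕ) ≠ (i : ℕ) := fun h => hj (Fin.ext h)
    simp [hj, h1]

/-- One term of the combination of Stokes relations. -/
theorem t2low_term {N : ℕ} (i : ℕ) (G H : (ℕ → ℝ) → ℂ) (hG : G ∈ RatFn ℂ) (hGd : DepLT N G)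
    (hPD : PartialD i G H) :
    ∃ (K : (Fin N → ℂ) → ℂ) (A D : MvPolynomial (Fin N) ℂ),
      (∀ x ∈ Cube, MvPolynomial.eval (fun j : Fin N => (x j : ℂ)) D ≠ 0) ∧
      (∀ x ∈ Cube, K (fun j : Fin N => (x j : ℂ)) =
        H x - G (Function.update x i 1) + G (Function.update x i 0)) ∧
      (∀ z, MvPolynomial.eval z D ≠ 0 → K z * MvPolynomial.eval z D = MvPolynomial.eval z A) ∧
      ∀ (c : Fin N → ℂ) (ε : Fin N → ℝ) (Λ : ((Fin N → ℂ) → ℂ) → ℂ),
        (∀ F G : (Fin N → ℂ) → ℂ, ContinuousOn F {x | ∀ i, ‖x i - c i‖ = ε i} →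
          ContinuousOn G {x | ∀ i, ‖x i - c i‖ = ε i} → Λ (fun x => F x + G x) = Λ F + Λ G) →
        (∀ (i : Fin N) (G H : (Fin N → ℂ) → ℂ), ContinuousOn H {x | ∀ i, ‖x i - c i‖ = ε i} →
          (∀ x, (∀ i, ‖x i - c i‖ = ε i) →
            HasDerivAt (fun t => G (Function.update x i t)) (H x) (x i)) → Λ H = 0) →
        (∀ (i : Fin N) (F : (Fin N → ℂ) → ℂ), ContinuousOn F {x | ∀ i, ‖x i - c i‖ = ε i} →
          (∀ x, (∀ i, ‖x i - c i‖ = ε i) → ∀ t : ℂ, ‖t - c i‖ = ε i →
            F (Function.update x i t) = F x) → Λ F = 0) →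
        (∀ z : Fin N → ℂ, (∀ i, ‖z i - c i‖ = ε i) → MvPolynomial.eval z D ≠ 0) →
        ContinuousOn K {x | ∀ i, ‖x i - c i‖ = ε i} ∧ Λ K = 0 := by
  have h01 : (0 : ℝ) ∈ Set.Icc (0 : ℝ) 1 := by simp
  have h11 : (1 : ℝ) ∈ Set.Icc (0 : ℝ) 1 := by simp
  by_cases hi : i < N
  swap
  · refine ⟨fun _ => 0, 0, 1, ?_, ?_, ?_, ?_⟩
    · intro x _
      simp
    · intro x hx
      have hc : ∀ t ∈ Set.Icc (0 : ℝ) 1, G (Function.update x i t) = G x := by
        intro t ht
        refine hGd _ (t2low_cube hx i ht) x hx fun j hj => ?_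
        have : j ≠ i := by omega
        simp [this]
      rw [hc 1 h11, hc 0 h01]
      have h1 := hPD x hx
      have h2 : HasDerivWithinAt (fun t : ℝ => G (Function.update x i t)) 0 (Set.Icc 0 1) (x i) :=
        (hasDerivWithinAt_const (x i) (Set.Icc (0 : ℝ) 1) (G x)).congr (fun t ht => hc t ht)
          (hc (x i) (hx i))
      have h3 := (uniqueDiffOn_Icc (zero_lt_one (α := ℝ)) (x i) (hx i)).eq_deriv _ h1 h2
      rw [h3]
      ring
    · intro z _
      simp
    · intro c ε Λ hadd _ _ _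
      refine ⟨continuousOn_const, ?_⟩
      have h1 := hadd (fun _ => 0) (fun _ => 0) continuousOn_const continuousOn_const
      simp only [add_zero] at h1
      exact left_eq_add.mp h1
  · obtain ⟨P, Q, hPQ⟩ := t2low_rat hG hGd
    set i₀ : Fin N := ⟨i, hi⟩ with hi₀
    have hsub : ∃ s : ℂ → MvPolynomial (Fin N) ℂ → MvPolynomial (Fin N) ℂ, ∀ t z R,
        MvPolynomial.eval z (s t R) = MvPolynomial.eval (Function.update z i₀ t) R := by
      refine ⟨fun t R => MvPolynomial.aeval (Function.update MvPolynomial.X i₀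
        (MvPolynomial.C t)) R, fun t z R => ?_⟩
      have h1 : ∀ S : MvPolynomial (Fin N) ℂ, MvPolynomial.eval z S = MvPolynomial.aeval z S := by
        intro S
        rw [MvPolynomial.aeval_eq_eval]
      rw [h1, MvPolynomial.comp_aeval_apply]
      have h2 : (fun j => MvPolynomial.aeval z ((Function.update MvPolynomial.X i₀
          (MvPolynomial.C t) : Fin N → MvPolynomial (Fin N) ℂ) j)) = Function.update z i₀ t := by
        funext j
        by_cases hj : j = i₀
        · subst hj
          simp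
        · simp [hj]
      rw [h2, MvPolynomial.aeval_eq_eval]
    obtain ⟨s, hs⟩ := hsub
    set W : MvPolynomial (Fin N) ℂ := MvPolynomial.pderiv i₀ P * Q - P * MvPolynomial.pderiv i₀ Q
      with hW
    have hr : ∀ x ∈ Cube, ∀ t ∈ Set.Icc (0 : ℝ) 1,
        MvPolynomial.eval (Function.update (fun j : Fin N => (x j : ℂ)) i₀ (t : ℂ)) Q ≠ 0 ∧
        G (Function.update x i t) =
          MvPolynomial.eval (Function.update (fun j : Fin N => (x j : ℂ)) i₀ (t : ℂ)) P /
          MvPolynomial.eval (Function.update (fun j : Fin N => (x j : ℂ)) i₀ (t : ℂ)) Q := by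
      intro x hx t ht
      have h1 := hPQ _ (t2low_cube hx i ht)
      have h2 := t2low_restr x i₀ t
      rw [h2] at h1
      exact h1
    have hH : ∀ x ∈ Cube, H x = MvPolynomial.eval (fun j : Fin N => (x j : ℂ)) W /
        MvPolynomial.eval (fun j : Fin N => (x j : ℂ)) Q ^ 2 := by
      intro x hx
      have h1 := t2low_deriv' i₀ (fun j : Fin N => (x j : ℂ)) P Q (hPQ x hx).1
      have h2 : HasDerivAt (fun t : ℝ => MvPolynomial.eval (Function.update
          (fun j : Fin N => (x j : ℂ)) i₀ (t : ℂ)) P / MvPolynomial.eval (Function.update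
          (fun j : Fin N => (x j : ℂ)) i₀ (t : ℂ)) Q)
          (MvPolynomial.eval (fun j : Fin N => (x j : ℂ)) W /
            MvPolynomial.eval (fun j : Fin N => (x j : ℂ)) Q ^ 2) (x i) := h1.comp_ofReal
      have h3 : HasDerivWithinAt (fun t : ℝ => G (Function.update x i t))
          (MvPolynomial.eval (fun j : Fin N => (x j : ℂ)) W /
            MvPolynomial.eval (fun j : Fin N => (x j : ℂ)) Q ^ 2) (Set.Icc 0 1) (x i) :=
        h2.hasDerivWithinAt.congr (fun t ht => (hr x hx t ht).2) (hr x hx (x i) (hx i)).2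
      exact (uniqueDiffOn_Icc (zero_lt_one (α := ℝ)) (x i) (hx i)).eq_deriv _ (hPD x hx) h3
    have hDz : ∀ z, MvPolynomial.eval z (Q ^ 2 * s 1 Q * s 0 Q) ≠ 0 →
        MvPolynomial.eval z Q ≠ 0 ∧ MvPolynomial.eval (Function.update z i₀ 1) Q ≠ 0 ∧
        MvPolynomial.eval (Function.update z i₀ 0) Q ≠ 0 := by
      intro z hz
      rw [map_mul, map_mul, map_pow, hs, hs] at hz
      refine ⟨fun h => hz ?_, fun h => hz ?_, fun h => hz ?_⟩
      · rw [h]; ring
      · rw [h]; ring
      · rw [h]; ring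
    refine ⟨fun z => MvPolynomial.eval z W / MvPolynomial.eval z Q ^ 2 +
        (-(MvPolynomial.eval (Function.update z i₀ 1) P /
          MvPolynomial.eval (Function.update z i₀ 1) Q) +
        MvPolynomial.eval (Function.update z i₀ 0) P /
          MvPolynomial.eval (Function.update z i₀ 0) Q),
      W * s 1 Q * s 0 Q - s 1 P * Q ^ 2 * s 0 Q + s 0 P * Q ^ 2 * s 1 Q,
      Q ^ 2 * s 1 Q * s 0 Q, ?_, ?_, ?_, ?_⟩
    · intro x hx
      rw [map_mul, map_mul, map_pow, hs, hs]
      have h1 := (hr x hx 1 h11).1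
      have h0 := (hr x hx 0 h01).1
      rw [Complex.ofReal_one] at h1
      rw [Complex.ofReal_zero] at h0
      exact mul_ne_zero (mul_ne_zero (pow_ne_zero _ (hPQ x hx).1) h1) h0
    · intro x hx
      have h1 := (hr x hx 1 h11).2
      have h0 := (hr x hx 0 h01).2
      rw [Complex.ofReal_one] at h1
      rw [Complex.ofReal_zero] at h0
      simp only
      rw [h1, h0, hH x hx]
      ring
    · intro z hz
      obtain ⟨h1, h2, h3⟩ := hDz z hz
      simp only [map_mul, map_add, map_sub, map_pow, hs]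
      field_simp
      ring
    · intro c ε Λ hadd hder hind hD
      have hz : ∀ z ∈ {x : Fin N → ℂ | ∀ i, ‖x i - c i‖ = ε i}, MvPolynomial.eval z Q ≠ 0 ∧
          MvPolynomial.eval (Function.update z i₀ 1) Q ≠ 0 ∧
          MvPolynomial.eval (Function.update z i₀ 0) Q ≠ 0 := fun z hz => hDz z (hD z hz)
      have hu : ∀ (t : ℂ) (R : MvPolynomial (Fin N) ℂ),
          Continuous fun z : Fin N → ℂ => MvPolynomial.eval (Function.update z i₀ t) R :=
        fun t R => (MvPolynomial.continuous_eval R).comp (continuous_id.update i₀ continuous_const)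
      have c1 : ContinuousOn (fun z : Fin N → ℂ => MvPolynomial.eval z W /
          MvPolynomial.eval z Q ^ 2) {x | ∀ i, ‖x i - c i‖ = ε i} :=
        (MvPolynomial.continuous_eval W).continuousOn.div
          ((MvPolynomial.continuous_eval Q).pow 2).continuousOn
          fun z hz' => pow_ne_zero _ (hz z hz').1
      have c2 : ContinuousOn (fun z : Fin N → ℂ =>
          (-(MvPolynomial.eval (Function.update z i₀ 1) P /
            MvPolynomial.eval (Function.update z i₀ 1) Q) +
          MvPolynomial.eval (Function.update z i₀ 0) P /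
            MvPolynomial.eval (Function.update z i₀ 0) Q)) {x | ∀ i, ‖x i - c i‖ = ε i} :=
        (((hu 1 P).continuousOn.div (hu 1 Q).continuousOn fun z hz' => (hz z hz').2.1).neg).add
          ((hu 0 P).continuousOn.div (hu 0 Q).continuousOn fun z hz' => (hz z hz').2.2)
      refine ⟨c1.add c2, ?_⟩
      rw [hadd _ _ c1 c2]
      have l1 := hder i₀ (fun z => MvPolynomial.eval z P / MvPolynomial.eval z Q) _ c1
        fun z hz' => t2low_deriv' i₀ z P Q (hz z hz').1
      have l2 := hind i₀ _ c2 fun z _ t _ => by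
        simp only [Function.update_idem]
      rw [l1, l2, add_zero]

/-- A continuous additive functional that vanishes on the terms vanishes on the sum. -/
theorem t2low_sum {N m : ℕ} {T : Set (Fin N → ℂ)} {Λ : ((Fin N → ℂ) → ℂ) → ℂ}
    (hadd : ∀ F G : (Fin N → ℂ) → ℂ, ContinuousOn F T → ContinuousOn G T →
      Λ (fun x => F x + G x) = Λ F + Λ G) (K : Fin m → (Fin N → ℂ) → ℂ)
    (hK : ∀ l, ContinuousOn (K l) T ∧ Λ (K l) = 0) (s : Finset (Fin m)) :
    ContinuousOn (fun z => ∑ l ∈ s, K l z) T ∧ Λ (fun z => ∑ l ∈ s, K l z) = 0 := by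
  classical
  induction s using Finset.induction_on with
  | empty =>
    simp only [Finset.sum_empty]
    refine ⟨continuousOn_const, ?_⟩
    have h1 := hadd (fun _ => 0) (fun _ => 0) continuousOn_const continuousOn_const
    simp only [add_zero] at h1
    exact left_eq_add.mp h1
  | insert a s ha ih =>
    have h1 : (fun z => ∑ l ∈ insert a s, K l z) = fun z => K a z + ∑ l ∈ s, K l z := by
      funext z
      rw [Finset.sum_insert ha]
    rw [h1]
    refine ⟨(hK a).1.add ih.1, ?_⟩
    rw [hadd _ _ (hK a).1 ih.1, (hK a).2, ih.2, add_zero]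

/-- The residue. -/
theorem t2low_res (a c : ℂ) (p q : Polynomial ℂ) {ε : ℝ} (hε : 0 < ε)
    (hq : ∀ t, ‖t - c‖ ≤ ε → q.eval t ≠ 0) :
    ContinuousOn (fun t => a / (t - c) + p.eval t / q.eval t) (Metric.sphere c ε) ∧
    (∮ t in C(c, ε), (a / (t - c) + p.eval t / q.eval t)) = 2 * Real.pi * Complex.I * a := by
  have h1 : ContinuousOn (fun t : ℂ => a / (t - c)) (Metric.sphere c ε) := by
    refine continuousOn_const.div (continuousOn_id.sub continuousOn_const) fun t ht => ?_
    rw [Metric.mem_sphere, dist_eq_norm] at ht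
    intro h
    have h' : t - c = 0 := h
    rw [h', norm_zero] at ht
    exact hε.ne ht
  have h2 : ContinuousOn (fun t : ℂ => p.eval t / q.eval t) (Metric.closedBall c ε) := by
    refine p.continuous.continuousOn.div q.continuous.continuousOn fun t ht => hq t ?_
    rwa [Metric.mem_closedBall, dist_eq_norm] at ht
  have h2' : ContinuousOn (fun t : ℂ => p.eval t / q.eval t) (Metric.sphere c ε) :=
    h2.mono Metric.sphere_subset_closedBall
  refine ⟨h1.add h2', ?_⟩
  rw [circleIntegral.integral_add (h1.circleIntegrable hε.le) (h2'.circleIntegrable hε.le)]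
  have h3 : (∮ t in C(c, ε), p.eval t / q.eval t) = 0 := by
    refine Complex.circleIntegral_eq_zero_of_differentiable_on_off_countable hε.le
      Set.countable_empty h2 fun t ht => ?_
    refine p.differentiable.differentiableAt.div q.differentiable.differentiableAt (hq t ?_)
    have := Metric.ball_subset_closedBall ht.1
    rwa [Metric.mem_closedBall, dist_eq_norm] at this
  have h4 : (∮ t in C(c, ε), a / (t - c)) = 2 * Real.pi * Complex.I * a := by
    have h5 : (fun t : ℂ => a / (t - c)) = fun t => a * (t - c)⁻¹ := by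
      funext t
      rw [div_eq_mul_inv]
    rw [h5, circleIntegral.integral_const_mul, circleIntegral.integral_sub_center_inv c hε.ne']
    ring
  rw [h3, h4, add_zero]

/-- Piece T2LOW.  Let `h_i(x) = a_i/(x-c_i) + p_i(x)/q_i(x)` (`i < N`) be one-variable rational
functions with `a_i ≠ 0`, `q_i(c_i) ≠ 0`.  Then no function `F` with
`F x = ∏_{i<N} h_i(x_i)` on the cube is a combination of Stokes relations between rational
functions (even with complex coefficients) of `N` variables.  (`N ≥ 1`; for `N = 0` the product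
is `1`.)

Proof.  Suppose `F x = ∑_l (H_l x - G_l(x_{i_l} := 1) + G_l(x_{i_l} := 0))` on `Cube`, `G_l, H_l` in
`RatFn ℂ` and `DepLT N`.
(1) Reduction to polynomials in `Fin N`: for `G ∈ RatFn ℂ`, `DepLT N G`, say `G = P/Q`, substitute
`X_j := 0` for `j ≥ N`: `G x = G (x_0..x_{N-1},0,0,..) = P'(x)/Q'(x)` with
`P', Q' : MvPolynomial (Fin N) ℂ`, `Q'` without zero on the real cube of dimension `N`.
(2) The partial derivative `H_l` (`i_l < N`) agrees on the cube with `(∂P' Q' - P' ∂Q')/Q'^2`
(uniqueness of derivatives on `[0,1]`, `uniqueDiffOn_Icc`; the complex derivative of the rational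
function restricted to real points, `HasDerivAt.comp_ofReal`).  If `i_l ≥ N` then `H_l = 0` on the
cube and the two other terms cancel, so such `l` contribute `0`.
(3) The faces: `G_l(x_i := 1) = P'(x_i:=1)/Q'(x_i:=1)`, polynomials not involving `x_i`; the
denominators are nonzero polynomials as they have no zero on the real cube.
(4) So the identity is an identity between rational functions on the real cube; after clearing
denominators it is a polynomial identity on `[0,1]^N`, hence an identity of polynomials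
(`MvPolynomial.funext_set` / `MvPolynomial.funext_of_infinite`-type lemma), hence it holds at every
point of `ℂ^N` where no denominator vanishes.
(5) The denominators to avoid: all `Q'_l`, `Q'_l(x_i := 1)`, `Q'_l(x_i := 0)`, `q_i(x_i)`, `x_i - c_i`
(nonzero polynomials).  Let `ε` be radii as in `exists_radii` with `ρ` so small that `q_i` has no zero
in the closed disc `|x - c_i| ≤ ρ`, and `Λ` the functional of `exists_torus_functional`.
`Λ` of the right hand side is `0` (derivatives and functions independent of `x_i`), and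
`Λ F = ∏_i ∮ h_i = ∏_i (2 π i a_i) ≠ 0` since `∮ a_i/(x-c_i) = 2π i a_i`
(`circleIntegral.integral_sub_center_inv`) and `p_i/q_i` is holomorphic on the closed disc
(`DiffContOnCl.circleIntegral_eq_zero` or `Complex.circleIntegral_eq_zero_of_differentiable_on_off_countable`).
Contradiction. -/
theorem prod_not_mem_stokesSpan (N : ℕ) (hN : 1 ≤ N) (a c : ℕ → ℂ) (p q : ℕ → Polynomial ℂ)
    (ha : ∀ i < N, a i ≠ 0) (hq : ∀ i < N, (q i).eval (c i) ≠ 0)
    (F : (ℕ → ℝ) → ℂ)
    (hF : ∀ x ∈ Cube, ∀ i < N, (x i : ℂ) ≠ c i ∧ (q i).eval (x i : ℂ) ≠ 0)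
    (hF2 : ∀ x ∈ Cube, F x = ∏ i ∈ Finset.range N,
      (a i / ((x i : ℂ) - c i) + (p i).eval (x i : ℂ) / (q i).eval (x i : ℂ))) :
    F ∉ StokesSpan {G | G ∈ RatFn ℂ ∧ DepLT N G} := by
  rintro ⟨m, i, G, H, hGH, hsum⟩
  choose K A D hD hK hKD hΛ using fun l => t2low_term (N := N) (i l) (G l) (H l) (hGH l).1.1
    (hGH l).1.2 (hGH l).2.2
  have : Nonempty (Fin N) := ⟨⟨0, hN⟩⟩
  -- the product
  obtain ⟨B₀, hB₀⟩ : ∃ B₀ : MvPolynomial (Fin N) ℂ, B₀ = ∏ j : Fin N,
    ((MvPolynomial.X j - MvPolynomial.C (c j)) *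
    Polynomial.aeval (MvPolynomial.X j) (q j)) := ⟨_, rfl⟩
  obtain ⟨A₀, hA₀⟩ : ∃ A₀ : MvPolynomial (Fin N) ℂ, A₀ = ∏ j : Fin N, (MvPolynomial.C (a j) *
    Polynomial.aeval (MvPolynomial.X j) (q j) +
      Polynomial.aeval (MvPolynomial.X j) (p j) * (MvPolynomial.X j - MvPolynomial.C (c j))) :=
    ⟨_, rfl⟩
  have hev : ∀ (z : Fin N → ℂ) (j : Fin N) (R : Polynomial ℂ),
      MvPolynomial.eval z (Polynomial.aeval (MvPolynomial.X j : MvPolynomial (Fin N) ℂ) R) =
        R.eval (z j) := by
    intro z j R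
    have h1 : MvPolynomial.eval z (Polynomial.aeval (MvPolynomial.X j : MvPolynomial (Fin N) ℂ) R)
        = MvPolynomial.aeval z (Polynomial.aeval (MvPolynomial.X j : MvPolynomial (Fin N) ℂ) R) := by
      rw [MvPolynomial.aeval_eq_eval]
    rw [h1, ← Polynomial.aeval_algHom_apply, MvPolynomial.aeval_X, Polynomial.coe_aeval_eq_eval]
  have hB₀e : ∀ z : Fin N → ℂ, MvPolynomial.eval z B₀ = ∏ j : Fin N, ((z j - c j) *
      (q j).eval (z j)) := by
    intro z
    rw [hB₀, map_prod]
    refine Finset.prod_congr rfl fun j _ => ?_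
    rw [map_mul, hev, map_sub, MvPolynomial.eval_X, MvPolynomial.eval_C]
  have hA₀e : ∀ z : Fin N → ℂ, MvPolynomial.eval z A₀ = ∏ j : Fin N, (a j * (q j).eval (z j) +
      (p j).eval (z j) * (z j - c j)) := by
    intro z
    rw [hA₀, map_prod]
    refine Finset.prod_congr rfl fun j _ => ?_
    rw [map_add, map_mul, map_mul, hev, hev, map_sub, MvPolynomial.eval_X, MvPolynomial.eval_C,
      MvPolynomial.eval_C]
  obtain ⟨F', hF'⟩ : ∃ F' : (Fin N → ℂ) → ℂ, F' = fun z => ∏ j : Fin N,
    (a j / (z j - c j) + (p j).eval (z j) / (q j).eval (z j)) := ⟨_, rfl⟩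
  have hF'e : ∀ z, MvPolynomial.eval z B₀ ≠ 0 →
      F' z * MvPolynomial.eval z B₀ = MvPolynomial.eval z A₀ := by
    intro z hz
    rw [hB₀e, Finset.prod_ne_zero_iff] at hz
    rw [hB₀e, hA₀e, hF']
    simp only
    rw [← Finset.prod_mul_distrib]
    refine Finset.prod_congr rfl fun j hj => ?_
    have h1 := hz j hj
    have h2 : z j - c j ≠ 0 := left_ne_zero_of_mul h1
    have h3 : (q j).eval (z j) ≠ 0 := right_ne_zero_of_mul h1
    field_simp
  -- common denominator
  obtain ⟨DD, hDD⟩ : ∃ DD : MvPolynomial (Fin N) ℂ, DD = B₀ * ∏ l, D l := ⟨_, rfl⟩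
  obtain ⟨AA, hAA⟩ : ∃ AA : MvPolynomial (Fin N) ℂ, AA = A₀ * ∏ l, D l -
    B₀ * ∑ l, A l * ∏ l' ∈ Finset.univ.erase l, D l' := ⟨_, rfl⟩
  have hDDe : ∀ z, MvPolynomial.eval z DD ≠ 0 → MvPolynomial.eval z B₀ ≠ 0 ∧
      ∀ l, MvPolynomial.eval z (D l) ≠ 0 := by
    intro z hz
    rw [hDD, map_mul, map_prod] at hz
    exact ⟨left_ne_zero_of_mul hz, fun l =>
      Finset.prod_ne_zero_iff.1 (right_ne_zero_of_mul hz) l (Finset.mem_univ l)⟩
  have hWW : ∀ z, MvPolynomial.eval z DD ≠ 0 →
      (F' z - ∑ l, K l z) * MvPolynomial.eval z DD = MvPolynomial.eval z AA := by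
    intro z hz
    obtain ⟨h1, h2⟩ := hDDe z hz
    have h3 : (∑ l, K l z) * ∏ l, MvPolynomial.eval z (D l) =
        ∑ l, MvPolynomial.eval z (A l) * ∏ l' ∈ Finset.univ.erase l, MvPolynomial.eval z (D l') := by
      rw [Finset.sum_mul]
      refine Finset.sum_congr rfl fun l _ => ?_
      rw [← Finset.mul_prod_erase Finset.univ _ (Finset.mem_univ l), ← hKD l z (h2 l)]
      ring
    rw [hDD, hAA]
    simp only [map_mul, map_sub, map_sum, map_prod]
    rw [← hF'e z h1, ← h3]
    ring
  -- the identity on the cube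
  have hcubeD : ∀ x ∈ Cube, MvPolynomial.eval (fun j : Fin N => (x j : ℂ)) DD ≠ 0 := by
    intro x hx
    rw [hDD, map_mul, map_prod, hB₀e]
    refine mul_ne_zero (Finset.prod_ne_zero_iff.2 fun j _ => ?_)
      (Finset.prod_ne_zero_iff.2 fun l _ => hD l x hx)
    obtain ⟨h1, h2⟩ := hF x hx j j.2
    exact mul_ne_zero (sub_ne_zero.2 h1) h2
  have hcube : ∀ x ∈ Cube, MvPolynomial.eval (fun j : Fin N => (x j : ℂ)) AA = 0 := by
    intro x hx
    rw [← hWW _ (hcubeD x hx)]
    have h1 : F' (fun j : Fin N => (x j : ℂ)) = F x := by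
      rw [hF2 x hx, Finset.prod_range, hF']
    have h2 : ∑ l, K l (fun j : Fin N => (x j : ℂ)) = F x := by
      rw [hsum x hx]
      exact Finset.sum_congr rfl fun l _ => hK l x hx
    rw [h1, h2, sub_self, zero_mul]
  have hAA0 : AA = 0 := by
    refine MvPolynomial.funext_set (fun _ => (fun t : ℝ => (t : ℂ)) '' Set.Icc (0 : ℝ) 1)
      (fun _ => ?_) fun z hz => ?_
    · exact (Set.Icc_infinite (zero_lt_one (α := ℝ))).image
        (Complex.ofReal_injective.injOn)
    · rw [map_zero]
      have h1 : ∀ j, ∃ t ∈ Set.Icc (0 : ℝ) 1, (t : ℂ) = z j := fun j => hz j (Set.mem_univ j)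
      choose t ht htz using h1
      have h2 : (fun j : ℕ => if h : j < N then t ⟨j, h⟩ else 0) ∈ Cube := by
        intro j
        by_cases hj : j < N
        · simpa [hj] using ht ⟨j, hj⟩
        · simp [hj]
      have h3 := hcube _ h2
      have h4 : (fun j : Fin N => (((if h : (j : ℕ) < N then t ⟨j, h⟩ else 0 : ℝ)) : ℂ)) = z := by
        funext j
        simp [← htz j]
      rw [h4] at h3
      exact h3
  have hDD0 : DD ≠ 0 := by
    intro h
    have h1 := hcubeD (fun _ => 0) (fun _ => by simp)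
    rw [h, map_zero] at h1
    exact h1 rfl
  -- radii
  have hρ : ∀ j : Fin N, ∃ ρ > 0, ∀ t, ‖t - c j‖ ≤ ρ → (q j).eval t ≠ 0 := by
    intro j
    have h1 : ∀ᶠ t in nhds (c j), (q j).eval t ≠ 0 :=
      (q j).continuous.continuousAt.eventually_ne (hq j j.2)
    obtain ⟨ρ, hρ, h2⟩ := Metric.eventually_nhds_iff.1 h1
    refine ⟨ρ / 2, half_pos hρ, fun t ht => h2 ?_⟩
    rw [dist_eq_norm]
    linarith
  choose ρ hρ0 hρq using hρ
  obtain ⟨j₀, hj₀⟩ := Finite.exists_min ρ
  obtain ⟨ε, hε, hεD⟩ := exists_radii N {DD} (fun Q hQ => by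
    rw [Finset.mem_singleton] at hQ; rw [hQ]; exact hDD0) (fun j => c j) (ρ j₀) (hρ0 j₀)
  have hεD' : ∀ z : Fin N → ℂ, (∀ j, ‖z j - c j‖ = ε j) → MvPolynomial.eval z DD ≠ 0 :=
    hεD DD (Finset.mem_singleton_self _)
  obtain ⟨Λ, h1, h2, h3, h4, h5⟩ := exists_torus_functional N (fun j => c j) ε fun j => (hε j).1
  have hKl : ∀ l, ContinuousOn (K l) {x | ∀ j : Fin N, ‖x j - c j‖ = ε j} ∧ Λ (K l) = 0 :=
    fun l => hΛ l (fun j => c j) ε Λ h2 h3 h4 fun z hz => (hDDe z (hεD' z hz)).2 l
  have hΛ0 : Λ F' = 0 := by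
    rw [h1 F' (fun z => ∑ l, K l z) fun z hz => ?_]
    · exact (t2low_sum h2 K hKl Finset.univ).2
    · have h6 := hWW z (hεD' z hz)
      rw [hAA0, map_zero] at h6
      exact sub_eq_zero.1 ((mul_eq_zero.1 h6).resolve_right (hεD' z hz))
  have hres := fun j : Fin N => t2low_res (a j) (c j) (p j) (q j) (hε j).1 fun t ht =>
    hρq j t (ht.trans ((hε j).2.le.trans (hj₀ j)))
  have h6 := h5 (fun (j : Fin N) t => a j / (t - c j) + (p j).eval t / (q j).eval t)
    fun j => (hres j).1
  have h7 : Λ F' = ∏ j : Fin N, (2 * Real.pi * Complex.I * a j) := by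
    rw [hF', h6]
    exact Finset.prod_congr rfl fun j _ => (hres j).2
  rw [hΛ0] at h7
  exact absurd h7.symm (Finset.prod_ne_zero_iff.2 fun j _ =>
    mul_ne_zero (mul_ne_zero (mul_ne_zero two_ne_zero
      (Complex.ofReal_ne_zero.2 Real.pi_ne_zero)) Complex.I_ne_zero) (ha j j.2))

end MP1eadae
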