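import Mathlib
import Pool.Agent.Lib_MP_1eadae_ag.Defs
import Pool.Agent.Lib_MP_1eadae_ag.T2Rad
import Pool.Agent.Lib_MP_1eadae_ag.T2Tor
import Pool.Agent.Lib_MP_1eadae_ag.T2Low

/-! # MP_1eadae_ag, piece N3: products with residues are not sums of derivatives of rational functions -/

namespace MP1eadaeL

open Complex Function

/-- the segment is infinite -/
theorem n3_seg_infinite : (seg : Set ℂ).Infinite :=
  (Set.Icc_infinite (zero_lt_one (α := ℝ))).image (Complex.ofReal_injective.injOn)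

/-- clearing denominators -/
theorem n3_clear {K : Subfield ℂ} {N m : ℕ} (P0 Q0 : MvPolynomial (Fin N) K) (hQ0 : Q0 ≠ 0)
    (W Q : Fin m → MvPolynomial (Fin N) K) (hQ : ∀ l, Q l ≠ 0)
    (hid : algebraMap (MvPolynomial (Fin N) K) (FractionRing (MvPolynomial (Fin N) K)) P0 /
        algebraMap (MvPolynomial (Fin N) K) (FractionRing (MvPolynomial (Fin N) K)) Q0 =
      ∑ l, algebraMap (MvPolynomial (Fin N) K) (FractionRing (MvPolynomial (Fin N) K)) (W l) /
        algebraMap (MvPolynomial (Fin N) K) (FractionRing (MvPolynomial (Fin N) K)) (Q l) ^ 2) :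
    P0 * ∏ l, Q l ^ 2 = Q0 * ∑ l, W l * ∏ l' ∈ Finset.univ.erase l, Q l' ^ 2 := by
  classical
  set φ := algebraMap (MvPolynomial (Fin N) K) (FractionRing (MvPolynomial (Fin N) K)) with hφ
  have hinj : Function.Injective φ := IsFractionRing.injective _ _
  have h0 : ∀ R : MvPolynomial (Fin N) K, R ≠ 0 → φ R ≠ 0 := fun R hR h =>
    hR (hinj (by rw [h, map_zero]))
  apply hinj
  rw [div_eq_iff (h0 Q0 hQ0)] at hid
  rw [map_mul, hid, map_mul, map_sum, map_prod, mul_comm (φ Q0), mul_right_comm, Finset.sum_mul]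
  congr 1
  refine Finset.sum_congr rfl fun l _ => ?_
  rw [← Finset.mul_prod_erase Finset.univ _ (Finset.mem_univ l), map_mul, map_prod, map_pow]
  have h1 : φ (Q l) ≠ 0 := h0 _ (hQ l)
  field_simp

/-- Piece N3.  `N ≥ 1`.  A rational function `P0/Q0` which equals
`∏_j (a_j/(z_j - c_j) + p_j(z_j)/q_j(z_j))` (where the right side is defined), with `a_j ≠ 0`,
`q_j(c_j) ≠ 0`, is not a sum of partial derivatives of rational functions.

Proof.  `FractionRing` identity, clear denominators, apply `MvPolynomial.map` of `K → ℂ`: the identity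
`P0/Q0 = ∑_l ((∂P_l) Q_l - P_l ∂Q_l)/Q_l^2` holds at every point of `ℂ^N` where `Q0` and all `Q_l` do not
vanish; also `P0 · ∏_j ((z_j - c_j) q_j(z_j)) = Q0 · ∏_j (a_j q_j(z_j) + (z_j - c_j) p_j(z_j))` holds on the cube
where `z_j ≠ c_j`, `q_j(z_j) ≠ 0`, so (product of infinite sets) as polynomials.  Radii `ε` from
`MP1eadae.exists_radii` for the polynomials `Q0`, `Q_l` (over `ℂ`), `ρ` so small that `q_j ≠ 0` on
`|x - c_j| ≤ ρ`; functional `Λ` from `MP1eadae.exists_torus_functional`.  `Λ` of each partial derivative is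
`0`, `Λ` of the product is `∏ ∮ (a_j/(x-c_j) + p_j/q_j) = ∏ 2π i a_j ≠ 0` (compare the proof of `T2Low`, file
T2Low.lean, from which code may be copied). -/
theorem prod_not_sum_derivatives {K : Subfield ℂ} {N m : ℕ} (hN : 1 ≤ N) (a c : Fin N → ℂ)
    (p q : Fin N → Polynomial ℂ) (ha : ∀ j, a j ≠ 0) (hq : ∀ j, (q j).eval (c j) ≠ 0)
    (P0 Q0 : MvPolynomial (Fin N) K) (hQ0 : Q0 ≠ 0)
    (hF : ∀ z : CubeT N, (∀ j, z.1 j ≠ c j ∧ (q j).eval (z.1 j) ≠ 0) →
      (MvPolynomial.aeval z.1 P0 : ℂ) = MvPolynomial.aeval z.1 Q0 *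
        ∏ j, (a j / (z.1 j - c j) + (p j).eval (z.1 j) / (q j).eval (z.1 j)))
    (i : Fin m → Fin N) (P Q : Fin m → MvPolynomial (Fin N) K) (hQ : ∀ l, Q l ≠ 0)
    (hid : algebraMap (MvPolynomial (Fin N) K) (FractionRing (MvPolynomial (Fin N) K)) P0 /
        algebraMap (MvPolynomial (Fin N) K) (FractionRing (MvPolynomial (Fin N) K)) Q0 =
      ∑ l, algebraMap (MvPolynomial (Fin N) K) (FractionRing (MvPolynomial (Fin N) K))
          (MvPolynomial.pderiv (i l) (P l) * Q l - P l * MvPolynomial.pderiv (i l) (Q l)) /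
        algebraMap (MvPolynomial (Fin N) K) (FractionRing (MvPolynomial (Fin N) K)) (Q l) ^ 2) :
    False := by
  classical
  have : Nonempty (Fin N) := ⟨⟨0, hN⟩⟩
  obtain ⟨ψ, hψ⟩ : ∃ ψ : MvPolynomial (Fin N) K →+* MvPolynomial (Fin N) ℂ,
      ψ = MvPolynomial.map (algebraMap K ℂ) := ⟨_, rfl⟩
  have hψe : ∀ (z : Fin N → ℂ) (R : MvPolynomial (Fin N) K),
      (MvPolynomial.aeval z R : ℂ) = MvPolynomial.eval z (ψ R) := by
    intro z R
    rw [hψ, MvPolynomial.eval_map, MvPolynomial.aeval_def]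
  have hψi : Function.Injective ψ := by
    rw [hψ]
    exact MvPolynomial.map_injective _ (algebraMap K ℂ).injective
  have hψ0 : ∀ R : MvPolynomial (Fin N) K, R ≠ 0 → ψ R ≠ 0 := fun R hR h =>
    hR (hψi (by rw [h, map_zero]))
  have hclear := congrArg ψ (n3_clear P0 Q0 hQ0 _ Q hQ hid)
  -- the product
  obtain ⟨B₀, hB₀⟩ : ∃ B₀ : MvPolynomial (Fin N) ℂ, B₀ = ∏ j : Fin N,
    ((MvPolynomial.X j - MvPolynomial.C (c j)) *
    Polynomial.aeval (MvPolynomial.X j) (q j)) := ⟨_, rfl⟩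
  obtain ⟨A₀, hA₀⟩ : ∃ A₀ : MvPolynomial (Fin N) ℂ, A₀ = ∏ j : Fin N, (MvPolynomial.C (a j) *
    Polynomial.aeval (MvPolynomial.X j) (q j) +
      Polynomial.aeval (MvPolynomial.X j) (p j) * (MvPolynomial.X j - MvPolynomial.C (c j))) :=
    ⟨_, rfl⟩
  have hev : ∀ (z : Fin N → ℂ) (j : Fin N) (R : Polynomial ℂ),
      MvPolynomial.eval z (Polynomial.aeval (MvPolynomial.X j : MvPolynomial (Fin N) ℂ) R) =
        R.eval (z j) := by
    intro z j R
    have h1 : MvPolynomial.eval z (Polynomial.aeval (MvPolynomial.X j : MvPolynomial (Fin N) ℂ) R)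
        = MvPolynomial.aeval z (Polynomial.aeval (MvPolynomial.X j : MvPolynomial (Fin N) ℂ) R) := by
      rw [MvPolynomial.aeval_eq_eval]
    rw [h1, ← Polynomial.aeval_algHom_apply, MvPolynomial.aeval_X, Polynomial.coe_aeval_eq_eval]
  have hB₀e : ∀ z : Fin N → ℂ, MvPolynomial.eval z B₀ = ∏ j : Fin N, ((z j - c j) *
      (q j).eval (z j)) := by
    intro z
    rw [hB₀, map_prod]
    refine Finset.prod_congr rfl fun j _ => ?_
    rw [map_mul, hev, map_sub, MvPolynomial.eval_X, MvPolynomial.eval_C]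
  have hA₀e : ∀ z : Fin N → ℂ, MvPolynomial.eval z A₀ = ∏ j : Fin N, (a j * (q j).eval (z j) +
      (p j).eval (z j) * (z j - c j)) := by
    intro z
    rw [hA₀, map_prod]
    refine Finset.prod_congr rfl fun j _ => ?_
    rw [map_add, map_mul, map_mul, hev, hev, map_sub, MvPolynomial.eval_X, MvPolynomial.eval_C,
      MvPolynomial.eval_C]
  obtain ⟨F', hF'⟩ : ∃ F' : (Fin N → ℂ) → ℂ, F' = fun z => ∏ j : Fin N,
    (a j / (z j - c j) + (p j).eval (z j) / (q j).eval (z j)) := ⟨_, rfl⟩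
  have hF'e : ∀ z, MvPolynomial.eval z B₀ ≠ 0 →
      F' z * MvPolynomial.eval z B₀ = MvPolynomial.eval z A₀ := by
    intro z hz
    rw [hB₀e, Finset.prod_ne_zero_iff] at hz
    rw [hB₀e, hA₀e, hF']
    simp only
    rw [← Finset.prod_mul_distrib]
    refine Finset.prod_congr rfl fun j hj => ?_
    have h1 := hz j hj
    have h2 : z j - c j ≠ 0 := left_ne_zero_of_mul h1
    have h3 : (q j).eval (z j) ≠ 0 := right_ne_zero_of_mul h1
    field_simp
  have hq0 : ∀ j, q j ≠ 0 := fun j h => hq j (by rw [h, Polynomial.eval_zero])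
  -- the polynomial identity for the product
  have hPA : ψ P0 * B₀ = ψ Q0 * A₀ := by
    refine MvPolynomial.funext_set (fun j => seg \ ({c j} ∪ {t | (q j).eval t = 0}))
      (fun j => ?_) fun z hz => ?_
    · refine n3_seg_infinite.sdiff ((Set.finite_singleton _).union ?_)
      refine (Polynomial.finite_setOfPred_isRoot (hq0 j)).subset fun t ht => ht
    · have h1 : ∀ j, z j ∈ seg ∧ z j ≠ c j ∧ (q j).eval (z j) ≠ 0 := by
        intro j
        obtain ⟨h2, h3⟩ := hz j (Set.mem_univ j)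
        exact ⟨h2, fun h => h3 (Or.inl h), fun h => h3 (Or.inr h)⟩
      have h2 := hF ⟨z, fun j => (h1 j).1⟩ fun j => (h1 j).2
      have hB : MvPolynomial.eval z B₀ ≠ 0 := by
        rw [hB₀e, Finset.prod_ne_zero_iff]
        intro j _
        exact mul_ne_zero (sub_ne_zero.2 (h1 j).2.1) (h1 j).2.2
      rw [hψe, hψe] at h2
      rw [map_mul, map_mul, h2, mul_assoc, ← hF'e z hB, hF']
  have hB₀0 : B₀ ≠ 0 := by
    rw [hB₀, Finset.prod_ne_zero_iff]
    intro j _
    refine mul_ne_zero (fun h => ?_) (fun h => ?_)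
    · have h1 := congrArg (MvPolynomial.eval (fun _ => c j + 1)) h
      rw [map_sub, MvPolynomial.eval_X, MvPolynomial.eval_C, map_zero, add_sub_cancel_left] at h1
      exact one_ne_zero h1
    · have h1 := congrArg (MvPolynomial.eval c) h
      rw [hev, map_zero] at h1
      exact hq j h1
  -- radii
  have hρ : ∀ j : Fin N, ∃ ρ > 0, ∀ t, ‖t - c j‖ ≤ ρ → (q j).eval t ≠ 0 := by
    intro j
    have h1 : ∀ᶠ t in nhds (c j), (q j).eval t ≠ 0 :=
      (q j).continuous.continuousAt.eventually_ne (hq j)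
    obtain ⟨ρ, hρ, h2⟩ := Metric.eventually_nhds_iff.1 h1
    refine ⟨ρ / 2, half_pos hρ, fun t ht => h2 ?_⟩
    rw [dist_eq_norm]
    linarith
  choose ρ hρ0 hρq using hρ
  obtain ⟨j₀, hj₀⟩ := Finite.exists_min ρ
  obtain ⟨DD, hDD⟩ : ∃ DD : MvPolynomial (Fin N) ℂ, DD = B₀ * ψ Q0 * ∏ l, ψ (Q l) := ⟨_, rfl⟩
  have hDD0 : DD ≠ 0 := by
    rw [hDD]
    exact mul_ne_zero (mul_ne_zero hB₀0 (hψ0 _ hQ0))
      (Finset.prod_ne_zero_iff.2 fun l _ => hψ0 _ (hQ l))
  obtain ⟨ε, hε, hεD⟩ := MP1eadae.exists_radii N {DD} (fun Q hQ => by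
    rw [Finset.mem_singleton] at hQ; rw [hQ]; exact hDD0) c (ρ j₀) (hρ0 j₀)
  have hεD' : ∀ z : Fin N → ℂ, (∀ j, ‖z j - c j‖ = ε j) → MvPolynomial.eval z B₀ ≠ 0 ∧
      MvPolynomial.eval z (ψ Q0) ≠ 0 ∧ ∀ l, MvPolynomial.eval z (ψ (Q l)) ≠ 0 := by
    intro z hz
    have h1 := hεD DD (Finset.mem_singleton_self _) z hz
    rw [hDD, map_mul, map_mul, map_prod] at h1
    exact ⟨left_ne_zero_of_mul (left_ne_zero_of_mul h1), right_ne_zero_of_mul
      (left_ne_zero_of_mul h1), fun l => Finset.prod_ne_zero_iff.1 (right_ne_zero_of_mul h1) l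
        (Finset.mem_univ l)⟩
  obtain ⟨Λ, h1, h2, h3, h4, h5⟩ := MP1eadae.exists_torus_functional N c ε fun j => (hε j).1
  obtain ⟨KK, hKK⟩ : ∃ KK : Fin m → (Fin N → ℂ) → ℂ, KK = fun l z => MvPolynomial.eval z
      (MvPolynomial.pderiv (i l) (ψ (P l)) * ψ (Q l) - ψ (P l) * MvPolynomial.pderiv (i l) (ψ (Q l))) /
        MvPolynomial.eval z (ψ (Q l)) ^ 2 := ⟨_, rfl⟩
  have hKl : ∀ l, ContinuousOn (KK l) {x | ∀ j : Fin N, ‖x j - c j‖ = ε j} ∧ Λ (KK l) = 0 := by
    intro l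
    have c1 : ContinuousOn (KK l) {x | ∀ j : Fin N, ‖x j - c j‖ = ε j} := by
      rw [hKK]
      exact (MvPolynomial.continuous_eval _).continuousOn.div
        ((MvPolynomial.continuous_eval _).pow 2).continuousOn
        fun z hz => pow_ne_zero _ ((hεD' z hz).2.2 l)
    refine ⟨c1, h3 (i l) (fun z => MvPolynomial.eval z (ψ (P l)) / MvPolynomial.eval z (ψ (Q l)))
      _ c1 fun z hz => ?_⟩
    rw [hKK]
    exact MP1eadae.t2low_deriv' (i l) z (ψ (P l)) (ψ (Q l)) ((hεD' z hz).2.2 l)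
  have hΛ0 : Λ F' = 0 := by
    rw [h1 F' (fun z => ∑ l, KK l z) fun z hz => ?_]
    · exact (MP1eadae.t2low_sum h2 KK hKl Finset.univ).2
    · obtain ⟨e1, e2, e3⟩ := hεD' z hz
      have e4 : MvPolynomial.eval z (ψ P0) = MvPolynomial.eval z (ψ Q0) * F' z := by
        have e5 := congrArg (MvPolynomial.eval z) hPA
        rw [map_mul, map_mul, ← hF'e z e1, ← mul_assoc] at e5
        exact mul_right_cancel₀ e1 e5
      have e6 := congrArg (MvPolynomial.eval z) hclear
      simp only [map_mul, map_sum, map_prod, map_pow] at e6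
      rw [e4, mul_assoc] at e6
      have e7 := mul_left_cancel₀ e2 e6
      have e8 : ∏ l, MvPolynomial.eval z (ψ (Q l)) ^ 2 ≠ 0 :=
        Finset.prod_ne_zero_iff.2 fun l _ => pow_ne_zero _ (e3 l)
      apply mul_right_cancel₀ e8
      rw [e7, Finset.sum_mul]
      refine Finset.sum_congr rfl fun l _ => ?_
      rw [← Finset.mul_prod_erase Finset.univ _ (Finset.mem_univ l), ← mul_assoc]
      congr 1
      rw [hKK]
      simp only
      rw [div_mul_cancel₀ _ (pow_ne_zero _ (e3 l))]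
      rw [hψ]
      simp only [map_sub, map_mul, MvPolynomial.pderiv_map]
  have hres := fun j : Fin N => MP1eadae.t2low_res (a j) (c j) (p j) (q j) (hε j).1 fun t ht =>
    hρq j t (ht.trans ((hε j).2.le.trans (hj₀ j)))
  have h6 := h5 (fun (j : Fin N) t => a j / (t - c j) + (p j).eval t / (q j).eval t)
    fun j => (hres j).1
  have h7 : Λ F' = ∏ j : Fin N, (2 * Real.pi * Complex.I * a j) := by
    rw [hF', h6]
    exact Finset.prod_congr rfl fun j _ => (hres j).2
  rw [hΛ0] at h7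
  exact absurd h7.symm (Finset.prod_ne_zero_iff.2 fun j _ =>
    mul_ne_zero (mul_ne_zero (mul_ne_zero two_ne_zero
      (Complex.ofReal_ne_zero.2 Real.pi_ne_zero)) Complex.I_ne_zero) (ha j))

end MP1eadaeL
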