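import Mathlib
import Pool.Agent.Lib_MP_1eadae_ag.Real

/-! # MP_1eadae_ag, piece T2UP: the relation with one more variable -/

namespace MP1eadae

namespace T2Up

/-- products of rational functions -/
theorem ratFn_mul {F G : (ℕ → ℝ) → ℂ} (hF : F ∈ RatFn ℚ) (hG : G ∈ RatFn ℚ) :
    (fun x => F x * G x) ∈ RatFn ℚ := by
  obtain ⟨P, Q, h⟩ := hF
  obtain ⟨P', Q', h'⟩ := hG
  refine ⟨P * P', Q * Q', fun x hx => ?_⟩
  obtain ⟨h1, h2⟩ := h x hx
  obtain ⟨h3, h4⟩ := h' x hx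
  have e1 : peval (Q * Q') x = peval Q x * peval Q' x := by simp [peval]
  have e2 : peval (P * P') x = peval P x * peval P' x := by simp [peval]
  refine ⟨by rw [e1]; exact mul_ne_zero h1 h3, ?_⟩
  show F x * G x = _
  rw [e1, e2, h2, h4]
  field_simp

theorem ratFn_neg {F : (ℕ → ℝ) → ℂ} (hF : F ∈ RatFn ℚ) : (fun x => - F x) ∈ RatFn ℚ := by
  obtain ⟨P, Q, h⟩ := hF
  refine ⟨-P, Q, fun x hx => ?_⟩
  obtain ⟨h1, h2⟩ := h x hx
  have e2 : peval (-P) x = - peval P x := by simp [peval]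
  refine ⟨h1, ?_⟩
  show - F x = _
  rw [e2, h2]
  ring

theorem ratFn_one : (fun _ : ℕ → ℝ => (1 : ℂ)) ∈ RatFn ℚ := by
  refine ⟨1, 1, fun x _ => ?_⟩
  have e : peval (1 : MvPolynomial ℕ ℚ) x = 1 := by simp [peval]
  rw [e]
  exact ⟨one_ne_zero, by simp⟩

theorem ratFn_prod {ι : Type} (s : Finset ι) {F : ι → (ℕ → ℝ) → ℂ} (h : ∀ i, F i ∈ RatFn ℚ) :
    (fun x => ∏ i ∈ s, F i x) ∈ RatFn ℚ := by
  classical
  induction s using Finset.induction_on with
  | empty => simpa using ratFn_one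
  | insert a s ha ih =>
    have e : (fun x => ∏ i ∈ insert a s, F i x) = fun x => F a x * ∏ i ∈ s, F i x := by
      funext x
      rw [Finset.prod_insert ha]
    rw [e]
    exact ratFn_mul (h a) ih

/-- The factor `u`. -/
noncomputable def uf (i : ℕ) (x : ℕ → ℝ) : ℂ :=
  (1 : ℂ) / (1 + (x i : ℂ)) - 2 * (x i : ℂ) / (1 + (x i : ℂ) ^ 2)

/-- The factor `4/(1+x^2)`. -/
noncomputable def af (i : ℕ) (x : ℕ → ℝ) : ℂ := (4 : ℂ) / (1 + (x i : ℂ) ^ 2)

theorem ne1 {t : ℝ} (ht : t ∈ Set.Icc (0:ℝ) 1) : (1 + (t : ℂ)) ≠ 0 := by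
  have h : (0:ℝ) < 1 + t := by have := ht.1; linarith
  exact_mod_cast h.ne'

theorem ne2 (t : ℝ) : (1 + (t : ℂ) ^ 2) ≠ 0 := by
  have h : (0:ℝ) < 1 + t ^ 2 := by positivity
  exact_mod_cast h.ne'

theorem uf_rat (i : ℕ) : uf i ∈ RatFn ℚ := by
  refine ⟨(1 + MvPolynomial.X i ^ 2) - 2 * MvPolynomial.X i * (1 + MvPolynomial.X i),
    (1 + MvPolynomial.X i) * (1 + MvPolynomial.X i ^ 2), fun x hx => ?_⟩
  have h1 := ne1 (hx i)
  have h2 := ne2 (x i)
  have e1 : peval ((1 + MvPolynomial.X i) * (1 + MvPolynomial.X i ^ 2) : MvPolynomial ℕ ℚ) x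
      = (1 + (x i : ℂ)) * (1 + (x i : ℂ) ^ 2) := by simp [peval]
  have e2 : peval ((1 + MvPolynomial.X i ^ 2) - 2 * MvPolynomial.X i * (1 + MvPolynomial.X i) :
      MvPolynomial ℕ ℚ) x = (1 + (x i : ℂ) ^ 2) - 2 * (x i : ℂ) * (1 + (x i : ℂ)) := by
    simp [peval]
  rw [e1, e2]
  refine ⟨mul_ne_zero h1 h2, ?_⟩
  unfold uf
  field_simp

theorem af_rat (i : ℕ) : af i ∈ RatFn ℚ := by
  refine ⟨4, 1 + MvPolynomial.X i ^ 2, fun x hx => ?_⟩
  have h2 := ne2 (x i)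
  have e1 : peval (1 + MvPolynomial.X i ^ 2 : MvPolynomial ℕ ℚ) x = 1 + (x i : ℂ) ^ 2 := by
    simp [peval]
  have e2 : peval (4 : MvPolynomial ℕ ℚ) x = 4 := by simp [peval]
  rw [e1, e2]
  exact ⟨h2, rfl⟩

/-- `φ`. -/
noncomputable def ph (t s : ℝ) : ℝ := 1 + (1 - s) * t + s * t ^ 2

/-- `U`. -/
noncomputable def Uf (t s : ℝ) : ℝ := (1 - s + 2 * s * t) / ph t s

/-- `V`. -/
noncomputable def Vf (t s : ℝ) : ℝ := (t ^ 2 - t) / ph t s

/-- the mixed second derivative. -/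
noncomputable def Df (t s : ℝ) : ℝ :=
  ((2 * t - 1) * ph t s - (t ^ 2 - t) * (1 - s + 2 * s * t)) / ph t s ^ 2

theorem ph_pos {t s : ℝ} (ht : t ∈ Set.Icc (0:ℝ) 1) (hs : s ∈ Set.Icc (0:ℝ) 1) : 0 < ph t s := by
  unfold ph
  have h1 : 0 ≤ (1 - s) * t := mul_nonneg (by linarith [hs.2]) ht.1
  have h2 : 0 ≤ s * t ^ 2 := mul_nonneg hs.1 (by positivity)
  linarith

theorem Uf_deriv {t s : ℝ} (ht : t ∈ Set.Icc (0:ℝ) 1) (hs : s ∈ Set.Icc (0:ℝ) 1) :
    HasDerivAt (fun τ : ℝ => Uf t τ) (Df t s) s := by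
  have hp := ph_pos ht hs
  have h1 : HasDerivAt (fun τ : ℝ => 1 - τ + 2 * τ * t) (-1 + 2 * t) s := by
    have h := ((hasDerivAt_id s).const_sub 1).add (((hasDerivAt_id s).const_mul 2).mul_const t)
    exact h.congr_deriv (by ring)
  have h2 : HasDerivAt (fun τ : ℝ => ph t τ) (t ^ 2 - t) s := by
    have h := ((((hasDerivAt_id s).const_sub 1).mul_const t).const_add 1).add
      ((hasDerivAt_id s).mul_const (t ^ 2))
    exact h.congr_deriv (by ring)
  refine (h1.div h2 hp.ne').congr_deriv ?_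
  unfold Df
  ring

theorem Vf_deriv {t s : ℝ} (ht : t ∈ Set.Icc (0:ℝ) 1) (hs : s ∈ Set.Icc (0:ℝ) 1) :
    HasDerivAt (fun τ : ℝ => Vf τ s) (Df t s) t := by
  have hp := ph_pos ht hs
  have h1 : HasDerivAt (fun τ : ℝ => τ ^ 2 - τ) (2 * t - 1) t := by
    have h := (hasDerivAt_pow 2 t).sub (hasDerivAt_id t)
    exact h.congr_deriv (by norm_num)
  have h2 : HasDerivAt (fun τ : ℝ => ph τ s) (1 - s + 2 * s * t) t := by
    have h := (((hasDerivAt_id t).const_mul (1 - s)).const_add 1).add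
      ((hasDerivAt_pow 2 t).const_mul s)
    exact h.congr_deriv (by norm_num; ring)
  have h3 := h1.div h2 hp.ne'
  exact h3

/-- lifting real quotients to rational functions -/
theorem rat_of {f g : (ℕ → ℝ) → ℝ} (P Q : MvPolynomial ℕ ℚ) (hP : ∀ x, peval P x = (f x : ℂ))
    (hQ : ∀ x, peval Q x = (g x : ℂ)) (hg : ∀ x ∈ Cube, g x ≠ 0) :
    (fun x => ((f x / g x : ℝ) : ℂ)) ∈ RatFn ℚ := by
  refine ⟨P, Q, fun x hx => ?_⟩
  rw [hP, hQ]
  refine ⟨by exact_mod_cast hg x hx, ?_⟩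
  push_cast
  rfl

theorem Uf_rat (i j : ℕ) : (fun x : ℕ → ℝ => ((Uf (x i) (x j) : ℝ) : ℂ)) ∈ RatFn ℚ := by
  unfold Uf
  refine rat_of (f := fun x => 1 - x j + 2 * x j * x i) (g := fun x => ph (x i) (x j))
    (1 - MvPolynomial.X j + 2 * MvPolynomial.X j * MvPolynomial.X i)
    (1 + (1 - MvPolynomial.X j) * MvPolynomial.X i + MvPolynomial.X j * MvPolynomial.X i ^ 2)
    (fun x => ?_) (fun x => ?_) fun x hx => (ph_pos (hx i) (hx j)).ne'
  · simp [peval]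
  · simp [peval, ph]

theorem Vf_rat (i j : ℕ) : (fun x : ℕ → ℝ => ((Vf (x i) (x j) : ℝ) : ℂ)) ∈ RatFn ℚ := by
  unfold Vf
  refine rat_of (f := fun x => x i ^ 2 - x i) (g := fun x => ph (x i) (x j))
    (MvPolynomial.X i ^ 2 - MvPolynomial.X i)
    (1 + (1 - MvPolynomial.X j) * MvPolynomial.X i + MvPolynomial.X j * MvPolynomial.X i ^ 2)
    (fun x => ?_) (fun x => ?_) fun x hx => (ph_pos (hx i) (hx j)).ne'
  · simp [peval]
  · simp [peval, ph]

theorem Df_rat (i j : ℕ) : (fun x : ℕ → ℝ => ((Df (x i) (x j) : ℝ) : ℂ)) ∈ RatFn ℚ := by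
  unfold Df
  refine rat_of (f := fun x => (2 * x i - 1) * ph (x i) (x j) -
      (x i ^ 2 - x i) * (1 - x j + 2 * x j * x i)) (g := fun x => ph (x i) (x j) ^ 2)
    ((2 * MvPolynomial.X i - 1) *
      (1 + (1 - MvPolynomial.X j) * MvPolynomial.X i + MvPolynomial.X j * MvPolynomial.X i ^ 2) -
      (MvPolynomial.X i ^ 2 - MvPolynomial.X i) *
        (1 - MvPolynomial.X j + 2 * MvPolynomial.X j * MvPolynomial.X i))
    ((1 + (1 - MvPolynomial.X j) * MvPolynomial.X i + MvPolynomial.X j * MvPolynomial.X i ^ 2) ^ 2)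
    (fun x => ?_) (fun x => ?_) fun x hx => (pow_pos (ph_pos (hx i) (hx j)) 2).ne'
  · simp [peval, ph]
  · simp [peval, ph]

/-- The product of the factors except the first. -/
noncomputable def Wf (n m : ℕ) (x : ℕ → ℝ) : ℂ :=
  (∏ i ∈ Finset.range n, uf (i + 1) x) * ∏ j ∈ Finset.range m, af (n + 1 + j) x

theorem Wf_rat (n m : ℕ) : Wf n m ∈ RatFn ℚ :=
  ratFn_mul (ratFn_prod _ fun i => uf_rat (i + 1)) (ratFn_prod _ fun j => af_rat (n + 1 + j))

theorem Wf_congr (n m : ℕ) {x y : ℕ → ℝ} (h : ∀ i, 0 < i → i < n + 1 + m → x i = y i) :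
    Wf n m x = Wf n m y := by
  unfold Wf
  congr 1
  · refine Finset.prod_congr rfl fun i hi => ?_
    rw [Finset.mem_range] at hi
    unfold uf
    rw [h (i + 1) (by omega) (by omega)]
  · refine Finset.prod_congr rfl fun j hj => ?_
    rw [Finset.mem_range] at hj
    unfold af
    rw [h (n + 1 + j) (by omega) (by omega)]

theorem Wf_update_zero (n m : ℕ) (x : ℕ → ℝ) (a : ℝ) :
    Wf n m (Function.update x 0 a) = Wf n m x :=
  Wf_congr n m fun i hi _ => by rw [Function.update_of_ne (by omega)]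

theorem Wf_update_last (n m : ℕ) (x : ℕ → ℝ) (a : ℝ) :
    Wf n m (Function.update x (n + 1 + m) a) = Wf n m x :=
  Wf_congr n m fun i _ hi => by rw [Function.update_of_ne (by omega)]

theorem dep_WF (n m : ℕ) (f : ℝ → ℝ → ℝ) :
    DepLT (n + 1 + m + 1) (fun x => Wf n m x * ((f (x 0) (x (n + 1 + m)) : ℝ) : ℂ)) := by
  intro x _ y _ h
  show Wf n m x * _ = Wf n m y * _
  rw [Wf_congr n m fun i _ hi => h i (by omega), h 0 (by omega), h (n + 1 + m) (by omega)]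

theorem prodAux (n m : ℕ) :
    (fun x : ℕ → ℝ => (∏ i ∈ Finset.range (n + 1), uf i x) *
      ∏ j ∈ Finset.range m, af (n + 1 + j) x) ∈
      StokesSpan {G | G ∈ RatFn ℚ ∧ DepLT (n + 1 + m + 1) G} := by
  refine ⟨2, ![n + 1 + m, 0],
    ![fun x => Wf n m x * ((Uf (x 0) (x (n + 1 + m)) : ℝ) : ℂ),
      fun x => - (Wf n m x * ((Vf (x 0) (x (n + 1 + m)) : ℝ) : ℂ))],
    ![fun x => Wf n m x * ((Df (x 0) (x (n + 1 + m)) : ℝ) : ℂ),
      fun x => - (Wf n m x * ((Df (x 0) (x (n + 1 + m)) : ℝ) : ℂ))], ?_, ?_⟩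
  · intro l
    fin_cases l
    · refine ⟨⟨ratFn_mul (Wf_rat n m) (Uf_rat _ _), dep_WF n m Uf⟩,
        ⟨ratFn_mul (Wf_rat n m) (Df_rat _ _), dep_WF n m Df⟩, fun x hx => ?_⟩
      show HasDerivWithinAt (fun τ : ℝ => Wf n m (Function.update x (n + 1 + m) τ) *
        ((Uf (Function.update x (n + 1 + m) τ 0)
          (Function.update x (n + 1 + m) τ (n + 1 + m)) : ℝ) : ℂ))
        (Wf n m x * ((Df (x 0) (x (n + 1 + m)) : ℝ) : ℂ)) (Set.Icc 0 1) (x (n + 1 + m))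
      have e : (fun τ : ℝ => Wf n m (Function.update x (n + 1 + m) τ) *
        ((Uf (Function.update x (n + 1 + m) τ 0)
          (Function.update x (n + 1 + m) τ (n + 1 + m)) : ℝ) : ℂ)) =
          fun τ : ℝ => Wf n m x * ((Uf (x 0) τ : ℝ) : ℂ) := by
        funext τ
        rw [Wf_update_last, Function.update_self, Function.update_of_ne (by omega)]
      rw [e]
      exact ((Uf_deriv (hx 0) (hx (n + 1 + m))).ofReal_comp.const_mul _).hasDerivWithinAt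
    · refine ⟨⟨ratFn_neg (ratFn_mul (Wf_rat n m) (Vf_rat _ _)), fun x hx y hy h => ?_⟩,
        ⟨ratFn_neg (ratFn_mul (Wf_rat n m) (Df_rat _ _)), fun x hx y hy h => ?_⟩, fun x hx => ?_⟩
      · show - _ = - _
        exact congrArg Neg.neg (dep_WF n m Vf x hx y hy h)
      · show - _ = - _
        exact congrArg Neg.neg (dep_WF n m Df x hx y hy h)
      show HasDerivWithinAt (fun τ : ℝ => - (Wf n m (Function.update x 0 τ) *
        ((Vf (Function.update x 0 τ 0)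
          (Function.update x 0 τ (n + 1 + m)) : ℝ) : ℂ)))
        (- (Wf n m x * ((Df (x 0) (x (n + 1 + m)) : ℝ) : ℂ))) (Set.Icc 0 1) (x 0)
      have e : (fun τ : ℝ => - (Wf n m (Function.update x 0 τ) *
        ((Vf (Function.update x 0 τ 0)
          (Function.update x 0 τ (n + 1 + m)) : ℝ) : ℂ))) =
          fun τ : ℝ => - (Wf n m x * ((Vf τ (x (n + 1 + m)) : ℝ) : ℂ)) := by
        funext τ
        rw [Wf_update_zero, Function.update_self, Function.update_of_ne (by omega)]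
      rw [e]
      exact ((Vf_deriv (hx 0) (hx (n + 1 + m))).ofReal_comp.const_mul _).neg.hasDerivWithinAt
  · intro x hx
    rw [Fin.sum_univ_two]
    simp only [Matrix.cons_val_zero, Matrix.cons_val_one, Wf_update_zero, Wf_update_last,
      Function.update_self]
    rw [Function.update_of_ne (by omega), Function.update_of_ne (by omega),
      Function.update_of_ne (by omega), Function.update_of_ne (by omega)]
    rw [Finset.prod_range_succ']
    have e1 : Uf (x 0) 1 = 2 * x 0 / (1 + x 0 ^ 2) := by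
      unfold Uf ph
      congr 1 <;> ring
    have e2 : Uf (x 0) 0 = 1 / (1 + x 0) := by
      unfold Uf ph
      congr 1 <;> ring
    have e3 : Vf 1 (x (n + 1 + m)) = 0 := by
      unfold Vf
      norm_num
    have e4 : Vf 0 (x (n + 1 + m)) = 0 := by
      unfold Vf
      norm_num
    rw [e1, e2, e3, e4]
    have e5 : uf 0 x = ((1 / (1 + x 0) : ℝ) : ℂ) - ((2 * x 0 / (1 + x 0 ^ 2) : ℝ) : ℂ) := by
      unfold uf
      push_cast
      rfl
    rw [e5]
    unfold Wf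
    push_cast
    ring

end T2Up

/-- Piece T2UP.  With `u(x) = 1/(1+x) - 2x/(1+x^2)`, the function
`∏_{i<n} u(x_i) * ∏_{j<m} 4/(1+x_{n+j}^2)` is a combination of Stokes relations between rational
functions over `ℚ` of `n+m+1` variables (`n ≥ 1`).

Proof.  Let `t = x_0`, `s = x_{n+m}`, `φ = 1 + (1-s) t + s t^2` (no zero on the cube),
`U = (1 - s + 2 s t)/φ`, `V = (t^2 - t)/φ`, and let `W` be the product of all the factors
except `u(x_0)` (independent of `s` and `t`).  Then `∂_s U = ∂_t V` (`U = ∂_t log φ`,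
`V = ∂_s log φ`), `U|_{s=1} = 2t/(1+t^2)`, `U|_{s=0} = 1/(1+t)`, `V|_{t=0} = V|_{t=1} = 0`. Hence
`W·u(x_0) = (∂_s(WU) - WU|_{s=1} + WU|_{s=0}) + (∂_t(-WV) + WV|_{t=1} - WV|_{t=0})`.
Two Stokes elements: `(i,G,H) = (n+m, W U, W ∂_s U)` and `(0, -W V, -W ∂_t V)`. -/
theorem prod_mem_stokesSpan (n m : ℕ) (hn : 1 ≤ n) :
    (fun x : ℕ → ℝ => (∏ i ∈ Finset.range n, ((1 : ℂ) / (1 + (x i : ℂ))
        - 2 * (x i : ℂ) / (1 + (x i : ℂ) ^ 2))) *
      ∏ j ∈ Finset.range m, (4 : ℂ) / (1 + (x (n + j) : ℂ) ^ 2)) ∈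
      StokesSpan {G | G ∈ RatFn ℚ ∧ DepLT (n + m + 1) G} := by
  obtain ⟨n, rfl⟩ : ∃ k, n = k + 1 := ⟨n - 1, by omega⟩
  exact T2Up.prodAux n m

end MP1eadae
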