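import Mathlib
import Pool.Agent.Lib_MP_1eadae_ag.Real
import Pool.Agent.Lib_MP_1eadae_ag.Real2
import Pool.Agent.Lib_MP_1eadae_ag.T2Up
import Pool.Agent.Lib_MP_1eadae_ag.TrA
import Pool.Agent.Lib_MP_1eadae_ag.TrN
import Pool.Agent.Lib_MP_1eadae_ag.AlgMul
import Pool.Agent.Lib_MP_1eadae_ag.AlgGood
import Pool.Agent.Lib_MP_1eadae_ag.N2
import Pool.Agent.Lib_MP_1eadae_ag.N3

/-! # MP_1eadae_ag, piece N4: the number of variables cannot be bounded, for algebraic functions -/

namespace MP1eadae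

open MP1eadaeL

/-- the inclusion of `ℂ` in the subfield `⊤` -/
noncomputable def n4i : ℂ →+* (⊤ : Subfield ℂ) := (Subfield.topEquiv (K := ℂ)).symm.toRingHom

theorem n4i_coe (a : ℂ) : ((n4i a : (⊤ : Subfield ℂ)) : ℂ) = a := rfl

theorem n4_aeval {σ : Type} (z : σ → ℂ) (P : MvPolynomial σ ℂ) :
    MvPolynomial.aeval z (MvPolynomial.map n4i P) = MvPolynomial.eval z P := by
  induction P using MvPolynomial.induction_on with
  | C a =>
    rw [MvPolynomial.map_C, MvPolynomial.aeval_C, MvPolynomial.eval_C]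
    rfl
  | add p q hp hq => rw [map_add, map_add, map_add, hp, hq]
  | mul_X p i hp => rw [map_mul, map_mul, map_mul, hp, MvPolynomial.map_X, MvPolynomial.aeval_X,
      MvPolynomial.eval_X]

/-- substitution of `0` for the variables of index `≥ n` -/
noncomputable def n4s (n : ℕ) : MvPolynomial ℕ ℂ →+* MvPolynomial (Fin n) (⊤ : Subfield ℂ) :=
  (MvPolynomial.map n4i).comp (MvPolynomial.aeval (R := ℂ) (fun i : ℕ => if h : i < n then
    (MvPolynomial.X ⟨i, h⟩ : MvPolynomial (Fin n) ℂ) else 0)).toRingHom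

theorem n4s_eval {n : ℕ} (z : CubeT n) (P : MvPolynomial ℕ ℂ) :
    MvPolynomial.aeval z.1 (n4s n P) =
      MvPolynomial.aeval (fun i => (((ext z i).re : ℝ) : ℂ)) P := by
  have h1 : (fun i => (((ext z i).re : ℝ) : ℂ)) = ext z := ofReal_re (ext_mem_dom z)
  rw [h1]
  show MvPolynomial.aeval z.1 (MvPolynomial.map n4i (MvPolynomial.aeval (R := ℂ) (fun i : ℕ =>
    if h : i < n then (MvPolynomial.X ⟨i, h⟩ : MvPolynomial (Fin n) ℂ) else 0) P)) = _
  rw [n4_aeval]
  induction P using MvPolynomial.induction_on with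
  | C a =>
    rw [MvPolynomial.aeval_C, MvPolynomial.aeval_C]
    exact MvPolynomial.eval_C a
  | add p q hp hq => rw [map_add, map_add, map_add, hp, hq]
  | mul_X p i hp =>
    rw [map_mul, map_mul, map_mul, hp, MvPolynomial.aeval_X, MvPolynomial.aeval_X]
    congr 1
    show MvPolynomial.eval z.1 (if h : i < n then MvPolynomial.X ⟨i, h⟩ else 0) =
      (if h : i < n then z.1 ⟨i, h⟩ else 0)
    split_ifs with hi
    · rw [MvPolynomial.eval_X]
    · exact map_zero _

theorem n4_evR {n : ℕ} (z : CubeT n) (q : Polynomial (MvPolynomial ℕ ℂ)) (y : ℂ) :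
    evR (phi (⊤ : Subfield ℂ) n) (q.map (n4s n)) z y = pevalY q (fun i => (ext z i).re) y := by
  unfold evR pevalY
  rw [Polynomial.eval₂_map]
  congr 1
  ext P
  · show MvPolynomial.aeval z.1 (n4s n (MvPolynomial.C P)) = _
    rw [n4s_eval]
    rfl
  · show MvPolynomial.aeval z.1 (n4s n (MvPolynomial.X P)) = _
    rw [n4s_eval]
    rfl

/-- A Nash function over `ℂ` of `n` variables is algebraic of level `n` over `⊤` (proof as for
`algAt_of_nash` in TrN.lean, without descent). -/
theorem algAt_top_of_nash {n : ℕ} {f : (ℕ → ℝ) → ℂ} (hf : f ∈ NashFn ℂ) (hd : DepLT n f) :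
    AlgAt (⊤ : Subfield ℂ) n (cx f) := by
  refine ⟨depLT_iff.1 hd, fun z0 => ?_⟩
  obtain ⟨q, A, B, w, U, hU, hx0, hw, h⟩ := hf.2 _ (re_mem_cube (ext_mem_dom z0))
  obtain ⟨ρ, hρ⟩ : ∃ ρ : CubeT n → (ℕ → ℝ), ρ = fun z i => (ext z i).re := ⟨_, rfl⟩
  have hρc : Continuous ρ := by
    rw [hρ]
    exact continuous_pi fun i => Complex.continuous_re.comp ((continuous_apply i).comp
      continuous_ext)
  have hρm : ∀ z, ρ z ∈ Cube := fun z => by
    rw [hρ]
    exact re_mem_cube (ext_mem_dom z)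
  have hρ0 : ρ z0 ∈ U := by
    rw [hρ]
    exact hx0
  have hev : ∀ᶠ z in nhds z0, ρ z ∈ U :=
    hρc.continuousAt.eventually (hU.eventually_mem hρ0)
  refine ⟨fun z => w (ρ z), ⟨q.map (n4s n), ?_⟩, A.map (n4s n), B.map (n4s n), ?_⟩
  · filter_upwards [hev] with z hz
    have h1 := h (ρ z) ⟨hz, hρm z⟩
    refine ⟨?_, ?_, ?_⟩
    · have h2 : Filter.Tendsto ρ (nhds z) (nhdsWithin (ρ z) (U ∩ Cube)) := by
        refine tendsto_nhdsWithin_iff.2 ⟨hρc.continuousAt, ?_⟩
        filter_upwards [hρc.continuousAt.eventually (hU.eventually_mem hz)] with y hy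
        exact ⟨hy, hρm y⟩
      exact (hw (ρ z) ⟨hz, hρm z⟩).tendsto.comp h2
    · rw [n4_evR]
      rw [hρ] at h1 ⊢
      exact h1.1
    · rw [Polynomial.derivative_map, n4_evR]
      rw [hρ] at h1 ⊢
      exact h1.2.1
  · filter_upwards [hev] with z hz
    have h1 := h (ρ z) ⟨hz, hρm z⟩
    rw [n4_evR, n4_evR]
    rw [hρ] at h1 ⊢
    exact ⟨h1.2.2.1, h1.2.2.2⟩

theorem n4_zero (N : ℕ) : AlgAt (⊤ : Subfield ℂ) N (fun _ => 0) := by
  refine AlgAt.rat ?_ (fun _ _ _ _ _ => rfl)
  exact IsRat.const 0 (zero_mem _)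

theorem n4_upd {F : (ℕ → ℝ) → ℂ} (z : Pt) (i : ℕ) (t : ℝ) :
    cx F (Function.update z i (t : ℂ)) = F (Function.update (fun j => (z j).re) i t) := by
  show F (fun j => (Function.update z i (t : ℂ) j).re) = _
  congr 1
  funext j
  by_cases hj : j = i
  · subst hj
    rw [Function.update_self, Function.update_self, Complex.ofReal_re]
  · rw [Function.update_of_ne hj, Function.update_of_ne hj]

/-- one Stokes element as a derivative -/
theorem n4_term {N : ℕ} (hN : 1 ≤ N) (i : ℕ) (G H : (ℕ → ℝ) → ℂ) (hG : G ∈ NashFn ℂ)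
    (hGd : DepLT N G) (hP : PartialD i G H) : ∃ (i' : Fin N) (G' H' : Pt → ℂ),
      AlgAt (⊤ : Subfield ℂ) N G' ∧ Part X0 (i' : ℕ) G' H' ∧ ∀ z ∈ Dom X0,
        H' z = cx H z - cx G (Function.update z i 1) + cx G (Function.update z i 0) := by
  have hPc := PartialD.cx hP
  have hA := algAt_top_of_nash hG hGd
  by_cases hi : i < N
  · refine ⟨⟨i, hi⟩, fun z => cx G z + ((-(z i)) * cx G (Function.update z i 1) +
      z i * cx G (Function.update z i 0)), fun z => cx H z - cx G (Function.update z i 1) +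
      cx G (Function.update z i 0), ?_, ?_, fun _ _ => rfl⟩
    · have hcomp : ∀ (R : Pt → ℂ) (c : ℂ), c ∈ seg → IsRat (⊤ : Subfield ℂ) X0 R →
          DepOn X0 (Set.Iio N) R →
          AlgAt (⊤ : Subfield ℂ) N (fun z => R z * cx G (Function.update z i c)) := by
        intro R c hc hR hRd
        refine AlgAt.mulcomp (φ := fun z => Function.update z i c) hA hR hRd ?_ ?_ ?_
        · intro j _
          by_cases hj : j = i
          · subst hj
            simp only [Function.update_self]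
            exact IsRat.const c (Subfield.mem_top c)
          · simp only [Function.update_of_ne hj]
            exact IsRat.coord j
        · intro j hjN z _ w _ hzw
          by_cases hj : j = i
          · subst hj
            simp only [Function.update_self]
          · simp only [Function.update_of_ne hj]
            exact hzw j hjN
        · intro z hz j
          by_cases hj : j = i
          · subst hj
            simp only [Function.update_self]
            exact hc
          · simp only [Function.update_of_ne hj]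
            exact hz j
      refine AlgAt.add hA (AlgAt.add ?_ ?_)
      · exact hcomp (fun z => -(z i)) 1 one_mem_seg (IsRat.coord i).neg
          (fun z _ w _ h => by
            show -(z i) = -(w i)
            rw [h i hi])
      · exact hcomp (fun z => z i) 0 zero_mem_seg (IsRat.coord i)
          (fun z _ w _ h => h i hi)
    · intro z hz
      have h1 := hPc z hz
      have h2 : HasDerivWithinAt (fun w : ℂ => (-w) * cx G (Function.update z i 1) +
          w * cx G (Function.update z i 0))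
          ((-1) * cx G (Function.update z i 1) + 1 * cx G (Function.update z i 0))
          (X0 i) (z i) :=
        ((hasDerivWithinAt_id (z i) (X0 i)).neg.mul_const _).add
          ((hasDerivWithinAt_id (z i) (X0 i)).mul_const _)
      have h3 := h1.add h2
      have h4 : (fun w : ℂ => cx G (Function.update z i w)) + (fun w : ℂ =>
          (-w) * cx G (Function.update z i 1) + w * cx G (Function.update z i 0)) =
          fun w : ℂ => cx G (Function.update z i w) + ((-((Function.update z i w) i)) *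
            cx G (Function.update (Function.update z i w) i 1) + (Function.update z i w) i *
            cx G (Function.update (Function.update z i w) i 0)) := by
        funext w
        rw [Pi.add_apply, Function.update_self, Function.update_idem, Function.update_idem]
      rw [h4] at h3
      refine h3.congr_deriv ?_
      ring
  · refine ⟨⟨0, hN⟩, fun _ => 0, fun _ => 0, n4_zero N, ?_, ?_⟩
    · intro z _
      exact hasDerivWithinAt_const _ _ _
    · intro z hz
      have hind : Indep X0 i (cx G) := (depLT_iff.1 hGd).indep (fun h => hi h)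
      have h1 := hind z hz 1 one_mem_seg
      have h2 := hind z hz 0 zero_mem_seg
      have h3 := Part.unique ud_seg hPc (Part.of_indep hind) z hz
      rw [h1, h2, h3]
      ring

/-- Piece N4.  As `prod_not_mem_stokesSpan` (T2Low), for algebraic functions with complex coefficients.
Proof.  Let `F x = ∑_l (H_l x - G_l(x_i := 1) + G_l(x_i := 0))` on `Cube`, `G_l ∈ NashFn ℂ`, `DepLT N`,
`i = i_l`.  The `l` with `i_l ≥ N` contribute `0` (`H_l = 0` on the cube by uniqueness of derivatives).  For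
`i_l < N` put `G'_l = G_l - x_i (G_l(x_i:=1) - G_l(x_i:=0))`; then `∂_i G'_l = H_l - G_l(x_i:=1) + G_l(x_i:=0)`, and
`G'_l` is algebraic of level `N` (`algAt_top_of_nash`, `AlgAt.mulcomp`, `AlgAt.add`).  So `cx F = ∑_l ∂_{i_l} G'_l`, a sum
of derivatives of algebraic functions of `N` variables.  `F` is on the cube the quotient `P0/Q0` of the polynomials
`∏_j (a_j q_j(z_j) + (z_j - c_j) p_j(z_j))` and `∏_j ((z_j - c_j) q_j(z_j))`.  Apply
`nash_primitive_to_rational` (`K = ⊤`) and `prod_not_sum_derivatives`. -/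
theorem prod_not_mem_stokesSpan_nash (N : ℕ) (hN : 1 ≤ N) (a c : ℕ → ℂ) (p q : ℕ → Polynomial ℂ)
    (ha : ∀ i < N, a i ≠ 0) (hq : ∀ i < N, (q i).eval (c i) ≠ 0)
    (F : (ℕ → ℝ) → ℂ)
    (hF : ∀ x ∈ Cube, ∀ i < N, (x i : ℂ) ≠ c i ∧ (q i).eval (x i : ℂ) ≠ 0)
    (hF2 : ∀ x ∈ Cube, F x = ∏ i ∈ Finset.range N,
      (a i / ((x i : ℂ) - c i) + (p i).eval (x i : ℂ) / (q i).eval (x i : ℂ))) :
    F ∉ StokesSpan {G | G ∈ NashFn ℂ ∧ DepLT N G} := by
  rintro ⟨m, i, G, H, hGH, hsum⟩
  choose i' G' H' hG' hP' hH' using fun l => n4_term hN (i l) (G l) (H l) (hGH l).1.1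
    (hGH l).1.2 (hGH l).2.2
  obtain ⟨B₀, hB₀⟩ : ∃ B₀ : MvPolynomial (Fin N) ℂ, B₀ = ∏ j : Fin N,
    ((MvPolynomial.X j - MvPolynomial.C (c j)) *
    Polynomial.aeval (MvPolynomial.X j) (q j)) := ⟨_, rfl⟩
  obtain ⟨A₀, hA₀⟩ : ∃ A₀ : MvPolynomial (Fin N) ℂ, A₀ = ∏ j : Fin N, (MvPolynomial.C (a j) *
    Polynomial.aeval (MvPolynomial.X j) (q j) +
      Polynomial.aeval (MvPolynomial.X j) (p j) * (MvPolynomial.X j - MvPolynomial.C (c j))) :=
    ⟨_, rfl⟩
  have hev : ∀ (z : Fin N → ℂ) (j : Fin N) (R : Polynomial ℂ),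
      MvPolynomial.eval z (Polynomial.aeval (MvPolynomial.X j : MvPolynomial (Fin N) ℂ) R) =
        R.eval (z j) := by
    intro z j R
    have h1 : MvPolynomial.eval z (Polynomial.aeval (MvPolynomial.X j : MvPolynomial (Fin N) ℂ) R)
        = MvPolynomial.aeval z (Polynomial.aeval (MvPolynomial.X j : MvPolynomial (Fin N) ℂ) R) := by
      rw [MvPolynomial.aeval_eq_eval]
    rw [h1, ← Polynomial.aeval_algHom_apply, MvPolynomial.aeval_X, Polynomial.coe_aeval_eq_eval]
  have hB₀e : ∀ z : Fin N → ℂ, MvPolynomial.eval z B₀ = ∏ j : Fin N, ((z j - c j) *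
      (q j).eval (z j)) := by
    intro z
    rw [hB₀, map_prod]
    refine Finset.prod_congr rfl fun j _ => ?_
    rw [map_mul, hev, map_sub, MvPolynomial.eval_X, MvPolynomial.eval_C]
  have hA₀e : ∀ z : Fin N → ℂ, MvPolynomial.eval z A₀ = ∏ j : Fin N, (a j * (q j).eval (z j) +
      (p j).eval (z j) * (z j - c j)) := by
    intro z
    rw [hA₀, map_prod]
    refine Finset.prod_congr rfl fun j _ => ?_
    rw [map_add, map_mul, map_mul, hev, hev, map_sub, MvPolynomial.eval_X, MvPolynomial.eval_C,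
      MvPolynomial.eval_C]
  have hAB : ∀ z : Fin N → ℂ, (∀ j : Fin N, z j ≠ c j ∧ (q j).eval (z j) ≠ 0) →
      MvPolynomial.eval z A₀ = MvPolynomial.eval z B₀ *
        ∏ j : Fin N, (a j / (z j - c j) + (p j).eval (z j) / (q j).eval (z j)) := by
    intro z hz
    rw [hB₀e, hA₀e, ← Finset.prod_mul_distrib]
    refine Finset.prod_congr rfl fun j _ => ?_
    have h2 : z j - c j ≠ 0 := sub_ne_zero.2 (hz j).1
    have h3 : (q j).eval (z j) ≠ 0 := (hz j).2
    field_simp
  have hzc : ∀ (z : CubeT N) (j : Fin N), (((ext z (j : ℕ)).re : ℝ) : ℂ) = z.1 j := by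
    intro z j
    have h1 : (((ext z (j : ℕ)).re : ℝ) : ℂ) = ext z (j : ℕ) :=
      congrFun (ofReal_re (ext_mem_dom z)) (j : ℕ)
    rw [h1]
    show (if h : (j : ℕ) < N then z.1 ⟨j, h⟩ else 0) = z.1 j
    rw [dif_pos j.2]
  have hne : ∀ (z : CubeT N) (j : Fin N), z.1 j ≠ c j ∧ (q j).eval (z.1 j) ≠ 0 := by
    intro z j
    have h1 := hF _ (re_mem_cube (ext_mem_dom z)) j j.2
    rw [hzc] at h1
    exact h1
  have hQ0 : ∀ z : CubeT N, MvPolynomial.aeval z.1 (MvPolynomial.map n4i B₀) ≠ (0 : ℂ) := by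
    intro z
    rw [n4_aeval, hB₀e]
    exact Finset.prod_ne_zero_iff.2 fun j _ => mul_ne_zero (sub_ne_zero.2 (hne z j).1) (hne z j).2
  have hid : ∀ z : CubeT N, (MvPolynomial.aeval z.1 (MvPolynomial.map n4i A₀) : ℂ) /
      MvPolynomial.aeval z.1 (MvPolynomial.map n4i B₀) = ∑ l, H' l (ext z) := by
    intro z
    have h1 := hQ0 z
    rw [n4_aeval] at h1
    rw [n4_aeval, n4_aeval, hAB z.1 (hne z), mul_div_cancel_left₀ _ h1]
    have h2 := hF2 _ (re_mem_cube (ext_mem_dom z))
    rw [Finset.prod_range] at h2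
    have h3 : ∏ j : Fin N, (a j / (z.1 j - c j) + (p j).eval (z.1 j) / (q j).eval (z.1 j)) =
        F (fun i => (ext z i).re) := by
      rw [h2]
      refine Finset.prod_congr rfl fun j _ => ?_
      rw [hzc]
    rw [h3, hsum _ (re_mem_cube (ext_mem_dom z))]
    refine Finset.sum_congr rfl fun l _ => ?_
    have e1 := n4_upd (F := G l) (ext z) (i l) 1
    have e0 := n4_upd (F := G l) (ext z) (i l) 0
    rw [Complex.ofReal_one] at e1
    rw [Complex.ofReal_zero] at e0
    rw [hH' l _ (ext_mem_dom z), e1, e0]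
    rfl
  obtain ⟨P, Q, hQ, hPQ⟩ := nash_primitive_to_rational i' G' H' hG' hP'
    (MvPolynomial.map n4i A₀) (MvPolynomial.map n4i B₀) hQ0 hid
  refine prod_not_sum_derivatives hN (fun j => a j) (fun j => c j) (fun j => p j) (fun j => q j)
    (fun j => ha j j.2) (fun j => hq j j.2) (MvPolynomial.map n4i A₀) (MvPolynomial.map n4i B₀)
    ?_ ?_ i' P Q hQ hPQ
  · intro h
    have h1 := hQ0 ⟨fun _ => 0, fun _ => zero_mem_seg⟩
    rw [h, map_zero] at h1
    exact h1 rfl
  · intro z hz
    rw [n4_aeval, n4_aeval]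
    exact hAB z.1 hz

/-- The main statement: `n ≥ 1`, `m ≥ 0`.  (Copy the proof of `main_T2` in T2Main.lean.) -/
theorem main_T2_nash (n m : ℕ) (hn : 1 ≤ n) :
    (fun x : ℕ → ℝ => (∏ i ∈ Finset.range n, ((1 : ℂ) / (1 + (x i : ℂ))
        - 2 * (x i : ℂ) / (1 + (x i : ℂ) ^ 2))) *
      ∏ j ∈ Finset.range m, (4 : ℂ) / (1 + (x (n + j) : ℂ) ^ 2)) ∈
      StokesSpan {G | G ∈ RatFn ℚ ∧ DepLT (n + m + 1) G} ∧
    (fun x : ℕ → ℝ => (∏ i ∈ Finset.range n, ((1 : ℂ) / (1 + (x i : ℂ))
        - 2 * (x i : ℂ) / (1 + (x i : ℂ) ^ 2))) *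
      ∏ j ∈ Finset.range m, (4 : ℂ) / (1 + (x (n + j) : ℂ) ^ 2)) ∉
      StokesSpan {G | G ∈ NashFn ℂ ∧ DepLT (n + m) G} := by
  refine ⟨prod_mem_stokesSpan n m hn, ?_⟩
  have hre : ∀ (y : ℝ) (z : ℂ), (y : ℂ) = z → z.re = y ∧ z.im = 0 := by
    intro y z h
    rw [← h]
    exact ⟨Complex.ofReal_re y, Complex.ofReal_im y⟩
  have h1 : ∀ y : ℝ, (1 : ℂ) + (y : ℂ) ^ 2 ≠ 0 := by
    intro y h
    have h2 : ((1 + y ^ 2 : ℝ) : ℂ) = 0 := by
      push_cast
      exact h
    have h3 : (1 + y ^ 2 : ℝ) = 0 := by exact_mod_cast h2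
    nlinarith [sq_nonneg y]
  have hI1 : ∀ y : ℝ, (y : ℂ) ≠ Complex.I := by
    intro y h
    have h2 := (hre y _ h).2
    simp at h2
  have hI2 : ∀ y : ℝ, (y : ℂ) + Complex.I ≠ 0 := by
    intro y h
    have h2 := (hre y (-Complex.I) (eq_neg_of_add_eq_zero_left h)).2
    simp at h2
  refine prod_not_mem_stokesSpan_nash (n + m) (by omega) (fun i => if i < n then 1 else -2 * Complex.I)
    (fun i => if i < n then -1 else Complex.I)
    (fun i => if i < n then -2 * Polynomial.X else Polynomial.C (2 * Complex.I))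
    (fun i => if i < n then 1 + Polynomial.X ^ 2 else Polynomial.X + Polynomial.C Complex.I)
    ?_ ?_ _ ?_ ?_
  · intro i _
    by_cases hi : i < n
    · simp [hi]
    · simp [hi]
  · intro i _
    by_cases hi : i < n
    · simp only [hi, if_true]
      simp only [Polynomial.eval_add, Polynomial.eval_one, Polynomial.eval_pow, Polynomial.eval_X]
      norm_num
    · simp only [hi, if_false]
      simp only [Polynomial.eval_add, Polynomial.eval_X, Polynomial.eval_C]
      rw [← two_mul]
      exact mul_ne_zero two_ne_zero Complex.I_ne_zero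
  · intro x hx i _
    have hxi := hx i
    by_cases hi : i < n
    · simp only [hi, if_true]
      refine ⟨fun h => ?_, ?_⟩
      · have h2 := (hre (x i) _ h).1
        simp only [Complex.neg_re, Complex.one_re] at h2
        have h3 := hxi.1
        linarith
      · simp only [Polynomial.eval_add, Polynomial.eval_one, Polynomial.eval_pow, Polynomial.eval_X]
        exact h1 (x i)
    · simp only [hi, if_false]
      refine ⟨hI1 (x i), ?_⟩
      simp only [Polynomial.eval_add, Polynomial.eval_X, Polynomial.eval_C]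
      exact hI2 (x i)
  · intro x hx
    rw [Finset.prod_range_add]
    congr 1
    · refine Finset.prod_congr rfl fun i hi => ?_
      have hi' : i < n := Finset.mem_range.1 hi
      simp only [hi', if_true]
      simp only [Polynomial.eval_add, Polynomial.eval_one, Polynomial.eval_pow, Polynomial.eval_X,
        Polynomial.eval_mul, Polynomial.eval_neg, Polynomial.eval_ofNat]
      rw [sub_neg_eq_add, add_comm (1 : ℂ) (x i : ℂ), neg_mul, neg_div, sub_eq_add_neg]
    · refine Finset.prod_congr rfl fun j _ => ?_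
      have hj' : ¬ n + j < n := by omega
      simp only [hj', if_false]
      simp only [Polynomial.eval_add, Polynomial.eval_X, Polynomial.eval_C]
      have h2 := sub_ne_zero.2 (hI1 (x (n + j)))
      have h3 := hI2 (x (n + j))
      have h4 := h1 (x (n + j))
      rw [div_add_div _ _ h2 h3, div_eq_div_iff h4 (mul_ne_zero h2 h3)]
      linear_combination (-4 + 4 * ((1 : ℂ) + (x (n + j) : ℂ) ^ 2)) * Complex.I_sq

end MP1eadae
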