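import Mathlib
import Pool.Agent.Lib_MP_1eadae_ag.Defs
import Pool.Agent.Lib_MP_1eadae_ag.RatA
import Pool.Agent.Lib_MP_1eadae_ag.RatB
import Pool.Agent.Lib_MP_1eadae_ag.RatC
import Pool.Agent.Lib_MP_1eadae_ag.Ctr
import Pool.Agent.Lib_MP_1eadae_ag.Stk
import Pool.Agent.Lib_MP_1eadae_ag.Pen
import Pool.Agent.Lib_MP_1eadae_ag.Root
import Pool.Agent.Lib_MP_1eadae_ag.TwoSort
import Pool.Agent.Lib_MP_1eadae_ag.SubB
import Pool.Agent.Lib_MP_1eadae_ag.Scale
import Pool.Agent.Lib_MP_1eadae_ag.RepA
import Pool.Agent.Lib_MP_1eadae_ag.VanA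
import Pool.Agent.Lib_MP_1eadae_ag.VanB
import Pool.Agent.Lib_MP_1eadae_ag.AlgGood
import Pool.Agent.Lib_MP_1eadae_ag.AlgRoot

/-! # MP_1eadae_ag, piece REPALG: the residue represents `2πi f` in the algebraic Stokes calculus -/

namespace MP1eadaeL

open Complex Function

/-- Substitution of an algebraic function for a parameter coordinate `e` not among the directions. -/
theorem St.subst_param {K : Subfield ℂ} {C : (Pt → ℂ) → Prop} {e : ℕ} {B : Set ℂ} {I0 : Set ℕ}
    (he : e ∉ I0) {η : Pt → ℂ} (hηB : ∀ z ∈ Dom X0, η z ∈ B) (hηI : ∀ i ∈ I0, Indep X0 i η)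
    (hC : ∀ R, IsRat K (update X0 e B) R → C (fun z => R (update z e (η z)))) {F : Pt → ℂ}
    (h : St (IsRat K (update X0 e B)) (update X0 e B) I0 F) :
    St C X0 I0 (fun z => F (update z e (η z))) := by
  induction h with
  | gen i hi G H hG hH hP =>
    have hie : i ≠ e := fun h => he (h ▸ hi)
    have hP' : Part X0 i (fun z => G (update z e (η z))) (fun z => H (update z e (η z))) :=
      Part.comp_of_indep hie hP hηB (hηI i hi)
    refine St.congr _ _ (St.gen i hi _ _ (hC _ hG) (hC _ hH) hP') (fun z hz => ?_)
    show H (update z e (η z)) - G (update (update z i 1) e (η (update z i 1))) +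
      G (update (update z i 0) e (η (update z i 0))) = _
    rw [hηI i hi z hz 1 one_mem_seg, hηI i hi z hz 0 zero_mem_seg, update_comm hie,
      update_comm hie]
  | zero => exact St.zero
  | add F G _ _ h1 h2 => exact St.add _ _ h1 h2
  | neg F _ h1 => exact St.neg _ h1
  | congr F G _ h1 h2 =>
    exact St.congr _ _ h2 (fun z hz => h1 _ (update_mem_dom hz (hηB z hz)))


private theorem ra_dom0 {n e : ℕ} (hne : n ≠ e) {B : Set ℂ} {z : Pt}
    (hz : z ∈ Dom (update (update X0 n B) e B)) {a : ℂ} (ha : a ∈ seg) :
    update z e a ∈ Dom (update X0 n B) := by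
  intro i
  by_cases hi : i = e
  · subst hi
    rw [update_self, update_of_ne (Ne.symm hne)]
    exact ha
  · have h1 := hz i
    rw [update_of_ne hi] at h1 ⊢
    exact h1

/-- the divided difference of the function of a pencil is close to `1` -/
private theorem ra_dq {K : Subfield ℂ} {n e : ℕ} (hne : n ≠ e) {Q Qy D : Pt → ℂ} {c : ℂ} {r : ℚ}
    (P : Pencil K X0 n Q Qy c r) (hD : IsRat K (update (update X0 n (disc c r)) e (disc c r)) D)
    (hDQ : ∀ z ∈ Dom (update (update X0 n (disc c r)) e (disc c r)),
      Q (update z e 0) - Q (update (update z e 0) n (z e)) = (z n - z e) * D z) :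
    ∀ z ∈ Dom (update (update X0 n (disc c r)) e (disc c r)), D z ≠ 0 := by
  have hoff : ∀ z ∈ Dom (update (update X0 n (disc c r)) e (disc c r)), z n ≠ z e →
      ‖D z - 1‖ ≤ 1 / 2 := by
    intro z hz hne'
    have hzn : z n ∈ disc c r := by
      have := hz n
      rwa [update_of_ne hne, update_self] at this
    have hze : z e ∈ disc c r := by
      have := hz e
      rwa [update_self] at this
    have hbase : update (update z e 0) n 0 ∈ Dom X0 := by
      intro i
      by_cases hi : i = n
      · subst hi
        rw [update_self]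
        exact zero_mem_seg
      · have h1 := ra_dom0 hne hz zero_mem_seg i
        rw [update_of_ne hi] at h1 ⊢
        exact h1
    have h1 := P.contr _ hbase (z n) hzn (z e) hze
    rw [update_idem, update_idem] at h1
    have h2 : update (update z e 0) n (z n) = update z e 0 := by
      have h3 : (update z e (0 : ℂ)) n = z n := update_of_ne hne _ _
      rw [← h3, update_eq_self]
    rw [h2] at h1
    have h4 : Q (update z e 0) - z n - (Q (update (update z e 0) n (z e)) - z e) =
        (z n - z e) * (D z - 1) := by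
      linear_combination hDQ z hz
    rw [h4, norm_mul] at h1
    have hpos : 0 < ‖z n - z e‖ := norm_pos_iff.2 (sub_ne_zero.2 hne')
    by_contra hcon
    push Not at hcon
    nlinarith
  have hle : ∀ z ∈ Dom (update (update X0 n (disc c r)) e (disc c r)), ‖D z - 1‖ ≤ 1 / 2 := by
    intro z hz
    by_cases hpq : z n = z e
    · have hzn : z n ∈ disc c r := by
        have := hz n
        rwa [update_of_ne hne, update_self] at this
      have hdom : ∀ y ∈ disc c r, update z n y ∈
          Dom (update (update X0 n (disc c r)) e (disc c r)) := by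
        intro y hy i
        by_cases hi : i = n
        · subst hi
          rw [update_self, update_of_ne hne, update_self]
          exact hy
        · rw [update_of_ne hi]
          exact hz i
      have hline : ContinuousOn (fun y => D (update z n y)) (disc c r) :=
        hD.continuousOn.comp (Continuous.continuousOn (continuous_const.update n continuous_id))
          hdom
      have hacc : AccPt (z n) (Filter.principal (disc c r)) :=
        uniqueDiffWithinAt_iff_accPt.1 (ud_disc c r P.hr (z n) hzn)
      have hnb : (nhdsWithin (z n) (disc c r \ {z n})).NeBot := by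
        rw [AccPt] at hacc
        have e1 : nhdsWithin (z n) (disc c r \ {z n}) =
            nhdsWithin (z n) {z n}ᶜ ⊓ Filter.principal (disc c r) := by
          rw [nhdsWithin, nhdsWithin, inf_assoc, Filter.inf_principal, Set.inter_comm]
          rfl
        rw [e1]
        exact hacc
      have t1 := ((hline (z n) hzn).tendsto.mono_left
        (nhdsWithin_mono _ (Set.sdiff_subset (t := {z n})))).sub_const 1 |>.norm
      simp only [update_eq_self] at t1
      refine le_of_tendsto t1 ?_
      filter_upwards [self_mem_nhdsWithin] with y hy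
      refine hoff _ (hdom y hy.1) ?_
      rw [update_self, update_of_ne (Ne.symm hne), ← hpq]
      exact hy.2
    · exact hoff z hz hpq
  intro z hz h0
  have := hle z hz
  rw [h0, zero_sub, norm_neg, norm_one] at this
  norm_num at this

/-- Piece REPALG.  Proof.  Data `(c, r, F, Q, Qy)` in the coordinate `n`, root function `η`; `e = n+1`, `s = n+2`.
(a) `g - f · res(1,Q) = ctr n ((F - f) Qy/Q)`.  By `IsRat.divided` (auxiliary coordinate `e`)
`F(z,y) - F(z,η) = (y-η) DF(z,y,η)`, `Q(z,y) = Q(z,y) - Q(z,η) = (y-η) DQ(z,y,η)`, and `DQ ≠ 0` (contraction: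
`‖DQ - 1‖ ≤ 1/2`).  So on the circle `(F - f) Qy/Q = (DF/DQ) Qy` evaluated at `e := η z`, where
`R = (DF/DQ) Qy` is rational on `Dom (X0[e:=disc c r][n:=disc c r])`.  `St.cauchy` on `X = X0[e := disc c r]`
(directions `s, n`) and `St.subst_param` with `C = AlgK K` (`algK_root`).
(b) `f · (res(1,Q) - tpi n)` is in the span by `St.hom` and `St.mul_indep` (`f` is independent of `n, s`;
`AlgK K` is closed under multiplication by `f` as `f z = F(z, η z)` is algebraic, `AlgAt.mul`). -/
theorem Rep.alg {K : Subfield ℂ} (hI : I ∈ K) {n : ℕ} {f g : Pt → ℂ} (h : Rep K n f g) :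
    St (AlgK K) X0 Set.univ (fun z => g z - tpi n z * f z) := by
  obtain ⟨hd, c, r, F, Q, Qy, P, hF, hFd, hQd, h0, hg⟩ := h
  obtain ⟨η, hη, ηc, ηi, ηn, -⟩ := P.exists_root rfl
  have hne : n ≠ n + 1 := by omega
  have hsn : n + 2 ≠ n := by omega
  have hse : n + 2 ≠ n + 1 := by omega
  have hQs : ∀ i, n < i → Indep (update X0 n (disc c r)) i Q := fun i hi =>
    hQd.indep (fun h => by have h' : i < n + 1 := h; omega)
  have hFs : ∀ i, n < i → Indep (update X0 n (disc c r)) i F := fun i hi =>
    hFd.indep (fun h => by have h' : i < n + 1 := h; omega)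
  have hUn : ∀ w ∈ update X0 n (disc c r) n, UniqueDiffWithinAt ℂ (update X0 n (disc c r) n) w := by
    rw [update_self]
    exact ud_disc c r P.hr
  have hQys : ∀ i, n < i → Indep (update X0 n (disc c r)) i Qy := fun i hi =>
    Part.indep (Nat.ne_of_gt hi) hUn P.part (hQs i hi)
  have hdomn : ∀ z ∈ Dom X0, ∀ y ∈ disc c r, update z n y ∈ Dom (update X0 n (disc c r)) :=
    fun z hz y hy => update_mem_dom hz hy
  -- `η` depends on the first `n` coordinates
  have hηd : DepOn X0 (Set.Iio n) η := by
    intro z hz w hw hzw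
    obtain ⟨a1, -, a2, -⟩ := hη z hz
    refine (hη w hw).2.2.2 _ a1 ?_
    rw [← hQd _ (hdomn z hz _ a1) _ (hdomn w hw _ a1) (fun i hi => ?_)]
    · exact a2
    · by_cases h : i = n
      · rw [h, update_self, update_self]
      · have hi' : i < n + 1 := hi
        rw [update_of_ne h, update_of_ne h]
        exact hzw i (Set.mem_Iio.2 (by omega))
  have hηs : ∀ i, n ≤ i → Indep X0 i η := fun i hi =>
    hηd.indep (fun h => by have h' : i < n := h; omega)
  have hfη : ∀ z ∈ Dom X0, F (update z n (η z)) = f z := fun z hz =>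
    h0 z hz _ (hη z hz).1 (hη z hz).2.2.1
  have hroot : ∀ z ∈ Dom X0, η z ∈ disc c r ∧ Q (update z n (η z)) = 0 := fun z hz =>
    ⟨(hη z hz).1, (hη z hz).2.2.1⟩
  -- divided differences
  obtain ⟨DF, rDF, eDF, iDF⟩ := IsRat.divided (q := n + 1) hne rfl P.hr hF
  obtain ⟨DQ, rDQ, eDQ, iDQ⟩ := IsRat.divided (q := n + 1) hne rfl P.hr P.ratQ
  have nDQ := ra_dq hne P rDQ eDQ
  have hcomm : update (update X0 (n + 1) (disc c r)) n (disc c r) =
      update (update X0 n (disc c r)) (n + 1) (disc c r) := update_comm (Ne.symm hne) _ _ _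
  have rQyE : IsRat K (update (update X0 n (disc c r)) (n + 1) (disc c r))
      (fun z => Qy (update z (n + 1) 0)) := by
    refine IsRat.subst (X := update (update X0 n (disc c r)) (n + 1) (disc c r)) (p := n + 1)
      (B := seg) (g := fun _ => 0) (P.ratQy.monoDom fun z hz i => ?_) (IsRat.const 0 K.zero_mem)
      (fun z _ => zero_mem_seg)
    have h1 := hz i
    by_cases hi : i = n + 1
    · subst hi
      rw [update_self] at h1
      rw [update_of_ne (Ne.symm hne)]
      exact h1
    · rw [update_of_ne hi, update_of_ne hi] at h1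
      exact h1
  have rR : IsRat K (update (update X0 (n + 1) (disc c r)) n (disc c r))
      (fun z => DF z / DQ z * Qy (update z (n + 1) 0)) := by
    rw [hcomm]
    exact (rDF.div rDQ nDQ).mul rQyE
  have iR : Indep (update (update X0 (n + 1) (disc c r)) n (disc c r)) (n + 2)
      (fun z => DF z / DQ z * Qy (update z (n + 1) 0)) := by
    rw [hcomm]
    intro z hz w hw
    have hw' : w ∈ update X0 n (disc c r) (n + 2) := by
      rw [update_of_ne hse] at hw
      exact hw
    show DF (update z (n + 2) w) / DQ (update z (n + 2) w) *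
      Qy (update (update z (n + 2) w) (n + 1) 0) = _
    rw [iDF (n + 2) hsn hse (hFs _ (by omega)) z hz w hw,
      iDQ (n + 2) hsn hse (hQs _ (by omega)) z hz w hw, update_comm hse,
      hQys (n + 2) (by omega) _ (ra_dom0 hne hz zero_mem_seg) w hw']
  have hXn : update X0 (n + 1) (disc c r) n = seg := by
    rw [update_of_ne hne]
    rfl
  have hXs : update X0 (n + 1) (disc c r) (n + 2) = seg := by
    rw [update_of_ne hse]
    rfl
  have hca := St.cauchy (s := n + 2) hI P.hc P.hr hXn hXs hsn rR iR
  have hI0 : n + 1 ∉ ({n + 2, n} : Set ℕ) := by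
    intro h
    rcases h with h | h
    · omega
    · have h' : n + 1 = n := h
      omega
  have hpar : St (AlgK K) X0 {n + 2, n} (fun z => ctr n c r
      (fun z => DF z / DQ z * Qy (update z (n + 1) 0)) (update z (n + 1) (η z))) := by
    refine St.subst_param hI0 (fun z hz => (hroot z hz).1) (fun i hi => ?_)
      (fun R hR => algK_root P hQd hroot ηc hηd hR) hca
    rcases hi with h | h
    · rw [h]
      exact hηs _ (by omega)
    · rw [Set.mem_singleton_iff.1 h]
      exact hηs _ le_rfl
  have hparE : ∀ z ∈ Dom X0, ctr n c r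
      (fun z => DF z / DQ z * Qy (update z (n + 1) 0)) (update z (n + 1) (η z)) =
      res n c r F Q Qy z - res n c r (fun _ => 1) Q Qy z * f z := by
    intro z hz
    have hzn : z n ∈ seg := hz n
    unfold res ctr
    rw [Finset.sum_mul, ← Finset.sum_sub_distrib]
    refine Finset.sum_congr rfl fun j _ => ?_
    have e1 : (update z (n + 1) (η z)) n = z n := update_of_ne hne _ _
    rw [e1]
    obtain ⟨y, hy⟩ : ∃ y, y = c + (r : ℂ) * uj j (z n) := ⟨_, rfl⟩
    have hyc : y ∈ circ c r := hy ▸ mem_circ_uj c P.hr.le j hzn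
    have hyd : y ∈ disc c r := circ_subset_disc c r hyc
    rw [← hy]
    have hzy := hdomn z hz y hyd
    obtain ⟨w, hw⟩ : ∃ w, w = update (update z n y) (n + 1) (η z) := ⟨_, rfl⟩
    have e2 : update (update z (n + 1) (η z)) n y = w := by
      rw [hw, update_comm (Ne.symm hne)]
    have hwdom : w ∈ Dom (update (update X0 n (disc c r)) (n + 1) (disc c r)) := by
      rw [hw]
      exact update_mem_dom hzy (hroot z hz).1
    have e3 : update w (n + 1) 0 = update (update z n y) (n + 1) 0 := by rw [hw, update_idem]
    have e4 : w (n + 1) = η z := by rw [hw, update_self]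
    have e5 : w n = y := by rw [hw, update_of_ne hne, update_self]
    have e6 : update (update w (n + 1) 0) n (w (n + 1)) =
        update (update z n (η z)) (n + 1) 0 := by
      rw [e3, e4, update_comm (Ne.symm hne), update_idem]
    have h0seg : (0 : ℂ) ∈ update X0 n (disc c r) (n + 1) := by
      rw [update_of_ne (Ne.symm hne)]
      exact zero_mem_seg
    have hzη := hdomn z hz (η z) (hroot z hz).1
    have k1 := eDF w hwdom
    rw [e6, e3, hFs (n + 1) (by omega) _ hzy 0 h0seg, hFs (n + 1) (by omega) _ hzη 0 h0seg,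
      hfη z hz, e4, e5] at k1
    have k2 := eDQ w hwdom
    rw [e6, e3, hQs (n + 1) (by omega) _ hzy 0 h0seg, hQs (n + 1) (by omega) _ hzη 0 h0seg,
      (hroot z hz).2, e4, e5, sub_zero] at k2
    have hQ0 : Q (update z n y) ≠ 0 := P.circ_ne rfl (update_mem_dom hz hyc)
    have hyη : y - η z ≠ 0 := by
      intro h
      rw [h, zero_mul] at k2
      exact hQ0 k2
    have hD0 := nDQ w hwdom
    have k3 : Qy (update w (n + 1) 0) = Qy (update z n y) := by
      rw [e3]
      exact hQys (n + 1) (by omega) _ hzy 0 h0seg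
    show DF (update (update z (n + 1) (η z)) n y) / DQ (update (update z (n + 1) (η z)) n y) *
        Qy (update (update (update z (n + 1) (η z)) n y) (n + 1) 0) * ((r : ℂ) * duj j (z n)) =
      F (update z n y) * Qy (update z n y) / Q (update z n y) * ((r : ℂ) * duj j (z n)) -
        1 * Qy (update z n y) / Q (update z n y) * ((r : ℂ) * duj j (z n)) * f z
    rw [e2, k3]
    have k4 : DF w / DQ w = (F (update z n y) - f z) / Q (update z n y) := by
      rw [k1, k2]
      field_simp
    rw [k4]
    ring
  -- the second part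
  have good := goodClass_algK K
  have hfA : AlgK K f := good.congr _ _ (algK_root P hQd hroot ηc hηd hF) hfη
  have hmul : ∀ G, AlgK K G → AlgK K (fun z => G z * f z) := by
    rintro G ⟨a, hG⟩
    obtain ⟨b, hb⟩ := hfA
    exact ⟨max a b, (hG.mono (le_max_left a b)).mul (hb.mono (le_max_right a b))⟩
  have hhom := St.hom (s := n + 2) hI P rfl rfl hsn (hQs (n + 2) (by omega))
  have hhomA : St (AlgK K) X0 {n + 2, n}
      (fun z => (res n c r (fun _ => 1) Q Qy z - tpi n z) * f z) := by
    refine St.mul_indep hmul (fun i _ => ⟨zero_mem_seg, one_mem_seg⟩) (fun i hi => ?_)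
      (St.mono good.rat le_rfl hhom)
    refine hd.indep (fun h => ?_)
    have h' : i < n := h
    rcases hi with h1 | h1
    · omega
    · have h2 : i = n := h1
      omega
  refine St.mono (fun _ h => h) (Set.subset_univ _) (St.congr _ _ (St.add _ _ hpar hhomA)
    (fun z hz => ?_))
  show ctr n c r (fun z => DF z / DQ z * Qy (update z (n + 1) 0)) (update z (n + 1) (η z)) +
    (res n c r (fun _ => 1) Q Qy z - tpi n z) * f z = g z - tpi n z * f z
  rw [hparE z hz, hg z hz]
  ring

end MP1eadaeL
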