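import Mathlib
import Pool.Agent.Lib_MP_1eadae_ag.Defs
import Pool.Agent.Lib_MP_1eadae_ag.RatA
import Pool.Agent.Lib_MP_1eadae_ag.RatB
import Pool.Agent.Lib_MP_1eadae_ag.RatC
import Pool.Agent.Lib_MP_1eadae_ag.Ctr
import Pool.Agent.Lib_MP_1eadae_ag.Stk
import Pool.Agent.Lib_MP_1eadae_ag.Pen
import Pool.Agent.Lib_MP_1eadae_ag.Root
import Pool.Agent.Lib_MP_1eadae_ag.TwoSort
import Pool.Agent.Lib_MP_1eadae_ag.SubB
import Pool.Agent.Lib_MP_1eadae_ag.Scale
import Pool.Agent.Lib_MP_1eadae_ag.RepA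
import Pool.Agent.Lib_MP_1eadae_ag.RepAlg
import Pool.Agent.Lib_MP_1eadae_ag.AlgRep
import Pool.Agent.Lib_MP_1eadae_ag.AlgGood

/-! # MP_1eadae_ag, piece SURJ: generation by rational functions -/

namespace MP1eadaeL

open Complex Function

/-- Piece SURJ.  Proof.  `algRep`: a fine grid `N` and `g_a` with `Rep K n (f∘sc_a) g_a`; let
`g = ∑_a (1/N)^n g_a`, rational (`Rep.isRat`), depending on the coordinates `< n+1` (`Rep.depOn`).
`GoodClass.subdiv` for `C = AlgK K` (`goodClass_algK`), applied to `f` with `s = n+1`: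
`f - ∑_a (1/N)^n f∘sc_a` in the span with directions `insert (n+1) (Iio n)`, hence also multiplied by `tpi n`
(`St.mul_indep`).  `Rep.alg`: `g_a - tpi n · f∘sc_a` in the span. -/
theorem surj {K : Subfield ℂ} (hI : I ∈ K) {n : ℕ} {f : Pt → ℂ} (hf : AlgAt K n f) :
    ∃ g, IsRat K X0 g ∧ DepOn X0 (Set.Iio (n + 1)) g ∧
      St (AlgK K) X0 Set.univ (fun z => tpi n z * f z - g z) := by
  obtain ⟨N, hN, h0⟩ := algRep hI hf
  choose g hg using h0 N le_rfl
  have hC := goodClass_algK K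
  have hrat : IsRat K X0 (fun _ : Pt => (1 / (N : ℂ)) ^ n) := by
    refine IsRat.pow (IsRat.const _ ?_) n
    exact K.div_mem K.one_mem (natCast_mem K N)
  have hseg : ∀ i : ℕ, (0 : ℂ) ∈ X0 i ∧ (1 : ℂ) ∈ X0 i := fun _ => ⟨zero_mem_seg, one_mem_seg⟩
  refine ⟨fun z => ∑ a : Fin n → Fin N, (1 / (N : ℂ)) ^ n * g a z, ?_, ?_, ?_⟩
  · exact IsRat.sum Finset.univ (fun a z => (1 / (N : ℂ)) ^ n * g a z)
      (fun a _ => hrat.mul ((hg a).isRat hI))
  · intro z hz w hw h
    exact Finset.sum_congr rfl fun a _ => by rw [(hg a).depOn z hz w hw h]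
  · have hind : Indep X0 (n + 1) f := hf.1.indep (fun h => absurd (Set.mem_Iio.1 h) (by omega))
    have s1 := hC.subdiv ⟨n, hf⟩ n (s := n + 1) (by omega) hind N hN
    have htpi : ∀ i ∈ insert (n + 1) (Set.Iio n), Indep X0 i (tpi n) := by
      intro i hi z _ w _
      have hne : n ≠ i := by
        rcases hi with rfl | hi
        · omega
        · exact (ne_of_lt (Set.mem_Iio.1 hi)).symm
      unfold tpi
      rw [update_of_ne hne]
    have s2 := St.mul_indep (W := tpi n) (fun G hG => hC.mul_rat hG (isRat_tpi hI rfl))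
      (fun i _ => hseg i) htpi s1
    have s3 := St.mono (C' := AlgK K) (J0 := Set.univ) (fun _ h => h) (Set.subset_univ _) s2
    have s4 : ∀ a : Fin n → Fin N, St (AlgK K) X0 Set.univ
        (fun z => (g a z - tpi n z * f (sc n N a z)) * (1 / (N : ℂ)) ^ n) := fun a =>
      St.mul_indep (W := fun _ => (1 / (N : ℂ)) ^ n) (fun G hG => hC.mul_rat hG hrat)
        (fun i _ => hseg i) (fun _ _ _ _ _ _ => rfl) (Rep.alg hI (hg a))
    have s5 := St.sum (Finset.univ : Finset (Fin n → Fin N)) _ (fun a _ => s4 a)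
    refine St.congr _ _ (St.sub s3 s5) (fun z _ => ?_)
    show (f z - ∑ a : Fin n → Fin N, (1 / (N : ℂ)) ^ n * f (sc n N a z)) * tpi n z -
      ∑ a : Fin n → Fin N, (g a z - tpi n z * f (sc n N a z)) * (1 / (N : ℂ)) ^ n =
      tpi n z * f z - ∑ a : Fin n → Fin N, (1 / (N : ℂ)) ^ n * g a z
    rw [sub_mul, Finset.sum_mul, sub_sub, ← Finset.sum_add_distrib, mul_comm (f z)]
    refine congrArg (fun x => tpi n z * f z - x) (Finset.sum_congr rfl fun a _ => ?_)
    ring

end MP1eadaeL
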