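import Mathlib
import Pool.Agent.Lib_MP_1eadae_ag.Real
import Pool.Agent.Lib_MP_1eadae_ag.T2Low
import Pool.Agent.Lib_MP_1eadae_ag.T2Up

/-! # MP_1eadae_ag, T2: the number of variables of the Stokes relations cannot be bounded -/

namespace MP1eadae

/-- T2.  For all `n ≥ 1` and `m`: `∏_{i<n} u(x_i) * ∏_{j<m} 4/(1+x_{n+j}^2)` (a function of `n+m`
variables, whose integral is `0`) is a combination of Stokes relations between rational functions
over `ℚ` of `n+m+1` variables, but not a combination of Stokes relations between rational functions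
over `ℂ` of `n+m` variables. -/
theorem main_T2 (n m : ℕ) (hn : 1 ≤ n) :
    (fun x : ℕ → ℝ => (∏ i ∈ Finset.range n, ((1 : ℂ) / (1 + (x i : ℂ))
        - 2 * (x i : ℂ) / (1 + (x i : ℂ) ^ 2))) *
      ∏ j ∈ Finset.range m, (4 : ℂ) / (1 + (x (n + j) : ℂ) ^ 2)) ∈
      StokesSpan {G | G ∈ RatFn ℚ ∧ DepLT (n + m + 1) G} ∧
    (fun x : ℕ → ℝ => (∏ i ∈ Finset.range n, ((1 : ℂ) / (1 + (x i : ℂ))
        - 2 * (x i : ℂ) / (1 + (x i : ℂ) ^ 2))) *
      ∏ j ∈ Finset.range m, (4 : ℂ) / (1 + (x (n + j) : ℂ) ^ 2)) ∉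
      StokesSpan {G | G ∈ RatFn ℂ ∧ DepLT (n + m) G} := by
  refine ⟨prod_mem_stokesSpan n m hn, ?_⟩
  have hre : ∀ (y : ℝ) (z : ℂ), (y : ℂ) = z → z.re = y ∧ z.im = 0 := by
    intro y z h
    rw [← h]
    exact ⟨Complex.ofReal_re y, Complex.ofReal_im y⟩
  have h1 : ∀ y : ℝ, (1 : ℂ) + (y : ℂ) ^ 2 ≠ 0 := by
    intro y h
    have h2 : ((1 + y ^ 2 : ℝ) : ℂ) = 0 := by
      push_cast
      exact h
    have h3 : (1 + y ^ 2 : ℝ) = 0 := by exact_mod_cast h2
    nlinarith [sq_nonneg y]
  have hI1 : ∀ y : ℝ, (y : ℂ) ≠ Complex.I := by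
    intro y h
    have h2 := (hre y _ h).2
    simp at h2
  have hI2 : ∀ y : ℝ, (y : ℂ) + Complex.I ≠ 0 := by
    intro y h
    have h2 := (hre y (-Complex.I) (eq_neg_of_add_eq_zero_left h)).2
    simp at h2
  refine prod_not_mem_stokesSpan (n + m) (by omega) (fun i => if i < n then 1 else -2 * Complex.I)
    (fun i => if i < n then -1 else Complex.I)
    (fun i => if i < n then -2 * Polynomial.X else Polynomial.C (2 * Complex.I))
    (fun i => if i < n then 1 + Polynomial.X ^ 2 else Polynomial.X + Polynomial.C Complex.I)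
    ?_ ?_ _ ?_ ?_
  · intro i _
    by_cases hi : i < n
    · simp [hi]
    · simp [hi]
  · intro i _
    by_cases hi : i < n
    · simp only [hi, if_true]
      simp only [Polynomial.eval_add, Polynomial.eval_one, Polynomial.eval_pow, Polynomial.eval_X]
      norm_num
    · simp only [hi, if_false]
      simp only [Polynomial.eval_add, Polynomial.eval_X, Polynomial.eval_C]
      rw [← two_mul]
      exact mul_ne_zero two_ne_zero Complex.I_ne_zero
  · intro x hx i _
    have hxi := hx i
    by_cases hi : i < n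
    · simp only [hi, if_true]
      refine ⟨fun h => ?_, ?_⟩
      · have h2 := (hre (x i) _ h).1
        simp only [Complex.neg_re, Complex.one_re] at h2
        have h3 := hxi.1
        linarith
      · simp only [Polynomial.eval_add, Polynomial.eval_one, Polynomial.eval_pow, Polynomial.eval_X]
        exact h1 (x i)
    · simp only [hi, if_false]
      refine ⟨hI1 (x i), ?_⟩
      simp only [Polynomial.eval_add, Polynomial.eval_X, Polynomial.eval_C]
      exact hI2 (x i)
  · intro x hx
    rw [Finset.prod_range_add]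
    congr 1
    · refine Finset.prod_congr rfl fun i hi => ?_
      have hi' : i < n := Finset.mem_range.1 hi
      simp only [hi', if_true]
      simp only [Polynomial.eval_add, Polynomial.eval_one, Polynomial.eval_pow, Polynomial.eval_X,
        Polynomial.eval_mul, Polynomial.eval_neg, Polynomial.eval_ofNat]
      rw [sub_neg_eq_add, add_comm (1 : ℂ) (x i : ℂ), neg_mul, neg_div, sub_eq_add_neg]
    · refine Finset.prod_congr rfl fun j _ => ?_
      have hj' : ¬ n + j < n := by omega
      simp only [hj', if_false]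
      simp only [Polynomial.eval_add, Polynomial.eval_X, Polynomial.eval_C]
      have h2 := sub_ne_zero.2 (hI1 (x (n + j)))
      have h3 := hI2 (x (n + j))
      have h4 := h1 (x (n + j))
      rw [div_add_div _ _ h2 h3, div_eq_div_iff h4 (mul_ne_zero h2 h3)]
      linear_combination (-4 + 4 * ((1 : ℂ) + (x (n + j) : ℂ) ^ 2)) * Complex.I_sq

end MP1eadae
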