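import Pool.Agent.Lib_MP_1eadae_ag.N4

/-!
# The number of variables in the relations between formal periods

In the presentation of formal periods by algebraic functions on cubes modulo the Newton-Leibniz
elements `∂G/∂x_i - G|_{x_i=1} + G|_{x_i=0}`, relations between functions of `N` variables cannot be
generated in `N` variables, for every `N ≥ 1`, even after multiplication by powers of `π`.
-/

set_option autoImplicit false

namespace Pool.Agent.Results.MP_1eadae_ag.VariablesUnbounded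

open MP1eadae

theorem result (n m : ℕ) (hn : 1 ≤ n) :
    (fun x : ℕ → ℝ => (∏ i ∈ Finset.range n, ((1 : ℂ) / (1 + (x i : ℂ))
        - 2 * (x i : ℂ) / (1 + (x i : ℂ) ^ 2))) *
      ∏ j ∈ Finset.range m, (4 : ℂ) / (1 + (x (n + j) : ℂ) ^ 2)) ∈
      StokesSpan {G | G ∈ RatFn ℚ ∧ DepLT (n + m + 1) G} ∧
    (fun x : ℕ → ℝ => (∏ i ∈ Finset.range n, ((1 : ℂ) / (1 + (x i : ℂ))
        - 2 * (x i : ℂ) / (1 + (x i : ℂ) ^ 2))) *
      ∏ j ∈ Finset.range m, (4 : ℂ) / (1 + (x (n + j) : ℂ) ^ 2)) ∉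
      StokesSpan {G | G ∈ NashFn ℂ ∧ DepLT (n + m) G} :=
  main_T2_nash n m hn

end Pool.Agent.Results.MP_1eadae_ag.VariablesUnbounded
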